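import Pool.Agent.H92.BN.Iface2

/-!
# Basic API for `BB` and `V Ω`
-/

set_option autoImplicit false

namespace Pool.Agent.H92.BN

open MeasureTheory Set Filter Topology
open scoped ContDiff InnerProductSpace

/-! ### inner products -/

theorem dI_eq_inner (u v : BB) : dI u v = ⟪u.snd, v.snd⟫_ℝ := by
  unfold dI gr; rw [L2.inner_def]

theorem mI_eq_inner (u v : BB) : mI u v = ⟪u.fst, v.fst⟫_ℝ := by
  unfold mI fn; rw [L2.inner_def]
  congr 1; ext x
  simp [mul_comm]

theorem inner_eq (u v : BB) : ⟪u, v⟫_ℝ = mI u v + dI u v := by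
  rw [WithLp.prod_inner_apply, mI_eq_inner, dI_eq_inner]
  rfl

theorem norm_sq_eq (u : BB) : ‖u‖ ^ 2 = mI u u + dI u u := by
  rw [← inner_eq, real_inner_self_eq_norm_sq]

theorem mI_self_eq (u : BB) : mI u u = ‖u.fst‖ ^ 2 := by
  rw [mI_eq_inner, real_inner_self_eq_norm_sq]

theorem dI_self_eq (u : BB) : dI u u = ‖u.snd‖ ^ 2 := by
  rw [dI_eq_inner, real_inner_self_eq_norm_sq]

theorem mI_self_nonneg (u : BB) : 0 ≤ mI u u := by rw [mI_self_eq]; positivity

theorem dI_self_nonneg (u : BB) : 0 ≤ dI u u := by rw [dI_self_eq]; positivity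

theorem mI_comm (u v : BB) : mI u v = mI v u := by
  rw [mI_eq_inner, mI_eq_inner, real_inner_comm]

theorem dI_comm (u v : BB) : dI u v = dI v u := by
  rw [dI_eq_inner, dI_eq_inner, real_inner_comm]

theorem mI_add_left (u v w : BB) : mI (u + v) w = mI u w + mI v w := by
  simp only [mI_eq_inner, WithLp.add_fst, inner_add_left]

theorem mI_add_right (u v w : BB) : mI u (v + w) = mI u v + mI u w := by
  simp only [mI_eq_inner, WithLp.add_fst, inner_add_right]

theorem mI_sub_left (u v w : BB) : mI (u - v) w = mI u w - mI v w := by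
  simp only [mI_eq_inner, WithLp.sub_fst, inner_sub_left]

theorem mI_sub_right (u v w : BB) : mI u (v - w) = mI u v - mI u w := by
  simp only [mI_eq_inner, WithLp.sub_fst, inner_sub_right]

theorem mI_smul_left (c : ℝ) (u v : BB) : mI (c • u) v = c * mI u v := by
  simp only [mI_eq_inner, WithLp.smul_fst, real_inner_smul_left]

theorem mI_smul_right (c : ℝ) (u v : BB) : mI u (c • v) = c * mI u v := by
  simp only [mI_eq_inner, WithLp.smul_fst, real_inner_smul_right]

theorem mI_neg_left (u v : BB) : mI (-u) v = - mI u v := by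
  simp only [mI_eq_inner, WithLp.neg_fst, inner_neg_left]

theorem mI_neg_right (u v : BB) : mI u (-v) = - mI u v := by
  simp only [mI_eq_inner, WithLp.neg_fst, inner_neg_right]

@[simp] theorem mI_zero_left (v : BB) : mI 0 v = 0 := by
  simp only [mI_eq_inner, WithLp.zero_fst, inner_zero_left]

@[simp] theorem mI_zero_right (v : BB) : mI v 0 = 0 := by
  simp only [mI_eq_inner, WithLp.zero_fst, inner_zero_right]

theorem dI_add_left (u v w : BB) : dI (u + v) w = dI u w + dI v w := by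
  simp only [dI_eq_inner, WithLp.add_snd, inner_add_left]

theorem dI_add_right (u v w : BB) : dI u (v + w) = dI u v + dI u w := by
  simp only [dI_eq_inner, WithLp.add_snd, inner_add_right]

theorem dI_sub_left (u v w : BB) : dI (u - v) w = dI u w - dI v w := by
  simp only [dI_eq_inner, WithLp.sub_snd, inner_sub_left]

theorem dI_sub_right (u v w : BB) : dI u (v - w) = dI u v - dI u w := by
  simp only [dI_eq_inner, WithLp.sub_snd, inner_sub_right]

theorem dI_smul_left (c : ℝ) (u v : BB) : dI (c • u) v = c * dI u v := by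
  simp only [dI_eq_inner, WithLp.smul_snd, real_inner_smul_left]

theorem dI_smul_right (c : ℝ) (u v : BB) : dI u (c • v) = c * dI u v := by
  simp only [dI_eq_inner, WithLp.smul_snd, real_inner_smul_right]

theorem dI_neg_left (u v : BB) : dI (-u) v = - dI u v := by
  simp only [dI_eq_inner, WithLp.neg_snd, inner_neg_left]

theorem dI_neg_right (u v : BB) : dI u (-v) = - dI u v := by
  simp only [dI_eq_inner, WithLp.neg_snd, inner_neg_right]

@[simp] theorem dI_zero_left (v : BB) : dI 0 v = 0 := by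
  simp only [dI_eq_inner, WithLp.zero_snd, inner_zero_left]

@[simp] theorem dI_zero_right (v : BB) : dI v 0 = 0 := by
  simp only [dI_eq_inner, WithLp.zero_snd, inner_zero_right]

theorem continuous_fst' : Continuous (fun u : BB => u.fst) := WithLp.continuous_fst 2 _ _

theorem continuous_snd' : Continuous (fun u : BB => u.snd) := WithLp.continuous_snd 2 _ _

theorem continuous_mI : Continuous (fun p : BB × BB => mI p.1 p.2) := by
  simp only [mI_eq_inner]
  exact (continuous_fst'.comp continuous_fst).inner (continuous_fst'.comp continuous_snd)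

theorem continuous_dI : Continuous (fun p : BB × BB => dI p.1 p.2) := by
  simp only [dI_eq_inner]
  exact (continuous_snd'.comp continuous_fst).inner (continuous_snd'.comp continuous_snd)

theorem abs_mI_le (u v : BB) : |mI u v| ≤ Real.sqrt (mI u u) * Real.sqrt (mI v v) := by
  rw [mI_eq_inner, mI_self_eq, mI_self_eq, Real.sqrt_sq (norm_nonneg _),
    Real.sqrt_sq (norm_nonneg _)]
  exact abs_real_inner_le_norm _ _

theorem abs_dI_le (u v : BB) : |dI u v| ≤ Real.sqrt (dI u u) * Real.sqrt (dI v v) := by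
  rw [dI_eq_inner, dI_self_eq, dI_self_eq, Real.sqrt_sq (norm_nonneg _),
    Real.sqrt_sq (norm_nonneg _)]
  exact abs_real_inner_le_norm _ _

theorem abs_mI_le_norm (u v : BB) : |mI u v| ≤ ‖u‖ * ‖v‖ := by
  rw [mI_eq_inner]
  refine (abs_real_inner_le_norm _ _).trans ?_
  gcongr
  · exact WithLp.norm_fst_le _ u
  · exact WithLp.norm_fst_le _ v

theorem abs_dI_le_norm (u v : BB) : |dI u v| ≤ ‖u‖ * ‖v‖ := by
  rw [dI_eq_inner]
  refine (abs_real_inner_le_norm _ _).trans ?_
  gcongr
  · exact WithLp.norm_snd_le _ u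
  · exact WithLp.norm_snd_le _ v

/-! ### representatives of test functions -/

theorem IsTest.memLp {Ω : Set E} {φ : E → ℝ} (h : IsTest Ω φ) (p : ENNReal) :
    MemLp φ p volume :=
  h.smooth.continuous.memLp_of_hasCompactSupport h.cpt

theorem IsTest.continuous_gradient {Ω : Set E} {φ : E → ℝ} (h : IsTest Ω φ) :
    Continuous (gradient φ) := by
  have h1 : Continuous (fderiv ℝ φ) := h.smooth.continuous_fderiv (by simp)
  exact (LinearIsometryEquiv.continuous _).comp h1

theorem hasCompactSupport_gradient {φ : E → ℝ} (h : HasCompactSupport φ) :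
    HasCompactSupport (gradient φ) := by
  have h1 : HasCompactSupport (fderiv ℝ φ) := h.fderiv (𝕜 := ℝ)
  exact h1.comp_left (g := fun l => (InnerProductSpace.toDual ℝ E).symm l) (by simp)

theorem IsTest.memLp_gradient {Ω : Set E} {φ : E → ℝ} (h : IsTest Ω φ) (p : ENNReal) :
    MemLp (gradient φ) p volume :=
  h.continuous_gradient.memLp_of_hasCompactSupport (hasCompactSupport_gradient h.cpt)

open Classical in
/-- the element of `BB` represented by a (nice) function -/
noncomputable def tb (φ : E → ℝ) : BB :=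
  if h : MemLp φ 2 volume ∧ MemLp (gradient φ) 2 volume then
    WithLp.toLp 2 (h.1.toLp φ, h.2.toLp (gradient φ)) else 0

theorem rep_tb {Ω : Set E} {φ : E → ℝ} (h : IsTest Ω φ) : Rep (tb φ) φ := by
  have h' : MemLp φ 2 volume ∧ MemLp (gradient φ) 2 volume := ⟨h.memLp 2, h.memLp_gradient 2⟩
  unfold tb
  rw [dif_pos h']
  exact ⟨h'.1.coeFn_toLp, h'.2.coeFn_toLp⟩

theorem tb_mem_V0 {Ω : Set E} {φ : E → ℝ} (h : IsTest Ω φ) : tb φ ∈ V0 Ω := ⟨φ, h, rep_tb h⟩

theorem tb_mem {Ω : Set E} {φ : E → ℝ} (h : IsTest Ω φ) : tb φ ∈ V Ω :=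
  Submodule.le_topologicalClosure _ (tb_mem_V0 h)

/-- elements of `BB` with a.e. equal components are equal -/
theorem ext_ae {u v : BB} (h1 : fn u =ᵐ[volume] fn v) (h2 : gr u =ᵐ[volume] gr v) : u = v := by
  have e1 : u.fst = v.fst := Lp.ext h1
  have e2 : u.snd = v.snd := Lp.ext h2
  apply WithLp.ofLp_injective 2
  exact Prod.ext e1 e2

theorem Rep.eq_tb {Ω : Set E} {φ : E → ℝ} (h : IsTest Ω φ) {b : BB} (hb : Rep b φ) : b = tb φ :=
  ext_ae (hb.1.trans (rep_tb h).1.symm) (hb.2.trans (rep_tb h).2.symm)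

theorem V_mono {Ω Ω' : Set E} (h : Ω ⊆ Ω') : V Ω ≤ V Ω' := by
  refine Submodule.topologicalClosure_mono ?_
  rintro b ⟨φ, hφ, hb⟩
  exact ⟨φ, hφ.mono h, hb⟩

theorem V_le_univ (Ω : Set E) : V Ω ≤ V univ := V_mono (subset_univ _)

theorem isClosed_V (Ω : Set E) : IsClosed ((V Ω : Submodule ℝ BB) : Set BB) :=
  Submodule.isClosed_topologicalClosure _

/-- density of test functions -/
theorem exists_test_near {Ω : Set E} {u : BB} (hu : u ∈ V Ω) {ε : ℝ} (hε : 0 < ε) :
    ∃ φ, IsTest Ω φ ∧ ‖u - tb φ‖ < ε := by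
  have h1 : u ∈ closure ((V0 Ω : Submodule ℝ BB) : Set BB) := hu
  rw [Metric.mem_closure_iff] at h1
  obtain ⟨b, ⟨φ, hφ, hb⟩, hd⟩ := h1 ε hε
  refine ⟨φ, hφ, ?_⟩
  rw [← Rep.eq_tb hφ hb, ← dist_eq_norm]
  exact hd

/-- sequence version -/
theorem exists_test_seq {Ω : Set E} {u : BB} (hu : u ∈ V Ω) :
    ∃ φ : ℕ → E → ℝ, (∀ n, IsTest Ω (φ n)) ∧ Tendsto (fun n => tb (φ n)) atTop (𝓝 u) := by
  have : ∀ n : ℕ, ∃ φ, IsTest Ω φ ∧ ‖u - tb φ‖ < 1 / ((n : ℝ) + 1) := fun n =>
    exists_test_near hu (by positivity)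
  choose φ h1 h2 using this
  refine ⟨φ, h1, ?_⟩
  rw [tendsto_iff_norm_sub_tendsto_zero]
  refine squeeze_zero (fun n => norm_nonneg _) (fun n => ?_)
    (tendsto_one_div_add_atTop_nhds_zero_nat (𝕜 := ℝ))
  rw [norm_sub_rev]
  exact (h2 n).le

/-- to prove a closed property on `V Ω`, prove it for test functions -/
theorem V_induction {Ω : Set E} {C : Set BB} (hC : IsClosed C)
    (h : ∀ φ, IsTest Ω φ → tb φ ∈ C) {u : BB} (hu : u ∈ V Ω) : u ∈ C := by
  obtain ⟨φ, h1, h2⟩ := exists_test_seq hu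
  exact hC.mem_of_tendsto h2 (Eventually.of_forall fun n => h _ (h1 n))

/-! ### weak derivatives -/

theorem inner_gradient_left (φ : E → ℝ) (x t : E) : ⟪gradient φ x, t⟫_ℝ = fderiv ℝ φ x t := by
  unfold gradient
  rw [← InnerProductSpace.toDual_apply_apply (𝕜 := ℝ), LinearIsometryEquiv.apply_symm_apply]

theorem norm_gradient (φ : E → ℝ) (x : E) : ‖gradient φ x‖ = ‖fderiv ℝ φ x‖ := by
  unfold gradient
  rw [LinearIsometryEquiv.norm_map]

theorem integral_fn_mul (u : BB) {η : E → ℝ} (hη : MemLp η 2 volume) :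
    (∫ x, fn u x * η x) = ⟪u.fst, hη.toLp η⟫_ℝ := by
  rw [L2.inner_def]
  refine integral_congr_ae ?_
  filter_upwards [hη.coeFn_toLp] with x hx
  rw [hx]
  simp [fn, mul_comm]

theorem integral_gr_inner (u : BB) {X : E → E} (hX : MemLp X 2 volume) :
    (∫ x, ⟪gr u x, X x⟫_ℝ) = ⟪u.snd, hX.toLp X⟫_ℝ := by
  rw [L2.inner_def]
  refine integral_congr_ae ?_
  filter_upwards [hX.coeFn_toLp] with x hx
  rw [hx]
  rfl

/-- weak gradient property -/
theorem weak_grad {u : BB} (hu : u ∈ V univ) {η : E → ℝ} (hη : ContDiff ℝ ∞ η)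
    (hc : HasCompactSupport η) (t : E) :
    (∫ x, fn u x * fderiv ℝ η x t) = - ∫ x, ⟪gr u x, t⟫_ℝ * η x := by
  have hηt : IsTest univ η := ⟨hη, hc, subset_univ _⟩
  have hcont : Continuous (fun x => fderiv ℝ η x t) :=
    (hη.continuous_fderiv (by simp)).clm_apply continuous_const
  have hcs : HasCompactSupport (fun x => fderiv ℝ η x t) := by
    have := (hc.fderiv (𝕜 := ℝ)).comp_left (g := fun l : E →L[ℝ] ℝ => l t) (by simp)
    exact this
  have m1 : MemLp (fun x => fderiv ℝ η x t) 2 volume := hcont.memLp_of_hasCompactSupport hcs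
  have m2 : MemLp (fun x => η x • t) 2 volume :=
    (hη.continuous.smul continuous_const).memLp_of_hasCompactSupport
      (hc.smul_right (f' := fun _ => t))
  have e2 : ∀ w : BB, (∫ x, ⟪gr w x, t⟫_ℝ * η x) = ∫ x, ⟪gr w x, η x • t⟫_ℝ := by
    intro w
    congr 1; ext x
    rw [real_inner_smul_right]; ring
  have key : u ∈ {w : BB | (∫ x, fn w x * fderiv ℝ η x t) = - ∫ x, ⟪gr w x, t⟫_ℝ * η x} := by
    refine V_induction (Ω := univ) ?_ ?_ hu
    · simp only [e2, integral_fn_mul _ m1, integral_gr_inner _ m2]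
      exact isClosed_eq (continuous_fst'.inner continuous_const)
        (continuous_snd'.inner continuous_const).neg
    · intro φ hφ
      have r := rep_tb hφ
      have h1 : (∫ x, fn (tb φ) x * fderiv ℝ η x t) = ∫ x, φ x * fderiv ℝ η x t := by
        refine integral_congr_ae ?_
        filter_upwards [r.1] with x hx
        rw [hx]
      have h2 : (∫ x, ⟪gr (tb φ) x, t⟫_ℝ * η x) = ∫ x, fderiv ℝ φ x t * η x := by
        refine integral_congr_ae ?_
        filter_upwards [r.2] with x hx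
        rw [hx, inner_gradient_left]
      show (∫ x, fn (tb φ) x * fderiv ℝ η x t) = - ∫ x, ⟪gr (tb φ) x, t⟫_ℝ * η x
      rw [h1, h2]
      have cφ : Continuous (fun x => fderiv ℝ φ x t) :=
        (hφ.smooth.continuous_fderiv (by simp)).clm_apply continuous_const
      refine integral_mul_fderiv_eq_neg_fderiv_mul_of_integrable
        (f := φ) (g := η) (μ := volume) (v := t) ?_ ?_ ?_
        (fun x _ => hφ.smooth.differentiable (by simp) x) (fun x _ => hη.differentiable (by simp) x)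
      · exact (cφ.mul hη.continuous).integrable_of_hasCompactSupport
          (hc.mul_left (f := fun x => fderiv ℝ φ x t))
      · exact (hφ.smooth.continuous.mul hcont).integrable_of_hasCompactSupport
          (hφ.cpt.mul_right (f' := fun x => fderiv ℝ η x t))
      · exact (hφ.smooth.continuous.mul hη.continuous).integrable_of_hasCompactSupport
          (hφ.cpt.mul_right (f' := η))
  exact key

/-- smooth functions with bounded data: the weak gradient property with `IsTest` -/
theorem IsTest.weak_grad {Ω : Set E} {η : E → ℝ} (hη : IsTest Ω η) {u : BB} (hu : u ∈ V univ)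
    (t : E) : (∫ x, fn u x * fderiv ℝ η x t) = - ∫ x, ⟪gr u x, t⟫_ℝ * η x :=
  BN.weak_grad hu hη.smooth hη.cpt t

/-- the gradient component is determined by the function component -/
theorem gr_zero_of_fn_zero {u : BB} (hu : u ∈ V univ) (h : fn u =ᵐ[volume] 0) : u = 0 := by
  have hz : ∀ t : E, (fun x => ⟪gr u x, t⟫_ℝ) =ᵐ[volume] 0 := by
    intro t
    have hloc : LocallyIntegrable (fun x => ⟪gr u x, t⟫_ℝ) volume :=
      ((memLp_gr u).inner_const t).locallyIntegrable (by norm_num)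
    refine ae_eq_zero_of_integral_contDiff_smul_eq_zero hloc ?_
    intro g hg hgc
    have h1 := BN.weak_grad hu hg hgc t
    have h2 : (∫ x, fn u x * fderiv ℝ g x t) = 0 := by
      rw [← integral_zero E ℝ (μ := volume)]
      refine integral_congr_ae ?_
      filter_upwards [h] with x hx
      rw [hx]; simp
    rw [h2] at h1
    have h3 : (∫ x, g x • ⟪gr u x, t⟫_ℝ) = ∫ x, ⟪gr u x, t⟫_ℝ * g x := by
      congr 1; ext x; simp [mul_comm]
    rw [h3]; linarith
  refine ext_ae (h.trans fn_zero.symm) ?_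
  have h4 : ∀ᵐ x, ∀ i : Fin 3, ⟪gr u x, ee i⟫_ℝ = 0 := by
    rw [ae_all_iff]
    intro i
    exact hz (ee i)
  filter_upwards [h4, gr_zero] with x hx h0
  rw [h0]
  ext i
  have := hx i
  simpa [ee, EuclideanSpace.inner_single_right] using this

theorem eq_of_fn_eq {u w : BB} (hu : u ∈ V univ) (hw : w ∈ V univ)
    (h : fn u =ᵐ[volume] fn w) : u = w := by
  have h1 : u - w ∈ V univ := Submodule.sub_mem _ hu hw
  have h2 : fn (u - w) =ᵐ[volume] 0 := by
    filter_upwards [fn_sub u w, h] with x hx hx'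
    rw [hx]; simp [hx']
  exact sub_eq_zero.1 (gr_zero_of_fn_zero h1 h2)

/-- elements of `V Ω` vanish a.e. outside `Ω` -/
theorem ae_zero_off {Ω : Set E} (hΩ : MeasurableSet Ω) {u : BB} (hu : u ∈ V Ω) :
    ∀ᵐ x : E, x ∉ Ω → fn u x = 0 ∧ gr u x = 0 := by
  let F : BB → Lp ℝ 2 (volume.restrict Ωᶜ) × Lp E 2 (volume.restrict Ωᶜ) := fun w =>
    (LpToLpRestrictCLM E ℝ ℝ volume 2 Ωᶜ w.fst, LpToLpRestrictCLM E E ℝ volume 2 Ωᶜ w.snd)
  have hF : Continuous F :=
    ((LpToLpRestrictCLM E ℝ ℝ volume 2 Ωᶜ).continuous.comp continuous_fst').prodMk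
      ((LpToLpRestrictCLM E E ℝ volume 2 Ωᶜ).continuous.comp continuous_snd')
  have key : u ∈ {w : BB | F w = 0} := by
    refine V_induction (Ω := Ω) (isClosed_eq hF continuous_const) ?_ hu
    intro φ hφ
    have r := rep_tb hφ
    have hz1 : ∀ x ∈ Ωᶜ, φ x = 0 := fun x hx => by
      by_contra h
      exact hx (hφ.supp (subset_tsupport φ h))
    have hz2 : ∀ x ∈ Ωᶜ, gradient φ x = 0 := fun x hx => by
      have : x ∉ tsupport φ := fun h => hx (hφ.supp h)
      have h1 : fderiv ℝ φ x = 0 := by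
        have := (fderiv_of_notMem_tsupport (𝕜 := ℝ) this)
        exact this
      simp [gradient, h1]
    show F (tb φ) = 0
    refine Prod.ext ?_ ?_
    · refine Lp.ext ?_
      refine (LpToLpRestrictCLM_coeFn ℝ Ωᶜ _).trans ?_
      refine EventuallyEq.trans ?_ (Lp.coeFn_zero _ _ _).symm
      rw [EventuallyEq, ae_restrict_iff' hΩ.compl]
      filter_upwards [r.1] with x hx hxΩ
      exact hx.trans (hz1 x hxΩ)
    · refine Lp.ext ?_
      refine (LpToLpRestrictCLM_coeFn ℝ Ωᶜ _).trans ?_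
      refine EventuallyEq.trans ?_ (Lp.coeFn_zero _ _ _).symm
      rw [EventuallyEq, ae_restrict_iff' hΩ.compl]
      filter_upwards [r.2] with x hx hxΩ
      exact hx.trans (hz2 x hxΩ)
  have k1 : LpToLpRestrictCLM E ℝ ℝ volume 2 Ωᶜ u.fst = 0 := congrArg Prod.fst key
  have k2 : LpToLpRestrictCLM E E ℝ volume 2 Ωᶜ u.snd = 0 := congrArg Prod.snd key
  have a1 := (LpToLpRestrictCLM_coeFn ℝ (Ωᶜ) u.fst)
  rw [k1] at a1
  have a2 := (LpToLpRestrictCLM_coeFn ℝ (Ωᶜ) u.snd)
  rw [k2] at a2
  have b1 := a1.symm.trans (Lp.coeFn_zero _ _ _)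
  have b2 := a2.symm.trans (Lp.coeFn_zero _ _ _)
  rw [EventuallyEq, ae_restrict_iff' hΩ.compl] at b1 b2
  filter_upwards [b1, b2] with x h1 h2 hx
  exact ⟨h1 hx, h2 hx⟩

end Pool.Agent.H92.BN
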