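import Mathlib

/-!
# Foundations for the three-dimensional Brezis–Nirenberg problem (MP_61b8df_an)

`E = ℝ³`; `BB = L²(ℝ³;ℝ) × L²(ℝ³;ℝ³)`; `V Ω` is the closure in `BB` of the pairs
`(φ, ∇φ)`, `φ ∈ C_c^∞(Ω)`, i.e. `V Ω = H¹₀(Ω)` realised by zero extension to `ℝ³`.
-/

set_option autoImplicit false

namespace Pool.Agent.H92.BN

open MeasureTheory Set Filter Topology
open scoped ContDiff InnerProductSpace

/-- `ℝ³` -/
abbrev E := EuclideanSpace ℝ (Fin 3)

/-- smooth functions with compact support in `Ω` -/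
structure IsTest (Ω : Set E) (φ : E → ℝ) : Prop where
  smooth : ContDiff ℝ ∞ φ
  cpt : HasCompactSupport φ
  supp : tsupport φ ⊆ Ω

/-- ambient Hilbert space `L²(ℝ³;ℝ) × L²(ℝ³;ℝ³)` -/
abbrev BB := WithLp 2 (Lp ℝ 2 (volume : Measure E) × Lp E 2 (volume : Measure E))

/-- the function component of an element of `BB` -/
noncomputable def fn (u : BB) : E → ℝ := (u.fst : Lp ℝ 2 (volume : Measure E))

/-- the gradient component of an element of `BB` -/
noncomputable def gr (u : BB) : E → E := (u.snd : Lp E 2 (volume : Measure E))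

theorem memLp_fn (u : BB) : MemLp (fn u) 2 volume := Lp.memLp _

theorem memLp_gr (u : BB) : MemLp (gr u) 2 volume := Lp.memLp _

theorem fn_add (u v : BB) : fn (u + v) =ᵐ[volume] fn u + fn v := by
  unfold fn; rw [WithLp.add_fst]; exact Lp.coeFn_add _ _

theorem gr_add (u v : BB) : gr (u + v) =ᵐ[volume] gr u + gr v := by
  unfold gr; rw [WithLp.add_snd]; exact Lp.coeFn_add _ _

theorem fn_sub (u v : BB) : fn (u - v) =ᵐ[volume] fn u - fn v := by
  unfold fn; rw [WithLp.sub_fst]; exact Lp.coeFn_sub _ _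

theorem gr_sub (u v : BB) : gr (u - v) =ᵐ[volume] gr u - gr v := by
  unfold gr; rw [WithLp.sub_snd]; exact Lp.coeFn_sub _ _

theorem fn_neg (u : BB) : fn (-u) =ᵐ[volume] -fn u := by
  unfold fn; rw [WithLp.neg_fst]; exact Lp.coeFn_neg _

theorem gr_neg (u : BB) : gr (-u) =ᵐ[volume] -gr u := by
  unfold gr; rw [WithLp.neg_snd]; exact Lp.coeFn_neg _

theorem fn_smul (c : ℝ) (u : BB) : fn (c • u) =ᵐ[volume] c • fn u := by
  unfold fn; rw [WithLp.smul_fst]; exact Lp.coeFn_smul _ _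

theorem gr_smul (c : ℝ) (u : BB) : gr (c • u) =ᵐ[volume] c • gr u := by
  unfold gr; rw [WithLp.smul_snd]; exact Lp.coeFn_smul _ _

theorem fn_zero : fn 0 =ᵐ[volume] 0 := by
  unfold fn; rw [WithLp.zero_fst]; exact Lp.coeFn_zero _ _ _

theorem gr_zero : gr 0 =ᵐ[volume] 0 := by
  unfold gr; rw [WithLp.zero_snd]; exact Lp.coeFn_zero _ _ _

/-- `b` represents the smooth function `φ` and its gradient -/
def Rep (b : BB) (φ : E → ℝ) : Prop := fn b =ᵐ[volume] φ ∧ gr b =ᵐ[volume] gradient φ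

theorem IsTest.add {Ω : Set E} {φ ψ : E → ℝ} (hφ : IsTest Ω φ) (hψ : IsTest Ω ψ) :
    IsTest Ω (φ + ψ) :=
  ⟨hφ.smooth.add hψ.smooth, hφ.cpt.add hψ.cpt,
    (tsupport_add φ ψ).trans (union_subset hφ.supp hψ.supp)⟩

theorem IsTest.const_smul {Ω : Set E} {φ : E → ℝ} (hφ : IsTest Ω φ) (c : ℝ) :
    IsTest Ω (c • φ) :=
  ⟨hφ.smooth.const_smul c, hφ.cpt.smul_left (f := fun _ => c),
    (closure_mono (Function.support_const_smul_subset c φ)).trans hφ.supp⟩

theorem isTest_zero (Ω : Set E) : IsTest Ω (0 : E → ℝ) :=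
  ⟨contDiff_const, HasCompactSupport.zero, by simp [tsupport]⟩

theorem IsTest.mono {Ω Ω' : Set E} (h : Ω ⊆ Ω') {φ : E → ℝ} (hφ : IsTest Ω φ) : IsTest Ω' φ :=
  ⟨hφ.smooth, hφ.cpt, hφ.supp.trans h⟩

theorem gradient_add' {φ ψ : E → ℝ} (hφ : Differentiable ℝ φ) (hψ : Differentiable ℝ ψ) :
    gradient (φ + ψ) = gradient φ + gradient ψ := by
  ext1 x
  simp only [gradient, Pi.add_apply]
  rw [fderiv_add (hφ x) (hψ x), map_add]

theorem gradient_const_smul' {φ : E → ℝ} (hφ : Differentiable ℝ φ) (c : ℝ) :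
    gradient (c • φ) = c • gradient φ := by
  ext1 x
  simp only [gradient, Pi.smul_apply]
  rw [fderiv_const_smul (hφ x), map_smul]

/-- the submodule of (classes of) test functions supported in `Ω` -/
noncomputable def V0 (Ω : Set E) : Submodule ℝ BB where
  carrier := {b | ∃ φ, IsTest Ω φ ∧ Rep b φ}
  zero_mem' := ⟨0, isTest_zero Ω, fn_zero, gr_zero.trans (by
    apply Filter.EventuallyEq.of_eq
    ext1 x
    simp [gradient])⟩
  add_mem' := by
    rintro a b ⟨φ, hφ, ha⟩ ⟨ψ, hψ, hb⟩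
    refine ⟨φ + ψ, hφ.add hψ, (fn_add a b).trans (ha.1.add hb.1), (gr_add a b).trans ?_⟩
    rw [gradient_add' (hφ.smooth.differentiable (by simp)) (hψ.smooth.differentiable (by simp))]
    exact ha.2.add hb.2
  smul_mem' := by
    rintro c a ⟨φ, hφ, ha⟩
    refine ⟨c • φ, hφ.const_smul c, (fn_smul c a).trans (ha.1.const_smul c),
      (gr_smul c a).trans ?_⟩
    rw [gradient_const_smul' (hφ.smooth.differentiable (by simp))]
    exact ha.2.const_smul c

/-- `H¹₀(Ω)` as a closed subspace of `BB` -/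
noncomputable def V (Ω : Set E) : Submodule ℝ BB := (V0 Ω).topologicalClosure

end Pool.Agent.H92.BN
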