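import Pool.Agent.H92.BN.Defs

/-!
# Interface: precise statements of the modules of the proof of `S04847`

Every `def …Stmt : Prop` below is proved in its own module.
-/

set_option autoImplicit false

namespace Pool.Agent.H92.BN

open MeasureTheory Set Filter Topology
open scoped ContDiff InnerProductSpace

/-! ## Forms -/

/-- Dirichlet form `∫ ∇u·∇v` -/
noncomputable def dI (u v : BB) : ℝ := ∫ x, ⟪gr u x, gr v x⟫_ℝ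

/-- mass form `∫ u v` -/
noncomputable def mI (u v : BB) : ℝ := ∫ x, fn u x * fn v x

/-- `∫ u⁶` -/
noncomputable def p6 (u : BB) : ℝ := ∫ x, fn u x ^ 6

/-- `∫ u⁵ v` -/
noncomputable def p5 (u v : BB) : ℝ := ∫ x, fn u x ^ 5 * fn v x

/-- `∫ (u⁺)⁶` -/
noncomputable def pp (u : BB) : ℝ := ∫ x, (max (fn u x) 0) ^ 6

/-- `∫_{ℝ³} (1+|x|²)⁻³` -/
noncomputable def K0 : ℝ := ∫ x : E, ((1 + ‖x‖ ^ 2) ^ 3)⁻¹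

/-- the sharp Sobolev constant of `ℝ³` -/
noncomputable def S0 : ℝ := 3 * K0 ^ ((2 : ℝ) / 3)

/-! ## Module A: sharp Sobolev inequality -/

/-- sharp Sobolev inequality in `ℝ³` -/
def SobSharpStmt : Prop :=
  0 < K0 ∧ ∀ φ : E → ℝ, IsTest univ φ →
    S0 * (∫ x, φ x ^ 6) ^ ((1 : ℝ) / 3) ≤ ∫ x, ‖gradient φ x‖ ^ 2

/-! ## Module B: bubbles -/

/-- concentrating almost-extremals with explicit rates (`κ = √μ`) -/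
def BubbleStmt : Prop :=
  ∀ (x0 : E) (R : ℝ), 0 < R → ∃ C : ℝ, 1 ≤ C ∧ ∀ κ : ℝ, 0 < κ → κ ≤ 1 → ∃ v : E → ℝ,
    IsTest (Metric.ball x0 R) v ∧ (∀ x, 0 ≤ v x) ∧ (∫ x, v x ^ 6) = 1 ∧
    (∫ x, ‖gradient v x‖ ^ 2) ≤ S0 + C * κ ^ 2 ∧ (∫ x, v x ^ 2) ≤ C * κ ^ 2 ∧
    (∫ x, v x) ≤ C * κ ∧ κ / C ≤ (∫ x, v x ^ 5) ∧ (∫ x, v x ^ 5) ≤ C * κ ∧
    ∀ r : ℝ, 0 < r → (∫ x in (Metric.ball x0 r)ᶜ, v x ^ 5) ≤ C * κ ^ 5 / r ^ 2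

/-! ## Module C: the space `V Ω` -/

/-- Sobolev inequality on `V univ` (follows from `SobSharpStmt`) -/
def SobVStmt : Prop :=
  0 < S0 ∧ ∀ u ∈ V univ, MemLp (fn u) 6 volume ∧ S0 * (p6 u) ^ ((1 : ℝ) / 3) ≤ dI u u

/-- Rellich -/
def RellichStmt : Prop :=
  ∀ Ω : Set E, Bornology.IsBounded Ω → ∀ c : ℝ,
    ∃ K : Set (Lp ℝ 2 (volume : Measure E)), IsCompact K ∧ ∀ u ∈ V Ω, ‖u‖ ≤ c → u.fst ∈ K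

/-- Poincaré -/
def PoincareStmt : Prop :=
  ∀ Ω : Set E, Bornology.IsBounded Ω → ∃ C : ℝ, 0 < C ∧ ∀ u ∈ V Ω, mI u u ≤ C * dI u u

/-- positive part -/
def PosPartStmt : Prop :=
  ∀ Ω : Set E, ∀ u ∈ V Ω, ∃ w ∈ V Ω, fn w =ᵐ[volume] (fun x => max (fn u x) 0) ∧
    gr w =ᵐ[volume] (fun x => if 0 < fn u x then gr u x else 0)

/-- smooth chain rule -/
def ChainStmt : Prop :=
  ∀ Ω : Set E, ∀ u ∈ V Ω, ∀ θ : ℝ → ℝ, ContDiff ℝ ∞ θ → θ 0 = 0 → (∃ C, ∀ s, |deriv θ s| ≤ C) →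
    ∃ w ∈ V Ω, fn w =ᵐ[volume] (fun x => θ (fn u x)) ∧
      gr w =ᵐ[volume] (fun x => deriv θ (fn u x) • gr u x)

/-- multiplication by a smooth function with bounded derivative; localisation -/
def CutStmt : Prop :=
  ∀ Ω W : Set E, ∀ u ∈ V Ω, ∀ ψ : E → ℝ, ContDiff ℝ ∞ ψ → (∃ C, ∀ x, |ψ x| ≤ C) →
    (∃ C, ∀ x, ‖gradient ψ x‖ ≤ C) → tsupport ψ ⊆ W →
    ∃ w ∈ V (Ω ∩ W), fn w =ᵐ[volume] (fun x => ψ x * fn u x) ∧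
      gr w =ᵐ[volume] (fun x => ψ x • gr u x + fn u x • gradient ψ x)

/-- `‖z‖₂ ≤ C ‖ρ‖₁` for `-Δz = ρ`, `z ∈ V Ω` -/
def L1L2Stmt : Prop :=
  ∀ Ω : Set E, Bornology.IsBounded Ω → ∃ C : ℝ, 0 < C ∧ ∀ z ∈ V Ω, ∀ ρ : E → ℝ,
    MemLp ρ (ENNReal.ofReal (6 / 5)) volume → Integrable ρ volume →
    (∀ η ∈ V Ω, dI z η = ∫ x, ρ x * fn η x) → mI z z ≤ C * (∫ x, |ρ x|) ^ 2

/-! ## Smooth domains, regularity -/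

/-- the smoothness hypothesis of the frozen statement -/
def SmoothDom (Ω : Set E) : Prop :=
  ∃ ρ : E → ℝ, ContDiff ℝ ∞ ρ ∧ Ω = {x | ρ x < 0} ∧ ∀ x, ρ x = 0 → fderiv ℝ ρ x ≠ 0

/-- Laplacian as in the frozen statement -/
noncomputable def lap (f : E → ℝ) (x : E) : ℝ :=
  ∑ i : Fin 3, fderiv ℝ (fun y => fderiv ℝ f y (EuclideanSpace.single i 1)) x
    (EuclideanSpace.single i 1)

/-- weak solution of `-Δu = lam u + om u⁵` in `V Ω` -/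
def Sol (Ω : Set E) (lam om : ℝ) (u : BB) : Prop :=
  u ∈ V Ω ∧ ∀ η ∈ V Ω, dI u η = lam * mI u η + om * p5 u η

/-- interior regularity -/
def RegIntStmt : Prop :=
  ∀ Ω : Set E, IsOpen Ω → ∀ (lam om : ℝ) (u : BB), Sol Ω lam om u →
    ∃ U : E → ℝ, ContDiffOn ℝ ∞ U Ω ∧ (∀ᵐ x ∂(volume.restrict Ω), fn u x = U x) ∧
      ∀ x ∈ Ω, - lap U x = lam * U x + om * U x ^ 5

/-- regularity up to the boundary -/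
def RegBdStmt : Prop :=
  ∀ Ω : Set E, IsOpen Ω → Bornology.IsBounded Ω → SmoothDom Ω →
    ∀ (lam om : ℝ) (u : BB), Sol Ω lam om u →
    ∃ U : E → ℝ, ContDiff ℝ ∞ U ∧ (∀ᵐ x ∂(volume.restrict Ω), fn u x = U x) ∧
      (∀ᵐ x ∂(volume.restrict Ω), gr u x = gradient U x) ∧
      (∀ x ∈ frontier Ω, U x = 0) ∧
      ∀ x ∈ Ω, - lap U x = lam * U x + om * U x ^ 5

/-- strong maximum principle -/
def StrongMaxStmt : Prop :=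
  ∀ Ω : Set E, IsOpen Ω → IsPreconnected Ω → ∀ U : E → ℝ, ContDiffOn ℝ ∞ U Ω →
    (∀ x ∈ Ω, 0 ≤ U x) → (∀ x ∈ Ω, lap U x ≤ 0) → (∃ x ∈ Ω, U x ≠ 0) → ∀ x ∈ Ω, 0 < U x

/-! ## Eigenfunctions -/

/-- first two Dirichlet eigenvalues and eigenfunctions -/
structure Eig (Ω : Set E) (l1 l2 : ℝ) (e1 e2 : BB) (f1 f2 : E → ℝ) : Prop where
  pos : 0 < l1
  gap : l1 < l2
  mem1 : e1 ∈ V Ω
  mem2 : e2 ∈ V Ω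
  norm1 : mI e1 e1 = 1
  norm2 : mI e2 e2 = 1
  orth : mI e1 e2 = 0
  eq1 : ∀ η ∈ V Ω, dI e1 η = l1 * mI e1 η
  eq2 : ∀ η ∈ V Ω, dI e2 η = l2 * mI e2 η
  ray1 : ∀ v ∈ V Ω, l1 * mI v v ≤ dI v v
  ray2 : ∀ v ∈ V Ω, mI e1 v = 0 → l2 * mI v v ≤ dI v v
  rep1 : fn e1 =ᵐ[volume] f1
  rep2 : fn e2 =ᵐ[volume] f2
  cont1 : ContinuousOn f1 Ω
  cont2 : ContinuousOn f2 Ω
  pos1 : ∀ x ∈ Ω, 0 < f1 x
  out1 : ∀ x ∉ Ω, f1 x = 0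
  out2 : ∀ x ∉ Ω, f2 x = 0
  pos2 : ∃ x ∈ Ω, 0 < f2 x

/-- existence of the eigenfunctions -/
def EigStmt : Prop :=
  ∀ Ω : Set E, IsOpen Ω → Bornology.IsBounded Ω → IsConnected Ω →
    ∃ (l1 l2 : ℝ) (e1 e2 : BB) (f1 f2 : E → ℝ), Eig Ω l1 l2 e1 e2 f1 f2

/-! ## Variational part -/

/-- the separating functional -/
noncomputable def gI (δ : ℝ) (e1 u : BB) : ℝ := δ * mI u e1 + S0 * p5 u e1

/-- barrier -/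
def BarrierStmt : Prop :=
  ∀ Ω : Set E, IsOpen Ω → Bornology.IsBounded Ω → SmoothDom Ω →
    ∀ (l1 l2 : ℝ) (e1 e2 : BB) (f1 f2 : E → ℝ), Eig Ω l1 l2 e1 e2 f1 f2 →
    ∃ δ : ℝ, 0 < δ ∧ l1 + 2 * δ < l2 ∧ ∃ m0 : ℝ, 0 < m0 ∧
      ∀ u ∈ V Ω, p6 u = 1 → 1 / 2 < pp u → mI u u < m0 →
        dI u u ≤ S0 + (l1 + δ) * mI u u → gI δ e1 u ≠ 0

/-- the path -/
def PathStmt : Prop :=
  ∀ Ω : Set E, IsOpen Ω → Bornology.IsBounded Ω →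
    ∀ (l1 l2 : ℝ) (e1 e2 : BB) (f1 f2 : E → ℝ), Eig Ω l1 l2 e1 e2 f1 f2 →
    ∀ δ : ℝ, 0 < δ → l1 + 2 * δ < l2 →
    ∃ η0 : ℝ, 0 < η0 ∧ l1 + δ < l2 - η0 ∧ ∃ m0 : ℝ, 0 < m0 ∧ ∀ m : ℝ, 0 < m → m < m0 →
      ∃ γ : ℝ → BB, ContinuousOn γ (Icc 0 1) ∧
        (∀ t ∈ Icc (0 : ℝ) 1, γ t ∈ V Ω ∧ p6 (γ t) = 1 ∧ m / 4 ≤ mI (γ t) (γ t) ∧
          mI (γ t) (γ t) ≤ 4 * m ∧ 3 / 4 < pp (γ t) ∧
          dI (γ t) (γ t) ≤ S0 + (l2 - η0) * mI (γ t) (γ t)) ∧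
        dI (γ 0) (γ 0) < S0 + (l1 + δ / 2) * mI (γ 0) (γ 0) ∧
        dI (γ 1) (γ 1) < S0 + (l1 + δ / 2) * mI (γ 1) (γ 1) ∧
        0 < gI δ e1 (γ 0) ∧ gI δ e1 (γ 1) < 0

/-- Palais–Smale property in quantitative form -/
def PSStmt : Prop :=
  ∀ Ω : Set E, IsOpen Ω → Bornology.IsBounded Ω →
    ∀ (l1 l2 : ℝ) (e1 e2 : BB) (f1 f2 : E → ℝ), Eig Ω l1 l2 e1 e2 f1 f2 →
    ∀ a b : ℝ, l1 < a → a ≤ b → b < l2 →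
    ∃ ε0 : ℝ, 0 < ε0 ∧ ∃ m1 : ℝ, 0 < m1 ∧ ∀ ε : ℝ, 0 < ε → ε ≤ ε0 →
      ∀ ma mb : ℝ, 0 < ma → mb ≤ m1 →
      (∀ u ∈ V Ω, p6 u = 1 → ma ≤ mI u u → mI u u ≤ mb → ∀ th : ℝ, a ≤ th → th ≤ b →
        dI u u = S0 + th * mI u u → ∀ σ : ℝ, |σ| ≤ ε →
        ¬ (∀ η ∈ V Ω, dI u η = (th + σ) * mI u η + (S0 - σ * mI u u) * p5 u η)) →
      ∃ C : ℝ, 0 < C ∧
        ∀ u ∈ V Ω, p6 u = 1 → ma ≤ mI u u → mI u u ≤ mb → ∀ th : ℝ, a ≤ th → th ≤ b →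
          dI u u = S0 + th * mI u u →
          ∃ v ∈ V Ω, ‖v‖ ≤ C ∧
            dI u v - S0 * p5 u v - th * mI u v ≤ - (ε / 2) * mI u u ∧
            |mI u v - mI u u * p5 u v| ≤ mI u u

/-- output of the min–max argument -/
def SeqStmt : Prop :=
  ∀ Ω : Set E, IsOpen Ω → Bornology.IsBounded Ω → SmoothDom Ω →
    ∀ (l1 l2 : ℝ) (e1 e2 : BB) (f1 f2 : E → ℝ), Eig Ω l1 l2 e1 e2 f1 f2 →
    ∃ a b : ℝ, l1 < a ∧ b < l2 ∧ ∀ ε : ℝ, 0 < ε → ∃ u ∈ V Ω, ∃ lam om : ℝ,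
      p6 u = 1 ∧ mI u u < ε ∧ a ≤ lam ∧ lam ≤ b ∧ |om - S0| < ε ∧ Sol Ω lam om u

end Pool.Agent.H92.BN
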