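import Pool.Agent.H92.BN.Iface

/-!
# Interface for the regularity part
-/

set_option autoImplicit false

namespace Pool.Agent.H92.BN

open MeasureTheory Set Filter Topology
open scoped ContDiff InnerProductSpace

/-- basis vectors -/
noncomputable def ee (i : Fin 3) : E := EuclideanSpace.single i (1 : ℝ)

/-- iterated directional derivative along a list of vectors -/
noncomputable def dW : List E → (E → ℝ) → (E → ℝ)
  | [], η => η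
  | t :: L, η => dW L (fun x => fderiv ℝ η x t)

/-- weak derivative: `g = ∂_L f` on `Q` -/
def HasW (Q : Set E) (f : E → ℝ) (L : List E) (g : E → ℝ) : Prop :=
  ∀ η, IsTest Q η → (∫ x in Q, g x * η x) = (-1) ^ L.length * ∫ x in Q, f x * dW L η x

/-- all weak derivatives are in `L²(Q)` -/
def AllW (Q : Set E) (f : E → ℝ) : Prop :=
  MemLp f 2 (volume.restrict Q) ∧
  ∀ L : List (Fin 3), ∃ g : E → ℝ, MemLp g 2 (volume.restrict Q) ∧ HasW Q f (L.map ee) g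

/-- lower box -/
def boxm (r : ℝ) : Set E := {x | |x 0| < r ∧ |x 1| < r ∧ -r < x 2 ∧ x 2 < 0}

/-- coefficients -/
structure Coef (A : E → E →L[ℝ] E) (J : E → ℝ) : Prop where
  smoothA : ContDiff ℝ ∞ A
  smoothJ : ContDiff ℝ ∞ J
  bddA : ∃ C, ∀ x, ‖A x‖ ≤ C
  bddJ : ∃ C, ∀ x, |J x| ≤ C
  ell : ∃ θ, 0 < θ ∧ ∀ x v, θ * ‖v‖ ^ 2 ≤ ⟪A x v, v⟫_ℝ

/-- weak solutions with coefficients -/
def SolC (Ω : Set E) (A : E → E →L[ℝ] E) (J : E → ℝ) (lam om : ℝ) (u : BB) : Prop :=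
  u ∈ V Ω ∧ ∀ η ∈ V Ω, (∫ x, ⟪A x (gr u x), gr η x⟫_ℝ) =
    ∫ x, J x * (lam * fn u x + om * fn u x ^ 5) * fn η x

/-! ## local smoothness from weak derivatives -/

/-- compactly supported functions with all weak derivatives in `L²` are smooth -/
def GlobStmt : Prop :=
  ∀ f : E → ℝ, MemLp f 2 volume → (∃ R : ℝ, ∀ᵐ x : E, R ≤ ‖x‖ → f x = 0) → AllW univ f →
    ∃ U : E → ℝ, ContDiff ℝ ∞ U ∧ f =ᵐ[volume] U

/-- interior version -/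
def InnerStmt : Prop :=
  ∀ (x0 : E) (r : ℝ), 0 < r → ∀ f : E → ℝ, AllW (Metric.ball x0 r) f →
    ∃ U : E → ℝ, ContDiff ℝ ∞ U ∧ ∀ᵐ x ∂(volume.restrict (Metric.ball x0 (r / 2))), f x = U x

/-- half-space version (Seeley extension) -/
def SeeleyStmt : Prop :=
  ∀ r : ℝ, 0 < r → ∀ f : E → ℝ, AllW (boxm r) f →
    ∃ U : E → ℝ, ContDiff ℝ ∞ U ∧ ∀ᵐ x ∂(volume.restrict (boxm (r / 2))), f x = U x

/-- normal regularity on the lower box -/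
def NormalStmt : Prop :=
  ∀ r : ℝ, 0 < r → ∀ (A : E → E →L[ℝ] E) (J : E → ℝ), Coef A J →
    ∀ (lam om : ℝ) (f : E → ℝ) (g : Fin 3 → E → ℝ), MemLp f 2 (volume.restrict (boxm r)) →
    (∀ L : List (Fin 3), (∀ i ∈ L, i ≠ 2) → ∃ w : E → ℝ,
      MemLp w 2 (volume.restrict (boxm r)) ∧ HasW (boxm r) f (L.map ee) w ∧
      ∀ i, ∃ w' : E → ℝ, MemLp w' 2 (volume.restrict (boxm r)) ∧ HasW (boxm r) w [ee i] w') →
    (∀ i, MemLp (g i) 2 (volume.restrict (boxm r)) ∧ HasW (boxm r) f [ee i] (g i)) →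
    (∀ η, IsTest (boxm r) η →
      (∫ x in boxm r, ∑ i : Fin 3, ∑ j : Fin 3,
          ⟪A x (ee j), ee i⟫_ℝ * g j x * fderiv ℝ η x (ee i)) =
        ∫ x in boxm r, J x * (lam * f x + om * f x ^ 5) * η x) →
    AllW (boxm r) f

/-! ## diffeomorphisms -/

/-- smooth diffeomorphisms of `ℝ³` with bounded derivatives in both directions -/
structure Dif where
  toF : E → E
  inv : E → E
  li : ∀ x, inv (toF x) = x
  ri : ∀ x, toF (inv x) = x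
  sto : ContDiff ℝ ∞ toF
  sinv : ContDiff ℝ ∞ inv
  C : ℝ
  bto : ∀ x, ‖fderiv ℝ toF x‖ ≤ C
  binv : ∀ x, ‖fderiv ℝ inv x‖ ≤ C

/-- `w = u ∘ Φ` in `BB` -/
def IsComp (Φ : Dif) (u w : BB) : Prop :=
  fn w =ᵐ[volume] (fun y => fn u (Φ.toF y)) ∧
  gr w =ᵐ[volume] (fun y => ContinuousLinearMap.adjoint (fderiv ℝ Φ.toF y) (gr u (Φ.toF y)))

/-- composition with diffeomorphisms maps `V Ω` to `V (Φ⁻¹ Ω)` -/
def CompStmt : Prop :=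
  ∀ C : ℝ, ∃ K : ℝ, 0 < K ∧ ∀ Φ : Dif, Φ.C ≤ C → ∀ Ω : Set E, ∀ u ∈ V Ω,
    ∃ w ∈ V (Φ.toF ⁻¹' Ω), IsComp Φ u w ∧ ‖w‖ ≤ K * ‖u‖

/-- pulled-back matrix -/
noncomputable def pullA (Φ : Dif) (A : E → E →L[ℝ] E) (y : E) : E →L[ℝ] E :=
  |(fderiv ℝ Φ.toF y).det| • ((fderiv ℝ Φ.inv (Φ.toF y)) ∘L (A (Φ.toF y)) ∘L
    (ContinuousLinearMap.adjoint (fderiv ℝ Φ.inv (Φ.toF y))))

/-- pulled-back weight -/
noncomputable def pullJ (Φ : Dif) (J : E → ℝ) (y : E) : ℝ :=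
  |(fderiv ℝ Φ.toF y).det| * J (Φ.toF y)

/-- transformation of the equation -/
def TransStmt : Prop :=
  ∀ (Φ : Dif) (Ω : Set E) (A : E → E →L[ℝ] E) (J : E → ℝ), Coef A J →
    Coef (pullA Φ A) (pullJ Φ J) ∧
    ∀ (lam om : ℝ) (u w : BB), SolC Ω A J lam om u → w ∈ V (Φ.toF ⁻¹' Ω) → IsComp Φ u w →
      SolC (Φ.toF ⁻¹' Ω) (pullA Φ A) (pullJ Φ J) lam om w

/-- flattening of the boundary -/
def FlatStmt : Prop :=
  ∀ Ω : Set E, SmoothDom Ω → ∀ p ∈ frontier Ω, ∃ Φ : Dif, ∃ r : ℝ, 0 < r ∧ Φ.toF 0 = p ∧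
    ∀ y ∈ Metric.ball (0 : E) r, (Φ.toF y ∈ Ω ↔ y 2 < 0)

/-- gluing of local smooth representatives -/
def GlueStmt : Prop :=
  ∀ Ω : Set E, IsOpen Ω → Bornology.IsBounded Ω → ∀ f : E → ℝ,
    (∀ p ∈ closure Ω, ∃ W : Set E, IsOpen W ∧ p ∈ W ∧ ∃ U : E → ℝ, ContDiff ℝ ∞ U ∧
      ∀ᵐ x ∂(volume.restrict (Ω ∩ W)), f x = U x) →
    ∃ U : E → ℝ, ContDiff ℝ ∞ U ∧ ∀ᵐ x ∂(volume.restrict Ω), f x = U x

/-- zero boundary values in the flat situation -/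
def ZeroBdStmt : Prop :=
  ∀ (Ω : Set E) (r : ℝ), 0 < r → (∀ y ∈ Metric.ball (0 : E) r, (y ∈ Ω ↔ y 2 < 0)) →
    ∀ w ∈ V Ω, ∀ U : E → ℝ, ContDiff ℝ ∞ U → ∀ s : ℝ, 0 < s →
      (∀ᵐ x ∂(volume.restrict (boxm s)), fn w x = U x) → U 0 = 0

/-! ## tangential regularity -/

/-- `V Ω` as a type (type synonym, for better instance search) -/
def VS (Ω : Set E) : Type := ↥(V Ω)

noncomputable instance (Ω : Set E) : NormedAddCommGroup (VS Ω) :=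
  inferInstanceAs (NormedAddCommGroup ↥(V Ω))
noncomputable instance (Ω : Set E) : InnerProductSpace ℝ (VS Ω) :=
  inferInstanceAs (InnerProductSpace ℝ ↥(V Ω))
instance (Ω : Set E) : CompleteSpace (VS Ω) := by
  have h : IsClosed ((V Ω : Submodule ℝ BB) : Set BB) := Submodule.isClosed_topologicalClosure _
  exact (h.completeSpace_coe : CompleteSpace ↥(V Ω))

/-- the underlying element of `BB` -/
def VS.v {Ω : Set E} (u : VS Ω) : BB := Subtype.val (p := fun b => b ∈ V Ω) u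

/-- constructor -/
def VS.mk {Ω : Set E} (b : BB) (hb : b ∈ V Ω) : VS Ω := (⟨b, hb⟩ : ↥(V Ω))

theorem VS.mem {Ω : Set E} (u : VS Ω) : u.v ∈ V Ω := Subtype.property (p := fun b => b ∈ V Ω) u
@[simp] theorem VS.v_mk {Ω : Set E} (b : BB) (hb : b ∈ V Ω) : (VS.mk b hb).v = b := rfl
theorem VS.ext' {Ω : Set E} {u w : VS Ω} (h : u.v = w.v) : u = w :=
  Subtype.ext (p := fun b => b ∈ V Ω) h
@[simp] theorem VS.v_add {Ω : Set E} (u w : VS Ω) : (u + w).v = u.v + w.v := rfl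
@[simp] theorem VS.v_sub {Ω : Set E} (u w : VS Ω) : (u - w).v = u.v - w.v := rfl
@[simp] theorem VS.v_neg {Ω : Set E} (u : VS Ω) : (-u).v = -u.v := rfl
@[simp] theorem VS.v_zero {Ω : Set E} : (0 : VS Ω).v = 0 := rfl
@[simp] theorem VS.v_smul {Ω : Set E} (c : ℝ) (u : VS Ω) : (c • u).v = c • u.v := rfl
theorem VS.norm_def {Ω : Set E} (u : VS Ω) : ‖u‖ = ‖u.v‖ := rfl

/-- tangential regularity of all orders -/
def TangStmt : Prop :=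
  ∀ Ω : Set E, IsOpen Ω → ∀ (A : E → E →L[ℝ] E) (J : E → ℝ), Coef A J →
    ∀ (lam om : ℝ) (u : BB), SolC Ω A J lam om u →
    ∀ (P : Type) [NormedAddCommGroup P] [NormedSpace ℝ P] [FiniteDimensional ℝ P]
      (ι : P →L[ℝ] E) (U : Set E), IsOpen U →
    (∀ x ∈ U, ∀ t : P, x + ι t ∈ U → (x ∈ Ω ↔ x + ι t ∈ Ω)) →
    ∀ (x0 : E) (r : ℝ), 0 < r → Metric.closedBall x0 r ⊆ U →
    ∀ L : List P, ∃ w ∈ V Ω, HasW (Metric.ball x0 r ∩ Ω) (fn u) (L.map ι) (fn w)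

/-- `w = u ∘ φ_t`, `φ_t(y) = y + χ(y) t` -/
def IsPull (χ : E → ℝ) (t : E) (u w : BB) : Prop :=
  fn w =ᵐ[volume] (fun y => fn u (y + χ y • t)) ∧
  gr w =ᵐ[volume] (fun y => gr u (y + χ y • t) + ⟪t, gr u (y + χ y • t)⟫_ℝ • gradient χ y)

/-- inverse of `Dφ_t(y)` -/
noncomputable def Bt (χ : E → ℝ) (t : E) (y : E) : E →L[ℝ] E :=
  ContinuousLinearMap.id ℝ E -
    (1 + ⟪gradient χ y, t⟫_ℝ)⁻¹ • (innerSL ℝ (gradient χ y)).smulRight t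

/-- transported weight -/
noncomputable def Jt (χ : E → ℝ) (J : E → ℝ) (t : E) (y : E) : ℝ :=
  (1 + ⟪gradient χ y, t⟫_ℝ) * J (y + χ y • t)

/-- transported matrix -/
noncomputable def At (χ : E → ℝ) (A : E → E →L[ℝ] E) (t : E) (y : E) : E →L[ℝ] E :=
  (1 + ⟪gradient χ y, t⟫_ℝ) • ((Bt χ t y) ∘L (A (y + χ y • t)) ∘L
    (ContinuousLinearMap.adjoint (Bt χ t y)))

/-- the family `φ_t`: diffeomorphisms for small `t` -/
def FamStmt : Prop :=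
  ∀ χ : E → ℝ, IsTest univ χ → ∃ r0 : ℝ, 0 < r0 ∧ ∀ t : E, ‖t‖ < r0 →
    (∀ y, 1 / 2 ≤ 1 + ⟪gradient χ y, t⟫_ℝ) ∧
    ∃ Φ : Dif, (∀ y, Φ.toF y = y + χ y • t) ∧ Φ.C = 2 ∧
      (∀ y, (fderiv ℝ Φ.toF y).det = 1 + ⟪gradient χ y, t⟫_ℝ) ∧
      (∀ y, fderiv ℝ Φ.inv (Φ.toF y) = Bt χ t y)

/-- properties of `t ↦ u ∘ φ_t` -/
def PullStmt : Prop :=
  ∀ (Ω : Set E) (P : Type) [NormedAddCommGroup P] [NormedSpace ℝ P] [FiniteDimensional ℝ P]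
    (ι : P →L[ℝ] E) (χ : E → ℝ), IsTest univ χ →
    (∀ᶠ t : P in 𝓝 0, ∀ x, (x + χ x • ι t ∈ Ω ↔ x ∈ Ω)) →
    ∀ u : VS Ω, ∃ f : P → VS Ω, f 0 = u ∧
      (∀ᶠ t : P in 𝓝 0, IsPull χ (ι t) u.v (f t).v) ∧
      (∀ᶠ t : P in 𝓝 0, ContinuousAt f t) ∧
      (∀ᶠ t : P in 𝓝 0, ∃ D : P →L[ℝ] Lp ℝ 2 (volume : Measure E),
        HasFDerivAt (fun s : P => (f s).v.fst) D t ∧
        ∀ h : P, D h =ᵐ[volume] fun y => χ y *
          ⟪(Bt χ (ι t) y) (ι h), gr (f t).v y⟫_ℝ) ∧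
      ∀ (A : E → E →L[ℝ] E) (J : E → ℝ), Coef A J → ∀ (lam om : ℝ),
        SolC Ω A J lam om u.v →
        ∀ᶠ t : P in 𝓝 0, SolC Ω (At χ A (ι t)) (Jt χ J (ι t)) lam om (f t).v

/-- the nonlinear operator with parameter, its smoothness and its linearisation -/
def OperStmt : Prop :=
  ∀ (Ω : Set E) (χ : E → ℝ), IsTest univ χ → ∀ (A : E → E →L[ℝ] E) (J : E → ℝ), Coef A J →
    ∀ (lam om : ℝ) (w0 : VS Ω), ∃ M : ℝ, ∃ H : E × VS Ω → (VS Ω →L[ℝ] ℝ),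
      ContDiffAt ℝ ∞ H (0, w0) ∧
      (∀ᶠ t : E in 𝓝 0, ∀ w η : VS Ω, H (t, w) η =
        (∫ x, ⟪At χ A t x (gr w.v x), gr η.v x⟫_ℝ) + M * mI w.v η.v -
        ∫ x, Jt χ J t x * (lam * fn w.v x + om * fn w.v x ^ 5) * fn η.v x) ∧
      ∃ T : VS Ω ≃L[ℝ] (VS Ω →L[ℝ] ℝ),
        HasFDerivAt (fun w : VS Ω => H (0, w)) (T : VS Ω →L[ℝ] (VS Ω →L[ℝ] ℝ)) w0

/-- smooth dependence on the parameter of the derivative in `L²` -/
def DerivStmt : Prop :=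
  ∀ (Ω : Set E) (P : Type) [NormedAddCommGroup P] [NormedSpace ℝ P] [FiniteDimensional ℝ P]
    (ι : P →L[ℝ] E) (χ : E → ℝ), IsTest univ χ →
    ∃ G : P → (VS Ω →L[ℝ] (P →L[ℝ] Lp ℝ 2 (volume : Measure E))),
      ContDiffAt ℝ ∞ G 0 ∧ ∀ᶠ t : P in 𝓝 0, ∀ (w : VS Ω) (h : P),
        G t w h =ᵐ[volume] fun y => χ y * ⟪(Bt χ (ι t) y) (ι h), gr w.v y⟫_ℝ

/-- abstract bootstrap lemma -/
def BootStmt : Prop :=
  ∀ (P X Y Z : Type) [NormedAddCommGroup P] [NormedSpace ℝ P] [FiniteDimensional ℝ P]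
    [NormedAddCommGroup X] [NormedSpace ℝ X] [CompleteSpace X]
    [NormedAddCommGroup Y] [NormedSpace ℝ Y] [CompleteSpace Y]
    [NormedAddCommGroup Z] [NormedSpace ℝ Z],
    ∀ (f : P → X) (H : P × X → Y) (j : X →L[ℝ] Z) (k : Z →L[ℝ] Y)
      (G : P → (X →L[ℝ] (P →L[ℝ] Z))) (T : X ≃L[ℝ] Y),
      (∀ᶠ t in 𝓝 (0 : P), ContinuousAt f t) →
      ContDiffAt ℝ ∞ H (0, f 0) →
      HasFDerivAt (fun w => H (0, w)) (T : X →L[ℝ] Y) (f 0) →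
      (∀ᶠ t in 𝓝 (0 : P), H (t, f t) = k (j (f t))) →
      ContDiffAt ℝ ∞ G 0 →
      (∀ᶠ t in 𝓝 (0 : P), HasFDerivAt (fun s => j (f s)) (G t (f t)) t) →
      ∀ n : ℕ, ContDiffAt ℝ n f 0

/-- extraction of weak derivatives from smoothness of `t ↦ u ∘ φ_t` -/
def ExtractStmt : Prop :=
  ∀ (Ω : Set E) (P : Type) [NormedAddCommGroup P] [NormedSpace ℝ P] [FiniteDimensional ℝ P]
    (ι : P →L[ℝ] E) (χ : E → ℝ), IsTest univ χ → IsOpen Ω →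
    ∀ (u : VS Ω) (f : P → VS Ω),
    (∀ᶠ t : P in 𝓝 0, IsPull χ (ι t) u.v (f t).v) →
    (∀ n : ℕ, ContDiffAt ℝ n f 0) →
    ∀ (x0 : E) (r : ℝ), 0 < r → (∀ x ∈ Metric.ball x0 r, χ x = 1) →
    ∀ L : List P, ∃ w ∈ V Ω, HasW (Metric.ball x0 r ∩ Ω) (fn u.v) (L.map ι) (fn w)

end Pool.Agent.H92.BN
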