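import Pool.Agent.H92.BN.MA_Lim

/-!
# Module A: the sharp Sobolev inequality in `ℝ³` (Knothe map)
-/

set_option autoImplicit false

namespace Pool.Agent.H92.BN

open MeasureTheory Set Filter Topology Kn
open scoped ContDiff InnerProductSpace

theorem sobSharp : SobSharpStmt := by
  refine ⟨K0_pos, fun φ hφ => ?_⟩
  have hK := K0_pos
  have hD0 : 0 ≤ ∫ x, ‖gradient φ x‖ ^ 2 := integral_nonneg fun x => by positivity
  have hc0 : 0 ≤ ∫ x, φ x ^ 6 := integral_nonneg fun x => by positivity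
  rcases hc0.eq_or_lt with hc | hc
  · rw [← hc, Real.zero_rpow (by norm_num), mul_zero]
    exact hD0
  -- choose the box
  obtain ⟨r, hr⟩ := hφ.cpt.isCompact.isBounded.subset_closedBall (0 : E)
  obtain ⟨a, ha, hra⟩ : ∃ a : ℝ, 0 < a ∧ r < a := ⟨|r| + 1, by positivity, by
    have := le_abs_self r; linarith⟩
  have hout : ∀ q : ℝ × ℝ × ℝ, (a ≤ |q.1| ∨ a ≤ |q.2.1| ∨ a ≤ |q.2.2|) →
      toE q ∉ tsupport φ := by
    intro q hq hmem
    have h1 := hr hmem
    rw [mem_closedBall_zero_iff] at h1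
    have h2 := toE_norm_sq q
    have h3 : ‖toE q‖ ^ 2 < a ^ 2 := by
      have := norm_nonneg (toE q)
      nlinarith
    rcases hq with h | h | h
    · have : a ^ 2 ≤ q.1 ^ 2 := by rw [← sq_abs q.1]; exact pow_le_pow_left₀ ha.le h 2
      nlinarith [sq_nonneg q.2.1, sq_nonneg q.2.2]
    · have : a ^ 2 ≤ q.2.1 ^ 2 := by rw [← sq_abs q.2.1]; exact pow_le_pow_left₀ ha.le h 2
      nlinarith [sq_nonneg q.1, sq_nonneg q.2.2]
    · have : a ^ 2 ≤ q.2.2 ^ 2 := by rw [← sq_abs q.2.2]; exact pow_le_pow_left₀ ha.le h 2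
      nlinarith [sq_nonneg q.2.1, sq_nonneg q.1]
  have hgrad : ∀ x, x ∉ tsupport φ → gradient φ x = 0 := by
    intro x hx
    have h1 : φ =ᶠ[𝓝 x] 0 := notMem_tsupport_iff_eventuallyEq.1 hx
    unfold gradient
    rw [h1.fderiv_eq]
    simp
  -- integrals over the box are integrals over the space
  have hbox : ∀ h : E → ℝ, (∀ x, x ∉ tsupport φ → h x = 0) →
      ∫ q, h (toE q) ∂(nu3 a) = ∫ x, h x := by
    intro h hh
    rw [nu3_eq, ← int_toE h]
    refine setIntegral_eq_integral_of_forall_compl_eq_zero fun q hq => hh _ (hout q ?_)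
    by_contra hcon
    push Not at hcon
    obtain ⟨h1, h2, h3⟩ := hcon
    rw [abs_lt] at h1 h2 h3
    exact hq ⟨⟨h1.1, h1.2.le⟩, ⟨h2.1, h2.2.le⟩, ⟨h3.1, h3.2.le⟩⟩
  have hc6 := hbox (fun x => φ x ^ 6) (fun x hx => by
    rw [image_eq_zero_of_notMem_tsupport hx]; norm_num)
  have hD6 := hbox (fun x => ‖gradient φ x‖ ^ 2) (fun x hx => by
    rw [hgrad x hx]; norm_num)
  set c : ℝ := ∫ x, φ x ^ 6 with hcdef
  set D : ℝ := ∫ x, ‖gradient φ x‖ ^ 2 with hDdef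
  -- the inequality on all boxes
  obtain ⟨lam, hl⟩ : ∃ lam : ℝ, lam = (c / K0) ^ ((1:ℝ)/3) := ⟨_, rfl⟩
  have hlpos : 0 < lam := by rw [hl]; positivity
  have hfix : ∀ n : ℕ, 3 * (G0 ((n:ℝ) + 1) / c) ^ ((1:ℝ)/3) *
      (c + c / G0 ((n:ℝ) + 1) * BR ((n:ℝ) + 1)) ≤
      2 * lam * D + 2 / lam * (c / G0 ((n:ℝ) + 1) * BR ((n:ℝ) + 1)) := by
    intro n
    have := fixed_R (a := a) (R := (n:ℝ) + 1) (lam := lam) (c := c) ha (by positivity) hlpos
      hφ.smooth (fun q hq => image_eq_zero_of_notMem_tsupport (hout q (by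
        rcases hq with h | h | h
        · exact Or.inl h.ge
        · exact Or.inr (Or.inl h.ge)
        · exact Or.inr (Or.inr h.ge)))) hc6.symm hc
    rw [hD6] at this
    exact this
  have hlim : 3 * (K0 / c) ^ ((1:ℝ)/3) * (c + c / K0 * (3 * K0)) ≤
      2 * lam * D + 2 / lam * (c / K0 * (3 * K0)) := by
    have t1 : Tendsto (fun n : ℕ => c / G0 ((n:ℝ) + 1) * BR ((n:ℝ) + 1)) atTop
        (𝓝 (c / K0 * (3 * K0))) :=
      (tendsto_const_nhds.div G0_tendsto hK.ne').mul BR_tendsto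
    have t2 : Tendsto (fun n : ℕ => (G0 ((n:ℝ) + 1) / c) ^ ((1:ℝ)/3)) atTop
        (𝓝 ((K0 / c) ^ ((1:ℝ)/3))) :=
      (G0_tendsto.div_const c).rpow_const (Or.inr (by norm_num))
    exact le_of_tendsto_of_tendsto' ((t2.const_mul 3).mul (t1.const_add c))
      ((t1.const_mul (2 / lam)).const_add (2 * lam * D)) hfix
  -- algebra
  have hKl : (K0 / c) ^ ((1:ℝ)/3) = lam⁻¹ := by
    rw [hl, ← Real.inv_rpow (by positivity), inv_div]
  have hl3 : lam ^ 3 = c / K0 := by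
    rw [hl, ← Real.rpow_natCast, ← Real.rpow_mul (by positivity)]
    norm_num
  have e1 : c / K0 * (3 * K0) = 3 * c := by field_simp
  rw [hKl, e1] at hlim
  have h6 : 3 * c ≤ lam ^ 2 * D := by
    have h7 : lam * (3 * lam⁻¹ * (c + 3 * c)) ≤ lam * (2 * lam * D + 2 / lam * (3 * c)) :=
      mul_le_mul_of_nonneg_left hlim hlpos.le
    have h8 : lam * (3 * lam⁻¹ * (c + 3 * c)) = 12 * c := by field_simp; ring
    have h9 : lam * (2 * lam * D + 2 / lam * (3 * c)) = 2 * lam ^ 2 * D + 6 * c := by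
      field_simp
      ring
    rw [h8, h9] at h7
    linarith
  have hcK : c = lam ^ 3 * K0 := by rw [hl3]; field_simp
  have hS : S0 * c ^ ((1:ℝ)/3) = 3 * K0 * lam := by
    unfold S0
    have e2 : c ^ ((1:ℝ)/3) = lam * K0 ^ ((1:ℝ)/3) := by
      conv_lhs => rw [hcK]
      rw [Real.mul_rpow (by positivity) hK.le, ← Real.rpow_natCast, ← Real.rpow_mul hlpos.le]
      norm_num
    rw [e2]
    have e3 : K0 ^ ((2:ℝ)/3) * K0 ^ ((1:ℝ)/3) = K0 := by
      rw [← Real.rpow_add hK]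
      norm_num
    calc 3 * K0 ^ ((2:ℝ)/3) * (lam * K0 ^ ((1:ℝ)/3)) =
        3 * (K0 ^ ((2:ℝ)/3) * K0 ^ ((1:ℝ)/3)) * lam := by ring
      _ = 3 * K0 * lam := by rw [e3]
  rw [hS]
  have h10 : lam ^ 2 * (3 * K0 * lam) ≤ lam ^ 2 * D := by
    calc lam ^ 2 * (3 * K0 * lam) = 3 * c := by rw [hcK]; ring
      _ ≤ _ := h6
  exact le_of_mul_le_mul_left h10 (by positivity)

end Pool.Agent.H92.BN
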