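import Pool.Agent.H92.BN.MA_Inv

set_option autoImplicit false

namespace Pool.Agent.H92.BN.Kn

open MeasureTheory Set Filter Topology intervalIntegral

/-- the product measure on the box `(-a,a]³` -/
noncomputable def nu3 (a : ℝ) : Measure (ℝ × ℝ × ℝ) :=
  (volume.restrict (Ioc (-a) a)).prod
    ((volume.restrict (Ioc (-a) a)).prod (volume.restrict (Ioc (-a) a)))

noncomputable instance (a : ℝ) : IsFiniteMeasure (volume.restrict (Ioc (-a) a) : Measure ℝ) :=
  ⟨by simp⟩

theorem nu3_eq (a : ℝ) : nu3 a =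
    (volume : Measure (ℝ × ℝ × ℝ)).restrict (Ioc (-a) a ×ˢ Ioc (-a) a ×ˢ Ioc (-a) a) := by
  unfold nu3
  rw [Measure.prod_restrict, Measure.prod_restrict]
  rfl

theorem nu2_int {a : ℝ} {H : ℝ × ℝ → ℝ} (hH : Continuous H) :
    Integrable H ((volume.restrict (Ioc (-a) a)).prod (volume.restrict (Ioc (-a) a))) := by
  rw [Measure.prod_restrict]
  have : IntegrableOn H (Icc (-a) a ×ˢ Icc (-a) a) :=
    hH.continuousOn.integrableOn_compact (isCompact_Icc.prod isCompact_Icc)
  exact this.mono_set (prod_mono Ioc_subset_Icc_self Ioc_subset_Icc_self)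

theorem nu3_int {a : ℝ} {H : ℝ × ℝ × ℝ → ℝ} (hH : Continuous H) : Integrable H (nu3 a) := by
  rw [nu3_eq]
  have : IntegrableOn H (Icc (-a) a ×ˢ Icc (-a) a ×ˢ Icc (-a) a) :=
    hH.continuousOn.integrableOn_compact (isCompact_Icc.prod (isCompact_Icc.prod isCompact_Icc))
  exact this.mono_set (prod_mono Ioc_subset_Icc_self
    (prod_mono Ioc_subset_Icc_self Ioc_subset_Icc_self))

theorem B_z {a : ℝ} (ha : 0 < a) {H : ℝ × ℝ × ℝ → ℝ} (hH : Continuous H) :
    ∫ q, H q ∂(nu3 a) = ∫ x in (-a)..a, ∫ y in (-a)..a, ∫ z in (-a)..a, H (x, y, z) := by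
  have haa : -a ≤ a := by linarith
  unfold nu3
  rw [integral_prod _ (nu3_int hH)]
  simp_rw [intervalIntegral.integral_of_le haa]
  refine integral_congr_ae (Eventually.of_forall fun x => ?_)
  exact integral_prod (fun q : ℝ × ℝ => H (x, q)) (nu2_int (hH.comp (Continuous.prodMk_right x)))

theorem B_y {a : ℝ} (ha : 0 < a) {H : ℝ × ℝ × ℝ → ℝ} (hH : Continuous H) :
    ∫ q, H q ∂(nu3 a) = ∫ x in (-a)..a, ∫ z in (-a)..a, ∫ y in (-a)..a, H (x, y, z) := by
  have haa : -a ≤ a := by linarith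
  unfold nu3
  rw [integral_prod _ (nu3_int hH)]
  simp_rw [intervalIntegral.integral_of_le haa]
  refine integral_congr_ae (Eventually.of_forall fun x => ?_)
  exact integral_prod_symm (fun q : ℝ × ℝ => H (x, q))
    (nu2_int (hH.comp (Continuous.prodMk_right x)))

theorem B_x {a : ℝ} (ha : 0 < a) {H : ℝ × ℝ × ℝ → ℝ} (hH : Continuous H) :
    ∫ q, H q ∂(nu3 a) = ∫ y in (-a)..a, ∫ z in (-a)..a, ∫ x in (-a)..a, H (x, y, z) := by
  have haa : -a ≤ a := by linarith
  unfold nu3
  rw [integral_prod_symm _ (nu3_int hH)]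
  simp_rw [intervalIntegral.integral_of_le haa]
  rw [integral_prod]
  have := (nu3_int (a := a) hH).swap.integral_prod_left
  exact this

/-- averaging of inner identities -/
theorem B_const {a k : ℝ} {h : ℝ → ℝ → ℝ} (hh : Continuous (Function.uncurry h)) :
    ∫ x in (-a)..a, ∫ y in (-a)..a, (k - h x y) =
      4 * a ^ 2 * k - ∫ x in (-a)..a, ∫ y in (-a)..a, h x y := by
  have h1 : ∀ x, ∫ y in (-a)..a, (k - h x y) = 2 * a * k - ∫ y in (-a)..a, h x y := by
    intro x
    have hx : Continuous (fun y => h x y) := hh.comp (Continuous.prodMk_right x)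
    rw [intervalIntegral.integral_sub intervalIntegrable_const (hx.intervalIntegrable _ _)]
    rw [intervalIntegral.integral_const, smul_eq_mul]
    ring
  simp_rw [h1]
  rw [intervalIntegral.integral_sub intervalIntegrable_const
    ((continuous_parametric_intervalIntegral_of_continuous' hh _ _).intervalIntegrable _ _)]
  rw [intervalIntegral.integral_const, smul_eq_mul]
  ring

theorem ibp1 {a δ R : ℝ} {f f' T T' : ℝ → ℝ} (hf : ∀ t, HasDerivAt f (f' t) t)
    (hf' : Continuous f') (hT : ∀ t, HasDerivAt T (T' t) t) (hT' : Continuous T')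
    (h1 : f a = δ) (h2 : f (-a) = δ) (h3 : T a = R) (h4 : T (-a) = -R) :
    ∫ t in (-a)..a, f t ^ 4 * T' t = 2 * R * δ ^ 4 - ∫ t in (-a)..a, 4 * f t ^ 3 * f' t * T t := by
  have hfc : Continuous f := continuous_iff_continuousAt.2 fun t => (hf t).continuousAt
  have hTc : Continuous T := continuous_iff_continuousAt.2 fun t => (hT t).continuousAt
  have := integral_mul_deriv_eq_deriv_mul (a := -a) (b := a) (u := fun t => f t ^ 4) (v := T)
    (u' := fun t => 4 * f t ^ 3 * f' t) (v' := T')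
    (fun t _ => by simpa using (hf t).fun_pow 4) (fun t _ => hT t)
    (((continuous_const.mul (hfc.pow 3)).mul hf').intervalIntegrable _ _)
    (hT'.intervalIntegrable _ _)
  rw [this, h1, h2, h3, h4]
  ring

theorem amgm {α β γ M : ℝ} (hα : 0 ≤ α) (hβ : 0 ≤ β) (hγ : 0 ≤ γ)
    (h : α * β * γ = M ^ 3) : 3 * M ≤ α + β + γ := by
  have h1 : 27 * (α * β * γ) ≤ (α + β + γ) ^ 3 := by
    have e1 := mul_nonneg hα (sq_nonneg (β - γ))
    have e2 := mul_nonneg hβ (sq_nonneg (α - γ))
    have e3 := mul_nonneg hγ (sq_nonneg (α - β))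
    have e4 := mul_nonneg hα (sq_nonneg (α - β))
    have e5 := mul_nonneg hα (sq_nonneg (α - γ))
    have e6 := mul_nonneg hβ (sq_nonneg (α - β))
    have e7 := mul_nonneg hβ (sq_nonneg (β - γ))
    have e8 := mul_nonneg hγ (sq_nonneg (α - γ))
    have e9 := mul_nonneg hγ (sq_nonneg (β - γ))
    nlinarith
  rw [h] at h1
  have h2 : (3 * M) ^ 3 ≤ (α + β + γ) ^ 3 := by nlinarith
  have h3 : 0 ≤ α + β + γ := by positivity
  by_contra hcon
  push Not at hcon
  have := pow_lt_pow_left₀ hcon h3 (by norm_num : (3:ℕ) ≠ 0)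
  linarith

end Pool.Agent.H92.BN.Kn
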