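import Pool.Agent.H92.BN.MA_KM3

set_option autoImplicit false

namespace Pool.Agent.H92.BN.Kn

open MeasureTheory Set Filter Topology

theorem core {a R δ lam κ : ℝ} (ha : 0 < a) (hR : 0 < R) (hl : 0 < lam)
    {f f1 f2 f3 : ℝ × ℝ × ℝ → ℝ} (hf : Continuous f)
    (hf1 : Continuous f1) (hf2 : Continuous f2) (hf3 : Continuous f3)
    (h0 : ∀ p, 0 < f p)
    (hd1 : ∀ x y z, HasDerivAt (fun t => f (t, y, z)) (f1 (x, y, z)) x)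
    (hd2 : ∀ x y z, HasDerivAt (fun t => f (x, t, z)) (f2 (x, y, z)) y)
    (hd3 : ∀ x y z, HasDerivAt (fun t => f (x, y, t)) (f3 (x, y, z)) z)
    (hb1 : ∀ y z, f (a, y, z) = δ ∧ f (-a, y, z) = δ)
    (hb2 : ∀ x z, f (x, a, z) = δ ∧ f (x, -a, z) = δ)
    (hb3 : ∀ x y, f (x, y, a) = δ ∧ f (x, y, -a) = δ)
    (hκ : κ ^ 3 * P0 f a = G0 R) :
    3 * κ * (P0 f a + P0 f a / G0 R * BR R) ≤
      24 * a ^ 2 * R * δ ^ 4 + 2 * lam * (∫ q, (f1 q ^ 2 + f2 q ^ 2 + f3 q ^ 2) ∂(nu3 a)) +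
        2 / lam * (P0 f a / G0 R * BR R) := by
  obtain ⟨T1, T2, T3, h⟩ := exists_KM ha hR hf h0
  obtain ⟨t1, ht1, c1⟩ : ∃ t1 : ℝ × ℝ × ℝ → ℝ, (∀ q, t1 q = T1 q.1) ∧ Continuous t1 :=
    ⟨_, fun _ => rfl, h.ct1⟩
  obtain ⟨t2, ht2, c2⟩ : ∃ t2 : ℝ × ℝ × ℝ → ℝ, (∀ q, t2 q = T2 q.1 q.2.1) ∧ Continuous t2 :=
    ⟨_, fun _ => rfl, h.ct2⟩
  obtain ⟨t3, ht3, c3⟩ : ∃ t3 : ℝ × ℝ × ℝ → ℝ, (∀ q, t3 q = T3 (q.1, q.2.1) q.2.2) ∧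
    Continuous t3 := ⟨_, fun _ => rfl, h.ct3⟩
  obtain ⟨α, hα, ca⟩ : ∃ α : ℝ × ℝ × ℝ → ℝ, (∀ q, α q = KM.al a R f T1 q) ∧ Continuous α :=
    ⟨_, fun _ => rfl, h.al_cont⟩
  obtain ⟨β, hβ, cb⟩ : ∃ β : ℝ × ℝ × ℝ → ℝ, (∀ q, β q = KM.be a R f T1 T2 q) ∧ Continuous β :=
    ⟨_, fun _ => rfl, h.be_cont⟩
  obtain ⟨γ, hγ, cg⟩ : ∃ γ : ℝ × ℝ × ℝ → ℝ, (∀ q, γ q = KM.ga a R f T1 T2 T3 q) ∧
    Continuous γ := ⟨_, fun _ => rfl, h.ga_cont⟩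
  have hmom0 := h.hmom0
  have hmom2 := h.hmom2
  have ib1 := h.ib1 hf1 hd1 hb1
  have ib2 := h.ib2 hf2 hd2 hb2
  have ib3 := h.ib3 hf3 hd3 hb3
  have hag := fun (q : ℝ × ℝ × ℝ) (h1 : q.1 ∈ Icc (-a) a) (h2 : q.2.1 ∈ Icc (-a) a)
    (h3 : q.2.2 ∈ Icc (-a) a) => h.hag hκ q.1 q.2.1 q.2.2 h1 h2 h3
  simp only [← ht1, ← ht2, ← ht3, ← hα, ← hβ, ← hγ, Prod.mk.eta] at hmom2 ib1 ib2 ib3 hag
  have hag' : ∀ q : ℝ × ℝ × ℝ, q.1 ∈ Icc (-a) a → q.2.1 ∈ Icc (-a) a → q.2.2 ∈ Icc (-a) a →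
      3 * (κ * (f q ^ 2 * (1 + (t1 q ^ 2 + t2 q ^ 2 + t3 q ^ 2)))) ≤ α q + β q + γ q := by
    intro q h1 h2 h3
    exact hag q h1 h2 h3
  generalize P0 f a / G0 R * BR R = M2 at *
  generalize P0 f a = M0 at *
  clear hag ht1 ht2 ht3 hα hβ hγ h
  have i1 : ∫ q, f q ^ 4 * (3 * (κ * (f q ^ 2 * (1 + (t1 q ^ 2 + t2 q ^ 2 + t3 q ^ 2))))) ∂(nu3 a) ≤
      ∫ q, f q ^ 4 * (α q + β q + γ q) ∂(nu3 a) := by
    refine integral_mono_ae (nu3_int (by fun_prop)) (nu3_int (by fun_prop)) ?_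
    rw [nu3_eq]
    refine (ae_restrict_iff' (measurableSet_Ioc.prod (measurableSet_Ioc.prod
      measurableSet_Ioc))).2 (Eventually.of_forall fun q hq => ?_)
    exact mul_le_mul_of_nonneg_left (hag' q (Ioc_subset_Icc_self hq.1)
      (Ioc_subset_Icc_self hq.2.1) (Ioc_subset_Icc_self hq.2.2)) (by have := h0 q; positivity)
  have i2 : ∫ q, f q ^ 4 * (3 * (κ * (f q ^ 2 * (1 + (t1 q ^ 2 + t2 q ^ 2 + t3 q ^ 2))))) ∂(nu3 a) =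
      3 * κ * (M0 + M2) := by
    rw [← hmom0, ← hmom2, ← integral_add (nu3_int (by fun_prop))
      (nu3_int (by fun_prop)), ← integral_const_mul]
    congr 1
    ext q
    ring
  have i3 : ∫ q, f q ^ 4 * (α q + β q + γ q) ∂(nu3 a) =
      24 * a ^ 2 * R * δ ^ 4 + ∫ q, -(4 * f q ^ 3 * (f1 q * t1 q + f2 q * t2 q + f3 q * t3 q))
        ∂(nu3 a) := by
    have e1 : ∀ q, f q ^ 4 * (α q + β q + γ q) = f q ^ 4 * α q + f q ^ 4 * β q + f q ^ 4 * γ q :=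
      fun q => by ring
    have e2 : ∀ q, -(4 * f q ^ 3 * (f1 q * t1 q + f2 q * t2 q + f3 q * t3 q)) =
      -(4 * f q ^ 3 * f1 q * t1 q + 4 * f q ^ 3 * f2 q * t2 q + 4 * f q ^ 3 * f3 q * t3 q) :=
      fun q => by ring
    simp_rw [e1, e2]
    rw [integral_add (nu3_int (by fun_prop)) (nu3_int (by fun_prop)),
      integral_add (nu3_int (by fun_prop)) (nu3_int (by fun_prop)), ib1, ib2, ib3, integral_neg,
      integral_add (nu3_int (by fun_prop)) (nu3_int (by fun_prop)),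
      integral_add (nu3_int (by fun_prop)) (nu3_int (by fun_prop))]
    ring
  have i4 : ∫ q, -(4 * f q ^ 3 * (f1 q * t1 q + f2 q * t2 q + f3 q * t3 q)) ∂(nu3 a) ≤
      2 * lam * (∫ q, (f1 q ^ 2 + f2 q ^ 2 + f3 q ^ 2) ∂(nu3 a)) + 2 / lam * M2 := by
    rw [← hmom2, ← integral_const_mul, ← integral_const_mul,
      ← integral_add (nu3_int (by fun_prop)) (nu3_int (by fun_prop))]
    refine integral_mono (nu3_int (by fun_prop)) (nu3_int (by fun_prop)) fun q => ?_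
    have key : ∀ u v : ℝ, -(4 * f q ^ 3 * (u * v)) ≤ 2 * lam * u ^ 2 +
        2 / lam * (f q ^ 6 * v ^ 2) := by
      intro u v
      have h1 : 0 ≤ 2 / lam * (lam * u + f q ^ 3 * v) ^ 2 := by positivity
      have h2 : 2 / lam * (lam * u + f q ^ 3 * v) ^ 2 = 2 * lam * u ^ 2 +
        2 / lam * (f q ^ 6 * v ^ 2) + 4 * f q ^ 3 * (u * v) := by
        field_simp
        ring
      linarith
    have k1 := key (f1 q) (t1 q)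
    have k2 := key (f2 q) (t2 q)
    have k3 := key (f3 q) (t3 q)
    simp only
    calc -(4 * f q ^ 3 * (f1 q * t1 q + f2 q * t2 q + f3 q * t3 q)) =
        -(4 * f q ^ 3 * (f1 q * t1 q)) + -(4 * f q ^ 3 * (f2 q * t2 q)) +
        -(4 * f q ^ 3 * (f3 q * t3 q)) := by ring
      _ ≤ _ := by
        have e : 2 * lam * (f1 q ^ 2 + f2 q ^ 2 + f3 q ^ 2) + 2 / lam * (f q ^ 6 *
          (t1 q ^ 2 + t2 q ^ 2 + t3 q ^ 2)) = (2 * lam * f1 q ^ 2 + 2 / lam * (f q ^ 6 * t1 q ^ 2)) +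
          (2 * lam * f2 q ^ 2 + 2 / lam * (f q ^ 6 * t2 q ^ 2)) +
          (2 * lam * f3 q ^ 2 + 2 / lam * (f q ^ 6 * t3 q ^ 2)) := by ring
        rw [e]
        linarith
  linarith

end Pool.Agent.H92.BN.Kn
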