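import Pool.Agent.H92.BN.Iface

set_option autoImplicit false

namespace Pool.Agent.H92.BN.Kn

open MeasureTheory Set Filter Topology intervalIntegral

theorem prim_hasDerivAt {g : ℝ → ℝ} (hg : Continuous g) (b t : ℝ) :
    HasDerivAt (fun t => ∫ τ in b..t, g τ) (g t) t :=
  integral_hasDerivAt_right (hg.intervalIntegrable _ _) (hg.stronglyMeasurableAtFilter _ _)
    hg.continuousAt

theorem prim_strictMono {g : ℝ → ℝ} (hg : Continuous g) (h0 : ∀ t, 0 < g t) (b : ℝ) :
    StrictMono (fun t => ∫ τ in b..t, g τ) :=
  strictMono_of_deriv_pos fun t => by rw [(prim_hasDerivAt hg b t).deriv]; exact h0 t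

theorem prim_surj {g : ℝ → ℝ} (hg : Continuous g) {m : ℝ} (hm : 0 < m) (hgm : ∀ t, m ≤ g t)
    (b : ℝ) : Function.Surjective (fun t => ∫ τ in b..t, g τ) := by
  have hc : Continuous (fun t => ∫ τ in b..t, g τ) :=
    continuous_iff_continuousAt.mpr fun t => (prim_hasDerivAt hg b t).continuousAt
  apply hc.surjective
  · apply tendsto_atTop_mono' atTop (f₁ := fun t => m * (t - b))
    · filter_upwards [eventually_ge_atTop b] with t ht
      calc m * (t - b) = ∫ τ in b..t, m := by rw [intervalIntegral.integral_const, smul_eq_mul]; ring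
        _ ≤ ∫ τ in b..t, g τ := intervalIntegral.integral_mono_on ht (by simp)
            (hg.intervalIntegrable _ _) (fun x _ => hgm x)
    · exact (tendsto_atTop_add_const_right _ (-b) tendsto_id).const_mul_atTop hm
  · refine tendsto_atBot_mono' atBot (?_ : _ ≤ᶠ[atBot] fun t => m * (t - b)) ?_
    · filter_upwards [eventually_le_atBot b] with t ht
      have : ∫ τ in t..b, m ≤ ∫ τ in t..b, g τ := intervalIntegral.integral_mono_on ht (by simp)
            (hg.intervalIntegrable _ _) (fun x _ => hgm x)
      rw [intervalIntegral.integral_const, smul_eq_mul] at this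
      rw [intervalIntegral.integral_symm t b]
      linarith
    · exact (tendsto_atBot_add_const_right _ (-b) tendsto_id).const_mul_atBot hm

/-- inverse of the primitive, with parameters -/
theorem exists_inv {X : Type*} [TopologicalSpace X] [FirstCountableTopology X]
    (g : X → ℝ → ℝ)
    (hg : Continuous (Function.uncurry g)) {m : ℝ} (hm : 0 < m) (hgm : ∀ s t, m ≤ g s t) (b : ℝ) :
    ∃ I : X → ℝ → ℝ, (∀ s v, ∫ t in b..(I s v), g s t = v) ∧
      Continuous (Function.uncurry I) ∧
      ∀ s v, HasDerivAt (I s) (1 / g s (I s v)) v := by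
  have hgs : ∀ s, Continuous (g s) := fun s => hg.comp (Continuous.prodMk_right s)
  have hpos : ∀ s t, 0 < g s t := fun s t => lt_of_lt_of_le hm (hgm s t)
  choose I hI' using fun (s : X) (v : ℝ) => prim_surj (hgs s) hm (hgm s) b v
  have hI : ∀ s v, ∫ t in b..(I s v), g s t = v := hI'
  have hmono : ∀ s, StrictMono (fun t => ∫ τ in b..t, g s τ) := fun s =>
    prim_strictMono (hgs s) (hpos s) b
  have hcont : Continuous (Function.uncurry I) := by
    rw [continuous_iff_lower_upperSemicontinuous]
    constructor
    · intro q c hc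
      have h1 : (∫ τ in b..c, g q.1 τ) < q.2 := by
        have := (hmono q.1) hc
        simp only [Function.uncurry] at this
        rwa [hI] at this
      have h2 : Continuous (fun q : X × ℝ => ∫ τ in b..c, g q.1 τ) :=
        (continuous_parametric_intervalIntegral_of_continuous' hg b c).comp continuous_fst
      filter_upwards [(isOpen_lt h2 continuous_snd).mem_nhds h1] with q' hq'
      by_contra hcon
      push Not at hcon
      have := (hmono q'.1).monotone hcon
      simp only [Function.uncurry] at this
      rw [hI] at this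
      exact absurd hq' (not_lt.mpr this)
    · intro q c hc
      have h1 : q.2 < (∫ τ in b..c, g q.1 τ) := by
        have := (hmono q.1) hc
        simp only [Function.uncurry] at this
        rwa [hI] at this
      have h2 : Continuous (fun q : X × ℝ => ∫ τ in b..c, g q.1 τ) :=
        (continuous_parametric_intervalIntegral_of_continuous' hg b c).comp continuous_fst
      filter_upwards [(isOpen_lt continuous_snd h2).mem_nhds h1] with q' hq'
      by_contra hcon
      push Not at hcon
      have := (hmono q'.1).monotone hcon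
      simp only [Function.uncurry] at this
      rw [hI] at this
      exact absurd hq' (not_lt.mpr this)
  refine ⟨I, hI, hcont, fun s v => ?_⟩
  have h := HasDerivAt.of_local_left_inverse (g := I s) (a := v)
    (hcont.comp (Continuous.prodMk_right s)).continuousAt
    (prim_hasDerivAt (hgs s) b (I s v)) (hpos _ _).ne' (Eventually.of_forall fun y => hI s y)
  rwa [one_div]

/-- one step of the Knothe map -/
theorem exists_step {X Y : Type*} [TopologicalSpace X] [FirstCountableTopology X]
    [TopologicalSpace Y] [FirstCountableTopology Y]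
    {a R : ℝ} (ha : 0 < a)
    (p : X → ℝ → ℝ) (hp : Continuous (Function.uncurry p)) (hp0 : ∀ x t, 0 < p x t)
    (g : Y → ℝ → ℝ) (hg : Continuous (Function.uncurry g)) {m : ℝ} (hm : 0 < m)
    (hgm : ∀ s t, m ≤ g s t) (S : X → Y) (hS : Continuous S) :
    ∃ T : X → ℝ → ℝ, Continuous (Function.uncurry T) ∧
     (∀ x t, HasDerivAt (T x) (p x t / (∫ τ in (-a)..a, p x τ) *
        ((∫ τ in (-R)..R, g (S x) τ) / g (S x) (T x t))) t) ∧
     (∀ x, T x (-a) = -R) ∧ (∀ x, T x a = R) := by
  obtain ⟨I, hI, hIc, hId⟩ := exists_inv g hg hm hgm (-R)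
  have hps : ∀ x, Continuous (p x) := fun x => hp.comp (Continuous.prodMk_right x)
  have hgs : ∀ s, Continuous (g s) := fun s => hg.comp (Continuous.prodMk_right s)
  have hgpos : ∀ s t, 0 < g s t := fun s t => lt_of_lt_of_le hm (hgm s t)
  have hP : ∀ x, 0 < ∫ τ in (-a)..a, p x τ := fun x =>
    intervalIntegral.intervalIntegral_pos_of_pos ((hps x).intervalIntegrable _ _) (hp0 x) (by linarith)
  let v : X → ℝ → ℝ := fun x t => (∫ τ in (-a)..t, p x τ) / (∫ τ in (-a)..a, p x τ) *
    (∫ τ in (-R)..R, g (S x) τ)
  have hinj : ∀ s, Function.Injective (fun t => ∫ τ in (-R)..t, g s τ) := fun s =>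
    (prim_strictMono (hgs s) (hgpos s) (-R)).injective
  have hvc : Continuous (Function.uncurry v) := by
    have h1 : Continuous (fun q : X × ℝ => ∫ τ in (-a)..q.2, p q.1 τ) :=
      continuous_parametric_intervalIntegral_of_continuous
        (f := fun (q : X × ℝ) τ => p q.1 τ)
        (hp.comp ((continuous_fst.comp continuous_fst).prodMk continuous_snd)) continuous_snd
    have h2 : Continuous (fun q : X × ℝ => ∫ τ in (-a)..a, p q.1 τ) :=
      (continuous_parametric_intervalIntegral_of_continuous' hp (-a) a).comp continuous_fst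
    have h3 : Continuous (fun q : X × ℝ => ∫ τ in (-R)..R, g (S q.1) τ) :=
      ((continuous_parametric_intervalIntegral_of_continuous' hg (-R) R).comp hS).comp
        continuous_fst
    exact (h1.div h2 (fun q => (hP q.1).ne')).mul h3
  refine ⟨fun x t => I (S x) (v x t), ?_, ?_, ?_, ?_⟩
  · exact hIc.comp ((hS.comp continuous_fst).prodMk hvc)
  · intro x t
    have h1 : HasDerivAt (v x) (p x t / (∫ τ in (-a)..a, p x τ) *
        (∫ τ in (-R)..R, g (S x) τ)) t :=
      ((prim_hasDerivAt (hps x) (-a) t).div_const _).mul_const _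
    have h2 := (hId (S x) (v x t)).comp t h1
    refine h2.congr_deriv ?_
    ring
  · intro x
    apply hinj (S x)
    simp only
    rw [hI]
    simp [v]
  · intro x
    apply hinj (S x)
    simp only
    rw [hI]
    simp only [v]
    rw [div_self (hP x).ne', one_mul]

/-- substitution in one variable -/
theorem subst_step {a R : ℝ} {p T g h : ℝ → ℝ} {P Γ : ℝ}
    (hp : Continuous p) (hT : Continuous T) (hg : Continuous g) (hg0 : ∀ t, 0 < g t)
    (hh : Continuous h) (hP : 0 < P) (hΓ : 0 < Γ)
    (hd : ∀ t, HasDerivAt T (p t / P * (Γ / g (T t))) t) (h1 : T (-a) = -R) (h2 : T a = R) :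
    ∫ t in (-a)..a, p t * h (T t) = P / Γ * ∫ t in (-R)..R, g t * h t := by
  have hc : Continuous (fun t => p t / P * (Γ / g (T t))) :=
    (hp.div_const _).mul (continuous_const.div (hg.comp hT) (fun t => (hg0 _).ne'))
  have h := integral_comp_mul_deriv (a := -a) (b := a) (f := T)
    (f' := fun t => p t / P * (Γ / g (T t))) (g := fun u => g u * h u)
    (fun x _ => hd x) hc.continuousOn (hg.mul hh)
  rw [h1, h2] at h
  rw [← h, ← intervalIntegral.integral_const_mul]
  apply intervalIntegral.integral_congr
  intro t _
  simp only [Function.comp]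
  have := (hg0 (T t)).ne'
  field_simp

end Pool.Agent.H92.BN.Kn
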