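import Pool.Agent.H92.BN.MA_Box

set_option autoImplicit false

namespace Pool.Agent.H92.BN.Kn

open MeasureTheory Set Filter Topology intervalIntegral

/-- clamp -/
noncomputable def cl (R t : ℝ) : ℝ := max (-R) (min t R)

theorem cl_cont (R : ℝ) : Continuous (cl R) :=
  continuous_const.max (continuous_id.min continuous_const)

theorem cl_eq {R t : ℝ} (h : t ∈ Icc (-R) R) : cl R t = t := by
  unfold cl
  rw [min_eq_left h.2, max_eq_right h.1]

theorem cl_sq_le {R : ℝ} (hR : 0 ≤ R) (t : ℝ) : cl R t ^ 2 ≤ R ^ 2 := by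
  apply sq_le_sq'
  · exact le_max_left _ _
  · exact max_le (by linarith) (min_le_right _ _)

/-- the (clamped) target density and its marginals -/
noncomputable def G3 (R : ℝ) (s : ℝ × ℝ) (t : ℝ) : ℝ :=
  ((1 + cl R s.1 ^ 2 + cl R s.2 ^ 2 + cl R t ^ 2) ^ 3)⁻¹
noncomputable def G2 (R s t : ℝ) : ℝ := ∫ τ in (-R)..R, G3 R (s, t) τ
noncomputable def G1 (R s : ℝ) : ℝ := ∫ t in (-R)..R, G2 R s t
noncomputable def G0 (R : ℝ) : ℝ := ∫ s in (-R)..R, G1 R s

theorem G3_cont (R : ℝ) : Continuous (Function.uncurry (G3 R)) := by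
  unfold G3 Function.uncurry
  refine Continuous.inv₀ ?_ fun q => by positivity
  have := cl_cont R
  fun_prop

theorem G2_cont (R : ℝ) : Continuous (Function.uncurry (G2 R)) :=
  continuous_parametric_intervalIntegral_of_continuous' (f := fun q : ℝ × ℝ => G3 R q)
    (G3_cont R) (-R) R

theorem G1_cont (R : ℝ) : Continuous (G1 R) :=
  continuous_parametric_intervalIntegral_of_continuous' (G2_cont R) (-R) R

theorem int_lower {g : ℝ → ℝ} (hg : Continuous g) {m R : ℝ} (hR : 0 ≤ R) (h : ∀ t, m ≤ g t) :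
    2 * R * m ≤ ∫ t in (-R)..R, g t := by
  have : ∫ t in (-R)..R, m ≤ ∫ t in (-R)..R, g t :=
    intervalIntegral.integral_mono_on (by linarith) intervalIntegrable_const
      (hg.intervalIntegrable _ _) fun t _ => h t
  rw [intervalIntegral.integral_const, smul_eq_mul] at this
  linarith

/-- lower bound of `G3` -/
noncomputable def mR (R : ℝ) : ℝ := ((1 + 3 * R ^ 2) ^ 3)⁻¹

theorem mR_pos (R : ℝ) : 0 < mR R := by unfold mR; positivity

theorem G3_lower {R : ℝ} (hR : 0 ≤ R) (s : ℝ × ℝ) (t : ℝ) : mR R ≤ G3 R s t := by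
  unfold mR G3
  apply inv_anti₀ (by positivity)
  have := cl_sq_le hR s.1
  have := cl_sq_le hR s.2
  have := cl_sq_le hR t
  exact pow_le_pow_left₀ (by positivity) (by linarith) 3

theorem G2_lower {R : ℝ} (hR : 0 ≤ R) (s t : ℝ) : 2 * R * mR R ≤ G2 R s t :=
  int_lower ((G3_cont R).comp (Continuous.prodMk_right (s, t))) hR fun _ => G3_lower hR _ _

theorem G1_lower {R : ℝ} (hR : 0 ≤ R) (s : ℝ) : 2 * R * (2 * R * mR R) ≤ G1 R s :=
  int_lower ((G2_cont R).comp (Continuous.prodMk_right s)) hR fun _ => G2_lower hR _ _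

theorem G0_lower {R : ℝ} (hR : 0 ≤ R) : 2 * R * (2 * R * (2 * R * mR R)) ≤ G0 R :=
  int_lower (G1_cont R) hR fun _ => G1_lower hR _

theorem G3_pos {R : ℝ} (s : ℝ × ℝ) (t : ℝ) : 0 < G3 R s t := by unfold G3; positivity
theorem G2_pos {R : ℝ} (hR : 0 < R) (s t : ℝ) : 0 < G2 R s t :=
  lt_of_lt_of_le (by have := mR_pos R; positivity) (G2_lower hR.le s t)
theorem G1_pos {R : ℝ} (hR : 0 < R) (s : ℝ) : 0 < G1 R s :=
  lt_of_lt_of_le (by have := mR_pos R; positivity) (G1_lower hR.le s)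
theorem G0_pos {R : ℝ} (hR : 0 < R) : 0 < G0 R :=
  lt_of_lt_of_le (by have := mR_pos R; positivity) (G0_lower hR.le)

/-- the second moment of the target density on the box -/
noncomputable def BR (R : ℝ) : ℝ := ∫ s in (-R)..R, ∫ t in (-R)..R, ∫ τ in (-R)..R,
  G3 R (s, t) τ * (s ^ 2 + t ^ 2 + τ ^ 2)

/-- marginals of `f⁶` -/
noncomputable def P3 (f : ℝ × ℝ × ℝ → ℝ) (q : ℝ × ℝ) (t : ℝ) : ℝ := f (q.1, q.2, t) ^ 6
noncomputable def P2 (f : ℝ × ℝ × ℝ → ℝ) (a x y : ℝ) : ℝ := ∫ z in (-a)..a, P3 f (x, y) z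
noncomputable def P1 (f : ℝ × ℝ × ℝ → ℝ) (a x : ℝ) : ℝ := ∫ y in (-a)..a, P2 f a x y
noncomputable def P0 (f : ℝ × ℝ × ℝ → ℝ) (a : ℝ) : ℝ := ∫ x in (-a)..a, P1 f a x

section
variable {f : ℝ × ℝ × ℝ → ℝ}

theorem P3_cont (hf : Continuous f) : Continuous (Function.uncurry (P3 f)) := by
  unfold P3 Function.uncurry
  exact (hf.comp (by fun_prop)).pow 6

theorem P2_cont (hf : Continuous f) (a : ℝ) : Continuous (Function.uncurry (P2 f a)) :=
  continuous_parametric_intervalIntegral_of_continuous' (f := fun q : ℝ × ℝ => P3 f q)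
    (P3_cont hf) (-a) a

theorem P1_cont (hf : Continuous f) (a : ℝ) : Continuous (P1 f a) :=
  continuous_parametric_intervalIntegral_of_continuous' (P2_cont hf a) (-a) a

theorem P3_pos (h0 : ∀ p, 0 < f p) (q : ℝ × ℝ) (t : ℝ) : 0 < P3 f q t := pow_pos (h0 _) 6

theorem P2_pos {a : ℝ} (ha : 0 < a) (hf : Continuous f) (h0 : ∀ p, 0 < f p) (x y : ℝ) :
    0 < P2 f a x y :=
  intervalIntegral.intervalIntegral_pos_of_pos
    (((P3_cont hf).comp (Continuous.prodMk_right (x, y))).intervalIntegrable _ _)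
    (fun _ => P3_pos h0 _ _) (by linarith)

theorem P1_pos {a : ℝ} (ha : 0 < a) (hf : Continuous f) (h0 : ∀ p, 0 < f p) (x : ℝ) :
    0 < P1 f a x :=
  intervalIntegral.intervalIntegral_pos_of_pos
    (((P2_cont hf a).comp (Continuous.prodMk_right x)).intervalIntegrable _ _)
    (fun _ => P2_pos ha hf h0 _ _) (by linarith)

theorem P0_pos {a : ℝ} (ha : 0 < a) (hf : Continuous f) (h0 : ∀ p, 0 < f p) :
    0 < P0 f a :=
  intervalIntegral.intervalIntegral_pos_of_pos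
    ((P1_cont hf a).intervalIntegrable _ _) (fun _ => P1_pos ha hf h0 _) (by linarith)

theorem range_of_step {a R : ℝ} {T T' : ℝ → ℝ} (hd : ∀ t, HasDerivAt T (T' t) t)
    (h0 : ∀ t, 0 ≤ T' t) (h1 : T (-a) = -R) (h2 : T a = R) {t : ℝ} (ht : t ∈ Icc (-a) a) :
    T t ∈ Icc (-R) R := by
  have hm : Monotone T := monotone_of_deriv_nonneg (fun t => (hd t).differentiableAt)
    fun t => by rw [(hd t).deriv]; exact h0 t
  exact ⟨h1 ▸ hm ht.1, h2 ▸ hm ht.2⟩

/-- the data of the Knothe map -/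
structure KM (a R : ℝ) (f : ℝ × ℝ × ℝ → ℝ) (T1 : ℝ → ℝ) (T2 : ℝ → ℝ → ℝ)
    (T3 : ℝ × ℝ → ℝ → ℝ) : Prop where
  ha : 0 < a
  hR : 0 < R
  hf : Continuous f
  h0 : ∀ p, 0 < f p
  c1 : Continuous T1
  c2 : Continuous (Function.uncurry T2)
  c3 : Continuous (Function.uncurry T3)
  d1 : ∀ t, HasDerivAt T1 (P1 f a t / P0 f a * (G0 R / G1 R (T1 t))) t
  d2 : ∀ x t, HasDerivAt (T2 x) (P2 f a x t / P1 f a x * (G1 R (T1 x) / G2 R (T1 x) (T2 x t))) t
  d3 : ∀ x y t, HasDerivAt (T3 (x, y)) (P3 f (x, y) t / P2 f a x y *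
    (G2 R (T1 x) (T2 x y) / G3 R (T1 x, T2 x y) (T3 (x, y) t))) t
  m1 : T1 (-a) = -R
  p1 : T1 a = R
  m2 : ∀ x, T2 x (-a) = -R
  p2 : ∀ x, T2 x a = R
  m3 : ∀ x, T3 x (-a) = -R
  p3 : ∀ x, T3 x a = R

theorem exists_KM {a R : ℝ} (ha : 0 < a) (hR : 0 < R) (hf : Continuous f) (h0 : ∀ p, 0 < f p) :
    ∃ T1 T2 T3, KM a R f T1 T2 T3 := by
  have hP1 := P1_pos ha hf h0
  have hP2 := P2_pos ha hf h0
  have hP3 := P3_pos h0
  obtain ⟨T1', hT1c', hT1d', hT1m', hT1p'⟩ := exists_step (X := Unit) (Y := Unit) (R := R) ha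
    (fun _ => P1 f a) ((P1_cont hf a).comp continuous_snd) (fun _ => hP1)
    (fun _ => G1 R) ((G1_cont R).comp continuous_snd) (m := 2 * R * (2 * R * mR R))
    (by have := mR_pos R; positivity) (fun _ => G1_lower hR.le) id continuous_id
  have hT1c : Continuous (T1' ()) := hT1c'.comp (Continuous.prodMk_right ())
  obtain ⟨T2, hT2c, hT2d, hT2m, hT2p⟩ := exists_step (X := ℝ) (Y := ℝ) (R := R) ha
    (P2 f a) (P2_cont hf a) hP2
    (G2 R) (G2_cont R) (m := 2 * R * mR R)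
    (by have := mR_pos R; positivity) (G2_lower hR.le) (T1' ()) hT1c
  have hS3 : Continuous (fun q : ℝ × ℝ => (T1' () q.1, T2 q.1 q.2)) :=
    (hT1c.comp continuous_fst).prodMk hT2c
  obtain ⟨T3, hT3c, hT3d, hT3m, hT3p⟩ := exists_step (X := ℝ × ℝ) (Y := ℝ × ℝ) (R := R) ha
    (P3 f) (P3_cont hf) hP3
    (G3 R) (G3_cont R) (m := mR R) (mR_pos R) (G3_lower hR.le)
    (fun q : ℝ × ℝ => (T1' () q.1, T2 q.1 q.2)) hS3
  exact ⟨T1' (), T2, T3, ha, hR, hf, h0, hT1c, hT2c, hT3c, hT1d' (), hT2d,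
    fun x y => hT3d (x, y), hT1m' (), hT1p' (), hT2m, hT2p, hT3m, hT3p⟩

end

end Pool.Agent.H92.BN.Kn
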