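import Pool.Agent.H92.BN.MA_KM

set_option autoImplicit false

namespace Pool.Agent.H92.BN.Kn

open MeasureTheory Set Filter Topology intervalIntegral

namespace KM

variable {a R : ℝ} {f : ℝ × ℝ × ℝ → ℝ} {T1 : ℝ → ℝ} {T2 : ℝ → ℝ → ℝ} {T3 : ℝ × ℝ → ℝ → ℝ}

/-- the diagonal derivatives -/
noncomputable def al (a R : ℝ) (f : ℝ × ℝ × ℝ → ℝ) (T1 : ℝ → ℝ) (q : ℝ × ℝ × ℝ) : ℝ :=
  P1 f a q.1 / P0 f a * (G0 R / G1 R (T1 q.1))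
noncomputable def be (a R : ℝ) (f : ℝ × ℝ × ℝ → ℝ) (T1 : ℝ → ℝ) (T2 : ℝ → ℝ → ℝ)
    (q : ℝ × ℝ × ℝ) : ℝ :=
  P2 f a q.1 q.2.1 / P1 f a q.1 * (G1 R (T1 q.1) / G2 R (T1 q.1) (T2 q.1 q.2.1))
noncomputable def ga (a R : ℝ) (f : ℝ × ℝ × ℝ → ℝ) (T1 : ℝ → ℝ) (T2 : ℝ → ℝ → ℝ)
    (T3 : ℝ × ℝ → ℝ → ℝ) (q : ℝ × ℝ × ℝ) : ℝ :=
  P3 f (q.1, q.2.1) q.2.2 / P2 f a q.1 q.2.1 *
    (G2 R (T1 q.1) (T2 q.1 q.2.1) / G3 R (T1 q.1, T2 q.1 q.2.1) (T3 (q.1, q.2.1) q.2.2))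

theorem ct1 (h : KM a R f T1 T2 T3) : Continuous (fun q : ℝ × ℝ × ℝ => T1 q.1) :=
  h.c1.comp continuous_fst
theorem ct2 (h : KM a R f T1 T2 T3) : Continuous (fun q : ℝ × ℝ × ℝ => T2 q.1 q.2.1) :=
  h.c2.comp (f := fun q : ℝ × ℝ × ℝ => (q.1, q.2.1)) (by fun_prop)
theorem ct3 (h : KM a R f T1 T2 T3) :
    Continuous (fun q : ℝ × ℝ × ℝ => T3 (q.1, q.2.1) q.2.2) :=
  h.c3.comp (f := fun q : ℝ × ℝ × ℝ => ((q.1, q.2.1), q.2.2)) (by fun_prop)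

theorem G2_cont' {R : ℝ} {X : Type*} [TopologicalSpace X] {u v : X → ℝ} (hu : Continuous u)
    (hv : Continuous v) : Continuous (fun q => G2 R (u q) (v q)) := by
  have h := (G2_cont R).comp (hu.prodMk hv)
  exact h
theorem G3_cont' {R : ℝ} {X : Type*} [TopologicalSpace X] {u v w : X → ℝ} (hu : Continuous u)
    (hv : Continuous v) (hw : Continuous w) : Continuous (fun q => G3 R (u q, v q) (w q)) := by
  have h := (G3_cont R).comp ((hu.prodMk hv).prodMk hw)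
  exact h

theorem cP1 (h : KM a R f T1 T2 T3) : Continuous (fun q : ℝ × ℝ × ℝ => P1 f a q.1) :=
  (P1_cont h.hf a).comp continuous_fst
theorem cP2 (h : KM a R f T1 T2 T3) : Continuous (fun q : ℝ × ℝ × ℝ => P2 f a q.1 q.2.1) :=
  (P2_cont h.hf a).comp (f := fun q : ℝ × ℝ × ℝ => (q.1, q.2.1)) (by fun_prop)
theorem cP3 (h : KM a R f T1 T2 T3) : Continuous (fun q : ℝ × ℝ × ℝ => P3 f (q.1, q.2.1) q.2.2) :=
  (P3_cont h.hf).comp (f := fun q : ℝ × ℝ × ℝ => ((q.1, q.2.1), q.2.2)) (by fun_prop)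
theorem cG1 (h : KM a R f T1 T2 T3) : Continuous (fun q : ℝ × ℝ × ℝ => G1 R (T1 q.1)) :=
  (G1_cont R).comp h.ct1
theorem cG2 (h : KM a R f T1 T2 T3) :
    Continuous (fun q : ℝ × ℝ × ℝ => G2 R (T1 q.1) (T2 q.1 q.2.1)) :=
  G2_cont' h.ct1 h.ct2
theorem cG3 (h : KM a R f T1 T2 T3) : Continuous (fun q : ℝ × ℝ × ℝ =>
    G3 R (T1 q.1, T2 q.1 q.2.1) (T3 (q.1, q.2.1) q.2.2)) :=
  G3_cont' h.ct1 h.ct2 h.ct3

theorem q0 (h : KM a R f T1 T2 T3) : 0 < P0 f a := P0_pos h.ha h.hf h.h0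
theorem q1 (h : KM a R f T1 T2 T3) (x : ℝ) : 0 < P1 f a x := P1_pos h.ha h.hf h.h0 x
theorem q2 (h : KM a R f T1 T2 T3) (x y : ℝ) : 0 < P2 f a x y := P2_pos h.ha h.hf h.h0 x y
theorem q3 (h : KM a R f T1 T2 T3) (x : ℝ × ℝ) (y : ℝ) : 0 < P3 f x y := P3_pos h.h0 x y
theorem g0 (h : KM a R f T1 T2 T3) : 0 < G0 R := G0_pos h.hR
theorem g1 (h : KM a R f T1 T2 T3) (x : ℝ) : 0 < G1 R x := G1_pos h.hR x
theorem g2 (h : KM a R f T1 T2 T3) (x y : ℝ) : 0 < G2 R x y := G2_pos h.hR x y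

theorem al_cont (h : KM a R f T1 T2 T3) : Continuous (al a R f T1) :=
  (h.cP1.div_const _).mul (continuous_const.div h.cG1 fun _ => (h.g1 _).ne')
theorem be_cont (h : KM a R f T1 T2 T3) : Continuous (be a R f T1 T2) :=
  (h.cP2.div h.cP1 fun _ => (h.q1 _).ne').mul (h.cG1.div h.cG2 fun _ => (h.g2 _ _).ne')
theorem ga_cont (h : KM a R f T1 T2 T3) : Continuous (ga a R f T1 T2 T3) :=
  (h.cP3.div h.cP2 fun _ => (h.q2 _ _).ne').mul (h.cG2.div h.cG3 fun _ => (G3_pos _ _).ne')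

theorem al_nonneg (h : KM a R f T1 T2 T3) (q : ℝ × ℝ × ℝ) : 0 ≤ al a R f T1 q :=
  mul_nonneg (div_nonneg (h.q1 _).le h.q0.le) (div_nonneg h.g0.le (h.g1 _).le)
theorem be_nonneg (h : KM a R f T1 T2 T3) (q : ℝ × ℝ × ℝ) : 0 ≤ be a R f T1 T2 q :=
  mul_nonneg (div_nonneg (h.q2 _ _).le (h.q1 _).le) (div_nonneg (h.g1 _).le (h.g2 _ _).le)
theorem ga_nonneg (h : KM a R f T1 T2 T3) (q : ℝ × ℝ × ℝ) : 0 ≤ ga a R f T1 T2 T3 q :=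
  mul_nonneg (div_nonneg (h.q3 _ _).le (h.q2 _ _).le) (div_nonneg (h.g2 _ _).le (G3_pos _ _).le)

theorem r1 (h : KM a R f T1 T2 T3) {x : ℝ} (hx : x ∈ Icc (-a) a) : T1 x ∈ Icc (-R) R :=
  range_of_step h.d1 (fun t => h.al_nonneg (t, 0, 0)) h.m1 h.p1 hx
theorem r2 (h : KM a R f T1 T2 T3) (x : ℝ) {y : ℝ} (hy : y ∈ Icc (-a) a) :
    T2 x y ∈ Icc (-R) R :=
  range_of_step (h.d2 x) (fun t => h.be_nonneg (x, t, 0)) (h.m2 x) (h.p2 x) hy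
theorem r3 (h : KM a R f T1 T2 T3) (x y : ℝ) {z : ℝ} (hz : z ∈ Icc (-a) a) :
    T3 (x, y) z ∈ Icc (-R) R :=
  range_of_step (h.d3 x y) (fun t => h.ga_nonneg (x, y, t)) (h.m3 (x, y)) (h.p3 (x, y)) hz

/-- arithmetic-geometric inequality -/
theorem hag (h : KM a R f T1 T2 T3) {κ : ℝ} (hκ : κ ^ 3 * P0 f a = G0 R) (x y z : ℝ)
    (hx : x ∈ Icc (-a) a) (hy : y ∈ Icc (-a) a) (hz : z ∈ Icc (-a) a) :
    3 * (κ * (f (x, y, z) ^ 2 * (1 + (T1 x ^ 2 + T2 x y ^ 2 + T3 (x, y) z ^ 2)))) ≤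
      al a R f T1 (x, y, z) + be a R f T1 T2 (x, y, z) + ga a R f T1 T2 T3 (x, y, z) := by
  apply amgm (h.al_nonneg _) (h.be_nonneg _) (h.ga_nonneg _)
  have e1 := h.r1 hx
  have e2 := h.r2 x hy
  have e3 := h.r3 x y hz
  have eG : G3 R (T1 x, T2 x y) (T3 (x, y) z) =
      ((1 + (T1 x ^ 2 + T2 x y ^ 2 + T3 (x, y) z ^ 2)) ^ 3)⁻¹ := by
    unfold G3
    simp only
    rw [cl_eq e1, cl_eq e2, cl_eq e3]
    congr 2
    ring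
  have eP : P3 f (x, y) z = f (x, y, z) ^ 6 := rfl
  have n1 := (h.q1 x).ne'
  have n2 := (h.q2 x y).ne'
  have n3 := (h.g1 (T1 x)).ne'
  have n4 := (h.g2 (T1 x) (T2 x y)).ne'
  have n5 := h.q0.ne'
  have hκ' : κ ^ 3 = G0 R / P0 f a := by rw [← hκ]; field_simp
  unfold al be ga
  simp only
  rw [eG, eP, mul_pow, hκ', mul_pow]
  generalize (1 + (T1 x ^ 2 + T2 x y ^ 2 + T3 (x, y) z ^ 2)) = m
  generalize P1 f a x = u1 at *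
  generalize P2 f a x y = u2 at *
  generalize P0 f a = u0 at *
  generalize G1 R (T1 x) = v1 at *
  generalize G2 R (T1 x) (T2 x y) = v2 at *
  field_simp

end KM

end Pool.Agent.H92.BN.Kn
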