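import Pool.Agent.H92.BN.MA_KM2

set_option autoImplicit false

namespace Pool.Agent.H92.BN.Kn

open MeasureTheory Set Filter Topology intervalIntegral

namespace KM

variable {a R : ℝ} {f : ℝ × ℝ × ℝ → ℝ} {T1 : ℝ → ℝ} {T2 : ℝ → ℝ → ℝ} {T3 : ℝ × ℝ → ℝ → ℝ}

/-- inner moment -/
noncomputable def I3 (R : ℝ) (s : ℝ × ℝ) : ℝ := ∫ τ in (-R)..R, G3 R s τ *
  (s.1 ^ 2 + s.2 ^ 2 + τ ^ 2)
noncomputable def I2 (R : ℝ) (s : ℝ) : ℝ := ∫ t in (-R)..R, I3 R (s, t)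

theorem I3_cont (R : ℝ) : Continuous (I3 R) := by
  unfold I3
  refine continuous_parametric_intervalIntegral_of_continuous'
    (f := fun (s : ℝ × ℝ) τ => G3 R s τ * (s.1 ^ 2 + s.2 ^ 2 + τ ^ 2)) ?_ _ _
  exact (G3_cont R).mul (by fun_prop)

theorem I3_cont' (R s : ℝ) : Continuous (fun t => I3 R (s, t)) := by
  have := (I3_cont R).comp (Continuous.prodMk_right (X := ℝ) (Y := ℝ) s)
  exact this

theorem I2_cont (R : ℝ) : Continuous (I2 R) := by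
  unfold I2
  exact continuous_parametric_intervalIntegral_of_continuous' (f := fun s t => I3 R (s, t))
    (I3_cont R) _ _

theorem BR_eq (R : ℝ) : BR R = ∫ s in (-R)..R, I2 R s := rfl

theorem s3 (h : KM a R f T1 T2 T3) (x y : ℝ) :
    ∫ z in (-a)..a, f (x, y, z) ^ 6 * (T1 x ^ 2 + T2 x y ^ 2 + T3 (x, y) z ^ 2) =
      P2 f a x y * (I3 R (T1 x, T2 x y) / G2 R (T1 x) (T2 x y)) := by
  have hg : Continuous (G3 R (T1 x, T2 x y)) := by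
    have := (G3_cont R).comp (Continuous.prodMk_right (Y := ℝ) (T1 x, T2 x y))
    exact this
  have hp : Continuous (P3 f (x, y)) := by
    have := (P3_cont h.hf).comp (Continuous.prodMk_right (Y := ℝ) (x, y))
    exact this
  have hT : Continuous (T3 (x, y)) := by
    have := h.c3.comp (Continuous.prodMk_right (Y := ℝ) (x, y))
    exact this
  have := subst_step (h := fun τ => T1 x ^ 2 + T2 x y ^ 2 + τ ^ 2)
    hp hT hg (fun t => G3_pos _ _) (by fun_prop)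
    (h.q2 x y) (h.g2 (T1 x) (T2 x y)) (h.d3 x y) (h.m3 _) (h.p3 _)
  refine Eq.trans this ?_
  unfold I3
  ring

theorem s2 (h : KM a R f T1 T2 T3) (x : ℝ) :
    ∫ y in (-a)..a, P2 f a x y * (I3 R (T1 x, T2 x y) / G2 R (T1 x) (T2 x y)) =
      P1 f a x * (I2 R (T1 x) / G1 R (T1 x)) := by
  have hg : Continuous (G2 R (T1 x)) := by
    have := (G2_cont R).comp (Continuous.prodMk_right (X := ℝ) (Y := ℝ) (T1 x))
    exact this
  have hp : Continuous (P2 f a x) := by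
    have := (P2_cont h.hf a).comp (Continuous.prodMk_right (Y := ℝ) x)
    exact this
  have hT : Continuous (T2 x) := by
    have := h.c2.comp (Continuous.prodMk_right (Y := ℝ) x)
    exact this
  have := subst_step (h := fun t => I3 R (T1 x, t) / G2 R (T1 x) t)
    hp hT hg (h.g2 (T1 x)) ((I3_cont' R (T1 x)).div hg fun t => (h.g2 _ _).ne')
    (h.q1 x) (h.g1 (T1 x)) (h.d2 x) (h.m2 _) (h.p2 _)
  refine Eq.trans this ?_
  have e : ∀ t, G2 R (T1 x) t * (I3 R (T1 x, t) / G2 R (T1 x) t) = I3 R (T1 x, t) := fun t => by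
    have := (h.g2 (T1 x) t).ne'
    field_simp
  simp_rw [e]
  unfold I2
  ring

theorem s1 (h : KM a R f T1 T2 T3) :
    ∫ x in (-a)..a, P1 f a x * (I2 R (T1 x) / G1 R (T1 x)) = P0 f a / G0 R * BR R := by
  have := subst_step (h := fun s => I2 R s / G1 R s)
    (P1_cont h.hf a) h.c1 (G1_cont R) h.g1 ((I2_cont R).div (G1_cont R) fun t => (h.g1 _).ne')
    h.q0 h.g0 h.d1 h.m1 h.p1
  refine Eq.trans this ?_
  have e : ∀ s, G1 R s * (I2 R s / G1 R s) = I2 R s := fun s => by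
    have := (h.g1 s).ne'
    field_simp
  simp_rw [e]
  rw [BR_eq]

theorem hmom0 (h : KM a R f T1 T2 T3) : ∫ q, f q ^ 6 ∂(nu3 a) = P0 f a := by
  have c : Continuous (fun q : ℝ × ℝ × ℝ => f q ^ 6) := h.hf.pow 6
  rw [B_z h.ha c]
  rfl

theorem hmom2 (h : KM a R f T1 T2 T3) :
    ∫ q, f q ^ 6 * (T1 q.1 ^ 2 + T2 q.1 q.2.1 ^ 2 + T3 (q.1, q.2.1) q.2.2 ^ 2) ∂(nu3 a) =
      P0 f a / G0 R * BR R := by
  have c : Continuous (fun q : ℝ × ℝ × ℝ =>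
      f q ^ 6 * (T1 q.1 ^ 2 + T2 q.1 q.2.1 ^ 2 + T3 (q.1, q.2.1) q.2.2 ^ 2)) :=
    (h.hf.pow 6).mul (((h.ct1.pow 2).add (h.ct2.pow 2)).add (h.ct3.pow 2))
  rw [B_z h.ha c]
  simp only [h.s3, h.s2, h.s1]

/-- integration by parts, first variable -/
theorem ib1 (h : KM a R f T1 T2 T3) {δ : ℝ} {f1 : ℝ × ℝ × ℝ → ℝ} (hf1 : Continuous f1)
    (hd1 : ∀ x y z, HasDerivAt (fun t => f (t, y, z)) (f1 (x, y, z)) x)
    (hb1 : ∀ y z, f (a, y, z) = δ ∧ f (-a, y, z) = δ) :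
    ∫ q, f q ^ 4 * al a R f T1 q ∂(nu3 a) = 8 * a ^ 2 * R * δ ^ 4 -
      ∫ q, 4 * f q ^ 3 * f1 q * T1 q.1 ∂(nu3 a) := by
  have c1 : Continuous (fun q : ℝ × ℝ × ℝ => f q ^ 4 * al a R f T1 q) := (h.hf.pow 4).mul h.al_cont
  have c2 : Continuous (fun q : ℝ × ℝ × ℝ => 4 * f q ^ 3 * f1 q * T1 q.1) :=
    ((continuous_const.mul (h.hf.pow 3)).mul hf1).mul h.ct1
  rw [B_x h.ha c1, B_x h.ha c2]
  have e : ∀ y z, ∫ x in (-a)..a, f (x, y, z) ^ 4 * al a R f T1 (x, y, z) = 2 * R * δ ^ 4 -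
      ∫ x in (-a)..a, 4 * f (x, y, z) ^ 3 * f1 (x, y, z) * T1 x := by
    intro y z
    have cc : Continuous (fun x : ℝ => (x, y, z)) := by fun_prop
    exact ibp1 (fun t => hd1 t y z) (hf1.comp cc) h.d1 (h.al_cont.comp cc)
      (hb1 y z).1 (hb1 y z).2 h.p1 h.m1
  simp_rw [e]
  rw [B_const (h := fun y z => ∫ x in (-a)..a, 4 * f (x, y, z) ^ 3 * f1 (x, y, z) * T1 x)]
  · ring
  · have cm : Continuous (fun q : (ℝ × ℝ) × ℝ => (q.2, q.1.1, q.1.2)) := by fun_prop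
    exact continuous_parametric_intervalIntegral_of_continuous'
      (f := fun (q : ℝ × ℝ) x => 4 * f (x, q.1, q.2) ^ 3 * f1 (x, q.1, q.2) * T1 x)
      (c2.comp cm) _ _

theorem ib2 (h : KM a R f T1 T2 T3) {δ : ℝ} {f2 : ℝ × ℝ × ℝ → ℝ} (hf2 : Continuous f2)
    (hd2 : ∀ x y z, HasDerivAt (fun t => f (x, t, z)) (f2 (x, y, z)) y)
    (hb2 : ∀ x z, f (x, a, z) = δ ∧ f (x, -a, z) = δ) :
    ∫ q, f q ^ 4 * be a R f T1 T2 q ∂(nu3 a) = 8 * a ^ 2 * R * δ ^ 4 -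
      ∫ q, 4 * f q ^ 3 * f2 q * T2 q.1 q.2.1 ∂(nu3 a) := by
  have c1 : Continuous (fun q : ℝ × ℝ × ℝ => f q ^ 4 * be a R f T1 T2 q) :=
    (h.hf.pow 4).mul h.be_cont
  have c2 : Continuous (fun q : ℝ × ℝ × ℝ => 4 * f q ^ 3 * f2 q * T2 q.1 q.2.1) :=
    ((continuous_const.mul (h.hf.pow 3)).mul hf2).mul h.ct2
  rw [B_y h.ha c1, B_y h.ha c2]
  have e : ∀ x z, ∫ y in (-a)..a, f (x, y, z) ^ 4 * be a R f T1 T2 (x, y, z) = 2 * R * δ ^ 4 -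
      ∫ y in (-a)..a, 4 * f (x, y, z) ^ 3 * f2 (x, y, z) * T2 x y := by
    intro x z
    have cc : Continuous (fun y : ℝ => (x, y, z)) := by fun_prop
    exact ibp1 (fun t => hd2 x t z) (hf2.comp cc) (h.d2 x) (h.be_cont.comp cc)
      (hb2 x z).1 (hb2 x z).2 (h.p2 x) (h.m2 x)
  simp_rw [e]
  rw [B_const (h := fun x z => ∫ y in (-a)..a, 4 * f (x, y, z) ^ 3 * f2 (x, y, z) * T2 x y)]
  · ring
  · have cm : Continuous (fun q : (ℝ × ℝ) × ℝ => (q.1.1, q.2, q.1.2)) := by fun_prop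
    exact continuous_parametric_intervalIntegral_of_continuous'
      (f := fun (q : ℝ × ℝ) y => 4 * f (q.1, y, q.2) ^ 3 * f2 (q.1, y, q.2) * T2 q.1 y)
      (c2.comp cm) _ _

theorem ib3 (h : KM a R f T1 T2 T3) {δ : ℝ} {f3 : ℝ × ℝ × ℝ → ℝ} (hf3 : Continuous f3)
    (hd3 : ∀ x y z, HasDerivAt (fun t => f (x, y, t)) (f3 (x, y, z)) z)
    (hb3 : ∀ x y, f (x, y, a) = δ ∧ f (x, y, -a) = δ) :
    ∫ q, f q ^ 4 * ga a R f T1 T2 T3 q ∂(nu3 a) = 8 * a ^ 2 * R * δ ^ 4 -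
      ∫ q, 4 * f q ^ 3 * f3 q * T3 (q.1, q.2.1) q.2.2 ∂(nu3 a) := by
  have c1 : Continuous (fun q : ℝ × ℝ × ℝ => f q ^ 4 * ga a R f T1 T2 T3 q) :=
    (h.hf.pow 4).mul h.ga_cont
  have c2 : Continuous (fun q : ℝ × ℝ × ℝ => 4 * f q ^ 3 * f3 q * T3 (q.1, q.2.1) q.2.2) :=
    ((continuous_const.mul (h.hf.pow 3)).mul hf3).mul h.ct3
  rw [B_z h.ha c1, B_z h.ha c2]
  have e : ∀ x y, ∫ z in (-a)..a, f (x, y, z) ^ 4 * ga a R f T1 T2 T3 (x, y, z) =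
      2 * R * δ ^ 4 - ∫ z in (-a)..a, 4 * f (x, y, z) ^ 3 * f3 (x, y, z) * T3 (x, y) z := by
    intro x y
    have cc : Continuous (fun z : ℝ => (x, y, z)) := by fun_prop
    exact ibp1 (fun t => hd3 x y t) (hf3.comp cc) (h.d3 x y) (h.ga_cont.comp cc)
      (hb3 x y).1 (hb3 x y).2 (h.p3 (x, y)) (h.m3 (x, y))
  simp_rw [e]
  rw [B_const (h := fun x y => ∫ z in (-a)..a, 4 * f (x, y, z) ^ 3 * f3 (x, y, z) *
    T3 (x, y) z)]
  · ring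
  · have cm : Continuous (fun q : (ℝ × ℝ) × ℝ => (q.1.1, q.1.2, q.2)) := by fun_prop
    exact continuous_parametric_intervalIntegral_of_continuous'
      (f := fun (q : ℝ × ℝ) z => 4 * f (q.1, q.2, z) ^ 3 * f3 (q.1, q.2, z) * T3 (q.1, q.2) z)
      (c2.comp cm) _ _

end KM

end Pool.Agent.H92.BN.Kn
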