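import Pool.Agent.H92.BN.MA_Trans

set_option autoImplicit false

namespace Pool.Agent.H92.BN.Kn

open MeasureTheory Set Filter Topology
open scoped ContDiff InnerProductSpace

attribute [fun_prop] toE_cont

theorem nu3_congr {R : ℝ} {H H' : ℝ × ℝ × ℝ → ℝ}
    (h : ∀ q : ℝ × ℝ × ℝ, q.1 ∈ Icc (-R) R → q.2.1 ∈ Icc (-R) R → q.2.2 ∈ Icc (-R) R →
      H q = H' q) : ∫ q, H q ∂(nu3 R) = ∫ q, H' q ∂(nu3 R) := by
  rw [nu3_eq]
  refine setIntegral_congr_fun (measurableSet_Ioc.prod (measurableSet_Ioc.prod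
    measurableSet_Ioc)) fun q hq => ?_
  exact h q (Ioc_subset_Icc_self hq.1) (Ioc_subset_Icc_self hq.2.1) (Ioc_subset_Icc_self hq.2.2)

theorem G3_eq_norm {R : ℝ} (q : ℝ × ℝ × ℝ) (h1 : q.1 ∈ Icc (-R) R) (h2 : q.2.1 ∈ Icc (-R) R)
    (h3 : q.2.2 ∈ Icc (-R) R) :
    G3 R (q.1, q.2.1) q.2.2 = ((1 + ‖toE q‖ ^ 2) ^ 3)⁻¹ := by
  unfold G3
  rw [toE_norm_sq]
  simp only
  rw [cl_eq h1, cl_eq h2, cl_eq h3]
  congr 2
  ring

theorem G0_eq {R : ℝ} (hR : 0 < R) :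
    G0 R = ∫ q, ((1 + ‖toE q‖ ^ 2) ^ 3)⁻¹ ∂(nu3 R) := by
  rw [← nu3_congr (H := fun q => G3 R (q.1, q.2.1) q.2.2)
    (H' := fun q => ((1 + ‖toE q‖ ^ 2) ^ 3)⁻¹) G3_eq_norm]
  have c : Continuous (fun q : ℝ × ℝ × ℝ => G3 R (q.1, q.2.1) q.2.2) :=
    KM.G3_cont' (by fun_prop) (by fun_prop) (by fun_prop)
  rw [B_z hR c]
  rfl

theorem BR_eq2 {R : ℝ} (hR : 0 < R) :
    BR R = ∫ q, ((1 + ‖toE q‖ ^ 2) ^ 3)⁻¹ * ‖toE q‖ ^ 2 ∂(nu3 R) := by
  rw [← nu3_congr (H := fun q => G3 R (q.1, q.2.1) q.2.2 * (q.1 ^ 2 + q.2.1 ^ 2 + q.2.2 ^ 2))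
    (H' := fun q => ((1 + ‖toE q‖ ^ 2) ^ 3)⁻¹ * ‖toE q‖ ^ 2)
    (fun q h1 h2 h3 => by rw [G3_eq_norm q h1 h2 h3, toE_norm_sq])]
  have c : Continuous (fun q : ℝ × ℝ × ℝ => G3 R (q.1, q.2.1) q.2.2) :=
    KM.G3_cont' (by fun_prop) (by fun_prop) (by fun_prop)
  have c' : Continuous (fun q : ℝ × ℝ × ℝ => G3 R (q.1, q.2.1) q.2.2 *
    (q.1 ^ 2 + q.2.1 ^ 2 + q.2.2 ^ 2)) := c.mul (by fun_prop)
  rw [B_z hR c']
  rfl

theorem G0_tendsto : Tendsto (fun n : ℕ => G0 ((n : ℝ) + 1)) atTop (𝓝 K0) := by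
  have h := box_tendsto G_int
  refine h.congr fun n => ?_
  rw [G0_eq (by positivity)]

theorem BR_tendsto : Tendsto (fun n : ℕ => BR ((n : ℝ) + 1)) atTop (𝓝 (3 * K0)) := by
  have h := box_tendsto Gm_int
  rw [moment] at h
  refine h.congr fun n => ?_
  rw [BR_eq2 (by positivity)]

/-- coordinate lines -/
theorem toE_d1 (x y z : ℝ) :
    HasDerivAt (fun t : ℝ => toE (t, y, z)) (EuclideanSpace.single 0 1) x := by
  have : (fun t : ℝ => toE (t, y, z)) = fun t => t • (EuclideanSpace.single 0 (1:ℝ) : E) +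
      toE (0, y, z) := by
    ext t i
    fin_cases i <;> simp [toE]
  rw [this]
  simpa using ((hasDerivAt_id x).smul_const (EuclideanSpace.single 0 (1:ℝ) : E)).add_const
    (toE (0, y, z))

theorem toE_d2 (x y z : ℝ) :
    HasDerivAt (fun t : ℝ => toE (x, t, z)) (EuclideanSpace.single 1 1) y := by
  have : (fun t : ℝ => toE (x, t, z)) = fun t => t • (EuclideanSpace.single 1 (1:ℝ) : E) +
      toE (x, 0, z) := by
    ext t i
    fin_cases i <;> simp [toE]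
  rw [this]
  simpa using ((hasDerivAt_id y).smul_const (EuclideanSpace.single 1 (1:ℝ) : E)).add_const
    (toE (x, 0, z))

theorem toE_d3 (x y z : ℝ) :
    HasDerivAt (fun t : ℝ => toE (x, y, t)) (EuclideanSpace.single 2 1) z := by
  have : (fun t : ℝ => toE (x, y, t)) = fun t => t • (EuclideanSpace.single 2 (1:ℝ) : E) +
      toE (x, y, 0) := by
    ext t i
    fin_cases i <;> simp [toE]
  rw [this]
  simpa using ((hasDerivAt_id z).smul_const (EuclideanSpace.single 2 (1:ℝ) : E)).add_const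
    (toE (x, y, 0))

theorem fderiv_single (φ : E → ℝ) (x : E) (i : Fin 3) :
    fderiv ℝ φ x (EuclideanSpace.single i 1) = gradient φ x i := by
  have h : fderiv ℝ φ x (EuclideanSpace.single i 1) =
      ⟪gradient φ x, EuclideanSpace.single i 1⟫_ℝ := by
    unfold gradient
    rw [InnerProductSpace.toDual_symm_apply]
  rw [h, real_inner_comm, EuclideanSpace.inner_single_left]
  simp

theorem deriv_sqrt_reg {g : ℝ → ℝ} {g' δ t : ℝ} (hδ : 0 < δ) (hg : HasDerivAt g g' t) :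
    HasDerivAt (fun t => Real.sqrt (g t ^ 2 + δ ^ 2)) (g t * g' / Real.sqrt (g t ^ 2 + δ ^ 2)) t := by
  have h1 : HasDerivAt (fun t => g t ^ 2 + δ ^ 2) (2 * g t * g') t := by
    simpa using (hg.fun_pow 2).add_const (δ ^ 2)
  have h2 := h1.sqrt (by positivity)
  refine h2.congr_deriv ?_
  field_simp

/-- the inequality on a fixed box, for a smooth function `φ` vanishing outside the open box -/
theorem fixed_R {a R lam c : ℝ} (ha : 0 < a) (hR : 0 < R) (hl : 0 < lam) {φ : E → ℝ}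
    (hφ : ContDiff ℝ ∞ φ)
    (hv : ∀ q : ℝ × ℝ × ℝ, (|q.1| = a ∨ |q.2.1| = a ∨ |q.2.2| = a) → φ (toE q) = 0)
    (hc : c = ∫ q, φ (toE q) ^ 6 ∂(nu3 a)) (hc0 : 0 < c) :
    3 * (G0 R / c) ^ ((1:ℝ)/3) * (c + c / G0 R * BR R) ≤
      2 * lam * (∫ q, ‖gradient φ (toE q)‖ ^ 2 ∂(nu3 a)) + 2 / lam * (c / G0 R * BR R) := by
  have hG0 := G0_pos hR
  have cφ0 : Continuous φ := hφ.continuous
  have cφ : Continuous (fun q => φ (toE q)) := hφ.continuous.comp toE_cont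
  have hdφ : Differentiable ℝ φ := hφ.differentiable (by simp)
  have cg : Continuous (gradient φ) := by
    unfold gradient
    exact (InnerProductSpace.toDual ℝ E).symm.continuous.comp (hφ.continuous_fderiv (by simp))
  have cgi : ∀ i : Fin 3, Continuous (fun q => gradient φ (toE q) i) := fun i =>
    ((EuclideanSpace.proj i : E →L[ℝ] ℝ).continuous.comp cg).comp toE_cont
  -- the mass of the regularisation
  let cδ : ℝ → ℝ := fun δ => ∫ q, (φ (toE q) ^ 2 + δ ^ 2) ^ 3 ∂(nu3 a)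
  have hcδ : ∀ δ, cδ δ = (∫ q, φ (toE q) ^ 6 ∂(nu3 a)) + 3 * δ ^ 2 * (∫ q, φ (toE q) ^ 4 ∂(nu3 a)) +
      3 * δ ^ 4 * (∫ q, φ (toE q) ^ 2 ∂(nu3 a)) + δ ^ 6 * (∫ _q, (1:ℝ) ∂(nu3 a)) := by
    intro δ
    rw [← integral_const_mul, ← integral_const_mul, ← integral_const_mul,
      ← integral_add (nu3_int (by fun_prop)) (nu3_int (by fun_prop)),
      ← integral_add (nu3_int (by fun_prop)) (nu3_int (by fun_prop)),
      ← integral_add (nu3_int (by fun_prop)) (nu3_int (by fun_prop))]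
    simp only [cδ]
    congr 1
    ext q
    ring
  have hcont : Continuous cδ := by
    have : cδ = fun δ => (∫ q, φ (toE q) ^ 6 ∂(nu3 a)) +
      3 * δ ^ 2 * (∫ q, φ (toE q) ^ 4 ∂(nu3 a)) +
      3 * δ ^ 4 * (∫ q, φ (toE q) ^ 2 ∂(nu3 a)) + δ ^ 6 * (∫ _q, (1:ℝ) ∂(nu3 a)) := funext hcδ
    rw [this]
    fun_prop
  have hc00 : cδ 0 = c := by
    rw [hcδ, hc]; ring
  have hpos : ∀ δ, 0 < cδ δ := by
    intro δ
    have e4 : 0 ≤ ∫ q, φ (toE q) ^ 4 ∂(nu3 a) := integral_nonneg fun q => by positivity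
    have e2 : 0 ≤ ∫ q, φ (toE q) ^ 2 ∂(nu3 a) := integral_nonneg fun q => by positivity
    have e0 : 0 ≤ ∫ _q, (1:ℝ) ∂(nu3 a) := integral_nonneg fun q => by positivity
    rw [hcδ, ← hc]
    positivity
  have hmain : ∀ δ : ℝ, 0 < δ →
      3 * (G0 R / cδ δ) ^ ((1:ℝ)/3) * (cδ δ + cδ δ / G0 R * BR R) ≤
      24 * a ^ 2 * R * δ ^ 4 + 2 * lam * (∫ q, ‖gradient φ (toE q)‖ ^ 2 ∂(nu3 a)) +
        2 / lam * (cδ δ / G0 R * BR R) := by
    intro δ hδ
    let f : ℝ × ℝ × ℝ → ℝ := fun q => Real.sqrt (φ (toE q) ^ 2 + δ ^ 2)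
    have hf0 : ∀ q, 0 < f q := fun q => Real.sqrt_pos.2 (by positivity)
    have cf : Continuous f := by
      show Continuous fun q => Real.sqrt (φ (toE q) ^ 2 + δ ^ 2)
      fun_prop
    let fi : Fin 3 → ℝ × ℝ × ℝ → ℝ := fun i q => φ (toE q) * gradient φ (toE q) i / f q
    have cfi : ∀ i, Continuous (fi i) := fun i => (cφ.mul (cgi i)).div cf fun q => (hf0 q).ne'
    have hb : ∀ q : ℝ × ℝ × ℝ, (|q.1| = a ∨ |q.2.1| = a ∨ |q.2.2| = a) → f q = δ := by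
      intro q hq
      simp only [f]
      rw [hv q hq]
      rw [zero_pow two_ne_zero, zero_add, Real.sqrt_sq hδ.le]
    have hP0 : P0 f a = cδ δ := by
      have c6 : Continuous (fun q => f q ^ 6) := cf.pow 6
      have : P0 f a = ∫ q, f q ^ 6 ∂(nu3 a) := by rw [B_z ha c6]; rfl
      rw [this]
      simp only [cδ]
      congr 1
      ext q
      have e : f q ^ 2 = φ (toE q) ^ 2 + δ ^ 2 := Real.sq_sqrt (by positivity)
      calc f q ^ 6 = (f q ^ 2) ^ 3 := by ring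
        _ = _ := by rw [e]
    have hκ : ((G0 R / cδ δ) ^ ((1:ℝ)/3)) ^ 3 * P0 f a = G0 R := by
      rw [hP0, ← Real.rpow_natCast, ← Real.rpow_mul (div_nonneg hG0.le (hpos δ).le)]
      norm_num
      exact div_mul_cancel₀ _ (hpos δ).ne'
    have haa : |a| = a := abs_of_pos ha
    have haa' : |-a| = a := by rw [abs_neg, haa]
    have := core (a := a) (R := R) (δ := δ) (lam := lam) (κ := (G0 R / cδ δ) ^ ((1:ℝ)/3))
      ha hR hl cf (cfi 0) (cfi 1) (cfi 2) hf0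
      (fun x y z => ?_) (fun x y z => ?_) (fun x y z => ?_)
      (fun y z => ⟨hb _ (Or.inl haa), hb _ (Or.inl haa')⟩)
      (fun y z => ⟨hb _ (Or.inr (Or.inl haa)), hb _ (Or.inr (Or.inl haa'))⟩)
      (fun y z => ⟨hb _ (Or.inr (Or.inr haa)), hb _ (Or.inr (Or.inr haa'))⟩) hκ
    · rw [hP0] at this
      refine this.trans ?_
      have hD : ∫ q, (fi 0 q ^ 2 + fi 1 q ^ 2 + fi 2 q ^ 2) ∂(nu3 a) ≤
          ∫ q, ‖gradient φ (toE q)‖ ^ 2 ∂(nu3 a) := by
        have c0 := cfi 0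
        have c1 := cfi 1
        have c2 := cfi 2
        have cgn : Continuous (fun q => ‖gradient φ (toE q)‖ ^ 2) :=
          ((cg.comp toE_cont).norm).pow 2
        refine integral_mono (nu3_int (by fun_prop)) (nu3_int cgn) fun q => ?_
        simp only [fi]
        rw [EuclideanSpace.real_norm_sq_eq, Fin.sum_univ_three]
        have e : f q ^ 2 = φ (toE q) ^ 2 + δ ^ 2 := Real.sq_sqrt (by positivity)
        have hq := hf0 q
        rw [div_pow, div_pow, div_pow, ← add_div, ← add_div, div_le_iff₀ (by positivity), e]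
        nlinarith [mul_nonneg (sq_nonneg δ) (add_nonneg (add_nonneg
          (sq_nonneg (gradient φ (toE q) 0)) (sq_nonneg (gradient φ (toE q) 1)))
          (sq_nonneg (gradient φ (toE q) 2)))]
      have := mul_le_mul_of_nonneg_left hD (by positivity : 0 ≤ 2 * lam)
      linarith
    · have h1 := (hdφ (toE (x, y, z))).hasFDerivAt.comp_hasDerivAt x (toE_d1 x y z)
      rw [fderiv_single] at h1
      exact deriv_sqrt_reg hδ h1
    · have h1 := (hdφ (toE (x, y, z))).hasFDerivAt.comp_hasDerivAt y (toE_d2 x y z)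
      rw [fderiv_single] at h1
      exact deriv_sqrt_reg hδ h1
    · have h1 := (hdφ (toE (x, y, z))).hasFDerivAt.comp_hasDerivAt z (toE_d3 x y z)
      rw [fderiv_single] at h1
      exact deriv_sqrt_reg hδ h1
  -- limit
  have hL : Tendsto (fun δ => 3 * (G0 R / cδ δ) ^ ((1:ℝ)/3) * (cδ δ + cδ δ / G0 R * BR R))
      (𝓝[>] 0) (𝓝 (3 * (G0 R / c) ^ ((1:ℝ)/3) * (c + c / G0 R * BR R))) := by
    have : Continuous (fun δ => 3 * (G0 R / cδ δ) ^ ((1:ℝ)/3) * (cδ δ + cδ δ / G0 R * BR R)) := by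
      have h1 : Continuous (fun δ => (G0 R / cδ δ) ^ ((1:ℝ)/3)) :=
        (continuous_const.div hcont fun δ => (hpos δ).ne').rpow_const fun δ => Or.inr (by norm_num)
      fun_prop
    have h2 := (this.tendsto 0).mono_left (nhdsWithin_le_nhds (s := Ioi 0))
    rw [hc00] at h2
    exact h2
  have hRt : Tendsto (fun δ => 24 * a ^ 2 * R * δ ^ 4 +
      2 * lam * (∫ q, ‖gradient φ (toE q)‖ ^ 2 ∂(nu3 a)) + 2 / lam * (cδ δ / G0 R * BR R))
      (𝓝[>] 0) (𝓝 (2 * lam * (∫ q, ‖gradient φ (toE q)‖ ^ 2 ∂(nu3 a)) +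
        2 / lam * (c / G0 R * BR R))) := by
    have : Continuous (fun δ => 24 * a ^ 2 * R * δ ^ 4 +
      2 * lam * (∫ q, ‖gradient φ (toE q)‖ ^ 2 ∂(nu3 a)) + 2 / lam * (cδ δ / G0 R * BR R)) := by
      fun_prop
    have h2 := (this.tendsto 0).mono_left (nhdsWithin_le_nhds (s := Ioi 0))
    rw [hc00] at h2
    refine h2.congr' ?_ |>.trans (le_of_eq ?_)
    · exact Eventually.of_forall fun δ => rfl
    · congr 1; ring
  exact le_of_tendsto_of_tendsto hL hRt (eventually_nhdsWithin_of_forall fun δ hδ => hmain δ hδ)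

end Pool.Agent.H92.BN.Kn
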