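import Pool.Agent.H92.BN.MA_Core

set_option autoImplicit false

namespace Pool.Agent.H92.BN.Kn

open MeasureTheory Set Filter Topology
open scoped ContDiff InnerProductSpace

/-- coordinates -/
noncomputable def toE (q : ℝ × ℝ × ℝ) : E := WithLp.toLp 2 ![q.1, q.2.1, q.2.2]

theorem toE_cont : Continuous toE := by
  unfold toE
  refine (PiLp.continuous_toLp 2 _).comp ?_
  refine continuous_pi fun i => ?_
  fin_cases i
  · exact continuous_fst
  · exact continuous_fst.comp continuous_snd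
  · exact continuous_snd.comp continuous_snd

theorem toE_mp : MeasurePreserving toE (volume : Measure (ℝ × ℝ × ℝ)) (volume : Measure E) := by
  have h1 : MeasurePreserving (@WithLp.toLp 2 (Fin 3 → ℝ)) := PiLp.volume_preserving_toLp (Fin 3)
  have h2 := (volume_preserving_piFinSuccAbove (fun _ : Fin 3 => ℝ) 0).symm
  have h3 := (volume_preserving_finTwoArrow ℝ).symm
  have h4 := (MeasurePreserving.id (volume : Measure ℝ)).prod h3
  have h5 := h1.comp (h2.comp h4)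
  have e : toE = (@WithLp.toLp 2 (Fin 3 → ℝ)) ∘
      (MeasurableEquiv.piFinSuccAbove (fun _ : Fin 3 => ℝ) 0).symm ∘
      (Prod.map id (MeasurableEquiv.finTwoArrow (α := ℝ)).symm) := by
    ext q i
    fin_cases i <;> rfl
  rw [e]
  exact h5

theorem toE_norm_sq (q : ℝ × ℝ × ℝ) : ‖toE q‖ ^ 2 = q.1 ^ 2 + q.2.1 ^ 2 + q.2.2 ^ 2 := by
  rw [EuclideanSpace.real_norm_sq_eq, Fin.sum_univ_three]
  rfl

theorem toE_emb : MeasurableEmbedding toE := by
  have h1 : MeasurableEmbedding (@WithLp.toLp 2 (Fin 3 → ℝ)) :=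
    (MeasurableEquiv.toLp 2 (Fin 3 → ℝ)).measurableEmbedding
  have h2 := (MeasurableEquiv.piFinSuccAbove (fun _ : Fin 3 => ℝ) 0).symm.measurableEmbedding
  have h3 := ((MeasurableEquiv.refl ℝ).prodCongr
    (MeasurableEquiv.finTwoArrow (α := ℝ)).symm).measurableEmbedding
  have h5 := h1.comp (h2.comp h3)
  convert h5 using 1
  ext q i
  fin_cases i <;> rfl

theorem int_toE (h : E → ℝ) : ∫ q, h (toE q) = ∫ x, h x := toE_mp.integral_comp toE_emb h

theorem integrable_toE {h : E → ℝ} (hh : Integrable h) : Integrable (fun q => h (toE q)) :=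
  (toE_mp.integrable_comp_emb toE_emb).2 hh

/-- exhaustion by boxes -/
theorem box_tendsto {h : E → ℝ} (hh : Integrable h) :
    Tendsto (fun n : ℕ => ∫ q, h (toE q) ∂(nu3 ((n : ℝ) + 1))) atTop (𝓝 (∫ x, h x)) := by
  simp_rw [nu3_eq]
  have hm : Monotone (fun n : ℕ => Ioc (-((n : ℝ) + 1)) ((n : ℝ) + 1) ×ˢ
      Ioc (-((n : ℝ) + 1)) ((n : ℝ) + 1) ×ˢ Ioc (-((n : ℝ) + 1)) ((n : ℝ) + 1)) := by
    intro m n hmn
    have : (m : ℝ) ≤ n := by exact_mod_cast hmn
    have h1 : Ioc (-((m : ℝ) + 1)) ((m : ℝ) + 1) ⊆ Ioc (-((n : ℝ) + 1)) ((n : ℝ) + 1) :=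
      Ioc_subset_Ioc (by linarith) (by linarith)
    exact prod_mono h1 (prod_mono h1 h1)
  have hU : (⋃ n : ℕ, Ioc (-((n : ℝ) + 1)) ((n : ℝ) + 1) ×ˢ
      Ioc (-((n : ℝ) + 1)) ((n : ℝ) + 1) ×ˢ Ioc (-((n : ℝ) + 1)) ((n : ℝ) + 1)) =
      (univ : Set (ℝ × ℝ × ℝ)) := by
    refine eq_univ_of_forall fun q => ?_
    obtain ⟨N, hN⟩ := exists_nat_ge (|q.1| + |q.2.1| + |q.2.2|)
    refine mem_iUnion.2 ⟨N, ?_, ?_, ?_⟩
    · have := neg_abs_le q.1; have := le_abs_self q.1; have := abs_nonneg q.2.1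
      have := abs_nonneg q.2.2
      constructor <;> linarith
    · have := neg_abs_le q.2.1; have := le_abs_self q.2.1; have := abs_nonneg q.1
      have := abs_nonneg q.2.2
      constructor <;> linarith
    · have := neg_abs_le q.2.2; have := le_abs_self q.2.2; have := abs_nonneg q.1
      have := abs_nonneg q.2.1
      constructor <;> linarith
  have := tendsto_setIntegral_of_monotone (μ := (volume : Measure (ℝ × ℝ × ℝ)))
    (f := fun q => h (toE q))
    (fun n : ℕ => measurableSet_Ioc.prod (measurableSet_Ioc.prod measurableSet_Ioc)) hm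
    (by rw [hU]; exact (integrable_toE hh).integrableOn)
  rw [hU, setIntegral_univ, int_toE] at this
  exact this

theorem G_int : Integrable (fun x : E => ((1 + ‖x‖ ^ 2) ^ 3)⁻¹) := by
  have := integrable_rpow_neg_one_add_norm_sq (E := E) (μ := volume) (r := 6) (by simp; norm_num)
  refine this.congr (Eventually.of_forall fun x => ?_)
  simp only
  rw [show (-6 / 2 : ℝ) = -((3 : ℕ) : ℝ) by norm_num, Real.rpow_neg (by positivity),
    Real.rpow_natCast]

theorem Gm_int : Integrable (fun x : E => ((1 + ‖x‖ ^ 2) ^ 3)⁻¹ * ‖x‖ ^ 2) := by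
  have := integrable_rpow_neg_one_add_norm_sq (E := E) (μ := volume) (r := 4) (by simp; norm_num)
  refine this.mono' ?_ (Eventually.of_forall fun x => ?_)
  · refine Continuous.aestronglyMeasurable ?_
    have : ∀ x : E, (1 + ‖x‖ ^ 2) ^ 3 ≠ 0 := fun x => by positivity
    fun_prop (disch := assumption)
  · rw [show (-4 / 2 : ℝ) = -((2 : ℕ) : ℝ) by norm_num, Real.rpow_neg (by positivity),
      Real.rpow_natCast, Real.norm_of_nonneg (by positivity)]
    have h1 : (0:ℝ) < 1 + ‖x‖ ^ 2 := by positivity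
    have h2 : ‖x‖ ^ 2 ≤ 1 + ‖x‖ ^ 2 := by linarith
    calc ((1 + ‖x‖ ^ 2) ^ 3)⁻¹ * ‖x‖ ^ 2 ≤ ((1 + ‖x‖ ^ 2) ^ 3)⁻¹ * (1 + ‖x‖ ^ 2) :=
          mul_le_mul_of_nonneg_left h2 (by positivity)
      _ = ((1 + ‖x‖ ^ 2) ^ 2)⁻¹ := by field_simp

theorem K0_pos : 0 < K0 := by
  unfold K0
  rw [integral_pos_iff_support_of_nonneg (fun x => by positivity) G_int]
  have : Function.support (fun x : E => ((1 + ‖x‖ ^ 2) ^ 3)⁻¹) = univ := by
    refine eq_univ_of_forall fun x => ?_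
    rw [Function.mem_support]
    positivity
  rw [this]
  simp

theorem moment : ∫ x : E, ((1 + ‖x‖ ^ 2) ^ 3)⁻¹ * ‖x‖ ^ 2 = 3 * K0 := by
  unfold K0
  have hdim : Module.finrank ℝ E = 3 := by simp
  have hi1 := (integrable_fun_norm_addHaar (μ := (volume : Measure E))
    (f := fun r => ((1 + r ^ 2) ^ 3)⁻¹ * r ^ 2)).1 Gm_int
  have hi2 := (integrable_fun_norm_addHaar (μ := (volume : Measure E))
    (f := fun r => ((1 + r ^ 2) ^ 3)⁻¹)).1 G_int
  rw [integral_fun_norm_addHaar (volume : Measure E) (fun r => ((1 + r ^ 2) ^ 3)⁻¹ * r ^ 2),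
    integral_fun_norm_addHaar (volume : Measure E) (fun r => ((1 + r ^ 2) ^ 3)⁻¹)]
  rw [hdim] at *
  simp only [smul_eq_mul, nsmul_eq_mul] at *
  have key : ∫ y in Ioi (0:ℝ), (3 * (y ^ (3 - 1) * ((1 + y ^ 2) ^ 3)⁻¹) -
      y ^ (3 - 1) * (((1 + y ^ 2) ^ 3)⁻¹ * y ^ 2)) = 0 - 0 := by
    have hd : ∀ y : ℝ, HasDerivAt (fun y : ℝ => y ^ 3 * ((1 + y ^ 2) ^ 2)⁻¹)
        (3 * (y ^ (3 - 1) * ((1 + y ^ 2) ^ 3)⁻¹) -
          y ^ (3 - 1) * (((1 + y ^ 2) ^ 3)⁻¹ * y ^ 2)) y := by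
      intro y
      have h0 : (1 + y ^ 2) ≠ 0 := by positivity
      have h1 : HasDerivAt (fun y : ℝ => (1 + y ^ 2) ^ 2) (2 * (1 + y ^ 2) * (2 * y)) y := by
        have := ((hasDerivAt_pow 2 y).const_add 1).fun_pow 2
        simpa using this
      have h2 := (hasDerivAt_pow 3 y).fun_mul (h1.fun_inv (by positivity))
      refine h2.congr_deriv ?_
      simp only [Nat.cast_ofNat]
      field_simp
      ring
    have := integral_Ioi_of_hasDerivAt_of_tendsto' (a := (0:ℝ)) (m := (0:ℝ))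
      (fun y _ => hd y) ((hi2.const_mul 3).sub hi1) ?_
    · rw [this]; simp
    · have e : ∀ᶠ y : ℝ in atTop, y ^ 3 * ((1 + y ^ 2) ^ 2)⁻¹ ≤ y⁻¹ := by
        filter_upwards [eventually_gt_atTop 0] with y hy
        rw [← div_eq_mul_inv, div_le_iff₀ (by positivity), inv_mul_eq_div, le_div_iff₀ hy]
        nlinarith [sq_nonneg y, sq_nonneg (y^2)]
      have e0 : ∀ᶠ y : ℝ in atTop, 0 ≤ y ^ 3 * ((1 + y ^ 2) ^ 2)⁻¹ := by
        filter_upwards [eventually_gt_atTop 0] with y hy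
        positivity
      exact tendsto_of_tendsto_of_tendsto_of_le_of_le' tendsto_const_nhds tendsto_inv_atTop_zero
        e0 e
  rw [integral_sub (hi2.const_mul 3) hi1, integral_const_mul] at key
  have : ∫ y in Ioi (0:ℝ), y ^ (3 - 1) * (((1 + y ^ 2) ^ 3)⁻¹ * y ^ 2) =
      3 * ∫ y in Ioi (0:ℝ), y ^ (3 - 1) * ((1 + y ^ 2) ^ 3)⁻¹ := by linarith
  rw [this]
  ring

end Pool.Agent.H92.BN.Kn
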