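import Pool.Agent.H92.BN.Api

/-!
# Module B: bubbles
-/

set_option autoImplicit false

namespace Pool.Agent.H92.BN

open MeasureTheory Set Filter Topology
open scoped ContDiff InnerProductSpace

namespace Bub

/-- profile -/
noncomputable def W (z : E) : ℝ := (Real.sqrt (1 + ‖z‖ ^ 2))⁻¹

/-- bubble, `μ = κ²` -/
noncomputable def U (κ : ℝ) (y : E) : ℝ := κ * (Real.sqrt (κ ^ 4 + ‖y‖ ^ 2))⁻¹

theorem W_pos (z : E) : 0 < W z := by
  unfold W
  have : (0:ℝ) < 1 + ‖z‖ ^ 2 := by positivity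
  exact inv_pos.2 (Real.sqrt_pos.2 this)

theorem continuous_W : Continuous W := by
  unfold W
  refine Continuous.inv₀ (by fun_prop) ?_
  intro z
  have : (0:ℝ) < 1 + ‖z‖ ^ 2 := by positivity
  exact (Real.sqrt_pos.2 this).ne'

theorem W_eq_rpow (z : E) : W z = ((1 : ℝ) + ‖z‖ ^ 2) ^ (-(1:ℝ) / 2) := by
  unfold W
  have : (0:ℝ) < 1 + ‖z‖ ^ 2 := by positivity
  rw [Real.sqrt_eq_rpow, ← Real.rpow_neg this.le]
  norm_num

theorem W_pow (z : E) (n : ℕ) : W z ^ n = ((1 : ℝ) + ‖z‖ ^ 2) ^ (-(n:ℝ) / 2) := by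
  have : (0:ℝ) < 1 + ‖z‖ ^ 2 := by positivity
  rw [W_eq_rpow, ← Real.rpow_natCast, ← Real.rpow_mul this.le]
  congr 1
  ring

theorem integrable_W (n : ℕ) (hn : 3 < n) : Integrable (fun z => W z ^ n) volume := by
  have h : (Module.finrank ℝ E : ℝ) < (n : ℝ) := by
    rw [finrank_euclideanSpace_fin]
    exact_mod_cast hn
  have := integrable_rpow_neg_one_add_norm_sq (E := E) (μ := volume) h
  refine this.congr (Eventually.of_forall fun z => ?_)
  exact (W_pow z n).symm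

theorem W_pow_six (z : E) : W z ^ 6 = ((1 + ‖z‖ ^ 2) ^ 3)⁻¹ := by
  unfold W
  have : (0:ℝ) < 1 + ‖z‖ ^ 2 := by positivity
  rw [inv_pow, show (6:ℕ) = 2 * 3 by norm_num, pow_mul, Real.sq_sqrt this.le]

theorem K0_eq : K0 = ∫ z, W z ^ 6 := by
  unfold K0
  congr 1
  ext z
  rw [W_pow_six]

theorem cn_pos {ρ : ℝ} (hρ : 0 < ρ) (n : ℕ) (hn : 3 < n) :
    0 < ∫ z, (Metric.ball (0 : E) ρ).indicator (fun z => W z ^ n) z := by
  rw [integral_indicator measurableSet_ball]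
  rw [setIntegral_pos_iff_support_of_nonneg_ae]
  · have : Function.support (fun z => W z ^ n) = univ := by
      ext z
      simp [(W_pos z).ne']
    rw [this, univ_inter]
    exact Metric.measure_ball_pos _ _ hρ
  · exact Eventually.of_forall fun z => (pow_pos (W_pos z) _).le
  · exact (integrable_W n hn).integrableOn

theorem K0_pos : 0 < K0 := by
  rw [K0_eq]
  refine (cn_pos (ρ := 1) one_pos 6 (by norm_num)).trans_le ?_
  refine integral_mono ?_ (integrable_W 6 (by norm_num)) ?_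
  · exact (integrable_W 6 (by norm_num)).indicator measurableSet_ball
  · intro z
    by_cases h : z ∈ Metric.ball (0 : E) 1
    · simp [h]
    · simp only [indicator_of_notMem h]
      exact (pow_pos (W_pos z) _).le

theorem g_pos {κ : ℝ} (hκ : 0 < κ) (y : E) : 0 < κ ^ 4 + ‖y‖ ^ 2 := by positivity

theorem U_pos {κ : ℝ} (hκ : 0 < κ) (y : E) : 0 < U κ y :=
  mul_pos hκ (inv_pos.2 (Real.sqrt_pos.2 (g_pos hκ y)))

theorem U_eq {κ : ℝ} (hκ : 0 < κ) (y : E) : U κ y = κ⁻¹ * W ((κ ^ 2)⁻¹ • y) := by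
  unfold U W
  have h : κ ^ 4 + ‖y‖ ^ 2 = (κ ^ 2) ^ 2 * (1 + ‖(κ ^ 2)⁻¹ • y‖ ^ 2) := by
    rw [norm_smul, norm_inv, norm_pow, Real.norm_of_nonneg hκ.le]
    field_simp
  rw [h, Real.sqrt_mul (by positivity), Real.sqrt_sq (by positivity)]
  have : (0:ℝ) < 1 + ‖(κ ^ 2)⁻¹ • y‖ ^ 2 := by positivity
  have h2 := Real.sqrt_pos.2 this
  field_simp

theorem U_mul_norm_le {κ : ℝ} (hκ : 0 < κ) (y : E) : U κ y * ‖y‖ ≤ κ := by
  unfold U
  have h1 : ‖y‖ ≤ Real.sqrt (κ ^ 4 + ‖y‖ ^ 2) := by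
    refine Real.le_sqrt_of_sq_le ?_
    have : 0 < κ ^ 4 := by positivity
    linarith
  have h2 := Real.sqrt_pos.2 (g_pos hκ y)
  rw [mul_assoc]
  have : (Real.sqrt (κ ^ 4 + ‖y‖ ^ 2))⁻¹ * ‖y‖ ≤ 1 := by
    rw [inv_mul_le_iff₀ h2]
    linarith
  nlinarith

theorem integral_U {κ : ℝ} (hκ : 0 < κ) (n : ℕ) :
    (∫ y, U κ y ^ n) = κ⁻¹ ^ n * κ ^ 6 * ∫ z, W z ^ n := by
  have h : (fun y => U κ y ^ n) = fun y => κ⁻¹ ^ n * (fun z => W z ^ n) ((κ ^ 2)⁻¹ • y) := by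
    ext y
    simp only
    rw [U_eq hκ, mul_pow]
  have h2 := Measure.integral_comp_inv_smul_of_nonneg (μ := (volume : Measure E))
    (fun z => W z ^ n) (R := κ ^ 2) (by positivity)
  rw [h, integral_const_mul, h2, finrank_euclideanSpace_fin, smul_eq_mul, ← pow_mul]
  ring

theorem integrable_U {κ : ℝ} (hκ : 0 < κ) (n : ℕ) (hn : 3 < n) :
    Integrable (fun y => U κ y ^ n) volume := by
  have h : (fun y => U κ y ^ n) = fun y => κ⁻¹ ^ n * (fun z => W z ^ n) ((κ ^ 2)⁻¹ • y) := by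
    ext y
    simp only
    rw [U_eq hκ, mul_pow]
  rw [h]
  exact ((integrable_W n hn).comp_smul (by positivity)).const_mul _

theorem integral_U6 {κ : ℝ} (hκ : 0 < κ) : (∫ y, U κ y ^ 6) = K0 := by
  rw [integral_U hκ, K0_eq]
  field_simp

theorem contDiff_s {κ : ℝ} (hκ : 0 < κ) :
    ContDiff ℝ ∞ (fun y : E => (Real.sqrt (κ ^ 4 + ‖y‖ ^ 2))⁻¹) := by
  have h1 : ContDiff ℝ ∞ (fun y : E => κ ^ 4 + ‖y‖ ^ 2) := contDiff_const.add (contDiff_norm_sq ℝ)
  refine (h1.sqrt fun y => (g_pos hκ y).ne').inv fun y => (Real.sqrt_pos.2 (g_pos hκ y)).ne'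

theorem contDiff_U {κ : ℝ} (hκ : 0 < κ) : ContDiff ℝ ∞ (U κ) := contDiff_const.mul (contDiff_s hκ)

theorem hasFDerivAt_s {κ : ℝ} (hκ : 0 < κ) (y : E) :
    HasFDerivAt (fun y : E => (Real.sqrt (κ ^ 4 + ‖y‖ ^ 2))⁻¹)
      (-((Real.sqrt (κ ^ 4 + ‖y‖ ^ 2))⁻¹ ^ 3) • innerSL ℝ y) y := by
  have hg := g_pos hκ y
  have hs := Real.sqrt_pos.2 hg
  have h1 : HasFDerivAt (fun y : E => κ ^ 4 + ‖y‖ ^ 2) (2 • innerSL ℝ y) y := by
    have := (hasStrictFDerivAt_norm_sq y).hasFDerivAt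
    exact this.const_add _
  have h2 : HasDerivAt (fun g : ℝ => (Real.sqrt g)⁻¹)
      (-(1 / (2 * Real.sqrt (κ ^ 4 + ‖y‖ ^ 2))) / (Real.sqrt (κ ^ 4 + ‖y‖ ^ 2)) ^ 2)
      (κ ^ 4 + ‖y‖ ^ 2) := (Real.hasDerivAt_sqrt hg.ne').inv hs.ne'
  have h3 := h2.comp_hasFDerivAt y h1
  refine h3.congr_fderiv ?_
  rw [← Nat.cast_smul_eq_nsmul ℝ, smul_smul]
  congr 1
  push_cast
  field_simp

theorem fderiv_U {κ : ℝ} (hκ : 0 < κ) (y t : E) :
    fderiv ℝ (U κ) y t = -κ * (Real.sqrt (κ ^ 4 + ‖y‖ ^ 2))⁻¹ ^ 3 * ⟪y, t⟫_ℝ := by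
  have h := (hasFDerivAt_s hκ y).const_mul κ
  have h2 : HasFDerivAt (U κ) (κ • (-((Real.sqrt (κ ^ 4 + ‖y‖ ^ 2))⁻¹ ^ 3) • innerSL ℝ y)) y := h
  rw [h2.fderiv]
  simp only [_root_.smul_apply, smul_eq_mul, innerSL_apply_apply]
  ring

theorem fderiv2_U {κ : ℝ} (hκ : 0 < κ) (y : E) (i : Fin 3) :
    fderiv ℝ (fun y => fderiv ℝ (U κ) y (ee i)) y (ee i) =
      -κ * (Real.sqrt (κ ^ 4 + ‖y‖ ^ 2))⁻¹ ^ 3 +
        3 * κ * (Real.sqrt (κ ^ 4 + ‖y‖ ^ 2))⁻¹ ^ 5 * (y i) ^ 2 := by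
  have h0 : (fun y => fderiv ℝ (U κ) y (ee i)) =
      fun y : E => -κ * ((Real.sqrt (κ ^ 4 + ‖y‖ ^ 2))⁻¹ ^ 3 * ⟪y, ee i⟫_ℝ) := by
    ext y
    rw [fderiv_U hκ]
    ring
  have h1 : HasFDerivAt (fun y : E => ⟪y, ee i⟫_ℝ) (innerSL ℝ (ee i)) y := by
    have : (fun y : E => ⟪y, ee i⟫_ℝ) = innerSL ℝ (ee i) := by
      ext y
      rw [innerSL_apply_apply, real_inner_comm]
    rw [this]
    exact (innerSL ℝ (ee i)).hasFDerivAt
  have h2 := (((hasFDerivAt_s hκ y).pow 3).mul h1).const_mul (-κ)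
  have h3 : HasFDerivAt (fun y : E => -κ * ((Real.sqrt (κ ^ 4 + ‖y‖ ^ 2))⁻¹ ^ 3 * ⟪y, ee i⟫_ℝ)) _ y :=
    h2
  rw [h0, h3.fderiv]
  have hi : ⟪y, ee i⟫_ℝ = y i := by
    simp [ee, EuclideanSpace.inner_single_right]
  have hii : ⟪ee i, ee i⟫_ℝ = 1 := by
    simp [ee]
  simp only [_root_.smul_apply, _root_.add_apply, smul_eq_mul,
    innerSL_apply_apply, hi, hii, nsmul_eq_mul]
  push_cast
  ring

theorem lap_U {κ : ℝ} (hκ : 0 < κ) (y : E) :
    ∑ i : Fin 3, fderiv ℝ (fun y => fderiv ℝ (U κ) y (ee i)) y (ee i) = -3 * U κ y ^ 5 := by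
  simp only [fderiv2_U hκ]
  rw [Fin.sum_univ_three]
  have hn : ‖y‖ ^ 2 = y 0 ^ 2 + y 1 ^ 2 + y 2 ^ 2 := by
    rw [EuclideanSpace.norm_sq_eq, Fin.sum_univ_three]
    simp
  unfold U
  have hg := g_pos hκ y
  have hs := Real.sqrt_pos.2 hg
  have hss := Real.sq_sqrt hg.le
  generalize Real.sqrt (κ ^ 4 + ‖y‖ ^ 2) = s at hs hss ⊢
  have hk : κ ^ 4 = s ^ 2 - (y 0 ^ 2 + y 1 ^ 2 + y 2 ^ 2) := by rw [hss, hn]; ring
  have h5 : (κ * s⁻¹) ^ 5 = κ * (s ^ 2 - (y 0 ^ 2 + y 1 ^ 2 + y 2 ^ 2)) * s⁻¹ ^ 5 := by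
    rw [← hk]; ring
  rw [h5]
  field_simp
  ring

theorem inner_ee (v : E) (i : Fin 3) : ⟪v, ee i⟫_ℝ = v i := by
  simp [ee, EuclideanSpace.inner_single_right]

theorem norm_gradient_sq (w : E → ℝ) (y : E) :
    ‖gradient w y‖ ^ 2 = ∑ i : Fin 3, (fderiv ℝ w y (ee i)) ^ 2 := by
  rw [EuclideanSpace.norm_sq_eq]
  refine Finset.sum_congr rfl fun i _ => ?_
  rw [← inner_gradient_left, inner_ee, Real.norm_eq_abs, sq_abs]

theorem continuous_fderiv_apply {w : E → ℝ} (hw : ContDiff ℝ ∞ w) (t : E) :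
    Continuous (fun y => fderiv ℝ w y t) :=
  (hw.continuous_fderiv (by simp)).clm_apply continuous_const

/-- the energy identity -/
theorem energy {κ : ℝ} (hκ : 0 < κ) {χ : E → ℝ} (hχ : ContDiff ℝ ∞ χ)
    (hc : HasCompactSupport χ) :
    (∫ y, ‖gradient (fun y => χ y * U κ y) y‖ ^ 2) =
      3 * (∫ y, χ y ^ 2 * U κ y ^ 6) + ∫ y, U κ y ^ 2 * ‖gradient χ y‖ ^ 2 := by
  have hU := contDiff_U hκ
  have dU : Differentiable ℝ (U κ) := hU.differentiable (by simp)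
  have dχ : Differentiable ℝ χ := hχ.differentiable (by simp)
  have cU := hU.continuous
  have cχ := hχ.continuous
  have hw1 : ContDiff ℝ ∞ (fun y => χ y ^ 2 * U κ y) := (hχ.pow 2).mul hU
  have hc1 : HasCompactSupport (fun y => χ y ^ 2 * U κ y) := by
    have : HasCompactSupport (fun y => χ y ^ 2) := hc.comp_left (g := fun t : ℝ => t ^ 2) (by simp)
    exact this.mul_right
  have hG : ∀ i, ContDiff ℝ ∞ (fun y => fderiv ℝ (U κ) y (ee i)) := fun i =>
    (hU.fderiv_right (m := ∞) (by simp)).clm_apply contDiff_const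
  -- pointwise
  have hpt : ∀ y, ‖gradient (fun y => χ y * U κ y) y‖ ^ 2 =
      (∑ i : Fin 3, fderiv ℝ (fun y => χ y ^ 2 * U κ y) y (ee i) * fderiv ℝ (U κ) y (ee i)) +
        U κ y ^ 2 * ‖gradient χ y‖ ^ 2 := by
    intro y
    rw [norm_gradient_sq, norm_gradient_sq, Finset.mul_sum, ← Finset.sum_add_distrib]
    refine Finset.sum_congr rfl fun i _ => ?_
    have h1 : HasFDerivAt (fun y => χ y * U κ y) (χ y • fderiv ℝ (U κ) y + U κ y • fderiv ℝ χ y) y :=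
      (dχ y).hasFDerivAt.mul (dU y).hasFDerivAt
    have h2 : HasFDerivAt (fun y => χ y ^ 2 * U κ y)
        (χ y ^ 2 • fderiv ℝ (U κ) y + U κ y • ((2 • χ y ^ (2 - 1)) • fderiv ℝ χ y)) y :=
      ((dχ y).hasFDerivAt.pow 2).mul (dU y).hasFDerivAt
    rw [h1.fderiv, h2.fderiv]
    simp only [_root_.smul_apply, _root_.add_apply, smul_eq_mul, nsmul_eq_mul]
    push_cast
    ring
  -- integration by parts
  have hibp : ∀ i : Fin 3,
      (∫ y, fderiv ℝ (fun y => χ y ^ 2 * U κ y) y (ee i) * fderiv ℝ (U κ) y (ee i)) =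
      - ∫ y, (χ y ^ 2 * U κ y) * fderiv ℝ (fun y => fderiv ℝ (U κ) y (ee i)) y (ee i) := by
    intro i
    have c1 := continuous_fderiv_apply hw1 (ee i)
    have c2 := (hG i).continuous
    have c3 := continuous_fderiv_apply (hG i) (ee i)
    have k1 : HasCompactSupport (fun y => fderiv ℝ (fun y => χ y ^ 2 * U κ y) y (ee i)) :=
      (hc1.fderiv (𝕜 := ℝ)).comp_left (g := fun l : E →L[ℝ] ℝ => l (ee i)) (by simp)
    have := integral_mul_fderiv_eq_neg_fderiv_mul_of_integrable (μ := (volume : Measure E))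
      (f := fun y => χ y ^ 2 * U κ y) (g := fun y => fderiv ℝ (U κ) y (ee i)) (v := ee i)
      ((c1.mul c2).integrable_of_hasCompactSupport k1.mul_right)
      ((hw1.continuous.mul c3).integrable_of_hasCompactSupport hc1.mul_right)
      ((hw1.continuous.mul c2).integrable_of_hasCompactSupport hc1.mul_right)
      (fun x _ => hw1.differentiable (by simp) x) (fun x _ => (hG i).differentiable (by simp) x)
    rw [this, neg_neg]
  simp_rw [hpt]
  have int1 : ∀ i : Fin 3, Integrable (fun y => fderiv ℝ (fun y => χ y ^ 2 * U κ y) y (ee i) *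
      fderiv ℝ (U κ) y (ee i)) volume := by
    intro i
    have k1 : HasCompactSupport (fun y => fderiv ℝ (fun y => χ y ^ 2 * U κ y) y (ee i)) :=
      (hc1.fderiv (𝕜 := ℝ)).comp_left (g := fun l : E →L[ℝ] ℝ => l (ee i)) (by simp)
    exact ((continuous_fderiv_apply hw1 (ee i)).mul
      (hG i).continuous).integrable_of_hasCompactSupport k1.mul_right
  have int2 : Integrable (fun y => U κ y ^ 2 * ‖gradient χ y‖ ^ 2) volume := by
    have hχt : IsTest univ χ := ⟨hχ, hc, subset_univ _⟩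
    have c1 := hχt.continuous_gradient
    have k1 := hasCompactSupport_gradient hc
    have k2 : HasCompactSupport (fun y => ‖gradient χ y‖ ^ 2) :=
      k1.comp_left (g := fun v : E => ‖v‖ ^ 2) (by simp)
    exact ((cU.pow 2).mul (c1.norm.pow 2)).integrable_of_hasCompactSupport k2.mul_left
  rw [integral_add (integrable_finsetSum _ fun i _ => int1 i) int2,
    integral_finsetSum _ fun i _ => int1 i]
  simp_rw [hibp]
  have int3 : ∀ i : Fin 3, Integrable (fun y => (χ y ^ 2 * U κ y) *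
      fderiv ℝ (fun y => fderiv ℝ (U κ) y (ee i)) y (ee i)) volume := fun i =>
    (hw1.continuous.mul (continuous_fderiv_apply (hG i) (ee i))).integrable_of_hasCompactSupport
      hc1.mul_right
  rw [Finset.sum_neg_distrib, ← integral_finsetSum _ fun i _ => int3 i]
  congr 1
  rw [← integral_const_mul, ← integral_neg]
  congr 1
  ext y
  rw [← Finset.mul_sum, lap_U hκ]
  ring

/-! ### singular integrals -/

theorem integrableOn_norm_inv (R : ℝ) (n : ℕ) (hn : n < 3) :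
    IntegrableOn (fun y : E => (‖y‖⁻¹) ^ n) (Metric.ball 0 R) volume := by
  refine integrableOn_ball_of_norm_le_rpow (C := 1) (α := (n : ℝ)) ?_ ?_ ?_ ?_
  · rw [finrank_euclideanSpace_fin]; norm_num
  · rw [finrank_euclideanSpace_fin]; exact_mod_cast hn
  · refine Eventually.of_forall fun y => ?_
    rw [one_mul, Real.rpow_neg (norm_nonneg _), Real.rpow_natCast, inv_pow,
      Real.norm_of_nonneg (by positivity)]
  · exact (Measurable.aestronglyMeasurable (by fun_prop))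

theorem U_le_div {κ : ℝ} (hκ : 0 < κ) {y : E} (hy : y ≠ 0) : U κ y ≤ κ * ‖y‖⁻¹ := by
  have h := U_mul_norm_le hκ y
  have hy' : 0 < ‖y‖ := norm_pos_iff.2 hy
  rw [← div_eq_mul_inv, le_div_iff₀ hy']
  exact h

theorem ae_ne_zero : ∀ᵐ y : E, y ≠ 0 := by
  rw [ae_iff]
  simp

/-- `U² ≤ A κ² W²` away from the origin -/
theorem U_sq_le {κ ρ : ℝ} (hκ : 0 < κ) (hρ : 0 < ρ) {y : E} (hy : ρ ≤ ‖y‖) :
    U κ y ^ 2 ≤ κ ^ 2 * ((1 + ρ ^ 2) / ρ ^ 2) * W y ^ 2 := by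
  unfold U W
  have h1 : (0:ℝ) < κ ^ 4 + ‖y‖ ^ 2 := by positivity
  have h2 : (0:ℝ) < 1 + ‖y‖ ^ 2 := by positivity
  rw [mul_pow, inv_pow, inv_pow, Real.sq_sqrt h1.le, Real.sq_sqrt h2.le, mul_assoc]
  refine mul_le_mul_of_nonneg_left ?_ (by positivity)
  have h3 : ρ ^ 2 ≤ ‖y‖ ^ 2 := by gcongr
  have h4 : 0 < κ ^ 4 := by positivity
  rw [inv_eq_one_div, ← div_eq_mul_inv, div_div, div_le_div_iff₀ h1 (by positivity)]
  have h5 : 0 < ρ ^ 2 := by positivity
  have h6 : 0 ≤ κ ^ 4 * (1 + ρ ^ 2) := by positivity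
  nlinarith

/-- `U ≤ (2κ/r) W(y/r)` for `r ≤ |y|` -/
theorem U_le_scaled {κ r : ℝ} (hκ : 0 < κ) (hr : 0 < r) {y : E} (hy : r ≤ ‖y‖) :
    U κ y ≤ 2 * κ * r⁻¹ * W (r⁻¹ • y) := by
  have hy0 : y ≠ 0 := by
    rintro rfl
    simp at hy
    linarith
  have hy' : 0 < ‖y‖ := norm_pos_iff.2 hy0
  refine (U_le_div hκ hy0).trans ?_
  unfold W
  rw [norm_smul, norm_inv, Real.norm_of_nonneg hr.le]
  have h2 : (0:ℝ) < 1 + (r⁻¹ * ‖y‖) ^ 2 := by positivity
  have hs := Real.sqrt_pos.2 h2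
  have h3 : Real.sqrt (1 + (r⁻¹ * ‖y‖) ^ 2) ≤ 2 * (r⁻¹ * ‖y‖) := by
    rw [Real.sqrt_le_left (by positivity)]
    have : 1 ≤ r⁻¹ * ‖y‖ := by
      rw [inv_mul_eq_div, le_div_iff₀ hr]
      linarith
    nlinarith
  rw [mul_assoc 2 κ, mul_comm 2, mul_assoc κ, mul_assoc κ]
  refine mul_le_mul_of_nonneg_left ?_ hκ.le
  rw [← div_eq_mul_inv _ (Real.sqrt _), le_div_iff₀ hs, inv_mul_le_iff₀ hy', mul_comm ‖y‖]
  calc _ ≤ 2 * (r⁻¹ * ‖y‖) := h3
    _ = r⁻¹ * 2 * ‖y‖ := by ring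

/-! ### the truncated bubble -/

section cut

variable {κ R : ℝ} (hκ : 0 < κ) (hκ1 : κ ≤ 1) (hR : 0 < R)

/-- the cutoff -/
noncomputable def chi (R : ℝ) (hR : 0 < R) : ContDiffBump (0 : E) :=
  ⟨R / 4, R / 2, by positivity, by linarith⟩

/-- truncated bubble -/
noncomputable def w (κ R : ℝ) (hR : 0 < R) (y : E) : ℝ := chi R hR y * U κ y

include hκ in
theorem w_nonneg (y : E) : 0 ≤ w κ R hR y := mul_nonneg (chi R hR).nonneg (U_pos hκ y).le

include hκ in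
theorem w_le (y : E) : w κ R hR y ≤ U κ y := by
  unfold w
  have := (chi R hR).le_one (x := y)
  have := U_pos hκ y
  nlinarith

theorem w_eq {y : E} (hy : ‖y‖ ≤ R / 4) : w κ R hR y = U κ y := by
  unfold w
  rw [(chi R hR).one_of_mem_closedBall (by simpa [chi] using hy), one_mul]

theorem w_zero {y : E} (hy : R / 2 ≤ ‖y‖) : w κ R hR y = 0 := by
  unfold w
  rw [(chi R hR).zero_of_le_dist (by simpa [chi] using hy), zero_mul]

include hκ in
theorem isTest_w : IsTest (Metric.ball 0 R) (w κ R hR) := by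
  refine ⟨(chi R hR).contDiff.mul (contDiff_U hκ), (chi R hR).hasCompactSupport.mul_right, ?_⟩
  refine (tsupport_mul_subset_left).trans ?_
  rw [(chi R hR).tsupport_eq]
  exact Metric.closedBall_subset_ball (by simp [chi]; linarith)

include hκ in
theorem integrable_w (n : ℕ) (hn : n ≠ 0) : Integrable (fun y => w κ R hR y ^ n) volume := by
  have h := isTest_w (κ := κ) (R := R) hκ hR
  exact (h.smooth.continuous.pow n).integrable_of_hasCompactSupport
    (h.cpt.comp_left (g := fun t : ℝ => t ^ n) (by simp [hn]))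

include hκ hκ1 in
/-- lower bound of the integrals of powers -/
theorem w_lower (n : ℕ) (hn : 3 < n) :
    κ⁻¹ ^ n * κ ^ 6 * (∫ z, (Metric.ball (0 : E) (R / 4)).indicator (fun z => W z ^ n) z) ≤
      ∫ y, w κ R hR y ^ n := by
  set G : E → ℝ := (Metric.ball (0 : E) (R / 4)).indicator (fun z => W z ^ n) with hG
  have h2 := Measure.integral_comp_inv_smul_of_nonneg (μ := (volume : Measure E))
    G (R := κ ^ 2) (by positivity)
  have h3 : κ⁻¹ ^ n * κ ^ 6 * (∫ z, G z) = ∫ y, κ⁻¹ ^ n * G ((κ ^ 2)⁻¹ • y) := by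
    rw [integral_const_mul, h2, finrank_euclideanSpace_fin, smul_eq_mul, ← pow_mul]
    ring
  rw [h3]
  have hGi : Integrable G volume := (integrable_W n hn).indicator measurableSet_ball
  refine integral_mono ((hGi.comp_smul (by positivity)).const_mul _)
    (integrable_w hκ hR n (by omega)) ?_
  intro y
  simp only
  by_cases hy : (κ ^ 2)⁻¹ • y ∈ Metric.ball (0 : E) (R / 4)
  · have h4 : ‖y‖ ≤ R / 4 := by
      rw [mem_ball_zero_iff, norm_smul, norm_inv, norm_pow, Real.norm_of_nonneg hκ.le,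
        inv_mul_lt_iff₀ (by positivity)] at hy
      have : κ ^ 2 ≤ 1 := by nlinarith
      nlinarith
    rw [w_eq hR h4, hG, indicator_of_mem hy, U_eq hκ, mul_pow]
  · rw [hG, indicator_of_notMem hy, mul_zero]
    exact pow_nonneg (w_nonneg hκ hR y) _

include hκ in
theorem w_upper (n : ℕ) (hn : 3 < n) :
    (∫ y, w κ R hR y ^ n) ≤ κ⁻¹ ^ n * κ ^ 6 * ∫ z, W z ^ n := by
  rw [← integral_U hκ]
  refine integral_mono (integrable_w hκ hR n (by omega)) (integrable_U hκ n hn) ?_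
  intro y
  exact pow_le_pow_left₀ (w_nonneg hκ hR y) (w_le hκ hR y) n

include hκ in
/-- mass defect -/
theorem w_defect : K0 - (((1 + (R / 4) ^ 2) / (R / 4) ^ 2) ^ 3 * K0) * κ ^ 6 ≤
    ∫ y, w κ R hR y ^ 6 := by
  set A := (1 + (R / 4) ^ 2) / (R / 4) ^ 2 with hA
  have hA0 : 0 < A := by positivity
  have h1 : K0 - (∫ y, w κ R hR y ^ 6) = ∫ y, (U κ y ^ 6 - w κ R hR y ^ 6) := by
    rw [integral_sub (integrable_U hκ 6 (by norm_num)) (integrable_w hκ hR 6 (by norm_num)),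
      integral_U6 hκ]
  have h2 : (∫ y, (U κ y ^ 6 - w κ R hR y ^ 6)) ≤ ∫ y, (κ ^ 6 * A ^ 3) * W y ^ 6 := by
    refine integral_mono ((integrable_U hκ 6 (by norm_num)).sub
      (integrable_w hκ hR 6 (by norm_num))) ((integrable_W 6 (by norm_num)).const_mul _) ?_
    intro y
    simp only
    by_cases hy : ‖y‖ ≤ R / 4
    · rw [w_eq hR hy, sub_self]
      have := W_pos y
      positivity
    · push Not at hy
      have h3 := U_sq_le hκ (ρ := R / 4) (by positivity) hy.le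
      have h4 : U κ y ^ 6 = (U κ y ^ 2) ^ 3 := by ring
      have h5 : 0 ≤ w κ R hR y ^ 6 := pow_nonneg (w_nonneg hκ hR y) _
      have h6 : (U κ y ^ 2) ^ 3 ≤ (κ ^ 2 * A * W y ^ 2) ^ 3 :=
        pow_le_pow_left₀ (by positivity) h3 3
      calc U κ y ^ 6 - w κ R hR y ^ 6 ≤ (U κ y ^ 2) ^ 3 := by rw [h4]; linarith
        _ ≤ (κ ^ 2 * A * W y ^ 2) ^ 3 := h6
        _ = _ := by ring
  rw [integral_const_mul, ← K0_eq] at h2
  nlinarith

include hκ in
theorem w_energy : (∫ y, ‖gradient (w κ R hR) y‖ ^ 2) ≤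
    3 * K0 + (((R / 4) ^ 2)⁻¹ * ∫ y, ‖gradient (chi R hR) y‖ ^ 2) * κ ^ 2 := by
  have h := energy hκ (χ := chi R hR) (chi R hR).contDiff (chi R hR).hasCompactSupport
  have h0 : (w κ R hR) = fun y => chi R hR y * U κ y := rfl
  rw [h0, h]
  have h1 : (∫ y, chi R hR y ^ 2 * U κ y ^ 6) ≤ K0 := by
    rw [← integral_U6 hκ]
    refine integral_mono_of_nonneg (Eventually.of_forall fun y => ?_)
      (integrable_U hκ 6 (by norm_num)) (Eventually.of_forall fun y => ?_)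
    · have := U_pos hκ y
      simp only [Pi.zero_apply]
      positivity
    · have h2 := (chi R hR).le_one (x := y)
      have h3 := (chi R hR).nonneg (x := y)
      have h4 : (chi R hR y) ^ 2 ≤ 1 := by nlinarith
      have h5 : 0 < U κ y ^ 6 := pow_pos (U_pos hκ y) _
      simp only
      nlinarith
  have h2 : (∫ y, U κ y ^ 2 * ‖gradient (chi R hR) y‖ ^ 2) ≤
      (((R / 4) ^ 2)⁻¹ * ∫ y, ‖gradient (chi R hR) y‖ ^ 2) * κ ^ 2 := by
    have hχt : IsTest univ (chi R hR) :=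
      ⟨(chi R hR).contDiff, (chi R hR).hasCompactSupport, subset_univ _⟩
    have c1 := hχt.continuous_gradient
    have k2 : HasCompactSupport (fun y => ‖gradient (chi R hR) y‖ ^ 2) :=
      (hasCompactSupport_gradient hχt.cpt).comp_left (g := fun v : E => ‖v‖ ^ 2) (by simp)
    have i1 : Integrable (fun y => ‖gradient (chi R hR) y‖ ^ 2) volume :=
      (c1.norm.pow 2).integrable_of_hasCompactSupport k2
    calc (∫ y, U κ y ^ 2 * ‖gradient (chi R hR) y‖ ^ 2) ≤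
        ∫ y, (((R / 4) ^ 2)⁻¹ * κ ^ 2) * ‖gradient (chi R hR) y‖ ^ 2 := by
          refine integral_mono_of_nonneg (Eventually.of_forall fun y => ?_)
            (i1.const_mul _) (Eventually.of_forall fun y => ?_)
          · simp only [Pi.zero_apply]
            positivity
          · simp only
            by_cases hy : ‖y‖ < R / 4
            · have : gradient (chi R hR) y = 0 := by
                have h3 : (chi R hR : E → ℝ) =ᶠ[𝓝 y] fun _ => 1 :=
                  (chi R hR).eventuallyEq_one_of_mem_ball (by simpa [chi] using hy)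
                unfold gradient
                rw [h3.fderiv_eq]
                simp
              rw [this]
              simp
            · push Not at hy
              refine mul_le_mul_of_nonneg_right ?_ (by positivity)
              have hy0 : 0 < ‖y‖ := lt_of_lt_of_le (by positivity) hy
              have h4 := U_le_div hκ (norm_pos_iff.1 hy0)
              have h5 : κ * ‖y‖⁻¹ ≤ κ * (R / 4)⁻¹ := by gcongr
              calc U κ y ^ 2 ≤ (κ * (R / 4)⁻¹) ^ 2 :=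
                    pow_le_pow_left₀ (U_pos hκ y).le (h4.trans h5) 2
                _ = _ := by rw [mul_pow, inv_pow]; ring
      _ = _ := by rw [integral_const_mul]; ring
  linarith

include hκ in
theorem w_small (n : ℕ) (hn : n < 3) (hn0 : n ≠ 0) : (∫ y, w κ R hR y ^ n) ≤
    (∫ y in Metric.ball (0 : E) R, (‖y‖⁻¹) ^ n) * κ ^ n := by
  rw [← integral_indicator measurableSet_ball, mul_comm, ← integral_const_mul]
  refine integral_mono_ae (integrable_w hκ hR n hn0)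
    (((integrableOn_norm_inv R n hn).integrable_indicator measurableSet_ball).const_mul _) ?_
  filter_upwards [ae_ne_zero] with y hy
  by_cases hyR : y ∈ Metric.ball (0 : E) R
  · rw [indicator_of_mem hyR, ← mul_pow]
    exact pow_le_pow_left₀ (w_nonneg hκ hR y) ((w_le hκ hR y).trans (U_le_div hκ hy)) n
  · rw [indicator_of_notMem hyR, w_zero hR (by
      rw [mem_ball_zero_iff] at hyR; linarith)]
    simp [hn0]

include hκ in
theorem w_tail {r : ℝ} (hr : 0 < r) : (∫ y in (Metric.ball (0 : E) r)ᶜ, w κ R hR y ^ 5) ≤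
    (32 * ∫ z, W z ^ 5) * κ ^ 5 / r ^ 2 := by
  have h2 := Measure.integral_comp_smul_of_nonneg (μ := (volume : Measure E))
    (fun z => W z ^ 5) r⁻¹ (hR := by positivity)
  have h3 : (32 * ∫ z, W z ^ 5) * κ ^ 5 / r ^ 2 =
      ∫ y : E, (2 * κ * r⁻¹) ^ 5 * W (r⁻¹ • y) ^ 5 := by
    rw [integral_const_mul, h2, finrank_euclideanSpace_fin, smul_eq_mul]
    field_simp
    ring
  rw [h3, ← integral_indicator measurableSet_ball.compl]
  refine integral_mono ((integrable_w hκ hR 5 (by norm_num)).indicator measurableSet_ball.compl)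
    (((integrable_W 5 (by norm_num)).comp_smul (by positivity)).const_mul _) ?_
  intro y
  simp only
  by_cases hy : y ∈ (Metric.ball (0 : E) r)ᶜ
  · rw [indicator_of_mem hy, ← mul_pow]
    rw [mem_compl_iff, mem_ball_zero_iff, not_lt] at hy
    exact pow_le_pow_left₀ (w_nonneg hκ hR y) ((w_le hκ hR y).trans (U_le_scaled hκ hr hy)) 5
  · rw [indicator_of_notMem hy]
    have := W_pos (r⁻¹ • y)
    positivity

end cut

/-- real arithmetic for the energy estimate -/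
theorem arith {N N0 N1 D D2 k C2 : ℝ} (hN0 : 0 < N0) (h0 : N0 ≤ N) (h1 : N ≤ N1) (hk : 0 < k)
    (hk1 : k ≤ 1) (hC2 : 0 ≤ C2) (hD2 : 0 ≤ D2) (hdef : N1 ^ 6 - C2 * k ^ 6 ≤ N ^ 6)
    (hD : D ≤ 3 * N1 ^ 6 + D2 * k ^ 2) :
    (N⁻¹) ^ 2 * D ≤ 3 * N1 ^ 4 + (D2 + 3 * C2) / N0 ^ 2 * k ^ 2 := by
  have hN : 0 < N := hN0.trans_le h0
  have hN1 : 0 < N1 := hN.trans_le h1
  rw [inv_pow, inv_mul_le_iff₀ (by positivity)]
  have h2 : N1 ^ 4 * (N1 ^ 2 - N ^ 2) ≤ N1 ^ 6 - N ^ 6 := by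
    have h3 : N ^ 2 ≤ N1 ^ 2 := by gcongr
    have h4 : 0 ≤ N ^ 2 * (N1 ^ 2 - N ^ 2) * (N1 ^ 2 + N ^ 2) := by
      have : 0 ≤ N1 ^ 2 - N ^ 2 := by linarith
      positivity
    nlinarith
  have h5 : k ^ 6 ≤ k ^ 2 := pow_le_pow_of_le_one hk.le hk1 (by norm_num)
  have h6 : C2 * k ^ 6 ≤ C2 * k ^ 2 := by gcongr
  have h7 : N0 ^ 2 ≤ N ^ 2 := by gcongr
  have h8 : (D2 + 3 * C2) * k ^ 2 ≤ N ^ 2 * ((D2 + 3 * C2) / N0 ^ 2 * k ^ 2) := by
    rw [div_mul_eq_mul_div, mul_div_assoc', le_div_iff₀ (by positivity)]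
    have : 0 ≤ (D2 + 3 * C2) * k ^ 2 := by positivity
    nlinarith
  nlinarith

theorem main0 (R : ℝ) (hR : 0 < R) : ∃ C : ℝ, 1 ≤ C ∧ ∀ κ : ℝ, 0 < κ → κ ≤ 1 → ∃ v : E → ℝ,
    IsTest (Metric.ball 0 R) v ∧ (∀ x, 0 ≤ v x) ∧ (∫ x, v x ^ 6) = 1 ∧
    (∫ x, ‖gradient v x‖ ^ 2) ≤ S0 + C * κ ^ 2 ∧ (∫ x, v x ^ 2) ≤ C * κ ^ 2 ∧
    (∫ x, v x) ≤ C * κ ∧ κ / C ≤ (∫ x, v x ^ 5) ∧ (∫ x, v x ^ 5) ≤ C * κ ∧
    ∀ r : ℝ, 0 < r → (∫ x in (Metric.ball 0 r)ᶜ, v x ^ 5) ≤ C * κ ^ 5 / r ^ 2 := by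
  set c6 := ∫ z, (Metric.ball (0 : E) (R / 4)).indicator (fun z => W z ^ 6) z with hc6
  set c5 := ∫ z, (Metric.ball (0 : E) (R / 4)).indicator (fun z => W z ^ 5) z with hc5
  have hc6p : 0 < c6 := cn_pos (by positivity) 6 (by norm_num)
  have hc5p : 0 < c5 := cn_pos (by positivity) 5 (by norm_num)
  set K5 := ∫ z, W z ^ 5 with hK5
  have hK5p : 0 ≤ K5 := integral_nonneg fun z => (pow_pos (W_pos z) _).le
  set N0 := c6 ^ ((1 : ℝ) / 6) with hN0
  set N1 := K0 ^ ((1 : ℝ) / 6) with hN1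
  have hN0p : 0 < N0 := Real.rpow_pos_of_pos hc6p _
  have hN1p : 0 < N1 := Real.rpow_pos_of_pos K0_pos _
  have hN0e : N0 ^ 6 = c6 := by
    rw [hN0, ← Real.rpow_natCast, ← Real.rpow_mul hc6p.le]
    norm_num
  have hN1e : N1 ^ 6 = K0 := by
    rw [hN1, ← Real.rpow_natCast, ← Real.rpow_mul K0_pos.le]
    norm_num
  have hS0 : S0 = 3 * N1 ^ 4 := by
    rw [hN1, ← Real.rpow_natCast, ← Real.rpow_mul K0_pos.le]
    unfold S0
    norm_num
  clear_value N0 N1 c5 c6 K5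
  set I1 := ∫ y in Metric.ball (0 : E) R, (‖y‖⁻¹) ^ 1 with hI1
  set I2 := ∫ y in Metric.ball (0 : E) R, (‖y‖⁻¹) ^ 2 with hI2
  have hI1p : 0 ≤ I1 := integral_nonneg fun y => by positivity
  have hI2p : 0 ≤ I2 := integral_nonneg fun y => by positivity
  set C2 := ((1 + (R / 4) ^ 2) / (R / 4) ^ 2) ^ 3 * K0 with hC2
  have hC2p : 0 ≤ C2 := by
    have := K0_pos
    positivity
  set D2 := ((R / 4) ^ 2)⁻¹ * ∫ y, ‖gradient (chi R hR) y‖ ^ 2 with hD2
  have hD2p : 0 ≤ D2 := by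
    have : 0 ≤ ∫ y, ‖gradient (chi R hR) y‖ ^ 2 := integral_nonneg fun y => by positivity
    positivity
  set a1 := N0⁻¹ * I1 with ha1
  set a2 := N0⁻¹ ^ 2 * I2 with ha2
  set a3 := N0⁻¹ ^ 5 * K5 with ha3
  set a4 := N1 ^ 5 / c5 with ha4
  set a5 := 32 * (N0⁻¹ ^ 5 * K5) with ha5
  set a6 := (D2 + 3 * C2) / N0 ^ 2 with ha6
  have p1 : 0 ≤ a1 := by positivity
  have p2 : 0 ≤ a2 := by positivity
  have p3 : 0 ≤ a3 := by positivity
  have p4 : 0 ≤ a4 := by positivity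
  have p5 : 0 ≤ a5 := by positivity
  have p6 : 0 ≤ a6 := by positivity
  refine ⟨1 + a1 + a2 + a3 + a4 + a5 + a6, by linarith, ?_⟩
  intro κ hκ hκ1
  set C := 1 + a1 + a2 + a3 + a4 + a5 + a6 with hC
  have hC1 : 1 ≤ C := by linarith
  set a := ∫ y, w κ R hR y ^ 6 with ha
  have hκ6 : κ⁻¹ ^ 6 * κ ^ 6 = 1 := by
    rw [← mul_pow, inv_mul_cancel₀ hκ.ne', one_pow]
  have hκ5 : κ⁻¹ ^ 5 * κ ^ 6 = κ := by
    rw [show κ ^ 6 = κ ^ 5 * κ by ring, ← mul_assoc, ← mul_pow, inv_mul_cancel₀ hκ.ne', one_pow,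
      one_mul]
  have ha6' : c6 ≤ a := by
    have := w_lower hκ hκ1 hR 6 (by norm_num)
    rwa [hκ6, one_mul, ← hc6] at this
  have haK : a ≤ K0 := by
    have := w_upper hκ hR 6 (by norm_num)
    rwa [hκ6, one_mul, ← K0_eq] at this
  have hap : 0 < a := hc6p.trans_le ha6'
  set N := a ^ ((1 : ℝ) / 6) with hN
  have hNp : 0 < N := Real.rpow_pos_of_pos hap _
  have hNe : N ^ 6 = a := by
    rw [hN, ← Real.rpow_natCast, ← Real.rpow_mul hap.le]
    norm_num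
  have hNN0 : N0 ≤ N := by
    rw [hN0, hN]
    exact Real.rpow_le_rpow hc6p.le ha6' (by norm_num)
  have hNN1 : N ≤ N1 := by
    rw [hN1, hN]
    exact Real.rpow_le_rpow hap.le haK (by norm_num)
  clear_value N a
  have hinv : N⁻¹ ≤ N0⁻¹ := by gcongr
  have hinvp : 0 < N⁻¹ := inv_pos.2 hNp
  have hwt := isTest_w (κ := κ) (R := R) hκ hR
  have hpow : ∀ n : ℕ, (∫ x, (N⁻¹ * w κ R hR x) ^ n) = N⁻¹ ^ n * ∫ x, w κ R hR x ^ n := by
    intro n
    rw [← integral_const_mul]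
    congr 1
    ext x
    rw [mul_pow]
  have hwn : ∀ n : ℕ, 0 ≤ ∫ x, w κ R hR x ^ n := fun n =>
    integral_nonneg fun x => pow_nonneg (w_nonneg hκ hR x) _
  refine ⟨fun x => N⁻¹ * w κ R hR x, ?_, ?_, ?_, ?_, ?_, ?_, ?_, ?_, ?_⟩
  · exact hwt.const_smul N⁻¹
  · intro x
    exact mul_nonneg hinvp.le (w_nonneg hκ hR x)
  · rw [hpow, ← ha, ← hNe, ← mul_pow, inv_mul_cancel₀ hNp.ne', one_pow]
  · -- energy
    have h1 : (∫ x, ‖gradient (fun x => N⁻¹ * w κ R hR x) x‖ ^ 2) =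
        N⁻¹ ^ 2 * ∫ x, ‖gradient (w κ R hR) x‖ ^ 2 := by
      rw [← integral_const_mul]
      congr 1
      ext x
      have h2 : (fun x => N⁻¹ * w κ R hR x) = N⁻¹ • w κ R hR := rfl
      rw [h2, gradient_const_smul' (hwt.smooth.differentiable (by simp)), Pi.smul_apply,
        norm_smul, mul_pow, Real.norm_of_nonneg hinvp.le]
    rw [h1]
    have h3 := w_energy (κ := κ) (R := R) hκ hR
    have h4 := w_defect (κ := κ) (R := R) hκ hR
    rw [← ha, ← hNe, ← hC2, ← hN1e] at h4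
    rw [← hD2, ← hN1e] at h3
    have h5 := arith hN0p hNN0 hNN1 hκ hκ1 hC2p hD2p (by rw [hN1e] at h4 ⊢; exact h4) h3
    rw [hS0]
    refine h5.trans ?_
    have : a6 * κ ^ 2 ≤ C * κ ^ 2 := by
      apply mul_le_mul_of_nonneg_right _ (by positivity)
      linarith
    linarith
  · rw [hpow]
    have h1 := w_small (κ := κ) (R := R) hκ hR 2 (by norm_num) (by norm_num)
    calc N⁻¹ ^ 2 * ∫ x, w κ R hR x ^ 2 ≤ N0⁻¹ ^ 2 * (I2 * κ ^ 2) := by
          gcongr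
      _ = a2 * κ ^ 2 := by rw [ha2]; ring
      _ ≤ C * κ ^ 2 := by
          apply mul_le_mul_of_nonneg_right _ (by positivity)
          linarith
  · have h0 := hpow 1
    simp only [pow_one] at h0
    rw [h0]
    have h1 := w_small (κ := κ) (R := R) hκ hR 1 (by norm_num) (by norm_num)
    simp only [pow_one] at h1 hI1
    rw [← hI1] at h1
    have h2 := hwn 1
    simp only [pow_one] at h2
    calc N⁻¹ * ∫ x, w κ R hR x ≤ N0⁻¹ * (I1 * κ) := by
          gcongr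
      _ = a1 * κ := by rw [ha1]; ring
      _ ≤ C * κ := by
          apply mul_le_mul_of_nonneg_right _ hκ.le
          linarith
  · rw [hpow]
    have h1 := w_lower hκ hκ1 hR 5 (by norm_num)
    rw [hκ5, ← hc5] at h1
    have h2 : N1⁻¹ ≤ N⁻¹ := by gcongr
    have h3 : a4 ≤ C := by linarith
    have h4 : 0 < a4 := by positivity
    calc κ / C ≤ κ / a4 := by gcongr
      _ = N1⁻¹ ^ 5 * (κ * c5) := by rw [ha4]; field_simp
      _ ≤ N⁻¹ ^ 5 * ∫ x, w κ R hR x ^ 5 := by gcongr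
  · rw [hpow]
    have h1 := w_upper hκ hR 5 (by norm_num)
    rw [hκ5, ← hK5] at h1
    calc N⁻¹ ^ 5 * ∫ x, w κ R hR x ^ 5 ≤ N0⁻¹ ^ 5 * (κ * K5) := by
          gcongr
          exact hwn 5
      _ = a3 * κ := by rw [ha3]; ring
      _ ≤ C * κ := by
          apply mul_le_mul_of_nonneg_right _ hκ.le
          linarith
  · intro r hr
    have h1 := w_tail (κ := κ) (R := R) hκ hR hr
    rw [← hK5] at h1
    have h2 : (∫ x in (Metric.ball 0 r)ᶜ, (N⁻¹ * w κ R hR x) ^ 5) =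
        N⁻¹ ^ 5 * ∫ x in (Metric.ball 0 r)ᶜ, w κ R hR x ^ 5 := by
      rw [← integral_const_mul]
      congr 1
      ext x
      rw [mul_pow]
    rw [h2]
    calc N⁻¹ ^ 5 * ∫ x in (Metric.ball 0 r)ᶜ, w κ R hR x ^ 5
        ≤ N0⁻¹ ^ 5 * ((32 * K5) * κ ^ 5 / r ^ 2) := by
          have : 0 ≤ ∫ x in (Metric.ball 0 r)ᶜ, w κ R hR x ^ 5 :=
            integral_nonneg fun x => pow_nonneg (w_nonneg hκ hR x) _
          gcongr
      _ = a5 * (κ ^ 5 / r ^ 2) := by rw [ha5]; ring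
      _ ≤ C * (κ ^ 5 / r ^ 2) := by
          apply mul_le_mul_of_nonneg_right _ (by positivity)
          linarith
      _ = C * κ ^ 5 / r ^ 2 := by ring

end Bub

/-- Module B. -/
theorem bubble : BubbleStmt := by
  intro x0 R hR
  obtain ⟨C, hC1, h⟩ := Bub.main0 R hR
  refine ⟨C, hC1, fun κ hκ hκ1 => ?_⟩
  obtain ⟨v, h1, h2, h3, h4, h5, h6, h7, h8, h9⟩ := h κ hκ hκ1
  have hsub : ∀ F : E → ℝ, (∫ x, F (x - x0)) = ∫ x, F x := fun F =>
    integral_sub_right_eq_self F x0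
  have hgr : ∀ x, gradient (fun x => v (x - x0)) x = gradient v (x - x0) := by
    intro x
    unfold gradient
    rw [fderiv_comp_sub]
  refine ⟨fun x => v (x - x0), ⟨?_, ?_, ?_⟩, fun x => h2 _, ?_, ?_, ?_, ?_, ?_, ?_, ?_⟩
  · exact h1.smooth.comp (contDiff_id.sub contDiff_const)
  · exact h1.cpt.comp_homeomorph (Homeomorph.subRight x0)
  · have h10 : tsupport (fun x => v (x - x0)) = (Homeomorph.subRight x0) ⁻¹' tsupport v :=
      tsupport_comp_eq_preimage v (Homeomorph.subRight x0)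
    rw [h10]
    intro x hx
    have := h1.supp hx
    simpa [dist_eq_norm] using this
  · rw [hsub (fun x => v x ^ 6), h3]
  · simp_rw [hgr]
    rw [hsub (fun x => ‖gradient v x‖ ^ 2)]
    exact h4
  · rw [hsub (fun x => v x ^ 2)]; exact h5
  · rw [hsub v]; exact h6
  · rw [hsub (fun x => v x ^ 5)]; exact h7
  · rw [hsub (fun x => v x ^ 5)]; exact h8
  · intro r hr
    have h11 : (∫ x in (Metric.ball x0 r)ᶜ, v (x - x0) ^ 5) =
        ∫ x in (Metric.ball 0 r)ᶜ, v x ^ 5 := by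
      rw [← integral_indicator Metric.isOpen_ball.measurableSet.compl,
        ← integral_indicator Metric.isOpen_ball.measurableSet.compl,
        ← hsub ((Metric.ball (0 : E) r)ᶜ.indicator fun x => v x ^ 5)]
      congr 1
      ext x
      by_cases hx : x ∈ (Metric.ball x0 r)ᶜ
      · have hx' : x - x0 ∈ (Metric.ball (0 : E) r)ᶜ := by
          rw [mem_compl_iff, mem_ball_zero_iff]
          rw [mem_compl_iff, Metric.mem_ball, dist_eq_norm] at hx
          exact hx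
        rw [indicator_of_mem hx, indicator_of_mem hx']
      · have hx' : x - x0 ∉ (Metric.ball (0 : E) r)ᶜ := by
          rw [mem_compl_iff, mem_ball_zero_iff]
          rw [mem_compl_iff, Metric.mem_ball, dist_eq_norm] at hx
          exact hx
        rw [indicator_of_notMem hx, indicator_of_notMem hx']
    rw [h11]
    exact h9 r hr

end Pool.Agent.H92.BN
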