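import Pool.Agent.H92.BN.Api

/-!
# Module C2: Rellich and Poincaré
-/

set_option autoImplicit false

namespace Pool.Agent.H92.BN

open MeasureTheory Set Filter Topology
open scoped ContDiff InnerProductSpace ENNReal NNReal

namespace MC2

/-- Cauchy–Schwarz against the constant one -/
theorem sq_lintegral_le {α : Type*} [MeasurableSpace α] (μ : Measure α) {f : α → ℝ≥0∞}
    (hf : AEMeasurable f μ) : (∫⁻ a, f a ∂μ) ^ 2 ≤ μ univ * ∫⁻ a, f a ^ 2 ∂μ := by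
  have h := ENNReal.lintegral_mul_le_Lp_mul_Lq μ (p := 2) (q := 2)
    Real.HolderConjugate.two_two hf (aemeasurable_const (b := (1 : ℝ≥0∞)))
  have h1 : (∫⁻ a, (f * (fun _ : α => (1 : ℝ≥0∞)) : α → ℝ≥0∞) a ∂μ) = ∫⁻ a, f a ∂μ := by simp
  have h2 : (∫⁻ a, (1 : ℝ≥0∞) ^ (2 : ℝ) ∂μ) = μ univ := by simp
  rw [h1, h2] at h
  have h3 : (∫⁻ a, f a ^ (2 : ℝ) ∂μ) = ∫⁻ a, f a ^ 2 ∂μ := by
    congr 1; ext a; norm_cast
  rw [h3] at h
  calc (∫⁻ a, f a ∂μ) ^ 2 ≤ ((∫⁻ a, f a ^ 2 ∂μ) ^ (1 / (2 : ℝ)) * (μ univ) ^ (1 / (2 : ℝ))) ^ 2 := by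
        gcongr
    _ = μ univ * ∫⁻ a, f a ^ 2 ∂μ := by
        rw [mul_pow, ← ENNReal.rpow_natCast, ← ENNReal.rpow_mul, ← ENNReal.rpow_natCast,
          ← ENNReal.rpow_mul]
        norm_num
        rw [mul_comm]

theorem enorm_gradient (φ : E → ℝ) (x : E) : ‖gradient φ x‖ₑ = ‖fderiv ℝ φ x‖ₑ := by
  rw [← ofReal_norm, ← ofReal_norm, norm_gradient]

theorem continuous_grad {φ : E → ℝ} (hφ : ContDiff ℝ 1 φ) : Continuous (gradient φ) := by
  have h1 : Continuous (fderiv ℝ φ) := hφ.continuous_fderiv (by simp)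
  exact (LinearIsometryEquiv.continuous _).comp h1

/-- pointwise form of the translation estimate -/
theorem trans_pt {φ : E → ℝ} (hφ : ContDiff ℝ 1 φ) (z x : E) :
    ‖φ (x + z) - φ x‖ₑ ^ 2 ≤
      ‖z‖ₑ ^ 2 * ∫⁻ t in Ioc (0 : ℝ) 1, ‖gradient φ (x + t • z)‖ₑ ^ 2 := by
  have hc : Continuous fun t : ℝ => fderiv ℝ φ (x + t • z) :=
    (hφ.continuous_fderiv (by simp)).comp (by fun_prop)
  have hder : ∀ t : ℝ, HasDerivAt (fun t : ℝ => φ (x + t • z)) (fderiv ℝ φ (x + t • z) z) t := by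
    intro t
    have h1 : HasDerivAt (fun t : ℝ => x + t • z) z t := by
      have h1 : HasDerivAt (fun t : ℝ => t • z) ((1 : ℝ) • z) t := (hasDerivAt_id t).smul_const z
      rw [one_smul] at h1
      exact h1.const_add x
    exact ((hφ.differentiable (by simp) _).hasFDerivAt).comp_hasDerivAt t h1
  have hftc : ∫ t in (0 : ℝ)..1, fderiv ℝ φ (x + t • z) z = φ (x + z) - φ x := by
    rw [intervalIntegral.integral_eq_sub_of_hasDerivAt (fun t _ => hder t)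
      ((hc.clm_apply continuous_const).intervalIntegrable _ _)]
    simp
  rw [← hftc, intervalIntegral.integral_of_le zero_le_one]
  have h1 : ‖∫ t in Ioc (0 : ℝ) 1, fderiv ℝ φ (x + t • z) z‖ₑ ≤
      ∫⁻ t in Ioc (0 : ℝ) 1, ‖gradient φ (x + t • z)‖ₑ * ‖z‖ₑ := by
    refine (enorm_integral_le_lintegral_enorm _).trans (lintegral_mono fun t => ?_)
    rw [enorm_gradient]
    exact ContinuousLinearMap.le_opENorm _ _
  have hm : Measurable fun t : ℝ => ‖gradient φ (x + t • z)‖ₑ :=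
    ((continuous_grad hφ).comp (by fun_prop : Continuous fun t : ℝ => x + t • z)).enorm.measurable
  rw [lintegral_mul_const _ hm] at h1
  calc ‖∫ t in Ioc (0 : ℝ) 1, fderiv ℝ φ (x + t • z) z‖ₑ ^ 2
      ≤ ((∫⁻ t in Ioc (0 : ℝ) 1, ‖gradient φ (x + t • z)‖ₑ) * ‖z‖ₑ) ^ 2 := by gcongr
    _ = ‖z‖ₑ ^ 2 * (∫⁻ t in Ioc (0 : ℝ) 1, ‖gradient φ (x + t • z)‖ₑ) ^ 2 := by
        rw [mul_pow, mul_comm]
    _ ≤ ‖z‖ₑ ^ 2 * ∫⁻ t in Ioc (0 : ℝ) 1, ‖gradient φ (x + t • z)‖ₑ ^ 2 := by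
        gcongr
        have := sq_lintegral_le (volume.restrict (Ioc (0 : ℝ) 1)) hm.aemeasurable
        simpa using this

/-- translation estimate -/
theorem trans_est {φ : E → ℝ} (hφ : ContDiff ℝ 1 φ) (z : E) :
    ∫⁻ x, ‖φ (x + z) - φ x‖ₑ ^ 2 ≤ ‖z‖ₑ ^ 2 * ∫⁻ x, ‖gradient φ x‖ₑ ^ 2 := by
  have hm : Measurable (Function.uncurry fun (x : E) (t : ℝ) => ‖gradient φ (x + t • z)‖ₑ ^ 2) :=
    (((continuous_grad hφ).comp
      (by fun_prop : Continuous fun p : E × ℝ => p.1 + p.2 • z)).enorm.measurable).pow_const 2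
  calc ∫⁻ x, ‖φ (x + z) - φ x‖ₑ ^ 2
      ≤ ∫⁻ x, ‖z‖ₑ ^ 2 * ∫⁻ t in Ioc (0 : ℝ) 1, ‖gradient φ (x + t • z)‖ₑ ^ 2 :=
        lintegral_mono fun x => trans_pt hφ z x
    _ = ‖z‖ₑ ^ 2 * ∫⁻ x, ∫⁻ t in Ioc (0 : ℝ) 1, ‖gradient φ (x + t • z)‖ₑ ^ 2 := by
        have h1 : Measurable fun x : E =>
            ∫⁻ t in Ioc (0 : ℝ) 1, ‖gradient φ (x + t • z)‖ₑ ^ 2 := hm.lintegral_prod_right'
        rw [lintegral_const_mul _ h1]
    _ = ‖z‖ₑ ^ 2 * ∫⁻ t in Ioc (0 : ℝ) 1, ∫⁻ x, ‖gradient φ (x + t • z)‖ₑ ^ 2 := by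
        rw [lintegral_lintegral_swap hm.aemeasurable]
    _ = ‖z‖ₑ ^ 2 * ∫⁻ t in Ioc (0 : ℝ) 1, ∫⁻ x, ‖gradient φ x‖ₑ ^ 2 := by
        congr 2
        ext t
        exact lintegral_add_right_eq_self (fun x => ‖gradient φ x‖ₑ ^ 2) (t • z)
    _ = ‖z‖ₑ ^ 2 * ∫⁻ x, ‖gradient φ x‖ₑ ^ 2 := by
        simp

/-- comparison of a value with a nearby ball average -/
theorem avg_pt {φ : E → ℝ} (hφ : Continuous φ) {h : ℝ} (hh : 0 < h) {x c : E}
    (hxc : dist x c < h) :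
    ‖φ x‖ₑ ^ 2 ≤ 2 * ‖⨍ y in Metric.ball c h, φ y‖ₑ ^ 2 +
      2 * ((volume (Metric.ball (0 : E) h))⁻¹ *
        ∫⁻ z in Metric.ball (0 : E) (2 * h), ‖φ (x + z) - φ x‖ₑ ^ 2) := by
  set V := volume (Metric.ball (0 : E) h) with hV
  have hVc : volume (Metric.ball c h) = V := Measure.addHaar_ball_center _ _ _
  have hV0 : V ≠ 0 := (Metric.measure_ball_pos volume 0 hh).ne'
  have hVt : V ≠ ⊤ := measure_ball_lt_top.ne
  set A := ⨍ y in Metric.ball c h, φ y with hA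
  have hφi : IntegrableOn φ (Metric.ball c h) volume :=
    (hφ.continuousOn.integrableOn_compact (isCompact_closedBall c h)).mono_set
      Metric.ball_subset_closedBall
  have : IsFiniteMeasure (volume.restrict (Metric.ball c h)) :=
    ⟨by rw [Measure.restrict_apply_univ]; exact measure_ball_lt_top⟩
  -- difference
  have hd : A - φ x = ⨍ y in Metric.ball c h, (φ y - φ x) := by
    rw [hA, setAverage_eq, setAverage_eq, integral_sub hφi (integrable_const _), smul_sub]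
    congr 1
    simp only [integral_const, smul_eq_mul, measureReal_restrict_apply_univ]
    rw [← mul_assoc, inv_mul_cancel₀, one_mul]
    rw [measureReal_def, hVc]
    exact (ENNReal.toReal_pos hV0 hVt).ne'
  have hm : Measurable fun y => ‖φ y - φ x‖ₑ := (hφ.sub continuous_const).enorm.measurable
  have h1 : ‖A - φ x‖ₑ ^ 2 ≤ V⁻¹ * ∫⁻ y in Metric.ball c h, ‖φ y - φ x‖ₑ ^ 2 := by
    have h2 : ‖A - φ x‖ₑ ≤ V⁻¹ * ∫⁻ y in Metric.ball c h, ‖φ y - φ x‖ₑ := by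
      rw [hd, setAverage_eq, enorm_smul]
      gcongr
      · rw [measureReal_def, hVc, ← ENNReal.toReal_inv, ← ofReal_norm, Real.norm_of_nonneg
          ENNReal.toReal_nonneg, ENNReal.ofReal_toReal (ENNReal.inv_ne_top.2 hV0)]
      · exact enorm_integral_le_lintegral_enorm _
    calc ‖A - φ x‖ₑ ^ 2 ≤ (V⁻¹ * ∫⁻ y in Metric.ball c h, ‖φ y - φ x‖ₑ) ^ 2 := by gcongr
      _ = V⁻¹ ^ 2 * (∫⁻ y in Metric.ball c h, ‖φ y - φ x‖ₑ) ^ 2 := by rw [mul_pow]
      _ ≤ V⁻¹ ^ 2 * (V * ∫⁻ y in Metric.ball c h, ‖φ y - φ x‖ₑ ^ 2) := by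
          gcongr
          have := sq_lintegral_le (volume.restrict (Metric.ball c h)) hm.aemeasurable
          rwa [Measure.restrict_apply_univ, hVc] at this
      _ = (V⁻¹ * V) * (V⁻¹ * ∫⁻ y in Metric.ball c h, ‖φ y - φ x‖ₑ ^ 2) := by ring
      _ = V⁻¹ * ∫⁻ y in Metric.ball c h, ‖φ y - φ x‖ₑ ^ 2 := by
          rw [ENNReal.inv_mul_cancel hV0 hVt, one_mul]
  have h3 : ∫⁻ y in Metric.ball c h, ‖φ y - φ x‖ₑ ^ 2 ≤
      ∫⁻ z in Metric.ball (0 : E) (2 * h), ‖φ (x + z) - φ x‖ₑ ^ 2 := by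
    calc ∫⁻ y in Metric.ball c h, ‖φ y - φ x‖ₑ ^ 2
        ≤ ∫⁻ y in Metric.ball x (2 * h), ‖φ y - φ x‖ₑ ^ 2 := by
          refine lintegral_mono_set ?_
          intro y hy
          rw [Metric.mem_ball] at hy ⊢
          have := dist_triangle y c x
          rw [dist_comm c x] at this
          linarith
      _ = ∫⁻ y, (Metric.ball x (2 * h)).indicator (fun y => ‖φ y - φ x‖ₑ ^ 2) y := by
          rw [lintegral_indicator Metric.isOpen_ball.measurableSet]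
      _ = ∫⁻ z, (Metric.ball x (2 * h)).indicator (fun y => ‖φ y - φ x‖ₑ ^ 2) (x + z) :=
          (lintegral_add_left_eq_self _ x).symm
      _ = ∫⁻ z, (Metric.ball (0 : E) (2 * h)).indicator
            (fun z => ‖φ (x + z) - φ x‖ₑ ^ 2) z := by
          congr 1
          ext z
          simp only [indicator, Metric.mem_ball, dist_self_add_left, dist_zero_right]
      _ = ∫⁻ z in Metric.ball (0 : E) (2 * h), ‖φ (x + z) - φ x‖ₑ ^ 2 := by
          rw [lintegral_indicator Metric.isOpen_ball.measurableSet]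
  have h4 : ‖φ x‖ₑ ^ 2 ≤ 2 * ‖A‖ₑ ^ 2 + 2 * ‖A - φ x‖ₑ ^ 2 := by
    have e : φ x = A - (A - φ x) := by ring
    have e1 : ‖φ x‖ ^ 2 ≤ 2 * ‖A‖ ^ 2 + 2 * ‖A - φ x‖ ^ 2 := by
      simp only [Real.norm_eq_abs, sq_abs]
      nlinarith [sq_nonneg (A + (A - φ x))]
    simp only [← ofReal_norm]
    rw [← ENNReal.ofReal_pow (norm_nonneg _), ← ENNReal.ofReal_pow (norm_nonneg _),
      ← ENNReal.ofReal_pow (norm_nonneg _),
      show (2 : ℝ≥0∞) = ENNReal.ofReal 2 by norm_num, ← ENNReal.ofReal_mul (by norm_num),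
      ← ENNReal.ofReal_mul (by norm_num), ← ENNReal.ofReal_add (by positivity) (by positivity)]
    exact ENNReal.ofReal_le_ofReal e1
  calc ‖φ x‖ₑ ^ 2 ≤ 2 * ‖A‖ₑ ^ 2 + 2 * ‖A - φ x‖ₑ ^ 2 := h4
    _ ≤ 2 * ‖A‖ₑ ^ 2 + 2 * (V⁻¹ * ∫⁻ z in Metric.ball (0 : E) (2 * h),
          ‖φ (x + z) - φ x‖ₑ ^ 2) := by
        gcongr
        exact h1.trans (by gcongr)

theorem volume_ball_two_mul (h : ℝ) :
    volume (Metric.ball (0 : E) (2 * h)) = 8 * volume (Metric.ball (0 : E) h) := by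
  rw [Measure.addHaar_ball_mul_of_pos volume (0 : E) (by norm_num : (0 : ℝ) < 2) h]
  simp
  norm_num

/-- the main inequality for test functions, in extended nonnegative reals -/
theorem key_enn {φ : E → ℝ} (hφ : ContDiff ℝ 1 φ) {S : Set E} (hS : MeasurableSet S)
    (hsupp : ∀ x ∉ S, φ x = 0) {h : ℝ} (hh : 0 < h) (T : Finset E)
    (hT : ∀ x ∈ S, ∃ c ∈ T, dist x c < h) :
    ∫⁻ x, ‖φ x‖ₑ ^ 2 ≤ volume S * (2 * ∑ c ∈ T, ‖⨍ y in Metric.ball c h, φ y‖ₑ ^ 2) +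
      ENNReal.ofReal (64 * h ^ 2) * ∫⁻ x, ‖gradient φ x‖ₑ ^ 2 := by
  set V := volume (Metric.ball (0 : E) h) with hV
  have hV0 : V ≠ 0 := (Metric.measure_ball_pos volume 0 hh).ne'
  have hVt : V ≠ ⊤ := measure_ball_lt_top.ne
  set G : E → ℝ≥0∞ := fun x => ∫⁻ z in Metric.ball (0 : E) (2 * h), ‖φ (x + z) - φ x‖ₑ ^ 2 with hG
  have hm : Measurable (Function.uncurry fun (x z : E) => ‖φ (x + z) - φ x‖ₑ ^ 2) :=
    ((((hφ.continuous).comp (by fun_prop : Continuous fun p : E × E => p.1 + p.2)).sub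
      ((hφ.continuous).comp continuous_fst)).enorm.measurable).pow_const 2
  have hGm : Measurable G := hm.lintegral_prod_right'
  have h1 : ∫⁻ x, ‖φ x‖ₑ ^ 2 = ∫⁻ x in S, ‖φ x‖ₑ ^ 2 := by
    rw [← lintegral_indicator hS]
    congr 1
    ext x
    by_cases hx : x ∈ S
    · rw [indicator_of_mem hx]
    · rw [indicator_of_notMem hx, hsupp x hx]; simp
  have h2 : ∀ x ∈ S, ‖φ x‖ₑ ^ 2 ≤
      2 * ∑ c ∈ T, ‖⨍ y in Metric.ball c h, φ y‖ₑ ^ 2 + 2 * (V⁻¹ * G x) := by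
    intro x hx
    obtain ⟨c, hc, hxc⟩ := hT x hx
    refine (avg_pt hφ.continuous hh hxc).trans ?_
    gcongr
    exact Finset.single_le_sum (f := fun c => ‖⨍ y in Metric.ball c h, φ y‖ₑ ^ 2)
      (fun _ _ => zero_le) hc
  rw [h1]
  calc ∫⁻ x in S, ‖φ x‖ₑ ^ 2
      ≤ ∫⁻ x in S, (2 * ∑ c ∈ T, ‖⨍ y in Metric.ball c h, φ y‖ₑ ^ 2 + 2 * (V⁻¹ * G x)) :=
        setLIntegral_mono' hS h2
    _ = volume S * (2 * ∑ c ∈ T, ‖⨍ y in Metric.ball c h, φ y‖ₑ ^ 2) +
          2 * (V⁻¹ * ∫⁻ x in S, G x) := by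
        rw [lintegral_add_left measurable_const, lintegral_const_mul _ (hGm.const_mul _),
          lintegral_const_mul _ hGm]
        simp [mul_comm]
    _ ≤ volume S * (2 * ∑ c ∈ T, ‖⨍ y in Metric.ball c h, φ y‖ₑ ^ 2) +
          ENNReal.ofReal (64 * h ^ 2) * ∫⁻ x, ‖gradient φ x‖ₑ ^ 2 := by
        refine add_le_add le_rfl ?_
        have h3 : ∫⁻ x in S, G x ≤ 8 * V * (ENNReal.ofReal (4 * h ^ 2) *
            ∫⁻ x, ‖gradient φ x‖ₑ ^ 2) := by
          calc ∫⁻ x in S, G x ≤ ∫⁻ x, G x := setLIntegral_le_lintegral _ _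
            _ = ∫⁻ z in Metric.ball (0 : E) (2 * h), ∫⁻ x, ‖φ (x + z) - φ x‖ₑ ^ 2 := by
                rw [hG, lintegral_lintegral_swap hm.aemeasurable]
            _ ≤ ∫⁻ z in Metric.ball (0 : E) (2 * h), ENNReal.ofReal (4 * h ^ 2) *
                  ∫⁻ x, ‖gradient φ x‖ₑ ^ 2 := by
                refine setLIntegral_mono' Metric.isOpen_ball.measurableSet fun z hz => ?_
                refine (trans_est hφ z).trans ?_
                gcongr
                rw [← ofReal_norm, ← ENNReal.ofReal_pow (norm_nonneg _)]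
                refine ENNReal.ofReal_le_ofReal ?_
                rw [Metric.mem_ball, dist_zero_right] at hz
                nlinarith [norm_nonneg z]
            _ = 8 * V * (ENNReal.ofReal (4 * h ^ 2) * ∫⁻ x, ‖gradient φ x‖ₑ ^ 2) := by
                rw [setLIntegral_const, volume_ball_two_mul h, mul_comm]
        calc 2 * (V⁻¹ * ∫⁻ x in S, G x)
            ≤ 2 * (V⁻¹ * (8 * V * (ENNReal.ofReal (4 * h ^ 2) *
                ∫⁻ x, ‖gradient φ x‖ₑ ^ 2))) := by gcongr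
          _ = (V⁻¹ * V) * ((16 * ENNReal.ofReal (4 * h ^ 2)) *
                ∫⁻ x, ‖gradient φ x‖ₑ ^ 2) := by ring
          _ = ENNReal.ofReal (64 * h ^ 2) * ∫⁻ x, ‖gradient φ x‖ₑ ^ 2 := by
              rw [ENNReal.inv_mul_cancel hV0 hVt, one_mul,
                show (16 : ℝ≥0∞) = ENNReal.ofReal 16 by norm_num,
                ← ENNReal.ofReal_mul (by norm_num),
                show (16 : ℝ) * (4 * h ^ 2) = 64 * h ^ 2 by ring]

theorem lint_sq {F : Type*} [NormedAddCommGroup F] {f : E → F} (hf : MemLp f 2 volume) :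
    ∫⁻ x, ‖f x‖ₑ ^ 2 = ENNReal.ofReal (∫ x, ‖f x‖ ^ 2) := by
  rw [ofReal_integral_eq_lintegral_ofReal hf.norm.integrable_sq
    (Eventually.of_forall fun x => by positivity)]
  congr 1
  ext x
  rw [← ofReal_norm, ENNReal.ofReal_pow (norm_nonneg _)]

theorem conv_enn {a s b c d : ℝ} (hs : 0 ≤ s) (hb : 0 ≤ b) (hc : 0 ≤ c) (hd : 0 ≤ d)
    (h : ENNReal.ofReal a ≤ ENNReal.ofReal s * (2 * ENNReal.ofReal b) +
      ENNReal.ofReal c * ENNReal.ofReal d) : a ≤ s * (2 * b) + c * d := by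
  rw [show (2 : ℝ≥0∞) = ENNReal.ofReal 2 by norm_num, ← ENNReal.ofReal_mul (by norm_num),
    ← ENNReal.ofReal_mul (by positivity), ← ENNReal.ofReal_mul (by positivity),
    ← ENNReal.ofReal_add (by positivity) (by positivity)] at h
  exact (ENNReal.ofReal_le_ofReal_iff (by positivity)).1 h

/-- Friedrichs' inequality -/
theorem friedrichs {Ω : Set E} (hΩ : Bornology.IsBounded Ω) {δ : ℝ} (hδ : 0 < δ) :
    ∃ (T : Finset E) (b : E → Lp ℝ 2 (volume : Measure E)) (M : ℝ), 0 ≤ M ∧ ∀ u ∈ V Ω,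
      mI u u ≤ M * ∑ c ∈ T, ⟪b c, u.fst⟫_ℝ ^ 2 + δ * dI u u := by
  -- the mesh size
  obtain ⟨h, hh, hhδ⟩ : ∃ h : ℝ, 0 < h ∧ 64 * h ^ 2 ≤ δ := by
    refine ⟨Real.sqrt δ / 8, by positivity, ?_⟩
    rw [div_pow, Real.sq_sqrt hδ.le]
    linarith
  obtain ⟨R, hR⟩ := hΩ.subset_closedBall (0 : E)
  set S : Set E := Metric.closedBall (0 : E) R with hS
  have hScpt : IsCompact S := isCompact_closedBall _ _
  obtain ⟨T0, hT0, hT1⟩ := hScpt.elim_nhds_subcover (fun c => Metric.ball c h)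
    (fun c _ => Metric.ball_mem_nhds c hh)
  have hT : ∀ x ∈ S, ∃ c ∈ T0, dist x c < h := by
    intro x hx
    have := hT1 hx
    simpa using this
  have hbt : ∀ c : E, volume (Metric.ball c h) ≠ ⊤ := fun c => measure_ball_lt_top.ne
  set V' : ℝ := volume.real (Metric.ball (0 : E) h) with hV'
  have hVpos : 0 < V' := ENNReal.toReal_pos (Metric.measure_ball_pos volume 0 hh).ne' (hbt 0)
  have hVc : ∀ c : E, volume.real (Metric.ball c h) = V' := fun c => by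
    rw [hV', measureReal_def, measureReal_def, Measure.addHaar_ball_center]
  refine ⟨T0, fun c => indicatorConstLp 2 (Metric.isOpen_ball (x := c) (ε := h)).measurableSet
    (hbt c) (1 : ℝ), volume.real S * 2 * (V'⁻¹) ^ 2, by positivity, ?_⟩
  intro u hu
  refine V_induction (Ω := Ω) (C := {u : BB | mI u u ≤ volume.real S * 2 * (V'⁻¹) ^ 2 *
    ∑ c ∈ T0, ⟪(indicatorConstLp 2 (Metric.isOpen_ball (x := c) (ε := h)).measurableSet
    (hbt c) (1 : ℝ) : Lp ℝ 2 (volume : Measure E)), u.fst⟫_ℝ ^ 2 + δ * dI u u}) ?_ ?_ hu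
  · refine isClosed_le (continuous_mI.comp (continuous_id.prodMk continuous_id)) ?_
    refine Continuous.add (continuous_const.mul (continuous_finsetSum _ fun c _ => ?_))
      (continuous_const.mul (continuous_dI.comp (continuous_id.prodMk continuous_id)))
    exact (continuous_const.inner continuous_fst').pow 2
  · intro φ hφ
    have hr := rep_tb hφ
    have hφ1 : ContDiff ℝ 1 φ := hφ.smooth.of_le (by simp)
    have hsupp : ∀ x ∉ S, φ x = 0 := by
      intro x hx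
      by_contra hne
      exact hx (hR (hφ.supp (subset_tsupport φ hne)))
    have hk := key_enn hφ1 hScpt.measurableSet hsupp hh T0 hT
    rw [lint_sq (hφ.memLp 2), lint_sq (hφ.memLp_gradient 2)] at hk
    have hm : mI (tb φ) (tb φ) = ∫ x, ‖φ x‖ ^ 2 := by
      unfold mI
      refine integral_congr_ae ?_
      filter_upwards [hr.1] with x hx
      rw [hx, Real.norm_eq_abs, sq_abs]; ring
    have hd : dI (tb φ) (tb φ) = ∫ x, ‖gradient φ x‖ ^ 2 := by
      unfold dI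
      refine integral_congr_ae ?_
      filter_upwards [hr.2] with x hx
      rw [hx, real_inner_self_eq_norm_sq]
    have hav : ∀ c : E, ⨍ y in Metric.ball c h, φ y = V'⁻¹ *
        ⟪(indicatorConstLp 2 (Metric.isOpen_ball (x := c) (ε := h)).measurableSet
          (hbt c) (1 : ℝ) : Lp ℝ 2 (volume : Measure E)), (tb φ).fst⟫_ℝ := by
      intro c
      rw [L2.inner_indicatorConstLp_one, setAverage_eq, hVc, smul_eq_mul]
      congr 1
      refine setIntegral_congr_ae Metric.isOpen_ball.measurableSet ?_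
      filter_upwards [hr.1] with x hx _
      exact hx.symm
    show mI (tb φ) (tb φ) ≤ _
    rw [hm, hd]
    have e1 : ∀ c : E, ‖⨍ y in Metric.ball c h, φ y‖ₑ ^ 2 = ENNReal.ofReal ((V'⁻¹) ^ 2 *
        ⟪(indicatorConstLp 2 (Metric.isOpen_ball (x := c) (ε := h)).measurableSet
          (hbt c) (1 : ℝ) : Lp ℝ 2 (volume : Measure E)), (tb φ).fst⟫_ℝ ^ 2) := by
      intro c
      rw [hav c, ← ofReal_norm, ← ENNReal.ofReal_pow (norm_nonneg _), Real.norm_eq_abs, sq_abs,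
        mul_pow]
    simp only [e1] at hk
    rw [← ENNReal.ofReal_sum_of_nonneg (fun c _ => by positivity),
      show volume S = ENNReal.ofReal (volume.real S) from
        (ENNReal.ofReal_toReal hScpt.measure_lt_top.ne).symm] at hk
    have hk2 := conv_enn (by positivity) (by positivity) (by positivity) (by positivity) hk
    rw [← Finset.mul_sum] at hk2
    have h3 : 0 ≤ ∫ x, ‖gradient φ x‖ ^ 2 := by positivity
    calc ∫ x, ‖φ x‖ ^ 2 ≤ _ := hk2
      _ ≤ _ := by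
        have := mul_le_mul_of_nonneg_right hhδ h3
        linarith

/-- the set of function components of a bounded subset of `V Ω` is totally bounded -/
theorem totallyBounded_fst {Ω : Set E} (hΩ : Bornology.IsBounded Ω) (c : ℝ) :
    TotallyBounded ((fun u : BB => u.fst) '' {u : BB | u ∈ V Ω ∧ ‖u‖ ≤ c}) := by
  refine Metric.totallyBounded_of_finite_discretization fun ε hε => ?_
  -- parameters
  set c' : ℝ := max c 1 with hc'
  have hc'pos : 0 < c' := lt_of_lt_of_le one_pos (le_max_right _ _)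
  have hcc : c ≤ c' := le_max_left _ _
  set δ : ℝ := ε ^ 2 / (8 * c' ^ 2) with hδ
  have hδpos : 0 < δ := by positivity
  obtain ⟨T, b, M, hM, hF⟩ := friedrichs hΩ hδpos
  set η : ℝ := ε / Real.sqrt (2 * ((M + 1) * (T.card + 1))) / 2 with hη
  have hηpos : 0 < η := by positivity
  -- bound for the functionals
  obtain ⟨N, hN⟩ : ∃ N : ℤ, ∀ t ∈ T, ‖b t‖ * c' / η + 1 ≤ N := by
    obtain ⟨N, hN⟩ := exists_int_gt (∑ t ∈ T, ‖b t‖ * c' / η + 1)
    refine ⟨N, fun t ht => ?_⟩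
    have h1 : ‖b t‖ * c' / η ≤ ∑ t ∈ T, ‖b t‖ * c' / η :=
      Finset.single_le_sum (f := fun t => ‖b t‖ * c' / η) (fun _ _ => by positivity) ht
    linarith
  have hpre : ∀ x : ((fun u : BB => u.fst) '' {u : BB | u ∈ V Ω ∧ ‖u‖ ≤ c}),
      ∃ u : BB, (u ∈ V Ω ∧ ‖u‖ ≤ c) ∧ u.fst = (x : Lp ℝ 2 (volume : Measure E)) := fun x => x.2
  choose pre hpre1 hpre2 using hpre
  have hfl : ∀ x, ∀ t : T, ⌊⟪b t, (pre x).fst⟫_ℝ / η⌋ ∈ Finset.Icc (-N) N := by
    intro x t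
    have h1 : |⟪b t, (pre x).fst⟫_ℝ| ≤ ‖b t‖ * c' := by
      refine (abs_real_inner_le_norm _ _).trans ?_
      gcongr
      exact (WithLp.norm_fst_le _ _).trans ((hpre1 x).2.trans hcc)
    have h2 : |⟪b t, (pre x).fst⟫_ℝ / η| ≤ N - 1 := by
      rw [abs_div, abs_of_pos hηpos]
      have h3 := hN t t.2
      have h4 : |⟪b t, (pre x).fst⟫_ℝ| / η ≤ ‖b t‖ * c' / η := by gcongr
      linarith
    rw [abs_le] at h2
    rw [Finset.mem_Icc]
    constructor
    · rw [Int.le_floor]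
      push_cast
      linarith [h2.1]
    · have h5 := Int.floor_le (⟪b t, (pre x).fst⟫_ℝ / η)
      have : (⌊⟪b t, (pre x).fst⟫_ℝ / η⌋ : ℝ) ≤ N := by linarith [h2.2]
      exact_mod_cast this
  refine ⟨T → Finset.Icc (-N) N, inferInstance, fun x t => ⟨_, hfl x t⟩, ?_⟩
  intro x y hxy
  have hfl2 : ∀ t : T, ⌊⟪b t, (pre x).fst⟫_ℝ / η⌋ = ⌊⟪b t, (pre y).fst⟫_ℝ / η⌋ := by
    intro t
    have := congrFun hxy t
    exact congrArg Subtype.val this
  have hdiff : ∀ t ∈ T, ⟪b t, (pre x - pre y).fst⟫_ℝ ^ 2 ≤ η ^ 2 := by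
    intro t ht
    have h1 := Int.abs_sub_lt_one_of_floor_eq_floor (hfl2 ⟨t, ht⟩)
    rw [WithLp.sub_fst, inner_sub_right]
    have h2 : |⟪b t, (pre x).fst⟫_ℝ - ⟪b t, (pre y).fst⟫_ℝ| ≤ η := by
      have h3 : ⟪b t, (pre x).fst⟫_ℝ - ⟪b t, (pre y).fst⟫_ℝ =
          (⟪b t, (pre x).fst⟫_ℝ / η - ⟪b t, (pre y).fst⟫_ℝ / η) * η := by
        field_simp
      rw [h3, abs_mul, abs_of_pos hηpos]
      have := mul_le_mul_of_nonneg_right h1.le hηpos.le
      linarith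
    exact sq_le_sq' (by linarith [(abs_le.1 h2).1]) (abs_le.1 h2).2
  have hmem : pre x - pre y ∈ V Ω := Submodule.sub_mem _ (hpre1 x).1 (hpre1 y).1
  have hnorm : ‖pre x - pre y‖ ≤ 2 * c' := by
    refine (norm_sub_le _ _).trans ?_
    have := (hpre1 x).2; have := (hpre1 y).2
    linarith
  have h1 := hF _ hmem
  have h2 : dI (pre x - pre y) (pre x - pre y) ≤ 4 * c' ^ 2 := by
    have h3 := norm_sq_eq (pre x - pre y)
    have h4 := mI_self_nonneg (pre x - pre y)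
    have h5 : ‖pre x - pre y‖ ^ 2 ≤ (2 * c') ^ 2 := by gcongr
    linarith
  have h3 : ∑ t ∈ T, ⟪b t, (pre x - pre y).fst⟫_ℝ ^ 2 ≤ T.card * η ^ 2 := by
    refine (Finset.sum_le_sum hdiff).trans ?_
    simp
  have h4 : M * ∑ t ∈ T, ⟪b t, (pre x - pre y).fst⟫_ℝ ^ 2 ≤ M * (T.card * η ^ 2) := by gcongr
  have h5 : δ * dI (pre x - pre y) (pre x - pre y) ≤ δ * (4 * c' ^ 2) := by gcongr
  have h6 : δ * (4 * c' ^ 2) = ε ^ 2 / 2 := by
    rw [hδ]; field_simp; norm_num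
  have h7 : M * (T.card * η ^ 2) ≤ ε ^ 2 / 8 := by
    have e1 : η ^ 2 = ε ^ 2 / (2 * ((M + 1) * (T.card + 1))) / 4 := by
      rw [hη, div_pow, div_pow, Real.sq_sqrt (by positivity)]
      norm_num
    have e2 : M * (T.card * η ^ 2) ≤ (M + 1) * ((T.card + 1) * η ^ 2) := by gcongr <;> linarith
    have e3 : (M + 1) * (((T.card : ℝ) + 1) * η ^ 2) = ε ^ 2 / 8 := by
      rw [e1]; field_simp; norm_num
    linarith
  have h8 : ‖(pre x - pre y).fst‖ ^ 2 < ε ^ 2 := by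
    rw [← mI_self_eq]
    have : 0 < ε ^ 2 := by positivity
    linarith
  have h9 : ‖(pre x - pre y).fst‖ < ε := lt_of_pow_lt_pow_left₀ 2 hε.le h8
  rw [dist_eq_norm, ← hpre2 x, ← hpre2 y]
  exact h9

end MC2

/-- Rellich -/
theorem rellich : RellichStmt := by
  intro Ω hΩ c
  refine ⟨closure ((fun u : BB => u.fst) '' {u : BB | u ∈ V Ω ∧ ‖u‖ ≤ c}), ?_, ?_⟩
  · exact (MC2.totallyBounded_fst hΩ c).closure.isCompact_of_isClosed isClosed_closure
  · intro u hu huc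
    exact subset_closure ⟨u, ⟨hu, huc⟩, rfl⟩

/-- Poincaré -/
theorem poincare : PoincareStmt := by
  intro Ω hΩ
  set K : NNReal := eLpNormLESNormFDerivOfLeConst ℝ (volume : Measure E) Ω (2 : NNReal) (2 : NNReal)
    with hK
  refine ⟨(K : ℝ) ^ 2 + 1, by positivity, ?_⟩
  intro u hu
  refine V_induction (Ω := Ω) (C := {u : BB | mI u u ≤ ((K : ℝ) ^ 2 + 1) * dI u u}) ?_ ?_ hu
  · exact isClosed_le (continuous_mI.comp (continuous_id.prodMk continuous_id))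
      (continuous_const.mul (continuous_dI.comp (continuous_id.prodMk continuous_id)))
  · intro φ hφ
    have hr := rep_tb hφ
    have h1 := eLpNorm_le_eLpNorm_fderiv (μ := (volume : Measure E)) (F := ℝ) (u := φ) (s := Ω)
      (hφ.smooth.of_le (by simp)) ((subset_tsupport φ).trans hφ.supp) (p := 2) (by norm_num)
      (by simp; norm_num) hΩ
    have h2 : eLpNorm (fderiv ℝ φ) 2 volume = eLpNorm (gradient φ) 2 volume :=
      eLpNorm_congr_norm_ae (Eventually.of_forall fun x => (norm_gradient φ x).symm)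
    have h3 : ‖(tb φ).fst‖ ≤ K * ‖(tb φ).snd‖ := by
      rw [Lp.norm_def, Lp.norm_def]
      have e1 : eLpNorm ((tb φ).fst : E → ℝ) 2 volume = eLpNorm φ 2 volume :=
        eLpNorm_congr_ae hr.1
      have e2 : eLpNorm ((tb φ).snd : E → E) 2 volume = eLpNorm (gradient φ) 2 volume :=
        eLpNorm_congr_ae hr.2
      rw [e1, e2, ← ENNReal.coe_toReal K, ← ENNReal.toReal_mul]
      refine ENNReal.toReal_mono ?_ ?_
      · exact ENNReal.mul_ne_top ENNReal.coe_ne_top (hφ.memLp_gradient 2).eLpNorm_lt_top.ne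
      · rw [← h2]
        exact h1
    show mI (tb φ) (tb φ) ≤ _
    rw [mI_self_eq, dI_self_eq]
    have h4 : ‖(tb φ).fst‖ ^ 2 ≤ (K * ‖(tb φ).snd‖) ^ 2 := by gcongr
    nlinarith [sq_nonneg ‖(tb φ).snd‖]

end Pool.Agent.H92.BN
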