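import Pool.Agent.H92.BN.Api

/-!
# Module C3: positive part, chain rule, cut-off (by helper14)
-/

set_option autoImplicit false

namespace Pool.Agent.H92.BN

open MeasureTheory Set Filter Topology
open scoped ContDiff InnerProductSpace

namespace C3

theorem exists_BB {f : E → ℝ} {g : E → E} (hf : MemLp f 2 volume) (hg : MemLp g 2 volume) :
    ∃ w : BB, fn w =ᵐ[volume] f ∧ gr w =ᵐ[volume] g :=
  ⟨WithLp.toLp 2 (hf.toLp f, hg.toLp g), hf.coeFn_toLp, hg.coeFn_toLp⟩

theorem norm_sub_sq (u w : BB) :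
    ‖u - w‖ ^ 2 = (∫ x, (fn u x - fn w x) ^ 2) + ∫ x, ‖gr u x - gr w x‖ ^ 2 := by
  rw [norm_sq_eq]
  congr 1
  · unfold mI
    refine integral_congr_ae ?_
    filter_upwards [fn_sub u w] with x hx
    rw [hx, Pi.sub_apply]; ring
  · unfold dI
    refine integral_congr_ae ?_
    filter_upwards [gr_sub u w] with x hx
    rw [hx, Pi.sub_apply, real_inner_self_eq_norm_sq]

theorem tendsto_of_integrals {u : ℕ → BB} {w : BB}
    (h1 : Tendsto (fun n => ∫ x, (fn (u n) x - fn w x) ^ 2) atTop (𝓝 0))
    (h2 : Tendsto (fun n => ∫ x, ‖gr (u n) x - gr w x‖ ^ 2) atTop (𝓝 0)) :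
    Tendsto u atTop (𝓝 w) := by
  rw [tendsto_iff_norm_sub_tendsto_zero]
  have h3 : Tendsto (fun n => ‖u n - w‖ ^ 2) atTop (𝓝 0) := by
    simp only [norm_sub_sq]
    simpa using h1.add h2
  have h4 := h3.sqrt
  simp only [Real.sqrt_zero, Real.sqrt_sq (norm_nonneg _)] at h4
  exact h4

theorem integrals_of_tendsto {u : ℕ → BB} {w : BB} (h : Tendsto u atTop (𝓝 w)) :
    Tendsto (fun n => ∫ x, (fn (u n) x - fn w x) ^ 2) atTop (𝓝 0) ∧
    Tendsto (fun n => ∫ x, ‖gr (u n) x - gr w x‖ ^ 2) atTop (𝓝 0) := by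
  rw [tendsto_iff_norm_sub_tendsto_zero] at h
  have h3 : Tendsto (fun n => ‖u n - w‖ ^ 2) atTop (𝓝 0) := by
    simpa using h.pow 2
  simp only [norm_sub_sq] at h3
  constructor
  · refine squeeze_zero (fun n => integral_nonneg fun x => by positivity) (fun n => ?_) h3
    have : 0 ≤ ∫ x, ‖gr (u n) x - gr w x‖ ^ 2 := integral_nonneg fun x => by positivity
    linarith
  · refine squeeze_zero (fun n => integral_nonneg fun x => by positivity) (fun n => ?_) h3
    have : 0 ≤ ∫ x, (fn (u n) x - fn w x) ^ 2 := integral_nonneg fun x => by positivity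
    linarith

theorem mem_of_integrals {Ω : Set E} {u : ℕ → BB} (hu : ∀ n, u n ∈ V Ω) {w : BB}
    (h1 : Tendsto (fun n => ∫ x, (fn (u n) x - fn w x) ^ 2) atTop (𝓝 0))
    (h2 : Tendsto (fun n => ∫ x, ‖gr (u n) x - gr w x‖ ^ 2) atTop (𝓝 0)) : w ∈ V Ω :=
  (isClosed_V Ω).mem_of_tendsto (tendsto_of_integrals h1 h2) (Eventually.of_forall hu)

/-- approximation by test functions, with a.e. convergence of the function component -/
theorem exists_test_seq_ae {Ω : Set E} {u : BB} (hu : u ∈ V Ω) :
    ∃ φ : ℕ → E → ℝ, (∀ n, IsTest Ω (φ n)) ∧ Tendsto (fun n => tb (φ n)) atTop (𝓝 u) ∧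
      ∀ᵐ x, Tendsto (fun n => φ n x) atTop (𝓝 (fn u x)) := by
  obtain ⟨φ, h1, h2⟩ := exists_test_seq hu
  have h3 : Tendsto (fun n => (tb (φ n)).fst) atTop (𝓝 u.fst) :=
    (continuous_fst'.tendsto u).comp h2
  obtain ⟨ns, hns, h4⟩ := (tendstoInMeasure_of_tendsto_Lp h3).exists_seq_tendsto_ae
  refine ⟨fun n => φ (ns n), fun n => h1 _, h2.comp hns.tendsto_atTop, ?_⟩
  have h5 : ∀ᵐ x, ∀ n, fn (tb (φ n)) x = φ n x := by
    rw [ae_all_iff]
    intro n
    exact (rep_tb (h1 n)).1
  filter_upwards [h4, h5] with x hx hx5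
  refine hx.congr (fun n => ?_)
  exact hx5 (ns n)

theorem test_diff {Ω : Set E} {φ : E → ℝ} (h : IsTest Ω φ) (x : E) : DifferentiableAt ℝ φ x :=
  h.smooth.differentiable (by simp) x

theorem hasGradient_of_test {Ω : Set E} {φ : E → ℝ} (h : IsTest Ω φ) (x : E) :
    HasGradientAt φ (gradient φ x) x := (test_diff h x).hasGradientAt

theorem gradient_comp {θ : ℝ → ℝ} (hθ : Differentiable ℝ θ) {φ : E → ℝ} {x : E}
    (hφ : DifferentiableAt ℝ φ x) :
    gradient (fun y => θ (φ y)) x = deriv θ (φ x) • gradient φ x := by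
  unfold gradient
  rw [← map_smul]
  congr 1
  have := (hθ (φ x)).hasDerivAt.comp_hasFDerivAt x hφ.hasFDerivAt
  exact this.fderiv

theorem gradient_mul {ψ φ : E → ℝ} {x : E} (hψ : DifferentiableAt ℝ ψ x)
    (hφ : DifferentiableAt ℝ φ x) :
    gradient (fun y => ψ y * φ y) x = ψ x • gradient φ x + φ x • gradient ψ x := by
  unfold gradient
  rw [← map_smul, ← map_smul, ← map_add]
  congr 1
  exact (hψ.hasFDerivAt.mul hφ.hasFDerivAt).fderiv

theorem test_comp {Ω : Set E} {φ : E → ℝ} (h : IsTest Ω φ) {θ : ℝ → ℝ} (hθ : ContDiff ℝ ∞ θ)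
    (h0 : θ 0 = 0) : IsTest Ω (fun x => θ (φ x)) := by
  refine ⟨hθ.comp h.smooth, h.cpt.comp_left h0, ?_⟩
  refine (closure_mono ?_).trans h.supp
  intro x hx hx'
  exact hx (by show θ (φ x) = 0; rw [hx', h0])

theorem test_mul {Ω W : Set E} {φ ψ : E → ℝ} (h : IsTest Ω φ) (hψ : ContDiff ℝ ∞ ψ)
    (hW : tsupport ψ ⊆ W) : IsTest (Ω ∩ W) (fun x => ψ x * φ x) := by
  refine ⟨hψ.mul h.smooth, h.cpt.mul_left (f := ψ), ?_⟩
  refine subset_inter ?_ ?_
  · refine (closure_mono ?_).trans h.supp
    intro x hx hx'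
    exact hx (by show ψ x * φ x = 0; rw [hx', mul_zero])
  · refine (closure_mono ?_).trans hW
    intro x hx hx'
    exact hx (by show ψ x * φ x = 0; rw [hx', zero_mul])

theorem integrable_sub_sq (u w : BB) : Integrable (fun x => (fn u x - fn w x) ^ 2) := by
  have := ((memLp_fn u).sub (memLp_fn w)).integrable_sq
  exact this

theorem integrable_gr_sub_sq (u w : BB) : Integrable (fun x => ‖gr u x - gr w x‖ ^ 2) := by
  have := ((memLp_gr u).sub (memLp_gr w)).norm.integrable_sq
  exact this

theorem integrable_gr_sq (u : BB) : Integrable (fun x => ‖gr u x‖ ^ 2) := by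
  have := (memLp_gr u).norm.integrable_sq
  exact this

theorem integrable_fn_sq (u : BB) : Integrable (fun x => fn u x ^ 2) := by
  have := (memLp_fn u).integrable_sq
  exact this

/-- convergence in `L²` of products by bounded functions -/
theorem tendsto_mult {H : Type*} [NormedAddCommGroup H] [NormedSpace ℝ H]
    (g : E → H) (hg : MemLp g 2 volume) (G : ℕ → E → H) (hG : ∀ n, MemLp (G n) 2 volume)
    (c : E → ℝ) (c' : ℕ → E → ℝ) (C : ℝ)
    (hcm : AEStronglyMeasurable c volume) (hc'm : ∀ n, AEStronglyMeasurable (c' n) volume)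
    (hc : ∀ᵐ x, |c x| ≤ C) (hc' : ∀ n, ∀ᵐ x, |c' n x| ≤ C)
    (hlim : ∀ᵐ x, Tendsto (fun n => c' n x) atTop (𝓝 (c x)))
    (hGg : Tendsto (fun n => ∫ x, ‖G n x - g x‖ ^ 2) atTop (𝓝 0)) :
    Tendsto (fun n => ∫ x, ‖c' n x • G n x - c x • g x‖ ^ 2) atTop (𝓝 0) := by
  have hC : 0 ≤ C := by
    obtain ⟨x, hx⟩ := hc.exists
    exact (abs_nonneg _).trans hx
  have i1 : ∀ n, Integrable (fun x => ‖G n x - g x‖ ^ 2) := fun n =>
    ((hG n).sub hg).norm.integrable_sq
  have i2 : ∀ n, Integrable (fun x => (c' n x - c x) ^ 2 * ‖g x‖ ^ 2) := by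
    intro n
    have hgi : Integrable (fun x => (2 * C) ^ 2 * ‖g x‖ ^ 2) := (hg.norm.integrable_sq).const_mul _
    refine hgi.mono' ?_ ?_
    · exact (((hc'm n).sub hcm).pow 2).mul (hg.1.norm.pow 2)
    · filter_upwards [hc, hc' n] with x h1 h2
      rw [Real.norm_eq_abs, abs_of_nonneg (by positivity)]
      refine mul_le_mul_of_nonneg_right ?_ (by positivity)
      rw [← sq_abs]
      refine pow_le_pow_left₀ (abs_nonneg _) ?_ 2
      calc |c' n x - c x| ≤ |c' n x| + |c x| := abs_sub _ _
        _ ≤ 2 * C := by linarith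
  have hT : Tendsto (fun n => ∫ x, (c' n x - c x) ^ 2 * ‖g x‖ ^ 2) atTop (𝓝 0) := by
    have hgi : Integrable (fun x => (2 * C) ^ 2 * ‖g x‖ ^ 2) := (hg.norm.integrable_sq).const_mul _
    have h0 : ∫ x, (0 : ℝ) ∂(volume : Measure E) = 0 := by simp
    rw [← h0]
    refine tendsto_integral_of_dominated_convergence (fun x => (2 * C) ^ 2 * ‖g x‖ ^ 2)
      (fun n => (i2 n).1) hgi ?_ ?_
    · intro n
      filter_upwards [hc, hc' n] with x h1 h2
      rw [Real.norm_eq_abs, abs_of_nonneg (by positivity)]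
      refine mul_le_mul_of_nonneg_right ?_ (by positivity)
      rw [← sq_abs]
      refine pow_le_pow_left₀ (abs_nonneg _) ?_ 2
      calc |c' n x - c x| ≤ |c' n x| + |c x| := abs_sub _ _
        _ ≤ 2 * C := by linarith
    · filter_upwards [hlim] with x hx
      have h1 : Tendsto (fun n => (c' n x - c x) ^ 2 * ‖g x‖ ^ 2) atTop
          (𝓝 ((c x - c x) ^ 2 * ‖g x‖ ^ 2)) := ((hx.sub_const _).pow 2).mul_const _
      simpa using h1
  have hsum : Tendsto (fun n => 2 * C ^ 2 * (∫ x, ‖G n x - g x‖ ^ 2) +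
      2 * ∫ x, (c' n x - c x) ^ 2 * ‖g x‖ ^ 2) atTop (𝓝 0) := by
    have := (hGg.const_mul (2 * C ^ 2)).add (hT.const_mul 2)
    simpa using this
  refine squeeze_zero (fun n => integral_nonneg fun x => by positivity) (fun n => ?_) hsum
  rw [← integral_const_mul, ← integral_const_mul, ← integral_add ((i1 n).const_mul _)
    ((i2 n).const_mul _)]
  refine integral_mono_of_nonneg (Eventually.of_forall fun x => by positivity)
    (((i1 n).const_mul _).add ((i2 n).const_mul _)) ?_
  filter_upwards [hc' n] with x h2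
  have e1 : c' n x • G n x - c x • g x = c' n x • (G n x - g x) + (c' n x - c x) • g x := by
    rw [smul_sub, sub_smul]; abel
  have e2 : ‖c' n x • G n x - c x • g x‖ ≤ C * ‖G n x - g x‖ + |c' n x - c x| * ‖g x‖ := by
    rw [e1]
    refine (norm_add_le _ _).trans ?_
    rw [norm_smul, norm_smul, Real.norm_eq_abs, Real.norm_eq_abs]
    gcongr
  have e3 : ‖c' n x • G n x - c x • g x‖ ^ 2 ≤
      (C * ‖G n x - g x‖ + |c' n x - c x| * ‖g x‖) ^ 2 := pow_le_pow_left₀ (norm_nonneg _) e2 2
  have e4 : (c' n x - c x) ^ 2 = |c' n x - c x| ^ 2 := (sq_abs _).symm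
  show ‖c' n x • G n x - c x • g x‖ ^ 2 ≤ 2 * C ^ 2 * ‖G n x - g x‖ ^ 2 +
    2 * ((c' n x - c x) ^ 2 * ‖g x‖ ^ 2)
  rw [e4]
  nlinarith [sq_nonneg (C * ‖G n x - g x‖ - |c' n x - c x| * ‖g x‖)]

theorem lip_of_deriv {θ : ℝ → ℝ} (hθ : Differentiable ℝ θ) {C : ℝ} (hC : ∀ s, |deriv θ s| ≤ C)
    (a b : ℝ) : |θ a - θ b| ≤ C * |a - b| := by
  have := Convex.norm_image_sub_le_of_norm_deriv_le (f := θ) (s := univ) (C := C) (x := b) (y := a)
    (fun x _ => hθ x) (fun x _ => by rw [Real.norm_eq_abs]; exact hC x) convex_univ (mem_univ _)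
    (mem_univ _)
  rwa [Real.norm_eq_abs, Real.norm_eq_abs] at this

end C3

open C3

theorem chain : ChainStmt := by
  intro Ω u hu θ hθ h0 hC
  obtain ⟨C, hC⟩ := hC
  have hC0 : 0 ≤ C := (abs_nonneg _).trans (hC 0)
  have hdθ : Differentiable ℝ θ := hθ.differentiable (by simp)
  have hcd : Continuous (deriv θ) := hθ.continuous_deriv (by simp)
  obtain ⟨φ, hφ, hlim, hae⟩ := exists_test_seq_ae hu
  have hf : MemLp (fun x => θ (fn u x)) 2 volume := by
    refine MemLp.of_le_mul (c := C) (memLp_fn u)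
      (hθ.continuous.comp_aestronglyMeasurable (memLp_fn u).1) (Eventually.of_forall fun x => ?_)
    have := lip_of_deriv hdθ hC (fn u x) 0
    rw [h0, sub_zero, sub_zero] at this
    exact this
  have hgm : AEStronglyMeasurable (fun x => deriv θ (fn u x)) volume :=
    hcd.comp_aestronglyMeasurable (memLp_fn u).1
  have hg : MemLp (fun x => deriv θ (fn u x) • gr u x) 2 volume := by
    refine MemLp.of_le_mul (c := C) (memLp_gr u) (hgm.smul (memLp_gr u).1)
      (Eventually.of_forall fun x => ?_)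
    rw [norm_smul]
    exact mul_le_mul_of_nonneg_right (hC _) (norm_nonneg _)
  obtain ⟨w, hw1, hw2⟩ := exists_BB hf hg
  refine ⟨w, ?_, hw1, hw2⟩
  obtain ⟨i1, i2⟩ := integrals_of_tendsto hlim
  have htest : ∀ n, IsTest Ω (fun x => θ (φ n x)) := fun n => test_comp (hφ n) hθ h0
  refine mem_of_integrals (u := fun n => tb (fun x => θ (φ n x))) (fun n => tb_mem (htest n)) ?_ ?_
  · refine squeeze_zero (fun n => integral_nonneg fun x => by positivity) (fun n => ?_)
      (by simpa using i1.const_mul (C ^ 2))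
    rw [← integral_const_mul]
    refine integral_mono_of_nonneg (Eventually.of_forall fun x => by positivity)
      ((integrable_sub_sq _ _).const_mul _) ?_
    filter_upwards [(rep_tb (htest n)).1, (rep_tb (hφ n)).1, hw1] with x h1 h2 h3
    rw [h1, h2, h3, ← sq_abs, ← sq_abs (φ n x - fn u x), ← mul_pow]
    exact pow_le_pow_left₀ (abs_nonneg _) (lip_of_deriv hdθ hC _ _) 2
  · have hT := tendsto_mult (gr u) (memLp_gr u) (fun n => gr (tb (φ n))) (fun n => memLp_gr _)
      (fun x => deriv θ (fn u x)) (fun n x => deriv θ (φ n x)) C hgm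
      (fun n => (hcd.comp (hφ n).smooth.continuous).aestronglyMeasurable)
      (Eventually.of_forall fun x => hC _) (fun n => Eventually.of_forall fun x => hC _)
      (by filter_upwards [hae] with x hx
          exact (hcd.tendsto _).comp hx) i2
    refine hT.congr (fun n => ?_)
    refine integral_congr_ae ?_
    filter_upwards [(rep_tb (htest n)).2, (rep_tb (hφ n)).2, hw2] with x h1 h2 h3
    rw [h1, h2, h3, gradient_comp hdθ (test_diff (hφ n) x)]

theorem cut : CutStmt := by
  intro Ω W u hu ψ hψ hC1 hC2 hW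
  obtain ⟨C1, hC1⟩ := hC1
  obtain ⟨C2, hC2⟩ := hC2
  have hC10 : 0 ≤ C1 := (abs_nonneg _).trans (hC1 0)
  have hC20 : 0 ≤ C2 := (norm_nonneg _).trans (hC2 0)
  have hgc : Continuous (gradient ψ) :=
    (LinearIsometryEquiv.continuous _).comp (hψ.continuous_fderiv (by simp))
  obtain ⟨φ, hφ, hlim, hae⟩ := exists_test_seq_ae hu
  have hf : MemLp (fun x => ψ x * fn u x) 2 volume := by
    refine MemLp.of_le_mul (c := C1) (memLp_fn u)
      (hψ.continuous.aestronglyMeasurable.mul (memLp_fn u).1) (Eventually.of_forall fun x => ?_)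
    rw [norm_mul]
    exact mul_le_mul_of_nonneg_right (hC1 _) (norm_nonneg _)
  have hg1 : MemLp (fun x => ψ x • gr u x) 2 volume := by
    refine MemLp.of_le_mul (c := C1) (memLp_gr u)
      (hψ.continuous.aestronglyMeasurable.smul (memLp_gr u).1) (Eventually.of_forall fun x => ?_)
    rw [norm_smul]
    exact mul_le_mul_of_nonneg_right (hC1 _) (norm_nonneg _)
  have hg2 : MemLp (fun x => fn u x • gradient ψ x) 2 volume := by
    refine MemLp.of_le_mul (c := C2) (memLp_fn u)
      ((memLp_fn u).1.smul hgc.aestronglyMeasurable) (Eventually.of_forall fun x => ?_)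
    rw [norm_smul, mul_comm]
    exact mul_le_mul_of_nonneg_right (hC2 _) (norm_nonneg _)
  obtain ⟨w, hw1, hw2⟩ := exists_BB hf (hg1.add hg2)
  refine ⟨w, ?_, hw1, hw2⟩
  obtain ⟨i1, i2⟩ := integrals_of_tendsto hlim
  have htest : ∀ n, IsTest (Ω ∩ W) (fun x => ψ x * φ n x) := fun n => test_mul (hφ n) hψ hW
  refine mem_of_integrals (u := fun n => tb (fun x => ψ x * φ n x)) (fun n => tb_mem (htest n)) ?_ ?_
  · refine squeeze_zero (fun n => integral_nonneg fun x => by positivity) (fun n => ?_)
      (by simpa using i1.const_mul (C1 ^ 2))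
    rw [← integral_const_mul]
    refine integral_mono_of_nonneg (Eventually.of_forall fun x => by positivity)
      ((integrable_sub_sq _ _).const_mul _) ?_
    filter_upwards [(rep_tb (htest n)).1, (rep_tb (hφ n)).1, hw1] with x h1 h2 h3
    rw [h1, h2, h3, ← mul_sub, mul_pow]
    refine mul_le_mul_of_nonneg_right ?_ (by positivity)
    rw [← sq_abs]
    exact pow_le_pow_left₀ (abs_nonneg _) (hC1 x) 2
  · have hsum : Tendsto (fun n => 2 * C1 ^ 2 * (∫ x, ‖gr (tb (φ n)) x - gr u x‖ ^ 2) +
        2 * C2 ^ 2 * ∫ x, (fn (tb (φ n)) x - fn u x) ^ 2) atTop (𝓝 0) := by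
      have := (i2.const_mul (2 * C1 ^ 2)).add (i1.const_mul (2 * C2 ^ 2))
      simpa using this
    refine squeeze_zero (fun n => integral_nonneg fun x => by positivity) (fun n => ?_) hsum
    rw [← integral_const_mul, ← integral_const_mul,
      ← integral_add ((integrable_gr_sub_sq _ _).const_mul _) ((integrable_sub_sq _ _).const_mul _)]
    refine integral_mono_of_nonneg (Eventually.of_forall fun x => by positivity)
      (((integrable_gr_sub_sq _ _).const_mul _).add ((integrable_sub_sq _ _).const_mul _)) ?_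
    filter_upwards [(rep_tb (htest n)).2, (rep_tb (hφ n)).1, (rep_tb (hφ n)).2, hw2]
      with x h1 h2 h3 h4
    rw [h1, h2, h3, h4, gradient_mul (hψ.differentiable (by simp) x) (test_diff (hφ n) x)]
    have e1 : ψ x • gradient (φ n) x + φ n x • gradient ψ x -
        (ψ x • gr u x + fn u x • gradient ψ x) =
        ψ x • (gradient (φ n) x - gr u x) + (φ n x - fn u x) • gradient ψ x := by
      rw [smul_sub, sub_smul]; abel
    have e2 : ‖ψ x • (gradient (φ n) x - gr u x) + (φ n x - fn u x) • gradient ψ x‖ ≤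
        C1 * ‖gradient (φ n) x - gr u x‖ + |φ n x - fn u x| * C2 := by
      refine (norm_add_le _ _).trans ?_
      rw [norm_smul, norm_smul]
      refine add_le_add (mul_le_mul_of_nonneg_right (hC1 x) (norm_nonneg _)) ?_
      exact mul_le_mul_of_nonneg_left (hC2 x) (norm_nonneg _)
    have e3 : (φ n x - fn u x) ^ 2 = |φ n x - fn u x| ^ 2 := (sq_abs _).symm
    show ‖ψ x • gradient (φ n) x + φ n x • gradient ψ x -
        (ψ x • gr u x + fn u x • gradient ψ x)‖ ^ 2 ≤
      2 * C1 ^ 2 * ‖gradient (φ n) x - gr u x‖ ^ 2 + 2 * C2 ^ 2 * (φ n x - fn u x) ^ 2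
    rw [e1, e3]
    refine (pow_le_pow_left₀ (norm_nonneg _) e2 2).trans ?_
    nlinarith [sq_nonneg (C1 * ‖gradient (φ n) x - gr u x‖ - |φ n x - fn u x| * C2)]

namespace C3

/-- `s ↦ s · st(k s)` -/
noncomputable def th (k : ℝ) (s : ℝ) : ℝ := s * Real.smoothTransition (k * s)

theorem contDiff_th (k : ℝ) : ContDiff ℝ ∞ (th k) := by
  unfold th
  exact contDiff_id.mul (Real.smoothTransition.contDiff.comp (contDiff_const.mul contDiff_id))

theorem diff_st (s : ℝ) : DifferentiableAt ℝ Real.smoothTransition s :=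
  (Real.smoothTransition.contDiff (n := 1)).differentiable (by simp) s

theorem deriv_th (k s : ℝ) : deriv (th k) s =
    Real.smoothTransition (k * s) + (k * s) * deriv Real.smoothTransition (k * s) := by
  have h1 : HasDerivAt (fun s : ℝ => Real.smoothTransition (k * s))
      (deriv Real.smoothTransition (k * s) * k) s := by
    have h2 : HasDerivAt (fun s : ℝ => k * s) k s := by
      simpa using (hasDerivAt_id s).const_mul k
    exact (diff_st (k * s)).hasDerivAt.comp s h2
  have h3 := (hasDerivAt_id s).mul h1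
  have h4 : HasDerivAt (th k) (1 * Real.smoothTransition (k * s) +
      id s * (deriv Real.smoothTransition (k * s) * k)) s := h3
  rw [h4.deriv]
  simp only [id]
  ring

theorem st_deriv_neg {s : ℝ} (hs : s < 0) : deriv Real.smoothTransition s = 0 := by
  have h1 : Real.smoothTransition =ᶠ[𝓝 s] fun _ => 0 := by
    filter_upwards [gt_mem_nhds hs] with x hx
    exact Real.smoothTransition.zero_of_nonpos hx.le
  rw [h1.deriv_eq]
  simp

theorem st_deriv_one {s : ℝ} (hs : 1 < s) : deriv Real.smoothTransition s = 0 := by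
  have h1 : Real.smoothTransition =ᶠ[𝓝 s] fun _ => 1 := by
    filter_upwards [lt_mem_nhds hs] with x hx
    exact Real.smoothTransition.one_of_one_le hx.le
  rw [h1.deriv_eq]
  simp

theorem st_bound : ∃ C : ℝ, ∀ s : ℝ,
    |Real.smoothTransition s + s * deriv Real.smoothTransition s| ≤ C := by
  have hc : Continuous (fun s : ℝ => Real.smoothTransition s +
      s * deriv Real.smoothTransition s) := by
    have h1 : Continuous (deriv Real.smoothTransition) :=
      (Real.smoothTransition.contDiff (n := 1)).continuous_deriv (by simp)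
    exact Real.smoothTransition.continuous.add (continuous_id.mul h1)
  obtain ⟨C, hC⟩ := (isCompact_Icc (a := (-1 : ℝ)) (b := 2)).exists_bound_of_continuousOn
    hc.continuousOn
  refine ⟨max C 1, fun s => ?_⟩
  rcases lt_or_ge s 0 with h | h
  · rw [st_deriv_neg h, Real.smoothTransition.zero_of_nonpos h.le]
    simp
  · rcases lt_or_ge 1 s with h' | h'
    · rw [st_deriv_one h', Real.smoothTransition.one_of_one_le h'.le]
      simp
    · refine le_trans ?_ (le_max_left _ _)
      exact hC s ⟨by linarith, by linarith⟩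

end C3

theorem posPart : PosPartStmt := by
  intro Ω u hu
  obtain ⟨C, hC⟩ := st_bound
  have hC0 : 0 ≤ C := (abs_nonneg _).trans (hC 0)
  have hk : ∀ n : ℕ, ∃ w ∈ V Ω, fn w =ᵐ[volume] (fun x => th (n : ℝ) (fn u x)) ∧
      gr w =ᵐ[volume] (fun x => deriv (th (n : ℝ)) (fn u x) • gr u x) := by
    intro n
    refine chain Ω u hu (th n) (contDiff_th n) (by simp [th]) ⟨C, fun s => ?_⟩
    rw [deriv_th]
    exact hC _
  choose w hw hw1 hw2 using hk
  have hf : MemLp (fun x => max (fn u x) 0) 2 volume := by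
    have h1 := memLp_fn u
    refine MemLp.of_le_mul (c := 1) h1
      ((continuous_id.max continuous_const).comp_aestronglyMeasurable h1.1)
      (Eventually.of_forall fun x => ?_)
    rw [one_mul, Real.norm_eq_abs, Real.norm_eq_abs, abs_of_nonneg (le_max_right _ _)]
    exact max_le (le_abs_self _) (abs_nonneg _)
  have hcm : AEStronglyMeasurable (fun x => if 0 < fn u x then (1 : ℝ) else 0) volume := by
    have hs : NullMeasurableSet {x | 0 < fn u x} volume :=
      nullMeasurableSet_lt aemeasurable_const (memLp_fn u).1.aemeasurable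
    have h2 : AEMeasurable (fun x => if 0 < fn u x then (1 : ℝ) else 0) volume := by
      have h3 : (fun x => if 0 < fn u x then (1 : ℝ) else 0) =
          (fun s : ℝ => if 0 < s then (1 : ℝ) else 0) ∘ (fn u) := rfl
      rw [h3]
      exact (Measurable.ite measurableSet_Ioi measurable_const measurable_const).comp_aemeasurable
        (memLp_fn u).1.aemeasurable
    exact h2.aestronglyMeasurable
  have hg : MemLp (fun x => if 0 < fn u x then gr u x else 0) 2 volume := by
    have h1 : (fun x => if 0 < fn u x then gr u x else 0) =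
        fun x => (if 0 < fn u x then (1 : ℝ) else 0) • gr u x := by
      ext1 x
      split_ifs <;> simp
    rw [h1]
    refine MemLp.of_le_mul (c := 1) (memLp_gr u) (hcm.smul (memLp_gr u).1)
      (Eventually.of_forall fun x => ?_)
    rw [norm_smul]
    split_ifs <;> simp
  obtain ⟨v, hv1, hv2⟩ := exists_BB hf hg
  refine ⟨v, ?_, hv1, hv2⟩
  have hcont : Continuous (deriv Real.smoothTransition) :=
    (Real.smoothTransition.contDiff (n := 1)).continuous_deriv (by simp)
  have hlim1 : ∀ s : ℝ, Tendsto (fun n : ℕ => deriv (th (n : ℝ)) s) atTop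
      (𝓝 (if 0 < s then (1 : ℝ) else 0)) := by
    intro s
    simp only [deriv_th]
    split_ifs with h
    · refine tendsto_const_nhds.congr' ?_
      obtain ⟨N, hN⟩ := exists_nat_gt (1 / s)
      filter_upwards [eventually_ge_atTop N] with n hn
      have h1 : 1 < (n : ℝ) * s := by
        rw [div_lt_iff₀ h] at hN
        have : (N : ℝ) ≤ n := by exact_mod_cast hn
        nlinarith
      rw [st_deriv_one h1, Real.smoothTransition.one_of_one_le h1.le]
      simp
    · refine tendsto_const_nhds.congr (fun n => ?_)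
      rw [not_lt] at h
      have h1 : (n : ℝ) * s ≤ 0 := mul_nonpos_of_nonneg_of_nonpos (by positivity) h
      rw [Real.smoothTransition.zero_of_nonpos h1]
      rcases h1.lt_or_eq with h2 | h2
      · rw [st_deriv_neg h2]; simp
      · rw [h2]; simp
  have hlim0 : ∀ s : ℝ, Tendsto (fun n : ℕ => Real.smoothTransition ((n : ℝ) * s)) atTop
      (𝓝 (if 0 < s then (1 : ℝ) else 0)) := by
    intro s
    split_ifs with h
    · refine tendsto_const_nhds.congr' ?_
      obtain ⟨N, hN⟩ := exists_nat_gt (1 / s)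
      filter_upwards [eventually_ge_atTop N] with n hn
      have h1 : 1 < (n : ℝ) * s := by
        rw [div_lt_iff₀ h] at hN
        have : (N : ℝ) ≤ n := by exact_mod_cast hn
        nlinarith
      rw [Real.smoothTransition.one_of_one_le h1.le]
    · refine tendsto_const_nhds.congr (fun n => ?_)
      rw [not_lt] at h
      have h1 : (n : ℝ) * s ≤ 0 := mul_nonpos_of_nonneg_of_nonpos (by positivity) h
      rw [Real.smoothTransition.zero_of_nonpos h1]
  refine mem_of_integrals (u := w) hw ?_ ?_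
  · have hT := tendsto_mult (fn u) (memLp_fn u) (fun _ => fn u) (fun n => memLp_fn _)
      (fun x => if 0 < fn u x then (1 : ℝ) else 0)
      (fun n x => Real.smoothTransition ((n : ℝ) * fn u x)) 1 hcm
      (fun n => (Real.smoothTransition.continuous.comp
        (continuous_const.mul continuous_id)).comp_aestronglyMeasurable (memLp_fn u).1)
      (Eventually.of_forall fun x => by split_ifs <;> simp)
      (fun n => Eventually.of_forall fun x => by
        rw [abs_of_nonneg (Real.smoothTransition.nonneg _)]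
        exact Real.smoothTransition.le_one _)
      (Eventually.of_forall fun x => hlim0 _) (by simp)
    refine hT.congr (fun n => ?_)
    refine integral_congr_ae ?_
    filter_upwards [hw1 n, hv1] with x h1 h2
    rw [h1, h2, Real.norm_eq_abs, sq_abs, smul_eq_mul, smul_eq_mul]
    unfold th
    rw [mul_comm (fn u x) (Real.smoothTransition _)]
    congr 2
    split_ifs with h
    · rw [max_eq_left h.le, one_mul]
    · rw [max_eq_right (not_lt.1 h), zero_mul]
  · have hT := tendsto_mult (gr u) (memLp_gr u) (fun _ => gr u) (fun n => memLp_gr _)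
      (fun x => if 0 < fn u x then (1 : ℝ) else 0)
      (fun n x => deriv (th (n : ℝ)) (fn u x)) (max C 1) hcm
      (fun n => ((contDiff_th n).continuous_deriv (by simp)).comp_aestronglyMeasurable
        (memLp_fn u).1)
      (Eventually.of_forall fun x => by split_ifs <;> simp)
      (fun n => Eventually.of_forall fun x => by
        rw [deriv_th]
        exact (hC _).trans (le_max_left _ _))
      (Eventually.of_forall fun x => hlim1 _) (by simp)
    refine hT.congr (fun n => ?_)
    refine integral_congr_ae ?_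
    filter_upwards [hw2 n, hv2] with x h1 h2
    rw [h1, h2]
    congr 3
    split_ifs <;> simp

end Pool.Agent.H92.BN
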