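import Pool.Agent.H92.BN.Api

/-!
# Module C4: `‖z‖₂ ≤ C ‖ρ‖₁` for `-Δz = ρ`, `z ∈ V Ω`

Test with `arctan (2 Θ(z))`, where `Θ(s) = sinh (arsinh s / 3)` is the inverse of
`s = 3 Θ + 4 Θ³`; then `Θ'² = (arctan (2 Θ))' / 6`, hence the Dirichlet integral of `Θ(z)` is
at most `(π/12) ‖ρ‖₁`, and `z² ≤ 49 + 49 Θ(z)⁶`.
-/

set_option autoImplicit false

namespace Pool.Agent.H92.BN

open MeasureTheory Set Filter Topology
open scoped ContDiff InnerProductSpace

/-- the truncation function -/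
noncomputable def th3 (s : ℝ) : ℝ := Real.sinh (Real.arsinh s / 3)

theorem th3_cubic (s : ℝ) : s = 3 * th3 s + 4 * th3 s ^ 3 := by
  have h := Real.sinh_three_mul (Real.arsinh s / 3)
  have h2 : 3 * (Real.arsinh s / 3) = Real.arsinh s := by ring
  rw [h2, Real.sinh_arsinh] at h
  unfold th3
  linarith

theorem th3_zero : th3 0 = 0 := by
  unfold th3; simp

theorem contDiff_th3 : ContDiff ℝ ∞ th3 := by
  unfold th3
  exact Real.contDiff_sinh.comp (Real.contDiff_arsinh.div_const 3)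

theorem hasDerivAt_th3 (s : ℝ) : HasDerivAt th3 (1 / (3 * (1 + 4 * th3 s ^ 2))) s := by
  have hd : DifferentiableAt ℝ th3 s := contDiff_th3.differentiable (by simp) s
  have h1 : HasDerivAt th3 (deriv th3 s) s := hd.hasDerivAt
  have h2 : HasDerivAt (fun x => 3 * th3 x + 4 * th3 x ^ 3)
      (3 * deriv th3 s + 4 * ((3 : ℕ) * th3 s ^ (3 - 1) * deriv th3 s)) s :=
    (h1.const_mul 3).add ((h1.pow 3).const_mul 4)
  have h3 : (fun x => 3 * th3 x + 4 * th3 x ^ 3) = fun x => x := by
    ext x; exact (th3_cubic x).symm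
  rw [h3] at h2
  have h4 := h2.unique (hasDerivAt_id' s)
  have h5 : deriv th3 s = 1 / (3 * (1 + 4 * th3 s ^ 2)) := by
    have : 0 < 3 * (1 + 4 * th3 s ^ 2) := by positivity
    rw [eq_div_iff this.ne']
    push_cast at h4
    linarith
  rw [← h5]; exact h1

/-- the bounded test function -/
noncomputable def at3 (s : ℝ) : ℝ := Real.arctan (2 * th3 s)

theorem at3_zero : at3 0 = 0 := by
  unfold at3; simp [th3_zero]

theorem contDiff_at3 : ContDiff ℝ ∞ at3 := by
  unfold at3
  exact Real.contDiff_arctan.comp (contDiff_const.mul contDiff_th3)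

theorem hasDerivAt_at3 (s : ℝ) : HasDerivAt at3 (2 / (3 * (1 + 4 * th3 s ^ 2) ^ 2)) s := by
  have h := ((hasDerivAt_th3 s).const_mul 2).arctan
  have e : 2 / (3 * (1 + 4 * th3 s ^ 2) ^ 2) =
      1 / (1 + (2 * th3 s) ^ 2) * (2 * (1 / (3 * (1 + 4 * th3 s ^ 2)))) := by
    have e4 : (2 * th3 s) ^ 2 = 4 * th3 s ^ 2 := by ring
    rw [e4]
    have : 0 < 1 + 4 * th3 s ^ 2 := by positivity
    field_simp
  rw [e]
  exact h

theorem deriv_sq_eq (s : ℝ) : deriv th3 s ^ 2 = (1 / 6) * deriv at3 s := by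
  rw [(hasDerivAt_th3 s).deriv, (hasDerivAt_at3 s).deriv]
  have : 0 < 1 + 4 * th3 s ^ 2 := by positivity
  field_simp
  norm_num

theorem sq_le_th3 (s : ℝ) : s ^ 2 ≤ 49 + 49 * th3 s ^ 6 := by
  have h := th3_cubic s
  set T := th3 s
  rw [h]
  have e : (3 * T + 4 * T ^ 3) ^ 2 = T ^ 2 * (3 + 4 * T ^ 2) ^ 2 := by ring
  rw [e]
  set y := T ^ 2 with hy
  have hy0 : 0 ≤ y := by positivity
  have e2 : T ^ 6 = y ^ 3 := by rw [hy]; ring
  rw [e2]
  rcases le_total y 1 with h1 | h1
  · have : (3 + 4 * y) ^ 2 ≤ 49 := by nlinarith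
    have : y * (3 + 4 * y) ^ 2 ≤ 1 * 49 := by
      apply mul_le_mul h1 this (by positivity) (by norm_num)
    have : 0 ≤ y ^ 3 := by positivity
    linarith
  · have : (3 + 4 * y) ^ 2 ≤ 49 * y ^ 2 := by nlinarith
    have : y * (3 + 4 * y) ^ 2 ≤ y * (49 * y ^ 2) := mul_le_mul_of_nonneg_left this hy0
    have e3 : y * (49 * y ^ 2) = 49 * y ^ 3 := by ring
    linarith

theorem abs_at3_le (s : ℝ) : |at3 s| ≤ Real.pi / 2 := by
  unfold at3
  rw [abs_le]
  exact ⟨(Real.neg_pi_div_two_lt_arctan _).le, (Real.arctan_lt_pi_div_two _).le⟩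

theorem abs_deriv_th3_le (s : ℝ) : |deriv th3 s| ≤ 1 := by
  rw [(hasDerivAt_th3 s).deriv]
  have h : 0 ≤ th3 s ^ 2 := sq_nonneg _
  rw [abs_of_nonneg (by positivity), div_le_one (by positivity)]
  nlinarith

theorem abs_deriv_at3_le (s : ℝ) : |deriv at3 s| ≤ 1 := by
  rw [(hasDerivAt_at3 s).deriv]
  have h : 0 ≤ th3 s ^ 2 := sq_nonneg _
  rw [abs_of_nonneg (by positivity), div_le_one (by positivity)]
  nlinarith [sq_nonneg (th3 s ^ 2)]

/-- the estimate for `‖ρ‖₁ ≤ 1` -/
theorem l1l2_aux (hS : SobVStmt) (hC : ChainStmt) {Ω : Set E} {x0 : E} {R : ℝ}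
    (hB : Ω ⊆ Metric.closedBall x0 R) {z : BB} (hz : z ∈ V Ω) {ρ : E → ℝ}
    (hρ : Integrable ρ volume) (heq : ∀ η ∈ V Ω, dI z η = ∫ x, ρ x * fn η x)
    (h1 : (∫ x, |ρ x|) ≤ 1) :
    mI z z ≤ 49 * volume.real (Metric.closedBall x0 R) + 49 * (Real.pi / (12 * S0)) ^ 3 := by
  obtain ⟨w, hw, hwf, hwg⟩ := hC Ω z hz at3 contDiff_at3 at3_zero ⟨1, abs_deriv_at3_le⟩
  obtain ⟨T, hT, hTf, hTg⟩ := hC Ω z hz th3 contDiff_th3 th3_zero ⟨1, abs_deriv_th3_le⟩
  obtain ⟨S0pos, hSob⟩ := hS
  obtain ⟨hT6, hTS⟩ := hSob T (V_le_univ Ω hT)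
  -- Dirichlet integrals
  have e1 : dI T T = (1 / 6) * dI z w := by
    unfold dI
    rw [← integral_const_mul]
    refine integral_congr_ae ?_
    filter_upwards [hwg, hTg] with x hx hx'
    rw [hx, hx', real_inner_smul_left, real_inner_smul_right, real_inner_smul_right]
    have := deriv_sq_eq (fn z x)
    linear_combination (⟪gr z x, gr z x⟫_ℝ) * this
  have e2 : dI z w ≤ Real.pi / 2 := by
    rw [heq w hw]
    have i1 : Integrable (fun x => |ρ x| * (Real.pi / 2)) volume := hρ.abs.mul_const _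
    calc (∫ x, ρ x * fn w x) ≤ |∫ x, ρ x * fn w x| := le_abs_self _
      _ ≤ ∫ x, |ρ x * fn w x| := abs_integral_le_integral_abs
      _ ≤ ∫ x, |ρ x| * (Real.pi / 2) := by
          refine integral_mono_of_nonneg (Eventually.of_forall fun x => abs_nonneg _) i1 ?_
          filter_upwards [hwf] with x hx
          rw [abs_mul, hx]
          exact mul_le_mul_of_nonneg_left (abs_at3_le _) (abs_nonneg _)
      _ = (∫ x, |ρ x|) * (Real.pi / 2) := integral_mul_const _ _
      _ ≤ 1 * (Real.pi / 2) := by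
          apply mul_le_mul_of_nonneg_right h1 (by positivity)
      _ = Real.pi / 2 := one_mul _
  have e3 : S0 * (p6 T) ^ ((1 : ℝ) / 3) ≤ Real.pi / 12 := by
    refine hTS.trans ?_
    rw [e1]; linarith
  have p6nn : 0 ≤ p6 T := integral_nonneg fun x => by positivity
  have e4 : p6 T ≤ (Real.pi / (12 * S0)) ^ 3 := by
    have h3 : (p6 T) ^ ((1 : ℝ) / 3) ≤ Real.pi / (12 * S0) := by
      rw [le_div_iff₀ (by positivity)]
      linarith
    calc p6 T = ((p6 T) ^ ((1 : ℝ) / 3)) ^ 3 := by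
          rw [← Real.rpow_natCast, ← Real.rpow_mul p6nn]; norm_num
      _ ≤ _ := by
          apply pow_le_pow_left₀ (by positivity) h3
  -- comparison
  have hzB : z ∈ V (Metric.closedBall x0 R) := V_mono hB hz
  have hoff := ae_zero_off Metric.isClosed_closedBall.measurableSet hzB
  have i6 : Integrable (fun x => fn T x ^ 6) volume := by
    have := hT6.integrable_norm_pow (by norm_num)
    refine this.congr (Eventually.of_forall fun x => ?_)
    simp only [Real.norm_eq_abs]
    exact (Even.pow_abs (by decide) _)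
  have iB : Integrable ((Metric.closedBall x0 R).indicator (fun _ : E => (49 : ℝ))) volume := by
    rw [integrable_indicator_iff Metric.isClosed_closedBall.measurableSet]
    exact integrableOn_const (measure_closedBall_lt_top.ne)
  calc mI z z = ∫ x, fn z x * fn z x := rfl
    _ ≤ ∫ x, ((Metric.closedBall x0 R).indicator (fun _ : E => (49 : ℝ)) x + 49 * fn T x ^ 6) := by
        refine integral_mono_of_nonneg (Eventually.of_forall fun x => mul_self_nonneg _)
          (iB.add (i6.const_mul 49)) ?_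
        filter_upwards [hoff, hTf] with x hx hx'
        by_cases hxB : x ∈ Metric.closedBall x0 R
        · simp only [indicator_of_mem hxB]
          rw [hx', ← sq]
          exact sq_le_th3 _
        · have := (hx hxB).1
          simp only [indicator_of_notMem hxB]
          rw [hx', this, th3_zero]
          norm_num
    _ = (∫ x, (Metric.closedBall x0 R).indicator (fun _ : E => (49 : ℝ)) x) +
          ∫ x, 49 * fn T x ^ 6 := integral_add iB (i6.const_mul 49)
    _ = 49 * volume.real (Metric.closedBall x0 R) + 49 * p6 T := by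
        rw [integral_indicator Metric.isClosed_closedBall.measurableSet, integral_const_mul]
        simp [p6, mul_comm]
    _ ≤ _ := by linarith

/-- Module C4 -/
theorem l1l2 (hS : SobVStmt) (hC : ChainStmt) : L1L2Stmt := by
  intro Ω hΩ
  obtain ⟨R, hR⟩ := hΩ.subset_closedBall (0 : E)
  set K : ℝ := 49 * volume.real (Metric.closedBall (0 : E) R) + 49 * (Real.pi / (12 * S0)) ^ 3
    with hK
  have S0pos := hS.1
  have Kpos : 0 < K := by positivity
  refine ⟨K, Kpos, ?_⟩
  intro z hz ρ _ hρ heq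
  set N := ∫ x, |ρ x| with hN
  have N0 : 0 ≤ N := integral_nonneg fun x => abs_nonneg _
  have key : ∀ M : ℝ, N < M → mI z z ≤ K * M ^ 2 := by
    intro M hM
    have M0 : 0 < M := lt_of_le_of_lt N0 hM
    have h := l1l2_aux hS hC hR (z := (M⁻¹) • z) (Submodule.smul_mem _ _ hz)
      (ρ := fun x => M⁻¹ * ρ x) (hρ.const_mul _) ?_ ?_
    · rw [mI_smul_left, mI_smul_right] at h
      have e : M⁻¹ * (M⁻¹ * mI z z) = mI z z / M ^ 2 := by
        field_simp
      rw [e, div_le_iff₀ (by positivity)] at h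
      exact h
    · intro η hη
      rw [dI_smul_left, heq η hη, ← integral_const_mul]
      congr 1; ext x; ring
    · have : ∀ x, |M⁻¹ * ρ x| = M⁻¹ * |ρ x| := fun x => by
        rw [abs_mul, abs_of_pos (inv_pos.2 M0)]
      simp only [this, integral_const_mul]
      rw [← hN, inv_mul_le_iff₀ M0, mul_one]
      exact hM.le
  have hlim : Tendsto (fun M : ℝ => K * M ^ 2) (𝓝[>] N) (𝓝 (K * N ^ 2)) := by
    have : Continuous (fun M : ℝ => K * M ^ 2) := by fun_prop
    exact this.continuousAt.tendsto.mono_left nhdsWithin_le_nhds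
  refine ge_of_tendsto hlim ?_
  filter_upwards [self_mem_nhdsWithin] with M hM
  exact key M hM

end Pool.Agent.H92.BN
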