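import Pool.Agent.H92.BN.Iface

/-!
# Module C5, part b: Hölder and Minkowski for the exponent `6`
(helper49)
-/

set_option autoImplicit false

namespace Pool.Agent.H92.BN.C5

open MeasureTheory Set Filter Topology
open scoped ContDiff InnerProductSpace ENNReal

variable {α : Type*} [MeasurableSpace α] {μ : Measure α}

/-- the `L⁶` norm -/
noncomputable def n6 (μ : Measure α) (f : α → ℝ) : ℝ := (∫ x, f x ^ 6 ∂μ) ^ ((1 : ℝ) / 6)

theorem n6_nonneg (f : α → ℝ) : 0 ≤ n6 μ f :=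
  Real.rpow_nonneg (integral_nonneg fun x => by positivity) _

theorem n6_pow_six (f : α → ℝ) : n6 μ f ^ 6 = ∫ x, f x ^ 6 ∂μ := by
  have h : 0 ≤ ∫ x, f x ^ 6 ∂μ := integral_nonneg fun x => by positivity
  unfold n6
  rw [← Real.rpow_natCast, ← Real.rpow_mul h]
  norm_num

theorem rpow_third (f : α → ℝ) : (∫ x, f x ^ 6 ∂μ) ^ ((1 : ℝ) / 3) = n6 μ f ^ 2 := by
  have h : 0 ≤ ∫ x, f x ^ 6 ∂μ := integral_nonneg fun x => by positivity
  unfold n6
  rw [← Real.rpow_natCast, ← Real.rpow_mul h]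
  norm_num

theorem n6_eq_toReal {f : α → ℝ} (hf : MemLp f 6 μ) : n6 μ f = (eLpNorm f 6 μ).toReal := by
  rw [hf.eLpNorm_eq_integral_rpow_norm (by norm_num) (by norm_num), ENNReal.toReal_ofReal
    (Real.rpow_nonneg (integral_nonneg fun x => Real.rpow_nonneg (norm_nonneg _) _) _)]
  unfold n6
  have h6 : (6 : ℝ≥0∞).toReal = 6 := by norm_num
  rw [h6]
  have : (fun x => ‖f x‖ ^ (6 : ℝ)) = fun x => f x ^ 6 := by
    ext x
    rw [show (6 : ℝ) = ((6 : ℕ) : ℝ) by norm_num, Real.rpow_natCast, Real.norm_eq_abs]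
    exact Even.pow_abs (by decide) _
  rw [this, one_div]

theorem ofReal_n6 {f : α → ℝ} (hf : MemLp f 6 μ) : ENNReal.ofReal (n6 μ f) = eLpNorm f 6 μ := by
  rw [n6_eq_toReal hf, ENNReal.ofReal_toReal hf.eLpNorm_ne_top]

theorem n6_add_le {f g : α → ℝ} (hf : MemLp f 6 μ) (hg : MemLp g 6 μ) :
    n6 μ (fun x => f x + g x) ≤ n6 μ f + n6 μ g := by
  have e : n6 μ (fun x => f x + g x) = n6 μ (f + g) := rfl
  rw [e, n6_eq_toReal (hf.add hg), n6_eq_toReal hf, n6_eq_toReal hg,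
    ← ENNReal.toReal_add hf.eLpNorm_ne_top hg.eLpNorm_ne_top]
  exact ENNReal.toReal_mono (ENNReal.add_ne_top.2 ⟨hf.eLpNorm_ne_top, hg.eLpNorm_ne_top⟩)
    (eLpNorm_add_le hf.1 hg.1 (by norm_num))

theorem n6_mono {f g : α → ℝ} (hf : AEStronglyMeasurable f μ) (hg : MemLp g 6 μ)
    (h : ∀ᵐ x ∂μ, |f x| ≤ |g x|) : MemLp f 6 μ ∧ n6 μ f ≤ n6 μ g := by
  have hf' : MemLp f 6 μ := hg.mono hf (by simpa using h)
  refine ⟨hf', ?_⟩
  rw [n6_eq_toReal hf', n6_eq_toReal hg]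
  exact ENNReal.toReal_mono hg.eLpNorm_ne_top (eLpNorm_mono_ae (by simpa using h))

theorem n6_congr {f g : α → ℝ} (h : f =ᵐ[μ] g) : n6 μ f = n6 μ g := by
  unfold n6
  congr 1
  exact integral_congr_ae (h.mono fun x hx => by simp only [hx])

theorem n6_const_mul (c : ℝ) (f : α → ℝ) : n6 μ (fun x => c * f x) = |c| * n6 μ f := by
  have h : 0 ≤ ∫ x, f x ^ 6 ∂μ := integral_nonneg fun x => by positivity
  unfold n6
  simp only [mul_pow]
  rw [integral_const_mul, Real.mul_rpow (by positivity) h]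
  congr 1
  rw [← Even.pow_abs (by decide : Even 6) c, ← Real.rpow_natCast, ← Real.rpow_mul (abs_nonneg c)]
  norm_num

theorem n6_neg (f : α → ℝ) : n6 μ (fun x => - f x) = n6 μ f := by
  have := n6_const_mul (μ := μ) (-1) f
  simpa using this

theorem n6_sub_comm (f g : α → ℝ) : n6 μ (fun x => f x - g x) = n6 μ (fun x => g x - f x) := by
  rw [← n6_neg]
  simp

theorem n6_sub_le {f g : α → ℝ} (hf : MemLp f 6 μ) (hg : MemLp g 6 μ) :
    n6 μ (fun x => f x - g x) ≤ n6 μ f + n6 μ g := by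
  have := n6_add_le hf hg.neg
  have e : n6 μ (-g) = n6 μ g := n6_neg g
  rw [e] at this
  simpa [sub_eq_add_neg] using this

/-- reverse triangle inequality -/
theorem abs_n6_sub_le {f g : α → ℝ} (hf : MemLp f 6 μ) (hg : MemLp g 6 μ) :
    |n6 μ f - n6 μ g| ≤ n6 μ (fun x => f x - g x) := by
  have h1 := n6_add_le (hf.sub hg) hg
  have h2 := n6_add_le (hg.sub hf) hf
  simp only [Pi.sub_apply, sub_add_cancel] at h1 h2
  have h3 := n6_sub_comm (μ := μ) f g
  have e1 : n6 μ (f - g) = n6 μ (fun x => f x - g x) := rfl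
  have e2 : n6 μ (g - f) = n6 μ (fun x => g x - f x) := rfl
  rw [e1] at h1
  rw [e2] at h2
  rw [abs_le]
  constructor <;> linarith

theorem eLpNorm_six (f : α → ℝ) :
    eLpNorm f 6 μ = (∫⁻ x, ‖f x‖ₑ ^ (6 : ℝ) ∂μ) ^ ((1 : ℝ) / 6) := by
  rw [eLpNorm_eq_lintegral_rpow_enorm_toReal (by norm_num) (by norm_num)]
  norm_num

/-- Hölder's inequality with six factors in `L⁶` -/
theorem holder6 (f : Fin 6 → α → ℝ) (hf : ∀ i, MemLp (f i) 6 μ) :
    Integrable (fun x => ∏ i, f i x) μ ∧ (∫ x, ∏ i, |f i x| ∂μ) ≤ ∏ i, n6 μ (f i) := by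
  have hm : AEStronglyMeasurable (fun x => ∏ i, f i x) μ := by
    have := Finset.aestronglyMeasurable_fun_prod (μ := μ) (Finset.univ : Finset (Fin 6))
      (f := f) (fun i _ => (hf i).1)
    exact this
  have key : (∫⁻ x, ‖∏ i, f i x‖ₑ ∂μ) ≤ ∏ i, eLpNorm (f i) 6 μ := by
    have h := ENNReal.lintegral_prod_norm_pow_le (μ := μ) (Finset.univ : Finset (Fin 6))
      (f := fun i x => ‖f i x‖ₑ ^ (6 : ℝ)) (p := fun _ => (1 : ℝ) / 6)
      (fun i _ => (hf i).1.enorm.pow_const _) (by simp) (fun i _ => by norm_num)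
    refine le_trans (le_of_eq ?_) (h.trans (le_of_eq ?_))
    · refine lintegral_congr fun x => ?_
      rw [show ‖∏ i, f i x‖ₑ = ∏ i, ‖f i x‖ₑ by
        simp only [enorm_eq_nnnorm, nnnorm_prod, ENNReal.ofNNReal_finsetProd]]
      refine Finset.prod_congr rfl fun i _ => ?_
      rw [← ENNReal.rpow_mul]
      norm_num
    · exact Finset.prod_congr rfl fun i _ => (eLpNorm_six _).symm
  have hfin : (∏ i, eLpNorm (f i) 6 μ) ≠ ⊤ :=
    (ENNReal.prod_lt_top fun i _ => (hf i).eLpNorm_lt_top).ne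
  refine ⟨⟨hm, lt_of_le_of_lt key hfin.lt_top⟩, ?_⟩
  have e1 : (∫ x, ∏ i, |f i x| ∂μ) = (∫⁻ x, ‖∏ i, f i x‖ₑ ∂μ).toReal := by
    rw [← integral_norm_eq_lintegral_enorm hm]
    refine integral_congr_ae (Eventually.of_forall fun x => ?_)
    simp only [Real.norm_eq_abs, Finset.abs_prod]
  rw [e1]
  refine (ENNReal.toReal_mono hfin key).trans (le_of_eq ?_)
  rw [ENNReal.toReal_prod]
  exact Finset.prod_congr rfl fun i _ => (n6_eq_toReal (hf i)).symm

/-- Hölder for `a⁴ b c` -/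
theorem holder411 {a b c : α → ℝ} (ha : MemLp a 6 μ) (hb : MemLp b 6 μ) (hc : MemLp c 6 μ) :
    Integrable (fun x => a x ^ 4 * b x * c x) μ ∧
      (∫ x, |a x ^ 4 * b x * c x| ∂μ) ≤ n6 μ a ^ 4 * n6 μ b * n6 μ c := by
  have h := holder6 (μ := μ) ![a, a, a, a, b, c] (by
    intro i
    fin_cases i <;> simp [ha, hb, hc])
  simp only [Fin.prod_univ_six, Matrix.cons_val] at h
  refine ⟨h.1.congr (Eventually.of_forall fun x => by ring), le_trans (le_of_eq ?_)
    (h.2.trans (le_of_eq (by ring)))⟩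
  refine integral_congr_ae (Eventually.of_forall fun x => ?_)
  simp only [abs_mul, abs_pow]
  ring

/-- Hölder for `a⁵ b` -/
theorem holder51 {a b : α → ℝ} (ha : MemLp a 6 μ) (hb : MemLp b 6 μ) :
    Integrable (fun x => a x ^ 5 * b x) μ ∧
      (∫ x, |a x ^ 5 * b x| ∂μ) ≤ n6 μ a ^ 5 * n6 μ b := by
  have h := holder411 ha ha hb
  refine ⟨h.1.congr (Eventually.of_forall fun x => by ring), le_trans (le_of_eq ?_)
    (h.2.trans (le_of_eq (by ring)))⟩
  refine integral_congr_ae (Eventually.of_forall fun x => ?_)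
  simp only
  ring_nf

theorem integrable_pow_six {a : α → ℝ} (ha : MemLp a 6 μ) : Integrable (fun x => a x ^ 6) μ :=
  (holder51 ha ha).1.congr (Eventually.of_forall fun x => by ring)

theorem abs_int51_le {a b : α → ℝ} (ha : MemLp a 6 μ) (hb : MemLp b 6 μ) :
    |∫ x, a x ^ 5 * b x ∂μ| ≤ n6 μ a ^ 5 * n6 μ b :=
  (abs_integral_le_integral_abs).trans (holder51 ha hb).2

theorem integral_add5 {f1 f2 f3 f4 f5 : α → ℝ} (h1 : Integrable f1 μ) (h2 : Integrable f2 μ)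
    (h3 : Integrable f3 μ) (h4 : Integrable f4 μ) (h5 : Integrable f5 μ) :
    (∫ x, (f1 x + f2 x + f3 x + f4 x + f5 x) ∂μ) = (∫ x, f1 x ∂μ) + (∫ x, f2 x ∂μ) +
      (∫ x, f3 x ∂μ) + (∫ x, f4 x ∂μ) + ∫ x, f5 x ∂μ := by
  rw [integral_add (f := fun x => f1 x + f2 x + f3 x + f4 x) (((h1.add h2).add h3).add h4) h5,
    integral_add (f := fun x => f1 x + f2 x + f3 x) ((h1.add h2).add h3) h4,
    integral_add (f := fun x => f1 x + f2 x) (h1.add h2) h3, integral_add h1 h2]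

/-- Lipschitz estimate for `∫ u⁵ w` in `u` -/
theorem abs_int51_sub_le {a b c : α → ℝ} (ha : MemLp a 6 μ) (hb : MemLp b 6 μ)
    (hc : MemLp c 6 μ) {M : ℝ} (hMa : n6 μ a ≤ M) (hMb : n6 μ b ≤ M) :
    |(∫ x, a x ^ 5 * c x ∂μ) - ∫ x, b x ^ 5 * c x ∂μ| ≤
      5 * M ^ 4 * n6 μ (fun x => a x - b x) * n6 μ c := by
  have hM : 0 ≤ M := (n6_nonneg a).trans hMa
  have hab : MemLp (fun x => a x - b x) 6 μ := ha.sub hb
  rw [← integral_sub (holder51 ha hc).1 (holder51 hb hc).1]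
  have e : ∀ x, a x ^ 5 * c x - b x ^ 5 * c x =
      (∏ i, ![fun x => a x - b x, a, a, a, a, c] i x) + (∏ i, ![fun x => a x - b x, a, a, a, b, c] i x) +
      (∏ i, ![fun x => a x - b x, a, a, b, b, c] i x) + (∏ i, ![fun x => a x - b x, a, b, b, b, c] i x) +
      (∏ i, ![fun x => a x - b x, b, b, b, b, c] i x) := by
    intro x
    simp only [Fin.prod_univ_six, Matrix.cons_val]
    ring
  have h1 := holder6 (μ := μ) ![fun x => a x - b x, a, a, a, a, c] (by
    intro i; fin_cases i <;> simp [ha, hb, hc, hab])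
  have h2 := holder6 (μ := μ) ![fun x => a x - b x, a, a, a, b, c] (by
    intro i; fin_cases i <;> simp [ha, hb, hc, hab])
  have h3 := holder6 (μ := μ) ![fun x => a x - b x, a, a, b, b, c] (by
    intro i; fin_cases i <;> simp [ha, hb, hc, hab])
  have h4 := holder6 (μ := μ) ![fun x => a x - b x, a, b, b, b, c] (by
    intro i; fin_cases i <;> simp [ha, hb, hc, hab])
  have h5 := holder6 (μ := μ) ![fun x => a x - b x, b, b, b, b, c] (by
    intro i; fin_cases i <;> simp [ha, hb, hc, hab])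
  simp_rw [e]
  rw [integral_add5 h1.1 h2.1 h3.1 h4.1 h5.1]
  have g : ∀ (f : Fin 6 → α → ℝ), (∫ x, ∏ i, |f i x| ∂μ) ≤ ∏ i, n6 μ (f i) →
      |∫ x, ∏ i, f i x ∂μ| ≤ ∏ i, n6 μ (f i) := by
    intro f hf
    refine (abs_integral_le_integral_abs).trans (le_trans (le_of_eq ?_) hf)
    refine integral_congr_ae (Eventually.of_forall fun x => ?_)
    simp only [Finset.abs_prod]
  have k1 := g _ h1.2
  have k2 := g _ h2.2
  have k3 := g _ h3.2
  have k4 := g _ h4.2
  have k5 := g _ h5.2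
  simp only [Fin.prod_univ_six, Matrix.cons_val] at k1 k2 k3 k4 k5 ⊢
  have hA := n6_nonneg (μ := μ) a
  have hB := n6_nonneg (μ := μ) b
  have hC := n6_nonneg (μ := μ) c
  have hD := n6_nonneg (μ := μ) (fun x => a x - b x)
  have b1 : n6 μ a * n6 μ a * n6 μ a * n6 μ a ≤ M * M * M * M := by gcongr
  have b2 : n6 μ a * n6 μ a * n6 μ a * n6 μ b ≤ M * M * M * M := by gcongr
  have b3 : n6 μ a * n6 μ a * n6 μ b * n6 μ b ≤ M * M * M * M := by gcongr
  have b4 : n6 μ a * n6 μ b * n6 μ b * n6 μ b ≤ M * M * M * M := by gcongr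
  have b5 : n6 μ b * n6 μ b * n6 μ b * n6 μ b ≤ M * M * M * M := by gcongr
  have hDC : 0 ≤ n6 μ (fun x => a x - b x) * n6 μ c := mul_nonneg hD hC
  have c1 := mul_le_mul_of_nonneg_left b1 hDC
  have c2 := mul_le_mul_of_nonneg_left b2 hDC
  have c3 := mul_le_mul_of_nonneg_left b3 hDC
  have c4 := mul_le_mul_of_nonneg_left b4 hDC
  have c5 := mul_le_mul_of_nonneg_left b5 hDC
  refine (abs_add_le _ _).trans ?_
  refine (add_le_add_left (abs_add_le _ _) _).trans ?_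
  refine (add_le_add_left (add_le_add_left (abs_add_le _ _) _) _).trans ?_
  refine (add_le_add_left (add_le_add_left (add_le_add_left (abs_add_le _ _) _) _) _).trans ?_
  nlinarith [k1, k2, k3, k4, k5, c1, c2, c3, c4, c5]

end Pool.Agent.H92.BN.C5
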