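import Pool.Agent.H92.BN.MC5a
import Pool.Agent.H92.BN.MC5b

/-!
# Module C5: `SobVStmt` and the `L⁶` toolbox
(helper49)
-/

set_option autoImplicit false

namespace Pool.Agent.H92.BN.C5

open MeasureTheory Set Filter Topology
open scoped ContDiff InnerProductSpace ENNReal

/-! ### the space `V` -/

theorem isClosed_V (Ω : Set E) : IsClosed ((V Ω : Submodule ℝ BB) : Set BB) :=
  Submodule.isClosed_topologicalClosure _

theorem V0_le (Ω : Set E) : V0 Ω ≤ V Ω := Submodule.le_topologicalClosure _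

theorem V0_mono {Ω Ω' : Set E} (h : Ω ⊆ Ω') : V0 Ω ≤ V0 Ω' := by
  rintro b ⟨φ, hφ, hb⟩
  exact ⟨φ, hφ.mono h, hb⟩

theorem V_mono {Ω Ω' : Set E} (h : Ω ⊆ Ω') : V Ω ≤ V Ω' :=
  Submodule.topologicalClosure_mono (V0_mono h)

theorem V_le_univ (Ω : Set E) : V Ω ≤ V univ := V_mono (subset_univ Ω)

/-- closed sets containing the test functions contain `V Ω` -/
theorem V_subset_of_closed {Ω : Set E} {A : Set BB} (hA : IsClosed A)
    (h : ∀ b φ, IsTest Ω φ → Rep b φ → b ∈ A) {u : BB} (hu : u ∈ V Ω) : u ∈ A := by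
  have h1 : ((V Ω : Submodule ℝ BB) : Set BB) = closure (V0 Ω : Set BB) :=
    Submodule.topologicalClosure_coe _
  have h2 : u ∈ closure (V0 Ω : Set BB) := by rw [← h1]; exact hu
  exact closure_minimal (by rintro b ⟨φ, hφ, hb⟩; exact h b φ hφ hb) hA h2

/-- elements of `V Ω` are limits of test functions -/
theorem exists_seq {Ω : Set E} {u : BB} (hu : u ∈ V Ω) :
    ∃ (b : ℕ → BB) (φ : ℕ → E → ℝ), (∀ n, IsTest Ω (φ n)) ∧ (∀ n, Rep (b n) (φ n)) ∧
      (∀ n, b n ∈ V Ω) ∧ Tendsto b atTop (𝓝 u) := by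
  have h1 : ((V Ω : Submodule ℝ BB) : Set BB) = closure (V0 Ω : Set BB) :=
    Submodule.topologicalClosure_coe _
  have h2 : u ∈ closure (V0 Ω : Set BB) := by rw [← h1]; exact hu
  obtain ⟨b, hb, hlim⟩ := mem_closure_iff_seq_limit.1 h2
  choose φ hφ hr using hb
  exact ⟨b, φ, hφ, hr, fun n => V0_le Ω ⟨φ n, hφ n, hr n⟩, hlim⟩

/-- a.e. convergent subsequence of the function parts -/
theorem exists_subseq_ae {b : ℕ → BB} {u : BB} (h : Tendsto b atTop (𝓝 u)) :
    ∃ ns : ℕ → ℕ, StrictMono ns ∧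
      ∀ᵐ x ∂(volume : Measure E), Tendsto (fun k => fn (b (ns k)) x) atTop (𝓝 (fn u x)) := by
  have h1 : Tendsto (fun n => (b n).fst) atTop (𝓝 u.fst) :=
    (continuous_fst.tendsto u).comp h
  obtain ⟨ns, h2, h3⟩ := (tendstoInMeasure_of_tendsto_Lp h1).exists_seq_tendsto_ae
  exact ⟨ns, h2, h3⟩

theorem eLpNorm_le_of_sharp (hS : SobSharpStmt) {b : BB} {φ : E → ℝ} (hφ : IsTest univ φ)
    (hb : Rep b φ) : eLpNorm (fn b) 6 volume ≤ ENNReal.ofReal (√(dI b b / S0)) := by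
  have hS0 : 0 < S0 := mul_pos (by norm_num) (Real.rpow_pos_of_pos hS.1 _)
  have hm : MemLp φ 6 volume := hφ.smooth.continuous.memLp_of_hasCompactSupport hφ.cpt
  have h1 : S0 * (∫ x, φ x ^ 6) ^ ((1 : ℝ) / 3) ≤ dI b b := by
    rw [dI_congr hb.2 hb.2]
    refine (hS.2 φ hφ).trans (le_of_eq ?_)
    exact integral_congr_ae (Eventually.of_forall fun x => (real_inner_self_eq_norm_sq _).symm)
  rw [rpow_third] at h1
  rw [eLpNorm_congr_ae hb.1, ← ofReal_n6 hm]
  apply ENNReal.ofReal_le_ofReal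
  apply Real.le_sqrt_of_sq_le
  rw [le_div_iff₀ hS0, mul_comm]
  exact h1

/-- **Module C5** -/
theorem sobV (hS : SobSharpStmt) : SobVStmt := by
  have hS0 : 0 < S0 := mul_pos (by norm_num) (Real.rpow_pos_of_pos hS.1 _)
  refine ⟨hS0, fun u hu => ?_⟩
  obtain ⟨b, φ, hφ, hr, hbV, hlim⟩ := exists_seq hu
  obtain ⟨ns, hns, hae⟩ := exists_subseq_ae hlim
  have h1 : eLpNorm (fn u) 6 volume ≤
      liminf (fun k => eLpNorm (fn (b (ns k))) 6 volume) atTop :=
    Lp.eLpNorm_lim_le_liminf_eLpNorm (fun k => (memLp_fn _).1) (fn u) hae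
  have h2 : Tendsto (fun k => ENNReal.ofReal (√(dI (b (ns k)) (b (ns k)) / S0))) atTop
      (𝓝 (ENNReal.ofReal (√(dI u u / S0)))) := by
    apply ENNReal.tendsto_ofReal
    have h3 : Tendsto (fun k => b (ns k)) atTop (𝓝 u) := hlim.comp hns.tendsto_atTop
    have h4 : Continuous (fun v : BB => √(dI v v / S0)) :=
      Real.continuous_sqrt.comp ((continuous_dI.comp (continuous_id.prodMk continuous_id)).div_const _)
    exact (h4.tendsto u).comp h3
  have h5 : eLpNorm (fn u) 6 volume ≤ ENNReal.ofReal (√(dI u u / S0)) := by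
    refine h1.trans ?_
    rw [← h2.liminf_eq]
    exact liminf_le_liminf (Eventually.of_forall fun k => eLpNorm_le_of_sharp hS (hφ _) (hr _))
  have hm : MemLp (fn u) 6 volume := ⟨(memLp_fn u).1, lt_of_le_of_lt h5 ENNReal.ofReal_lt_top⟩
  refine ⟨hm, ?_⟩
  unfold p6
  rw [rpow_third, mul_comm, ← le_div_iff₀ hS0]
  rw [← ofReal_n6 hm, ENNReal.ofReal_le_ofReal_iff (Real.sqrt_nonneg _)] at h5
  calc n6 volume (fn u) ^ 2 ≤ √(dI u u / S0) ^ 2 := pow_le_pow_left₀ (n6_nonneg _) h5 2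
    _ = _ := Real.sq_sqrt (div_nonneg (dI_nonneg u) hS0.le)

/-! ### toolbox on `V univ` (all consequences of `SobVStmt`) -/

/-- the `L⁶` norm of an element of `V` -/
noncomputable def nn (u : BB) : ℝ := n6 volume (fn u)

theorem nn_nonneg (u : BB) : 0 ≤ nn u := n6_nonneg _

theorem p6_eq (u : BB) : p6 u = nn u ^ 6 := (n6_pow_six _).symm

theorem p6_nonneg (u : BB) : 0 ≤ p6 u := integral_nonneg fun x => by positivity

theorem p6_rpow (u : BB) : p6 u ^ ((1 : ℝ) / 3) = nn u ^ 2 := rpow_third _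

theorem nn_of_p6 {u : BB} (h : p6 u = 1) : nn u = 1 := by
  rw [p6_eq] at h
  exact (pow_eq_one_iff_of_nonneg (nn_nonneg u) (by norm_num)).1 h

theorem nn_smul (c : ℝ) (u : BB) : nn (c • u) = |c| * nn u := by
  unfold nn
  rw [n6_congr (fn_smul c u)]
  exact n6_const_mul c _

theorem nn_neg (u : BB) : nn (-u) = nn u := by
  have := nn_smul (-1) u
  simpa using this

theorem p6_smul (c : ℝ) (u : BB) : p6 (c • u) = c ^ 6 * p6 u := by
  rw [p6_eq, p6_eq, nn_smul, mul_pow, Even.pow_abs (by decide)]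

theorem p6_neg (u : BB) : p6 (-u) = p6 u := by
  rw [p6_eq, p6_eq, nn_neg]

theorem pp_smul {c : ℝ} (hc : 0 ≤ c) (u : BB) : pp (c • u) = c ^ 6 * pp u := by
  rw [pp_congr (fn_smul c u)]
  unfold pp
  rw [← integral_const_mul]
  refine integral_congr_ae (Eventually.of_forall fun x => ?_)
  simp only [Pi.smul_apply, smul_eq_mul]
  rw [← mul_pow, mul_max_of_nonneg _ _ hc, mul_zero]

theorem p5_smul_left (c : ℝ) (u v : BB) : p5 (c • u) v = c ^ 5 * p5 u v := by
  rw [p5_congr (fn_smul c u) (EventuallyEq.refl _ _)]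
  unfold p5
  rw [← integral_const_mul]
  refine integral_congr_ae (Eventually.of_forall fun x => ?_)
  simp only [Pi.smul_apply, smul_eq_mul]
  ring

theorem p5_smul_right (c : ℝ) (u v : BB) : p5 u (c • v) = c * p5 u v := by
  rw [p5_congr (EventuallyEq.refl _ _) (fn_smul c v)]
  unfold p5
  rw [← integral_const_mul]
  refine integral_congr_ae (Eventually.of_forall fun x => ?_)
  simp only [Pi.smul_apply, smul_eq_mul]
  ring

theorem p5_neg_right (u v : BB) : p5 u (-v) = -p5 u v := by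
  have := p5_smul_right (-1) u v
  simpa using this

theorem p5_zero_right (u : BB) : p5 u 0 = 0 := by
  have := p5_smul_right 0 u 0
  simpa using this

theorem p5_self (u : BB) : p5 u u = p6 u :=
  integral_congr_ae (Eventually.of_forall fun x => by simp only; ring)

/-- `L⁶` norm of the positive part -/
theorem pp_eq (u : BB) : pp u = n6 volume (fun x => max (fn u x) 0) ^ 6 := (n6_pow_six _).symm

theorem pp_nonneg (u : BB) : 0 ≤ pp u := integral_nonneg fun x => by positivity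

section
variable (hS : SobVStmt)
include hS

theorem memLp6 {u : BB} (hu : u ∈ V univ) : MemLp (fn u) 6 volume := (hS.2 u hu).1

theorem S0_pos : 0 < S0 := hS.1

/-- Sobolev inequality -/
theorem sob {u : BB} (hu : u ∈ V univ) : S0 * nn u ^ 2 ≤ dI u u := by
  rw [← p6_rpow]; exact (hS.2 u hu).2

theorem nn_le {u : BB} (hu : u ∈ V univ) : nn u ≤ √(dI u u / S0) := by
  apply Real.le_sqrt_of_sq_le
  rw [le_div_iff₀ hS.1, mul_comm]
  exact sob hS hu

theorem nn_le_norm {u : BB} (hu : u ∈ V univ) : nn u ≤ (√S0)⁻¹ * ‖u‖ := by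
  refine (nn_le hS hu).trans ?_
  rw [Real.sqrt_div (dI_nonneg u), div_eq_inv_mul]
  apply mul_le_mul_of_nonneg_left _ (inv_nonneg.2 (Real.sqrt_nonneg _))
  exact Real.sqrt_le_iff.2 ⟨norm_nonneg _, dI_le_norm_sq u⟩

theorem nn_add_le {u v : BB} (hu : u ∈ V univ) (hv : v ∈ V univ) : nn (u + v) ≤ nn u + nn v := by
  unfold nn
  rw [n6_congr (fn_add u v)]
  exact n6_add_le (memLp6 hS hu) (memLp6 hS hv)

theorem nn_sub_le {u v : BB} (hu : u ∈ V univ) (hv : v ∈ V univ) : nn (u - v) ≤ nn u + nn v := by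
  unfold nn
  rw [n6_congr (fn_sub u v)]
  exact n6_sub_le (memLp6 hS hu) (memLp6 hS hv)

theorem abs_nn_sub_le {u v : BB} (hu : u ∈ V univ) (hv : v ∈ V univ) :
    |nn u - nn v| ≤ nn (u - v) := by
  unfold nn
  rw [n6_congr (fn_sub u v)]
  exact abs_n6_sub_le (memLp6 hS hu) (memLp6 hS hv)

theorem integrable_p5 {u v : BB} (hu : u ∈ V univ) (hv : v ∈ V univ) :
    Integrable (fun x => fn u x ^ 5 * fn v x) volume :=
  (holder51 (memLp6 hS hu) (memLp6 hS hv)).1

theorem integrable_p6 {u : BB} (hu : u ∈ V univ) :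
    Integrable (fun x => fn u x ^ 6) volume := integrable_pow_six (memLp6 hS hu)

/-- Hölder -/
theorem abs_p5_le {u v : BB} (hu : u ∈ V univ) (hv : v ∈ V univ) :
    |p5 u v| ≤ nn u ^ 5 * nn v := abs_int51_le (memLp6 hS hu) (memLp6 hS hv)

theorem p5_le {u v : BB} (hu : u ∈ V univ) (hv : v ∈ V univ) :
    p5 u v ≤ nn u ^ 5 * nn v := (le_abs_self _).trans (abs_p5_le hS hu hv)

theorem p5_add_right {u v w : BB} (hu : u ∈ V univ) (hv : v ∈ V univ) (hw : w ∈ V univ) :
    p5 u (v + w) = p5 u v + p5 u w := by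
  rw [p5_congr (EventuallyEq.refl _ _) (fn_add v w)]
  unfold p5
  rw [← integral_add (integrable_p5 hS hu hv) (integrable_p5 hS hu hw)]
  refine integral_congr_ae (Eventually.of_forall fun x => ?_)
  simp only [Pi.add_apply]
  ring

theorem p5_sub_right {u v w : BB} (hu : u ∈ V univ) (hv : v ∈ V univ) (hw : w ∈ V univ) :
    p5 u (v - w) = p5 u v - p5 u w := by
  rw [sub_eq_add_neg, p5_add_right hS hu hv ((V univ).neg_mem hw), p5_neg_right, sub_eq_add_neg]

/-- Lipschitz estimate of `p5` in the first variable -/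
theorem abs_p5_sub_le {u v w : BB} (hu : u ∈ V univ) (hv : v ∈ V univ) (hw : w ∈ V univ)
    {M : ℝ} (h1 : nn u ≤ M) (h2 : nn v ≤ M) :
    |p5 u w - p5 v w| ≤ 5 * M ^ 4 * nn (u - v) * nn w := by
  have := abs_int51_sub_le (memLp6 hS hu) (memLp6 hS hv) (memLp6 hS hw) h1 h2
  unfold nn
  rw [n6_congr (fn_sub u v)]
  exact this

/-- **key inequality (B0)** -/
theorem key {u ζ : BB} (hu : u ∈ V univ) (hζ : ζ ∈ V univ) (h1 : p6 u = 1) :
    S0 * (1 + 2 * p5 u ζ) ≤ dI (u + ζ) (u + ζ) := by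
  have h2 := sob hS ((V univ).add_mem hu hζ)
  have h3 := p5_le hS hu ((V univ).add_mem hu hζ)
  rw [p5_add_right hS hu hu hζ, p5_self, h1, nn_of_p6 h1, one_pow, one_mul] at h3
  have h4 : 1 + 2 * p5 u ζ ≤ nn (u + ζ) ^ 2 := by
    have := nn_nonneg (u + ζ)
    by_cases h : 0 ≤ 1 + p5 u ζ
    · nlinarith [sq_nonneg (p5 u ζ), mul_self_nonneg (p5 u ζ)]
    · nlinarith [sq_nonneg (nn (u + ζ))]
  exact (mul_le_mul_of_nonneg_left h4 hS.1.le).trans h2

/-- (B0) in expanded form: with `D = dI u u - S0`,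
`-2 (dI u ζ - S0 p5 u ζ) - dI ζ ζ ≤ D` -/
theorem key' {u ζ : BB} (hu : u ∈ V univ) (hζ : ζ ∈ V univ) (h1 : p6 u = 1) :
    - 2 * (dI u ζ - S0 * p5 u ζ) - dI ζ ζ ≤ dI u u - S0 := by
  have h := key hS hu hζ h1
  rw [dI_add_left, dI_add_right, dI_add_right, dI_comm ζ u] at h
  linarith

/-- two-sided form of (B0) used for upper bounds at `u + ζ`:
`dI (u+ζ) (u+ζ) - S0 p6(u+ζ)^{1/3} ≤ (dI u u - S0) + 2 (dI u ζ - S0 p5 u ζ) + dI ζ ζ` -/
theorem key_upper {u ζ : BB} (hu : u ∈ V univ) (hζ : ζ ∈ V univ) (h1 : p6 u = 1) :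
    dI (u + ζ) (u + ζ) - S0 * p6 (u + ζ) ^ ((1 : ℝ) / 3) ≤
      (dI u u - S0) + 2 * (dI u ζ - S0 * p5 u ζ) + dI ζ ζ := by
  have h3 := p5_le hS hu ((V univ).add_mem hu hζ)
  rw [p5_add_right hS hu hu hζ, p5_self, h1, nn_of_p6 h1, one_pow, one_mul] at h3
  have h4 : 1 + 2 * p5 u ζ ≤ nn (u + ζ) ^ 2 := by
    have := nn_nonneg (u + ζ)
    by_cases h : 0 ≤ 1 + p5 u ζ
    · nlinarith [sq_nonneg (p5 u ζ), mul_self_nonneg (p5 u ζ)]
    · nlinarith [sq_nonneg (nn (u + ζ))]
  have h5 := mul_le_mul_of_nonneg_left h4 hS.1.le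
  rw [p6_rpow, dI_add_left, dI_add_right, dI_add_right, dI_comm ζ u]
  linarith

/-- `D ≥ 0` -/
theorem D_nonneg {u : BB} (hu : u ∈ V univ) (h1 : p6 u = 1) : S0 ≤ dI u u := by
  have := sob hS hu
  rw [nn_of_p6 h1] at this
  linarith

/-- Euler–Lagrange inequality: `(dI u ζ - S0 p5 u ζ)² ≤ D · dI ζ ζ` -/
theorem el_sq {u ζ : BB} (hu : u ∈ V univ) (hζ : ζ ∈ V univ) (h1 : p6 u = 1) :
    (dI u ζ - S0 * p5 u ζ) ^ 2 ≤ (dI u u - S0) * dI ζ ζ := by
  have h : ∀ s : ℝ, 0 ≤ dI ζ ζ * (s * s) + (2 * (dI u ζ - S0 * p5 u ζ)) * s + (dI u u - S0) := by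
    intro s
    have := key' hS hu ((V univ).smul_mem s hζ) h1
    rw [dI_smul_right, p5_smul_right, dI_smul_left, dI_smul_right] at this
    linarith
  have hd := discrim_le_zero h
  unfold discrim at hd
  nlinarith

theorem el_abs {u ζ : BB} (hu : u ∈ V univ) (hζ : ζ ∈ V univ) (h1 : p6 u = 1) :
    |dI u ζ - S0 * p5 u ζ| ≤ √(dI u u - S0) * √(dI ζ ζ) := by
  rw [← Real.sqrt_mul (sub_nonneg.2 (D_nonneg hS hu h1))]
  exact Real.abs_le_sqrt (el_sq hS hu hζ h1)

/-! ### continuity -/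

theorem continuousOn_nn : ContinuousOn nn (V univ : Set BB) := by
  have hL : LipschitzOnWith (Real.toNNReal (√S0)⁻¹) nn (V univ : Set BB) := by
    apply LipschitzOnWith.of_dist_le_mul
    intro x hx y hy
    rw [Real.dist_eq, dist_eq_norm, Real.coe_toNNReal _ (inv_nonneg.2 (Real.sqrt_nonneg _))]
    exact (abs_nn_sub_le hS hx hy).trans (nn_le_norm hS ((V univ).sub_mem hx hy))
  exact hL.continuousOn

theorem continuousOn_p6 : ContinuousOn p6 (V univ : Set BB) := by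
  have : p6 = fun u => nn u ^ 6 := funext p6_eq
  rw [this]
  exact (continuousOn_nn hS).pow 6

theorem continuousOn_p5 :
    ContinuousOn (fun z : BB × BB => p5 z.1 z.2) ((V univ : Set BB) ×ˢ (V univ : Set BB)) := by
  rintro ⟨u, v⟩ ⟨hu, hv⟩
  rw [ContinuousWithinAt, tendsto_iff_norm_sub_tendsto_zero]
  have hu' : u ∈ V univ := hu
  have hv' : v ∈ V univ := hv
  have h1 : Tendsto (fun z : BB × BB => 5 * (nn u + nn z.1) ^ 4 * ((√S0)⁻¹ * ‖z.1 - u‖) * nn z.2 +
      nn u ^ 5 * ((√S0)⁻¹ * ‖z.2 - v‖)) (𝓝[(V univ : Set BB) ×ˢ (V univ : Set BB)] (u, v))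
      (𝓝 (5 * (nn u + nn u) ^ 4 * ((√S0)⁻¹ * ‖u - u‖) * nn v + nn u ^ 5 * ((√S0)⁻¹ * ‖v - v‖))) := by
    have a1 : Tendsto (fun z : BB × BB => nn z.1)
        (𝓝[(V univ : Set BB) ×ˢ (V univ : Set BB)] (u, v)) (𝓝 (nn u)) := by
      have : ContinuousWithinAt (nn ∘ Prod.fst) ((V univ : Set BB) ×ˢ (V univ : Set BB)) (u, v) :=
        ((continuousOn_nn hS) u hu).comp continuousWithinAt_fst (fun z hz => hz.1)
      exact this
    have a2 : Tendsto (fun z : BB × BB => nn z.2)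
        (𝓝[(V univ : Set BB) ×ˢ (V univ : Set BB)] (u, v)) (𝓝 (nn v)) := by
      have : ContinuousWithinAt (nn ∘ Prod.snd) ((V univ : Set BB) ×ˢ (V univ : Set BB)) (u, v) :=
        ((continuousOn_nn hS) v hv).comp continuousWithinAt_snd (fun z hz => hz.2)
      exact this
    have a3 : Tendsto (fun z : BB × BB => ‖z.1 - u‖)
        (𝓝[(V univ : Set BB) ×ˢ (V univ : Set BB)] (u, v)) (𝓝 ‖u - u‖) :=
      ((((_root_.continuous_fst).sub continuous_const).norm).tendsto (u, v)).mono_left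
        nhdsWithin_le_nhds
    have a4 : Tendsto (fun z : BB × BB => ‖z.2 - v‖)
        (𝓝[(V univ : Set BB) ×ˢ (V univ : Set BB)] (u, v)) (𝓝 ‖v - v‖) :=
      ((((_root_.continuous_snd).sub continuous_const).norm).tendsto (u, v)).mono_left
        nhdsWithin_le_nhds
    exact ((((tendsto_const_nhds.add a1).pow 4).const_mul 5).mul (a3.const_mul _) |>.mul a2).add
      ((a4.const_mul _).const_mul _)
  simp only [sub_self, norm_zero, mul_zero, zero_mul, add_zero] at h1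
  refine squeeze_zero' (Eventually.of_forall fun z => norm_nonneg _) ?_ h1
  filter_upwards [self_mem_nhdsWithin] with z hz
  have hz1 : z.1 ∈ V univ := hz.1
  have hz2 : z.2 ∈ V univ := hz.2
  have e : p5 z.1 z.2 - p5 u v = (p5 z.1 z.2 - p5 u z.2) + p5 u (z.2 - v) := by
    rw [p5_sub_right hS hu' hz2 hv']; ring
  rw [Real.norm_eq_abs, e]
  refine (abs_add_le _ _).trans (add_le_add ?_ ?_)
  · refine (abs_p5_sub_le hS hz1 hu' hz2 (M := nn u + nn z.1) ?_ ?_).trans ?_
    · have := nn_nonneg u; linarith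
    · have := nn_nonneg z.1; linarith
    · have h3 := nn_le_norm hS ((V univ).sub_mem hz1 hu')
      have h4 := nn_nonneg u
      have h5 := nn_nonneg z.1
      have h6 := nn_nonneg z.2
      gcongr
  · refine (abs_p5_le hS hu' ((V univ).sub_mem hz2 hv')).trans ?_
    have h3 := nn_le_norm hS ((V univ).sub_mem hz2 hv')
    have h4 := nn_nonneg u
    gcongr

theorem memLp6_pos {u : BB} (hu : u ∈ V univ) : MemLp (fun x => max (fn u x) 0) 6 volume := by
  refine (memLp6 hS hu).mono ((memLp_fn u).1.sup aestronglyMeasurable_const) ?_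
  refine Eventually.of_forall fun x => ?_
  simp only [Real.norm_eq_abs]
  rcases le_total (fn u x) 0 with h | h
  · rw [max_eq_right h]; simp
  · rw [max_eq_left h]

theorem continuousOn_pp : ContinuousOn pp (V univ : Set BB) := by
  have e : pp = fun u => n6 volume (fun x => max (fn u x) 0) ^ 6 :=
    funext fun u => pp_eq u
  rw [e]
  refine ContinuousOn.pow ?_ 6
  have hL : LipschitzOnWith (Real.toNNReal (√S0)⁻¹)
      (fun u => n6 volume (fun x => max (fn u x) 0)) (V univ : Set BB) := by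
    apply LipschitzOnWith.of_dist_le_mul
    intro x hx y hy
    rw [Real.dist_eq, dist_eq_norm, Real.coe_toNNReal _ (inv_nonneg.2 (Real.sqrt_nonneg _))]
    refine (abs_n6_sub_le (memLp6_pos hS hx) (memLp6_pos hS hy)).trans ?_
    have h1 : n6 volume (fun z => max (fn x z) 0 - max (fn y z) 0) ≤
        n6 volume (fun z => fn x z - fn y z) := by
      refine (n6_mono ((memLp6_pos hS hx).sub (memLp6_pos hS hy)).1
        ((memLp6 hS hx).sub (memLp6 hS hy)) (Eventually.of_forall fun z => ?_)).2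
      exact (abs_max_sub_max_le_abs _ _ _)
    refine h1.trans ?_
    have h2 : n6 volume (fun z => fn x z - fn y z) = nn (x - y) :=
      (n6_congr (fn_sub x y)).symm
    rw [h2]
    exact nn_le_norm hS ((V univ).sub_mem hx hy)
  exact hL.continuousOn

/-- `p6 u = pp u + pp (-u)` -/
theorem pp_add_pp_neg {u : BB} (hu : u ∈ V univ) : pp u + pp (-u) = p6 u := by
  have h1 : pp (-u) = ∫ x, (max (-fn u x) 0) ^ 6 := pp_congr (fn_neg u)
  have h2 := integrable_pow_six (memLp6_pos hS hu)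
  have h3 : Integrable (fun x => (max (-fn u x) 0) ^ 6) volume := by
    refine (integrable_pow_six (memLp6_pos hS ((V univ).neg_mem hu))).congr ?_
    filter_upwards [fn_neg u] with x hx
    rw [hx]
    simp
  rw [h1]
  unfold pp p6
  rw [← integral_add h2 h3]
  refine integral_congr_ae (Eventually.of_forall fun x => ?_)
  simp only
  rcases le_total (fn u x) 0 with h | h
  · rw [max_eq_right h, max_eq_left (by linarith)]; ring
  · rw [max_eq_left h, max_eq_right (by linarith)]; ring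

end

end Pool.Agent.H92.BN.C5
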