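import Pool.Agent.H92.BN.Iface

/-!
# Module C5, part a: the forms `dI`, `mI` as inner products
(helper49)
-/

set_option autoImplicit false

namespace Pool.Agent.H92.BN.C5

open MeasureTheory Set Filter Topology
open scoped ContDiff InnerProductSpace

theorem dI_eq (u v : BB) : dI u v = ⟪u.snd, v.snd⟫_ℝ := (L2.inner_def _ _).symm

theorem mI_eq (u v : BB) : mI u v = ⟪u.fst, v.fst⟫_ℝ := by
  rw [L2.inner_def]
  exact integral_congr_ae (Eventually.of_forall fun x => by simp [fn, mul_comm])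

theorem dI_comm (u v : BB) : dI u v = dI v u := by rw [dI_eq, dI_eq, real_inner_comm]
theorem mI_comm (u v : BB) : mI u v = mI v u := by rw [mI_eq, mI_eq, real_inner_comm]

theorem dI_add_left (u v w : BB) : dI (u + v) w = dI u w + dI v w := by
  simp only [dI_eq, WithLp.add_snd, inner_add_left]
theorem dI_add_right (u v w : BB) : dI w (u + v) = dI w u + dI w v := by
  simp only [dI_eq, WithLp.add_snd, inner_add_right]
theorem mI_add_left (u v w : BB) : mI (u + v) w = mI u w + mI v w := by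
  simp only [mI_eq, WithLp.add_fst, inner_add_left]
theorem mI_add_right (u v w : BB) : mI w (u + v) = mI w u + mI w v := by
  simp only [mI_eq, WithLp.add_fst, inner_add_right]

theorem dI_sub_left (u v w : BB) : dI (u - v) w = dI u w - dI v w := by
  simp only [dI_eq, WithLp.sub_snd, inner_sub_left]
theorem dI_sub_right (u v w : BB) : dI w (u - v) = dI w u - dI w v := by
  simp only [dI_eq, WithLp.sub_snd, inner_sub_right]
theorem mI_sub_left (u v w : BB) : mI (u - v) w = mI u w - mI v w := by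
  simp only [mI_eq, WithLp.sub_fst, inner_sub_left]
theorem mI_sub_right (u v w : BB) : mI w (u - v) = mI w u - mI w v := by
  simp only [mI_eq, WithLp.sub_fst, inner_sub_right]

theorem dI_neg_left (u w : BB) : dI (-u) w = -dI u w := by
  simp only [dI_eq, WithLp.neg_snd, inner_neg_left]
theorem dI_neg_right (u w : BB) : dI w (-u) = -dI w u := by
  simp only [dI_eq, WithLp.neg_snd, inner_neg_right]
theorem mI_neg_left (u w : BB) : mI (-u) w = -mI u w := by
  simp only [mI_eq, WithLp.neg_fst, inner_neg_left]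
theorem mI_neg_right (u w : BB) : mI w (-u) = -mI w u := by
  simp only [mI_eq, WithLp.neg_fst, inner_neg_right]

theorem dI_smul_left (c : ℝ) (u w : BB) : dI (c • u) w = c * dI u w := by
  simp only [dI_eq, WithLp.smul_snd, real_inner_smul_left]
theorem dI_smul_right (c : ℝ) (u w : BB) : dI w (c • u) = c * dI w u := by
  simp only [dI_eq, WithLp.smul_snd, real_inner_smul_right]
theorem mI_smul_left (c : ℝ) (u w : BB) : mI (c • u) w = c * mI u w := by
  simp only [mI_eq, WithLp.smul_fst, real_inner_smul_left]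
theorem mI_smul_right (c : ℝ) (u w : BB) : mI w (c • u) = c * mI w u := by
  simp only [mI_eq, WithLp.smul_fst, real_inner_smul_right]

@[simp] theorem dI_zero_left (w : BB) : dI 0 w = 0 := by simp [dI_eq]
@[simp] theorem dI_zero_right (w : BB) : dI w 0 = 0 := by simp [dI_eq]
@[simp] theorem mI_zero_left (w : BB) : mI 0 w = 0 := by simp [mI_eq]
@[simp] theorem mI_zero_right (w : BB) : mI w 0 = 0 := by simp [mI_eq]

theorem dI_self (u : BB) : dI u u = ‖u.snd‖ ^ 2 := by rw [dI_eq, real_inner_self_eq_norm_sq]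
theorem mI_self (u : BB) : mI u u = ‖u.fst‖ ^ 2 := by rw [mI_eq, real_inner_self_eq_norm_sq]

theorem dI_nonneg (u : BB) : 0 ≤ dI u u := by rw [dI_self]; positivity
theorem mI_nonneg (u : BB) : 0 ≤ mI u u := by rw [mI_self]; positivity

/-- `‖u‖² = ∫u² + ∫|∇u|²` -/
theorem norm_sq (u : BB) : ‖u‖ ^ 2 = mI u u + dI u u := by
  rw [mI_self, dI_self, WithLp.prod_norm_sq_eq_of_L2]

theorem dI_le_norm_sq (u : BB) : dI u u ≤ ‖u‖ ^ 2 := by
  have := mI_nonneg u; rw [norm_sq]; linarith
theorem mI_le_norm_sq (u : BB) : mI u u ≤ ‖u‖ ^ 2 := by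
  have := dI_nonneg u; rw [norm_sq]; linarith

theorem abs_dI_le (u v : BB) : |dI u v| ≤ √(dI u u) * √(dI v v) := by
  rw [dI_self, dI_self, Real.sqrt_sq (norm_nonneg _), Real.sqrt_sq (norm_nonneg _), dI_eq]
  exact abs_real_inner_le_norm _ _
theorem abs_mI_le (u v : BB) : |mI u v| ≤ √(mI u u) * √(mI v v) := by
  rw [mI_self, mI_self, Real.sqrt_sq (norm_nonneg _), Real.sqrt_sq (norm_nonneg _), mI_eq]
  exact abs_real_inner_le_norm _ _

theorem dI_sq_le (u v : BB) : dI u v ^ 2 ≤ dI u u * dI v v := by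
  have h := abs_dI_le u v
  rw [← Real.sqrt_mul (dI_nonneg u)] at h
  calc dI u v ^ 2 = |dI u v| ^ 2 := (sq_abs _).symm
    _ ≤ (√(dI u u * dI v v)) ^ 2 := pow_le_pow_left₀ (abs_nonneg _) h 2
    _ = _ := Real.sq_sqrt (mul_nonneg (dI_nonneg u) (dI_nonneg v))
theorem mI_sq_le (u v : BB) : mI u v ^ 2 ≤ mI u u * mI v v := by
  have h := abs_mI_le u v
  rw [← Real.sqrt_mul (mI_nonneg u)] at h
  calc mI u v ^ 2 = |mI u v| ^ 2 := (sq_abs _).symm
    _ ≤ (√(mI u u * mI v v)) ^ 2 := pow_le_pow_left₀ (abs_nonneg _) h 2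
    _ = _ := Real.sq_sqrt (mul_nonneg (mI_nonneg u) (mI_nonneg v))

theorem abs_dI_le_norm (u v : BB) : |dI u v| ≤ ‖u‖ * ‖v‖ := by
  refine (abs_dI_le u v).trans (mul_le_mul ?_ ?_ (Real.sqrt_nonneg _) (norm_nonneg _))
  · exact Real.sqrt_le_iff.2 ⟨norm_nonneg _, dI_le_norm_sq u⟩
  · exact Real.sqrt_le_iff.2 ⟨norm_nonneg _, dI_le_norm_sq v⟩
theorem abs_mI_le_norm (u v : BB) : |mI u v| ≤ ‖u‖ * ‖v‖ := by
  refine (abs_mI_le u v).trans (mul_le_mul ?_ ?_ (Real.sqrt_nonneg _) (norm_nonneg _))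
  · exact Real.sqrt_le_iff.2 ⟨norm_nonneg _, mI_le_norm_sq u⟩
  · exact Real.sqrt_le_iff.2 ⟨norm_nonneg _, mI_le_norm_sq v⟩

theorem continuous_fst : Continuous (fun u : BB => u.fst) := WithLp.prod_continuous_ofLp _ _ _ |>.fst
theorem continuous_snd : Continuous (fun u : BB => u.snd) := WithLp.prod_continuous_ofLp _ _ _ |>.snd

theorem continuous_dI : Continuous (fun z : BB × BB => dI z.1 z.2) := by
  simp only [dI_eq]
  exact (continuous_snd.comp _root_.continuous_fst).inner (continuous_snd.comp _root_.continuous_snd)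
theorem continuous_mI : Continuous (fun z : BB × BB => mI z.1 z.2) := by
  simp only [mI_eq]
  exact (continuous_fst.comp _root_.continuous_fst).inner (continuous_fst.comp _root_.continuous_snd)

/-! ### congruence -/

theorem dI_congr {u v : BB} {F G : E → E} (hu : gr u =ᵐ[volume] F) (hv : gr v =ᵐ[volume] G) :
    dI u v = ∫ x, ⟪F x, G x⟫_ℝ := by
  apply integral_congr_ae
  filter_upwards [hu, hv] with x h1 h2
  simp only [h1, h2]
theorem mI_congr {u v : BB} {f g : E → ℝ} (hu : fn u =ᵐ[volume] f) (hv : fn v =ᵐ[volume] g) :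
    mI u v = ∫ x, f x * g x := by
  apply integral_congr_ae
  filter_upwards [hu, hv] with x h1 h2
  simp only [h1, h2]
theorem p6_congr {u : BB} {f : E → ℝ} (hu : fn u =ᵐ[volume] f) :
    p6 u = ∫ x, f x ^ 6 := by
  apply integral_congr_ae
  filter_upwards [hu] with x h1
  simp only [h1]
theorem pp_congr {u : BB} {f : E → ℝ} (hu : fn u =ᵐ[volume] f) :
    pp u = ∫ x, (max (f x) 0) ^ 6 := by
  apply integral_congr_ae
  filter_upwards [hu] with x h1
  simp only [h1]
theorem p5_congr {u v : BB} {f g : E → ℝ} (hu : fn u =ᵐ[volume] f) (hv : fn v =ᵐ[volume] g) :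
    p5 u v = ∫ x, f x ^ 5 * g x := by
  apply integral_congr_ae
  filter_upwards [hu, hv] with x h1 h2
  simp only [h1, h2]

end Pool.Agent.H92.BN.C5
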