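import Pool.Agent.H92.BN.Iface

/-!
# Module D1: the strong maximum principle (Hopf)
-/

set_option autoImplicit false

namespace Pool.Agent.H92.BN

open MeasureTheory Set Filter Topology
open scoped ContDiff InnerProductSpace

namespace MD1

/-- second derivative test, necessary condition -/
theorem deriv2_nonneg {g : ℝ → ℝ} {t : ℝ} (hmin : IsLocalMin g t) (hc : ContinuousAt g t) :
    0 ≤ deriv (deriv g) t := by
  by_contra hneg
  push Not at hneg
  have hd : deriv g t = 0 := hmin.deriv_eq_zero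
  have hmax : IsLocalMax g t := isLocalMax_of_deriv_deriv_neg hneg hd hc
  have heq : ∀ᶠ s in 𝓝 t, g s = g t := by
    filter_upwards [hmin, hmax] with s h1 h2
    exact le_antisymm h2 h1
  have hev : g =ᶠ[𝓝 t] fun _ => g t := heq
  have h1 : deriv g =ᶠ[𝓝 t] fun _ => (0 : ℝ) := by
    have h2 := hev.deriv
    refine h2.trans (Eventually.of_forall fun s => ?_)
    simp
  have h3 : deriv (deriv g) t = 0 := by
    rw [h1.deriv_eq]; simp
  rw [h3] at hneg
  exact lt_irrefl _ hneg

/-- The Laplacian at an interior minimum is nonnegative. -/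
theorem lap_nonneg_of_min {W : E → ℝ} {x : E} (hW : ContDiffAt ℝ 2 W x) (hmin : IsLocalMin W x) :
    0 ≤ lap W x := by
  unfold lap
  refine Finset.sum_nonneg fun i _ => ?_
  set e : E := EuclideanSpace.single i (1 : ℝ)
  set c : ℝ → E := fun t => x + t • e with hcdef
  have hc0 : c 0 = x := by simp [hcdef]
  have hcd : ∀ t, HasDerivAt c e t := by
    intro t
    have h1 : HasDerivAt (fun t : ℝ => t • e) ((1 : ℝ) • e) t := (hasDerivAt_id t).smul_const e
    rw [one_smul] at h1
    exact h1.const_add x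
  have hcc : ContinuousAt c 0 := (hcd 0).continuousAt
  have hdiff : ∀ᶠ y in 𝓝 x, DifferentiableAt ℝ W y := by
    have h1 : ∀ᶠ y in 𝓝 x, ContDiffAt ℝ 1 W y :=
      (hW.of_le (by norm_num)).eventually (by simp)
    filter_upwards [h1] with y hy
    exact hy.differentiableAt (by norm_num)
  have hg1 : deriv (fun t => W (c t)) =ᶠ[𝓝 0] fun t => fderiv ℝ W (c t) e := by
    have h1 : ∀ᶠ t in 𝓝 (0 : ℝ), DifferentiableAt ℝ W (c t) := by
      apply hcc.eventually
      rw [hc0]; exact hdiff
    filter_upwards [h1] with t ht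
    exact (ht.hasFDerivAt.comp_hasDerivAt t (hcd t)).deriv
  have hfd : DifferentiableAt ℝ (fun y => fderiv ℝ W y e) x := by
    have h1 : ContDiffAt ℝ 1 (fderiv ℝ W) x := hW.fderiv_right (by norm_num)
    exact (h1.differentiableAt (by norm_num)).clm_apply (differentiableAt_const e)
  have hg2 : deriv (deriv (fun t => W (c t))) 0 = fderiv ℝ (fun y => fderiv ℝ W y e) x e := by
    rw [hg1.deriv_eq]
    have h1 : HasFDerivAt (fun y => fderiv ℝ W y e) (fderiv ℝ (fun y => fderiv ℝ W y e) x)
        (c 0) := by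
      rw [hc0]; exact hfd.hasFDerivAt
    exact (h1.comp_hasDerivAt 0 (hcd 0)).deriv
  rw [← hg2]
  apply deriv2_nonneg
  · have h1 : ∀ᶠ y in 𝓝 (c 0), W x ≤ W y := by rw [hc0]; exact hmin
    have h2 := hcc.eventually h1
    filter_upwards [h2] with t ht
    rw [hc0]; exact ht
  · have h1 : ContinuousAt W (c 0) := by rw [hc0]; exact hW.continuousAt
    exact ContinuousAt.comp (f := c) h1 hcc

/-- the barrier -/
noncomputable def bar (α : ℝ) (y x : E) : ℝ := Real.exp (-α * ‖x - y‖ ^ 2)

theorem hasFDerivAt_bar (α : ℝ) (y x : E) :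
    HasFDerivAt (bar α y) ((-2 * α * bar α y x) • (innerSL ℝ (x - y))) x := by
  have h1 : HasFDerivAt (fun x : E => ‖x - y‖ ^ 2) (2 • (innerSL ℝ (x - y))) x := by
    have := (hasFDerivAt_id x).sub_const y |>.norm_sq
    simpa using this
  have h2 := (h1.const_mul (-α)).exp
  have h3 : Real.exp (-α * ‖x - y‖ ^ 2) • ((-α) • (2 • (innerSL ℝ (x - y)))) =
      ((-2 * α * bar α y x) • (innerSL ℝ (x - y))) := by
    unfold bar
    module
  rw [← h3]
  exact h2

theorem contDiff_bar (α : ℝ) (y : E) : ContDiff ℝ ∞ (bar α y) := by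
  unfold bar
  exact Real.contDiff_exp.comp
    (contDiff_const.mul ((contDiff_id.sub contDiff_const).norm_sq ℝ))

theorem lap_bar (α : ℝ) (y x : E) :
    lap (bar α y) x = (4 * α ^ 2 * ‖x - y‖ ^ 2 - 6 * α) * bar α y x := by
  unfold lap
  have h1 : ∀ i : Fin 3, (fun z : E => fderiv ℝ (bar α y) z (EuclideanSpace.single i 1)) =
      fun z => -2 * α * (bar α y z * (z - y) i) := by
    intro i
    funext z
    rw [(hasFDerivAt_bar α y z).fderiv]
    simp only [smul_apply, innerSL_apply_apply, smul_eq_mul]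
    rw [EuclideanSpace.inner_single_right]
    simp
    ring
  have h2 : ∀ i : Fin 3, fderiv ℝ (fun z : E => fderiv ℝ (bar α y) z (EuclideanSpace.single i 1)) x
      (EuclideanSpace.single i 1) =
      (4 * α ^ 2 * ((x - y) i) ^ 2 - 2 * α) * bar α y x := by
    intro i
    rw [h1 i]
    have h3 : HasFDerivAt (fun z : E => (z - y) i) (EuclideanSpace.proj i : E →L[ℝ] ℝ) x := by
      have := (EuclideanSpace.proj (𝕜 := ℝ) i : E →L[ℝ] ℝ).hasFDerivAt (x := x) |>.sub_const (y i)
      exact this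
    have h4 : HasFDerivAt (fun z : E => -2 * α * (bar α y z * (z - y) i)) _ x :=
      ((hasFDerivAt_bar α y x).mul h3).const_mul (-2 * α)
    rw [h4.fderiv]
    have e1 : (innerSL ℝ (x - y)) (EuclideanSpace.single i (1 : ℝ)) = (x - y) i := by
      rw [innerSL_apply_apply, EuclideanSpace.inner_single_right]
      simp
    have e2 : (EuclideanSpace.proj (𝕜 := ℝ) i : E →L[ℝ] ℝ) (EuclideanSpace.single i (1 : ℝ)) = 1 := by
      simp
    simp only [smul_apply, add_apply, smul_eq_mul,
      e1, e2]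
    ring
  rw [Finset.sum_congr rfl fun i _ => h2 i, ← Finset.sum_mul, Finset.sum_sub_distrib,
    ← Finset.mul_sum, EuclideanSpace.real_norm_sq_eq]
  simp only [Finset.sum_const, Finset.card_univ, Fintype.card_fin, nsmul_eq_mul]
  push_cast
  ring

theorem two_le_inf : (2 : WithTop ℕ∞) ≤ ∞ := ENat.LEInfty.out

theorem bar_pos (α : ℝ) (y x : E) : 0 < bar α y x := Real.exp_pos _

theorem lap_sub_const_mul {f g : E → ℝ} {x : E} (hf : ContDiffAt ℝ 2 f x)
    (hg : ContDiffAt ℝ 2 g x) (ε c : ℝ) :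
    lap (fun z => f z - ε * (g z - c)) x = lap f x - ε * lap g x := by
  unfold lap
  rw [Finset.mul_sum, ← Finset.sum_sub_distrib]
  refine Finset.sum_congr rfl fun i _ => ?_
  set e : E := EuclideanSpace.single i (1 : ℝ)
  have hd : ∀ {h : E → ℝ}, ContDiffAt ℝ 2 h x → ∀ᶠ y in 𝓝 x, DifferentiableAt ℝ h y := by
    intro h hh
    have h1 : ∀ᶠ y in 𝓝 x, ContDiffAt ℝ 1 h y :=
      (hh.of_le (by norm_num)).eventually (by simp)
    filter_upwards [h1] with y hy
    exact hy.differentiableAt (by norm_num)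
  have hd2 : ∀ {h : E → ℝ}, ContDiffAt ℝ 2 h x →
      DifferentiableAt ℝ (fun y => fderiv ℝ h y e) x := by
    intro h hh
    have h1 : ContDiffAt ℝ 1 (fderiv ℝ h) x := hh.fderiv_right (by norm_num)
    exact (h1.differentiableAt (by norm_num)).clm_apply (differentiableAt_const e)
  have hev : (fun y => fderiv ℝ (fun z => f z - ε * (g z - c)) y e) =ᶠ[𝓝 x]
      fun y => fderiv ℝ f y e - ε * fderiv ℝ g y e := by
    filter_upwards [hd hf, hd hg] with y h1 h2
    have h3 : HasFDerivAt (fun z => f z - ε * (g z - c)) (fderiv ℝ f y - ε • fderiv ℝ g y) y :=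
      h1.hasFDerivAt.sub ((h2.hasFDerivAt.sub_const c).const_mul ε)
    rw [h3.fderiv]
    rfl
  rw [hev.fderiv_eq]
  have h4 : HasFDerivAt (fun y => fderiv ℝ f y e - ε * fderiv ℝ g y e)
      (fderiv ℝ (fun y => fderiv ℝ f y e) x - ε • fderiv ℝ (fun y => fderiv ℝ g y e) x) x :=
    (hd2 hf).hasFDerivAt.sub ((hd2 hg).hasFDerivAt.const_mul ε)
  rw [h4.fderiv]
  rfl

theorem hopf_key {Ω : Set E} (hΩ : IsOpen Ω) {U : E → ℝ} (hU : ContDiffOn ℝ ∞ U Ω)
    (h0 : ∀ x ∈ Ω, 0 ≤ U x) (hl : ∀ x ∈ Ω, lap U x ≤ 0) {x0 : E} (hx0 : x0 ∈ Ω)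
    (hz0 : U x0 = 0) : ∀ᶠ y in 𝓝 x0, U y = 0 := by
  obtain ⟨s, hs, hsub⟩ := Metric.isOpen_iff.1 hΩ x0 hx0
  have hcont : ContinuousOn U Ω := hU.continuousOn
  have hCD : ∀ x ∈ Ω, ContDiffAt ℝ 2 U x := fun x hx =>
    (hU.contDiffAt (hΩ.mem_nhds hx)).of_le two_le_inf
  filter_upwards [Metric.ball_mem_nhds x0 (show (0 : ℝ) < s / 4 by positivity)] with y hy
  by_contra hne
  rw [Metric.mem_ball] at hy
  have hyΩ : y ∈ Ω := hsub (by rw [Metric.mem_ball]; linarith)
  have hUy : 0 < U y := lt_of_le_of_ne (h0 y hyΩ) (Ne.symm hne)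
  -- the closed ball around y
  have hcb : Metric.closedBall y (dist x0 y) ⊆ Ω := by
    intro x hx
    apply hsub
    rw [Metric.mem_closedBall] at hx
    rw [Metric.mem_ball]
    have h1 := dist_triangle x y x0
    rw [dist_comm y x0] at h1
    rw [dist_comm] at hy
    linarith
  have hcK : IsCompact (Metric.closedBall y (dist x0 y) ∩ U ⁻¹' {0}) := by
    apply IsCompact.of_isClosed_subset (isCompact_closedBall y (dist x0 y)) _ inter_subset_left
    exact (hcont.mono hcb).preimage_isClosed_of_isClosed Metric.isClosed_closedBall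
      isClosed_singleton
  have hne' : (Metric.closedBall y (dist x0 y) ∩ U ⁻¹' {0}).Nonempty :=
    ⟨x0, by simp, hz0⟩
  obtain ⟨z, hzK, hzmin⟩ := hcK.exists_isMinOn hne' (f := fun x => dist x y)
    (continuous_id.dist continuous_const).continuousOn
  have hUz : U z = 0 := hzK.2
  have hzΩ : z ∈ Ω := hcb hzK.1
  set R := dist z y with hR
  have hRle : R ≤ dist x0 y := hzK.1
  have hRpos : 0 < R := by
    rw [hR, dist_pos]
    rintro rfl
    exact hne hUz
  have hpos : ∀ x, dist x y < R → 0 < U x := by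
    intro x hx
    have hxcb : x ∈ Metric.closedBall y (dist x0 y) := by
      rw [Metric.mem_closedBall]; linarith
    refine lt_of_le_of_ne (h0 x (hcb hxcb)) fun h => ?_
    have h1 : dist z y ≤ dist x y := hzmin ⟨hxcb, h.symm⟩
    linarith
  have hcbR : Metric.closedBall y R ⊆ Ω :=
    (Metric.closedBall_subset_closedBall hRle).trans hcb
  -- the barrier
  set α : ℝ := 7 / R ^ 2 with hα
  have hαpos : 0 < α := by positivity
  have hαR : α * R ^ 2 = 7 := by
    rw [hα]; field_simp
  obtain ⟨p, hp, hpmin⟩ := (isCompact_closedBall y (R / 2)).exists_isMinOn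
    (Metric.nonempty_closedBall.2 (by positivity)) (f := U)
    (hcont.mono ((Metric.closedBall_subset_closedBall (by linarith)).trans hcbR))
  set ε := U p with hε
  have hεpos : 0 < ε := hpos p (by rw [Metric.mem_closedBall] at hp; linarith)
  set c : ℝ := Real.exp (-α * R ^ 2) with hc
  set W : E → ℝ := fun x => U x - ε * (bar α y x - c) with hW
  have hbarCD : ∀ x, ContDiffAt ℝ 2 (bar α y) x := fun x =>
    (contDiff_bar α y).contDiffAt.of_le two_le_inf
  have hWCD : ∀ x ∈ Ω, ContDiffAt ℝ 2 W x := fun x hx =>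
    (hCD x hx).sub (contDiffAt_const.mul ((hbarCD x).sub contDiffAt_const))
  have hWcont : ContinuousOn W (Metric.closedBall y R) := fun x hx =>
    (hWCD x (hcbR hx)).continuousAt.continuousWithinAt
  have hWnn : ∀ x ∈ Metric.closedBall y R, 0 ≤ W x := by
    obtain ⟨q, hq, hqmin⟩ := (isCompact_closedBall y R).exists_isMinOn
      (Metric.nonempty_closedBall.2 hRpos.le) hWcont
    intro x hx
    refine le_trans ?_ (hqmin hx)
    by_contra hneg
    push Not at hneg
    have hqd : dist q y ≤ R := hq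
    have hqΩ := hcbR hq
    -- q not in the small ball
    have hq1 : R / 2 < dist q y := by
      by_contra hcon
      push Not at hcon
      have h1 : ε ≤ U q := hpmin (show q ∈ Metric.closedBall y (R / 2) from hcon)
      have h2 : bar α y q ≤ 1 := by
        unfold bar
        rw [Real.exp_le_one_iff]
        have : 0 ≤ α * ‖q - y‖ ^ 2 := by positivity
        linarith
      have h3 : 0 < c := Real.exp_pos _
      have h4 : W q = U q - ε * (bar α y q - c) := rfl
      nlinarith
    have hq2 : dist q y < R := by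
      rcases lt_or_eq_of_le hqd with h | h
      · exact h
      · exfalso
        have h1 : bar α y q = c := by
          unfold bar
          rw [← dist_eq_norm, h]
        have h2 : W q = U q - ε * (bar α y q - c) := rfl
        rw [h1, sub_self, mul_zero, sub_zero] at h2
        have := h0 q hqΩ
        linarith
    have hloc : IsLocalMin W q := by
      have : ∀ᶠ x in 𝓝 q, x ∈ Metric.closedBall y R :=
        Metric.isOpen_ball.mem_nhds (show q ∈ Metric.ball y R from hq2) |> fun h =>
          Filter.mem_of_superset h Metric.ball_subset_closedBall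
      filter_upwards [this] with x hx
      exact hqmin hx
    have h1 := lap_nonneg_of_min (hWCD q hqΩ) hloc
    rw [hW, lap_sub_const_mul (hCD q hqΩ) (hbarCD q), lap_bar] at h1
    have h2 := hl q hqΩ
    have h3 : 0 < (4 * α ^ 2 * ‖q - y‖ ^ 2 - 6 * α) := by
      rw [dist_eq_norm] at hq1
      have h5 : R ^ 2 / 4 < ‖q - y‖ ^ 2 := by nlinarith
      have h6 : 4 * α ^ 2 * (R ^ 2 / 4) < 4 * α ^ 2 * ‖q - y‖ ^ 2 :=
        mul_lt_mul_of_pos_left h5 (by positivity)
      have h7 : 4 * α ^ 2 * (R ^ 2 / 4) = 7 * α := by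
        rw [← hαR]; ring
      linarith
    have h4 := mul_pos hεpos (mul_pos h3 (bar_pos α y q))
    linarith
  -- contradiction at z
  have hzcb : z ∈ Metric.closedBall y R := le_refl R
  have hWz : W z = 0 := by
    have h1 : bar α y z = c := by
      unfold bar
      rw [← dist_eq_norm]
    show U z - ε * (bar α y z - c) = 0
    rw [h1, hUz]; ring
  have hfU : fderiv ℝ U z = 0 := by
    apply IsLocalMin.fderiv_eq_zero
    filter_upwards [hΩ.mem_nhds hzΩ] with x hx
    rw [hUz]; exact h0 x hx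
  have hUd : HasFDerivAt U (0 : E →L[ℝ] ℝ) z := by
    rw [← hfU]
    exact ((hCD z hzΩ).differentiableAt (by norm_num)).hasFDerivAt
  have hWd : HasFDerivAt W ((0 : E →L[ℝ] ℝ) - ε • ((-2 * α * bar α y z) • (innerSL ℝ (z - y)))) z :=
    hUd.sub (((hasFDerivAt_bar α y z).sub_const c).const_mul ε)
  have hmin : IsLocalMinOn W (Metric.closedBall y R) z := by
    apply IsMinOn.localize
    intro x hx
    show W z ≤ W x
    rw [hWz]; exact hWnn x hx
  have hcone : y - z ∈ posTangentConeAt (Metric.closedBall y R) z := by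
    apply sub_mem_posTangentConeAt_of_segment_subset
    exact (convex_closedBall y R).segment_subset hzcb (Metric.mem_closedBall_self hRpos.le)
  have h1 := hmin.hasFDerivWithinAt_nonneg hWd.hasFDerivWithinAt hcone
  have h2 : (innerSL ℝ (z - y)) (y - z) = - R ^ 2 := by
    rw [innerSL_apply_apply, ← neg_sub z y, inner_neg_right, real_inner_self_eq_norm_sq, hR,
      dist_eq_norm]
  simp only [sub_apply, smul_apply, smul_eq_mul, h2,
    zero_apply] at h1
  have h3 : 0 < ε * (α * bar α y z) * R ^ 2 :=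
    mul_pos (mul_pos hεpos (mul_pos hαpos (bar_pos α y z))) (by positivity)
  nlinarith

end MD1

/-- strong maximum principle -/
theorem strongMax : StrongMaxStmt := by
  intro Ω hΩ hpre U hU h0 hl hex x hx
  by_contra hcon
  have hUx : U x = 0 := le_antisymm (not_lt.1 hcon) (h0 x hx)
  obtain ⟨w, hw, hUw⟩ := hex
  have hUw' : 0 < U w := lt_of_le_of_ne (h0 w hw) (Ne.symm hUw)
  set A : Set E := {p | p ∈ Ω ∧ 0 < U p} with hA
  set B : Set E := {p | p ∈ Ω ∧ ∀ᶠ y in 𝓝 p, U y = 0} with hB
  have hAo : IsOpen A := by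
    have := hU.continuousOn.isOpen_inter_preimage hΩ (isOpen_Ioi (a := (0 : ℝ)))
    exact this
  have hBo : IsOpen B := by
    have h1 : IsOpen {p : E | ∀ᶠ y in 𝓝 p, U y = 0} := by
      rw [isOpen_iff_mem_nhds]
      intro p hp
      exact hp.eventually_nhds
    exact hΩ.inter h1
  have hcov : Ω ⊆ A ∪ B := by
    intro p hp
    rcases eq_or_lt_of_le (h0 p hp) with h | h
    · exact Or.inr ⟨hp, MD1.hopf_key hΩ hU h0 hl hp h.symm⟩
    · exact Or.inl ⟨hp, h⟩
  have hnA : (Ω ∩ A).Nonempty := ⟨w, hw, hw, hUw'⟩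
  have hnB : (Ω ∩ B).Nonempty := ⟨x, hx, hx, MD1.hopf_key hΩ hU h0 hl hx hUx⟩
  obtain ⟨q, -, hqA, hqB⟩ := hpre A B hAo hBo hcov hnA hnB
  have h1 : U q = 0 := hqB.2.self_of_nhds
  exact absurd hqA.2 (by rw [h1]; exact lt_irrefl _)

end Pool.Agent.H92.BN
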