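import Pool.Agent.H92.BN.Api

/-!
# Module D2: first two Dirichlet eigenvalues (`EigStmt`)
-/

set_option autoImplicit false

namespace Pool.Agent.H92.BN

open MeasureTheory Set Filter Topology
open scoped ContDiff InnerProductSpace

/-- normalisation -/
theorem mI_normalise {v : BB} (hpos : 0 < mI v v) :
    mI ((Real.sqrt (mI v v))⁻¹ • v) ((Real.sqrt (mI v v))⁻¹ • v) = 1 := by
  rw [mI_smul_left, mI_smul_right]
  have h1 := Real.mul_self_sqrt hpos.le
  have h0 : Real.sqrt (mI v v) ≠ 0 := (Real.sqrt_pos.2 hpos).ne'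
  have h2 : (Real.sqrt (mI v v))⁻¹ * ((Real.sqrt (mI v v))⁻¹ * (Real.sqrt (mI v v) * Real.sqrt (mI v v))) = 1 := by
    field_simp
  rwa [h1] at h2

theorem tendsto_mI_self {v : ℕ → BB} {e : BB} (he : Tendsto v atTop (𝓝 e)) :
    Tendsto (fun n => mI (v n) (v n)) atTop (𝓝 (mI e e)) :=
  ((continuous_mI.comp (continuous_id.prodMk continuous_id)).tendsto e).comp he
theorem tendsto_dI_self {v : ℕ → BB} {e : BB} (he : Tendsto v atTop (𝓝 e)) :
    Tendsto (fun n => dI (v n) (v n)) atTop (𝓝 (dI e e)) :=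
  ((continuous_dI.comp (continuous_id.prodMk continuous_id)).tendsto e).comp he

theorem para {l δ : ℝ} (hδ : 0 < δ) (hl0 : 0 ≤ l) (W : Submodule ℝ BB)
    (hray : ∀ v ∈ W, l * mI v v ≤ dI v v) (a b : BB) (ha : a ∈ W) (hb : b ∈ W) (g : Lp ℝ 2 (volume : Measure E))
    (hma : mI a a = 1) (hmb : mI b b = 1) (ha1 : dI a a ≤ l + δ) (hb1 : dI b b ≤ l + δ) 
    (hag : ‖a.fst - g‖ ≤ Real.sqrt δ) (hbg : ‖b.fst - g‖ ≤ Real.sqrt δ) :
    ‖a - b‖ ^ 2 ≤ (4 * (l + 2)) * δ := by
  have hab : mI (a - b) (a - b) ≤ 4 * δ := by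
    rw [mI_self_eq, WithLp.sub_fst]
    have h1 : ‖a.fst - b.fst‖ ≤ 2 * Real.sqrt δ := by
      calc ‖a.fst - b.fst‖ = ‖(a.fst - g) - (b.fst - g)‖ := by
            congr 1; abel
        _ ≤ ‖a.fst - g‖ + ‖b.fst - g‖ := norm_sub_le _ _
        _ ≤ 2 * Real.sqrt δ := by linarith
    calc ‖a.fst - b.fst‖ ^ 2 ≤ (2 * Real.sqrt δ) ^ 2 := by gcongr
      _ = 4 * δ := by rw [mul_pow, Real.sq_sqrt hδ.le]; norm_num
  have e1 : mI (a - b) (a - b) = mI a a + mI b b - 2 * mI a b := by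
    rw [mI_sub_left, mI_sub_right, mI_sub_right, mI_comm b a]; ring
  have e2 : mI (a + b) (a + b) = mI a a + mI b b + 2 * mI a b := by
    rw [mI_add_left, mI_add_right, mI_add_right, mI_comm b a]; ring
  have e3 : dI (a - b) (a - b) = dI a a + dI b b - 2 * dI a b := by
    rw [dI_sub_left, dI_sub_right, dI_sub_right, dI_comm b a]; ring
  have e4 : dI (a + b) (a + b) = dI a a + dI b b + 2 * dI a b := by
    rw [dI_add_left, dI_add_right, dI_add_right, dI_comm b a]; ring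
  have h5 := hray (a + b) (W.add_mem ha hb)
  have h6 : 4 - 4 * δ ≤ mI (a + b) (a + b) := by linarith
  have h7 : l * (4 - 4 * δ) ≤ l * mI (a + b) (a + b) := mul_le_mul_of_nonneg_left h6 hl0
  rw [norm_sq_eq]
  nlinarith

set_option maxHeartbeats 400000 in
/-- existence of a minimiser of the Rayleigh quotient -/
theorem exists_minimiser (hR : RellichStmt) {Ω : Set E} (hb : Bornology.IsBounded Ω)
    (W : Submodule ℝ BB) (hW : W ≤ V Ω) (hc : IsClosed (W : Set BB))
    (hne : ∃ v ∈ W, mI v v ≠ 0) :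
    ∃ e ∈ W, mI e e = 1 ∧ ∀ v ∈ W, dI e e * mI v v ≤ dI v v := by
  set T : Set ℝ := {r | ∃ v ∈ W, mI v v = 1 ∧ dI v v = r} with hT
  have hbdd : BddBelow T := ⟨0, by rintro r ⟨v, _, _, rfl⟩; exact dI_self_nonneg v⟩
  have hTne : T.Nonempty := by
    obtain ⟨v, hv, hv0⟩ := hne
    have hpos : 0 < mI v v := lt_of_le_of_ne (mI_self_nonneg v) (Ne.symm hv0)
    exact ⟨_, (Real.sqrt (mI v v))⁻¹ • v, W.smul_mem _ hv, mI_normalise hpos, rfl⟩
  set l := sInf T with hl
  have hray : ∀ v ∈ W, l * mI v v ≤ dI v v := by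
    intro v hv
    rcases (mI_self_nonneg v).eq_or_lt with h | hpos
    · rw [← h]; simpa using dI_self_nonneg v
    · have h1 : l ≤ dI ((Real.sqrt (mI v v))⁻¹ • v) ((Real.sqrt (mI v v))⁻¹ • v) :=
        csInf_le hbdd ⟨_, W.smul_mem _ hv, mI_normalise hpos, rfl⟩
      rw [dI_smul_left, dI_smul_right, ← mul_assoc, ← mul_inv, Real.mul_self_sqrt hpos.le] at h1
      have h2 : (mI v v)⁻¹ * dI v v * mI v v = dI v v := by field_simp
      have h3 := mul_le_mul_of_nonneg_right h1 hpos.le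
      rwa [h2] at h3
  have hseq : ∀ n : ℕ, ∃ v ∈ W, mI v v = 1 ∧ dI v v < l + 1 / ((n : ℝ) + 1) := by
    intro n
    obtain ⟨r, ⟨v, hv, h1, h2⟩, h3⟩ := exists_lt_of_csInf_lt hTne
      (show sInf T < l + 1 / ((n : ℝ) + 1) by
        have : (0 : ℝ) < 1 / ((n : ℝ) + 1) := by positivity
        linarith)
    exact ⟨v, hv, h1, h2 ▸ h3⟩
  choose v hvW hv1 hvl using hseq
  have hlow : ∀ n, l ≤ dI (v n) (v n) := fun n => by
    have := hray (v n) (hvW n)
    rwa [hv1, mul_one] at this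
  have hnorm : ∀ n, ‖v n‖ ≤ Real.sqrt (l + 2) := by
    intro n
    refine Real.le_sqrt_of_sq_le ?_
    rw [norm_sq_eq, hv1]
    have h1 := hvl n
    have h2 : (1 : ℝ) / ((n : ℝ) + 1) ≤ 1 := by
      rw [div_le_one (by positivity)]
      have : (0 : ℝ) ≤ n := by positivity
      linarith
    linarith
  obtain ⟨K, hK, hKm⟩ := hR Ω hb (Real.sqrt (l + 2))
  obtain ⟨g, -, φ, hφ, hg⟩ := hK.tendsto_subseq (fun n => hKm (v n) (hW (hvW n)) (hnorm n))
  have hg' : Tendsto (fun n => (v (φ n)).fst) atTop (𝓝 g) := hg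
  -- the gradients are Cauchy
  have hCf : CauchySeq (fun n => (v (φ n)).fst) := hg'.cauchySeq
  have hC : CauchySeq (fun n => v (φ n)) := by
    rw [Metric.cauchySeq_iff']
    intro ε hε
    rw [Metric.cauchySeq_iff'] at hCf
    have hl0 : 0 ≤ l := le_csInf hTne (by rintro r ⟨v, _, _, rfl⟩; exact dI_self_nonneg v)
    obtain ⟨δ, hδ, hδε⟩ : ∃ δ : ℝ, 0 < δ ∧ (4 * (l + 2)) * δ < ε ^ 2 := by
      refine ⟨ε ^ 2 / (2 * (4 * (l + 2))), by positivity, ?_⟩
      have : (4 * (l + 2)) * (ε ^ 2 / (2 * (4 * (l + 2)))) = ε ^ 2 / 2 := by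
        have : l + 2 ≠ 0 := by positivity
        field_simp
      rw [this]
      have : 0 < ε ^ 2 := by positivity
      linarith
    obtain ⟨N1, hN1⟩ := hCf (Real.sqrt δ) (Real.sqrt_pos.2 hδ)
    obtain ⟨N2, hN2⟩ := exists_nat_one_div_lt hδ
    refine ⟨max N1 N2, fun n hn => ?_⟩
    have hle : ∀ k, max N1 N2 ≤ k → dI (v (φ k)) (v (φ k)) ≤ l + δ := by
      intro k hk
      have h1 := hvl (φ k)
      have h2 : N2 ≤ φ k := (le_max_right _ _).trans (hk.trans (hφ.le_apply))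
      have h3 : (1 : ℝ) / ((φ k : ℝ) + 1) ≤ 1 / ((N2 : ℝ) + 1) := by
        have : (N2 : ℝ) ≤ (φ k : ℝ) := by exact_mod_cast h2
        gcongr
      linarith
    have hfst : ∀ k, max N1 N2 ≤ k → ‖(v (φ k)).fst - (v (φ N1)).fst‖ ≤ Real.sqrt δ := by
      intro k hk
      rw [← dist_eq_norm]
      exact (hN1 k ((le_max_left _ _).trans hk)).le
    have h8 := para hδ hl0 W hray (v (φ n)) (v (φ (max N1 N2))) (hvW _) (hvW _)
      (v (φ N1)).fst (hv1 _) (hv1 _) (hle n hn) (hle _ (le_refl (max N1 N2))) (hfst n hn)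
      (hfst _ (le_refl (max N1 N2)))
    rw [dist_eq_norm]
    exact lt_of_pow_lt_pow_left₀ 2 hε.le (h8.trans_lt hδε)
  obtain ⟨e, he⟩ := cauchySeq_tendsto_of_complete hC
  have heW : e ∈ W := hc.mem_of_tendsto he (Eventually.of_forall fun n => hvW _)
  have hmt : Tendsto (fun n => mI (v (φ n)) (v (φ n))) atTop (𝓝 (mI e e)) := tendsto_mI_self he
  have hdt : Tendsto (fun n => dI (v (φ n)) (v (φ n))) atTop (𝓝 (dI e e)) := tendsto_dI_self he
  have hm1 : mI e e = 1 := by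
    refine tendsto_nhds_unique hmt ?_
    simp only [hv1]
    exact tendsto_const_nhds
  have hd1 : dI e e ≤ l := by
    have h1 : Tendsto (fun n : ℕ => l + 1 / ((φ n : ℝ) + 1)) atTop (𝓝 (l + 0)) := by
      refine Tendsto.add tendsto_const_nhds ?_
      exact (tendsto_one_div_add_atTop_nhds_zero_nat (𝕜 := ℝ)).comp hφ.tendsto_atTop
    rw [add_zero] at h1
    exact le_of_tendsto_of_tendsto' hdt h1 (fun n => (hvl _).le)
  refine ⟨e, heW, hm1, fun w hw => ?_⟩
  exact (mul_le_mul_of_nonneg_right hd1 (mI_self_nonneg w)).trans (hray w hw)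

set_option maxHeartbeats 400000 in
/-- Euler–Lagrange equation of a minimiser -/
theorem euler_lagrange (W : Submodule ℝ BB) {e : BB} (he : e ∈ W) {l : ℝ}
    (h : ∀ v ∈ W, l * mI v v ≤ dI v v) (h0 : dI e e = l * mI e e) :
    ∀ η ∈ W, dI e η = l * mI e η := by
  intro η hη
  have key : ∀ t : ℝ, 0 ≤ 2 * t * (dI e η - l * mI e η) + t ^ 2 * (dI η η - l * mI η η) := by
    intro t
    have h1 := h (e + t • η) (W.add_mem he (W.smul_mem _ hη))
    simp only [mI_add_left, mI_add_right, mI_smul_left, mI_smul_right, dI_add_left, dI_add_right,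
      dI_smul_left, dI_smul_right, mI_comm η e, dI_comm η e] at h1
    nlinarith
  set A := dI e η - l * mI e η with hA
  set B := dI η η - l * mI η η with hB
  have hB0 : 0 ≤ B := by have := h η hη; linarith
  have hA0 : A = 0 := by
    by_contra hne
    have h2 := key (-(A / (B + 1)))
    have hB1 : 0 < B + 1 := by linarith
    have h3 : 2 * (-(A / (B + 1))) * A + (-(A / (B + 1))) ^ 2 * B
        = - (A ^ 2 / (B + 1) ^ 2) * (B + 2) := by
      field_simp
      ring
    rw [h3] at h2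
    have h4 : 0 < A ^ 2 / (B + 1) ^ 2 := by positivity
    nlinarith
  linarith

theorem integrable_dI (u v : BB) : Integrable (fun x => ⟪gr u x, gr v x⟫_ℝ) volume :=
  L2.integrable_inner u.snd v.snd

theorem integrable_mI (u v : BB) : Integrable (fun x => fn u x * fn v x) volume := by
  have := L2.integrable_inner (𝕜 := ℝ) v.fst u.fst
  refine this.congr (Eventually.of_forall fun x => ?_)
  simp [fn]

set_option maxHeartbeats 400000 in
/-- absolute value -/
theorem exists_abs (hP : PosPartStmt) {Ω : Set E} {u : BB} (hu : u ∈ V Ω) :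
    ∃ w ∈ V Ω, fn w =ᵐ[volume] (fun x => |fn u x|) ∧ dI w w ≤ dI u u ∧ mI w w = mI u u := by
  obtain ⟨p, hp, hp1, hp2⟩ := hP Ω u hu
  obtain ⟨q, hq, hq1, hq2⟩ := hP Ω (-u) (Submodule.neg_mem _ hu)
  have hfn : fn (p + q) =ᵐ[volume] fun x => |fn u x| := by
    filter_upwards [fn_add p q, hp1, hq1, fn_neg u] with x h1 h2 h3 h4
    rw [h1, Pi.add_apply, h2, h3, h4, Pi.neg_apply]
    rcases le_total 0 (fn u x) with h | h
    · rw [max_eq_left h, max_eq_right (by linarith), abs_of_nonneg h]; ring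
    · rw [max_eq_right h, max_eq_left (by linarith), abs_of_nonpos h]; ring
  refine ⟨p + q, Submodule.add_mem _ hp hq, hfn, ?_, ?_⟩
  · unfold dI
    refine integral_mono_ae (integrable_dI _ _) (integrable_dI _ _) ?_
    filter_upwards [gr_add p q, hp2, hq2, fn_neg u, gr_neg u] with x h1 h2 h3 h4 h5
    rw [real_inner_self_eq_norm_sq, real_inner_self_eq_norm_sq, h1, Pi.add_apply, h2, h3, h4, h5,
      Pi.neg_apply, Pi.neg_apply]
    rcases lt_trichotomy 0 (fn u x) with h | h | h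
    · rw [if_pos h, if_neg (by linarith), add_zero]
    · rw [if_neg (by linarith), if_neg (by linarith), add_zero]
      simp
    · rw [if_neg (by linarith), if_pos (by linarith), zero_add, norm_neg]
  · unfold mI
    refine integral_congr_ae ?_
    filter_upwards [hfn] with x hx
    rw [hx]
    exact abs_mul_abs_self _

/-- a.e. equal on `Ω` and off `Ω` -/
theorem fn_ae_indicator {Ω : Set E} (hΩ : IsOpen Ω) {u : BB} (hu : u ∈ V Ω) {U : E → ℝ}
    (hU : ∀ᵐ x ∂(volume.restrict Ω), fn u x = U x) : fn u =ᵐ[volume] Ω.indicator U := by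
  rw [ae_restrict_iff' hΩ.measurableSet] at hU
  filter_upwards [hU, ae_zero_off hΩ.measurableSet hu] with x h1 h2
  by_cases hx : x ∈ Ω
  · rw [indicator_of_mem hx, h1 hx]
  · rw [indicator_of_notMem hx, (h2 hx).1]

set_option maxHeartbeats 400000 in
/-- nonnegative minimisers are positive -/
theorem pos_of_minimiser (hReg : RegIntStmt) (hM : StrongMaxStmt) {Ω : Set E} (hΩ : IsOpen Ω)
    (hconn : IsConnected Ω) {u : BB} (hu : u ∈ V Ω) (h1 : mI u u = 1) {l : ℝ} (hl : 0 ≤ l)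
    (hray : ∀ v ∈ V Ω, l * mI v v ≤ dI v v) (hle : dI u u ≤ l)
    (hnn : ∀ᵐ x : E, 0 ≤ fn u x) :
    ∃ U : E → ℝ, ContinuousOn U Ω ∧ (∀ᵐ x ∂(volume.restrict Ω), fn u x = U x) ∧
      ∀ x ∈ Ω, 0 < U x := by
  have h0 : dI u u = l * mI u u := le_antisymm (by rw [h1]; simpa using hle) (hray u hu)
  have hEL := euler_lagrange (V Ω) hu hray h0
  have hsol : Sol Ω l 0 u := ⟨hu, fun η hη => by rw [hEL η hη]; ring⟩
  obtain ⟨U, hU1, hU2, hU3⟩ := hReg Ω hΩ l 0 u hsol
  have hUnn : ∀ x ∈ Ω, 0 ≤ U x := by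
    have habs : U =ᵐ[volume.restrict Ω] fun x => |U x| := by
      filter_upwards [hU2, ae_restrict_of_ae hnn] with x hx hx'
      rw [← hx, abs_of_nonneg hx']
    have := MeasureTheory.Measure.eqOn_open_of_ae_eq habs hΩ hU1.continuousOn
      hU1.continuousOn.abs
    intro x hx
    rw [this hx]
    exact abs_nonneg _
  have hex : ∃ x ∈ Ω, U x ≠ 0 := by
    by_contra hcon
    push Not at hcon
    have h2 : fn u =ᵐ[volume] 0 := by
      refine (fn_ae_indicator hΩ hu hU2).trans (EventuallyEq.of_eq ?_)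
      ext x
      by_cases hx : x ∈ Ω
      · rw [indicator_of_mem hx, hcon x hx]; rfl
      · rw [indicator_of_notMem hx]; rfl
    have h3 : mI u u = 0 := by
      unfold mI
      rw [← integral_zero E ℝ (μ := volume)]
      refine integral_congr_ae ?_
      filter_upwards [h2] with x hx
      rw [hx]; simp
    rw [h3] at h1
    exact zero_ne_one h1
  refine ⟨U, hU1.continuousOn, hU2, ?_⟩
  refine hM Ω hΩ hconn.isPreconnected U hU1 hUnn (fun x hx => ?_) hex
  have h4 := hU3 x hx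
  have h5 := hUnn x hx
  nlinarith

set_option maxHeartbeats 400000 in
theorem exists_bump {Ω : Set E} (hΩ : IsOpen Ω) (hne : Ω.Nonempty) :
    ∃ φ, IsTest Ω φ ∧ 0 < mI (tb φ) (tb φ) := by
  obtain ⟨x, hx⟩ := hne
  obtain ⟨r, hr, hball⟩ := Metric.isOpen_iff.1 hΩ x hx
  let f : ContDiffBump x := ⟨r / 4, r / 2, by positivity, by linarith⟩
  have hsupp : tsupport f ⊆ Ω := by
    rw [f.tsupport_eq]
    refine (Metric.closedBall_subset_ball ?_).trans hball
    show r / 2 < r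
    linarith
  have hf : IsTest Ω f := ⟨f.contDiff, f.hasCompactSupport, hsupp⟩
  refine ⟨f, hf, ?_⟩
  have h1 : mI (tb f) (tb f) = ∫ y, f y * f y := by
    unfold mI
    refine integral_congr_ae ?_
    filter_upwards [(rep_tb hf).1] with y hy
    rw [hy]
  rw [h1]
  have hc : Continuous fun y => f y * f y := f.continuous.mul f.continuous
  refine hc.integral_pos_of_hasCompactSupport_nonneg_nonzero ?_ ?_ (x := x) ?_
  · exact f.hasCompactSupport.mul_left
  · intro y
    exact mul_self_nonneg _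
  · have : f x = 1 := f.one_of_mem_closedBall (by
      refine Metric.mem_closedBall_self ?_
      show 0 ≤ r / 4
      positivity)
    rw [this]; norm_num

set_option maxHeartbeats 400000 in
theorem exists_orth {Ω : Set E} (hΩ : IsOpen Ω) (hne : Ω.Nonempty) (e : BB) :
    ∃ v ∈ V Ω, mI e v = 0 ∧ mI v v ≠ 0 := by
  obtain ⟨x0, hx0⟩ := hne
  have hinf : Ω.Nontrivial := (infinite_of_mem_nhds x0 (hΩ.mem_nhds hx0)).nontrivial
  obtain ⟨x, hx, y, hy, hxy⟩ := hinf
  obtain ⟨U1, U2, hU1, hU2, hx1, hy2, hdis⟩ := t2_separation hxy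
  obtain ⟨φ, hφ, hφ0⟩ := exists_bump (hΩ.inter hU1) ⟨x, hx, hx1⟩
  obtain ⟨ψ, hψ, hψ0⟩ := exists_bump (hΩ.inter hU2) ⟨y, hy, hy2⟩
  have hφV : tb φ ∈ V Ω := V_mono inter_subset_left (tb_mem hφ)
  have hψV : tb ψ ∈ V Ω := V_mono inter_subset_left (tb_mem hψ)
  have horth : mI (tb φ) (tb ψ) = 0 := by
    unfold mI
    rw [← integral_zero E ℝ (μ := volume)]
    refine integral_congr_ae ?_
    filter_upwards [(rep_tb hφ).1, (rep_tb hψ).1] with z h1 h2
    rw [h1, h2]
    by_contra hne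
    have h3 : z ∈ U1 := (hφ.supp (subset_tsupport φ (left_ne_zero_of_mul hne))).2
    have h4 : z ∈ U2 := (hψ.supp (subset_tsupport ψ (right_ne_zero_of_mul hne))).2
    exact Set.disjoint_left.1 hdis h3 h4
  by_cases h0 : mI e (tb φ) = 0
  · exact ⟨tb φ, hφV, h0, hφ0.ne'⟩
  · refine ⟨mI e (tb ψ) • tb φ - mI e (tb φ) • tb ψ,
      Submodule.sub_mem _ (Submodule.smul_mem _ _ hφV) (Submodule.smul_mem _ _ hψV), ?_, ?_⟩
    · rw [mI_sub_right, mI_smul_right, mI_smul_right]; ring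
    · simp only [mI_sub_left, mI_sub_right, mI_smul_left, mI_smul_right, horth,
        mI_comm (tb ψ) (tb φ)]
      have h5 : 0 < mI e (tb φ) ^ 2 * mI (tb ψ) (tb ψ) := by positivity
      have h6 : 0 ≤ mI e (tb ψ) ^ 2 * mI (tb φ) (tb φ) := by positivity
      apply ne_of_gt
      nlinarith

/-- the orthogonal complement of `e` in `V Ω` -/
noncomputable def Wperp (Ω : Set E) (e : BB) : Submodule ℝ BB where
  carrier := {v | v ∈ V Ω ∧ mI e v = 0}
  zero_mem' := ⟨Submodule.zero_mem _, mI_zero_right _⟩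
  add_mem' := by
    rintro a b ⟨h1, h2⟩ ⟨h3, h4⟩
    exact ⟨Submodule.add_mem _ h1 h3, by rw [mI_add_right, h2, h4, add_zero]⟩
  smul_mem' := by
    rintro c a ⟨h1, h2⟩
    exact ⟨Submodule.smul_mem _ _ h1, by rw [mI_smul_right, h2, mul_zero]⟩

theorem isClosed_Wperp (Ω : Set E) (e : BB) : IsClosed ((Wperp Ω e : Submodule ℝ BB) : Set BB) := by
  have h1 : ((Wperp Ω e : Submodule ℝ BB) : Set BB) = (V Ω : Set BB) ∩ {v | mI e v = 0} := rfl
  rw [h1]
  refine (isClosed_V Ω).inter (isClosed_eq ?_ continuous_const)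
  exact continuous_mI.comp (continuous_const.prodMk continuous_id)

set_option maxHeartbeats 400000 in
/-- the first eigenfunction -/
theorem exists_first (hR : RellichStmt) (hPo : PoincareStmt) (hP : PosPartStmt)
    (hReg : RegIntStmt) (hM : StrongMaxStmt) {Ω : Set E} (hΩ : IsOpen Ω)
    (hb : Bornology.IsBounded Ω) (hconn : IsConnected Ω) :
    ∃ (l : ℝ) (e : BB) (U : E → ℝ), 0 < l ∧ e ∈ V Ω ∧ mI e e = 1 ∧
      (∀ η ∈ V Ω, dI e η = l * mI e η) ∧ (∀ v ∈ V Ω, l * mI v v ≤ dI v v) ∧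
      ContinuousOn U Ω ∧ (∀ᵐ x ∂(volume.restrict Ω), fn e x = U x) ∧ ∀ x ∈ Ω, 0 < U x := by
  obtain ⟨φ, hφ, hφ0⟩ := exists_bump hΩ hconn.nonempty
  obtain ⟨e0, he0, h01, h0ray⟩ := exists_minimiser hR hb (V Ω) le_rfl (isClosed_V Ω)
    ⟨tb φ, tb_mem hφ, hφ0.ne'⟩
  obtain ⟨e, he, hefn, hed, hem⟩ := exists_abs hP he0
  set l := dI e0 e0 with hl
  have hl0 : 0 < l := by
    obtain ⟨C, hC, hPC⟩ := hPo Ω hb
    have h1 := hPC e0 he0
    rw [h01] at h1
    by_contra hneg
    push Not at hneg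
    nlinarith
  have hm1 : mI e e = 1 := by rw [hem, h01]
  have hde : dI e e = l := le_antisymm hed (by simpa [hm1] using h0ray e he)
  have hEL := euler_lagrange (V Ω) he h0ray (by rw [hm1, mul_one, hde])
  obtain ⟨U, hU1, hU2, hU3⟩ := pos_of_minimiser hReg hM hΩ hconn he hm1 hl0.le h0ray hde.le
    (by filter_upwards [hefn] with x hx; rw [hx]; exact abs_nonneg _)
  exact ⟨l, e, U, hl0, he, hm1, hEL, h0ray, hU1, hU2, hU3⟩

set_option maxHeartbeats 400000 in
/-- `∫ f₁ f₂ = 0` is impossible for `f₁ > 0`, `f₂ ≤ 0`, `f₂ ≠ 0` -/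
theorem no_sign {Ω : Set E} (hΩ : IsOpen Ω) {e1 e2 : BB} (he1 : e1 ∈ V Ω) (he2 : e2 ∈ V Ω)
    {U1 U2 : E → ℝ} (hU1 : ∀ᵐ x ∂(volume.restrict Ω), fn e1 x = U1 x)
    (hU2 : ∀ᵐ x ∂(volume.restrict Ω), fn e2 x = U2 x) (hpos : ∀ x ∈ Ω, 0 < U1 x)
    (horth : mI e1 e2 = 0) (hne : mI e2 e2 = 1) (hs : ∀ x ∈ Ω, 0 ≤ U2 x) : False := by
  have h1 := fn_ae_indicator hΩ he1 hU1
  have h2 := fn_ae_indicator hΩ he2 hU2
  have hnn : 0 ≤ᵐ[volume] fun x => fn e1 x * fn e2 x := by
    filter_upwards [h1, h2] with x hx1 hx2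
    rw [hx1, hx2]
    by_cases hx : x ∈ Ω
    · rw [indicator_of_mem hx, indicator_of_mem hx]
      exact mul_nonneg (hpos x hx).le (hs x hx)
    · rw [indicator_of_notMem hx, zero_mul]; exact le_refl _
  have h3 : (fun x => fn e1 x * fn e2 x) =ᵐ[volume] 0 :=
    (integral_eq_zero_iff_of_nonneg_ae hnn (integrable_mI e1 e2)).1 horth
  have h4 : fn e2 =ᵐ[volume] 0 := by
    filter_upwards [h1, h2, h3] with x hx1 hx2 hx3
    rw [hx1, hx2] at hx3
    rw [hx2]
    by_cases hx : x ∈ Ω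
    · rw [indicator_of_mem hx, indicator_of_mem hx] at hx3
      rw [indicator_of_mem hx]
      exact (mul_eq_zero.1 hx3).resolve_left (hpos x hx).ne'
    · rw [indicator_of_notMem hx]; rfl
  have h5 : mI e2 e2 = 0 := by
    unfold mI
    rw [← integral_zero E ℝ (μ := volume)]
    refine integral_congr_ae ?_
    filter_upwards [h4] with x hx
    rw [hx]; simp
  rw [h5] at hne
  exact zero_ne_one hne

set_option maxHeartbeats 400000 in
/-- existence of the first two eigenfunctions -/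
theorem eigStmt (hR : RellichStmt) (hPo : PoincareStmt) (hP : PosPartStmt)
    (hReg : RegIntStmt) (hM : StrongMaxStmt) : EigStmt := by
  intro Ω hΩ hb hconn
  obtain ⟨l1, e1, U1, hl1, he1, hm1, hEL1, hray1, hc1, hU1, hpos1⟩ :=
    exists_first hR hPo hP hReg hM hΩ hb hconn
  obtain ⟨v0, hv0, hv0o, hv0n⟩ := exists_orth hΩ hconn.nonempty e1
  obtain ⟨e2, he2W, hm2, hray2⟩ := exists_minimiser hR hb (Wperp Ω e1) (fun v hv => hv.1)
    (isClosed_Wperp Ω e1) ⟨v0, ⟨hv0, hv0o⟩, hv0n⟩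
  have he2 : e2 ∈ V Ω := he2W.1
  have horth : mI e1 e2 = 0 := he2W.2
  set l2 := dI e2 e2 with hl2
  have hEL2' := euler_lagrange (Wperp Ω e1) he2W hray2 (by rw [hm2, mul_one])
  have hEL2 : ∀ η ∈ V Ω, dI e2 η = l2 * mI e2 η := by
    intro η hη
    have hη' : η - mI e1 η • e1 ∈ Wperp Ω e1 := by
      refine ⟨Submodule.sub_mem _ hη (Submodule.smul_mem _ _ he1), ?_⟩
      rw [mI_sub_right, mI_smul_right, hm1, mul_one, sub_self]
    have h1 := hEL2' _ hη'
    rw [dI_sub_right, mI_sub_right, dI_smul_right, mI_smul_right, dI_comm e2 e1, mI_comm e2 e1,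
      hEL1 e2 he2, horth] at h1
    linarith
  have hsol2 : Sol Ω l2 0 e2 := ⟨he2, fun η hη => by rw [hEL2 η hη]; ring⟩
  obtain ⟨U2, hU2c, hU2, -⟩ := hReg Ω hΩ l2 0 e2 hsol2
  have hgap : l1 < l2 := by
    have hle : l1 ≤ l2 := by simpa [hm2] using hray1 e2 he2
    refine lt_of_le_of_ne hle ?_
    intro heq
    obtain ⟨w, hw, hwfn, hwd, hwm⟩ := exists_abs hP he2
    obtain ⟨U, hUc, hU, hUpos⟩ := pos_of_minimiser hReg hM hΩ hconn hw (hwm.trans hm2) hl1.le
      hray1 (by rw [heq]; exact hwd)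
      (by filter_upwards [hwfn] with x hx; rw [hx]; exact abs_nonneg _)
    have habs : U =ᵐ[volume.restrict Ω] fun x => |U2 x| := by
      filter_upwards [hU, hU2, ae_restrict_of_ae hwfn] with x hx hx' hx''
      rw [← hx, hx'', hx']
    have hEq := MeasureTheory.Measure.eqOn_open_of_ae_eq habs hΩ hUc hU2c.continuousOn.abs
    have hne : ∀ x ∈ Ω, U2 x ≠ 0 := by
      intro x hx h0
      have h1 := hUpos x hx
      rw [hEq hx] at h1
      simp [h0] at h1
    have hsign : (∀ x ∈ Ω, 0 ≤ U2 x) ∨ (∀ x ∈ Ω, 0 ≤ - U2 x) := by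
      by_contra hcon
      push Not at hcon
      obtain ⟨⟨x, hx, hx0⟩, ⟨y, hy, hy0⟩⟩ := hcon
      obtain ⟨z, hz, hz0⟩ := hconn.isPreconnected.intermediate_value₂ hx hy hU2c.continuousOn
        (continuousOn_const (c := (0 : ℝ))) hx0.le (by linarith)
      exact hne z hz hz0
    rcases hsign with hs | hs
    · exact no_sign hΩ he1 he2 hU1 hU2 hpos1 horth hm2 hs
    · refine no_sign hΩ he1 (Submodule.neg_mem _ he2) (U2 := fun x => - U2 x) hU1 ?_ hpos1
        (by rw [mI_neg_right, horth, neg_zero])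
        (by rw [mI_neg_left, mI_neg_right, neg_neg, hm2]) hs
      filter_upwards [hU2, ae_restrict_of_ae (fn_neg e2)] with x hx hx'
      rw [hx', Pi.neg_apply, hx]
  refine ⟨l1, l2, e1, e2, Ω.indicator U1, Ω.indicator U2, ?_⟩
  refine
    { pos := hl1
      gap := hgap
      mem1 := he1
      mem2 := he2
      norm1 := hm1
      norm2 := hm2
      orth := horth
      eq1 := hEL1
      eq2 := hEL2
      ray1 := hray1
      ray2 := fun v hv hv0 => hray2 v ⟨hv, hv0⟩
      rep1 := fn_ae_indicator hΩ he1 hU1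
      rep2 := fn_ae_indicator hΩ he2 hU2
      cont1 := hc1.congr fun x hx => indicator_of_mem hx _
      cont2 := hU2c.continuousOn.congr fun x hx => indicator_of_mem hx _
      pos1 := fun x hx => by rw [indicator_of_mem hx]; exact hpos1 x hx
      out1 := fun x hx => indicator_of_notMem hx _
      out2 := fun x hx => indicator_of_notMem hx _
      pos2 := ?_ }
  by_contra hcon
  push Not at hcon
  refine no_sign hΩ he1 (Submodule.neg_mem _ he2) (U2 := fun x => - U2 x) hU1 ?_ hpos1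
    (by rw [mI_neg_right, horth, neg_zero])
    (by rw [mI_neg_left, mI_neg_right, neg_neg, hm2]) ?_
  · filter_upwards [hU2, ae_restrict_of_ae (fn_neg e2)] with x hx hx'
    rw [hx', Pi.neg_apply, hx]
  · intro x hx
    have := hcon x hx
    rw [indicator_of_mem hx] at this
    linarith

end Pool.Agent.H92.BN
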