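import Pool.Agent.H92.BN.Api

/-!
# Module E1: composition with diffeomorphisms, transformation of the equation
-/

set_option autoImplicit false

namespace Pool.Agent.H92.BN

open MeasureTheory Set Filter Topology
open scoped ContDiff InnerProductSpace ENNReal NNReal

namespace E1

/-! ### linear algebra -/

theorem contDiff_det : ContDiff ℝ ∞ (fun f : E →L[ℝ] E => f.det) := by
  have h : (fun f : E →L[ℝ] E => f.det) = fun f : E →L[ℝ] E =>
      ∑ σ : Equiv.Perm (Fin 3), ((Equiv.Perm.sign σ : ℤ) : ℝ) * ∏ i : Fin 3, (f (ee i)) (σ i) := by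
    funext f
    have h1 : f.det = LinearMap.det (f : E →ₗ[ℝ] E) := rfl
    rw [h1, ← LinearMap.det_toMatrix (EuclideanSpace.basisFun (Fin 3) ℝ).toBasis, Matrix.det_apply']
    refine Finset.sum_congr rfl fun σ _ => ?_
    congr 1
  rw [h]
  refine ContDiff.sum fun σ _ => contDiff_const.mul ?_
  refine contDiff_prod fun i _ => ?_
  have h2 : ContDiff ℝ ∞ (fun f : E →L[ℝ] E => f (ee i)) :=
    (ContinuousLinearMap.apply ℝ E (ee i)).contDiff
  exact (EuclideanSpace.proj (𝕜 := ℝ) (σ i)).contDiff.comp h2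

/-- taking adjoints is `ℝ`-linear -/
noncomputable def adjL : (E →L[ℝ] E) →L[ℝ] (E →L[ℝ] E) :=
  AddMonoidHom.toRealLinearMap
    ((ContinuousLinearMap.adjoint : (E →L[ℝ] E) ≃ₗᵢ⋆[ℝ] (E →L[ℝ] E)).toLinearEquiv.toAddEquiv :
      (E →L[ℝ] E) →+ (E →L[ℝ] E))
    (ContinuousLinearMap.adjoint : (E →L[ℝ] E) ≃ₗᵢ⋆[ℝ] (E →L[ℝ] E)).continuous

theorem adjL_apply (f : E →L[ℝ] E) : adjL f = ContinuousLinearMap.adjoint f := rfl

theorem norm_adj (f : E →L[ℝ] E) : ‖ContinuousLinearMap.adjoint f‖ = ‖f‖ :=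
  (ContinuousLinearMap.adjoint : (E →L[ℝ] E) ≃ₗᵢ⋆[ℝ] (E →L[ℝ] E)).norm_map f

/-- determinants are bounded on balls of operators -/
theorem det_bound (C : ℝ) : ∃ K : ℝ, 0 < K ∧ ∀ f : E →L[ℝ] E, ‖f‖ ≤ C → |f.det| ≤ K := by
  obtain ⟨K, hK⟩ := (isCompact_closedBall (0 : E →L[ℝ] E) C).exists_bound_of_continuousOn
    (ContinuousLinearMap.continuous_det (𝕜 := ℝ) (E := E)).continuousOn
  refine ⟨max K 1, lt_max_of_lt_right one_pos, fun f hf => ?_⟩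
  have := hK f (by simpa using hf)
  rw [Real.norm_eq_abs] at this
  exact this.trans (le_max_left _ _)

/-! ### diffeomorphisms -/

/-- the inverse diffeomorphism -/
noncomputable def _root_.Pool.Agent.H92.BN.Dif.symm (Φ : Dif) : Dif :=
  ⟨Φ.inv, Φ.toF, Φ.ri, Φ.li, Φ.sinv, Φ.sto, Φ.C, Φ.binv, Φ.bto⟩

/-- the underlying homeomorphism -/
noncomputable def _root_.Pool.Agent.H92.BN.Dif.homeo (Φ : Dif) : E ≃ₜ E where
  toFun := Φ.toF
  invFun := Φ.inv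
  left_inv := Φ.li
  right_inv := Φ.ri
  continuous_toFun := Φ.sto.continuous
  continuous_invFun := Φ.sinv.continuous

theorem Dif_injective (Φ : Dif) : Function.Injective Φ.toF := Function.LeftInverse.injective Φ.li

theorem Dif_surjective (Φ : Dif) : Function.Surjective Φ.toF := fun x => ⟨Φ.inv x, Φ.ri x⟩

theorem Dif_hasFDerivAt (Φ : Dif) (x : E) : HasFDerivAt Φ.toF (fderiv ℝ Φ.toF x) x :=
  (Φ.sto.differentiable (by simp) x).hasFDerivAt

theorem Dif_hasFDerivAt_inv (Φ : Dif) (x : E) : HasFDerivAt Φ.inv (fderiv ℝ Φ.inv x) x :=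
  (Φ.sinv.differentiable (by simp) x).hasFDerivAt

theorem Dif_comp_left (Φ : Dif) (y : E) :
    (fderiv ℝ Φ.inv (Φ.toF y)) ∘L (fderiv ℝ Φ.toF y) = ContinuousLinearMap.id ℝ E := by
  have h1 := (Dif_hasFDerivAt_inv Φ (Φ.toF y)).comp y (Dif_hasFDerivAt Φ y)
  have h2 : (Φ.inv ∘ Φ.toF) = id := by
    funext x; exact Φ.li x
  rw [h2] at h1
  exact h1.unique (hasFDerivAt_id y)

theorem Dif_comp_right (Φ : Dif) (y : E) :
    (fderiv ℝ Φ.toF y) ∘L (fderiv ℝ Φ.inv (Φ.toF y)) = ContinuousLinearMap.id ℝ E := by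
  have h1 := (Dif_hasFDerivAt Φ (Φ.inv (Φ.toF y))).comp (Φ.toF y)
    (Dif_hasFDerivAt_inv Φ (Φ.toF y))
  have h2 : (Φ.toF ∘ Φ.inv) = id := by
    funext x; exact Φ.ri x
  rw [h2, Φ.li] at h1
  exact h1.unique (hasFDerivAt_id _)

theorem Dif_det_mul (Φ : Dif) (y : E) :
    (fderiv ℝ Φ.toF y).det * (fderiv ℝ Φ.inv (Φ.toF y)).det = 1 := by
  have h := congrArg ContinuousLinearMap.det (Dif_comp_right Φ y)
  have h1 : ((fderiv ℝ Φ.toF y) ∘L (fderiv ℝ Φ.inv (Φ.toF y))).det =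
      (fderiv ℝ Φ.toF y).det * (fderiv ℝ Φ.inv (Φ.toF y)).det := by
    simp only [ContinuousLinearMap.det, ContinuousLinearMap.toLinearMap_comp]
    exact LinearMap.det_comp _ _
  rw [← h1, h]
  simp [ContinuousLinearMap.det]

theorem Dif_det_ne (Φ : Dif) (y : E) : (fderiv ℝ Φ.toF y).det ≠ 0 := by
  intro h
  have := Dif_det_mul Φ y
  rw [h, zero_mul] at this
  exact zero_ne_one this

theorem Dif_map_le (Φ : Dif) {K : ℝ} (hK : ∀ f : E →L[ℝ] E, ‖f‖ ≤ Φ.C → |f.det| ≤ K) :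
    Measure.map Φ.toF volume ≤ ENNReal.ofReal K • (volume : Measure E) := by
  refine Measure.le_iff.2 fun s hs => ?_
  rw [Measure.map_apply Φ.sto.continuous.measurable hs]
  have h1 : Φ.toF ⁻¹' s = Φ.inv '' s := by
    ext x
    constructor
    · intro hx
      exact ⟨Φ.toF x, hx, Φ.li x⟩
    · rintro ⟨z, hz, rfl⟩
      show Φ.toF (Φ.inv z) ∈ s
      rwa [Φ.ri]
  rw [h1, ← lintegral_abs_det_fderiv_eq_addHaar_image volume hs
    (fun x _ => (Dif_hasFDerivAt_inv Φ x).hasFDerivWithinAt)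
    (Function.LeftInverse.injective Φ.ri).injOn]
  calc (∫⁻ x in s, ENNReal.ofReal |(fderiv ℝ Φ.inv x).det|)
      ≤ ∫⁻ _ in s, ENNReal.ofReal K :=
        lintegral_mono fun x => ENNReal.ofReal_le_ofReal (hK _ (Φ.binv x))
    _ = _ := by simp

theorem Dif_qmp (Φ : Dif) : Measure.QuasiMeasurePreserving Φ.toF volume volume := by
  obtain ⟨K, -, hK⟩ := det_bound Φ.C
  exact ⟨Φ.sto.continuous.measurable,
    Measure.absolutelyContinuous_of_le_smul (Dif_map_le Φ hK)⟩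

theorem comp_ae (Φ : Dif) {F : Type*} {f g : E → F} (h : f =ᵐ[volume] g) :
    (fun y => f (Φ.toF y)) =ᵐ[volume] fun y => g (Φ.toF y) :=
  (Dif_qmp Φ).ae_eq_comp h

theorem memLp_comp (Φ : Dif) {F : Type*} [NormedAddCommGroup F] {f : E → F}
    (hf : MemLp f 2 volume) : MemLp (fun y => f (Φ.toF y)) 2 volume := by
  obtain ⟨K, -, hK⟩ := det_bound Φ.C
  exact (hf.of_measure_le_smul (by simp) (Dif_map_le Φ hK)).comp_of_map
    Φ.sto.continuous.measurable.aemeasurable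

theorem eLpNorm_comp_le (Φ : Dif) {K : ℝ} (hK : ∀ f : E →L[ℝ] E, ‖f‖ ≤ Φ.C → |f.det| ≤ K)
    {F : Type*} [NormedAddCommGroup F] {f : E → F} (hf : MemLp f 2 volume) :
    eLpNorm (fun y => f (Φ.toF y)) 2 volume ≤
      ENNReal.ofReal K ^ (1 / (2 : ℝ)) * eLpNorm f 2 volume := by
  have hm := Φ.sto.continuous.measurable.aemeasurable (μ := (volume : Measure E))
  have h1 : eLpNorm (fun y => f (Φ.toF y)) 2 volume = eLpNorm f 2 (Measure.map Φ.toF volume) := by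
    rw [eLpNorm_map_measure (hf.of_measure_le_smul (by simp) (Dif_map_le Φ hK)).1 hm]
    rfl
  rw [h1]
  have := eLpNorm_le_of_measure_le_smul (p := 2) (f := f) (Dif_map_le Φ hK)
  simpa using this

/-! ### the composition operator -/

/-- the gradient part of the composition -/
noncomputable def grc (Φ : Dif) (g : E → E) (y : E) : E :=
  ContinuousLinearMap.adjoint (fderiv ℝ Φ.toF y) (g (Φ.toF y))

theorem grc_norm (Φ : Dif) (g : E → E) (y : E) : ‖grc Φ g y‖ ≤ Φ.C * ‖g (Φ.toF y)‖ := by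
  unfold grc
  refine (ContinuousLinearMap.le_opNorm _ _).trans ?_
  rw [norm_adj]
  exact mul_le_mul_of_nonneg_right (Φ.bto y) (norm_nonneg _)

theorem C_nonneg (Φ : Dif) : 0 ≤ Φ.C := (norm_nonneg _).trans (Φ.bto 0)

theorem continuous_adj (Φ : Dif) :
    Continuous fun y => ContinuousLinearMap.adjoint (fderiv ℝ Φ.toF y) :=
  (ContinuousLinearMap.adjoint : (E →L[ℝ] E) ≃ₗᵢ⋆[ℝ] (E →L[ℝ] E)).continuous.comp
    (Φ.sto.continuous_fderiv (by simp))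

theorem memLp_grc (Φ : Dif) {g : E → E} (hg : MemLp g 2 volume) : MemLp (grc Φ g) 2 volume := by
  have h1 := memLp_comp Φ hg
  refine MemLp.of_le_mul (c := Φ.C) h1 ?_ (Eventually.of_forall fun y => grc_norm Φ g y)
  unfold grc
  have hb : Continuous fun p : (E →L[ℝ] E) × E => p.1 p.2 := isBoundedBilinearMap_apply.continuous
  exact hb.comp_aestronglyMeasurable
    ((continuous_adj Φ).aestronglyMeasurable.prodMk h1.1)

/-- the composition as an element of `BB` -/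
noncomputable def cmp (Φ : Dif) (u : BB) : BB :=
  WithLp.toLp 2 ((memLp_comp Φ (memLp_fn u)).toLp _, (memLp_grc Φ (memLp_gr u)).toLp _)

theorem fn_cmp (Φ : Dif) (u : BB) : fn (cmp Φ u) =ᵐ[volume] fun y => fn u (Φ.toF y) :=
  (memLp_comp Φ (memLp_fn u)).coeFn_toLp

theorem gr_cmp (Φ : Dif) (u : BB) : gr (cmp Φ u) =ᵐ[volume] grc Φ (gr u) :=
  (memLp_grc Φ (memLp_gr u)).coeFn_toLp

theorem isComp_cmp (Φ : Dif) (u : BB) : IsComp Φ u (cmp Φ u) := ⟨fn_cmp Φ u, gr_cmp Φ u⟩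

theorem grc_ae (Φ : Dif) {f g : E → E} (h : f =ᵐ[volume] g) : grc Φ f =ᵐ[volume] grc Φ g := by
  filter_upwards [comp_ae Φ h] with y hy
  unfold grc
  rw [hy]

theorem norm_fst_cmp_le (Φ : Dif) {K : ℝ} (hK0 : 0 < K)
    (hK : ∀ f : E →L[ℝ] E, ‖f‖ ≤ Φ.C → |f.det| ≤ K) (u : BB) :
    ‖(cmp Φ u).fst‖ ≤ Real.sqrt K * ‖u.fst‖ := by
  have h : (cmp Φ u).fst = (memLp_comp Φ (memLp_fn u)).toLp _ := rfl
  rw [h, Lp.norm_toLp, Lp.norm_def]
  have h2 := eLpNorm_comp_le Φ hK (memLp_fn u)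
  have h3 : eLpNorm (fn u) 2 volume ≠ ⊤ := (memLp_fn u).2.ne
  have h4 : ENNReal.ofReal K ^ (1 / (2 : ℝ)) ≠ ⊤ := by
    exact ENNReal.rpow_ne_top_of_nonneg (by norm_num) (by simp)
  refine (ENNReal.toReal_mono (ENNReal.mul_ne_top h4 h3) h2).trans ?_
  rw [ENNReal.toReal_mul, ← ENNReal.toReal_rpow, ENNReal.toReal_ofReal hK0.le, Real.sqrt_eq_rpow]
  exact le_refl _

theorem norm_snd_cmp_le (Φ : Dif) {K : ℝ} (hK0 : 0 < K)
    (hK : ∀ f : E →L[ℝ] E, ‖f‖ ≤ Φ.C → |f.det| ≤ K) (u : BB) :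
    ‖(cmp Φ u).snd‖ ≤ Φ.C * Real.sqrt K * ‖u.snd‖ := by
  have h : (cmp Φ u).snd = (memLp_grc Φ (memLp_gr u)).toLp _ := rfl
  rw [h, Lp.norm_toLp, Lp.norm_def]
  have h1 : eLpNorm (grc Φ (gr u)) 2 volume ≤
      ENNReal.ofReal Φ.C * eLpNorm (fun y => gr u (Φ.toF y)) 2 volume :=
    eLpNorm_le_mul_eLpNorm_of_ae_le_mul (Eventually.of_forall fun y => grc_norm Φ (gr u) y) 2
  have h2 := eLpNorm_comp_le Φ hK (memLp_gr u)
  have h3 : eLpNorm (gr u) 2 volume ≠ ⊤ := (memLp_gr u).2.ne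
  have h4 : ENNReal.ofReal K ^ (1 / (2 : ℝ)) ≠ ⊤ := by
    exact ENNReal.rpow_ne_top_of_nonneg (by norm_num) (by simp)
  have h5 : eLpNorm (grc Φ (gr u)) 2 volume ≤
      ENNReal.ofReal Φ.C * (ENNReal.ofReal K ^ (1 / (2 : ℝ)) * eLpNorm (gr u) 2 volume) :=
    h1.trans (mul_le_mul_right h2 _)
  refine (ENNReal.toReal_mono (ENNReal.mul_ne_top (by simp) (ENNReal.mul_ne_top h4 h3)) h5).trans ?_
  rw [ENNReal.toReal_mul, ENNReal.toReal_mul, ← ENNReal.toReal_rpow, ENNReal.toReal_ofReal hK0.le,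
    ENNReal.toReal_ofReal (C_nonneg Φ), Real.sqrt_eq_rpow, mul_assoc]
  exact le_refl _

theorem cmp_norm_le (Φ : Dif) {K : ℝ} (hK0 : 0 < K)
    (hK : ∀ f : E →L[ℝ] E, ‖f‖ ≤ Φ.C → |f.det| ≤ K) (u : BB) :
    ‖cmp Φ u‖ ≤ (1 + Φ.C) * Real.sqrt K * ‖u‖ := by
  have h1 := norm_fst_cmp_le Φ hK0 hK u
  have h2 := norm_snd_cmp_le Φ hK0 hK u
  have hC := C_nonneg Φ
  have e1 : ‖cmp Φ u‖ ^ 2 = ‖(cmp Φ u).fst‖ ^ 2 + ‖(cmp Φ u).snd‖ ^ 2 := by
    rw [norm_sq_eq, mI_self_eq, dI_self_eq]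
  have e2 : ‖u‖ ^ 2 = ‖u.fst‖ ^ 2 + ‖u.snd‖ ^ 2 := by
    rw [norm_sq_eq, mI_self_eq, dI_self_eq]
  have hs : 0 ≤ Real.sqrt K := Real.sqrt_nonneg _
  refine abs_le_of_sq_le_sq' ?_ (by positivity) |>.2
  rw [e1, mul_pow, e2, mul_add]
  have h3 : Real.sqrt K ≤ (1 + Φ.C) * Real.sqrt K := by nlinarith
  have h4 : Φ.C * Real.sqrt K ≤ (1 + Φ.C) * Real.sqrt K := by nlinarith
  have h5 : ‖(cmp Φ u).fst‖ ≤ ((1 + Φ.C) * Real.sqrt K) * ‖u.fst‖ :=
    h1.trans (mul_le_mul_of_nonneg_right h3 (norm_nonneg _))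
  have h6 : ‖(cmp Φ u).snd‖ ≤ ((1 + Φ.C) * Real.sqrt K) * ‖u.snd‖ :=
    h2.trans (mul_le_mul_of_nonneg_right h4 (norm_nonneg _))
  have h7 := pow_le_pow_left₀ (norm_nonneg _) h5 2
  have h8 := pow_le_pow_left₀ (norm_nonneg _) h6 2
  rw [mul_pow] at h7 h8
  linarith

theorem cmp_add (Φ : Dif) (u v : BB) : cmp Φ (u + v) = cmp Φ u + cmp Φ v := by
  refine ext_ae ?_ ?_
  · filter_upwards [fn_cmp Φ (u + v), fn_cmp Φ u, fn_cmp Φ v, fn_add (cmp Φ u) (cmp Φ v),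
      comp_ae Φ (fn_add u v)] with y h1 h2 h3 h4 h5
    rw [h1, h4, Pi.add_apply, h2, h3, h5, Pi.add_apply]
  · filter_upwards [gr_cmp Φ (u + v), gr_cmp Φ u, gr_cmp Φ v, gr_add (cmp Φ u) (cmp Φ v),
      comp_ae Φ (gr_add u v)] with y h1 h2 h3 h4 h5
    rw [h1, h4, Pi.add_apply, h2, h3]
    unfold grc
    rw [h5, Pi.add_apply, map_add]

theorem cmp_smul (Φ : Dif) (c : ℝ) (u : BB) : cmp Φ (c • u) = c • cmp Φ u := by
  refine ext_ae ?_ ?_
  · filter_upwards [fn_cmp Φ (c • u), fn_cmp Φ u, fn_smul c (cmp Φ u),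
      comp_ae Φ (fn_smul c u)] with y h1 h2 h4 h5
    rw [h1, h4, Pi.smul_apply, h2, h5, Pi.smul_apply]
  · filter_upwards [gr_cmp Φ (c • u), gr_cmp Φ u, gr_smul c (cmp Φ u),
      comp_ae Φ (gr_smul c u)] with y h1 h2 h4 h5
    rw [h1, h4, Pi.smul_apply, h2]
    unfold grc
    rw [h5, Pi.smul_apply, map_smul]

/-- composition as a continuous linear map -/
noncomputable def cmpL (Φ : Dif) : BB →L[ℝ] BB :=
  LinearMap.mkContinuousOfExistsBound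
    { toFun := cmp Φ
      map_add' := cmp_add Φ
      map_smul' := cmp_smul Φ } (by
    obtain ⟨K, hK0, hK⟩ := det_bound Φ.C
    exact ⟨(1 + Φ.C) * Real.sqrt K, fun u => cmp_norm_le Φ hK0 hK u⟩)

theorem cmpL_apply (Φ : Dif) (u : BB) : cmpL Φ u = cmp Φ u := rfl

theorem isTest_comp (Φ : Dif) {Ω : Set E} {φ : E → ℝ} (hφ : IsTest Ω φ) :
    IsTest (Φ.toF ⁻¹' Ω) (fun y => φ (Φ.toF y)) := by
  refine ⟨hφ.smooth.comp Φ.sto, ?_, ?_⟩
  · exact hφ.cpt.comp_homeomorph Φ.homeo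
  · refine (tsupport_comp_subset_preimage φ Φ.sto.continuous).trans ?_
    exact preimage_mono hφ.supp

theorem gradient_comp (Φ : Dif) {φ : E → ℝ} (hφ : ContDiff ℝ ∞ φ) (y : E) :
    gradient (fun y => φ (Φ.toF y)) y =
      ContinuousLinearMap.adjoint (fderiv ℝ Φ.toF y) (gradient φ (Φ.toF y)) := by
  refine ext_inner_right ℝ fun t => ?_
  rw [inner_gradient_left, ContinuousLinearMap.adjoint_inner_left, inner_gradient_left]
  have h : HasFDerivAt (fun y => φ (Φ.toF y)) ((fderiv ℝ φ (Φ.toF y)).comp (fderiv ℝ Φ.toF y)) y :=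
    ((hφ.differentiable (by simp)) (Φ.toF y)).hasFDerivAt.comp y (Dif_hasFDerivAt Φ y)
  rw [h.fderiv]
  rfl

theorem cmp_tb (Φ : Dif) {Ω : Set E} {φ : E → ℝ} (hφ : IsTest Ω φ) :
    cmp Φ (tb φ) = tb (fun y => φ (Φ.toF y)) := by
  have h1 := isTest_comp Φ hφ
  refine Rep.eq_tb h1 ⟨?_, ?_⟩
  · exact (fn_cmp Φ _).trans (comp_ae Φ (rep_tb hφ).1)
  · refine (gr_cmp Φ _).trans ((grc_ae Φ (rep_tb hφ).2).trans ?_)
    refine Eventually.of_forall fun y => ?_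
    exact (gradient_comp Φ hφ.smooth y).symm

theorem cmp_mem (Φ : Dif) {Ω : Set E} {u : BB} (hu : u ∈ V Ω) :
    cmp Φ u ∈ V (Φ.toF ⁻¹' Ω) := by
  refine V_induction (C := (cmpL Φ) ⁻¹' (V (Φ.toF ⁻¹' Ω) : Set BB))
    ((isClosed_V _).preimage (cmpL Φ).continuous) ?_ hu
  intro φ hφ
  show cmp Φ (tb φ) ∈ V (Φ.toF ⁻¹' Ω)
  rw [cmp_tb Φ hφ]
  exact tb_mem (isTest_comp Φ hφ)

end E1

open E1

theorem compStmt : CompStmt := by
  intro C
  obtain ⟨K, hK0, hK⟩ := det_bound C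
  refine ⟨(1 + |C|) * Real.sqrt K, by positivity, fun Φ hΦ Ω u hu => ?_⟩
  refine ⟨cmp Φ u, cmp_mem Φ hu, isComp_cmp Φ u, ?_⟩
  refine (cmp_norm_le Φ hK0 (fun f hf => hK f (hf.trans hΦ)) u).trans ?_
  have : Φ.C ≤ |C| := hΦ.trans (le_abs_self C)
  gcongr

namespace E1

/-! ### the transformed equation -/

theorem contDiff_fderiv_inv (Φ : Dif) : ContDiff ℝ ∞ (fun y => fderiv ℝ Φ.inv (Φ.toF y)) :=
  (Φ.sinv.fderiv_right (m := ∞) (by simp)).comp Φ.sto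

theorem contDiff_absdet (Φ : Dif) : ContDiff ℝ ∞ (fun y => |(fderiv ℝ Φ.toF y).det|) := by
  have h1 : ContDiff ℝ ∞ (fun y => (fderiv ℝ Φ.toF y).det) :=
    contDiff_det.comp (Φ.sto.fderiv_right (m := ∞) (by simp))
  exact h1.abs (Dif_det_ne Φ)

theorem coef_pull (Φ : Dif) {A : E → E →L[ℝ] E} {J : E → ℝ} (h : Coef A J) :
    Coef (pullA Φ A) (pullJ Φ J) := by
  obtain ⟨K, hK0, hK⟩ := det_bound Φ.C
  have hC := C_nonneg Φ
  refine ⟨?_, ?_, ?_, ?_, ?_⟩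
  · unfold pullA
    refine (contDiff_absdet Φ).smul ?_
    refine (contDiff_fderiv_inv Φ).clm_comp ?_
    refine (h.smoothA.comp Φ.sto).clm_comp ?_
    exact adjL.contDiff.comp (contDiff_fderiv_inv Φ)
  · unfold pullJ
    exact (contDiff_absdet Φ).mul (h.smoothJ.comp Φ.sto)
  · obtain ⟨CA, hCA⟩ := h.bddA
    refine ⟨K * (Φ.C * (|CA| * Φ.C)), fun x => ?_⟩
    unfold pullA
    rw [norm_smul, Real.norm_eq_abs, abs_abs]
    refine mul_le_mul (hK _ (Φ.bto x)) ?_ (norm_nonneg _) hK0.le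
    refine (ContinuousLinearMap.opNorm_comp_le _ _).trans ?_
    refine mul_le_mul (Φ.binv _) ?_ (norm_nonneg _) hC
    refine (ContinuousLinearMap.opNorm_comp_le _ _).trans ?_
    rw [norm_adj]
    exact mul_le_mul ((hCA _).trans (le_abs_self _)) (Φ.binv _) (norm_nonneg _) (abs_nonneg _)
  · obtain ⟨CJ, hCJ⟩ := h.bddJ
    refine ⟨K * |CJ|, fun x => ?_⟩
    unfold pullJ
    rw [abs_mul, abs_abs]
    exact mul_le_mul (hK _ (Φ.bto x)) ((hCJ _).trans (le_abs_self _)) (abs_nonneg _) hK0.le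
  · obtain ⟨θ, hθ, hell⟩ := h.ell
    refine ⟨K⁻¹ * θ * ((1 + Φ.C) ^ 2)⁻¹, by positivity, fun x v => ?_⟩
    set B := fderiv ℝ Φ.inv (Φ.toF x) with hB
    set z := ContinuousLinearMap.adjoint B v with hz
    have e1 : ⟪pullA Φ A x v, v⟫_ℝ = |(fderiv ℝ Φ.toF x).det| * ⟪A (Φ.toF x) z, z⟫_ℝ := by
      unfold pullA
      rw [_root_.smul_apply, real_inner_smul_left]
      congr 1
      rw [hz, ContinuousLinearMap.adjoint_inner_right]
      rfl
    rw [e1]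
    have h1 : K⁻¹ ≤ |(fderiv ℝ Φ.toF x).det| := by
      have h2 := Dif_det_mul Φ x
      have h3 : |(fderiv ℝ Φ.toF x).det| * |B.det| = 1 := by
        rw [← abs_mul, h2, abs_one]
      have h4 := hK B (Φ.binv _)
      have h5 : 0 < |B.det| := by
        rcases (abs_nonneg B.det).lt_or_eq with h | h
        · exact h
        · rw [← h, mul_zero] at h3; exact absurd h3 zero_ne_one
      have h6 : |(fderiv ℝ Φ.toF x).det| = |B.det|⁻¹ := eq_inv_of_mul_eq_one_left h3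
      rw [h6]
      exact inv_anti₀ h5 h4
    have h2 : ‖v‖ ≤ (1 + Φ.C) * ‖z‖ := by
      have h3 : ContinuousLinearMap.adjoint (fderiv ℝ Φ.toF x) z = v := by
        rw [hz, ← ContinuousLinearMap.comp_apply, ← ContinuousLinearMap.adjoint_comp,
          Dif_comp_left]
        simp
      calc ‖v‖ = ‖ContinuousLinearMap.adjoint (fderiv ℝ Φ.toF x) z‖ := by rw [h3]
        _ ≤ ‖ContinuousLinearMap.adjoint (fderiv ℝ Φ.toF x)‖ * ‖z‖ :=
          ContinuousLinearMap.le_opNorm _ _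
        _ ≤ (1 + Φ.C) * ‖z‖ := by
          rw [norm_adj]
          refine mul_le_mul_of_nonneg_right ?_ (norm_nonneg _)
          linarith [Φ.bto x]
    have h3 : ((1 + Φ.C) ^ 2)⁻¹ * ‖v‖ ^ 2 ≤ ‖z‖ ^ 2 := by
      rw [inv_mul_le_iff₀ (by positivity), ← mul_pow]
      exact pow_le_pow_left₀ (norm_nonneg _) h2 2
    calc K⁻¹ * θ * ((1 + Φ.C) ^ 2)⁻¹ * ‖v‖ ^ 2 = K⁻¹ * (θ * (((1 + Φ.C) ^ 2)⁻¹ * ‖v‖ ^ 2)) := by ring
      _ ≤ K⁻¹ * (θ * ‖z‖ ^ 2) := by gcongr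
      _ ≤ K⁻¹ * ⟪A (Φ.toF x) z, z⟫_ℝ := by
        gcongr
        exact hell _ _
      _ ≤ _ := by
        refine mul_le_mul_of_nonneg_right h1 ?_
        exact le_trans (by positivity) (hell _ _)

theorem cov (Φ : Dif) (g : E → ℝ) :
    (∫ x, g x) = ∫ y, |(fderiv ℝ Φ.toF y).det| * g (Φ.toF y) := by
  have h := integral_image_eq_integral_abs_det_fderiv_smul (volume : Measure E) MeasurableSet.univ
    (fun x _ => (Dif_hasFDerivAt Φ x).hasFDerivWithinAt) (Dif_injective Φ).injOn g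
  rw [image_univ, (Dif_surjective Φ).range_eq, Measure.restrict_univ] at h
  exact h

end E1

theorem transStmt : TransStmt := by
  intro Φ Ω A J hAJ
  refine ⟨coef_pull Φ hAJ, fun lam om u w hu hw hc => ⟨hw, fun η hη => ?_⟩⟩
  have hζ : cmp Φ.symm η ∈ V Ω := by
    have h1 := cmp_mem Φ.symm hη
    have h2 : Φ.symm.toF ⁻¹' (Φ.toF ⁻¹' Ω) = Ω := by
      ext x
      show Φ.toF (Φ.inv x) ∈ Ω ↔ x ∈ Ω
      rw [Φ.ri]
    rwa [h2] at h1
  have key := hu.2 (cmp Φ.symm η) hζ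
  rw [cov Φ, cov Φ (fun x => J x * (lam * fn u x + om * fn u x ^ 5) * fn (cmp Φ.symm η) x)] at key
  have c1 := comp_ae Φ (fn_cmp Φ.symm η)
  have c2 := comp_ae Φ (gr_cmp Φ.symm η)
  have d1 : (∫ y, |(fderiv ℝ Φ.toF y).det| *
      ⟪A (Φ.toF y) (gr u (Φ.toF y)), gr (cmp Φ.symm η) (Φ.toF y)⟫_ℝ) =
      ∫ y, ⟪pullA Φ A y (gr w y), gr η y⟫_ℝ := by
    refine integral_congr_ae ?_
    filter_upwards [c2, hc.2] with y h2 h3
    rw [h2, h3]
    have e1 : grc Φ.symm (gr η) (Φ.toF y) =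
        ContinuousLinearMap.adjoint (fderiv ℝ Φ.inv (Φ.toF y)) (gr η y) := by
      show ContinuousLinearMap.adjoint (fderiv ℝ Φ.inv (Φ.toF y)) (gr η (Φ.inv (Φ.toF y))) = _
      rw [Φ.li]
    have e2 : ContinuousLinearMap.adjoint (fderiv ℝ Φ.inv (Φ.toF y))
        (ContinuousLinearMap.adjoint (fderiv ℝ Φ.toF y) (gr u (Φ.toF y))) = gr u (Φ.toF y) := by
      rw [← ContinuousLinearMap.comp_apply, ← ContinuousLinearMap.adjoint_comp, Dif_comp_right]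
      simp
    rw [e1]
    unfold pullA
    rw [_root_.smul_apply, real_inner_smul_left]
    congr 1
    rw [ContinuousLinearMap.comp_apply, ContinuousLinearMap.comp_apply, e2,
      ContinuousLinearMap.adjoint_inner_right]
  have d2 : (∫ y, |(fderiv ℝ Φ.toF y).det| * (J (Φ.toF y) *
      (lam * fn u (Φ.toF y) + om * fn u (Φ.toF y) ^ 5) * fn (cmp Φ.symm η) (Φ.toF y))) =
      ∫ y, pullJ Φ J y * (lam * fn w y + om * fn w y ^ 5) * fn η y := by
    refine integral_congr_ae ?_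
    filter_upwards [c1, hc.1] with y h2 h3
    rw [h2, h3]
    have e1 : Φ.symm.toF (Φ.toF y) = y := Φ.li y
    rw [e1]
    unfold pullJ
    ring
  rw [← d1, ← d2]
  exact key

end Pool.Agent.H92.BN
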