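import Pool.Agent.H92.BN.ME11_Local

/-!
# Module E11, part 3: interior regularity
-/

set_option autoImplicit false

namespace Pool.Agent.H92.BN

open MeasureTheory Set Filter Topology
open scoped ContDiff InnerProductSpace Manifold

theorem coefIdP : Coef (fun _ => ContinuousLinearMap.id ℝ E) (fun _ => 1) where
  smoothA := contDiff_const
  smoothJ := contDiff_const
  bddA := ⟨‖ContinuousLinearMap.id ℝ E‖, fun _ => le_rfl⟩
  bddJ := ⟨|1|, fun _ => le_rfl⟩
  ell := ⟨1, one_pos, fun x v => by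
    rw [ContinuousLinearMap.id_apply, real_inner_self_eq_norm_sq, one_mul]⟩

/-- `u⁵ v` is integrable for `u, v ∈ L⁶`, a.e. dominated by `u⁶ + v⁶` -/
theorem integrable_p5 {f g : E → ℝ} (hf : MemLp f 6 volume) (hg : MemLp g 6 volume) :
    Integrable (fun x => f x ^ 5 * g x) volume := by
  have h6 : ∀ {f : E → ℝ}, MemLp f 6 volume → Integrable (fun x => |f x| ^ 6) volume := by
    intro f hf
    have := hf.integrable_norm_pow (p := 6) (by norm_num)
    simpa using this
  refine ((h6 hf).add (h6 hg)).mono' ((hf.1.pow 5).mul hg.1) ?_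
  refine Eventually.of_forall fun x => ?_
  rw [Real.norm_eq_abs, abs_mul, abs_pow]
  show |f x| ^ 5 * |g x| ≤ |f x| ^ 6 + |g x| ^ 6
  have ha := abs_nonneg (f x)
  have hb := abs_nonneg (g x)
  rcases le_total (|f x|) (|g x|) with h | h
  · have : |f x| ^ 5 ≤ |g x| ^ 5 := by gcongr
    nlinarith [pow_nonneg ha 6, pow_nonneg hb 5]
  · nlinarith [pow_nonneg ha 5, pow_nonneg hb 6]

theorem Sol.solC (hS : SobVStmt) {Ω : Set E} {lam om : ℝ} {u : BB} (h : Sol Ω lam om u) :
    SolC Ω (fun _ => ContinuousLinearMap.id ℝ E) (fun _ => 1) lam om u := by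
  refine ⟨h.1, fun η hη => ?_⟩
  have h1 := h.2 η hη
  unfold dI mI p5 at h1
  simp only [ContinuousLinearMap.id_apply, one_mul]
  rw [h1]
  have i1 : Integrable (fun x => fn u x * fn η x) volume := (memLp_fn u).integrable_mul (memLp_fn η)
  have i2 : Integrable (fun x => fn u x ^ 5 * fn η x) volume :=
    integrable_p5 (hS.2 u (V_le_univ _ h.1)).1 (hS.2 η (V_le_univ _ hη)).1
  have a1 : (∫ x, lam * (fn u x * fn η x)) = lam * ∫ x, fn u x * fn η x := integral_const_mul _ _
  have a2 : (∫ x, om * (fn u x ^ 5 * fn η x)) = om * ∫ x, fn u x ^ 5 * fn η x :=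
    integral_const_mul _ _
  have i3 : Integrable (fun x => lam * (fn u x * fn η x)) volume := i1.const_mul _
  have i4 : Integrable (fun x => om * (fn u x ^ 5 * fn η x)) volume := i2.const_mul _
  rw [← a1, ← a2, ← integral_add i3 i4]
  congr 1; ext x; ring

/-- local smoothness in the interior -/
theorem int_local (hS : SobVStmt) (hT : TangStmt) (hI : InnerStmt) {Ω : Set E} (hΩ : IsOpen Ω)
    {lam om : ℝ} {u : BB} (hu : Sol Ω lam om u) {x0 : E} (hx0 : x0 ∈ Ω) :
    ∃ r : ℝ, 0 < r ∧ Metric.ball x0 r ⊆ Ω ∧ ∃ U : E → ℝ, ContDiff ℝ ∞ U ∧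
      ∀ᵐ x ∂(volume.restrict (Metric.ball x0 r)), fn u x = U x := by
  obtain ⟨R, hR, hRΩ⟩ := Metric.isOpen_iff.1 hΩ x0 hx0
  have hcb : Metric.closedBall x0 (R / 2) ⊆ Ω :=
    (Metric.closedBall_subset_ball (by linarith)).trans hRΩ
  have hb : Metric.ball x0 (R / 2) ∩ Ω = Metric.ball x0 (R / 2) :=
    inter_eq_left.2 (Metric.ball_subset_closedBall.trans hcb)
  have hA : AllW (Metric.ball x0 (R / 2)) (fn u) := by
    refine ⟨(memLp_fn u).restrict _, fun L => ?_⟩
    obtain ⟨w, hw, hW⟩ := hT Ω hΩ _ _ coefIdP lam om u (hu.solC hS) E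
      (ContinuousLinearMap.id ℝ E) Ω hΩ (fun x hx t hxt => ⟨fun _ => hxt, fun _ => hx⟩)
      x0 (R / 2) (by positivity) hcb (L.map ee)
    rw [hb] at hW
    refine ⟨fn w, (memLp_fn w).restrict _, ?_⟩
    simpa using hW
  obtain ⟨U, hU, hUe⟩ := hI x0 (R / 2) (by positivity) (fn u) hA
  refine ⟨R / 2 / 2, by positivity, ?_, U, hU, hUe⟩
  exact (Metric.ball_subset_ball (by linarith)).trans hRΩ

theorem lap_congr {U V : E → ℝ} {x : E} (h : U =ᶠ[𝓝 x] V) : lap U x = lap V x := by
  unfold lap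
  refine Finset.sum_congr rfl (fun i _ => ?_)
  have h1 : (fun y => fderiv ℝ U y (EuclideanSpace.single i 1)) =ᶠ[𝓝 x]
      (fun y => fderiv ℝ V y (EuclideanSpace.single i 1)) := by
    filter_upwards [h.fderiv (𝕜 := ℝ)] with y hy
    rw [hy]
  rw [h1.fderiv_eq]

theorem regIntP (hS : SobVStmt) (hT : TangStmt) (hI : InnerStmt) : RegIntStmt := by
  classical
  intro Ω hΩ lam om u hu
  have hloc := fun (x0 : E) (hx0 : x0 ∈ Ω) => int_local hS hT hI hΩ hu hx0
  choose! r hr hrΩ U hU hUe using hloc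
  let W : E → ℝ := fun y => U y y
  have hWeq : ∀ x ∈ Ω, ∀ y ∈ Metric.ball x (r x), W y = U x y := by
    intro x hx y hy
    have hyΩ : y ∈ Ω := hrΩ x hx hy
    have ho : IsOpen (Metric.ball x (r x) ∩ Metric.ball y (r y)) :=
      Metric.isOpen_ball.inter Metric.isOpen_ball
    have h1 : ∀ᵐ z ∂(volume.restrict (Metric.ball x (r x) ∩ Metric.ball y (r y))),
        fn u z = U x z := ae_restrict_of_ae_restrict_of_subset inter_subset_left (hUe x hx)
    have h2 : ∀ᵐ z ∂(volume.restrict (Metric.ball x (r x) ∩ Metric.ball y (r y))),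
        fn u z = U y z := ae_restrict_of_ae_restrict_of_subset inter_subset_right (hUe y hyΩ)
    have h3 : U y =ᵐ[volume.restrict (Metric.ball x (r x) ∩ Metric.ball y (r y))] U x := by
      filter_upwards [h1, h2] with z hz1 hz2
      rw [← hz1, ← hz2]
    exact Measure.eqOn_open_of_ae_eq h3 ho (hU y hyΩ).continuous.continuousOn
      (hU x hx).continuous.continuousOn ⟨hy, Metric.mem_ball_self (hr y hyΩ)⟩
  have hev : ∀ x ∈ Ω, W =ᶠ[𝓝 x] U x := fun x hx =>
    Filter.eventually_of_mem (Metric.ball_mem_nhds x (hr x hx)) (hWeq x hx)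
  refine ⟨W, ?_, ?_, ?_⟩
  · intro x hx
    exact ((hU x hx).contDiffAt.congr_of_eventuallyEq (hev x hx)).contDiffWithinAt
  · rw [ae_restrict_iff' hΩ.measurableSet]
    have : volume {x | x ∈ Ω ∧ fn u x ≠ W x} = 0 := by
      refine measure_null_of_locally_null _ (fun x hx => ?_)
      refine ⟨Metric.ball x (r x) ∩ {x | x ∈ Ω ∧ fn u x ≠ W x},
        inter_mem (mem_nhdsWithin_of_mem_nhds (Metric.ball_mem_nhds x (hr x hx.1)))
          self_mem_nhdsWithin, ?_⟩
      have h1 := hUe x hx.1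
      rw [ae_restrict_iff' Metric.isOpen_ball.measurableSet, ae_iff] at h1
      refine measure_mono_null ?_ h1
      rintro y ⟨hy1, hy2, hy3⟩
      show ¬ (y ∈ Metric.ball x (r x) → fn u y = U x y)
      intro h
      exact hy3 ((h hy1).trans (hWeq x hx.1 y hy1).symm)
    rw [ae_iff]
    refine measure_mono_null ?_ this
    intro y hy
    have hy' : ¬ (y ∈ Ω → fn u y = W y) := hy
    push Not at hy'
    exact hy'
  · intro x hx
    rw [lap_congr (hev x hx), (hev x hx).eq_of_nhds]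
    exact classical_local hu Metric.isOpen_ball (hrΩ x hx) (hU x hx) (hUe x hx) x
      (Metric.mem_ball_self (hr x hx))

end Pool.Agent.H92.BN
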