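import Pool.Agent.H92.BN.Api

/-!
# Module E11, part 4: zero boundary values in the flat situation
-/

set_option autoImplicit false

namespace Pool.Agent.H92.BN

open MeasureTheory Set Filter Topology
open scoped ContDiff InnerProductSpace Manifold

theorem vol_box (a b : Fin 3 → ℝ) :
    volume {x : E | ∀ i, x i ∈ Ioo (a i) (b i)} = ∏ i, ENNReal.ofReal (b i - a i) := by
  rw [← Real.volume_pi_Ioo,
    ← (PiLp.volume_preserving_ofLp (Fin 3)).measure_preimage
      (MeasurableSet.univ_pi (fun i => measurableSet_Ioo)).nullMeasurableSet]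
  congr 1
  ext x
  simp [Set.mem_pi]

/-- the smooth step `x ↦ st (1 + x₂/h)` -/
noncomputable def stp (h : ℝ) (x : E) : ℝ := Real.smoothTransition (1 + x 2 / h)

theorem contDiff_stp (h : ℝ) : ContDiff ℝ ∞ (stp h) := by
  unfold stp
  refine Real.smoothTransition.contDiff.comp ?_
  refine contDiff_const.add (ContDiff.div_const ?_ _)
  exact (EuclideanSpace.proj (𝕜 := ℝ) (2 : Fin 3)).contDiff

theorem fderiv_stp (h : ℝ) (x : E) :
    fderiv ℝ (stp h) x (ee 2) = deriv Real.smoothTransition (1 + x 2 / h) / h := by
  have h1 : HasDerivAt Real.smoothTransition (deriv Real.smoothTransition (1 + x 2 / h))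
      (1 + x 2 / h) :=
    ((Real.smoothTransition.contDiff (n := 1)).differentiable (by simp) _).hasDerivAt
  have h2 : HasFDerivAt (fun x : E => 1 + x 2 / h)
      ((h⁻¹ : ℝ) • (EuclideanSpace.proj (𝕜 := ℝ) (2 : Fin 3) : E →L[ℝ] ℝ)) x := by
    have h3 : HasFDerivAt (fun x : E => x 2)
        (EuclideanSpace.proj (𝕜 := ℝ) (2 : Fin 3) : E →L[ℝ] ℝ) x :=
      (EuclideanSpace.proj (𝕜 := ℝ) (2 : Fin 3) : E →L[ℝ] ℝ).hasFDerivAt
    have h4 := (h3.const_mul (h⁻¹)).const_add 1
    refine h4.congr_of_eventuallyEq (Eventually.of_forall fun y => ?_)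
    simp only [div_eq_inv_mul]
  have h5 := h1.comp_hasFDerivAt x h2
  have h6 : fderiv ℝ (stp h) x = _ := h5.fderiv
  rw [h6]
  simp [ee, div_eq_mul_inv]

/-- existence of an interval on which the derivative of the smooth transition is large -/
theorem exists_interval : ∃ a b : ℝ, 0 < a ∧ a < b ∧ b < 1 ∧
    ∀ t ∈ Ioo a b, 1 / 2 < deriv Real.smoothTransition t := by
  have hc : Continuous (deriv Real.smoothTransition) :=
    (Real.smoothTransition.contDiff (n := 1)).continuous_deriv (by simp)
  have hd : Differentiable ℝ Real.smoothTransition :=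
    (Real.smoothTransition.contDiff (n := 1)).differentiable (by simp)
  obtain ⟨c, hc1, hc2⟩ := exists_deriv_eq_slope Real.smoothTransition (zero_lt_one)
    hd.continuous.continuousOn hd.differentiableOn
  rw [Real.smoothTransition.one, Real.smoothTransition.zero] at hc2
  have h1 : ∀ᶠ t in 𝓝 c, 1 / 2 < deriv Real.smoothTransition t := by
    refine hc.continuousAt.eventually (lt_mem_nhds ?_)
    rw [hc2]; norm_num
  obtain ⟨l, u, ⟨hl, hu⟩, hlu⟩ := mem_nhds_iff_exists_Ioo_subset.1 (inter_mem h1 (Ioo_mem_nhds hc1.1 hc1.2))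
  refine ⟨(l ⊔ 0 + c) / 2, c, ?_, ?_, hc1.2, ?_⟩
  · have := le_max_right l 0
    have := hc1.1
    linarith
  · have : max l 0 < c := max_lt hl hc1.1
    linarith
  · intro t ht
    have h3 : l < t := by
      have h4 := le_max_left l 0
      have h5 : max l 0 < c := max_lt hl hc1.1
      have := ht.1
      linarith
    exact (hlu ⟨h3, ht.2.trans hu⟩).1

theorem deriv_st_nonneg (t : ℝ) : 0 ≤ deriv Real.smoothTransition t :=
  Real.smoothTransition.monotone.deriv_nonneg

theorem abs_coord_le (x : E) (i : Fin 3) : |x i| ≤ ‖x‖ := by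
  have := PiLp.norm_apply_le (p := 2) x i
  simpa using this

theorem norm_lt_of_coord {x : E} {a : ℝ} (ha : 0 < a) (h : ∀ i, |x i| < a) : ‖x‖ < 2 * a := by
  have h1 : ‖x‖ ^ 2 = ∑ i, x i ^ 2 := by
    rw [EuclideanSpace.norm_sq_eq]
    simp
  rw [Fin.sum_univ_three] at h1
  have h2 : ∀ i, x i ^ 2 < a ^ 2 := fun i => by
    rw [← sq_abs]
    exact pow_lt_pow_left₀ (h i) (abs_nonneg _) (by norm_num)
  have h3 : ‖x‖ ^ 2 < (2 * a) ^ 2 := by
    have := h2 0; have := h2 1; have := h2 2
    nlinarith
  exact lt_of_pow_lt_pow_left₀ 2 (by positivity) h3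

theorem zeroBd_pos (Ω : Set E) (r : ℝ) (hr : 0 < r)
    (hflat : ∀ y ∈ Metric.ball (0 : E) r, (y ∈ Ω ↔ y 2 < 0)) (w : BB) (hw : w ∈ V Ω)
    (U : E → ℝ) (hU : ContDiff ℝ ∞ U) (s : ℝ) (hs : 0 < s)
    (hwU : ∀ᵐ x ∂(volume.restrict (boxm s)), fn w x = U x) (h0 : 0 < U 0) : False := by
  -- measurable enlargement of `Ω`
  let Ω' : Set E := {x | x ∈ Metric.ball (0 : E) r → x 2 < 0}
  have hΩ' : MeasurableSet Ω' := by
    have h1 : MeasurableSet {x : E | x 2 < 0} :=
      measurableSet_lt (EuclideanSpace.proj (𝕜 := ℝ) (2 : Fin 3)).continuous.measurable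
        measurable_const
    exact measurableSet_ball.imp h1
  have hw' : w ∈ V Ω' := V_mono (fun x hx hxb => (hflat x hxb).1 hx) hw
  have hoff := ae_zero_off hΩ' hw'
  have hwu : w ∈ V univ := V_le_univ _ hw
  -- lower bound for `U`
  obtain ⟨ρ0, hρ0, hUρ⟩ : ∃ ρ0 > 0, ∀ x ∈ Metric.ball (0 : E) ρ0, U 0 / 2 < U x := by
    have : ∀ᶠ x in 𝓝 (0 : E), U 0 / 2 < U x :=
      hU.continuous.continuousAt.eventually (lt_mem_nhds (by linarith))
    obtain ⟨ρ0, h1, h2⟩ := Metric.eventually_nhds_iff_ball.1 this
    exact ⟨ρ0, h1, h2⟩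
  obtain ⟨ρ, hρ, hρ1, hρ2, hρ3⟩ : ∃ ρ > 0, 2 * ρ < ρ0 ∧ 2 * ρ < r ∧ 2 * ρ < s := by
    have hm : 0 < min ρ0 (min r s) := lt_min hρ0 (lt_min hr hs)
    refine ⟨min ρ0 (min r s) / 4, by positivity, ?_, ?_, ?_⟩
    · have := min_le_left ρ0 (min r s); linarith
    · have := (min_le_right ρ0 (min r s)).trans (min_le_left r s); linarith
    · have := (min_le_right ρ0 (min r s)).trans (min_le_right r s); linarith
  let κ : ContDiffBump (0 : E) := ⟨ρ, 2 * ρ, hρ, by linarith⟩
  have hκs : ContDiff ℝ ∞ (κ : E → ℝ) := κ.contDiff
  have hκsupp : Function.support (κ : E → ℝ) = Metric.ball 0 (2 * ρ) := κ.support_eq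
  have hκt : tsupport (κ : E → ℝ) = Metric.closedBall 0 (2 * ρ) := κ.tsupport_eq
  -- the interval
  obtain ⟨α, β, hα, hαβ, hβ, hd⟩ := exists_interval
  -- step sizes
  let h : ℕ → ℝ := fun n => 1 / ((n : ℝ) + 1)
  have hhpos : ∀ n, 0 < h n := fun n => by positivity
  have hh0 : Tendsto h atTop (𝓝 0) := tendsto_one_div_add_atTop_nhds_zero_nat
  let η : ℕ → E → ℝ := fun n x => κ x * stp (h n) x
  have hηs : ∀ n, ContDiff ℝ ∞ (η n) := fun n => hκs.mul (contDiff_stp (h n))
  have hηc : ∀ n, HasCompactSupport (η n) := fun n => κ.hasCompactSupport.mul_right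
  have hdη : ∀ n x, fderiv ℝ (η n) x (ee 2) =
      κ x * (deriv Real.smoothTransition (1 + x 2 / h n) / h n) +
        fderiv ℝ κ x (ee 2) * stp (h n) x := by
    intro n x
    have e1 : fderiv ℝ (η n) x = κ x • fderiv ℝ (stp (h n)) x + stp (h n) x • fderiv ℝ κ x :=
      fderiv_mul (hκs.differentiable (by simp) x) ((contDiff_stp (h n)).differentiable (by simp) x)
    rw [e1]
    simp only [_root_.add_apply, _root_.smul_apply, smul_eq_mul, fderiv_stp]
    ring
  -- the integrands
  let F : ℕ → E → ℝ := fun n x =>
    fn w x * (κ x * (deriv Real.smoothTransition (1 + x 2 / h n) / h n))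
  have hdst : Continuous (deriv Real.smoothTransition) :=
    (Real.smoothTransition.contDiff (n := 1)).continuous_deriv (by simp)
  have hc2 : Continuous (fun x : E => x 2) := (EuclideanSpace.proj (𝕜 := ℝ) (2 : Fin 3)).continuous
  have hFint : ∀ n, Integrable (F n) volume := by
    intro n
    refine (memLp_fn w).integrable_mul (q := 2) (p := 2) ?_
    refine Continuous.memLp_of_hasCompactSupport ?_ κ.hasCompactSupport.mul_right
    exact κ.continuous.mul ((hdst.comp (continuous_const.add (hc2.div_const _))).div_const _)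
  have hκ' : Continuous (fun x => fderiv ℝ κ x (ee 2)) :=
    (hκs.continuous_fderiv (by simp)).clm_apply continuous_const
  have hκ'c : HasCompactSupport (fun x => fderiv ℝ κ x (ee 2)) := by
    have := (κ.hasCompactSupport.fderiv (𝕜 := ℝ)).comp_left
      (g := fun l : E →L[ℝ] ℝ => l (ee 2)) (by simp)
    exact this
  have hGint : ∀ n, Integrable (fun x => fn w x * (fderiv ℝ κ x (ee 2) * stp (h n) x)) volume := by
    intro n
    refine (memLp_fn w).integrable_mul (q := 2) (p := 2) ?_
    refine Continuous.memLp_of_hasCompactSupport ?_ hκ'c.mul_right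
    exact hκ'.mul (contDiff_stp _).continuous
  have hg2 : MemLp (fun x => ⟪gr w x, ee 2⟫_ℝ) 2 volume := (memLp_gr w).inner_const (ee 2)
  have hHint : ∀ n, Integrable (fun x => ⟪gr w x, ee 2⟫_ℝ * η n x) volume := by
    intro n
    refine hg2.integrable_mul (q := 2) (p := 2) ?_
    exact (hηs n).continuous.memLp_of_hasCompactSupport (hηc n)
  have hweak : ∀ n, (∫ x, F n x) =
      - ∫ x, (⟪gr w x, ee 2⟫_ℝ * η n x + fn w x * (fderiv ℝ κ x (ee 2) * stp (h n) x)) := by
    intro n
    have h1 := BN.weak_grad hwu (hηs n) (hηc n) (ee 2)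
    have h2 : (∫ x, fn w x * fderiv ℝ (η n) x (ee 2)) =
        (∫ x, F n x) + ∫ x, fn w x * (fderiv ℝ κ x (ee 2) * stp (h n) x) := by
      rw [← integral_add (hFint n) (hGint n)]
      refine integral_congr_ae (Eventually.of_forall fun x => ?_)
      simp only [hdη, F]
      ring
    rw [integral_add (hHint n) (hGint n)]
    linarith
  -- the right-hand side tends to zero
  have hlim : Tendsto (fun n => ∫ x, (⟪gr w x, ee 2⟫_ℝ * η n x +
      fn w x * (fderiv ℝ κ x (ee 2) * stp (h n) x))) atTop (𝓝 0) := by
    have hz : (0 : ℝ) = ∫ _ : E, (0 : ℝ) := by simp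
    rw [hz]
    refine tendsto_integral_of_dominated_convergence
      (fun x => |⟪gr w x, ee 2⟫_ℝ * κ x| + |fn w x * fderiv ℝ κ x (ee 2)|) ?_ ?_ ?_ ?_
    · intro n
      exact ((hHint n).add (hGint n)).aestronglyMeasurable
    · refine Integrable.add (Integrable.abs ?_) (Integrable.abs ?_)
      · exact hg2.integrable_mul (q := 2) (p := 2)
          (κ.continuous.memLp_of_hasCompactSupport κ.hasCompactSupport)
      · exact (memLp_fn w).integrable_mul (q := 2) (p := 2)
          (hκ'.memLp_of_hasCompactSupport hκ'c)
    · intro n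
      refine Eventually.of_forall fun x => ?_
      have hs1 : |stp (h n) x| ≤ 1 := by
        unfold stp
        rw [abs_of_nonneg (Real.smoothTransition.nonneg _)]
        exact Real.smoothTransition.le_one _
      rw [Real.norm_eq_abs]
      refine (abs_add_le _ _).trans (add_le_add ?_ ?_)
      · show |⟪gr w x, ee 2⟫_ℝ * (κ x * stp (h n) x)| ≤ _
        rw [← mul_assoc, abs_mul]
        exact mul_le_of_le_one_right (abs_nonneg _) hs1
      · rw [← mul_assoc, abs_mul]
        exact mul_le_of_le_one_right (abs_nonneg _) hs1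
    · filter_upwards [hoff] with x hx
      by_cases hxr : x ∈ Metric.ball (0 : E) r
      · by_cases hx2 : x 2 < 0
        · have hev : ∀ᶠ n in atTop, h n < - x 2 := hh0.eventually (gt_mem_nhds (by linarith))
          refine tendsto_const_nhds.congr' ?_
          filter_upwards [hev] with n hn
          have hst : stp (h n) x = 0 := by
            unfold stp
            apply Real.smoothTransition.zero_of_nonpos
            have : x 2 / h n ≤ -1 := by
              rw [div_le_iff₀ (hhpos n)]; linarith
            linarith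
          simp [η, hst]
        · obtain ⟨h1, h2⟩ := hx (fun h => hx2 (h hxr))
          simp [h1, h2]
      · have hxt : x ∉ tsupport (κ : E → ℝ) := by
          rw [hκt]
          intro h1
          apply hxr
          rw [Metric.mem_closedBall] at h1
          rw [Metric.mem_ball]
          linarith
        have h1 : κ x = 0 := image_eq_zero_of_notMem_tsupport hxt
        have h2 : fderiv ℝ κ x = 0 := fderiv_of_notMem_tsupport (𝕜 := ℝ) hxt
        simp [η, h1, h2]
  -- lower bound
  have hlow : ∀ᶠ n in atTop, U 0 / 4 * (ρ * (ρ * (β - α))) ≤ ∫ x, F n x := by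
    have hev : ∀ᶠ n in atTop, h n < ρ / 2 := hh0.eventually (gt_mem_nhds (by positivity))
    filter_upwards [hev] with n hn
    let lo : Fin 3 → ℝ := ![-(ρ / 2), -(ρ / 2), h n * (α - 1)]
    let hi : Fin 3 → ℝ := ![ρ / 2, ρ / 2, h n * (β - 1)]
    let B : Set E := {x | ∀ i, x i ∈ Ioo (lo i) (hi i)}
    have hβα : 0 < h n * (β - α) := mul_pos (hhpos n) (sub_pos.2 hαβ)
    have hvol : volume.real B = ρ * (ρ * (h n * (β - α))) := by
      have e0 : hi 0 - lo 0 = ρ := by simp [lo, hi]
      have e1 : hi 1 - lo 1 = ρ := by simp [lo, hi]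
      have e2 : hi 2 - lo 2 = h n * (β - α) := by
        simp only [lo, hi, Matrix.cons_val]
        ring
      rw [Measure.real, vol_box, Fin.prod_univ_three, e0, e1, e2, ENNReal.toReal_mul,
        ENNReal.toReal_mul, ENNReal.toReal_ofReal hρ.le, ENNReal.toReal_ofReal hβα.le]
      ring
    have hBm : MeasurableSet B := by
      have : B = ⋂ i, {x : E | x i ∈ Ioo (lo i) (hi i)} := by
        ext x; simp [B]
      rw [this]
      refine MeasurableSet.iInter (fun i => ?_)
      exact (EuclideanSpace.proj (𝕜 := ℝ) i).continuous.measurable measurableSet_Ioo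
    have hint : Integrable (B.indicator (fun _ => U 0 / 4 / h n)) volume := by
      refine (integrable_indicator_iff hBm).2 (integrableOn_const ?_)
      rw [vol_box]
      exact ENNReal.prod_ne_top (fun i _ => ENNReal.ofReal_ne_top)
    have hge : ∀ᵐ x : E, B.indicator (fun _ => U 0 / 4 / h n) x ≤ F n x := by
      have hbox : MeasurableSet (boxm s) := by
        unfold boxm
        have c0 : Continuous (fun x : E => |x 0|) :=
          (EuclideanSpace.proj (𝕜 := ℝ) (0 : Fin 3)).continuous.abs
        have c1 : Continuous (fun x : E => |x 1|) :=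
          (EuclideanSpace.proj (𝕜 := ℝ) (1 : Fin 3)).continuous.abs
        exact (measurableSet_lt c0.measurable measurable_const).inter
          ((measurableSet_lt c1.measurable measurable_const).inter
          ((measurableSet_lt measurable_const hc2.measurable).inter
            (measurableSet_lt hc2.measurable measurable_const)))
      rw [ae_restrict_iff' hbox] at hwU
      filter_upwards [hoff, hwU] with x hx hxU
      have hdn : 0 ≤ deriv Real.smoothTransition (1 + x 2 / h n) / h n :=
        div_nonneg (deriv_st_nonneg _) (hhpos n).le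
      have hκn : 0 ≤ κ x := κ.nonneg
      have hU0 : 0 < U 0 := h0
      by_cases hxk : x ∈ Metric.ball (0 : E) (2 * ρ)
      · have hnx : ‖x‖ < 2 * ρ := mem_ball_zero_iff.1 hxk
        have hxr : x ∈ Metric.ball (0 : E) r := mem_ball_zero_iff.2 (hnx.trans hρ2)
        have hUx : U 0 / 2 < U x := hUρ x (mem_ball_zero_iff.2 (hnx.trans hρ1))
        by_cases hx2 : x 2 < 0
        · have hxb : x ∈ boxm s := by
            have k0 := abs_coord_le x 0
            have k1 := abs_coord_le x 1
            have k2 := abs_coord_le x 2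
            have k3 := abs_lt.1 (lt_of_le_of_lt k2 (hnx.trans hρ3))
            exact ⟨by linarith, by linarith, k3.1, hx2⟩
          have hfU : fn w x = U x := hxU hxb
          by_cases hxB : x ∈ B
          · rw [indicator_of_mem hxB]
            have m0 : x 0 ∈ Ioo (-(ρ / 2)) (ρ / 2) := hxB 0
            have m1 : x 1 ∈ Ioo (-(ρ / 2)) (ρ / 2) := hxB 1
            have m2 : x 2 ∈ Ioo (h n * (α - 1)) (h n * (β - 1)) := hxB 2
            have hn0 := hhpos n
            have n2 : |x 2| < ρ / 2 := by
              rw [abs_lt]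
              have := m2.1
              constructor
              · nlinarith
              · linarith
            have hk1 : κ x = 1 := by
              apply κ.one_of_mem_closedBall
              rw [mem_closedBall_zero_iff]
              show ‖x‖ ≤ ρ
              have : ‖x‖ < 2 * (ρ / 2) := by
                refine norm_lt_of_coord (by positivity) (fun i => ?_)
                fin_cases i
                · exact abs_lt.2 m0
                · exact abs_lt.2 m1
                · exact n2
              linarith
            have hd1 : 1 / 2 < deriv Real.smoothTransition (1 + x 2 / h n) := by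
              apply hd
              constructor
              · have : α - 1 < x 2 / h n := by
                  rw [lt_div_iff₀ hn0]; linarith [m2.1]
                linarith
              · have : x 2 / h n < β - 1 := by
                  rw [div_lt_iff₀ hn0]; linarith [m2.2]
                linarith
            show U 0 / 4 / h n ≤ fn w x * (κ x * (deriv Real.smoothTransition (1 + x 2 / h n) / h n))
            rw [hfU, hk1, one_mul, ← mul_div_assoc]
            apply div_le_div_of_nonneg_right _ hn0.le
            nlinarith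
          · rw [indicator_of_notMem hxB]
            show 0 ≤ fn w x * (κ x * (deriv Real.smoothTransition (1 + x 2 / h n) / h n))
            rw [hfU]
            have : 0 ≤ U x := by linarith
            positivity
        · obtain ⟨k1, k2⟩ := hx (fun h => hx2 (h hxr))
          have hxB : x ∉ B := by
            intro hxB
            have m2 : x 2 ∈ Ioo (h n * (α - 1)) (h n * (β - 1)) := hxB 2
            have := m2.2
            have hn0 := hhpos n
            apply hx2
            nlinarith
          rw [indicator_of_notMem hxB]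
          show 0 ≤ fn w x * (κ x * (deriv Real.smoothTransition (1 + x 2 / h n) / h n))
          rw [k1, zero_mul]
      · have hκ0 : κ x = 0 := by
          by_contra h
          have : x ∈ Function.support (κ : E → ℝ) := h
          rw [hκsupp] at this
          exact hxk this
        have hxB : x ∉ B := by
          intro hxB
          apply hxk
          have m0 : x 0 ∈ Ioo (-(ρ / 2)) (ρ / 2) := hxB 0
          have m1 : x 1 ∈ Ioo (-(ρ / 2)) (ρ / 2) := hxB 1
          have m2 : x 2 ∈ Ioo (h n * (α - 1)) (h n * (β - 1)) := hxB 2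
          have hn0 := hhpos n
          have n2 : |x 2| < ρ / 2 := by
            rw [abs_lt]
            have := m2.1
            have := m2.2
            constructor
            · nlinarith
            · nlinarith
          have : ‖x‖ < 2 * (ρ / 2) := by
            refine norm_lt_of_coord (by positivity) (fun i => ?_)
            fin_cases i
            · exact abs_lt.2 m0
            · exact abs_lt.2 m1
            · exact n2
          rw [mem_ball_zero_iff]
          linarith
        rw [indicator_of_notMem hxB]
        show 0 ≤ fn w x * (κ x * (deriv Real.smoothTransition (1 + x 2 / h n) / h n))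
        rw [hκ0, zero_mul, mul_zero]
    have h1 := integral_mono_ae hint (hFint n) hge
    rw [integral_indicator_const _ hBm, hvol, smul_eq_mul] at h1
    refine le_trans (le_of_eq ?_) h1
    have := (hhpos n).ne'
    field_simp
  have hFlim : Tendsto (fun n => ∫ x, F n x) atTop (𝓝 0) := by
    simp only [hweak]
    have := hlim.neg
    rwa [neg_zero] at this
  have := ge_of_tendsto hFlim hlow
  have : 0 < U 0 / 4 * (ρ * (ρ * (β - α))) := by
    have := sub_pos.2 hαβ
    positivity
  linarith

theorem zeroBd : ZeroBdStmt := by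
  intro Ω r hr hflat w hw U hU s hs hwU
  by_contra h0
  rcases lt_or_gt_of_ne h0 with h | h
  · refine zeroBd_pos Ω r hr hflat (-w) (Submodule.neg_mem _ hw) (fun x => - U x) hU.neg s hs ?_
      (by simpa using h)
    filter_upwards [hwU, ae_restrict_of_ae (fn_neg w)] with x hx hx2
    rw [hx2, Pi.neg_apply, hx]
  · exact zeroBd_pos Ω r hr hflat w hw U hU s hs hwU h

end Pool.Agent.H92.BN
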