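import Pool.Agent.H92.BN.ME11_Glue
import Pool.Agent.H92.BN.ME11_Zero
import Pool.Agent.H92.BN.ME11_Int

/-!
# Module E11, part 5: regularity up to the boundary
-/

set_option autoImplicit false

namespace Pool.Agent.H92.BN

open MeasureTheory Set Filter Topology
open scoped ContDiff InnerProductSpace Manifold

theorem dW_support {Q : Set E} (L : List E) : ∀ (η : E → ℝ), tsupport η ⊆ Q →
    ∀ x ∉ Q, dW L η x = 0 := by
  induction L with
  | nil =>
    intro η hη x hx
    show η x = 0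
    exact image_eq_zero_of_notMem_tsupport (fun h => hx (hη h))
  | cons t L ih =>
    intro η hη x hx
    show dW L (fun x => fderiv ℝ η x t) x = 0
    refine ih _ ?_ x hx
    refine Subset.trans ?_ hη
    refine closure_minimal ?_ (isClosed_tsupport η)
    intro y hy
    by_contra h
    apply hy
    have : fderiv ℝ η y = 0 := fderiv_of_notMem_tsupport (𝕜 := ℝ) h
    show fderiv ℝ η y t = 0
    rw [this]; rfl

theorem HasW.mono {Q Q' : Set E} (hQ : Q' ⊆ Q) {f : E → ℝ} {L : List E} {g : E → ℝ}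
    (h : HasW Q f L g) : HasW Q' f L g := by
  intro η hη
  have h1 := h η (hη.mono hQ)
  have hz : ∀ x ∉ Q', η x = 0 := fun x hx =>
    image_eq_zero_of_notMem_tsupport (fun h => hx (hη.supp h))
  have hz2 : ∀ x ∉ Q', dW L η x = 0 := dW_support L η hη.supp
  have e1 : ∀ S : Set E, Q' ⊆ S → (∫ x in S, g x * η x) = ∫ x, g x * η x := fun S hS =>
    setIntegral_eq_integral_of_forall_compl_eq_zero (fun x hx => by
      rw [hz x (fun h => hx (hS h)), mul_zero])
  have e2 : ∀ S : Set E, Q' ⊆ S → (∫ x in S, f x * dW L η x) = ∫ x, f x * dW L η x := fun S hS =>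
    setIntegral_eq_integral_of_forall_compl_eq_zero (fun x hx => by
      rw [hz2 x (fun h => hx (hS h)), mul_zero])
  rw [e1 Q hQ, e2 Q hQ] at h1
  rw [e1 Q' Subset.rfl, e2 Q' Subset.rfl, h1]

theorem hasW_gr {w : BB} (hw : w ∈ V univ) (Q : Set E) (t : E) :
    HasW Q (fn w) [t] (fun x => ⟪gr w x, t⟫_ℝ) := by
  intro η hη
  have hz : ∀ x ∉ Q, η x = 0 := fun x hx =>
    image_eq_zero_of_notMem_tsupport (fun h => hx (hη.supp h))
  have hz2 : ∀ x ∉ Q, dW [t] η x = 0 := dW_support [t] η hη.supp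
  rw [setIntegral_eq_integral_of_forall_compl_eq_zero (fun x hx => by rw [hz x hx, mul_zero]),
    setIntegral_eq_integral_of_forall_compl_eq_zero (fun x hx => by rw [hz2 x hx, mul_zero])]
  have h1 := BN.weak_grad hw hη.smooth hη.cpt t
  show _ = (-1) ^ 1 * ∫ x, fn w x * fderiv ℝ η x t
  rw [h1]; ring

/-- expansion of a bilinear form in coordinates -/
theorem inner_expand (A : E →L[ℝ] E) (g v : E) :
    ⟪A g, v⟫_ℝ = ∑ i : Fin 3, ∑ j : Fin 3, ⟪A (ee j), ee i⟫_ℝ * ⟪g, ee j⟫_ℝ * ⟪v, ee i⟫_ℝ := by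
  have hexp : ∀ z : E, z = ∑ i : Fin 3, ⟪z, ee i⟫_ℝ • ee i := by
    intro z
    have := (EuclideanSpace.basisFun (Fin 3) ℝ).sum_repr' z
    conv_lhs => rw [← this]
    refine Finset.sum_congr rfl (fun i _ => ?_)
    rw [EuclideanSpace.basisFun_apply, real_inner_comm]
    rfl
  conv_lhs => rw [hexp g, hexp v]
  rw [inner_sum]
  refine Finset.sum_congr rfl (fun i _ => ?_)
  rw [map_sum, sum_inner]
  refine Finset.sum_congr rfl (fun j _ => ?_)
  rw [map_smul, real_inner_smul_left, real_inner_smul_right]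
  ring

/-- tangential directions -/
noncomputable def tang2 : ℝ × ℝ →L[ℝ] E :=
  (ContinuousLinearMap.fst ℝ ℝ ℝ).smulRight (ee 0) + (ContinuousLinearMap.snd ℝ ℝ ℝ).smulRight (ee 1)

theorem tang2_two (t : ℝ × ℝ) : (tang2 t) 2 = 0 := by
  simp [tang2, ee]

theorem boxm_subset {r : ℝ} (hr : 0 < r) : boxm r ⊆ Metric.ball 0 (2 * r) := by
  intro x hx
  obtain ⟨h0, h1, h2, h3⟩ := hx
  rw [mem_ball_zero_iff]
  refine norm_lt_of_coord hr (fun i => ?_)
  fin_cases i
  · exact h0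
  · exact h1
  · exact abs_lt.2 ⟨h2, h3.trans hr⟩

/-- local smoothness at the boundary -/
theorem bd_local (hS : SobVStmt) (hT : TangStmt) (hC : CompStmt) (hTr : TransStmt)
    (hF : FlatStmt) (hN : NormalStmt) (hSe : SeeleyStmt) {Ω : Set E} (hΩ : IsOpen Ω)
    (hsm : SmoothDom Ω) {lam om : ℝ} {u : BB} (hu : Sol Ω lam om u) {p : E}
    (hp : p ∈ frontier Ω) :
    ∃ W : Set E, IsOpen W ∧ p ∈ W ∧ ∃ U : E → ℝ, ContDiff ℝ ∞ U ∧
      (∀ᵐ x ∂(volume.restrict (Ω ∩ W)), fn u x = U x) ∧ U p = 0 := by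
  obtain ⟨Φ, r, hr, hΦ0, hflat⟩ := hF Ω hsm p hp
  set Ω' : Set E := Φ.toF ⁻¹' Ω with hΩ'def
  have hΩ' : IsOpen Ω' := hΩ.preimage Φ.sto.continuous
  have hflat' : ∀ y ∈ Metric.ball (0 : E) r, (y ∈ Ω' ↔ y 2 < 0) := hflat
  obtain ⟨K, _, hK⟩ := hC Φ.C
  obtain ⟨w, hw, hcomp, _⟩ := hK Φ le_rfl Ω u hu.1
  obtain ⟨hcoef, htr⟩ := hTr Φ Ω _ _ coefIdP
  have hsol := htr lam om u w (hu.solC hS) hw hcomp
  set A' := pullA Φ (fun _ => ContinuousLinearMap.id ℝ E) with hA'
  set J' := pullJ Φ (fun _ => 1) with hJ'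
  have hwu : w ∈ V univ := V_le_univ _ hw
  -- tangential regularity
  have htang := hT Ω' hΩ' A' J' hcoef lam om w hsol (ℝ × ℝ) tang2 (Metric.ball 0 r)
    Metric.isOpen_ball (fun x hx t hxt => by
      have h2 : (x + tang2 t) 2 = x 2 := by
        rw [PiLp.add_apply, tang2_two, add_zero]
      rw [hflat' x hx, hflat' _ hxt, h2]) 0 (r / 2) (by positivity)
    (Metric.closedBall_subset_ball (by linarith))
  set r' : ℝ := r / 8 with hr'
  have hr'0 : 0 < r' := by positivity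
  have hbox : boxm r' ⊆ Metric.ball 0 (r / 2) ∩ Ω' := by
    intro x hx
    have h1 : x ∈ Metric.ball (0 : E) (2 * r') := boxm_subset hr'0 hx
    have h2 : x ∈ Metric.ball (0 : E) (r / 2) :=
      Metric.ball_subset_ball (by rw [hr']; linarith) h1
    have h3 : x ∈ Metric.ball (0 : E) r := Metric.ball_subset_ball (by linarith) h2
    exact ⟨h2, (hflat' x h3).2 hx.2.2.2⟩
  have hboxΩ : boxm r' ⊆ Ω' := fun x hx => (hbox hx).2
  have hall : AllW (boxm r') (fn w) := by
    refine hN r' hr'0 A' J' hcoef lam om (fn w) (fun i x => ⟪gr w x, ee i⟫_ℝ)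
      ((memLp_fn w).restrict _) ?_ ?_ ?_
    · intro L hL
      obtain ⟨wL, hwL, hWL⟩ := htang (L.map (fun i => if i = 0 then ((1 : ℝ), (0 : ℝ)) else (0, 1)))
      have hmap : (L.map (fun i => if i = 0 then ((1 : ℝ), (0 : ℝ)) else (0, 1))).map tang2 =
          L.map ee := by
        rw [List.map_map]
        refine List.map_congr_left (fun i hi => ?_)
        have hi2 := hL i hi
        fin_cases i
        · simp [tang2]
        · simp [tang2]
        · exact absurd rfl hi2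
      rw [hmap] at hWL
      refine ⟨fn wL, (memLp_fn wL).restrict _, hWL.mono hbox, fun i => ?_⟩
      exact ⟨fun x => ⟪gr wL x, ee i⟫_ℝ, ((memLp_gr wL).inner_const (ee i)).restrict _,
        hasW_gr (V_le_univ _ hwL) _ _⟩
    · intro i
      exact ⟨((memLp_gr w).inner_const (ee i)).restrict _, hasW_gr hwu _ _⟩
    · intro η hη
      have hηΩ : IsTest Ω' η := hη.mono hboxΩ
      have h1 := hsol.2 (tb η) (tb_mem hηΩ)
      have hrep := rep_tb hηΩ
      have hz : ∀ x ∉ boxm r', η x = 0 := fun x hx =>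
        image_eq_zero_of_notMem_tsupport (fun h => hx (hη.supp h))
      have hz2 : ∀ x ∉ boxm r', fderiv ℝ η x = 0 := fun x hx =>
        fderiv_of_notMem_tsupport (𝕜 := ℝ) (fun h => hx (hη.supp h))
      rw [setIntegral_eq_integral_of_forall_compl_eq_zero (fun x hx => by
          rw [hz2 x hx]; simp),
        setIntegral_eq_integral_of_forall_compl_eq_zero (fun x hx => by rw [hz x hx, mul_zero])]
      have e1 : (∫ x, ⟪A' x (gr w x), gr (tb η) x⟫_ℝ) = ∫ x, ∑ i : Fin 3, ∑ j : Fin 3,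
          ⟪A' x (ee j), ee i⟫_ℝ * ⟪gr w x, ee j⟫_ℝ * fderiv ℝ η x (ee i) := by
        refine integral_congr_ae ?_
        filter_upwards [hrep.2] with x hx
        rw [hx, inner_expand]
        simp only [BN.inner_gradient_left]
      have e2 : (∫ x, J' x * (lam * fn w x + om * fn w x ^ 5) * fn (tb η) x) =
          ∫ x, J' x * (lam * fn w x + om * fn w x ^ 5) * η x := by
        refine integral_congr_ae ?_
        filter_upwards [hrep.1] with x hx
        rw [hx]
      rw [← e1, ← e2, h1]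
  obtain ⟨U1, hU1, hU1e⟩ := hSe r' hr'0 (fn w) hall
  have hU10 : U1 0 = 0 := zeroBd Ω' r hr hflat' w hw U1 hU1 (r' / 2) (by positivity) hU1e
  have hinv0 : Φ.inv p = 0 := by rw [← hΦ0, Φ.li]
  refine ⟨Φ.inv ⁻¹' (Metric.ball 0 (r' / 2)), Metric.isOpen_ball.preimage Φ.sinv.continuous,
    ?_, fun x => U1 (Φ.inv x), hU1.comp Φ.sinv, ?_, ?_⟩
  · rw [mem_preimage, hinv0]
    exact Metric.mem_ball_self (by positivity)
  · -- null sets
    have hWm : MeasurableSet (Ω ∩ Φ.inv ⁻¹' (Metric.ball 0 (r' / 2))) :=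
      hΩ.measurableSet.inter (Metric.isOpen_ball.preimage Φ.sinv.continuous).measurableSet
    rw [ae_restrict_iff' hWm]
    have hboxm : MeasurableSet (boxm (r' / 2)) := by
      unfold boxm
      have c0 : Continuous (fun x : E => |x 0|) :=
        (EuclideanSpace.proj (𝕜 := ℝ) (0 : Fin 3)).continuous.abs
      have c1 : Continuous (fun x : E => |x 1|) :=
        (EuclideanSpace.proj (𝕜 := ℝ) (1 : Fin 3)).continuous.abs
      have hc2 : Continuous (fun x : E => x 2) :=
        (EuclideanSpace.proj (𝕜 := ℝ) (2 : Fin 3)).continuous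
      exact (measurableSet_lt c0.measurable measurable_const).inter
        ((measurableSet_lt c1.measurable measurable_const).inter
        ((measurableSet_lt measurable_const hc2.measurable).inter
          (measurableSet_lt hc2.measurable measurable_const)))
    rw [ae_restrict_iff' hboxm] at hU1e
    have hboth := hcomp.1.and hU1e
    have hnull : volume {y | ¬ (fn w y = fn u (Φ.toF y) ∧ (y ∈ boxm (r' / 2) → fn w y = U1 y))} = 0 :=
      ae_iff.1 hboth
    have himg := addHaar_image_eq_zero_of_differentiableOn_of_addHaar_eq_zero volume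
      ((Φ.sto.differentiable (by simp)).differentiableOn) hnull
    rw [ae_iff]
    refine measure_mono_null ?_ himg
    intro x hx
    have hx' : ¬ (x ∈ Ω ∩ Φ.inv ⁻¹' (Metric.ball 0 (r' / 2)) → fn u x = U1 (Φ.inv x)) := hx
    push Not at hx'
    obtain ⟨⟨hxΩ, hxW⟩, hne⟩ := hx'
    refine ⟨Φ.inv x, ?_, Φ.ri x⟩
    rintro ⟨h1, h2⟩
    rw [Φ.ri] at h1
    have hyb : Φ.inv x ∈ Metric.ball (0 : E) (r' / 2) := hxW
    have hyr : Φ.inv x ∈ Metric.ball (0 : E) r :=
      Metric.ball_subset_ball (by rw [hr']; linarith) hyb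
    have hyΩ : Φ.inv x ∈ Ω' := by
      show Φ.toF (Φ.inv x) ∈ Ω
      rw [Φ.ri]; exact hxΩ
    have hy2 : (Φ.inv x) 2 < 0 := (hflat' _ hyr).1 hyΩ
    have hn : ‖Φ.inv x‖ < r' / 2 := mem_ball_zero_iff.1 hyb
    have k0 := abs_coord_le (Φ.inv x) 0
    have k1 := abs_coord_le (Φ.inv x) 1
    have k2 := abs_coord_le (Φ.inv x) 2
    have hyB : Φ.inv x ∈ boxm (r' / 2) :=
      ⟨by linarith, by linarith, (abs_lt.1 (lt_of_le_of_lt k2 hn)).1, hy2⟩
    exact hne (h1.symm.trans (h2 hyB))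
  · show U1 (Φ.inv p) = 0
    rw [hinv0, hU10]

/-- regularity up to the boundary -/
theorem regBd (hS : SobVStmt) (hT : TangStmt) (hI : InnerStmt) (hC : CompStmt) (hTr : TransStmt)
    (hF : FlatStmt) (hN : NormalStmt) (hSe : SeeleyStmt) : RegBdStmt := by
  intro Ω hΩ hb hsm lam om u hu
  obtain ⟨U, hU, hUe⟩ := glue Ω hΩ hb (fn u) (fun p hp => by
    by_cases hpΩ : p ∈ Ω
    · obtain ⟨r, hr, hrΩ, U, hU, hUe⟩ := int_local hS hT hI hΩ hu hpΩ
      exact ⟨Metric.ball p r, Metric.isOpen_ball, Metric.mem_ball_self hr, U, hU,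
        ae_restrict_of_ae_restrict_of_subset inter_subset_right hUe⟩
    · have hpf : p ∈ frontier Ω := by
        rw [hΩ.frontier_eq]
        exact ⟨hp, hpΩ⟩
      obtain ⟨W, hW, hpW, U, hU, hUe, _⟩ := bd_local hS hT hC hTr hF hN hSe hΩ hsm hu hpf
      exact ⟨W, hW, hpW, U, hU, hUe⟩)
  refine ⟨U, hU, hUe, gr_eq_local hΩ (V_le_univ _ hu.1) hU hUe, ?_,
    classical_local hu hΩ Subset.rfl hU hUe⟩
  intro p hp
  obtain ⟨W, hW, hpW, U', hU', hUe', h0⟩ := bd_local hS hT hC hTr hF hN hSe hΩ hsm hu hp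
  have hO : IsOpen (Ω ∩ W) := hΩ.inter hW
  have h1 : U =ᵐ[volume.restrict (Ω ∩ W)] U' := by
    have h2 : ∀ᵐ x ∂(volume.restrict (Ω ∩ W)), fn u x = U x :=
      ae_restrict_of_ae_restrict_of_subset inter_subset_left hUe
    filter_upwards [h2, hUe'] with x hx hx'
    rw [← hx, ← hx']
  have heq : EqOn U U' (Ω ∩ W) := Measure.eqOn_open_of_ae_eq h1 hO
    hU.continuous.continuousOn hU'.continuous.continuousOn
  have hcl : p ∈ closure (Ω ∩ W) := by
    have hpc : p ∈ closure Ω := frontier_subset_closure hp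
    rw [mem_closure_iff] at hpc ⊢
    intro O hO' hpO
    obtain ⟨y, hy1, hy2⟩ := hpc (O ∩ W) (hO'.inter hW) ⟨hpO, hpW⟩
    exact ⟨y, hy1.1, hy2, hy1.2⟩
  have hclosed : IsClosed {x | U x = U' x} := isClosed_eq hU.continuous hU'.continuous
  have hpU : U p = U' p := closure_minimal (t := {x | U x = U' x}) (fun x hx => heq hx) hclosed hcl
  rw [hpU, h0]

end Pool.Agent.H92.BN
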