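import Pool.Agent.H92.BN.Api

/-!
# Module E11, part 1: gluing of local smooth representatives
-/

set_option autoImplicit false

namespace Pool.Agent.H92.BN

open MeasureTheory Set Filter Topology
open scoped ContDiff InnerProductSpace Manifold

theorem glue : GlueStmt := by
  intro Ω hΩ hb f hloc
  have hc : IsCompact (closure Ω) := hb.isCompact_closure
  choose! W hWo hpW U hU hfU using hloc
  obtain ⟨t, htc, hcov⟩ := hc.elim_nhds_subcover W (fun p hp => (hWo p hp).mem_nhds (hpW p hp))
  -- the bad set
  have hbad : ∀ᵐ x : E, ∀ p ∈ t, x ∈ Ω ∩ W p → f x = U p x := by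
    refine (ae_ball_iff t.countable_toSet).2 (fun p hp => ?_)
    have := hfU p (htc p hp)
    rwa [ae_restrict_iff' (hΩ.measurableSet.inter (hWo p (htc p hp)).measurableSet)] at this
  let good : Set E := {x | x ∈ Ω ∧ ∀ p ∈ t, x ∈ Ω ∩ W p → f x = U p x}
  let T : E → Set ℝ := fun x => {y | x ∈ good → y = f x}
  have hT : ∀ x, Convex ℝ (T x) := by
    intro x
    by_cases hx : x ∈ good
    · have : T x = {f x} := by
        ext y
        exact ⟨fun h => h hx, fun h _ => h⟩
      rw [this]; exact convex_singleton _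
    · have : T x = univ := by
        ext y
        exact ⟨fun _ => mem_univ _, fun _ h => absurd h hx⟩
      rw [this]; exact convex_univ
  obtain ⟨g, hg⟩ := exists_contMDiffMap_forall_mem_convex_of_local (I := 𝓘(ℝ, E)) (F := ℝ)
    (n := ⊤) hT (fun x => by
      by_cases hx : x ∈ closure Ω
      · obtain ⟨p, hp, hxp⟩ := mem_iUnion₂.1 (hcov hx)
        refine ⟨W p, (hWo p (htc p hp)).mem_nhds hxp, U p,
          ((hU p (htc p hp)).contMDiff).contMDiffOn, ?_⟩
        intro y hy hgood
        exact (hgood.2 p hp ⟨hgood.1, hy⟩).symm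
      · refine ⟨(closure Ω)ᶜ, isClosed_closure.isOpen_compl.mem_nhds hx, fun _ => 0,
          contMDiffOn_const, ?_⟩
        intro y hy hgood
        exact absurd (subset_closure hgood.1) hy)
  refine ⟨g, g.contMDiff.contDiff, ?_⟩
  rw [ae_restrict_iff' hΩ.measurableSet]
  filter_upwards [hbad] with x hx hxΩ
  exact (hg x ⟨hxΩ, hx⟩).symm

end Pool.Agent.H92.BN
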