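import Pool.Agent.H92.BN.Api

/-!
# Module E11, part 2: weak solutions with a smooth local representative are classical
-/

set_option autoImplicit false

namespace Pool.Agent.H92.BN

open MeasureTheory Set Filter Topology
open scoped ContDiff InnerProductSpace Manifold

/-- integration by parts for a smooth function against a compactly supported smooth function -/
theorem ibp_smooth {U η : E → ℝ} (hU : ContDiff ℝ ∞ U) (hη : ContDiff ℝ ∞ η)
    (hc : HasCompactSupport η) (t : E) :
    (∫ x, U x * fderiv ℝ η x t) = - ∫ x, fderiv ℝ U x t * η x := by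
  have cU : Continuous (fun x => fderiv ℝ U x t) :=
    (hU.continuous_fderiv (by simp)).clm_apply continuous_const
  have cη : Continuous (fun x => fderiv ℝ η x t) :=
    (hη.continuous_fderiv (by simp)).clm_apply continuous_const
  have hcs : HasCompactSupport (fun x => fderiv ℝ η x t) := by
    have := (hc.fderiv (𝕜 := ℝ)).comp_left (g := fun l : E →L[ℝ] ℝ => l t) (by simp)
    exact this
  refine integral_mul_fderiv_eq_neg_fderiv_mul_of_integrable
    (f := U) (g := η) (μ := volume) (v := t) ?_ ?_ ?_
    (fun x _ => hU.differentiable (by simp) x) (fun x _ => hη.differentiable (by simp) x)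
  · exact (cU.mul hη.continuous).integrable_of_hasCompactSupport
      (hc.mul_left (f := fun x => fderiv ℝ U x t))
  · exact (hU.continuous.mul cη).integrable_of_hasCompactSupport
      (hcs.mul_left (f := U))
  · exact (hU.continuous.mul hη.continuous).integrable_of_hasCompactSupport
      (hc.mul_left (f := U))

/-- two functions which agree a.e. on `B` have the same integral against functions supported
in `B` -/
theorem integral_congr_supp {B : Set E} (hB : MeasurableSet B) {f f' g : E → ℝ}
    (h : ∀ᵐ x ∂(volume.restrict B), f x = f' x) (hg : Function.support g ⊆ B) :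
    (∫ x, f x * g x) = ∫ x, f' x * g x := by
  refine integral_congr_ae ?_
  rw [ae_restrict_iff' hB] at h
  filter_upwards [h] with x hx
  by_cases hxB : x ∈ B
  · rw [hx hxB]
  · have : g x = 0 := by
      by_contra h0
      exact hxB (hg h0)
    rw [this, mul_zero, mul_zero]

theorem gr_eq_local {B : Set E} (hB : IsOpen B) {u : BB} (hu : u ∈ V univ) {U : E → ℝ}
    (hU : ContDiff ℝ ∞ U) (h : ∀ᵐ x ∂(volume.restrict B), fn u x = U x) :
    ∀ᵐ x ∂(volume.restrict B), gr u x = gradient U x := by
  have key : ∀ t : E, ∀ᵐ x : E, x ∈ B → ⟪gr u x, t⟫_ℝ - fderiv ℝ U x t = 0 := by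
    intro t
    have cU : Continuous (fun x => fderiv ℝ U x t) :=
      (hU.continuous_fderiv (by simp)).clm_apply continuous_const
    have l1 : LocallyIntegrable (fun x => ⟪gr u x, t⟫_ℝ) volume :=
      ((memLp_gr u).inner_const t).locallyIntegrable (by norm_num)
    have l2 : LocallyIntegrable (fun x => fderiv ℝ U x t) volume := cU.locallyIntegrable
    refine hB.ae_eq_zero_of_integral_contDiff_smul_eq_zero
      ((l1.sub l2).locallyIntegrableOn B) ?_
    intro g hg hgc hgs
    have e1 := BN.weak_grad hu hg hgc t
    have hsupp : Function.support (fun x => fderiv ℝ g x t) ⊆ B := by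
      intro x hx
      by_contra hxB
      have : fderiv ℝ g x = 0 := fderiv_of_notMem_tsupport (𝕜 := ℝ) (fun h => hxB (hgs h))
      exact hx (by simp [this])
    have e2 := integral_congr_supp hB.measurableSet h hsupp
    have e3 := ibp_smooth hU hg hgc t
    have i1 : Integrable (fun x => g x * ⟪gr u x, t⟫_ℝ) volume := by
      have := l1.integrable_smul_left_of_hasCompactSupport hg.continuous hgc
      simpa [smul_eq_mul] using this
    have i2 : Integrable (fun x => g x * fderiv ℝ U x t) volume :=
      (hg.continuous.mul cU).integrable_of_hasCompactSupport hgc.mul_right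
    have e4 : (∫ x, g x • (⟪gr u x, t⟫_ℝ - fderiv ℝ U x t)) =
        (∫ x, g x * ⟪gr u x, t⟫_ℝ) - ∫ x, g x * fderiv ℝ U x t := by
      rw [← integral_sub i1 i2]
      congr 1; ext x; simp [smul_eq_mul, mul_sub]
    have c1 : (∫ x, g x * ⟪gr u x, t⟫_ℝ) = ∫ x, ⟪gr u x, t⟫_ℝ * g x := by
      congr 1; ext x; ring
    have c2 : (∫ x, g x * fderiv ℝ U x t) = ∫ x, fderiv ℝ U x t * g x := by
      congr 1; ext x; ring
    show (∫ x, g x • (⟪gr u x, t⟫_ℝ - fderiv ℝ U x t)) = 0
    rw [e4, c1, c2]
    linarith
  rw [ae_restrict_iff' hB.measurableSet]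
  have h4 : ∀ᵐ x : E, ∀ i : Fin 3, x ∈ B → ⟪gr u x, ee i⟫_ℝ - fderiv ℝ U x (ee i) = 0 := by
    rw [ae_all_iff]
    exact fun i => key (ee i)
  filter_upwards [h4] with x hx hxB
  ext i
  have h5 := hx i hxB
  rw [← inner_gradient_left, ← inner_sub_left] at h5
  have h6 : (gr u x - gradient U x) i = 0 := by
    simpa [ee, EuclideanSpace.inner_single_right] using h5
  have : gr u x i - gradient U x i = 0 := h6
  linarith

theorem contDiff_lap {U : E → ℝ} (hU : ContDiff ℝ ∞ U) : Continuous (lap U) := by
  unfold lap
  refine continuous_finsetSum _ (fun i _ => ?_)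
  have h1 : ContDiff ℝ ∞ (fun y => fderiv ℝ U y (EuclideanSpace.single i 1)) :=
    (hU.fderiv_right (m := ∞) (by simp)).clm_apply contDiff_const
  exact (h1.continuous_fderiv (by simp)).clm_apply continuous_const

theorem gradient_coord (U : E → ℝ) (x : E) (i : Fin 3) :
    gradient U x i = fderiv ℝ U x (ee i) := by
  rw [← BN.inner_gradient_left, ee, EuclideanSpace.inner_single_right]
  simp

theorem integrable_mul_cs {f g : E → ℝ} (hf : Continuous f) (hg : Continuous g)
    (hc : HasCompactSupport g) : Integrable (fun x => f x * g x) volume :=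
  (hf.mul hg).integrable_of_hasCompactSupport hc.mul_left

/-- Green's formula -/
theorem green {U η : E → ℝ} (hU : ContDiff ℝ ∞ U) (hη : ContDiff ℝ ∞ η)
    (hc : HasCompactSupport η) :
    (∫ x, ⟪gradient U x, gradient η x⟫_ℝ) = - ∫ x, lap U x * η x := by
  have h1 : ∀ i : Fin 3, ContDiff ℝ ∞ (fun y => fderiv ℝ U y (ee i)) := fun i =>
    (hU.fderiv_right (m := ∞) (by simp)).clm_apply contDiff_const
  have c1 : ∀ i : Fin 3, Continuous (fun x => fderiv ℝ η x (ee i)) := fun i =>
    (hη.continuous_fderiv (by simp)).clm_apply continuous_const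
  have hcs : ∀ i : Fin 3, HasCompactSupport (fun x => fderiv ℝ η x (ee i)) := fun i => by
    have := (hc.fderiv (𝕜 := ℝ)).comp_left (g := fun l : E →L[ℝ] ℝ => l (ee i)) (by simp)
    exact this
  have e1 : ∀ x, ⟪gradient U x, gradient η x⟫_ℝ =
      ∑ i : Fin 3, fderiv ℝ U x (ee i) * fderiv ℝ η x (ee i) := by
    intro x
    rw [PiLp.inner_apply]
    refine Finset.sum_congr rfl (fun i _ => ?_)
    rw [← gradient_coord, ← gradient_coord]
    simp [mul_comm]
  have e2 : ∀ x, lap U x * η x =
      ∑ i : Fin 3, fderiv ℝ (fun y => fderiv ℝ U y (ee i)) x (ee i) * η x := by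
    intro x
    unfold lap
    rw [Finset.sum_mul]
    rfl
  simp only [e1, e2]
  rw [integral_finsetSum, integral_finsetSum, ← Finset.sum_neg_distrib]
  · refine Finset.sum_congr rfl (fun i _ => ?_)
    exact ibp_smooth (h1 i) hη hc (ee i)
  · intro i _
    refine Continuous.integrable_of_hasCompactSupport ?_ (hc.mul_left)
    exact (((h1 i).continuous_fderiv (by simp)).clm_apply continuous_const).mul hη.continuous
  · intro i _
    exact ((h1 i).continuous.mul (c1 i)).integrable_of_hasCompactSupport ((hcs i).mul_left)

/-- a weak solution with a smooth representative on `B` is a classical solution there -/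
theorem classical_local {Ω : Set E} {lam om : ℝ} {u : BB} (hu : Sol Ω lam om u) {B : Set E}
    (hB : IsOpen B) (hBΩ : B ⊆ Ω) {U : E → ℝ} (hU : ContDiff ℝ ∞ U)
    (h : ∀ᵐ x ∂(volume.restrict B), fn u x = U x) :
    ∀ x ∈ B, - lap U x = lam * U x + om * U x ^ 5 := by
  have hgr := gr_eq_local hB (V_le_univ _ hu.1) hU h
  have cF : Continuous (fun x => - lap U x - (lam * U x + om * U x ^ 5)) :=
    (contDiff_lap hU).neg.sub ((continuous_const.mul hU.continuous).add
      (continuous_const.mul (hU.continuous.pow 5)))
  have key : ∀ᵐ x : E, x ∈ B → - lap U x - (lam * U x + om * U x ^ 5) = 0 := by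
    refine hB.ae_eq_zero_of_integral_contDiff_smul_eq_zero
      (cF.locallyIntegrable.locallyIntegrableOn B) ?_
    intro g hg hgc hgs
    have hgt : IsTest Ω g := ⟨hg, hgc, hgs.trans hBΩ⟩
    have hr := rep_tb hgt
    have eq := hu.2 (tb g) (tb_mem hgt)
    have hsg : Function.support g ⊆ B := (subset_tsupport g).trans hgs
    -- gradient term
    have e1 : dI u (tb g) = ∫ x, ⟪gradient U x, gradient g x⟫_ℝ := by
      unfold dI
      refine integral_congr_ae ?_
      rw [ae_restrict_iff' hB.measurableSet] at hgr
      filter_upwards [hgr, hr.2] with x hx hx2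
      rw [hx2]
      by_cases hxB : x ∈ B
      · rw [hx hxB]
      · have : fderiv ℝ g x = 0 := fderiv_of_notMem_tsupport (𝕜 := ℝ) (fun h => hxB (hgs h))
        have : gradient g x = 0 := by simp [gradient, this]
        rw [this, inner_zero_right, inner_zero_right]
    have e2 : mI u (tb g) = ∫ x, U x * g x := by
      unfold mI
      rw [← integral_congr_supp hB.measurableSet h hsg]
      refine integral_congr_ae ?_
      filter_upwards [hr.1] with x hx
      rw [hx]
    have e3 : p5 u (tb g) = ∫ x, U x ^ 5 * g x := by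
      unfold p5
      have h5 : ∀ᵐ x ∂(volume.restrict B), fn u x ^ 5 = U x ^ 5 := by
        filter_upwards [h] with x hx
        rw [hx]
      rw [← integral_congr_supp hB.measurableSet h5 hsg]
      refine integral_congr_ae ?_
      filter_upwards [hr.1] with x hx
      rw [hx]
    rw [e1, e2, e3, green hU hg hgc] at eq
    have i1 : Integrable (fun x => lap U x * g x) volume :=
      integrable_mul_cs (contDiff_lap hU) hg.continuous hgc
    have i2 : Integrable (fun x => U x * g x) volume :=
      integrable_mul_cs hU.continuous hg.continuous hgc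
    have i3 : Integrable (fun x => U x ^ 5 * g x) volume :=
      integrable_mul_cs (f := fun x => U x ^ 5) (hU.continuous.pow 5) hg.continuous hgc
    have e4 : (∫ x, g x • (- lap U x - (lam * U x + om * U x ^ 5))) =
        - (∫ x, lap U x * g x) - (lam * (∫ x, U x * g x) + om * ∫ x, U x ^ 5 * g x) := by
      have a1 : (∫ x, lam * (U x * g x)) = lam * ∫ x, U x * g x := integral_const_mul _ _
      have a2 : (∫ x, om * (U x ^ 5 * g x)) = om * ∫ x, U x ^ 5 * g x := integral_const_mul _ _
      have a3 : (∫ x, -(lap U x * g x)) = - ∫ x, lap U x * g x := integral_neg _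
      have i4 : Integrable (fun x => lam * (U x * g x)) volume := i2.const_mul _
      have i5 : Integrable (fun x => om * (U x ^ 5 * g x)) volume := i3.const_mul _
      have a4 : (∫ x, (lam * (U x * g x) + om * (U x ^ 5 * g x))) =
          (∫ x, lam * (U x * g x)) + ∫ x, om * (U x ^ 5 * g x) := integral_add i4 i5
      have i6 : Integrable (fun x => lam * (U x * g x) + om * (U x ^ 5 * g x)) volume :=
        i4.add i5
      have i7 : Integrable (fun x => -(lap U x * g x)) volume := i1.neg
      have a5 : (∫ x, (-(lap U x * g x) - (lam * (U x * g x) + om * (U x ^ 5 * g x)))) =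
          (∫ x, -(lap U x * g x)) - ∫ x, (lam * (U x * g x) + om * (U x ^ 5 * g x)) :=
        integral_sub i7 i6
      rw [← a1, ← a2, ← a3, ← a4, ← a5]
      congr 1; ext x; simp only [smul_eq_mul]; ring
    rw [e4, eq]; ring
  have hae : (fun x => - lap U x - (lam * U x + om * U x ^ 5)) =ᵐ[volume.restrict B]
      (fun _ => (0 : ℝ)) := by
    rw [EventuallyEq, ae_restrict_iff' hB.measurableSet]
    exact key
  have := Measure.eqOn_open_of_ae_eq hae hB cF.continuousOn continuousOn_const
  intro x hx
  have h1 := this hx
  simp only at h1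
  linarith

end Pool.Agent.H92.BN
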