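import Pool.Agent.H92.BN.Api
import Pool.Agent.H92.BN.MC5

/-!
# Module E11b: weak solutions which are smooth are classical; interior regularity
-/

set_option autoImplicit false

namespace Pool.Agent.H92.BN

open MeasureTheory Set Filter Topology
open scoped ContDiff InnerProductSpace

namespace E11b

theorem inner_ee (v : E) (i : Fin 3) : ⟪v, ee i⟫_ℝ = v i := by
  unfold ee
  rw [EuclideanSpace.inner_single_right]
  simp

theorem tsupport_fderiv_apply_subset (φ : E → ℝ) (t : E) :
    tsupport (fun x => fderiv ℝ φ x t) ⊆ tsupport φ := by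
  refine (closure_mono ?_).trans (tsupport_fderiv_subset ℝ (f := φ))
  refine Function.support_subset_iff'.2 fun x hx => ?_
  have : fderiv ℝ φ x = 0 := by simpa using hx
  simp [this]

/-- products with test functions are continuous with compact support -/
theorem integrable_mul {Ω : Set E} (hΩ : IsOpen Ω) {f φ : E → ℝ} (hf : ContinuousOn f Ω)
    (hφ : Continuous φ) (hc : HasCompactSupport φ) (hs : tsupport φ ⊆ Ω) :
    Integrable (fun x => f x * φ x) := by
  have h1 : Continuous (fun x => f x * φ x) := by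
    refine ContinuousOn.continuous_of_tsupport_subset (hf.mul hφ.continuousOn) hΩ ?_
    exact (tsupport_mul_subset_right (f := f) (g := φ)).trans hs
  exact h1.integrable_of_hasCompactSupport (hc.mul_left (f := f))

theorem continuousOn_fderiv_apply {Ω : Set E} (hΩ : IsOpen Ω) {f : E → ℝ}
    (hf : ContDiffOn ℝ 1 f Ω) (t : E) : ContinuousOn (fun x => fderiv ℝ f x t) Ω :=
  (hf.continuousOn_fderiv_of_isOpen hΩ le_rfl).clm_apply continuousOn_const

theorem continuous_fderiv_apply {Ω : Set E} {φ : E → ℝ} (hφ : IsTest Ω φ) (t : E) :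
    Continuous (fun x => fderiv ℝ φ x t) :=
  (hφ.smooth.continuous_fderiv (by simp)).clm_apply continuous_const

theorem cpt_fderiv_apply {Ω : Set E} {φ : E → ℝ} (hφ : IsTest Ω φ) (t : E) :
    HasCompactSupport (fun x => fderiv ℝ φ x t) :=
  (hφ.cpt.fderiv (𝕜 := ℝ)).comp_left (g := fun l : E →L[ℝ] ℝ => l t) (by simp)

/-- integration by parts against a test function -/
theorem ibp {Ω : Set E} (hΩ : IsOpen Ω) {f : E → ℝ} (hf : ContDiffOn ℝ 1 f Ω) {φ : E → ℝ}
    (hφ : IsTest Ω φ) (t : E) :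
    (∫ x, f x * fderiv ℝ φ x t) = - ∫ x, fderiv ℝ f x t * φ x := by
  refine integral_mul_fderiv_eq_neg_fderiv_mul_of_integrable
    (f := f) (g := φ) (μ := volume) (v := t) ?_ ?_ ?_ ?_
    (fun x _ => hφ.smooth.differentiable (by simp) x)
  · exact integrable_mul hΩ (continuousOn_fderiv_apply hΩ hf t) hφ.smooth.continuous hφ.cpt hφ.supp
  · exact integrable_mul hΩ hf.continuousOn (continuous_fderiv_apply hφ t) (cpt_fderiv_apply hφ t)
      ((tsupport_fderiv_apply_subset φ t).trans hφ.supp)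
  · exact integrable_mul hΩ hf.continuousOn hφ.smooth.continuous hφ.cpt hφ.supp
  · intro x hx
    exact (hf.differentiableOn (by simp)).differentiableAt (hΩ.mem_nhds (hφ.supp hx))

/-- integrals against functions supported in `Ω` only see `Ω` -/
theorem integral_congr_on {Ω : Set E} (hΩ : MeasurableSet Ω) {f g φ : E → ℝ}
    (h : ∀ᵐ x ∂(volume.restrict Ω), f x = g x) (hs : tsupport φ ⊆ Ω) :
    (∫ x, f x * φ x) = ∫ x, g x * φ x := by
  rw [ae_restrict_iff' hΩ] at h
  refine integral_congr_ae ?_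
  filter_upwards [h] with x hx
  by_cases hxΩ : x ∈ Ω
  · rw [hx hxΩ]
  · have : φ x = 0 := image_eq_zero_of_notMem_tsupport fun h => hxΩ (hs h)
    simp [this]

end E11b

open E11b

/-- if `u = U` a.e. on `Ω` with `U` smooth on `Ω` then `∇u = ∇U` a.e. on `Ω` -/
theorem gr_eq_gradient {Ω : Set E} (hΩ : IsOpen Ω) {u : BB} (hu : u ∈ V univ) {U : E → ℝ}
    (hU : ContDiffOn ℝ ∞ U Ω) (h : ∀ᵐ x ∂(volume.restrict Ω), fn u x = U x) :
    ∀ᵐ x ∂(volume.restrict Ω), gr u x = gradient U x := by
  have hU1 : ContDiffOn ℝ 1 U Ω := hU.of_le (by exact_mod_cast le_top)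
  have key : ∀ t : E, ∀ᵐ x : E, x ∈ Ω → ⟪gr u x, t⟫_ℝ - fderiv ℝ U x t = 0 := by
    intro t
    have hc : ContinuousOn (fun x => fderiv ℝ U x t) Ω := continuousOn_fderiv_apply hΩ hU1 t
    have hl1 : LocallyIntegrable (fun x => ⟪gr u x, t⟫_ℝ) volume :=
      ((memLp_gr u).inner_const t).locallyIntegrable (by norm_num)
    refine hΩ.ae_eq_zero_of_integral_contDiff_smul_eq_zero
      ((hl1.locallyIntegrableOn Ω).sub (hc.locallyIntegrableOn hΩ.measurableSet)) ?_
    intro g hg hgc hgs
    have hgt : IsTest Ω g := ⟨hg, hgc, hgs⟩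
    have h1 := weak_grad hu hg hgc t
    have h2 := ibp hΩ hU1 hgt t
    have h3 : (∫ x, fn u x * fderiv ℝ g x t) = ∫ x, U x * fderiv ℝ g x t :=
      integral_congr_on hΩ.measurableSet h ((tsupport_fderiv_apply_subset g t).trans hgs)
    have i1 : Integrable (fun x => ⟪gr u x, t⟫_ℝ * g x) := by
      have : Integrable (fun x => g x • ⟪gr u x, t⟫_ℝ) :=
        hl1.integrable_smul_left_of_hasCompactSupport hg.continuous hgc
      refine this.congr (Eventually.of_forall fun x => ?_)
      simp [mul_comm]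
    have i2 : Integrable (fun x => fderiv ℝ U x t * g x) :=
      integrable_mul hΩ hc hg.continuous hgc hgs
    have h4 : (∫ x, g x • (⟪gr u x, t⟫_ℝ - fderiv ℝ U x t)) =
        (∫ x, ⟪gr u x, t⟫_ℝ * g x) - ∫ x, fderiv ℝ U x t * g x := by
      rw [← integral_sub i1 i2]
      congr 1; ext x
      simp only [smul_eq_mul]; ring
    rw [h4]
    linarith
  have h4 : ∀ᵐ x : E, ∀ i : Fin 3, x ∈ Ω → ⟪gr u x, ee i⟫_ℝ - fderiv ℝ U x (ee i) = 0 := by
    rw [ae_all_iff]
    exact fun i => key (ee i)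
  rw [ae_restrict_iff' hΩ.measurableSet]
  filter_upwards [h4] with x hx hxΩ
  ext i
  have h5 := hx i hxΩ
  rw [← inner_gradient_left, inner_ee, inner_ee] at h5
  exact sub_eq_zero.1 h5

theorem inner_gradient_gradient (U φ : E → ℝ) (x : E) :
    ⟪gradient U x, gradient φ x⟫_ℝ = ∑ i : Fin 3, fderiv ℝ U x (ee i) * fderiv ℝ φ x (ee i) := by
  rw [PiLp.inner_apply]
  refine Finset.sum_congr rfl fun i _ => ?_
  have h1 : ∀ f : E → ℝ, fderiv ℝ f x (ee i) = (gradient f x) i := by
    intro f
    rw [← inner_gradient_left, inner_ee]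
  rw [h1 U, h1 φ]
  simp [mul_comm]

/-- weak formulation of the Laplacian of a smooth function -/
theorem integral_inner_gradient {Ω : Set E} (hΩ : IsOpen Ω) {U φ : E → ℝ}
    (hU : ContDiffOn ℝ ∞ U Ω) (hφ : IsTest Ω φ) :
    (∫ x, ⟪gradient U x, gradient φ x⟫_ℝ) = ∫ x, (- lap U x) * φ x := by
  have hd : ∀ i : Fin 3, ContDiffOn ℝ 1 (fun y => fderiv ℝ U y (ee i)) Ω := fun i =>
    ((hU.fderiv_of_isOpen hΩ (m := ∞) (by simp)).clm_apply contDiffOn_const).of_le
      (by exact_mod_cast le_top)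
  have hU1 : ContDiffOn ℝ 1 U Ω := hU.of_le (by exact_mod_cast le_top)
  have e1 : (∫ x, ⟪gradient U x, gradient φ x⟫_ℝ) =
      ∑ i : Fin 3, ∫ x, fderiv ℝ U x (ee i) * fderiv ℝ φ x (ee i) := by
    simp_rw [inner_gradient_gradient]
    rw [integral_finsetSum]
    intro i _
    exact integrable_mul hΩ (hd i).continuousOn (continuous_fderiv_apply hφ (ee i))
      (cpt_fderiv_apply hφ (ee i)) ((tsupport_fderiv_apply_subset φ (ee i)).trans hφ.supp)
  have e2 : (∫ x, (- lap U x) * φ x) =
      ∑ i : Fin 3, - ∫ x, fderiv ℝ (fun y => fderiv ℝ U y (ee i)) x (ee i) * φ x := by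
    have : (fun x => (- lap U x) * φ x) = fun x => ∑ i : Fin 3,
        - (fderiv ℝ (fun y => fderiv ℝ U y (ee i)) x (ee i) * φ x) := by
      funext x
      unfold lap ee
      rw [← Finset.sum_neg_distrib, Finset.sum_mul]
      refine Finset.sum_congr rfl fun i _ => ?_
      ring
    rw [this, integral_finsetSum]
    · refine Finset.sum_congr rfl fun i _ => ?_
      rw [integral_neg]
    · intro i _
      refine Integrable.neg ?_
      exact integrable_mul hΩ (continuousOn_fderiv_apply hΩ (hd i) (ee i)) hφ.smooth.continuous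
        hφ.cpt hφ.supp
  rw [e1, e2]
  exact Finset.sum_congr rfl fun i _ => ibp hΩ (hd i) hφ (ee i)

theorem continuousOn_lap {Ω : Set E} (hΩ : IsOpen Ω) {U : E → ℝ} (hU : ContDiffOn ℝ ∞ U Ω) :
    ContinuousOn (lap U) Ω := by
  unfold lap
  refine continuousOn_finsetSum _ fun i _ => ?_
  exact continuousOn_fderiv_apply hΩ
    (((hU.fderiv_of_isOpen hΩ (m := ∞) (by simp)).clm_apply contDiffOn_const).of_le
      (by exact_mod_cast le_top)) _

/-- smooth weak solutions are classical solutions -/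
theorem classical_of_weak {Ω : Set E} (hΩ : IsOpen Ω) {lam om : ℝ} {u : BB}
    (hu : Sol Ω lam om u) {U : E → ℝ} (hU : ContDiffOn ℝ ∞ U Ω)
    (h : ∀ᵐ x ∂(volume.restrict Ω), fn u x = U x) :
    ∀ x ∈ Ω, - lap U x = lam * U x + om * U x ^ 5 := by
  have hgr := gr_eq_gradient hΩ (V_le_univ Ω hu.1) hU h
  have c1 : ContinuousOn (fun x => - lap U x) Ω := (continuousOn_lap hΩ hU).neg
  have c2 : ContinuousOn (fun x => lam * U x + om * U x ^ 5) Ω :=
    (continuousOn_const.mul hU.continuousOn).add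
      (continuousOn_const.mul (hU.continuousOn.pow 5))
  have key : ∀ᵐ x : E, x ∈ Ω → - lap U x - (lam * U x + om * U x ^ 5) = 0 := by
    refine hΩ.ae_eq_zero_of_integral_contDiff_smul_eq_zero
      ((c1.sub c2).locallyIntegrableOn hΩ.measurableSet) ?_
    intro g hg hgc hgs
    have hgt : IsTest Ω g := ⟨hg, hgc, hgs⟩
    have hs := hu.2 (tb g) (tb_mem hgt)
    have r := rep_tb hgt
    have e1 : dI u (tb g) = ∫ x, (- lap U x) * g x := by
      rw [← integral_inner_gradient hΩ hU hgt]
      unfold dI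
      rw [ae_restrict_iff' hΩ.measurableSet] at hgr
      refine integral_congr_ae ?_
      filter_upwards [r.2, hgr] with x hx1 hx2
      rw [hx1]
      by_cases hxΩ : x ∈ Ω
      · rw [hx2 hxΩ]
      · have h0 : fderiv ℝ g x = 0 := by
          have : x ∉ tsupport g := fun h => hxΩ (hgs h)
          exact fderiv_of_notMem_tsupport (𝕜 := ℝ) this
        have h1 : gradient g x = 0 := by simp [gradient, h0]
        rw [h1, inner_zero_right, inner_zero_right]
    have e2 : mI u (tb g) = ∫ x, U x * g x := by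
      rw [← integral_congr_on hΩ.measurableSet h hgs]
      unfold mI
      refine integral_congr_ae ?_
      filter_upwards [r.1] with x hx1
      rw [hx1]
    have e3 : p5 u (tb g) = ∫ x, U x ^ 5 * g x := by
      have h5 : ∀ᵐ x ∂(volume.restrict Ω), fn u x ^ 5 = U x ^ 5 := by
        filter_upwards [h] with x hx
        rw [hx]
      rw [← integral_congr_on hΩ.measurableSet h5 hgs]
      unfold p5
      refine integral_congr_ae ?_
      filter_upwards [r.1] with x hx1
      rw [hx1]
    rw [e1, e2, e3] at hs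
    have i1 : Integrable (fun x => (- lap U x) * g x) := integrable_mul hΩ c1 hg.continuous hgc hgs
    have i2 : Integrable (fun x => U x * g x) :=
      integrable_mul hΩ hU.continuousOn hg.continuous hgc hgs
    have i3 : Integrable (fun x => U x ^ 5 * g x) :=
      integrable_mul hΩ (hU.continuousOn.pow 5) hg.continuous hgc hgs
    have e4 : (∫ x, g x • (- lap U x - (lam * U x + om * U x ^ 5))) =
        (∫ x, (- lap U x) * g x) - (lam * (∫ x, U x * g x) + om * ∫ x, U x ^ 5 * g x) := by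
      have i4 : Integrable (fun x => lam * (U x * g x) + om * (U x ^ 5 * g x)) :=
        (i2.const_mul lam).add (i3.const_mul om)
      rw [← integral_const_mul, ← integral_const_mul, ← integral_add (i2.const_mul lam)
        (i3.const_mul om), ← integral_sub i1 i4]
      congr 1; ext x
      simp only [smul_eq_mul]; ring
    rw [e4, hs, sub_self]
  have hae : (fun x => - lap U x) =ᵐ[volume.restrict Ω] fun x => lam * U x + om * U x ^ 5 := by
    rw [EventuallyEq, ae_restrict_iff' hΩ.measurableSet]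
    filter_upwards [key] with x hx hxΩ
    exact sub_eq_zero.1 (hx hxΩ)
  exact Measure.eqOn_open_of_ae_eq hae hΩ c1 c2

/-- the identity coefficients -/
theorem coef_id : Coef (fun _ => ContinuousLinearMap.id ℝ E) (fun _ => 1) := by
  refine ⟨contDiff_const, contDiff_const, ⟨1, fun _ => ContinuousLinearMap.norm_id_le⟩,
    ⟨1, fun _ => by simp⟩, ⟨1, one_pos, fun x v => ?_⟩⟩
  rw [one_mul, ContinuousLinearMap.id_apply, real_inner_self_eq_norm_sq]

theorem solC_id (hS : SobVStmt) {Ω : Set E} {lam om : ℝ} {u : BB} (hu : Sol Ω lam om u) :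
    SolC Ω (fun _ => ContinuousLinearMap.id ℝ E) (fun _ => 1) lam om u := by
  refine ⟨hu.1, fun η hη => ?_⟩
  have h1 := hu.2 η hη
  unfold dI mI p5 at h1
  simp only [ContinuousLinearMap.id_apply]
  rw [h1]
  have i1 : Integrable (fun x => fn u x * fn η x) := (memLp_fn u).integrable_mul (memLp_fn η)
  have i2 : Integrable (fun x => fn u x ^ 5 * fn η x) :=
    C5.integrable_p5 hS (V_le_univ Ω hu.1) (V_le_univ Ω hη)
  rw [← integral_const_mul, ← integral_const_mul, ← integral_add (i1.const_mul lam)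
    (i2.const_mul om)]
  congr 1; ext x
  ring

/-- weak solutions have local smooth representatives in the interior -/
theorem local_smooth (hS : SobVStmt) (hT : TangStmt) (hI : InnerStmt) {Ω : Set E}
    (hΩ : IsOpen Ω) {lam om : ℝ} {u : BB} (hu : Sol Ω lam om u) {x0 : E} (hx0 : x0 ∈ Ω) :
    ∃ r : ℝ, 0 < r ∧ Metric.ball x0 r ⊆ Ω ∧ ∃ U : E → ℝ, ContDiff ℝ ∞ U ∧
      ∀ᵐ x ∂(volume.restrict (Metric.ball x0 r)), fn u x = U x := by
  obtain ⟨r, hr, hball⟩ := Metric.nhds_basis_closedBall.mem_iff.1 (hΩ.mem_nhds hx0)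
  have hb : Metric.ball x0 r ⊆ Ω := Metric.ball_subset_closedBall.trans hball
  have hsol := solC_id hS hu
  have hall : AllW (Metric.ball x0 r) (fn u) := by
    refine ⟨(memLp_fn u).restrict _, fun L => ?_⟩
    obtain ⟨w, -, hw⟩ := hT Ω hΩ _ _ coef_id lam om u hsol E (ContinuousLinearMap.id ℝ E) Ω hΩ
      (fun x hx t hxt => by
        constructor
        · intro _; exact hxt
        · intro _; exact hx) x0 r hr hball (L.map ee)
    refine ⟨fn w, (memLp_fn w).restrict _, ?_⟩
    rw [inter_eq_left.2 hb] at hw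
    have e : (L.map ee).map (ContinuousLinearMap.id ℝ E) = L.map ee := by
      simp
    rwa [e] at hw
  obtain ⟨U, hU, hae⟩ := hI x0 r hr (fn u) hall
  exact ⟨r / 2, by positivity, (Metric.ball_subset_ball (by linarith)).trans hb, U, hU, hae⟩

/-- interior regularity -/
theorem regInt (hS : SobVStmt) (hT : TangStmt) (hI : InnerStmt) : RegIntStmt := by
  classical
  intro Ω hΩ lam om u hu
  have hloc : ∀ x : E, ∃ (r : ℝ) (U : E → ℝ), x ∈ Ω → 0 < r ∧ Metric.ball x r ⊆ Ω ∧
      ContDiff ℝ ∞ U ∧ ∀ᵐ y ∂(volume.restrict (Metric.ball x r)), fn u y = U y := by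
    intro x
    by_cases hx : x ∈ Ω
    · obtain ⟨r, h1, h2, U, h3, h4⟩ := local_smooth hS hT hI hΩ hu hx
      exact ⟨r, U, fun _ => ⟨h1, h2, h3, h4⟩⟩
    · exact ⟨0, 0, fun h => absurd h hx⟩
  choose r Uf h using hloc
  have hagree : ∀ x ∈ Ω, ∀ y ∈ Metric.ball x (r x), Uf y y = Uf x y := by
    intro x hx y hy
    have hyΩ : y ∈ Ω := (h x hx).2.1 hy
    obtain ⟨a1, -, a3, a4⟩ := h x hx
    obtain ⟨b1, -, b3, b4⟩ := h y hyΩ
    have hopen : IsOpen (Metric.ball x (r x) ∩ Metric.ball y (r y)) :=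
      Metric.isOpen_ball.inter Metric.isOpen_ball
    have e : Uf y =ᵐ[volume.restrict (Metric.ball x (r x) ∩ Metric.ball y (r y))] Uf x := by
      have c1 := ae_restrict_of_ae_restrict_of_subset
        (inter_subset_left (s := Metric.ball x (r x)) (t := Metric.ball y (r y))) a4
      have c2 := ae_restrict_of_ae_restrict_of_subset
        (inter_subset_right (s := Metric.ball x (r x)) (t := Metric.ball y (r y))) b4
      filter_upwards [c1, c2] with z h1 h2
      rw [← h1, ← h2]
    exact Measure.eqOn_open_of_ae_eq e hopen b3.continuous.continuousOn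
      a3.continuous.continuousOn ⟨hy, Metric.mem_ball_self b1⟩
  let U : E → ℝ := fun y => Uf y y
  have hUeq : ∀ x ∈ Ω, ∀ y ∈ Metric.ball x (r x), U y = Uf x y := hagree
  have hUs : ContDiffOn ℝ ∞ U Ω := by
    intro x hx
    obtain ⟨a1, -, a3, -⟩ := h x hx
    have : ContDiffAt ℝ ∞ U x := by
      refine (a3.contDiffAt (x := x)).congr_of_eventuallyEq ?_
      filter_upwards [Metric.ball_mem_nhds x a1] with y hy
      exact hUeq x hx y hy
    exact this.contDiffWithinAt
  have hae : ∀ᵐ x ∂(volume.restrict Ω), fn u x = U x := by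
    -- countable subcover
    obtain ⟨T, hTΩ, hTc, hTu⟩ := TopologicalSpace.countable_cover_nhdsWithin
      (s := Ω) (f := fun x => Metric.ball x (r x))
      (fun x hx => mem_nhdsWithin_of_mem_nhds (Metric.ball_mem_nhds x (h x hx).1))
    rw [ae_restrict_iff' hΩ.measurableSet]
    have h1 : ∀ᵐ y : E, ∀ x ∈ T, y ∈ Metric.ball x (r x) → fn u y = Uf x y := by
      rw [ae_ball_iff hTc]
      intro x hx
      have := (h x (hTΩ hx)).2.2.2
      rwa [ae_restrict_iff' measurableSet_ball] at this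
    filter_upwards [h1] with y hy hyΩ
    obtain ⟨x, hx, hxy⟩ := mem_iUnion₂.1 (hTu hyΩ)
    rw [hy x hx hxy, hUeq x (hTΩ hx) y hxy]
  exact ⟨U, hUs, hae, classical_of_weak hΩ hu hUs hae⟩

end Pool.Agent.H92.BN
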