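import Pool.Agent.H92.BN.ME2b_Fam

/-!
# E2b: the family `t ↦ u ∘ φ_t` (`PullStmt`)
-/

set_option autoImplicit false

namespace Pool.Agent.H92.BN

open MeasureTheory Set Filter Topology
open scoped ContDiff InnerProductSpace

namespace E2b

/-- null sets pull back to null sets under a `Dif`. -/
theorem ae_comp (Φ : Dif) {p : E → Prop} (h : ∀ᵐ x : E, p x) : ∀ᵐ y : E, p (Φ.toF y) := by
  rw [ae_iff] at h ⊢
  have h1 : {a | ¬ p (Φ.toF a)} = Φ.inv '' {a | ¬ p a} := by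
    ext y
    constructor
    · intro hy; exact ⟨Φ.toF y, hy, Φ.li y⟩
    · rintro ⟨z, hz, rfl⟩
      show ¬ p (Φ.toF (Φ.inv z))
      rw [Φ.ri z]; exact hz
  rw [h1]
  exact addHaar_image_eq_zero_of_differentiableOn_of_addHaar_eq_zero volume
    (Φ.sinv.differentiable (by simp)).differentiableOn h

theorem adjoint_formula {χ : E → ℝ} (hχ : Differentiable ℝ χ) {Φ : Dif} {t : E}
    (hΦ : ∀ y, Φ.toF y = y + χ y • t) (y g : E) :
    ContinuousLinearMap.adjoint (fderiv ℝ Φ.toF y) g = g + ⟪t, g⟫_ℝ • gradient χ y := by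
  have h1 : HasFDerivAt Φ.toF (ContinuousLinearMap.id ℝ E + (fderiv ℝ χ y).smulRight t) y := by
    have : Φ.toF = fun y => y + χ y • t := funext hΦ
    rw [this]
    exact (hasFDerivAt_id y).add ((hχ y).hasFDerivAt.smul_const t)
  rw [h1.fderiv]
  refine ext_inner_right ℝ fun v => ?_
  rw [ContinuousLinearMap.adjoint_inner_left]
  simp only [_root_.add_apply, ContinuousLinearMap.id_apply, ContinuousLinearMap.smulRight_apply,
    inner_add_right, inner_add_left, real_inner_smul_left, real_inner_smul_right,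
    inner_gradient_left]
  rw [real_inner_comm t g]
  ring

theorem inner_Bt {χ : E → ℝ} {t y : E} (hc : 1 + ⟪gradient χ y, t⟫_ℝ ≠ 0) (v g : E) :
    ⟪(Bt χ t y) v, g + ⟪t, g⟫_ℝ • gradient χ y⟫_ℝ = ⟪v, g⟫_ℝ := by
  have e : (Bt χ t y) v = v - ((1 + ⟪gradient χ y, t⟫_ℝ)⁻¹ * ⟪gradient χ y, v⟫_ℝ) • t := by
    unfold Bt
    simp [smul_smul]
  rw [e]
  simp only [inner_sub_left, inner_add_right, real_inner_smul_left, real_inner_smul_right]
  rw [real_inner_comm (gradient χ y) v, real_inner_comm (gradient χ y) t]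
  field_simp
  ring

variable {P : Type} [NormedAddCommGroup P] [NormedSpace ℝ P]

theorem norm_Bt_le {χ : E → ℝ} {t y : E} {M R : ℝ} (hM : ‖gradient χ y‖ ≤ M) (hR : ‖t‖ ≤ R)
    (hc : 1 / 2 ≤ 1 + ⟪gradient χ y, t⟫_ℝ) (v : E) :
    ‖(Bt χ t y) v‖ ≤ (1 + 2 * M * R) * ‖v‖ := by
  have e : (Bt χ t y) v = v - ((1 + ⟪gradient χ y, t⟫_ℝ)⁻¹ * ⟪gradient χ y, v⟫_ℝ) • t := by
    unfold Bt
    simp [smul_smul]
  rw [e]
  have hM0 : 0 ≤ M := (norm_nonneg _).trans hM
  have h1 : |(1 + ⟪gradient χ y, t⟫_ℝ)⁻¹| ≤ 2 := by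
    rw [abs_of_nonneg (inv_nonneg.2 (by linarith))]
    rw [inv_le_comm₀ (by linarith) (by norm_num)]
    linarith
  have h2 : |⟪gradient χ y, v⟫_ℝ| ≤ M * ‖v‖ :=
    (abs_real_inner_le_norm _ _).trans (mul_le_mul_of_nonneg_right hM (norm_nonneg _))
  have h3 : ‖((1 + ⟪gradient χ y, t⟫_ℝ)⁻¹ * ⟪gradient χ y, v⟫_ℝ) • t‖ ≤ 2 * (M * ‖v‖) * R := by
    rw [norm_smul, Real.norm_eq_abs, abs_mul]
    exact mul_le_mul (mul_le_mul h1 h2 (abs_nonneg _) (by norm_num)) hR (norm_nonneg _)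
      (by positivity)
  refine (norm_sub_le _ _).trans ?_
  linarith

theorem exists_D {χ : E → ℝ} (hχ : IsTest univ χ) (ι : P →L[ℝ] E) {R : ℝ} (hR : 0 ≤ R) :
    ∃ C : ℝ, 0 ≤ C ∧ ∀ t : P, ‖ι t‖ ≤ R → (∀ y, 1 / 2 ≤ 1 + ⟪gradient χ y, ι t⟫_ℝ) → ∀ w : BB,
      ∃ D : P →L[ℝ] Lp ℝ 2 (volume : Measure E),
        (∀ h : P, D h =ᵐ[volume] fun y => χ y * ⟪(Bt χ (ι t) y) (ι h), gr w y⟫_ℝ) ∧
        ‖D‖ ≤ C * ‖w‖ := by
  obtain ⟨M₀, hM₀⟩ := hχ.cpt.exists_bound_of_continuous hχ.smooth.continuous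
  obtain ⟨M₁, hM₁⟩ := (hasCompactSupport_gradient hχ.cpt).exists_bound_of_continuous
    hχ.continuous_gradient
  have hM₀0 : 0 ≤ M₀ := (norm_nonneg _).trans (hM₀ 0)
  have hM₁0 : 0 ≤ M₁ := (norm_nonneg _).trans (hM₁ 0)
  set C : ℝ := M₀ * ((1 + 2 * M₁ * R) * ‖ι‖) with hC
  have hC0 : 0 ≤ C := by positivity
  refine ⟨C, hC0, ?_⟩
  intro t ht hc w
  have hcont : ∀ v : E, Continuous fun y => (Bt χ (ι t) y) v := by
    intro v
    have e : (fun y => (Bt χ (ι t) y) v) = fun y =>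
        v - ((1 + ⟪gradient χ y, ι t⟫_ℝ)⁻¹ * ⟪gradient χ y, v⟫_ℝ) • ι t := by
      funext y; unfold Bt; simp [smul_smul]
    rw [e]
    have hg := hχ.continuous_gradient
    have hsc : Continuous fun y => (1 + ⟪gradient χ y, ι t⟫_ℝ)⁻¹ * ⟪gradient χ y, v⟫_ℝ := by
      refine Continuous.mul (Continuous.inv₀ (continuous_const.add (hg.inner continuous_const)) ?_)
        (hg.inner continuous_const)
      intro y
      have := hc y
      intro h; linarith
    exact continuous_const.sub (hsc.smul continuous_const)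
  have hbd : ∀ (h : P) (y : E), ‖χ y * ⟪(Bt χ (ι t) y) (ι h), gr w y⟫_ℝ‖ ≤ (C * ‖h‖) * ‖gr w y‖ := by
    intro h y
    rw [norm_mul]
    have h1 : ‖⟪(Bt χ (ι t) y) (ι h), gr w y⟫_ℝ‖ ≤ ((1 + 2 * M₁ * R) * (‖ι‖ * ‖h‖)) * ‖gr w y‖ := by
      refine (norm_inner_le_norm _ _).trans ?_
      refine mul_le_mul_of_nonneg_right ?_ (norm_nonneg _)
      refine (norm_Bt_le (hM₁ y) ht (hc y) _).trans ?_
      exact mul_le_mul_of_nonneg_left (ι.le_opNorm h) (by positivity)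
    calc ‖χ y‖ * ‖⟪(Bt χ (ι t) y) (ι h), gr w y⟫_ℝ‖
        ≤ M₀ * (((1 + 2 * M₁ * R) * (‖ι‖ * ‖h‖)) * ‖gr w y‖) :=
          mul_le_mul (hM₀ y) h1 (norm_nonneg _) hM₀0
      _ = (C * ‖h‖) * ‖gr w y‖ := by rw [hC]; ring
  have hmem : ∀ h : P, MemLp (fun y => χ y * ⟪(Bt χ (ι t) y) (ι h), gr w y⟫_ℝ) 2 volume := by
    intro h
    refine MemLp.of_le_mul (c := C * ‖h‖) (memLp_gr w) ?_ (Eventually.of_forall (hbd h))
    exact hχ.smooth.continuous.aestronglyMeasurable.mul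
      ((hcont _).aestronglyMeasurable.inner (memLp_gr w).aestronglyMeasurable)
  let L : P →ₗ[ℝ] Lp ℝ 2 (volume : Measure E) :=
    { toFun := fun h => (hmem h).toLp _
      map_add' := by
        intro a b
        refine Lp.ext ?_
        filter_upwards [(hmem (a + b)).coeFn_toLp, (hmem a).coeFn_toLp, (hmem b).coeFn_toLp,
          Lp.coeFn_add ((hmem a).toLp _) ((hmem b).toLp _)] with y h1 h2 h3 h4
        rw [h1, h4, Pi.add_apply, h2, h3, map_add, map_add, inner_add_left]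
        ring
      map_smul' := by
        intro c a
        refine Lp.ext ?_
        filter_upwards [(hmem (c • a)).coeFn_toLp, (hmem a).coeFn_toLp,
          Lp.coeFn_smul c ((hmem a).toLp _)] with y h1 h2 h4
        rw [RingHom.id_apply, h1, h4, Pi.smul_apply, h2, map_smul, map_smul, real_inner_smul_left,
          smul_eq_mul]
        ring }
  have hLn : ∀ h : P, ‖L h‖ ≤ (C * ‖w‖) * ‖h‖ := by
    intro h
    have h1 : ‖(hmem h).toLp _‖ ≤ (C * ‖h‖) * ‖w.snd‖ := by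
      refine Lp.norm_le_mul_norm_of_ae_le_mul ?_
      filter_upwards [(hmem h).coeFn_toLp] with y hy
      rw [hy]
      exact hbd h y
    have h2 : ‖w.snd‖ ≤ ‖w‖ := WithLp.norm_snd_le _ w
    calc ‖L h‖ ≤ (C * ‖h‖) * ‖w.snd‖ := h1
      _ ≤ (C * ‖h‖) * ‖w‖ := mul_le_mul_of_nonneg_left h2 (by positivity)
      _ = (C * ‖w‖) * ‖h‖ := by ring
  refine ⟨L.mkContinuous (C * ‖w‖) hLn, fun h => (hmem h).coeFn_toLp, ?_⟩
  exact L.mkContinuous_norm_le (by positivity) hLn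

/-- test functions: pull back of the representative. -/
theorem isPull_tb {Ω : Set E} {φ χ : E → ℝ} (hφ : IsTest Ω φ) {Φ : Dif} {t : E}
    (hΦ : ∀ y, Φ.toF y = y + χ y • t) {w : BB} (hw : IsPull χ t (tb φ) w) :
    (fn w =ᵐ[volume] fun y => φ (y + χ y • t)) ∧
    (gr w =ᵐ[volume] fun y => gradient φ (y + χ y • t) +
      ⟪t, gradient φ (y + χ y • t)⟫_ℝ • gradient χ y) := by
  have r := rep_tb hφ
  have r1 := ae_comp Φ r.1
  have r2 := ae_comp Φ r.2
  constructor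
  · filter_upwards [hw.1, r1] with y h1 h2
    rw [hΦ] at h2
    rw [h1, h2]
  · filter_upwards [hw.2, r2] with y h1 h2
    rw [hΦ] at h2
    rw [h1, h2]

/-- continuity for test functions. -/
theorem continuousOn_tb {Ω : Set E} {φ χ : E → ℝ} (hφ : IsTest Ω φ) (hχ : IsTest univ χ)
    (ι : P →L[ℝ] E) {B : Set P} (hB : IsOpen B)
    (hΦ : ∀ t ∈ B, ∃ Φ : Dif, ∀ y, Φ.toF y = y + χ y • ι t) {T : P → BB}
    (hT : ∀ t ∈ B, IsPull χ (ι t) (tb φ) (T t)) : ContinuousOn T B := by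
  intro x hx
  refine ContinuousAt.continuousWithinAt ?_
  set K : Set E := tsupport φ ∪ tsupport χ with hK
  have hKc : IsCompact K := hφ.cpt.isCompact.union hχ.cpt.isCompact
  have hχ0 : ∀ y ∉ K, χ y = 0 := fun y hy => image_eq_zero_of_notMem_tsupport fun h => hy (Or.inr h)
  have hφ0 : ∀ y ∉ K, φ y = 0 := fun y hy => image_eq_zero_of_notMem_tsupport fun h => hy (Or.inl h)
  have hgχ0 : ∀ y ∉ K, gradient χ y = 0 := fun y hy => by
    have : fderiv ℝ χ y = 0 := fderiv_of_notMem_tsupport (𝕜 := ℝ) fun h => hy (Or.inr h)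
    simp [gradient, this]
  have hgφ0 : ∀ y ∉ K, gradient φ y = 0 := fun y hy => by
    have : fderiv ℝ φ y = 0 := fderiv_of_notMem_tsupport (𝕜 := ℝ) fun h => hy (Or.inl h)
    simp [gradient, this]
  have cχ := hχ.smooth.continuous
  have cφ := hφ.smooth.continuous
  have cgχ := hχ.continuous_gradient
  have cgφ := hφ.continuous_gradient
  have cin : Continuous fun p : P × E => p.2 + χ p.2 • ι p.1 :=
    continuous_snd.add ((cχ.comp continuous_snd).smul (ι.continuous.comp continuous_fst))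
  have c1 : ContinuousAt (fun t => (T t).fst) x := by
    refine continuousAt_of_family hKc (F := fun t y => φ (y + χ y • ι t)) (cφ.comp cin) hB ?_ ?_ hx
    · intro t _ y hy
      rw [hχ0 y hy, zero_smul, add_zero, hφ0 y hy]
    · intro t ht
      obtain ⟨Φ, hΦt⟩ := hΦ t ht
      exact (isPull_tb hφ hΦt (hT t ht)).1
  have c2 : ContinuousAt (fun t => (T t).snd) x := by
    refine continuousAt_of_family hKc (F := fun t y => gradient φ (y + χ y • ι t) +
      ⟪ι t, gradient φ (y + χ y • ι t)⟫_ℝ • gradient χ y) ?_ hB ?_ ?_ hx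
    · have c3 : Continuous fun p : P × E => gradient φ (p.2 + χ p.2 • ι p.1) := cgφ.comp cin
      have c4 : Continuous fun p : P × E => ⟪ι p.1, gradient φ (p.2 + χ p.2 • ι p.1)⟫_ℝ :=
        (ι.continuous.comp continuous_fst).inner c3
      have c5 : Continuous fun p : P × E => gradient χ p.2 := cgχ.comp continuous_snd
      exact c3.add (c4.smul c5)
    · intro t _ y hy
      rw [hχ0 y hy, zero_smul, add_zero, hgφ0 y hy, hgχ0 y hy]; simp
    · intro t ht
      obtain ⟨Φ, hΦt⟩ := hΦ t ht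
      exact (isPull_tb hφ hΦt (hT t ht)).2
  have c3 : ContinuousAt (fun t => WithLp.toLp 2 ((T t).fst, (T t).snd)) x :=
    (WithLp.prod_continuous_toLp 2 _ _).continuousAt.comp (c1.prodMk c2)
  exact c3

/-- derivative for test functions. -/
theorem hasFDerivAt_tb {Ω : Set E} {φ χ : E → ℝ} (hφ : IsTest Ω φ) (hχ : IsTest univ χ)
    (ι : P →L[ℝ] E) {B : Set P} (hB : IsOpen B)
    (hΦ : ∀ t ∈ B, ∃ Φ : Dif, ∀ y, Φ.toF y = y + χ y • ι t) {T : P → BB}
    (hT : ∀ t ∈ B, IsPull χ (ι t) (tb φ) (T t)) {x : P} (hx : x ∈ B)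
    (hc : ∀ y, 1 / 2 ≤ 1 + ⟪gradient χ y, ι x⟫_ℝ)
    {D : P →L[ℝ] Lp ℝ 2 (volume : Measure E)}
    (hD : ∀ h : P, D h =ᵐ[volume] fun y => χ y * ⟪(Bt χ (ι x) y) (ι h), gr (T x) y⟫_ℝ) :
    HasFDerivAt (fun t => (T t).fst) D x := by
  set K : Set E := tsupport φ ∪ tsupport χ with hK
  have hKc : IsCompact K := hφ.cpt.isCompact.union hχ.cpt.isCompact
  have hχ0 : ∀ y ∉ K, χ y = 0 := fun y hy => image_eq_zero_of_notMem_tsupport fun h => hy (Or.inr h)
  have hφ0 : ∀ y ∉ K, φ y = 0 := fun y hy => image_eq_zero_of_notMem_tsupport fun h => hy (Or.inl h)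
  have cχ := hχ.smooth.continuous
  have cin : Continuous fun p : P × E => p.2 + χ p.2 • ι p.1 :=
    continuous_snd.add ((cχ.comp continuous_snd).smul (ι.continuous.comp continuous_fst))
  have cfφ : Continuous (fderiv ℝ φ) := hφ.smooth.continuous_fderiv (by simp)
  refine hasFDerivAt_of_family hKc (F := fun t y => φ (y + χ y • ι t))
    (F' := fun t y => (fderiv ℝ φ (y + χ y • ι t)).comp (χ y • ι)) ?_ ?_ hB ?_ ?_ ?_ hx ?_
  · exact (cfφ.comp cin).clm_comp ((cχ.comp continuous_snd).smul continuous_const)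
  · intro t y
    have h1 : HasFDerivAt (fun s : P => y + χ y • ι s) (χ y • ι) t :=
      ((ι.hasFDerivAt (x := t)).const_smul (χ y)).const_add y
    exact ((hφ.smooth.differentiable (by simp) _).hasFDerivAt).comp t h1
  · intro t _ y hy
    rw [hχ0 y hy, zero_smul, add_zero, hφ0 y hy]
  · intro t _ y hy
    rw [hχ0 y hy]; simp
  · intro t ht
    obtain ⟨Φ, hΦt⟩ := hΦ t ht
    exact (isPull_tb hφ hΦt (hT t ht)).1
  · intro h
    obtain ⟨Φ, hΦt⟩ := hΦ x hx
    filter_upwards [hD h, (isPull_tb hφ hΦt (hT x hx)).2] with y h1 h2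
    rw [h1, h2, inner_Bt (by have := hc y; intro h; linarith)]
    rw [real_inner_comm, inner_gradient_left]
    simp

end E2b

/-- **E2b**. -/
theorem pull (hF : FamStmt) (hC : CompStmt) (hTr : TransStmt) : PullStmt := by
  intro Ω P _ _ _ ι χ hχ hinv u
  obtain ⟨r0, hr0, hfam⟩ := hF χ hχ
  obtain ⟨K, hK0, hcomp⟩ := hC 2
  have hι : ∀ᶠ t : P in 𝓝 0, ‖ι t‖ < r0 := by
    have : Tendsto (fun t : P => ‖ι t‖) (𝓝 0) (𝓝 0) := by
      have := (ι.continuous.norm.tendsto (0 : P))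
      simpa using this
    exact this.eventually (gt_mem_nhds hr0)
  obtain ⟨ρ, hρ, hρB⟩ := Metric.eventually_nhds_iff_ball.1 (hι.and hinv)
  set B : Set P := Metric.ball (0 : P) ρ with hBdef
  have hBo : IsOpen B := Metric.isOpen_ball
  have h0B : (0 : P) ∈ B := Metric.mem_ball_self hρ
  have hBn : B ∈ 𝓝 (0 : P) := Metric.ball_mem_nhds _ hρ
  have hct : ∀ t ∈ B, ∀ y, 1 / 2 ≤ 1 + ⟪gradient χ y, ι t⟫_ℝ := fun t ht =>
    (hfam (ι t) (hρB t ht).1).1
  have hΦex : ∀ t ∈ B, ∃ Φ : Dif, (∀ y, Φ.toF y = y + χ y • ι t) ∧ Φ.C = 2 ∧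
      (∀ y, (fderiv ℝ Φ.toF y).det = 1 + ⟪gradient χ y, ι t⟫_ℝ) ∧
      (∀ y, fderiv ℝ Φ.inv (Φ.toF y) = Bt χ (ι t) y) := fun t ht =>
    (hfam (ι t) (hρB t ht).1).2
  have : Nonempty Dif := ⟨(hΦex 0 h0B).choose⟩
  choose! Φ hΦ1 hΦ2 hΦ3 hΦ4 using hΦex
  have hpre : ∀ t ∈ B, (Φ t).toF ⁻¹' Ω = Ω := by
    intro t ht
    ext y
    rw [mem_preimage, hΦ1 t ht y]
    exact (hρB t ht).2 y
  have hex : ∀ t ∈ B, ∀ b ∈ V Ω, ∃ w, w ∈ V Ω ∧ IsComp (Φ t) b w ∧ ‖w‖ ≤ K * ‖b‖ := by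
    intro t ht b hb
    obtain ⟨w, hw, h1, h2⟩ := hcomp (Φ t) (hΦ2 t ht).le Ω b hb
    rw [hpre t ht] at hw
    exact ⟨w, hw, h1, h2⟩
  choose! T hT1 hT2 hT3 using hex
  have hdχ : Differentiable ℝ χ := hχ.smooth.differentiable (by simp)
  have hpull : ∀ t ∈ B, ∀ b ∈ V Ω, IsPull χ (ι t) b (T t b) := by
    intro t ht b hb
    have h1 := hT2 t ht b hb
    refine ⟨?_, ?_⟩
    · filter_upwards [h1.1] with y hy
      rw [hy, hΦ1 t ht]
    · filter_upwards [h1.2] with y hy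
      rw [hy, E2b.adjoint_formula hdχ (hΦ1 t ht), hΦ1 t ht]
  -- linearity
  have hsub : ∀ t ∈ B, ∀ a ∈ V Ω, ∀ b ∈ V Ω, T t (a - b) = T t a - T t b := by
    intro t ht a ha b hb
    have p1 := hT2 t ht (a - b) (Submodule.sub_mem _ ha hb)
    have p2 := hT2 t ht a ha
    have p3 := hT2 t ht b hb
    have q1 := E2b.ae_comp (Φ t) (fn_sub a b)
    have q2 := E2b.ae_comp (Φ t) (gr_sub a b)
    refine ext_ae ?_ ?_
    · filter_upwards [p1.1, p2.1, p3.1, q1, fn_sub (T t a) (T t b)] with y h1 h2 h3 h4 h5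
      rw [h1, h4, h5, Pi.sub_apply, Pi.sub_apply, h2, h3]
    · filter_upwards [p1.2, p2.2, p3.2, q2, gr_sub (T t a) (T t b)] with y h1 h2 h3 h4 h5
      rw [h1, h4, h5, Pi.sub_apply, Pi.sub_apply, h2, h3, map_sub]
  -- continuity
  have hTcont : ContinuousOn (fun t => T t u.v) B := by
    obtain ⟨φ, hφ1, hφ2⟩ := exists_test_seq u.mem
    have hunif : TendstoUniformlyOn (fun (n : ℕ) t => T t (tb (φ n))) (fun t => T t u.v) atTop B := by
      rw [Metric.tendstoUniformlyOn_iff]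
      intro ε hε
      have h1 : Tendsto (fun n => K * ‖u.v - tb (φ n)‖) atTop (𝓝 0) := by
        have := (tendsto_iff_norm_sub_tendsto_zero.1 hφ2).const_mul K
        rw [mul_zero] at this
        exact this.congr fun n => by rw [norm_sub_rev]
      filter_upwards [h1.eventually (gt_mem_nhds hε)] with n hn t ht
      rw [dist_eq_norm, ← hsub t ht _ u.mem _ (tb_mem (hφ1 n))]
      exact (hT3 t ht _ (Submodule.sub_mem _ u.mem (tb_mem (hφ1 n)))).trans_lt hn
    refine hunif.continuousOn (Eventually.frequently (Eventually.of_forall fun n => ?_))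
    exact E2b.continuousOn_tb (hφ1 n) hχ ι hBo (fun t ht => ⟨Φ t, hΦ1 t ht⟩)
      (fun t ht => hpull t ht _ (tb_mem (hφ1 n)))
  -- derivative
  obtain ⟨C, hC0, hDex⟩ := E2b.exists_D hχ ι hr0.le
  have hDex' : ∀ t ∈ B, ∀ w : BB, ∃ D : P →L[ℝ] Lp ℝ 2 (volume : Measure E),
        (∀ h : P, D h =ᵐ[volume] fun y => χ y * ⟪(Bt χ (ι t) y) (ι h), gr w y⟫_ℝ) ∧
        ‖D‖ ≤ C * ‖w‖ := fun t ht => hDex t (hρB t ht).1.le (hct t ht)
  choose! D hD1 hD2 using hDex'
  have hDsub : ∀ t ∈ B, ∀ a b : BB, D t (a - b) = D t a - D t b := by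
    intro t ht a b
    refine ContinuousLinearMap.ext fun h => Lp.ext ?_
    rw [_root_.sub_apply]
    filter_upwards [hD1 t ht (a - b) h, hD1 t ht a h, hD1 t ht b h, gr_sub a b,
      Lp.coeFn_sub (D t a h) (D t b h)] with y h1 h2 h3 h4 h5
    rw [h1, h5, Pi.sub_apply, h2, h3, h4, Pi.sub_apply, inner_sub_right]
    ring
  have hderiv : ∀ t ∈ B, HasFDerivAt (fun s => (T s u.v).fst) (D t (T t u.v)) t := by
    obtain ⟨φ, hφ1, hφ2⟩ := exists_test_seq u.mem
    intro t ht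
    have hlim : Tendsto (fun n => ‖tb (φ n) - u.v‖) atTop (𝓝 0) :=
      tendsto_iff_norm_sub_tendsto_zero.1 hφ2
    refine hasFDerivAt_of_tendstoUniformlyOn (l := atTop) (f := fun (n : ℕ) s => (T s (tb (φ n))).fst)
      (f' := fun (n : ℕ) s => D s (T s (tb (φ n)))) (g' := fun s => D s (T s u.v)) hBo ?_ ?_ ?_ ht
    · rw [Metric.tendstoUniformlyOn_iff]
      intro ε hε
      have h1 : Tendsto (fun n => C * (K * ‖u.v - tb (φ n)‖)) atTop (𝓝 0) := by
        have := (hlim.const_mul K).const_mul C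
        rw [mul_zero, mul_zero] at this
        exact this.congr fun n => by rw [norm_sub_rev]
      filter_upwards [h1.eventually (gt_mem_nhds hε)] with n hn s hs
      rw [dist_eq_norm, ← hDsub s hs, ← hsub s hs _ u.mem _ (tb_mem (hφ1 n))]
      refine ((hD2 s hs _).trans ?_).trans_lt hn
      exact mul_le_mul_of_nonneg_left (hT3 s hs _ (Submodule.sub_mem _ u.mem (tb_mem (hφ1 n)))) hC0
    · intro n s hs
      exact E2b.hasFDerivAt_tb (hφ1 n) hχ ι hBo (fun t ht => ⟨Φ t, hΦ1 t ht⟩)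
        (T := fun s => T s (tb (φ n)))
        (fun t ht => hpull t ht _ (tb_mem (hφ1 n))) hs (hct s hs) (hD1 s hs _)
    · intro s hs
      rw [tendsto_iff_norm_sub_tendsto_zero]
      have h1 : Tendsto (fun n => K * ‖tb (φ n) - u.v‖) atTop (𝓝 0) := by
        simpa using hlim.const_mul K
      refine squeeze_zero (fun n => norm_nonneg _) (fun n => ?_) h1
      rw [← WithLp.sub_fst, ← hsub s hs _ (tb_mem (hφ1 n)) _ u.mem]
      exact (WithLp.norm_fst_le _ _).trans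
        (hT3 s hs _ (Submodule.sub_mem _ (tb_mem (hφ1 n)) u.mem))
  classical
  set f : P → VS Ω := fun t => if h : t ∈ B then VS.mk (T t u.v) (hT1 t h _ u.mem) else u with hf
  have hfv : ∀ t ∈ B, (f t).v = T t u.v := by
    intro t ht
    simp only [hf, dif_pos ht, VS.v_mk]
  refine ⟨f, ?_, ?_, ?_, ?_, ?_⟩
  · refine VS.ext' ?_
    rw [hfv 0 h0B]
    have h1 := hpull 0 h0B _ u.mem
    refine ext_ae ?_ ?_
    · filter_upwards [h1.1] with y hy
      rw [hy]; simp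
    · filter_upwards [h1.2] with y hy
      rw [hy]; simp
  · filter_upwards [hBn] with t ht
    rw [hfv t ht]
    exact hpull t ht _ u.mem
  · filter_upwards [hBn] with t ht
    have h1 : ContinuousAt (fun t => T t u.v) t := hTcont.continuousAt (hBo.mem_nhds ht)
    rw [ContinuousAt, tendsto_iff_norm_sub_tendsto_zero]
    rw [ContinuousAt, tendsto_iff_norm_sub_tendsto_zero] at h1
    refine h1.congr' ?_
    filter_upwards [hBo.mem_nhds ht] with s hs
    rw [VS.norm_def, VS.v_sub, hfv s hs, hfv t ht]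
  · filter_upwards [hBn] with t ht
    refine ⟨D t (T t u.v), ?_, ?_⟩
    · refine (hderiv t ht).congr_of_eventuallyEq ?_
      filter_upwards [hBo.mem_nhds ht] with s hs
      rw [hfv s hs]
    · intro h
      rw [hfv t ht]
      exact hD1 t ht _ h
  · intro A J hAJ lam om hsol
    filter_upwards [hBn] with t ht
    have h1 := (hTr (Φ t) Ω A J hAJ).2 lam om u.v (T t u.v) hsol
      (by rw [hpre t ht]; exact hT1 t ht _ u.mem) (hT2 t ht _ u.mem)
    rw [hpre t ht] at h1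
    rw [hfv t ht]
    have e1 : pullA (Φ t) A = At χ A (ι t) := by
      funext y
      unfold pullA At
      rw [hΦ3 t ht, hΦ4 t ht, hΦ1 t ht, abs_of_nonneg (by have := hct t ht y; linarith)]
    have e2 : pullJ (Φ t) J = Jt χ J (ι t) := by
      funext y
      unfold pullJ Jt
      rw [hΦ3 t ht, hΦ1 t ht, abs_of_nonneg (by have := hct t ht y; linarith)]
    rw [e1, e2] at h1
    exact h1

end Pool.Agent.H92.BN
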