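import Pool.Agent.H92.BN.ME11b
import Pool.Agent.H92.BN.ME1
import Pool.Agent.H92.BN.ME2b

/-!
# Module E11c: regularity up to the boundary
-/

set_option autoImplicit false

namespace Pool.Agent.H92.BN

open MeasureTheory Set Filter Topology
open scoped ContDiff InnerProductSpace

namespace E11c

/-- the inverse diffeomorphism -/
def symm (Φ : Dif) : Dif where
  toF := Φ.inv
  inv := Φ.toF
  li := Φ.ri
  ri := Φ.li
  sto := Φ.sinv
  sinv := Φ.sto
  C := Φ.C
  bto := Φ.binv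
  binv := Φ.bto

/-- tangential directions -/
noncomputable def tau : EuclideanSpace ℝ (Fin 2) →L[ℝ] E :=
  LinearMap.toContinuousLinearMap
    { toFun := fun p => (p 0) • ee 0 + (p 1) • ee 1
      map_add' := by
        intro a b
        simp only [PiLp.add_apply, add_smul]
        abel
      map_smul' := by
        intro c a
        simp only [PiLp.smul_apply, smul_eq_mul, mul_smul, RingHom.id_apply, smul_add] }

theorem tau_apply (p : EuclideanSpace ℝ (Fin 2)) : tau p = (p 0) • ee 0 + (p 1) • ee 1 := rfl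

theorem tau_two (p : EuclideanSpace ℝ (Fin 2)) : (tau p) 2 = 0 := by
  rw [tau_apply]
  simp [ee]

theorem exists_list (L : List (Fin 3)) (hL : ∀ i ∈ L, i ≠ 2) :
    ∃ L' : List (EuclideanSpace ℝ (Fin 2)), L'.map tau = L.map ee := by
  induction L with
  | nil => exact ⟨[], rfl⟩
  | cons i L ih =>
    obtain ⟨L', hL'⟩ := ih (fun j hj => hL j (List.mem_cons_of_mem _ hj))
    have hi : i ≠ 2 := hL i List.mem_cons_self
    have : ∃ p : EuclideanSpace ℝ (Fin 2), tau p = ee i := by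
      fin_cases i
      · exact ⟨EuclideanSpace.single 0 1, by rw [tau_apply]; simp⟩
      · exact ⟨EuclideanSpace.single 1 1, by rw [tau_apply]; simp⟩
      · exact absurd rfl hi
    obtain ⟨p, hp⟩ := this
    exact ⟨p :: L', by simp [hp, hL']⟩

/-- `HasW` is monotone in the domain -/
theorem HasW_mono {Q Q' : Set E} (hQ : MeasurableSet Q) (h : Q' ⊆ Q)
    {f g : E → ℝ} {L : List E} (hW : HasW Q f L g) : HasW Q' f L g := by
  intro η hη
  have h1 := hW η (hη.mono h)
  have key : ∀ (F G : E → ℝ), tsupport G ⊆ Q' → (∫ x in Q', F x * G x) = ∫ x in Q, F x * G x := by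
    intro F G hG
    refine (setIntegral_eq_of_subset_of_forall_sdiff_eq_zero hQ h ?_).symm
    intro x hx
    have : G x = 0 := image_eq_zero_of_notMem_tsupport fun hh => hx.2 (hG hh)
    simp [this]
  have hd : ∀ (L : List E) (ζ : E → ℝ), tsupport ζ ⊆ Q' → tsupport (dW L ζ) ⊆ Q' := by
    intro L
    induction L with
    | nil => intro ζ hζ; exact hζ
    | cons t L ih =>
      intro ζ hζ
      exact ih _ ((E11b.tsupport_fderiv_apply_subset ζ t).trans hζ)
  rw [key g η hη.supp, key f (dW L η) (hd L η hη.supp)]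
  exact h1

/-- first weak derivatives of elements of `V` -/
theorem HasW_gr {u : BB} (hu : u ∈ V univ) {Q : Set E} (i : Fin 3) :
    HasW Q (fn u) [ee i] (fun x => ⟪gr u x, ee i⟫_ℝ) := by
  intro η hη
  have h1 := IsTest.weak_grad hη hu (ee i)
  have key : ∀ (F G : E → ℝ), tsupport G ⊆ Q → (∫ x in Q, F x * G x) = ∫ x, F x * G x := by
    intro F G hG
    refine setIntegral_eq_integral_of_forall_compl_eq_zero ?_
    intro x hx
    have : G x = 0 := image_eq_zero_of_notMem_tsupport fun hh => hx (hG hh)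
    simp [this]
  have e : dW [ee i] η = fun x => fderiv ℝ η x (ee i) := rfl
  rw [e, key _ η hη.supp, key _ _ ((E11b.tsupport_fderiv_apply_subset η (ee i)).trans hη.supp), h1]
  simp

theorem isOpen_boxm' (r : ℝ) : IsOpen (boxm r) := by
  unfold boxm
  have h : ∀ i : Fin 3, Continuous (fun x : E => x i) := fun i => by fun_prop
  refine IsOpen.and (isOpen_lt (h 0).abs continuous_const) (IsOpen.and
    (isOpen_lt (h 1).abs continuous_const) (IsOpen.and (isOpen_lt continuous_const (h 2))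
      (isOpen_lt (h 2) continuous_const)))

theorem boxm_subset {s r : ℝ} (hs : 0 < s) (hsr : 2 * s ≤ r) {x : E} (hx : x ∈ boxm s) :
    x ∈ Metric.ball (0 : E) r := by
  obtain ⟨h0, h1, h2, h3⟩ := hx
  rw [mem_ball_zero_iff, EuclideanSpace.norm_eq, Fin.sum_univ_three]
  have hr : 0 < r := by linarith
  rw [Real.sqrt_lt' hr]
  simp only [Real.norm_eq_abs, sq_abs]
  have a0 : x 0 ^ 2 < s ^ 2 := sq_lt_sq' (by linarith [abs_lt.1 h0]) (abs_lt.1 h0).2
  have a1 : x 1 ^ 2 < s ^ 2 := sq_lt_sq' (by linarith [abs_lt.1 h1]) (abs_lt.1 h1).2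
  have a2 : x 2 ^ 2 < s ^ 2 := sq_lt_sq' h2 (by linarith)
  nlinarith

theorem expand_inner (A : E →L[ℝ] E) (g : E) (φ : E → ℝ) (x : E) :
    ⟪A g, gradient φ x⟫_ℝ = ∑ i : Fin 3, ∑ j : Fin 3,
      ⟪A (ee j), ee i⟫_ℝ * ⟪g, ee j⟫_ℝ * fderiv ℝ φ x (ee i) := by
  have h1 : g = ∑ j : Fin 3, ⟪g, ee j⟫_ℝ • ee j := by
    ext k
    simp only [E11b.inner_ee]
    rw [Fin.sum_univ_three]
    fin_cases k <;> simp [ee]
  have h2 : A g = ∑ j : Fin 3, ⟪g, ee j⟫_ℝ • A (ee j) := by
    conv_lhs => rw [h1]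
    rw [map_sum]
    simp only [map_smul]
  rw [PiLp.inner_apply]
  refine Finset.sum_congr rfl fun i _ => ?_
  have h3 : (gradient φ x) i = fderiv ℝ φ x (ee i) := by
    rw [← inner_gradient_left, E11b.inner_ee]
  have h4 : (A g) i = ∑ j : Fin 3, ⟪g, ee j⟫_ℝ * ⟪A (ee j), ee i⟫_ℝ := by
    rw [← E11b.inner_ee, h2, sum_inner]
    refine Finset.sum_congr rfl fun j _ => ?_
    rw [real_inner_smul_left]
  rw [h3, h4]
  simp only [RCLike.inner_apply, conj_trivial]
  rw [Finset.mul_sum]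
  refine Finset.sum_congr rfl fun j _ => ?_
  ring

/-- local smooth representative near the flat boundary -/
theorem flat_smooth (hT : TangStmt) (hN : NormalStmt) (hSe : SeeleyStmt) {Ω : Set E}
    (hΩ : IsOpen Ω) {r : ℝ} (hr : 0 < r)
    (hflat : ∀ y ∈ Metric.ball (0 : E) r, (y ∈ Ω ↔ y 2 < 0))
    {A : E → E →L[ℝ] E} {J : E → ℝ} (hAJ : Coef A J) {lam om : ℝ} {w : BB}
    (hw : SolC Ω A J lam om w) :
    ∃ s : ℝ, 0 < s ∧ 2 * s ≤ r ∧ ∃ U : E → ℝ, ContDiff ℝ ∞ U ∧
      ∀ᵐ x ∂(volume.restrict (boxm s)), fn w x = U x := by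
  set s : ℝ := r / 4 with hs_def
  have hs : 0 < s := by positivity
  have hbox : ∀ x ∈ boxm s, x ∈ Metric.ball (0 : E) (r / 2) := fun x hx =>
    boxm_subset hs (by rw [hs_def]; linarith) hx
  have hboxΩ : boxm s ⊆ Ω := by
    intro x hx
    have h1 := hbox x hx
    have h2 : x ∈ Metric.ball (0 : E) r := Metric.ball_subset_ball (by linarith) h1
    exact (hflat x h2).2 hx.2.2.2
  have hwu : w ∈ V univ := V_le_univ Ω hw.1
  -- tangential derivatives
  have htan : ∀ L : List (Fin 3), (∀ i ∈ L, i ≠ 2) → ∃ v ∈ V Ω,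
      HasW (boxm s) (fn w) (L.map ee) (fn v) := by
    intro L hL
    obtain ⟨L', hL'⟩ := exists_list L hL
    obtain ⟨v, hv, hvW⟩ := hT Ω hΩ A J hAJ lam om w hw (EuclideanSpace ℝ (Fin 2)) tau
      (Metric.ball (0 : E) r) Metric.isOpen_ball (by
        intro x hx t hxt
        rw [hflat x hx, hflat _ hxt]
        have : (x + tau t) 2 = x 2 := by
          rw [PiLp.add_apply, tau_two, add_zero]
        rw [this]) 0 (r / 2) (by positivity)
      (Metric.closedBall_subset_ball (by linarith)) L'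
    refine ⟨v, hv, ?_⟩
    rw [hL'] at hvW
    refine HasW_mono (Metric.isOpen_ball.inter hΩ).measurableSet ?_ hvW
    intro x hx
    exact ⟨hbox x hx, hboxΩ hx⟩
  have hall : AllW (boxm s) (fn w) := by
    refine hN s hs A J hAJ lam om (fn w) (fun i x => ⟪gr w x, ee i⟫_ℝ)
      ((memLp_fn w).restrict _) ?_ ?_ ?_
    · intro L hL
      obtain ⟨v, hv, hvW⟩ := htan L hL
      refine ⟨fn v, (memLp_fn v).restrict _, hvW, fun i => ?_⟩
      exact ⟨fun x => ⟪gr v x, ee i⟫_ℝ, ((memLp_gr v).inner_const (ee i)).restrict _,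
        HasW_gr (V_le_univ Ω hv) i⟩
    · intro i
      exact ⟨((memLp_gr w).inner_const (ee i)).restrict _, HasW_gr hwu i⟩
    · intro η hη
      have hηΩ : IsTest Ω η := hη.mono hboxΩ
      have h1 := hw.2 (tb η) (tb_mem hηΩ)
      have rr := rep_tb hηΩ
      have e1 : (∫ x, ⟪A x (gr w x), gr (tb η) x⟫_ℝ) =
          ∫ x in boxm s, ∑ i : Fin 3, ∑ j : Fin 3,
            ⟪A x (ee j), ee i⟫_ℝ * ⟪gr w x, ee j⟫_ℝ * fderiv ℝ η x (ee i) := by
        have : (∫ x, ⟪A x (gr w x), gr (tb η) x⟫_ℝ) = ∫ x, ∑ i : Fin 3, ∑ j : Fin 3,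
            ⟪A x (ee j), ee i⟫_ℝ * ⟪gr w x, ee j⟫_ℝ * fderiv ℝ η x (ee i) := by
          refine integral_congr_ae ?_
          filter_upwards [rr.2] with x hx
          rw [hx, expand_inner]
        rw [this]
        refine (setIntegral_eq_integral_of_forall_compl_eq_zero ?_).symm
        intro x hx
        have h0 : fderiv ℝ η x = 0 :=
          fderiv_of_notMem_tsupport (𝕜 := ℝ) fun hh => hx (hη.supp hh)
        simp [h0]
      have e2 : (∫ x, J x * (lam * fn w x + om * fn w x ^ 5) * fn (tb η) x) =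
          ∫ x in boxm s, J x * (lam * fn w x + om * fn w x ^ 5) * η x := by
        have : (∫ x, J x * (lam * fn w x + om * fn w x ^ 5) * fn (tb η) x) =
            ∫ x, J x * (lam * fn w x + om * fn w x ^ 5) * η x := by
          refine integral_congr_ae ?_
          filter_upwards [rr.1] with x hx
          rw [hx]
        rw [this]
        refine (setIntegral_eq_integral_of_forall_compl_eq_zero ?_).symm
        intro x hx
        have h0 : η x = 0 := image_eq_zero_of_notMem_tsupport fun hh => hx (hη.supp hh)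
        simp [h0]
      rw [e1, e2] at h1
      exact h1
  obtain ⟨U, hU, hae⟩ := hSe s hs (fn w) hall
  exact ⟨s / 2, by positivity, by rw [hs_def]; linarith, U, hU, hae⟩

theorem isOpen_preimage (Φ : Dif) {Ω : Set E} (hΩ : IsOpen Ω) : IsOpen (Φ.toF ⁻¹' Ω) :=
  hΩ.preimage Φ.sto.continuous

/-- local smooth representative near a boundary point -/
theorem bd_smooth (hS : SobVStmt) (hT : TangStmt) (hC : CompStmt) (hTr : TransStmt)
    (hN : NormalStmt) (hSe : SeeleyStmt) {Ω : Set E} (hΩ : IsOpen Ω) {lam om : ℝ} {u : BB}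
    (hu : Sol Ω lam om u) {p : E} (Φ : Dif) {r : ℝ} (hr : 0 < r) (h0 : Φ.toF 0 = p)
    (hflat : ∀ y ∈ Metric.ball (0 : E) r, (Φ.toF y ∈ Ω ↔ y 2 < 0)) :
    ∃ W : Set E, IsOpen W ∧ p ∈ W ∧ ∃ U : E → ℝ, ContDiff ℝ ∞ U ∧
      ∀ᵐ x ∂(volume.restrict (Ω ∩ W)), fn u x = U x := by
  obtain ⟨K, hK, hcomp⟩ := hC Φ.C
  obtain ⟨w, hw, hwc, -⟩ := hcomp Φ le_rfl Ω u hu.1
  have hsol := solC_id hS hu
  obtain ⟨hcoef, htr⟩ := hTr Φ Ω _ _ coef_id
  have hws := htr lam om u w hsol hw hwc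
  obtain ⟨s, hs, hsr, U, hU, hae⟩ := flat_smooth hT hN hSe (isOpen_preimage Φ hΩ) hr
    (fun y hy => hflat y hy) hcoef hws
  have hci : Φ.inv p = 0 := by rw [← h0, Φ.li]
  refine ⟨Φ.inv ⁻¹' (Metric.ball (0 : E) s), Metric.isOpen_ball.preimage Φ.sinv.continuous, ?_,
    fun x => U (Φ.inv x), hU.comp Φ.sinv, ?_⟩
  · rw [mem_preimage]
    rw [hci]
    exact Metric.mem_ball_self hs
  · rw [ae_restrict_iff' (isOpen_boxm' s).measurableSet] at hae
    have h1 : ∀ᵐ y : E, y ∈ boxm s → fn u (Φ.toF y) = U y := by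
      filter_upwards [hae, hwc.1] with y hy1 hy2 hyb
      rw [← hy1 hyb, hy2]
    have h2 : ∀ᵐ x : E, Φ.inv x ∈ boxm s → fn u (Φ.toF (Φ.inv x)) = U (Φ.inv x) :=
      E2b.ae_comp (symm Φ) h1
    have hWo : IsOpen (Φ.inv ⁻¹' (Metric.ball (0 : E) s)) :=
      Metric.isOpen_ball.preimage Φ.sinv.continuous
    rw [ae_restrict_iff' (hΩ.inter hWo).measurableSet]
    filter_upwards [h2] with x hx hxW
    obtain ⟨hxΩ, hxs⟩ := hxW
    have hxs' : Φ.inv x ∈ Metric.ball (0 : E) s := hxs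
    have hxr : Φ.inv x ∈ Metric.ball (0 : E) r := Metric.ball_subset_ball (by linarith) hxs'
    have hneg : (Φ.inv x) 2 < 0 := by
      rw [← hflat _ hxr, Φ.ri]
      exact hxΩ
    have hco : ∀ i : Fin 3, |(Φ.inv x) i| < s := by
      intro i
      have h3 : ‖(Φ.inv x) i‖ ≤ ‖Φ.inv x‖ := PiLp.norm_apply_le _ i
      have h4 : ‖Φ.inv x‖ < s := mem_ball_zero_iff.1 hxs'
      rw [Real.norm_eq_abs] at h3
      linarith
    have hb : Φ.inv x ∈ boxm s := ⟨hco 0, hco 1, (abs_lt.1 (hco 2)).1, hneg⟩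
    have := hx hb
    rwa [Φ.ri] at this

end E11c

open E11c

/-- regularity up to the boundary -/
theorem regBd (hS : SobVStmt) (hT : TangStmt) (hI : InnerStmt) (hC : CompStmt)
    (hTr : TransStmt) (hF : FlatStmt) (hN : NormalStmt) (hSe : SeeleyStmt) (hG : GlueStmt)
    (hZ : ZeroBdStmt) : RegBdStmt := by
  intro Ω hΩ hbd hsm lam om u hu
  obtain ⟨U, hU, hae⟩ := hG Ω hΩ hbd (fn u) (by
    intro p hp
    by_cases hpΩ : p ∈ Ω
    · obtain ⟨r, hr, hball, U, hU, hae⟩ := local_smooth hS hT hI hΩ hu hpΩ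
      exact ⟨Metric.ball p r, Metric.isOpen_ball, Metric.mem_ball_self hr, U, hU,
        ae_restrict_of_ae_restrict_of_subset inter_subset_right hae⟩
    · have hpf : p ∈ frontier Ω := by
        rw [hΩ.frontier_eq]
        exact ⟨hp, hpΩ⟩
      obtain ⟨Φ, r, hr, h0, hflat⟩ := hF Ω hsm p hpf
      exact bd_smooth hS hT hC hTr hN hSe hΩ hu Φ hr h0 hflat)
  refine ⟨U, hU, hae, gr_eq_gradient hΩ (V_le_univ Ω hu.1) hU.contDiffOn hae, ?_,
    classical_of_weak hΩ hu hU.contDiffOn hae⟩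
  intro p hpf
  obtain ⟨Φ, r, hr, h0, hflat⟩ := hF Ω hsm p hpf
  obtain ⟨K, hK, hcomp⟩ := hC Φ.C
  obtain ⟨w, hw, hwc, -⟩ := hcomp Φ le_rfl Ω u hu.1
  have hz := hZ (Φ.toF ⁻¹' Ω) r hr hflat w hw (fun y => U (Φ.toF y)) (hU.comp Φ.sto)
    (r / 2) (by positivity) (by
      rw [ae_restrict_iff' (isOpen_boxm' _).measurableSet]
      rw [ae_restrict_iff' hΩ.measurableSet] at hae
      have h2 : ∀ᵐ y : E, Φ.toF y ∈ Ω → fn u (Φ.toF y) = U (Φ.toF y) := E2b.ae_comp Φ hae
      filter_upwards [h2, hwc.1] with y hy1 hy2 hyb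
      rw [hy2]
      refine hy1 ?_
      have hyr : y ∈ Metric.ball (0 : E) r := boxm_subset (by positivity) (by linarith) hyb
      exact (hflat y hyr).2 hyb.2.2.2)
  have hz' : U (Φ.toF 0) = 0 := hz
  rwa [h0] at hz'

end Pool.Agent.H92.BN
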