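import Pool.Agent.H92.BN.Iface2

/-!
# Module E2a: the family `φ_t` and the flattening of the boundary
-/

set_option autoImplicit false

namespace Pool.Agent.H92.BN

open MeasureTheory Set Filter Topology
open scoped ContDiff InnerProductSpace

namespace E2a

/-- smooth perturbations of the identity by a `1/2`-contraction are diffeomorphisms -/
theorem exists_dif (g : E → E) (hg : ContDiff ℝ ∞ g) (hb : ∀ x, ‖fderiv ℝ g x‖ ≤ 1 / 2) :
    ∃ Φ : Dif, (∀ y, Φ.toF y = y + g y) ∧ Φ.C = 2 ∧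
      (∀ y, fderiv ℝ Φ.toF y = ContinuousLinearMap.id ℝ E + fderiv ℝ g y) ∧
      (∀ y, (fderiv ℝ Φ.inv (Φ.toF y)) ∘L (fderiv ℝ Φ.toF y) = ContinuousLinearMap.id ℝ E) := by
  have hgd : Differentiable ℝ g := hg.differentiable (by simp)
  have hlip : LipschitzWith (1 / 2) g := by
    refine lipschitzWith_of_nnnorm_fderiv_le hgd fun x => ?_
    have := hb x
    rw [← NNReal.coe_le_coe, coe_nnnorm]
    simpa using this
  set f : E → E := fun y => y + g y with hf
  have happ : ApproximatesLinearOn f ((ContinuousLinearEquiv.refl ℝ E : E ≃L[ℝ] E) : E →L[ℝ] E)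
      univ (1 / 2) := by
    rw [ApproximatesLinearOn.approximatesLinearOn_iff_lipschitzOnWith]
    have : (f - ⇑((ContinuousLinearEquiv.refl ℝ E : E ≃L[ℝ] E) : E →L[ℝ] E)) = g := by
      funext y
      simp [hf]
    rw [this]
    exact hlip.lipschitzOnWith
  have hc : Subsingleton E ∨ (1 / 2 : NNReal) <
      ‖(((ContinuousLinearEquiv.refl ℝ E : E ≃L[ℝ] E).symm : E ≃L[ℝ] E) : E →L[ℝ] E)‖₊⁻¹ := by
    right
    have h1 : ‖(((ContinuousLinearEquiv.refl ℝ E : E ≃L[ℝ] E).symm : E ≃L[ℝ] E) : E →L[ℝ] E)‖₊ = 1 := by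
      have : ‖ContinuousLinearMap.id ℝ E‖ = 1 := ContinuousLinearMap.norm_id
      exact NNReal.eq this
    rw [h1, inv_one]
    rw [← NNReal.coe_lt_coe]
    norm_num
  set H := happ.toHomeomorph f hc with hH
  have hHf : ∀ y, H y = f y := fun y => rfl
  have hfd : ∀ y, HasFDerivAt f (ContinuousLinearMap.id ℝ E + fderiv ℝ g y) y := fun y =>
    (hasFDerivAt_id y).add (hgd y).hasFDerivAt
  -- lower bound
  have hlow : ∀ y v, ‖v‖ ≤ 2 * ‖(ContinuousLinearMap.id ℝ E + fderiv ℝ g y) v‖ := by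
    intro y v
    have h1 : ‖fderiv ℝ g y v‖ ≤ 1 / 2 * ‖v‖ := (fderiv ℝ g y).le_of_opNorm_le (hb y) v
    have h2 : ‖v‖ ≤ ‖v + fderiv ℝ g y v‖ + ‖fderiv ℝ g y v‖ := by
      calc ‖v‖ = ‖(v + fderiv ℝ g y v) - fderiv ℝ g y v‖ := by rw [add_sub_cancel_right]
        _ ≤ _ := norm_sub_le _ _
    have h3 : (ContinuousLinearMap.id ℝ E + fderiv ℝ g y) v = v + fderiv ℝ g y v := rfl
    rw [h3]
    linarith
  have hinj : ∀ y, Function.Injective (ContinuousLinearMap.id ℝ E + fderiv ℝ g y) := by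
    intro y
    rw [injective_iff_map_eq_zero]
    intro v hv
    have := hlow y v
    rw [hv, norm_zero, mul_zero] at this
    exact norm_le_zero_iff.mp this
  let L : E → (E ≃L[ℝ] E) := fun y =>
    (LinearEquiv.ofInjectiveEndo ((ContinuousLinearMap.id ℝ E + fderiv ℝ g y : E →L[ℝ] E) :
      E →ₗ[ℝ] E) (hinj y)).toContinuousLinearEquiv
  have hL : ∀ y, ((L y : E ≃L[ℝ] E) : E →L[ℝ] E) = ContinuousLinearMap.id ℝ E + fderiv ℝ g y := by
    intro y
    ext1 v
    rfl
  have hsto : ContDiff ℝ ∞ f := contDiff_id.add hg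
  have hder : ∀ a, HasFDerivAt H ((L a : E ≃L[ℝ] E) : E →L[ℝ] E) a := by
    intro a
    rw [hL]
    exact hfd a
  have hsinv : ContDiff ℝ ∞ (H.symm : E → E) := H.contDiff_symm hder (by exact hsto)
  have hfdf : ∀ y, fderiv ℝ f y = ContinuousLinearMap.id ℝ E + fderiv ℝ g y := fun y =>
    (hfd y).fderiv
  have hinvd : ∀ y, (fderiv ℝ (H.symm : E → E) (f y)) ∘L (fderiv ℝ f y) =
      ContinuousLinearMap.id ℝ E := by
    intro y
    have h1 : HasFDerivAt (H.symm : E → E) (fderiv ℝ (H.symm : E → E) (f y)) (f y) :=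
      (hsinv.differentiable (by simp) (f y)).hasFDerivAt
    have h2 := h1.comp y (hfd y)
    have h3 : ((H.symm : E → E) ∘ f) = id := by
      funext z
      exact H.symm_apply_apply z
    rw [h3] at h2
    rw [hfdf]
    exact h2.unique (hasFDerivAt_id y)
  have hbinv : ∀ x, ‖fderiv ℝ (H.symm : E → E) x‖ ≤ 2 := by
    intro x
    obtain ⟨y, rfl⟩ : ∃ y, x = f y := ⟨H.symm x, (H.apply_symm_apply x).symm⟩
    refine ContinuousLinearMap.opNorm_le_bound _ (by norm_num) fun v => ?_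
    -- surjectivity
    have hsurj : ∃ w, (ContinuousLinearMap.id ℝ E + fderiv ℝ g y) w = v := by
      refine ⟨(L y).symm v, ?_⟩
      rw [← hL]
      exact (L y).apply_symm_apply v
    obtain ⟨w, hw⟩ := hsurj
    have h4 : fderiv ℝ (H.symm : E → E) (f y) v = w := by
      have := congrArg (fun T : E →L[ℝ] E => T w) (hinvd y)
      simp only [ContinuousLinearMap.coe_comp, Function.comp_apply,
        ContinuousLinearMap.coe_id', id] at this
      rw [hfdf, hw] at this
      exact this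
    rw [h4, ← hw]
    exact hlow y w
  have hbto : ∀ x, ‖fderiv ℝ f x‖ ≤ 2 := by
    intro x
    rw [hfdf]
    calc ‖ContinuousLinearMap.id ℝ E + fderiv ℝ g x‖
        ≤ ‖ContinuousLinearMap.id ℝ E‖ + ‖fderiv ℝ g x‖ := norm_add_le _ _
      _ ≤ 1 + 1 / 2 := add_le_add ContinuousLinearMap.norm_id_le (hb x)
      _ ≤ 2 := by norm_num
  exact ⟨{ toF := f
           inv := H.symm
           li := fun x => H.symm_apply_apply x
           ri := fun x => H.apply_symm_apply x
           sto := hsto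
           sinv := hsinv
           C := 2
           bto := hbto
           binv := hbinv }, fun y => rfl, rfl, hfdf, hinvd⟩

/-- a test function has bounded gradient -/
theorem bdd_gradient {χ : E → ℝ} (hχ : IsTest univ χ) : ∃ C, 0 ≤ C ∧ ∀ x, ‖gradient χ x‖ ≤ C := by
  have h1 : Continuous (fderiv ℝ χ) := hχ.smooth.continuous_fderiv (by simp)
  have h2 : HasCompactSupport (fderiv ℝ χ) := hχ.cpt.fderiv ℝ
  obtain ⟨C, hC⟩ := h1.bounded_above_of_compact_support h2
  refine ⟨C, (norm_nonneg _).trans (hC 0), fun x => ?_⟩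
  have h3 : ‖gradient χ x‖ = ‖fderiv ℝ χ x‖ := by
    unfold gradient
    exact (InnerProductSpace.toDual ℝ E).symm.norm_map _
  rw [h3]
  exact hC x

theorem inner_gradient {χ : E → ℝ} (x v : E) : ⟪gradient χ x, v⟫_ℝ = fderiv ℝ χ x v := by
  unfold gradient
  exact InnerProductSpace.toDual_symm_apply

theorem fam : FamStmt := by
  intro χ hχ
  obtain ⟨C, hC0, hC⟩ := bdd_gradient hχ
  refine ⟨1 / (2 * (C + 1)), by positivity, ?_⟩
  intro t ht
  have hCt : C * ‖t‖ ≤ 1 / 2 := by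
    have h1 : ‖t‖ * (2 * (C + 1)) < 1 := by
      rw [lt_div_iff₀ (by positivity)] at ht
      exact ht
    nlinarith [norm_nonneg t]
  have hin : ∀ y, |⟪gradient χ y, t⟫_ℝ| ≤ 1 / 2 := by
    intro y
    calc |⟪gradient χ y, t⟫_ℝ| ≤ ‖gradient χ y‖ * ‖t‖ := abs_real_inner_le_norm _ _
      _ ≤ C * ‖t‖ := mul_le_mul_of_nonneg_right (hC y) (norm_nonneg _)
      _ ≤ 1 / 2 := hCt
  have hpos : ∀ y, 1 / 2 ≤ 1 + ⟪gradient χ y, t⟫_ℝ := by
    intro y
    have := (abs_le.mp (hin y)).1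
    linarith
  refine ⟨hpos, ?_⟩
  have hχd : Differentiable ℝ χ := hχ.smooth.differentiable (by simp)
  have hgd : ∀ y, HasFDerivAt (fun y => χ y • t) ((fderiv ℝ χ y).smulRight t) y := fun y =>
    (hχd y).hasFDerivAt.smul_const t
  have hg : ContDiff ℝ ∞ (fun y => χ y • t) := hχ.smooth.smul contDiff_const
  have hb : ∀ x, ‖fderiv ℝ (fun y => χ y • t) x‖ ≤ 1 / 2 := by
    intro x
    rw [(hgd x).fderiv]
    refine (ContinuousLinearMap.opNorm_le_bound _ (by norm_num) fun v => ?_)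
    rw [ContinuousLinearMap.smulRight_apply, norm_smul, ← inner_gradient]
    calc ‖⟪gradient χ x, v⟫_ℝ‖ * ‖t‖ ≤ (‖gradient χ x‖ * ‖v‖) * ‖t‖ :=
          mul_le_mul_of_nonneg_right (norm_inner_le_norm _ _) (norm_nonneg _)
      _ ≤ (C * ‖v‖) * ‖t‖ := by
          have := hC x
          gcongr
      _ = (C * ‖t‖) * ‖v‖ := by ring
      _ ≤ 1 / 2 * ‖v‖ := mul_le_mul_of_nonneg_right hCt (norm_nonneg _)
  obtain ⟨Φ, h1, h2, h3, h4⟩ := exists_dif (fun y => χ y • t) hg hb
  have h5 : ∀ y, fderiv ℝ Φ.toF y = ContinuousLinearMap.id ℝ E +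
      (innerSL ℝ (gradient χ y)).smulRight t := by
    intro y
    rw [h3 y, (hgd y).fderiv]
    congr 1
    ext1 v
    simp only [ContinuousLinearMap.smulRight_apply, innerSL_apply_apply, inner_gradient]
  refine ⟨Φ, h1, h2, ?_, ?_⟩
  · intro y
    rw [h5 y]
    have : ((ContinuousLinearMap.id ℝ E + (innerSL ℝ (gradient χ y)).smulRight t : E →L[ℝ] E) :
        E →ₗ[ℝ] E) = LinearMap.transvection
          ((innerSL ℝ (gradient χ y) : E →L[ℝ] ℝ) : E →ₗ[ℝ] ℝ) t := by
      ext1 v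
      simp [LinearMap.transvection.apply]
    unfold ContinuousLinearMap.det
    rw [this, LinearMap.transvection.det]
    rfl
  · intro y
    have h6 : (fderiv ℝ Φ.toF y) ∘L (Bt χ t y) = ContinuousLinearMap.id ℝ E := by
      rw [h5 y]
      have hne : (1 + ⟪gradient χ y, t⟫_ℝ) ≠ 0 := by
        have := hpos y
        positivity
      ext1 v
      simp only [Bt, ContinuousLinearMap.coe_comp, Function.comp_apply,
        _root_.add_apply, _root_.sub_apply,
        _root_.smul_apply, ContinuousLinearMap.smulRight_apply,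
        ContinuousLinearMap.coe_id', id, innerSL_apply_apply, inner_sub_right, inner_smul_right,
        smul_smul]
      rw [sub_add, sub_eq_self, ← sub_smul]
      convert zero_smul ℝ t
      field_simp
      ring
    calc fderiv ℝ Φ.inv (Φ.toF y)
        = (fderiv ℝ Φ.inv (Φ.toF y)) ∘L ((fderiv ℝ Φ.toF y) ∘L (Bt χ t y)) := by
          rw [h6, ContinuousLinearMap.comp_id]
      _ = ((fderiv ℝ Φ.inv (Φ.toF y)) ∘L (fderiv ℝ Φ.toF y)) ∘L (Bt χ t y) := by
          rw [ContinuousLinearMap.comp_assoc]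
      _ = Bt χ t y := by rw [h4 y, ContinuousLinearMap.id_comp]

/-- the quantitative cut-off: a `C¹`-small function near `0`, cut off, is `C¹`-small -/
theorem cut_small {h : E → ℝ} (hh : ContDiff ℝ ∞ h) (h0 : h 0 = 0) (h1 : fderiv ℝ h 0 = 0)
    {δ : ℝ} (hδ : 0 < δ) :
    ∃ r : ℝ, 0 < r ∧ ∃ ψ : E → ℝ, ContDiff ℝ ∞ ψ ∧ (∀ z ∈ Metric.ball (0 : E) r, ψ z = h z) ∧
      ψ 0 = 0 ∧ ∀ z, ‖fderiv ℝ ψ z‖ ≤ δ := by
  -- base cut-off
  let B : ContDiffBump (0 : E) := ⟨1, 2, one_pos, one_lt_two⟩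
  have hB : ContDiff ℝ ∞ (B : E → ℝ) := B.contDiff
  have hBd : Differentiable ℝ (B : E → ℝ) := hB.differentiable (by simp)
  obtain ⟨C, hC⟩ := (hB.continuous_fderiv (by simp)).bounded_above_of_compact_support
    (B.hasCompactSupport.fderiv ℝ)
  have hC0 : 0 ≤ C := (norm_nonneg _).trans (hC 0)
  have hhd : Differentiable ℝ h := hh.differentiable (by simp)
  -- smallness of the derivative near zero
  set ε := δ / (2 * C + 1) with hε
  have hε0 : 0 < ε := by positivity
  have hcont : Continuous (fderiv ℝ h) := hh.continuous_fderiv (by simp)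
  have hev : ∀ᶠ z in 𝓝 (0 : E), ‖fderiv ℝ h z‖ < ε := by
    have := hcont.norm.continuousAt (x := (0 : E))
    have h2 : ‖fderiv ℝ h 0‖ < ε := by rw [h1, norm_zero]; exact hε0
    exact this.eventually (gt_mem_nhds h2)
  obtain ⟨s, hs, hsb⟩ := Metric.eventually_nhds_iff_ball.mp hev
  set r := s / 2 with hr
  have hr0 : 0 < r := by positivity
  have hsr : s = 2 * r := by rw [hr]; ring
  have hval : ∀ z ∈ Metric.ball (0 : E) s, |h z| ≤ ε * ‖z‖ := by
    intro z hz
    have := (convex_ball (0 : E) s).norm_image_sub_le_of_norm_fderiv_le (𝕜 := ℝ) (f := h)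
      (fun x _ => hhd x) (fun x hx => (hsb x hx).le) (Metric.mem_ball_self hs) hz
    rw [h0, sub_zero, sub_zero, Real.norm_eq_abs] at this
    exact this
  have hscale : ∀ z : E, HasFDerivAt (fun z : E => r⁻¹ • z) (r⁻¹ • ContinuousLinearMap.id ℝ E) z :=
    fun z => (hasFDerivAt_id z).const_smul r⁻¹
  have hBr : ∀ z : E, HasFDerivAt (fun z : E => B (r⁻¹ • z))
      ((fderiv ℝ (B : E → ℝ) (r⁻¹ • z)) ∘L (r⁻¹ • ContinuousLinearMap.id ℝ E)) z := fun z =>
    ((hBd (r⁻¹ • z)).hasFDerivAt).comp z (hscale z)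
  refine ⟨r, hr0, fun z => B (r⁻¹ • z) * h z, ?_, ?_, ?_, ?_⟩
  · exact (hB.comp (contDiff_const_smul r⁻¹)).mul hh
  · intro z hz
    rw [mem_ball_zero_iff] at hz
    have : B (r⁻¹ • z) = 1 := by
      apply B.one_of_mem_closedBall
      rw [mem_closedBall_zero_iff, norm_smul, norm_inv, Real.norm_eq_abs, abs_of_pos hr0]
      change r⁻¹ * ‖z‖ ≤ 1
      rw [inv_mul_le_iff₀ hr0]
      linarith
    change B (r⁻¹ • z) * h z = h z
    rw [this, one_mul]
  · change B (r⁻¹ • (0 : E)) * h 0 = 0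
    rw [h0, mul_zero]
  · intro z
    have hd : HasFDerivAt (fun z => B (r⁻¹ • z) * h z)
        (B (r⁻¹ • z) • fderiv ℝ h z +
          h z • (fderiv ℝ (B : E → ℝ) (r⁻¹ • z) ∘L (r⁻¹ • ContinuousLinearMap.id ℝ E))) z :=
      (hBr z).mul (hhd z).hasFDerivAt
    rw [hd.fderiv]
    by_cases hz : z ∈ Metric.ball (0 : E) s
    · have hz' : ‖z‖ < 2 * r := by rw [mem_ball_zero_iff] at hz; linarith
      have e1 : ‖B (r⁻¹ • z) • fderiv ℝ h z‖ ≤ ε := by
        rw [norm_smul, Real.norm_eq_abs, abs_of_nonneg B.nonneg]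
        calc B (r⁻¹ • z) * ‖fderiv ℝ h z‖ ≤ 1 * ε :=
              mul_le_mul B.le_one (hsb z hz).le (norm_nonneg _) zero_le_one
          _ = ε := one_mul _
      have e2 : ‖h z • (fderiv ℝ (B : E → ℝ) (r⁻¹ • z) ∘L (r⁻¹ • ContinuousLinearMap.id ℝ E))‖ ≤
          2 * C * ε := by
        rw [norm_smul, Real.norm_eq_abs]
        have e3 : ‖fderiv ℝ (B : E → ℝ) (r⁻¹ • z) ∘L (r⁻¹ • ContinuousLinearMap.id ℝ E)‖ ≤
            C * r⁻¹ := by
          refine (ContinuousLinearMap.opNorm_comp_le _ _).trans ?_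
          refine mul_le_mul (hC _) ?_ (norm_nonneg _) hC0
          rw [norm_smul, norm_inv, Real.norm_eq_abs, abs_of_pos hr0]
          calc r⁻¹ * ‖ContinuousLinearMap.id ℝ E‖ ≤ r⁻¹ * 1 :=
                mul_le_mul_of_nonneg_left ContinuousLinearMap.norm_id_le (by positivity)
            _ = r⁻¹ := mul_one _
        calc |h z| * ‖fderiv ℝ (B : E → ℝ) (r⁻¹ • z) ∘L (r⁻¹ • ContinuousLinearMap.id ℝ E)‖
            ≤ (ε * (2 * r)) * (C * r⁻¹) := by
              refine mul_le_mul ((hval z hz).trans ?_) e3 (norm_nonneg _) (by positivity)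
              exact mul_le_mul_of_nonneg_left hz'.le hε0.le
          _ = 2 * C * ε := by field_simp
      calc ‖B (r⁻¹ • z) • fderiv ℝ h z +
            h z • (fderiv ℝ (B : E → ℝ) (r⁻¹ • z) ∘L (r⁻¹ • ContinuousLinearMap.id ℝ E))‖
          ≤ ε + 2 * C * ε := (norm_add_le _ _).trans (add_le_add e1 e2)
        _ = (2 * C + 1) * ε := by ring
        _ = δ := by rw [hε]; field_simp
    · -- outside the ball everything vanishes
      have hz' : 2 * r ≤ ‖z‖ := by
        rw [mem_ball_zero_iff, not_lt] at hz; linarith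
      have hnot : r⁻¹ • z ∉ Metric.ball (0 : E) 2 := by
        rw [mem_ball_zero_iff, not_lt, norm_smul, norm_inv, Real.norm_eq_abs, abs_of_pos hr0,
          le_inv_mul_iff₀ hr0]
        linarith
      have hB0 : B (r⁻¹ • z) = 0 := by
        have : r⁻¹ • z ∉ Function.support (B : E → ℝ) := by
          rw [B.support_eq]; exact hnot
        exact Function.notMem_support.mp this
      have hBmin : IsLocalMin (B : E → ℝ) (r⁻¹ • z) := by
        refine Filter.Eventually.of_forall fun w => ?_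
        rw [hB0]; exact B.nonneg
      have hB1 : fderiv ℝ (B : E → ℝ) (r⁻¹ • z) = 0 := hBmin.fderiv_eq_zero
      rw [hB0, hB1, ContinuousLinearMap.zero_comp, smul_zero, zero_smul, add_zero, norm_zero]
      exact hδ.le

theorem flat : FlatStmt := by
  intro Ω hΩ p hp
  obtain ⟨ρ, hρ, hΩρ, hne⟩ := hΩ
  have hρc : Continuous ρ := hρ.continuous
  have hp0 : ρ p = 0 := by
    rw [hΩρ] at hp
    exact frontier_lt_subset_eq hρc continuous_const hp
  have hρd : Differentiable ℝ ρ := hρ.differentiable (by simp)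
  set G := gradient ρ p with hG
  have hGne : G ≠ 0 := by
    intro h
    apply hne p hp0
    have : (InnerProductSpace.toDual ℝ E).symm (fderiv ℝ ρ p) = 0 := h
    simpa using this
  set k := ‖G‖ with hk
  have hk0 : 0 < k := norm_pos_iff.mpr hGne
  set ν : E := k⁻¹ • G with hν
  have hν1 : ‖ν‖ = 1 := by
    rw [hν, norm_smul, norm_inv, Real.norm_eq_abs, abs_of_pos hk0, ← hk]
    exact inv_mul_cancel₀ hk0.ne'
  -- the remainder
  let h : E → ℝ := fun z => k⁻¹ * (ρ (p + z) - ⟪G, z⟫_ℝ)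
  have hhs : ContDiff ℝ ∞ h := by
    have h1 : ContDiff ℝ ∞ (fun z : E => ρ (p + z)) := hρ.comp (contDiff_const.add contDiff_id)
    have h2 : ContDiff ℝ ∞ (fun z : E => ⟪G, z⟫_ℝ) := contDiff_const.inner ℝ contDiff_id
    exact contDiff_const.mul (h1.sub h2)
  have hh0 : h 0 = 0 := by
    simp [h, hp0]
  have hh1 : fderiv ℝ h 0 = 0 := by
    have h1 : HasFDerivAt (fun z : E => ρ (p + z)) (fderiv ℝ ρ p) 0 := by
      have h3 : HasFDerivAt (fun z : E => p + z) (ContinuousLinearMap.id ℝ E) 0 :=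
        (hasFDerivAt_id (0 : E)).const_add p
      have h4 : HasFDerivAt ρ (fderiv ℝ ρ p) (p + 0) := by
        rw [add_zero]; exact (hρd p).hasFDerivAt
      exact h4.comp (0 : E) h3
    have h2 : HasFDerivAt (fun z : E => ⟪G, z⟫_ℝ) (innerSL ℝ G) 0 :=
      (innerSL ℝ G).hasFDerivAt
    have h5 : innerSL ℝ G = fderiv ℝ ρ p := by
      ext1 v
      rw [innerSL_apply_apply, hG, inner_gradient]
    have h6 := (h1.sub h2).const_mul k⁻¹
    rw [h5, sub_self, smul_zero] at h6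
    exact h6.fderiv
  obtain ⟨r, hr, ψ, hψs, hψe, hψ0, hψd⟩ := cut_small hhs hh0 hh1 (δ := 1 / 2) (by norm_num)
  have hψdiff : Differentiable ℝ ψ := hψs.differentiable (by simp)
  have hgd : ∀ y, HasFDerivAt (fun y => ψ y • ν) ((fderiv ℝ ψ y).smulRight ν) y := fun y =>
    (hψdiff y).hasFDerivAt.smul_const ν
  have hg : ContDiff ℝ ∞ (fun y => ψ y • ν) := hψs.smul contDiff_const
  have hb : ∀ x, ‖fderiv ℝ (fun y => ψ y • ν) x‖ ≤ 1 / 2 := by
    intro x
    rw [(hgd x).fderiv]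
    refine (ContinuousLinearMap.opNorm_le_bound _ (by norm_num) fun v => ?_)
    rw [ContinuousLinearMap.smulRight_apply, norm_smul, hν1, mul_one]
    exact (fderiv ℝ ψ x).le_of_opNorm_le (hψd x) v
  obtain ⟨Ψ, hΨ, -, hΨd, -⟩ := exists_dif (fun y => ψ y • ν) hg hb
  -- the isometry
  set e2 : E := EuclideanSpace.single (2 : Fin 3) (1 : ℝ) with he2
  have he2n : ‖e2‖ = 1 := by simp [he2]
  set O : E ≃ₗᵢ[ℝ] E := Submodule.reflection (ℝ ∙ (ν - e2))ᗮ with hO
  have hOν : O ν = e2 := Submodule.reflection_sub (by rw [hν1, he2n])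
  have hOO : ∀ y, O (O y) = y := fun y => Submodule.reflection_reflection _ y
  let Oc : E →L[ℝ] E := (O.toContinuousLinearEquiv : E →L[ℝ] E)
  have hOc : ∀ y, Oc y = O y := fun y => rfl
  have hOn : ‖Oc‖ ≤ 1 := by
    refine ContinuousLinearMap.opNorm_le_bound _ zero_le_one fun v => ?_
    rw [hOc, O.norm_map, one_mul]
  have hΨ0 : Ψ.inv 0 = 0 := by
    have h1 : Ψ.toF 0 = 0 := by rw [hΨ, hψ0, zero_smul, add_zero]
    have h2 := Ψ.li 0
    rwa [h1] at h2
  have hΨis : Differentiable ℝ Ψ.inv := Ψ.sinv.differentiable (by simp)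
  have hΨts : Differentiable ℝ Ψ.toF := Ψ.sto.differentiable (by simp)
  have htoF : ∀ y, HasFDerivAt (fun y => p + Ψ.inv (O y)) ((fderiv ℝ Ψ.inv (O y)) ∘L Oc) y := by
    intro y
    have h1 : HasFDerivAt (fun y => O y) Oc y := Oc.hasFDerivAt
    exact (((hΨis (O y)).hasFDerivAt).comp y h1).const_add p
  have hinvF : ∀ x, HasFDerivAt (fun x => O (Ψ.toF (x - p))) (Oc ∘L (fderiv ℝ Ψ.toF (x - p))) x := by
    intro x
    have h1 : HasFDerivAt (fun x : E => x - p) (ContinuousLinearMap.id ℝ E) x :=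
      (hasFDerivAt_id x).sub_const p
    have h2 := ((hΨts (x - p)).hasFDerivAt).comp x h1
    rw [ContinuousLinearMap.comp_id] at h2
    exact Oc.hasFDerivAt.comp x h2
  let Φ : Dif :=
    { toF := fun y => p + Ψ.inv (O y)
      inv := fun x => O (Ψ.toF (x - p))
      li := fun x => by
        change O (Ψ.toF (p + Ψ.inv (O x) - p)) = x
        rw [add_sub_cancel_left, Ψ.ri, hOO]
      ri := fun x => by
        change p + Ψ.inv (O (O (Ψ.toF (x - p)))) = x
        rw [hOO, Ψ.li, add_sub_cancel]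
      sto := contDiff_const.add (Ψ.sinv.comp Oc.contDiff)
      sinv := Oc.contDiff.comp (Ψ.sto.comp (contDiff_id.sub contDiff_const))
      C := Ψ.C
      bto := fun x => by
        rw [(htoF x).fderiv]
        refine (ContinuousLinearMap.opNorm_comp_le _ _).trans ?_
        calc ‖fderiv ℝ Ψ.inv (O x)‖ * ‖Oc‖ ≤ ‖fderiv ℝ Ψ.inv (O x)‖ * 1 :=
              mul_le_mul_of_nonneg_left hOn (norm_nonneg _)
          _ = ‖fderiv ℝ Ψ.inv (O x)‖ := mul_one _
          _ ≤ _ := Ψ.binv _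
      binv := fun x => by
        rw [(hinvF x).fderiv]
        refine (ContinuousLinearMap.opNorm_comp_le _ _).trans ?_
        calc ‖Oc‖ * ‖fderiv ℝ Ψ.toF (x - p)‖ ≤ 1 * ‖fderiv ℝ Ψ.toF (x - p)‖ :=
              mul_le_mul_of_nonneg_right hOn (norm_nonneg _)
          _ = ‖fderiv ℝ Ψ.toF (x - p)‖ := one_mul _
          _ ≤ _ := Ψ.bto _ }
  have hcontz : ContinuousAt (fun y => Ψ.inv (O y)) 0 :=
    ((hΨis.continuous).comp O.continuous).continuousAt
  have hz0 : Ψ.inv (O 0) = 0 := by rw [map_zero, hΨ0]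
  have hev : ∀ᶠ y in 𝓝 (0 : E), Ψ.inv (O y) ∈ Metric.ball (0 : E) r := by
    refine hcontz.eventually (p := fun w => w ∈ Metric.ball (0 : E) r) ?_
    change ∀ᶠ w in 𝓝 (Ψ.inv (O 0)), w ∈ Metric.ball (0 : E) r
    rw [hz0]
    exact Metric.ball_mem_nhds _ hr
  obtain ⟨s, hs, hsb⟩ := Metric.eventually_nhds_iff_ball.mp hev
  refine ⟨Φ, s, hs, ?_, ?_⟩
  · change p + Ψ.inv (O 0) = p
    rw [hz0, add_zero]
  · intro y hy
    set z := Ψ.inv (O y) with hz
    have hzr : z ∈ Metric.ball (0 : E) r := hsb y hy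
    have h1 : Ψ.toF z = O y := Ψ.ri (O y)
    rw [hΨ, hψe z hzr] at h1
    have h2 : ⟪O y, ν⟫_ℝ = y 2 := by
      have : ⟪O y, ν⟫_ℝ = ⟪O (O y), O ν⟫_ℝ := (O.inner_map_map (O y) ν).symm
      rw [this, hOO, hOν, he2]
      simp [EuclideanSpace.inner_single_right]
    have h3 : ⟪z + h z • ν, ν⟫_ℝ = k⁻¹ * ρ (p + z) := by
      rw [inner_add_left, inner_smul_left, real_inner_self_eq_norm_sq, hν1]
      have : ⟪z, ν⟫_ℝ = k⁻¹ * ⟪G, z⟫_ℝ := by
        rw [hν, inner_smul_right, real_inner_comm]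
      rw [this]
      simp only [h]
      simp
      ring
    rw [h1, h2] at h3
    change (p + z ∈ Ω ↔ y 2 < 0)
    rw [h3, hΩρ, Set.mem_ofPred_eq]
    constructor
    · intro h4
      exact mul_neg_of_pos_of_neg (inv_pos.mpr hk0) h4
    · intro h4
      exact (pos_iff_neg_of_mul_neg h4).mp (inv_pos.mpr hk0)

end E2a

end Pool.Agent.H92.BN
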