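import Pool.Agent.H92.BN.Api

/-!
# E2b, part 1: continuity and differentiability in `L²` of families with compact support
-/

set_option autoImplicit false

namespace Pool.Agent.H92.BN.E2b

open MeasureTheory Set Filter Topology
open scoped ContDiff InnerProductSpace Uniformity

theorem norm_le_of_supp {W : Type*} [NormedAddCommGroup W] {K : Set E} (hK : MeasurableSet K)
    (hK' : volume K ≠ ⊤) {ε : ℝ} (hε : 0 ≤ ε) (G : Lp W 2 (volume : Measure E))
    (h : ∀ᵐ y, ‖G y‖ ≤ K.indicator (fun _ => ε) y) :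
    ‖G‖ ≤ ε * (volume.real K) ^ ((1 : ℝ) / 2) := by
  have h1 : ‖G‖ ≤ ‖indicatorConstLp 2 hK hK' (ε : ℝ)‖ := by
    refine Lp.norm_le_norm_of_ae_le ?_
    filter_upwards [h, indicatorConstLp_coeFn (p := 2) (hs := hK) (hμs := hK') (c := ε)] with y h1 h2
    rw [h2]
    refine h1.trans ?_
    exact le_abs_self _
  refine h1.trans ?_
  refine (norm_indicatorConstLp_le).trans (le_of_eq ?_)
  rw [Real.norm_of_nonneg hε]
  norm_num

section
variable {P : Type} [NormedAddCommGroup P] [NormedSpace ℝ P]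

omit [NormedSpace ℝ P] in
theorem continuousAt_of_family {W : Type*} [NormedAddCommGroup W] {K : Set E} (hK : IsCompact K)
    {F : P → E → W} (hF : Continuous (fun p : P × E => F p.1 p.2)) {B : Set P} (hB : IsOpen B)
    (h0 : ∀ t ∈ B, ∀ y, y ∉ K → F t y = 0) {G : P → Lp W 2 (volume : Measure E)}
    (hG : ∀ t ∈ B, G t =ᵐ[volume] F t) {x : P} (hx : x ∈ B) : ContinuousAt G x := by
  rw [Metric.continuousAt_iff']
  intro ε hε
  set V : ℝ := (volume.real K) ^ ((1 : ℝ) / 2) with hV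
  have hV0 : 0 ≤ V := by positivity
  have hpos : 0 < ε / (V + 1) := by positivity
  obtain ⟨v, hv, hvb⟩ := hK.mem_uniformity_of_prod (f := F) (s := univ) (q := x)
    (u := {p | dist p.1 p.2 < ε / (V + 1)}) hF.continuousOn (mem_univ x)
    (Metric.dist_mem_uniformity hpos)
  rw [nhdsWithin_univ] at hv
  filter_upwards [hv, hB.mem_nhds hx] with s hs hsB
  rw [dist_eq_norm]
  refine (norm_le_of_supp hK.measurableSet hK.measure_lt_top.ne hpos.le (G s - G x) ?_).trans_lt ?_
  · filter_upwards [Lp.coeFn_sub (G s) (G x), hG s hsB, hG x hx] with y h1 h2 h3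
    rw [h1, Pi.sub_apply, h2, h3]
    by_cases hy : y ∈ K
    · rw [indicator_of_mem hy, ← dist_eq_norm]
      exact le_of_lt (hvb s hs y hy)
    · rw [indicator_of_notMem hy, h0 s hsB y hy, h0 x hx y hy]; simp
  · rw [div_mul_eq_mul_div, div_lt_iff₀ (by positivity)]
    nlinarith

theorem hasFDerivAt_of_family {K : Set E} (hK : IsCompact K)
    {F : P → E → ℝ} {F' : P → E → P →L[ℝ] ℝ}
    (hF' : Continuous (fun p : P × E => F' p.1 p.2))
    (hd : ∀ t y, HasFDerivAt (fun s => F s y) (F' t y) t) {B : Set P} (hB : IsOpen B)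
    (h0 : ∀ t ∈ B, ∀ y, y ∉ K → F t y = 0) (h0' : ∀ t ∈ B, ∀ y, y ∉ K → F' t y = 0)
    {G : P → Lp ℝ 2 (volume : Measure E)}
    (hG : ∀ t ∈ B, G t =ᵐ[volume] F t) {x : P} (hx : x ∈ B)
    {D : P →L[ℝ] Lp ℝ 2 (volume : Measure E)} (hD : ∀ h, D h =ᵐ[volume] fun y => F' x y h) :
    HasFDerivAt G D x := by
  rw [hasFDerivAt_iff_isLittleO]
  rw [Asymptotics.isLittleO_iff]
  intro ε hε
  set V : ℝ := (volume.real K) ^ ((1 : ℝ) / 2) with hV
  have hV0 : 0 ≤ V := by positivity
  have hpos : 0 < ε / (V + 1) := by positivity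
  obtain ⟨v, hv, hvb⟩ := hK.mem_uniformity_of_prod (f := F') (s := univ) (q := x)
    (u := {p | dist p.1 p.2 < ε / (V + 1)}) hF'.continuousOn (mem_univ x)
    (Metric.dist_mem_uniformity hpos)
  rw [nhdsWithin_univ] at hv
  obtain ⟨ρ, hρ, hρs⟩ := Metric.mem_nhds_iff.1 (inter_mem hv (hB.mem_nhds hx))
  filter_upwards [Metric.ball_mem_nhds x hρ] with s hs
  have hsB : s ∈ B := (hρs hs).2
  have hnn : 0 ≤ ε / (V + 1) * ‖s - x‖ := by positivity
  refine (norm_le_of_supp hK.measurableSet hK.measure_lt_top.ne hnn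
    (G s - G x - D (s - x)) ?_).trans ?_
  · filter_upwards [Lp.coeFn_sub (G s - G x) (D (s - x)), Lp.coeFn_sub (G s) (G x), hG s hsB,
      hG x hx, hD (s - x)] with y h1 h2 h3 h4 h5
    rw [h1, Pi.sub_apply, h2, Pi.sub_apply, h3, h4, h5]
    by_cases hy : y ∈ K
    · rw [indicator_of_mem hy]
      refine (convex_ball x ρ).norm_image_sub_le_of_norm_hasFDerivWithin_le' (𝕜 := ℝ)
        (f := fun s => F s y) (f' := fun s => F' s y) (φ := F' x y)
        (fun z _ => (hd z y).hasFDerivWithinAt) ?_ (Metric.mem_ball_self hρ) hs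
      intro z hz
      rw [← dist_eq_norm]
      exact le_of_lt (hvb z (hρs hz).1 y hy)
    · rw [indicator_of_notMem hy, h0 s hsB y hy, h0 x hx y hy, h0' x hx y hy]; simp
  · rw [mul_right_comm]
    refine mul_le_mul_of_nonneg_right ?_ (norm_nonneg _)
    rw [div_mul_eq_mul_div, div_le_iff₀ (by positivity)]
    nlinarith

end

end Pool.Agent.H92.BN.E2b
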