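import Pool.Agent.H92.BN.Iface2

/-!
# Smooth families of bounded continuous functions (module E3, helper82)
-/

set_option autoImplicit false
set_option linter.unusedSectionVars false

namespace Pool.Agent.H92.BN

open MeasureTheory Set Filter Topology
open scoped ContDiff InnerProductSpace BoundedContinuousFunction

namespace E3

section Fam

variable {P : Type} [NormedAddCommGroup P] [NormedSpace ℝ P]

lemma exists_bd {F : Type} [NormedAddCommGroup F] {K : Set E} (hK : IsCompact K)
    {b : P × E → F} (hb : Continuous b) (h0 : ∀ t x, x ∉ K → b (t, x) = 0) (t : P) :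
    ∃ C : ℝ, ∀ x, ‖b (t, x)‖ ≤ C := by
  obtain ⟨C, hC⟩ := hK.exists_bound_of_continuousOn
    (f := fun x => b (t, x)) (by fun_prop)
  refine ⟨max C 0, fun x => ?_⟩
  by_cases hx : x ∈ K
  · exact (hC x hx).trans (le_max_left _ _)
  · rw [h0 t x hx, norm_zero]
    exact le_max_right _ _

/-- family of bounded continuous functions -/
noncomputable def bf {F : Type} [NormedAddCommGroup F] {K : Set E} (hK : IsCompact K)
    (b : P × E → F) (hb : Continuous b) (h0 : ∀ t x, x ∉ K → b (t, x) = 0) (t : P) :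
    E →ᵇ F :=
  BoundedContinuousFunction.ofNormedAddCommGroup (fun x => b (t, x)) (by fun_prop)
    (exists_bd hK hb h0 t).choose (exists_bd hK hb h0 t).choose_spec

@[simp] lemma bf_apply {F : Type} [NormedAddCommGroup F] {K : Set E} (hK : IsCompact K)
    (b : P × E → F) (hb : Continuous b) (h0 : ∀ t x, x ∉ K → b (t, x) = 0) (t : P) (x : E) :
    bf hK b hb h0 t x = b (t, x) := rfl

/-- exchanging the arguments -/
noncomputable def flipB (P F : Type) [NormedAddCommGroup P] [NormedSpace ℝ P]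
    [NormedAddCommGroup F] [NormedSpace ℝ F] :
    (E →ᵇ (P →L[ℝ] F)) →L[ℝ] P →L[ℝ] (E →ᵇ F) :=
  LinearMap.mkContinuous₂
    (LinearMap.mk₂ ℝ (fun (g : E →ᵇ (P →L[ℝ] F)) (h : P) =>
        (ContinuousLinearMap.apply ℝ F h).compLeftContinuousBounded E g)
      (by intro a b h; ext x; simp) (by intro c a h; ext x; simp)
      (by intro a h k; ext x; simp) (by intro c a h; ext x; simp)) 1 (by
    intro g h
    rw [one_mul]
    rw [BoundedContinuousFunction.norm_le (by positivity)]
    intro x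
    simp only [LinearMap.mk₂_apply]
    refine ((g x).le_opNorm h).trans ?_
    gcongr
    exact g.norm_coe_le_norm x)

@[simp] lemma flipB_apply (P F : Type) [NormedAddCommGroup P] [NormedSpace ℝ P]
    [NormedAddCommGroup F] [NormedSpace ℝ F] (g : E →ᵇ (P →L[ℝ] F)) (h : P) (x : E) :
    flipB P F g h x = g x h := rfl

/-- partial derivative in the parameter -/
noncomputable def pdt {F : Type} [NormedAddCommGroup F] [NormedSpace ℝ F] (b : P × E → F)
    (z : P × E) : P →L[ℝ] F :=
  (fderiv ℝ b z) ∘L (ContinuousLinearMap.inl ℝ P E)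

lemma pdt_smooth {F : Type} [NormedAddCommGroup F] [NormedSpace ℝ F] {b : P × E → F}
    (hb : ContDiff ℝ ∞ b) : ContDiff ℝ ∞ (pdt b) := by
  have h1 : ContDiff ℝ ∞ (fderiv ℝ b) := hb.fderiv_right (by simp)
  unfold pdt
  exact h1.clm_comp contDiff_const

lemma hasFDerivAt_pdt {F : Type} [NormedAddCommGroup F] [NormedSpace ℝ F] {b : P × E → F}
    (hb : ContDiff ℝ ∞ b) (t : P) (x : E) :
    HasFDerivAt (fun s => b (s, x)) (pdt b (t, x)) t := by
  have h1 : HasFDerivAt b (fderiv ℝ b (t, x)) (t, x) :=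
    (hb.differentiable (by simp) _).hasFDerivAt
  have h2 : HasFDerivAt (fun s : P => (s, x)) (ContinuousLinearMap.inl ℝ P E) t :=
    hasFDerivAt_prodMk_left t x
  exact h1.comp t h2

lemma pdt_zero {F : Type} [NormedAddCommGroup F] [NormedSpace ℝ F] {b : P × E → F}
    (hb : ContDiff ℝ ∞ b) {K : Set E} (h0 : ∀ t x, x ∉ K → b (t, x) = 0) :
    ∀ t x, x ∉ K → pdt b (t, x) = 0 := by
  intro t x hx
  have h1 := hasFDerivAt_pdt hb t x
  have h2 : (fun s => b (s, x)) = fun _ => 0 := by
    ext s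
    exact h0 s x hx
  rw [h2] at h1
  exact h1.unique (hasFDerivAt_const _ _)

lemma hasFDerivAt_bf {F : Type} [NormedAddCommGroup F] [NormedSpace ℝ F] {b : P × E → F}
    (hb : ContDiff ℝ ∞ b) {K : Set E} (hK : IsCompact K)
    (h0 : ∀ t x, x ∉ K → b (t, x) = 0) (t : P) :
    HasFDerivAt (bf hK b hb.continuous h0)
      (flipB P F (bf hK (pdt b) (pdt_smooth hb).continuous (pdt_zero hb h0) t)) t := by
  rw [hasFDerivAt_iff_isLittleO_nhds_zero, Asymptotics.isLittleO_iff]
  intro ε hε
  have hc : Continuous (pdt b) := (pdt_smooth hb).continuous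
  have h1 : ∀ᶠ s in 𝓝 t, ∀ x ∈ K, ‖pdt b (s, x) - pdt b (t, x)‖ < ε := by
    apply hK.eventually_forall_of_forall_eventually
    intro x _
    have h2 : Continuous (fun z : P × E => ‖pdt b (z.1, z.2) - pdt b (t, z.2)‖) := by fun_prop
    have h3 : (fun z : P × E => ‖pdt b (z.1, z.2) - pdt b (t, z.2)‖) (t, x) < ε := by
      simpa using hε
    exact h2.continuousAt.eventually_lt continuousAt_const h3
  obtain ⟨δ, hδ, hδ'⟩ := Metric.eventually_nhds_iff_ball.mp h1
  filter_upwards [Metric.ball_mem_nhds (0 : P) hδ] with h hh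
  rw [BoundedContinuousFunction.norm_le (by positivity)]
  intro x
  simp only [BoundedContinuousFunction.coe_sub, Pi.sub_apply, bf_apply, flipB_apply]
  by_cases hx : x ∈ K
  · have h3 := (convex_ball t δ).norm_image_sub_le_of_norm_hasFDerivWithin_le'
      (f := fun s => b (s, x)) (f' := fun s => pdt b (s, x)) (φ := pdt b (t, x)) (C := ε)
      (x := t) (y := t + h)
      (fun s _ => (hasFDerivAt_pdt hb s x).hasFDerivWithinAt)
      (fun s hs => (hδ' s hs x hx).le) (Metric.mem_ball_self hδ)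
      (by simpa [Metric.mem_ball, dist_eq_norm] using hh)
    simpa using h3
  · rw [h0 _ x hx, h0 _ x hx, pdt_zero hb h0 _ x hx]
    simp
    positivity

theorem contDiff_bf {K : Set E} (hK : IsCompact K) : ∀ (n : ℕ) (F : Type)
    [NormedAddCommGroup F] [NormedSpace ℝ F] (b : P × E → F)
    (hb : ContDiff ℝ ∞ b) (h0 : ∀ t x, x ∉ K → b (t, x) = 0),
    ContDiff ℝ n (bf hK b hb.continuous h0) := by
  intro n
  induction n with
  | zero =>
    intro F _ _ b hb h0
    rw [Nat.cast_zero, contDiff_zero, continuous_iff_continuousAt]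
    exact fun t => (hasFDerivAt_bf hb hK h0 t).continuousAt
  | succ n ih =>
    intro F _ _ b hb h0
    push_cast
    rw [contDiff_succ_iff_hasFDerivAt]
    refine ⟨fun t => flipB P F (bf hK (pdt b) (pdt_smooth hb).continuous (pdt_zero hb h0) t),
      ?_, fun t => hasFDerivAt_bf hb hK h0 t⟩
    have h1 := ih _ (pdt b) (pdt_smooth hb) (pdt_zero hb h0)
    have h2 : ContDiff ℝ n (flipB P F) := by apply ContinuousLinearMap.contDiff
    exact h2.comp h1

/-- local version -/
theorem exists_fam [FiniteDimensional ℝ P] {F : Type} [NormedAddCommGroup F] [NormedSpace ℝ F]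
    {K : Set E} (hK : IsCompact K) {r0 : ℝ} (hr : 0 < r0) {b : P × E → F}
    (hb : ContDiffOn ℝ ∞ b (Metric.ball 0 r0 ×ˢ univ))
    (h0 : ∀ t ∈ Metric.ball (0 : P) r0, ∀ x, x ∉ K → b (t, x) = 0) :
    ∃ β : P → (E →ᵇ F), ContDiff ℝ ∞ β ∧ ∀ᶠ t in 𝓝 (0 : P), ∀ x, β t x = b (t, x) := by
  let θ : ContDiffBump (0 : P) := ⟨r0 / 3, r0 / 2, by positivity, by linarith⟩
  have hmem : ∀ t : P, θ t • t ∈ Metric.ball (0 : P) r0 := by
    intro t
    rw [mem_ball_zero_iff, norm_smul, Real.norm_eq_abs, abs_of_nonneg θ.nonneg]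
    by_cases ht : ‖t‖ < r0 / 2
    · calc θ t * ‖t‖ ≤ 1 * ‖t‖ := by gcongr; exact θ.le_one
        _ < r0 := by linarith
    · have : θ t = 0 := θ.zero_of_le_dist (by simpa [dist_zero_right] using not_lt.mp ht)
      rw [this, zero_mul]
      exact hr
  have hsm : ContDiff ℝ ∞ (fun z : P × E => b (θ z.1 • z.1, z.2)) := by
    rw [← contDiffOn_univ]
    refine hb.comp (t := Metric.ball 0 r0 ×ˢ univ)
      (f := fun z : P × E => (θ z.1 • z.1, z.2)) ?_ ?_
    · apply ContDiff.contDiffOn
      have : ContDiff ℝ ∞ (θ : P → ℝ) := θ.contDiff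
      fun_prop
    · intro z _
      exact ⟨hmem z.1, trivial⟩
  have hz : ∀ t x, x ∉ K → (fun z : P × E => b (θ z.1 • z.1, z.2)) (t, x) = 0 := by
    intro t x hx
    exact h0 _ (hmem t) x hx
  refine ⟨bf hK _ hsm.continuous hz, ?_, ?_⟩
  · rw [contDiff_infty]
    intro n
    exact contDiff_bf hK n F _ hsm hz
  · have h1 : ∀ᶠ t in 𝓝 (0 : P), t ∈ Metric.ball (0 : P) (r0 / 3) :=
      Metric.ball_mem_nhds _ (by positivity)
    filter_upwards [h1] with t ht x
    have h2 : θ t = 1 := θ.one_of_mem_closedBall (Metric.ball_subset_closedBall ht)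
    simp [h2]

end Fam

end E3

end Pool.Agent.H92.BN
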