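import Pool.Agent.H92.BN.Api
import Pool.Agent.H92.BN.ME3a_Fam

/-!
# Smooth families of coefficients (module E3, helper82)
-/

set_option autoImplicit false
set_option linter.unusedSectionVars false

namespace Pool.Agent.H92.BN

open MeasureTheory Set Filter Topology
open scoped ContDiff InnerProductSpace BoundedContinuousFunction ENNReal

namespace E3

lemma innerSL_gradient (χ : E → ℝ) (y : E) : innerSL ℝ (gradient χ y) = fderiv ℝ χ y := by
  ext v
  simp only [innerSL_apply_apply]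
  exact inner_gradient_left χ y v

lemma Bt_eq (χ : E → ℝ) (t y : E) : Bt χ t y = ContinuousLinearMap.id ℝ E -
    (1 + fderiv ℝ χ y t)⁻¹ • (fderiv ℝ χ y).smulRight t := by
  rw [Bt, innerSL_gradient, inner_gradient_left]

/-- the adjoint as a real linear map -/
noncomputable def adjL : (E →L[ℝ] E) →L[ℝ] (E →L[ℝ] E) :=
  LinearMap.mkContinuous
    { toFun := fun A => ContinuousLinearMap.adjoint A
      map_add' := by intro A B; rw [map_add]
      map_smul' := by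
        intro c A
        rw [RingHom.id_apply, map_smulₛₗ]
        simp } 1 (by
    intro A
    rw [one_mul]
    simp)

lemma adjL_apply (A : E →L[ℝ] E) : adjL A = ContinuousLinearMap.adjoint A := rfl

lemma exists_grad_bd {χ : E → ℝ} (hχ : IsTest univ χ) :
    ∃ C : ℝ, 0 ≤ C ∧ ∀ y, ‖fderiv ℝ χ y‖ ≤ C := by
  have h1 : Continuous (fderiv ℝ χ) := hχ.smooth.continuous_fderiv (by simp)
  obtain ⟨C, hC⟩ := (hχ.cpt.fderiv (𝕜 := ℝ)).exists_bound_of_continuous h1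
  exact ⟨C, (norm_nonneg _).trans (hC 0), hC⟩

/-- radius where the family is nondegenerate -/
lemma exists_rad {χ : E → ℝ} (hχ : IsTest univ χ) {P : Type} [NormedAddCommGroup P]
    [NormedSpace ℝ P] (ι : P →L[ℝ] E) :
    ∃ r0 : ℝ, 0 < r0 ∧ ∀ t ∈ Metric.ball (0 : P) r0, ∀ y, 1 / 2 ≤ 1 + fderiv ℝ χ y (ι t) := by
  obtain ⟨C, hC0, hC⟩ := exists_grad_bd hχ
  refine ⟨1 / (2 * (C * ‖ι‖ + 1)), by positivity, fun t ht y => ?_⟩
  rw [mem_ball_zero_iff] at ht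
  have h1 : |fderiv ℝ χ y (ι t)| ≤ C * (‖ι‖ * ‖t‖) := by
    rw [← Real.norm_eq_abs]
    refine ((fderiv ℝ χ y).le_opNorm _).trans ?_
    exact mul_le_mul (hC y) (ι.le_opNorm t) (norm_nonneg _) hC0
  have h2 : (C * ‖ι‖ + 1) * ‖t‖ ≤ 1 / 2 := by
    calc (C * ‖ι‖ + 1) * ‖t‖ ≤ (C * ‖ι‖ + 1) * (1 / (2 * (C * ‖ι‖ + 1))) := by gcongr
      _ = 1 / 2 := by
        have : C * ‖ι‖ + 1 ≠ 0 := by positivity
        field_simp
  have h3 : C * (‖ι‖ * ‖t‖) ≤ 1 / 2 := by nlinarith [norm_nonneg t]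
  have h4 := neg_abs_le (fderiv ℝ χ y (ι t))
  linarith

section Smooth

variable {P : Type} [NormedAddCommGroup P] [NormedSpace ℝ P] (ι : P →L[ℝ] E)
  {χ : E → ℝ} (hχ : IsTest univ χ) {r0 : ℝ}
  (hr : ∀ t ∈ Metric.ball (0 : P) r0, ∀ y, 1 / 2 ≤ 1 + fderiv ℝ χ y (ι t))

include hχ hr

lemma smooth_s : ContDiffOn ℝ ∞ (fun z : P × E => 1 + fderiv ℝ χ z.2 (ι z.1))
    (Metric.ball 0 r0 ×ˢ univ) := by
  apply ContDiff.contDiffOn
  have h1 : ContDiff ℝ ∞ (fderiv ℝ χ) := hχ.smooth.fderiv_right (by simp)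
  have h2 : ContDiff ℝ ∞ (fun z : P × E => fderiv ℝ χ z.2) := h1.comp contDiff_snd
  have h3 : ContDiff ℝ ∞ (fun z : P × E => ι z.1) := ι.contDiff.comp contDiff_fst
  exact contDiff_const.add (h2.clm_apply h3)

lemma smooth_Bt : ContDiffOn ℝ ∞ (fun z : P × E => Bt χ (ι z.1) z.2)
    (Metric.ball 0 r0 ×ˢ univ) := by
  simp_rw [Bt_eq]
  have h1 : ContDiff ℝ ∞ (fderiv ℝ χ) := hχ.smooth.fderiv_right (by simp)
  have h2 : ContDiff ℝ ∞ (fun z : P × E => fderiv ℝ χ z.2) := h1.comp contDiff_snd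
  have h3 : ContDiff ℝ ∞ (fun z : P × E => ι z.1) := ι.contDiff.comp contDiff_fst
  have h4 := (smooth_s ι hχ hr).inv (by
    intro z hz
    have := hr z.1 hz.1 z.2
    linarith)
  refine contDiffOn_const.sub (h4.smul ?_)
  exact (h2.smulRight h3).contDiffOn

lemma smooth_At {A : E → E →L[ℝ] E} (hA : ContDiff ℝ ∞ A) :
    ContDiffOn ℝ ∞ (fun z : P × E => At χ A (ι z.1) z.2) (Metric.ball 0 r0 ×ˢ univ) := by
  unfold At
  simp_rw [inner_gradient_left]
  have h3 : ContDiff ℝ ∞ (fun z : P × E => ι z.1) := ι.contDiff.comp contDiff_fst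
  have h4 : ContDiff ℝ ∞ (fun z : P × E => A (z.2 + χ z.2 • ι z.1)) := by
    apply hA.comp
    have : ContDiff ℝ ∞ (fun z : P × E => χ z.2) := hχ.smooth.comp contDiff_snd
    exact contDiff_snd.add (this.smul h3)
  have h5 := smooth_Bt ι hχ hr
  have h6 : ContDiffOn ℝ ∞ (fun z : P × E => ContinuousLinearMap.adjoint (Bt χ (ι z.1) z.2))
      (Metric.ball 0 r0 ×ˢ univ) := by
    have h7 : ContDiff ℝ ∞ adjL := by apply ContinuousLinearMap.contDiff
    exact h7.comp_contDiffOn h5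
  exact (smooth_s ι hχ hr).smul (h5.clm_comp (h4.contDiffOn.clm_comp h6))

lemma smooth_Jt {J : E → ℝ} (hJ : ContDiff ℝ ∞ J) :
    ContDiffOn ℝ ∞ (fun z : P × E => Jt χ J (ι z.1) z.2) (Metric.ball 0 r0 ×ˢ univ) := by
  unfold Jt
  simp_rw [inner_gradient_left]
  have h3 : ContDiff ℝ ∞ (fun z : P × E => ι z.1) := ι.contDiff.comp contDiff_fst
  have h4 : ContDiff ℝ ∞ (fun z : P × E => J (z.2 + χ z.2 • ι z.1)) := by
    apply hJ.comp
    have : ContDiff ℝ ∞ (fun z : P × E => χ z.2) := hχ.smooth.comp contDiff_snd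
    exact contDiff_snd.add (this.smul h3)
  exact (smooth_s ι hχ hr).mul h4.contDiffOn

end Smooth

lemma Bt_off {χ : E → ℝ} (t : E) {y : E} (hy : y ∉ tsupport χ) :
    Bt χ t y = ContinuousLinearMap.id ℝ E := by
  rw [Bt_eq, fderiv_of_notMem_tsupport (𝕜 := ℝ) hy]
  ext v
  simp

lemma At_off {χ : E → ℝ} (A : E → E →L[ℝ] E) (t : E) {y : E} (hy : y ∉ tsupport χ) :
    At χ A t y = A y := by
  unfold At
  rw [Bt_off t hy, inner_gradient_left, fderiv_of_notMem_tsupport (𝕜 := ℝ) hy,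
    image_eq_zero_of_notMem_tsupport hy]
  ext v
  simp

lemma Jt_off {χ : E → ℝ} (J : E → ℝ) (t : E) {y : E} (hy : y ∉ tsupport χ) :
    Jt χ J t y = J y := by
  unfold Jt
  rw [inner_gradient_left, fderiv_of_notMem_tsupport (𝕜 := ℝ) hy,
    image_eq_zero_of_notMem_tsupport hy]
  simp

lemma At_zero {χ : E → ℝ} (A : E → E →L[ℝ] E) (y : E) : At χ A 0 y = A y := by
  unfold At
  rw [Bt_eq]
  ext v
  simp

lemma Jt_zero {χ : E → ℝ} (J : E → ℝ) (y : E) : Jt χ J 0 y = J y := by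
  unfold Jt
  simp

/-- the family of matrices -/
lemma exists_famA {χ : E → ℝ} (hχ : IsTest univ χ) {A : E → E →L[ℝ] E} {J : E → ℝ}
    (hc : Coef A J) :
    ∃ β : E → (E →ᵇ (E →L[ℝ] E)), ContDiff ℝ ∞ β ∧
      ∀ᶠ t in 𝓝 (0 : E), ∀ x, β t x = At χ A t x := by
  obtain ⟨r0, hr0, hr⟩ := exists_rad hχ (ContinuousLinearMap.id ℝ E)
  have h1 : ContDiffOn ℝ ∞ (fun z : E × E => At χ A z.1 z.2 - A z.2)
      (Metric.ball 0 r0 ×ˢ univ) :=
    (smooth_At (ContinuousLinearMap.id ℝ E) hχ hr hc.smoothA).sub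
      (hc.smoothA.comp contDiff_snd).contDiffOn
  obtain ⟨β, hβ, hβ'⟩ := exists_fam hχ.cpt hr0 h1 (by
    intro t _ x hx
    simp only
    rw [At_off A t hx, sub_self])
  obtain ⟨C, hC⟩ := hc.bddA
  let A0 : E →ᵇ (E →L[ℝ] E) :=
    BoundedContinuousFunction.ofNormedAddCommGroup A hc.smoothA.continuous C hC
  refine ⟨fun t => A0 + β t, contDiff_const.add hβ, ?_⟩
  filter_upwards [hβ'] with t ht x
  rw [BoundedContinuousFunction.add_apply, ht x]
  show A x + (At χ A t x - A x) = _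
  abel

/-- the family of weights -/
lemma exists_famJ {χ : E → ℝ} (hχ : IsTest univ χ) {A : E → E →L[ℝ] E} {J : E → ℝ}
    (hc : Coef A J) :
    ∃ β : E → (E →ᵇ ℝ), ContDiff ℝ ∞ β ∧
      ∀ᶠ t in 𝓝 (0 : E), ∀ x, β t x = Jt χ J t x := by
  obtain ⟨r0, hr0, hr⟩ := exists_rad hχ (ContinuousLinearMap.id ℝ E)
  have h1 : ContDiffOn ℝ ∞ (fun z : E × E => Jt χ J z.1 z.2 - J z.2)
      (Metric.ball 0 r0 ×ˢ univ) :=
    (smooth_Jt (ContinuousLinearMap.id ℝ E) hχ hr hc.smoothJ).sub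
      (hc.smoothJ.comp contDiff_snd).contDiffOn
  obtain ⟨β, hβ, hβ'⟩ := exists_fam hχ.cpt hr0 h1 (by
    intro t _ x hx
    simp only
    rw [Jt_off J t hx, sub_self])
  obtain ⟨C, hC⟩ := hc.bddJ
  let A0 : E →ᵇ ℝ :=
    BoundedContinuousFunction.ofNormedAddCommGroup J hc.smoothJ.continuous C hC
  refine ⟨fun t => A0 + β t, contDiff_const.add hβ, ?_⟩
  filter_upwards [hβ'] with t ht x
  rw [BoundedContinuousFunction.add_apply, ht x]
  show J x + (Jt χ J t x - J x) = _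
  ring

end E3

end Pool.Agent.H92.BN
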