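import Pool.Agent.H92.BN.ME3a_Ops
import Pool.Agent.H92.BN.ME3a_Coef

/-!
# Module E3a: `OperStmt` (helper82)
-/

set_option autoImplicit false
set_option linter.unusedSectionVars false

namespace Pool.Agent.H92.BN

open MeasureTheory Set Filter Topology
open scoped ContDiff InnerProductSpace BoundedContinuousFunction ENNReal

namespace E3

/-- Lax–Milgram -/
lemma exists_equiv {X : Type} [NormedAddCommGroup X] [InnerProductSpace ℝ X] [CompleteSpace X]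
    (B : X →L[ℝ] X →L[ℝ] ℝ) (hB : IsCoercive B) :
    ∃ T : X ≃L[ℝ] (X →L[ℝ] ℝ), (T : X →L[ℝ] (X →L[ℝ] ℝ)) = B := by
  refine ⟨ContinuousLinearEquiv.ofBijective B ?_ ?_, ContinuousLinearEquiv.coe_ofBijective _ _ _⟩
  · rw [LinearMap.ker_eq_bot']
    intro x hx
    obtain ⟨C, hC, h⟩ := hB
    have h1 := h x
    have h2 : B x = 0 := hx
    rw [h2] at h1
    by_contra hne
    have h3 := norm_pos_iff.mpr hne
    have h4 : 0 < C * ‖x‖ * ‖x‖ := by positivity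
    simp only [zero_apply] at h1
    linarith
  · rw [LinearMap.range_eq_top]
    intro ℓ
    refine ⟨hB.continuousLinearEquivOfBilin.symm ((InnerProductSpace.toDual ℝ X).symm ℓ), ?_⟩
    ext η
    have h1 := hB.continuousLinearEquivOfBilin_apply
      (hB.continuousLinearEquivOfBilin.symm ((InnerProductSpace.toDual ℝ X).symm ℓ)) η
    rw [ContinuousLinearEquiv.apply_symm_apply] at h1
    have h2 : ⟪(InnerProductSpace.toDual ℝ X).symm ℓ, η⟫_ℝ = ℓ η := by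
      rw [← InnerProductSpace.toDual_apply_apply (𝕜 := ℝ), LinearIsometryEquiv.apply_symm_apply]
    exact h1.symm.trans h2

/-- precomposition -/
noncomputable def pre {X Y : Type} [NormedAddCommGroup X] [NormedSpace ℝ X]
    [NormedAddCommGroup Y] [NormedSpace ℝ Y] (L : X →L[ℝ] Y) : (Y →L[ℝ] ℝ) →L[ℝ] (X →L[ℝ] ℝ) :=
  (ContinuousLinearMap.compL ℝ X Y ℝ).flip L

@[simp] lemma pre_apply {X Y : Type} [NormedAddCommGroup X] [NormedSpace ℝ X]
    [NormedAddCommGroup Y] [NormedSpace ℝ Y] (L : X →L[ℝ] Y) (f : Y →L[ℝ] ℝ) (x : X) :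
    pre L f x = f (L x) := rfl

section Forms

variable (Ω : Set E)

/-- `∫ ⟪a ∇w, ∇η⟫` -/
noncomputable def LinA (a : Lp (E →L[ℝ] E) ∞ (volume : Measure E)) :
    VS Ω →L[ℝ] (VS Ω →L[ℝ] ℝ) :=
  (pre (vsnd Ω)) ∘L (ipL (Lp E 2 (volume : Measure E))) ∘L (mA a) ∘L (vsnd Ω)

/-- `∫ w η` -/
noncomputable def LinM : VS Ω →L[ℝ] (VS Ω →L[ℝ] ℝ) :=
  (pre (vfst Ω)) ∘L (ipL (Lp ℝ 2 (volume : Measure E))) ∘L (vfst Ω)

/-- `∫ a w η` -/
noncomputable def LinJ (a : Lp ℝ ∞ (volume : Measure E)) :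
    VS Ω →L[ℝ] (VS Ω →L[ℝ] ℝ) :=
  (pre (vfst Ω)) ∘L (ipL (Lp ℝ 2 (volume : Measure E))) ∘L (mJ a) ∘L (vfst Ω)

/-- `∫ a w⁵ η` -/
noncomputable def Q5 (hS : SobVStmt) (a : Lp ℝ ∞ (volume : Measure E)) (w : VS Ω) :
    VS Ω →L[ℝ] ℝ :=
  (ipL (Lp ℝ 2 (volume : Measure E))
      (mJ a (T32 (T2 (c6 hS Ω w) (c6 hS Ω w)) (c6 hS Ω w)))) ∘L
    ((T32 (T2 (c6 hS Ω w) (c6 hS Ω w))) ∘L (c6 hS Ω))

variable {Ω}

lemma LinA_apply (g : E →ᵇ (E →L[ℝ] E)) (w η : VS Ω) :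
    LinA Ω (toLinf _ g) w η = ∫ x, ⟪g x (gr w.v x), gr η.v x⟫_ℝ := by
  have h : LinA Ω (toLinf _ g) w η = ⟪mA (toLinf _ g) (vsnd Ω w), vsnd Ω η⟫_ℝ := rfl
  rw [h, L2.inner_def]
  refine integral_congr_ae ?_
  filter_upwards [mA_coe (toLinf _ g) (vsnd Ω w), toLinf_coe g] with x h1 h2
  rw [h1, h2]
  rfl

lemma LinM_apply (w η : VS Ω) : LinM Ω w η = mI w.v η.v := by
  rw [mI_eq_inner]
  rfl

lemma LinJ_apply (g : E →ᵇ ℝ) (w η : VS Ω) :
    LinJ Ω (toLinf _ g) w η = ∫ x, g x * fn w.v x * fn η.v x := by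
  have h : LinJ Ω (toLinf _ g) w η = ⟪mJ (toLinf _ g) (vfst Ω w), vfst Ω η⟫_ℝ := rfl
  rw [h, L2.inner_def]
  refine integral_congr_ae ?_
  filter_upwards [mJ_coe (toLinf _ g) (vfst Ω w), toLinf_coe g] with x h1 h2
  rw [h1, h2]
  simp only [vfst_coe]
  rw [real_inner_comm]
  simp [mul_comm]

lemma integrable_J (g : E →ᵇ ℝ) (w η : VS Ω) :
    Integrable (fun x => g x * fn w.v x * fn η.v x) volume := by
  refine (L2.integrable_inner (𝕜 := ℝ) (mJ (toLinf _ g) (vfst Ω w)) (vfst Ω η)).congr ?_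
  filter_upwards [mJ_coe (toLinf _ g) (vfst Ω w), toLinf_coe g] with x h1 h2
  rw [h1, h2]
  simp only [vfst_coe]
  rw [real_inner_comm]
  simp [mul_comm]

lemma Q5_ae (hS : SobVStmt) (g : E →ᵇ ℝ) (w η : VS Ω) :
    (fun x => ⟪(mJ (toLinf _ g) (T32 (T2 (c6 hS Ω w) (c6 hS Ω w)) (c6 hS Ω w)) : E → ℝ) x,
      (T32 (T2 (c6 hS Ω w) (c6 hS Ω w)) (c6 hS Ω η) : E → ℝ) x⟫_ℝ)
      =ᵐ[volume] fun x => g x * fn w.v x ^ 5 * fn η.v x := by
  filter_upwards [mJ_coe (toLinf _ g) (T32 (T2 (c6 hS Ω w) (c6 hS Ω w)) (c6 hS Ω w)),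
    toLinf_coe g, T32_coe (T2 (c6 hS Ω w) (c6 hS Ω w)) (c6 hS Ω w),
    T32_coe (T2 (c6 hS Ω w) (c6 hS Ω w)) (c6 hS Ω η), T2_coe (c6 hS Ω w) (c6 hS Ω w),
    c6_coe hS w, c6_coe hS η] with x h1 h2 h3 h4 h5 h6 h7
  rw [h1, h2, h3, h4, h5, h6, h7]
  simp only [RCLike.inner_apply, conj_trivial]
  ring

lemma Q5_apply (hS : SobVStmt) (g : E →ᵇ ℝ) (w η : VS Ω) :
    Q5 Ω hS (toLinf _ g) w η = ∫ x, g x * fn w.v x ^ 5 * fn η.v x := by
  have h : Q5 Ω hS (toLinf _ g) w η =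
    ⟪mJ (toLinf _ g) (T32 (T2 (c6 hS Ω w) (c6 hS Ω w)) (c6 hS Ω w)),
      T32 (T2 (c6 hS Ω w) (c6 hS Ω w)) (c6 hS Ω η)⟫_ℝ := rfl
  rw [h, L2.inner_def]
  exact integral_congr_ae (Q5_ae hS g w η)

lemma integrable_5 (hS : SobVStmt) (g : E →ᵇ ℝ) (w η : VS Ω) :
    Integrable (fun x => g x * fn w.v x ^ 5 * fn η.v x) volume :=
  (L2.integrable_inner (𝕜 := ℝ) _ _).congr (Q5_ae hS g w η)

lemma memLp6 (hS : SobVStmt) (w : VS Ω) : MemLp (fn w.v) 6 volume :=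
  (hS.2 w.v (V_le_univ Ω w.mem)).1

lemma integrable6 (hS : SobVStmt) (w : VS Ω) : Integrable (fun x => |fn w.v x| ^ 6) volume := by
  have h := memLp6 hS w
  have h1 : MemLp (fn w.v) ((6 : ℕ) : ℝ≥0∞) volume := by simpa using h
  simpa using h1.integrable_norm_pow (by norm_num)

lemma integrable_mix (hS : SobVStmt) (g : E →ᵇ ℝ) (u w : VS Ω) (k : ℕ) (hk : k ≤ 5) :
    Integrable (fun x => g x * (fn u.v x ^ (5 - k) * fn w.v x ^ (k + 1))) volume := by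
  have hmu : AEStronglyMeasurable (fn u.v) volume := (memLp_fn u.v).1
  have hmw : AEStronglyMeasurable (fn w.v) volume := (memLp_fn w.v).1
  have h1 : Integrable (fun x => fn u.v x ^ (5 - k) * fn w.v x ^ (k + 1)) volume := by
    refine ((integrable6 hS u).add (integrable6 hS w)).mono'
      ((hmu.pow _).mul (hmw.pow _)) ?_
    refine Eventually.of_forall fun x => ?_
    rw [Real.norm_eq_abs, abs_mul, abs_pow, abs_pow]
    set p := |fn u.v x|
    set q := |fn w.v x|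
    have hp : 0 ≤ p := abs_nonneg _
    have hq : 0 ≤ q := abs_nonneg _
    simp only [Pi.add_apply]
    rcases le_total p q with h | h
    · calc p ^ (5 - k) * q ^ (k + 1) ≤ q ^ (5 - k) * q ^ (k + 1) := by gcongr
        _ = q ^ 6 := by rw [← pow_add]; congr 1; omega
        _ ≤ p ^ 6 + q ^ 6 := by have : 0 ≤ p ^ 6 := by positivity
                                linarith
    · calc p ^ (5 - k) * q ^ (k + 1) ≤ p ^ (5 - k) * p ^ (k + 1) := by gcongr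
        _ = p ^ 6 := by rw [← pow_add]; congr 1; omega
        _ ≤ p ^ 6 + q ^ 6 := by have : 0 ≤ q ^ 6 := by positivity
                                linarith
  exact h1.bdd_mul g.continuous.aestronglyMeasurable
    (Eventually.of_forall fun x => g.norm_coe_le_norm x)

lemma Q5_line (hS : SobVStmt) (g : E →ᵇ ℝ) (w0 w : VS Ω) :
    HasDerivAt (fun s : ℝ => Q5 Ω hS (toLinf _ g) (w0 + s • w) w)
      (5 * ∫ x, g x * (fn w0.v x ^ 4 * fn w.v x ^ 2)) 0 := by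
  have h1 : ∀ s : ℝ, Q5 Ω hS (toLinf _ g) (w0 + s • w) w
      = ∑ k ∈ Finset.range 6, (Nat.choose 5 k : ℝ) * s ^ k *
        ∫ x, g x * (fn w0.v x ^ (5 - k) * fn w.v x ^ (k + 1)) := by
    intro s
    rw [Q5_apply]
    have h2 : ∀ k ∈ Finset.range 6, Integrable (fun x => (Nat.choose 5 k : ℝ) * s ^ k *
        (g x * (fn w0.v x ^ (5 - k) * fn w.v x ^ (k + 1)))) volume := by
      intro k hk
      exact (integrable_mix hS g w0 w k (by simp at hk; omega)).const_mul _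
    calc ∫ x, g x * fn (w0 + s • w).v x ^ 5 * fn w.v x
        = ∫ x, ∑ k ∈ Finset.range 6, (Nat.choose 5 k : ℝ) * s ^ k *
          (g x * (fn w0.v x ^ (5 - k) * fn w.v x ^ (k + 1))) := by
          refine integral_congr_ae ?_
          have e1 : (w0 + s • w).v = w0.v + s • w.v := rfl
          rw [e1]
          filter_upwards [fn_add w0.v (s • w.v), fn_smul s w.v] with x hx hx'
          rw [hx, Pi.add_apply, hx', Pi.smul_apply, smul_eq_mul]
          simp [Finset.sum_range_succ, Nat.choose]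
          ring
      _ = _ := by
          rw [integral_finsetSum _ h2]
          apply Finset.sum_congr rfl
          intro k _
          rw [integral_const_mul]
  have h3 : (fun s : ℝ => Q5 Ω hS (toLinf _ g) (w0 + s • w) w)
      = fun s => ∑ k ∈ Finset.range 6, (Nat.choose 5 k : ℝ) * s ^ k *
        ∫ x, g x * (fn w0.v x ^ (5 - k) * fn w.v x ^ (k + 1)) := funext h1
  rw [h3]
  have h4 : HasDerivAt (fun s : ℝ => ∑ k ∈ Finset.range 6, (Nat.choose 5 k : ℝ) * s ^ k *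
        ∫ x, g x * (fn w0.v x ^ (5 - k) * fn w.v x ^ (k + 1)))
      (∑ k ∈ Finset.range 6, (Nat.choose 5 k : ℝ) * ((k : ℝ) * 0 ^ (k - 1)) *
        ∫ x, g x * (fn w0.v x ^ (5 - k) * fn w.v x ^ (k + 1))) 0 := by
    apply HasDerivAt.fun_sum
    intro k _
    exact ((hasDerivAt_pow k (0 : ℝ)).const_mul _).mul_const _
  convert h4 using 1
  simp [Finset.sum_range_succ]

lemma norm_T2_le (u v : Lp ℝ 6 (volume : Measure E)) : ‖T2 u v‖ ≤ ‖u‖ * ‖v‖ := by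
  refine (ContinuousLinearMap.norm_holder_apply_apply_le (r := 3)
    (ContinuousLinearMap.mul ℝ ℝ) u v).trans ?_
  have := ContinuousLinearMap.opNorm_mul_le ℝ ℝ
  calc _ ≤ 1 * ‖u‖ * ‖v‖ := by gcongr
    _ = _ := by ring

lemma norm_T32_le (u : Lp ℝ 3 (volume : Measure E)) (v : Lp ℝ 6 (volume : Measure E)) :
    ‖T32 u v‖ ≤ ‖u‖ * ‖v‖ := by
  refine (ContinuousLinearMap.norm_holder_apply_apply_le (r := 2)
    (ContinuousLinearMap.mul ℝ ℝ) u v).trans ?_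
  have := ContinuousLinearMap.opNorm_mul_le ℝ ℝ
  calc _ ≤ 1 * ‖u‖ * ‖v‖ := by gcongr
    _ = _ := by ring

/-- `∫ z⁴ w²` through norms -/
lemma quart_le (hS : SobVStmt) (z w : VS Ω) :
    ∫ x, fn z.v x ^ 4 * fn w.v x ^ 2 ≤ (‖c6 hS Ω z‖ ^ 2 * ‖c6 hS Ω w‖) ^ 2 := by
  have h1 : ∫ x, fn z.v x ^ 4 * fn w.v x ^ 2
      = ‖T32 (T2 (c6 hS Ω z) (c6 hS Ω z)) (c6 hS Ω w)‖ ^ 2 := by
    rw [← real_inner_self_eq_norm_sq, L2.inner_def]
    refine integral_congr_ae ?_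
    filter_upwards [T32_coe (T2 (c6 hS Ω z) (c6 hS Ω z)) (c6 hS Ω w),
      T2_coe (c6 hS Ω z) (c6 hS Ω z), c6_coe hS z, c6_coe hS w] with x h1 h2 h3 h4
    rw [h1, h2, h3, h4]
    simp only [RCLike.inner_apply, conj_trivial]
    ring
  rw [h1]
  gcongr
  refine (norm_T32_le _ _).trans ?_
  gcongr
  rw [sq]
  exact norm_T2_le _ _

lemma integrable_quart (hS : SobVStmt) (z w : VS Ω) :
    Integrable (fun x => fn z.v x ^ 4 * fn w.v x ^ 2) volume := by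
  have h := integrable_mix hS (BoundedContinuousFunction.const E (1 : ℝ)) z w 1 (by norm_num)
  simpa using h

lemma quart (hS : SobVStmt) (w0 : VS Ω) {ε : ℝ} (hε : 0 < ε) :
    ∃ N : ℝ, 0 ≤ N ∧ ∀ w : VS Ω,
      ∫ x, fn w0.v x ^ 4 * fn w.v x ^ 2 ≤ ε * ‖w‖ ^ 2 + N * mI w.v w.v := by
  set K := ‖c6 hS Ω‖ with hK
  have hK0 : 0 ≤ K := norm_nonneg _
  obtain ⟨δ, hδ, hδ'⟩ : ∃ δ : ℝ, 0 < δ ∧ 8 * K ^ 6 * δ ^ 4 ≤ ε := by
    have hlim : Tendsto (fun δ : ℝ => 8 * K ^ 6 * δ ^ 4) (𝓝[>] 0) (𝓝 (8 * K ^ 6 * 0 ^ 4)) :=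
      (((continuous_id.pow 4).const_mul (8 * K ^ 6)).tendsto 0).mono_left nhdsWithin_le_nhds
    have h0 : 8 * K ^ 6 * 0 ^ 4 < ε := by simpa using hε
    obtain ⟨δ, h1, h2⟩ := ((hlim.eventually_lt_const h0).and self_mem_nhdsWithin).exists
    exact ⟨δ, h2, h1.le⟩
  obtain ⟨φ, hφ, hd⟩ := exists_test_near w0.mem hδ
  obtain ⟨Cφ, hCφ⟩ := hφ.cpt.exists_bound_of_continuous hφ.smooth.continuous
  set g0 : VS Ω := VS.mk (tb φ) (tb_mem hφ) with hg0
  set z : VS Ω := w0 - g0 with hz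
  have hznorm : ‖z‖ ≤ δ := by
    rw [VS.norm_def]
    exact hd.le
  have hC0 : 0 ≤ Cφ := (norm_nonneg _).trans (hCφ 0)
  refine ⟨8 * Cφ ^ 4, by positivity, fun w => ?_⟩
  have hpt : ∀ᵐ x, fn w0.v x ^ 4 * fn w.v x ^ 2
      ≤ 8 * Cφ ^ 4 * (fn w.v x * fn w.v x) + 8 * (fn z.v x ^ 4 * fn w.v x ^ 2) := by
    have hzv : z.v = w0.v - tb φ := rfl
    rw [hzv]
    filter_upwards [fn_sub w0.v (tb φ), (rep_tb hφ).1] with x h1 h2
    rw [h1, Pi.sub_apply, h2]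
    have h3 : |φ x| ≤ Cφ := hCφ x
    set a := fn w0.v x
    set b := φ x
    set c := fn w.v x
    have h4 : b ^ 4 ≤ Cφ ^ 4 := by
      have : b ^ 4 = |b| ^ 4 := (Even.pow_abs (by decide) b).symm
      rw [this]
      gcongr
    have h5 : a ^ 4 ≤ 8 * (b ^ 4 + (a - b) ^ 4) := by
      nlinarith [sq_nonneg (b ^ 2 - (a - b) ^ 2), sq_nonneg (b - (a - b)),
        sq_nonneg (b * (b - (a - b))), sq_nonneg ((a - b) * (b - (a - b))),
        sq_nonneg (b ^ 2 - b * (a - b)), sq_nonneg ((a - b) ^ 2 - b * (a - b)),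
        sq_nonneg (b + (a - b))]
    calc a ^ 4 * c ^ 2 ≤ (8 * (b ^ 4 + (a - b) ^ 4)) * c ^ 2 := by gcongr
      _ ≤ (8 * (Cφ ^ 4 + (a - b) ^ 4)) * c ^ 2 := by gcongr
      _ = _ := by ring
  have hiw : Integrable (fun x => fn w.v x * fn w.v x) volume := by
    have := integrable_J (BoundedContinuousFunction.const E (1 : ℝ)) w w
    simpa using this
  calc ∫ x, fn w0.v x ^ 4 * fn w.v x ^ 2
      ≤ ∫ x, (8 * Cφ ^ 4 * (fn w.v x * fn w.v x) + 8 * (fn z.v x ^ 4 * fn w.v x ^ 2)) :=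
        integral_mono_ae (integrable_quart hS w0 w)
          ((hiw.const_mul _).add ((integrable_quart hS z w).const_mul _)) hpt
    _ = 8 * Cφ ^ 4 * mI w.v w.v + 8 * ∫ x, fn z.v x ^ 4 * fn w.v x ^ 2 := by
        rw [integral_add (hiw.const_mul _) ((integrable_quart hS z w).const_mul _),
          integral_const_mul, integral_const_mul]
        rfl
    _ ≤ 8 * Cφ ^ 4 * mI w.v w.v + 8 * ((K * δ) ^ 2 * (K * ‖w‖)) ^ 2 := by
        gcongr
        refine (quart_le hS z w).trans ?_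
        gcongr
        · refine ((c6 hS Ω).le_opNorm z).trans ?_
          gcongr
        · exact (c6 hS Ω).le_opNorm w
    _ = 8 * Cφ ^ 4 * mI w.v w.v + 8 * K ^ 6 * δ ^ 4 * ‖w‖ ^ 2 := by ring
    _ ≤ 8 * Cφ ^ 4 * mI w.v w.v + ε * ‖w‖ ^ 2 := by gcongr
    _ = _ := by ring

variable (Ω) in
lemma contDiff_LinA {βA : E → (E →ᵇ (E →L[ℝ] E))} (hβ : ContDiff ℝ ∞ βA) :
    ContDiff ℝ ∞ (fun z : E × VS Ω => LinA Ω (toLinf _ (βA z.1)) z.2) := by
  have h1 : ContDiff ℝ ∞ (toLinf (E →L[ℝ] E)) := by apply ContinuousLinearMap.contDiff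
  have h2 : ContDiff ℝ ∞ mA := by apply ContinuousLinearMap.contDiff
  have h3 : ContDiff ℝ ∞ (fun z : E × VS Ω => mA (toLinf (E →L[ℝ] E) (βA z.1))) :=
    h2.comp (h1.comp (hβ.comp contDiff_fst))
  have h4 : ContDiff ℝ ∞ (fun z : E × VS Ω => vsnd Ω z.2) := by
    have : ContDiff ℝ ∞ (vsnd Ω) := by apply ContinuousLinearMap.contDiff
    exact this.comp contDiff_snd
  have h5 := h3.clm_apply h4
  have h6 : ContDiff ℝ ∞ ((pre (vsnd Ω)) ∘L (ipL (Lp E 2 (volume : Measure E)))) := by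
    apply ContinuousLinearMap.contDiff
  exact h6.comp h5

variable (Ω) in
lemma contDiff_LinJ {βJ : E → (E →ᵇ ℝ)} (hβ : ContDiff ℝ ∞ βJ) :
    ContDiff ℝ ∞ (fun z : E × VS Ω => LinJ Ω (toLinf _ (βJ z.1)) z.2) := by
  have h1 : ContDiff ℝ ∞ (toLinf ℝ) := by apply ContinuousLinearMap.contDiff
  have h2 : ContDiff ℝ ∞ mJ := by apply ContinuousLinearMap.contDiff
  have h3 : ContDiff ℝ ∞ (fun z : E × VS Ω => mJ (toLinf ℝ (βJ z.1))) :=
    h2.comp (h1.comp (hβ.comp contDiff_fst))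
  have h4 : ContDiff ℝ ∞ (fun z : E × VS Ω => vfst Ω z.2) := by
    have : ContDiff ℝ ∞ (vfst Ω) := by apply ContinuousLinearMap.contDiff
    exact this.comp contDiff_snd
  have h5 := h3.clm_apply h4
  have h6 : ContDiff ℝ ∞ ((pre (vfst Ω)) ∘L (ipL (Lp ℝ 2 (volume : Measure E)))) := by
    apply ContinuousLinearMap.contDiff
  exact h6.comp h5

lemma contDiff_Q5 (hS : SobVStmt) {βJ : E → (E →ᵇ ℝ)} (hβ : ContDiff ℝ ∞ βJ) :
    ContDiff ℝ ∞ (fun z : E × VS Ω => Q5 Ω hS (toLinf _ (βJ z.1)) z.2) := by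
  have h1 : ContDiff ℝ ∞ (toLinf ℝ) := by apply ContinuousLinearMap.contDiff
  have h2 : ContDiff ℝ ∞ mJ := by apply ContinuousLinearMap.contDiff
  have h3 : ContDiff ℝ ∞ (fun z : E × VS Ω => mJ (toLinf ℝ (βJ z.1))) :=
    h2.comp (h1.comp (hβ.comp contDiff_fst))
  have h4 : ContDiff ℝ ∞ (fun z : E × VS Ω => c6 hS Ω z.2) := by
    have : ContDiff ℝ ∞ (c6 hS Ω) := by apply ContinuousLinearMap.contDiff
    exact this.comp contDiff_snd
  have h5 : ContDiff ℝ ∞ (fun z : E × VS Ω => T2 (c6 hS Ω z.2)) := by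
    have : ContDiff ℝ ∞ T2 := by apply ContinuousLinearMap.contDiff
    exact this.comp h4
  have h6 := h5.clm_apply h4
  have h7 : ContDiff ℝ ∞ (fun z : E × VS Ω => T32 (T2 (c6 hS Ω z.2) (c6 hS Ω z.2))) := by
    have : ContDiff ℝ ∞ T32 := by apply ContinuousLinearMap.contDiff
    exact this.comp h6
  have h8 := h3.clm_apply (h7.clm_apply h4)
  have h9 : ContDiff ℝ ∞ (fun z : E × VS Ω => ipL (Lp ℝ 2 (volume : Measure E))
      (mJ (toLinf ℝ (βJ z.1)) (T32 (T2 (c6 hS Ω z.2) (c6 hS Ω z.2)) (c6 hS Ω z.2)))) := by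
    have : ContDiff ℝ ∞ (ipL (Lp ℝ 2 (volume : Measure E))) := by
      apply ContinuousLinearMap.contDiff
    exact this.comp h8
  exact h9.clm_comp (h7.clm_comp contDiff_const)

end Forms

lemma contDiff_Q5' (Ω : Set E) (hS : SobVStmt) (a : Lp ℝ ∞ (volume : Measure E)) :
    ContDiff ℝ ∞ (fun w : VS Ω => Q5 Ω hS a w) := by
  have h4 : ContDiff ℝ ∞ (fun w : VS Ω => c6 hS Ω w) := by
    have : ContDiff ℝ ∞ (c6 hS Ω) := by apply ContinuousLinearMap.contDiff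
    exact this
  have h5 : ContDiff ℝ ∞ (fun w : VS Ω => T2 (c6 hS Ω w)) := by
    have : ContDiff ℝ ∞ T2 := by apply ContinuousLinearMap.contDiff
    exact this.comp h4
  have h6 := h5.clm_apply h4
  have h7 : ContDiff ℝ ∞ (fun w : VS Ω => T32 (T2 (c6 hS Ω w) (c6 hS Ω w))) := by
    have : ContDiff ℝ ∞ T32 := by apply ContinuousLinearMap.contDiff
    exact this.comp h6
  have h8 : ContDiff ℝ ∞ (fun w : VS Ω =>
      mJ a (T32 (T2 (c6 hS Ω w) (c6 hS Ω w)) (c6 hS Ω w))) := by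
    have : ContDiff ℝ ∞ (mJ a) := by apply ContinuousLinearMap.contDiff
    exact this.comp (h7.clm_apply h4)
  have h9 : ContDiff ℝ ∞ (fun w : VS Ω => ipL (Lp ℝ 2 (volume : Measure E))
      (mJ a (T32 (T2 (c6 hS Ω w) (c6 hS Ω w)) (c6 hS Ω w)))) := by
    have : ContDiff ℝ ∞ (ipL (Lp ℝ 2 (volume : Measure E))) := by
      apply ContinuousLinearMap.contDiff
    exact this.comp h8
  exact h9.clm_comp (h7.clm_comp contDiff_const)

/-- the operator -/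
noncomputable def Hop (Ω : Set E) (hS : SobVStmt) (βA : E → (E →ᵇ (E →L[ℝ] E)))
    (βJ : E → (E →ᵇ ℝ)) (M lam om : ℝ) (z : E × VS Ω) : VS Ω →L[ℝ] ℝ :=
  LinA Ω (toLinf _ (βA z.1)) z.2 + M • LinM Ω z.2 - lam • LinJ Ω (toLinf _ (βJ z.1)) z.2
      - om • Q5 Ω hS (toLinf _ (βJ z.1)) z.2

lemma contDiff_Hop (Ω : Set E) (hS : SobVStmt) {βA : E → (E →ᵇ (E →L[ℝ] E))}
    {βJ : E → (E →ᵇ ℝ)} (hβA : ContDiff ℝ ∞ βA) (hβJ : ContDiff ℝ ∞ βJ) (M lam om : ℝ) :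
    ContDiff ℝ ∞ (Hop Ω hS βA βJ M lam om) := by
  have h0 : ContDiff ℝ ∞ (fun z : E × VS Ω => LinM Ω z.2) := by
    have : ContDiff ℝ ∞ (LinM Ω) := by apply ContinuousLinearMap.contDiff
    exact this.comp contDiff_snd
  have h1 : ContDiff ℝ ∞ (fun z : E × VS Ω => M • LinM Ω z.2) := h0.const_smul M
  have h2 : ContDiff ℝ ∞ (fun z : E × VS Ω => lam • LinJ Ω (toLinf _ (βJ z.1)) z.2) :=
    (contDiff_LinJ Ω hβJ).const_smul lam
  have h3 : ContDiff ℝ ∞ (fun z : E × VS Ω => om • Q5 Ω hS (toLinf _ (βJ z.1)) z.2) :=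
    (contDiff_Q5 hS hβJ).const_smul om
  have h4 : ContDiff ℝ ∞ (fun z : E × VS Ω =>
      LinA Ω (toLinf _ (βA z.1)) z.2 + M • LinM Ω z.2) := (contDiff_LinA Ω hβA).add h1
  have h5 : ContDiff ℝ ∞ (fun z : E × VS Ω =>
      LinA Ω (toLinf _ (βA z.1)) z.2 + M • LinM Ω z.2
        - lam • LinJ Ω (toLinf _ (βJ z.1)) z.2) := h4.sub h2
  exact h5.sub h3

lemma Hop_apply (Ω : Set E) (hS : SobVStmt) (βA : E → (E →ᵇ (E →L[ℝ] E)))
    (βJ : E → (E →ᵇ ℝ)) (M lam om : ℝ) (t : E) (w η : VS Ω) :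
    Hop Ω hS βA βJ M lam om (t, w) η = LinA Ω (toLinf _ (βA t)) w η + M * LinM Ω w η
      - lam * LinJ Ω (toLinf _ (βJ t)) w η - om * Q5 Ω hS (toLinf _ (βJ t)) w η := by
  simp only [Hop, sub_apply, add_apply, smul_apply, smul_eq_mul]

lemma hasFDerivAt_Hop (Ω : Set E) (hS : SobVStmt) (βA : E → (E →ᵇ (E →L[ℝ] E)))
    (βJ : E → (E →ᵇ ℝ)) (M lam om : ℝ) (w0 : VS Ω) {Q' : VS Ω →L[ℝ] (VS Ω →L[ℝ] ℝ)}
    (hQ : HasFDerivAt (fun w : VS Ω => Q5 Ω hS (toLinf _ (βJ 0)) w) Q' w0) :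
    HasFDerivAt (fun w : VS Ω => Hop Ω hS βA βJ M lam om (0, w))
      (LinA Ω (toLinf _ (βA 0)) + M • LinM Ω - lam • LinJ Ω (toLinf _ (βJ 0)) - om • Q') w0 := by
  have h1 : HasFDerivAt (fun w : VS Ω => LinA Ω (toLinf _ (βA 0)) w + M • LinM Ω w
      - lam • LinJ Ω (toLinf _ (βJ 0)) w)
      (LinA Ω (toLinf _ (βA 0)) + M • LinM Ω - lam • LinJ Ω (toLinf _ (βJ 0))) w0 :=
    (LinA Ω (toLinf _ (βA 0)) + M • LinM Ω - lam • LinJ Ω (toLinf _ (βJ 0))).hasFDerivAt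
  have h2 : HasFDerivAt (fun w : VS Ω => om • Q5 Ω hS (toLinf _ (βJ 0)) w) (om • Q') w0 :=
    hQ.const_smul om
  exact h1.sub h2

/-- the operator module -/
theorem oper (hS : SobVStmt) : OperStmt := by
  intro Ω χ hχ A J hc lam om w0
  obtain ⟨βA, hβA, hβA'⟩ := exists_famA hχ hc
  obtain ⟨βJ, hβJ, hβJ'⟩ := exists_famJ hχ hc
  obtain ⟨θ, hθ, hell⟩ := hc.ell
  obtain ⟨CJ, hCJ⟩ := hc.bddJ
  have hCJ0 : 0 ≤ CJ := (abs_nonneg _).trans (hCJ 0)
  have hA0 : ∀ x, βA 0 x = A x := fun x => by rw [hβA'.self_of_nhds x, At_zero]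
  have hJ0 : ∀ x, βJ 0 x = J x := fun x => by rw [hβJ'.self_of_nhds x, Jt_zero]
  obtain ⟨N, hN0, hN⟩ := quart hS w0 (ε := θ / (2 * (5 * |om| * CJ + 1))) (by positivity)
  set M : ℝ := θ + |lam| * CJ + 5 * |om| * CJ * N with hM
  refine ⟨M, Hop Ω hS βA βJ M lam om, (contDiff_Hop Ω hS hβA hβJ M lam om).contDiffAt, ?_, ?_⟩
  · filter_upwards [hβA', hβJ'] with t hA hJ w η
    rw [Hop_apply, LinA_apply, LinM_apply, LinJ_apply, Q5_apply]
    have h2 : ∫ x, Jt χ J t x * (lam * fn w.v x + om * fn w.v x ^ 5) * fn η.v x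
        = lam * (∫ x, βJ t x * fn w.v x * fn η.v x)
          + om * ∫ x, βJ t x * fn w.v x ^ 5 * fn η.v x := by
      rw [← integral_const_mul, ← integral_const_mul, ← integral_add
        ((integrable_J (βJ t) w η).const_mul lam) ((integrable_5 hS (βJ t) w η).const_mul om)]
      congr 1
      ext x
      rw [hJ x]
      ring
    rw [h2]
    simp_rw [hA]
    ring
  · set Q : VS Ω → (VS Ω →L[ℝ] ℝ) := fun w => Q5 Ω hS (toLinf _ (βJ 0)) w with hQ
    have hQd : HasFDerivAt Q (fderiv ℝ Q w0) w0 := by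
      have h1 : ContDiff ℝ ∞ Q := contDiff_Q5' Ω hS (toLinf _ (βJ 0))
      exact (h1.differentiable (by simp) w0).hasFDerivAt
    set B : VS Ω →L[ℝ] (VS Ω →L[ℝ] ℝ) :=
      LinA Ω (toLinf _ (βA 0)) + M • LinM Ω - lam • LinJ Ω (toLinf _ (βJ 0))
        - om • fderiv ℝ Q w0 with hB
    have hBd : HasFDerivAt (fun w : VS Ω => Hop Ω hS βA βJ M lam om (0, w)) B w0 :=
      hasFDerivAt_Hop Ω hS βA βJ M lam om w0 hQd
    have hQw : ∀ w : VS Ω, fderiv ℝ Q w0 w w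
        = 5 * ∫ x, βJ 0 x * (fn w0.v x ^ 4 * fn w.v x ^ 2) := by
      intro w
      have h1 : HasDerivAt (fun s : ℝ => w0 + s • w) w 0 := by
        simpa using ((hasDerivAt_id (0 : ℝ)).smul_const w).const_add w0
      have h2 : HasDerivAt (fun s : ℝ => Q (w0 + s • w)) (fderiv ℝ Q w0 w) 0 := by
        have h3 : HasFDerivAt Q (fderiv ℝ Q w0) (w0 + (0 : ℝ) • w) := by simpa using hQd
        exact h3.comp_hasDerivAt (0 : ℝ) h1
      have h4 : HasDerivAt (fun s : ℝ => Q (w0 + s • w) w) (fderiv ℝ Q w0 w w) 0 := by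
        have := h2.clm_apply (hasDerivAt_const (0 : ℝ) w)
        simpa using this
      exact h4.unique (Q5_line hS (βJ 0) w0 w)
    have hcoer : IsCoercive B := by
      refine ⟨θ / 2, by positivity, fun w => ?_⟩
      have e1 : B w w = LinA Ω (toLinf _ (βA 0)) w w + M * LinM Ω w w
        - lam * LinJ Ω (toLinf _ (βJ 0)) w w - om * fderiv ℝ Q w0 w w := rfl
      rw [e1, LinA_apply, LinM_apply, LinJ_apply, hQw]
      have i1 : θ * dI w.v w.v ≤ ∫ x, ⟪βA 0 x (gr w.v x), gr w.v x⟫_ℝ := by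
        unfold dI
        rw [← integral_const_mul]
        refine integral_mono_ae ?_ ?_ ?_
        · exact (L2.integrable_inner (𝕜 := ℝ) (vsnd Ω w) (vsnd Ω w)).const_mul θ
        · refine (L2.integrable_inner (𝕜 := ℝ) (mA (toLinf _ (βA 0)) (vsnd Ω w))
            (vsnd Ω w)).congr ?_
          filter_upwards [mA_coe (toLinf _ (βA 0)) (vsnd Ω w), toLinf_coe (βA 0)] with x h1 h2
          rw [h1, h2]
          rfl
        · refine Eventually.of_forall fun x => ?_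
          simp only
          rw [hA0 x, real_inner_self_eq_norm_sq]
          exact hell x _
      have hiw : Integrable (fun x => fn w.v x * fn w.v x) volume := by
        have := integrable_J (BoundedContinuousFunction.const E (1 : ℝ)) w w
        simpa using this
      have i2 : lam * ∫ x, βJ 0 x * fn w.v x * fn w.v x ≤ |lam| * CJ * mI w.v w.v := by
        have h1 : |∫ x, βJ 0 x * fn w.v x * fn w.v x| ≤ CJ * mI w.v w.v := by
          unfold mI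
          rw [← integral_const_mul, ← Real.norm_eq_abs]
          refine norm_integral_le_of_norm_le (hiw.const_mul CJ) ?_
          refine Eventually.of_forall fun x => ?_
          rw [hJ0 x, Real.norm_eq_abs, mul_assoc, abs_mul]
          rw [abs_of_nonneg (mul_self_nonneg (fn w.v x))]
          exact mul_le_mul_of_nonneg_right (hCJ x) (mul_self_nonneg _)
        calc lam * ∫ x, βJ 0 x * fn w.v x * fn w.v x
            ≤ |lam * ∫ x, βJ 0 x * fn w.v x * fn w.v x| := le_abs_self _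
          _ = |lam| * |∫ x, βJ 0 x * fn w.v x * fn w.v x| := abs_mul _ _
          _ ≤ |lam| * (CJ * mI w.v w.v) := by gcongr
          _ = _ := by ring
      have i3 : om * (5 * ∫ x, βJ 0 x * (fn w0.v x ^ 4 * fn w.v x ^ 2))
          ≤ 5 * |om| * CJ * ∫ x, fn w0.v x ^ 4 * fn w.v x ^ 2 := by
        have h1 : |∫ x, βJ 0 x * (fn w0.v x ^ 4 * fn w.v x ^ 2)|
            ≤ CJ * ∫ x, fn w0.v x ^ 4 * fn w.v x ^ 2 := by
          rw [← integral_const_mul, ← Real.norm_eq_abs]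
          refine norm_integral_le_of_norm_le ((integrable_quart hS w0 w).const_mul CJ) ?_
          refine Eventually.of_forall fun x => ?_
          have h3 : 0 ≤ fn w0.v x ^ 4 * fn w.v x ^ 2 := by positivity
          rw [hJ0 x, Real.norm_eq_abs, abs_mul, abs_of_nonneg h3]
          exact mul_le_mul_of_nonneg_right (hCJ x) h3
        calc om * (5 * ∫ x, βJ 0 x * (fn w0.v x ^ 4 * fn w.v x ^ 2))
            ≤ |om * (5 * ∫ x, βJ 0 x * (fn w0.v x ^ 4 * fn w.v x ^ 2))| := le_abs_self _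
          _ = 5 * |om| * |∫ x, βJ 0 x * (fn w0.v x ^ 4 * fn w.v x ^ 2)| := by
            rw [abs_mul, abs_mul, abs_of_pos (by norm_num : (0 : ℝ) < 5)]
            ring
          _ ≤ 5 * |om| * (CJ * ∫ x, fn w0.v x ^ 4 * fn w.v x ^ 2) := by gcongr
          _ = _ := by ring
      have i4 : 5 * |om| * CJ * (θ / (2 * (5 * |om| * CJ + 1))) ≤ θ / 2 := by
        rw [mul_div_assoc', div_le_div_iff₀ (by positivity) (by norm_num)]
        have : 0 ≤ |om| * CJ := by positivity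
        nlinarith
      have i5 := hN w
      have i6 : 5 * |om| * CJ * ∫ x, fn w0.v x ^ 4 * fn w.v x ^ 2
          ≤ θ / 2 * ‖w‖ ^ 2 + 5 * |om| * CJ * N * mI w.v w.v := by
        calc 5 * |om| * CJ * ∫ x, fn w0.v x ^ 4 * fn w.v x ^ 2
            ≤ 5 * |om| * CJ * (θ / (2 * (5 * |om| * CJ + 1)) * ‖w‖ ^ 2 + N * mI w.v w.v) := by
              gcongr
          _ = 5 * |om| * CJ * (θ / (2 * (5 * |om| * CJ + 1))) * ‖w‖ ^ 2
              + 5 * |om| * CJ * N * mI w.v w.v := by ring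
          _ ≤ _ := by gcongr
      have i7 : ‖w‖ ^ 2 = mI w.v w.v + dI w.v w.v := by rw [VS.norm_def, norm_sq_eq]
      have i8 : θ / 2 * ‖w‖ * ‖w‖ = θ / 2 * ‖w‖ ^ 2 := by ring
      rw [i8, hM]
      nlinarith [i1, i2, i3, i6, i7, mI_self_nonneg w.v, dI_self_nonneg w.v]
    obtain ⟨T, hT⟩ := exists_equiv B hcoer
    exact ⟨T, by rw [hT]; exact hBd⟩

end E3

end Pool.Agent.H92.BN
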