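import Pool.Agent.H92.BN.Api
import Pool.Agent.H92.BN.ME3a_Fam

/-!
# Linear and multilinear operators on `VS Ω` (module E3, helper82)
-/

set_option autoImplicit false
set_option linter.unusedSectionVars false

namespace Pool.Agent.H92.BN

open MeasureTheory Set Filter Topology
open scoped ContDiff InnerProductSpace BoundedContinuousFunction ENNReal

namespace E3

section Linf

variable {F : Type} [NormedAddCommGroup F] [NormedSpace ℝ F]

lemma memLp_bcf (f : E →ᵇ F) : MemLp (fun x => f x) ∞ (volume : Measure E) :=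
  memLp_top_of_bound f.continuous.aestronglyMeasurable ‖f‖
    (Eventually.of_forall fun x => f.norm_coe_le_norm x)

/-- bounded continuous functions as elements of `L^∞` -/
noncomputable def toLinf (F : Type) [NormedAddCommGroup F] [NormedSpace ℝ F] :
    (E →ᵇ F) →L[ℝ] Lp F ∞ (volume : Measure E) :=
  LinearMap.mkContinuous
    { toFun := fun f => (memLp_bcf f).toLp _
      map_add' := by
        intro f g
        rw [← MemLp.toLp_add]
        rfl
      map_smul' := by
        intro c f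
        rw [RingHom.id_apply, ← MemLp.toLp_const_smul]
        rfl } 1 (by
    intro f
    rw [one_mul]
    simp only [LinearMap.coe_mk, AddHom.coe_mk]
    rw [Lp.norm_toLp]
    refine ENNReal.toReal_le_of_le_ofReal (norm_nonneg _) ?_
    rw [eLpNorm_exponent_top]
    exact eLpNormEssSup_le_of_ae_bound (Eventually.of_forall fun x => f.norm_coe_le_norm x))

lemma toLinf_coe (f : E →ᵇ F) : (toLinf F f : E → F) =ᵐ[volume] fun x => f x := by
  have h : toLinf F f = (memLp_bcf f).toLp _ := rfl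
  rw [h]
  exact MemLp.coeFn_toLp _

end Linf

/-- function component -/
noncomputable def vfst (Ω : Set E) : VS Ω →L[ℝ] Lp ℝ 2 (volume : Measure E) :=
  LinearMap.mkContinuous
    { toFun := fun u => u.v.fst
      map_add' := by intro u w; rfl
      map_smul' := by intro c u; rfl } 1 (by
    intro u
    rw [one_mul, VS.norm_def]
    exact WithLp.norm_fst_le _ u.v)

/-- gradient component -/
noncomputable def vsnd (Ω : Set E) : VS Ω →L[ℝ] Lp E 2 (volume : Measure E) :=
  LinearMap.mkContinuous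
    { toFun := fun u => u.v.snd
      map_add' := by intro u w; rfl
      map_smul' := by intro c u; rfl } 1 (by
    intro u
    rw [one_mul, VS.norm_def]
    exact WithLp.norm_snd_le _ u.v)

@[simp] lemma vfst_apply {Ω : Set E} (u : VS Ω) : vfst Ω u = u.v.fst := rfl
@[simp] lemma vsnd_apply {Ω : Set E} (u : VS Ω) : vsnd Ω u = u.v.snd := rfl

lemma vfst_coe {Ω : Set E} (u : VS Ω) : (vfst Ω u : E → ℝ) = fn u.v := rfl
lemma vsnd_coe {Ω : Set E} (u : VS Ω) : (vsnd Ω u : E → E) = gr u.v := rfl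

/-- real inner product as a continuous bilinear map -/
noncomputable def ipL (X : Type) [NormedAddCommGroup X] [InnerProductSpace ℝ X] :
    X →L[ℝ] X →L[ℝ] ℝ :=
  LinearMap.mkContinuous₂
    (LinearMap.mk₂ ℝ (fun x y : X => ⟪x, y⟫_ℝ) (by intro a b c; rw [inner_add_left])
      (by intro c a b; rw [real_inner_smul_left, smul_eq_mul])
      (by intro a b c; rw [inner_add_right])
      (by intro c a b; rw [real_inner_smul_right, smul_eq_mul])) 1 (by
    intro x y
    rw [one_mul]
    exact norm_inner_le_norm x y)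

@[simp] lemma ipL_apply (X : Type) [NormedAddCommGroup X] [InnerProductSpace ℝ X] (x y : X) :
    ipL X x y = ⟪x, y⟫_ℝ := rfl

instance fact16 : Fact ((1 : ℝ≥0∞) ≤ 6) := ⟨by norm_num⟩
instance fact13 : Fact ((1 : ℝ≥0∞) ≤ 3) := ⟨by norm_num⟩

/-- the embedding into `L⁶` -/
noncomputable def c6 (hS : SobVStmt) (Ω : Set E) : VS Ω →L[ℝ] Lp ℝ 6 (volume : Measure E) :=
  LinearMap.mkContinuous
    { toFun := fun u => (hS.2 u.v (V_le_univ Ω u.mem)).1.toLp (fn u.v)
      map_add' := by
        intro u w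
        rw [← MemLp.toLp_add]
        apply MemLp.toLp_congr
        exact fn_add u.v w.v
      map_smul' := by
        intro c u
        rw [RingHom.id_apply, ← MemLp.toLp_const_smul]
        apply MemLp.toLp_congr
        exact fn_smul c u.v } (Real.sqrt (1 / S0)) (by
    intro u
    simp only [LinearMap.coe_mk, AddHom.coe_mk]
    obtain ⟨h1, h2⟩ := hS.2 u.v (V_le_univ Ω u.mem)
    have hp : 0 ≤ p6 u.v := integral_nonneg (fun x => by positivity)
    have h3 : ‖h1.toLp (fn u.v)‖ = (p6 u.v) ^ ((1 : ℝ) / 6) := by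
      rw [Lp.norm_toLp, h1.eLpNorm_eq_integral_rpow_norm (by norm_num) (by norm_num),
        ENNReal.toReal_ofReal (by positivity)]
      have h4 : (6 : ℝ≥0∞).toReal = 6 := by norm_num
      rw [h4, one_div]
      congr 1
      unfold p6
      congr 1
      ext x
      rw [Real.norm_eq_abs]
      have : |fn u.v x| ^ (6 : ℝ) = |fn u.v x| ^ (6 : ℕ) := by
        rw [← Real.rpow_natCast]; norm_num
      rw [this]
      exact Even.pow_abs (by decide) _
    rw [h3]
    have h5 : (p6 u.v) ^ ((1 : ℝ) / 6) = Real.sqrt ((p6 u.v) ^ ((1 : ℝ) / 3)) := by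
      rw [Real.sqrt_eq_rpow, ← Real.rpow_mul hp]
      norm_num
    have h6 : dI u.v u.v ≤ ‖u‖ ^ 2 := by
      rw [VS.norm_def, norm_sq_eq]
      linarith [mI_self_nonneg u.v]
    rw [h5, ← Real.sqrt_sq (norm_nonneg u), ← Real.sqrt_mul (by have := hS.1; positivity)]
    apply Real.sqrt_le_sqrt
    rw [show 1 / S0 * ‖u‖ ^ 2 = ‖u‖ ^ 2 / S0 by ring, le_div_iff₀ hS.1]
    linarith)

lemma c6_coe (hS : SobVStmt) {Ω : Set E} (u : VS Ω) : (c6 hS Ω u : E → ℝ) =ᵐ[volume] fn u.v := by
  have h : c6 hS Ω u = (hS.2 u.v (V_le_univ Ω u.mem)).1.toLp (fn u.v) := rfl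
  rw [h]
  exact MemLp.coeFn_toLp _

/-! ### products -/

instance holder663 : ENNReal.HolderTriple 6 6 3 where
  inv_add_inv_eq_inv := by
    rw [← two_mul, ← ENNReal.toReal_eq_toReal_iff' (by simp [ENNReal.mul_eq_top]) (by simp)]
    rw [ENNReal.toReal_mul, ENNReal.toReal_inv, ENNReal.toReal_inv]
    norm_num

instance holder362 : ENNReal.HolderTriple 3 6 2 where
  inv_add_inv_eq_inv := by
    rw [← ENNReal.toReal_eq_toReal_iff' (by simp) (by simp)]
    rw [ENNReal.toReal_add (by simp) (by simp), ENNReal.toReal_inv, ENNReal.toReal_inv,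
      ENNReal.toReal_inv]
    norm_num

/-- product of two `L⁶` functions -/
noncomputable def T2 : Lp ℝ 6 (volume : Measure E) →L[ℝ] Lp ℝ 6 (volume : Measure E) →L[ℝ]
    Lp ℝ 3 (volume : Measure E) :=
  (ContinuousLinearMap.mul ℝ ℝ).holderL volume 6 6 3

/-- product of an `L³` and an `L⁶` function -/
noncomputable def T32 : Lp ℝ 3 (volume : Measure E) →L[ℝ] Lp ℝ 6 (volume : Measure E) →L[ℝ]
    Lp ℝ 2 (volume : Measure E) :=
  (ContinuousLinearMap.mul ℝ ℝ).holderL volume 3 6 2

/-- multiplication of `L²` by bounded functions -/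
noncomputable def mJ : Lp ℝ ∞ (volume : Measure E) →L[ℝ] Lp ℝ 2 (volume : Measure E) →L[ℝ]
    Lp ℝ 2 (volume : Measure E) :=
  (ContinuousLinearMap.mul ℝ ℝ).holderL volume ∞ 2 2

/-- multiplication of vector fields by bounded matrices -/
noncomputable def mA : Lp (E →L[ℝ] E) ∞ (volume : Measure E) →L[ℝ]
    Lp E 2 (volume : Measure E) →L[ℝ] Lp E 2 (volume : Measure E) :=
  (ContinuousLinearMap.id ℝ (E →L[ℝ] E)).holderL volume ∞ 2 2

lemma T2_coe (u w : Lp ℝ 6 (volume : Measure E)) :
    (T2 u w : E → ℝ) =ᵐ[volume] fun x => u x * w x :=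
  (ContinuousLinearMap.mul ℝ ℝ).coeFn_holder u w

lemma T32_coe (u : Lp ℝ 3 (volume : Measure E)) (w : Lp ℝ 6 (volume : Measure E)) :
    (T32 u w : E → ℝ) =ᵐ[volume] fun x => u x * w x :=
  (ContinuousLinearMap.mul ℝ ℝ).coeFn_holder u w

lemma mJ_coe (u : Lp ℝ ∞ (volume : Measure E)) (w : Lp ℝ 2 (volume : Measure E)) :
    (mJ u w : E → ℝ) =ᵐ[volume] fun x => u x * w x :=
  (ContinuousLinearMap.mul ℝ ℝ).coeFn_holder u w

lemma mA_coe (u : Lp (E →L[ℝ] E) ∞ (volume : Measure E)) (w : Lp E 2 (volume : Measure E)) :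
    (mA u w : E → E) =ᵐ[volume] fun x => u x (w x) :=
  (ContinuousLinearMap.id ℝ (E →L[ℝ] E)).coeFn_holder u w

end E3

end Pool.Agent.H92.BN
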