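import Pool.Agent.H92.BN.ME3a_Ops
import Pool.Agent.H92.BN.ME3a_Coef

/-!
# Module E3b: `DerivStmt` (helper82)
-/

set_option autoImplicit false
set_option linter.unusedSectionVars false

namespace Pool.Agent.H92.BN

open MeasureTheory Set Filter Topology
open scoped ContDiff InnerProductSpace BoundedContinuousFunction ENNReal

namespace E3

/-- pairing of bounded vector fields with `L²` vector fields -/
noncomputable def hE : Lp E ∞ (volume : Measure E) →L[ℝ]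
    Lp E 2 (volume : Measure E) →L[ℝ] Lp ℝ 2 (volume : Measure E) :=
  (ipL E).holderL volume ∞ 2 2

lemma hE_coe (u : Lp E ∞ (volume : Measure E)) (w : Lp E 2 (volume : Measure E)) :
    (hE u w : E → ℝ) =ᵐ[volume] fun x => ⟪u x, w x⟫_ℝ :=
  (ipL E).coeFn_holder u w

section

variable (Ω : Set E) {P : Type} [NormedAddCommGroup P] [NormedSpace ℝ P]

/-- exchanging arguments, as a continuous linear map -/
noncomputable def flipG (P Y Z : Type) [NormedAddCommGroup P] [NormedSpace ℝ P]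
    [NormedAddCommGroup Y] [NormedSpace ℝ Y] [NormedAddCommGroup Z] [NormedSpace ℝ Z] :
    (P →L[ℝ] Y →L[ℝ] Z) →L[ℝ] (Y →L[ℝ] P →L[ℝ] Z) :=
  (ContinuousLinearMap.flipₗᵢ ℝ P Y Z).toContinuousLinearEquiv

lemma flipG_apply (P Y Z : Type) [NormedAddCommGroup P] [NormedSpace ℝ P]
    [NormedAddCommGroup Y] [NormedSpace ℝ Y] [NormedAddCommGroup Z] [NormedSpace ℝ Z]
    (f : P →L[ℝ] Y →L[ℝ] Z) (y : Y) (p : P) : flipG P Y Z f y p = f p y := rfl

/-- the operator `w ↦ (h ↦ ⟪g(·) h, ∇ w⟫)` -/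
noncomputable def Gop (g : E →ᵇ (P →L[ℝ] E)) :
    VS Ω →L[ℝ] (P →L[ℝ] Lp ℝ 2 (volume : Measure E)) :=
  (flipG P (Lp E 2 (volume : Measure E)) (Lp ℝ 2 (volume : Measure E))
    ((hE ∘L (toLinf E)) ∘L (flipB P E g))) ∘L (vsnd Ω)

lemma Gop_coe (g : E →ᵇ (P →L[ℝ] E)) (w : VS Ω) (h : P) :
    (Gop Ω g w h : E → ℝ) =ᵐ[volume] fun y => ⟪g y h, gr w.v y⟫_ℝ := by
  have e : Gop Ω g w h = hE (toLinf E (flipB P E g h)) (vsnd Ω w) := rfl
  rw [e]
  filter_upwards [hE_coe (toLinf E (flipB P E g h)) (vsnd Ω w),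
    toLinf_coe (flipB P E g h)] with y h1 h2
  rw [h1, h2]
  rfl

lemma contDiff_Gop {β : P → (E →ᵇ (P →L[ℝ] E))} (hβ : ContDiff ℝ ∞ β) :
    ContDiff ℝ ∞ (fun t => Gop Ω (β t)) := by
  have h1 : ContDiff ℝ ∞ (flipB P E) := by apply ContinuousLinearMap.contDiff
  have h2 : ContDiff ℝ ∞ (fun t => flipB P E (β t)) := h1.comp hβ
  have h3 : ContDiff ℝ ∞ (fun t => (hE ∘L (toLinf E)) ∘L (flipB P E (β t))) :=
    contDiff_const.clm_comp h2
  have h4 : ContDiff ℝ ∞ (flipG P (Lp E 2 (volume : Measure E)) (Lp ℝ 2 (volume : Measure E))) := by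
    apply ContinuousLinearMap.contDiff
  exact (h4.comp h3).clm_comp contDiff_const

end

/-- the derivative module -/
theorem deriv_stmt : DerivStmt := by
  intro Ω P _ _ _ ι χ hχ
  obtain ⟨r0, hr0, hr⟩ := exists_rad hχ ι
  have hb : ContDiffOn ℝ ∞ (fun z : P × E =>
      χ z.2 • ((Bt χ (ι z.1) z.2) ∘L ι)) (Metric.ball 0 r0 ×ˢ univ) := by
    have h1 : ContDiff ℝ ∞ (fun z : P × E => χ z.2) := hχ.smooth.comp contDiff_snd
    exact h1.contDiffOn.smul ((smooth_Bt ι hχ hr).clm_comp contDiffOn_const)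
  obtain ⟨β, hβ, hβ'⟩ := exists_fam hχ.cpt hr0 hb (by
    intro t _ x hx
    simp only
    rw [image_eq_zero_of_notMem_tsupport hx]
    ext v
    simp)
  refine ⟨fun t => Gop Ω (β t), (contDiff_Gop Ω hβ).contDiffAt, ?_⟩
  filter_upwards [hβ'] with t ht w h
  filter_upwards [Gop_coe Ω (β t) w h] with y hy
  rw [hy, ht y]
  simp [real_inner_smul_left]

end E3

end Pool.Agent.H92.BN
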