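import Pool.Agent.H92.BN.Iface2

/-!
# Module E4: abstract bootstrap lemma (inverse function theorem)
-/

set_option autoImplicit false

namespace Pool.Agent.H92.BN

open MeasureTheory Set Filter Topology
open scoped ContDiff InnerProductSpace

theorem boot : BootStmt := by
  intro P X Y Z _ _ _ _ _ _ _ _ _ _ _ f H j k G T hc hH hT hE hG hD
  have : CompleteSpace P := FiniteDimensional.complete ℝ P
  -- derivative of H
  have hHd : HasFDerivAt H (fderiv ℝ H (0, f 0)) (0, f 0) :=
    (hH.differentiableAt (by simp)).hasFDerivAt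
  set H' := fderiv ℝ H (0, f 0) with hH'
  have hTr : H' ∘L (ContinuousLinearMap.inr ℝ P X) = (T : X →L[ℝ] Y) := by
    have h1 : HasFDerivAt (fun w : X => ((0 : P), w)) (ContinuousLinearMap.inr ℝ P X) (f 0) :=
      hasFDerivAt_prodMk_right _ _
    have h2 : HasFDerivAt (fun w : X => H (0, w)) (H' ∘L (ContinuousLinearMap.inr ℝ P X)) (f 0) :=
      HasFDerivAt.comp (f 0) (f := fun w : X => ((0 : P), w)) hHd h1
    exact h2.unique hT
  let Ψ : P × X → P × Y := fun q => (q.1, H q)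
  let e : (P × X) ≃L[ℝ] (P × Y) :=
    (ContinuousLinearEquiv.refl ℝ P).skewProd T (H' ∘L (ContinuousLinearMap.inl ℝ P X))
  have hΨ : ContDiffAt ℝ ∞ Ψ (0, f 0) := contDiffAt_fst.prodMk hH
  have hΨd : HasFDerivAt Ψ (e : (P × X) →L[ℝ] (P × Y)) (0, f 0) := by
    have h1 : HasFDerivAt Ψ ((ContinuousLinearMap.fst ℝ P X).prod H') (0, f 0) :=
      hasFDerivAt_fst.prodMk hHd
    convert h1 using 1
    refine ContinuousLinearMap.ext fun q => ?_
    have h2 : H' q = T q.2 + H' (q.1, 0) := by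
      have h3 : q = (q.1, (0 : X)) + ((0 : P), q.2) := by simp
      have h4 : T q.2 = H' (0, q.2) := by
        have := congrArg (fun F : X →L[ℝ] Y => F q.2) hTr
        simpa using this.symm
      conv_lhs => rw [h3]
      rw [map_add, h4, add_comm]
    simp only [e, ContinuousLinearEquiv.coe_coe, ContinuousLinearEquiv.skewProd_apply,
      ContinuousLinearMap.prod_apply, ContinuousLinearMap.coe_fst', ContinuousLinearMap.comp_apply,
      ContinuousLinearMap.inl_apply, ContinuousLinearEquiv.coe_refl', id]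
    rw [h2]
  have hne : (∞ : WithTop ℕ∞) ≠ 0 := by simp
  let S : P × Y → P × X := hΨ.localInverse hΨd hne
  have hS : ContDiffAt ℝ ∞ S (Ψ (0, f 0)) := hΨ.to_localInverse hΨd hne
  have hcont : ContinuousAt f 0 := hc.self_of_nhds
  have hcurve : ContinuousAt (fun t : P => (t, f t)) 0 := continuousAt_id.prodMk hcont
  have hleft : ∀ᶠ q in 𝓝 ((0 : P), f 0), S (Ψ q) = q :=
    (hΨ.hasStrictFDerivAt' hΨd hne).eventually_left_inverse
  have hf1 : ∀ᶠ t in 𝓝 (0 : P), f t = (S (t, k (j (f t)))).2 := by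
    filter_upwards [hcurve.eventually hleft, hE] with t ht1 ht2
    have h5 : Ψ (t, f t) = (t, k (j (f t))) := by simp [Ψ, ht2]
    rw [h5] at ht1
    rw [ht1]
  have h0 : Ψ (0, f 0) = (0, k (j (f 0))) := by
    have := hE.self_of_nhds
    simp [Ψ, this]
  rw [h0] at hS
  have step : ∀ n : ℕ, ContDiffAt ℝ n f 0 → ContDiffAt ℝ ((n : ℕ) + 1 : WithTop ℕ∞) f 0 := by
    intro n hn
    have h6 : ContDiffAt ℝ n (fun t => G t (f t)) 0 :=
      ContDiffAt.clm_apply (hG.of_le (by exact_mod_cast le_top)) hn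
    have h7 : ContDiffAt ℝ ((n : ℕ) + 1 : WithTop ℕ∞) (fun t => j (f t)) 0 := by
      rw [contDiffAt_succ_iff_hasFDerivAt]
      exact ⟨fun t => G t (f t), ⟨_, hD, fun x hx => hx⟩, h6⟩
    have h8 : ContDiffAt ℝ ((n : ℕ) + 1 : WithTop ℕ∞) (fun t => (t, k (j (f t)))) 0 :=
      contDiffAt_id.prodMk (k.contDiff.contDiffAt.comp 0 h7)
    have hle : (((n : ℕ) + 1 : ℕ) : WithTop ℕ∞) ≤ ∞ := by exact_mod_cast le_top
    have h9 : ContDiffAt ℝ ((n : ℕ) + 1 : WithTop ℕ∞) (fun t => (S (t, k (j (f t)))).2) 0 := by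
      have h10 : ContDiffAt ℝ ((n : ℕ) + 1 : WithTop ℕ∞) S (0, k (j (f 0))) :=
        hS.of_le (by exact_mod_cast hle)
      exact contDiffAt_snd.comp (0 : P) (h10.comp (0 : P) h8)
    exact h9.congr_of_eventuallyEq hf1
  intro n
  induction n with
  | zero =>
    rw [Nat.cast_zero, contDiffAt_zero]
    refine ⟨_, hc, fun t ht => ?_⟩
    exact (show ContinuousAt f t from ht).continuousWithinAt
  | succ n ih =>
    exact_mod_cast step n ih

end Pool.Agent.H92.BN
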