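import Pool.Agent.H92.BN.ME6

/-!
# Extraction of weak derivatives from smoothness of `t ↦ u ∘ φ_t`
-/

set_option autoImplicit false

namespace Pool.Agent.H92.BN

open MeasureTheory Set Filter Topology
open scoped ContDiff InnerProductSpace Convolution

namespace E5

section DL
variable {P : Type} [NormedAddCommGroup P] [NormedSpace ℝ P]
variable {X Y : Type} [NormedAddCommGroup X] [NormedSpace ℝ X] [NormedAddCommGroup Y]
  [NormedSpace ℝ Y]

/-- iterated directional derivative of a curve -/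
noncomputable def DL : List P → (P → X) → (P → X)
  | [], F => F
  | s :: L, F => DL L (fun t => fderiv ℝ F t s)

theorem DL_congr (L : List P) : ∀ {F G : P → X} {t : P}, F =ᶠ[𝓝 t] G → DL L F =ᶠ[𝓝 t] DL L G := by
  induction L with
  | nil => intro F G t h; exact h
  | cons s L ih =>
    intro F G t h
    refine ih ?_
    filter_upwards [h.fderiv (𝕜 := ℝ)] with y hy
    rw [hy]

theorem smooth_dir {F : P → X} {t : P} (h : ∀ n : ℕ, ContDiffAt ℝ n F t) (s : P) :
    ∀ n : ℕ, ContDiffAt ℝ n (fun y => fderiv ℝ F y s) t := by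
  intro n
  have h1 : ContDiffAt ℝ n (fderiv ℝ F) t := (h (n + 1)).fderiv_right (by norm_cast)
  exact h1.clm_apply contDiffAt_const

theorem DL_clm (ℓ : X →L[ℝ] Y) (L : List P) : ∀ {F : P → X} {t : P},
    (∀ n : ℕ, ContDiffAt ℝ n F t) → DL L (fun y => ℓ (F y)) t = ℓ (DL L F t) := by
  induction L with
  | nil => intro F t h; rfl
  | cons s L ih =>
    intro F t h
    have h1 : (fun y => fderiv ℝ (fun z => ℓ (F z)) y s) =ᶠ[𝓝 t] fun y => ℓ (fderiv ℝ F y s) := by
      have h2 : ∀ᶠ y in 𝓝 t, ContDiffAt ℝ 1 F y := by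
        have := (h 1).eventually (by simp)
        exact_mod_cast this
      filter_upwards [h2] with y hy
      have h3 : HasFDerivAt (fun z => ℓ (F z)) (ℓ.comp (fderiv ℝ F y)) y :=
        ℓ.hasFDerivAt.comp y (hy.differentiableAt (by simp)).hasFDerivAt
      rw [h3.fderiv]; rfl
    have h4 := (DL_congr L h1).eq_of_nhds
    show DL L (fun y => fderiv ℝ (fun z => ℓ (F z)) y s) t = ℓ (DL L (fun y => fderiv ℝ F y s) t)
    rw [h4]
    exact ih (smooth_dir h s)

theorem DL_neg (L : List P) (F : P → ℝ) : DL L (fun y => - F y) = fun t => - DL L F t := by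
  induction L generalizing F with
  | nil => rfl
  | cons s L ih =>
    show DL L (fun t => fderiv ℝ (fun y => - F y) t s) = fun t => - DL L (fun t => fderiv ℝ F t s) t
    rw [← ih]
    congr 1
    ext t
    have : fderiv ℝ (fun y => - F y) t = - fderiv ℝ F t := fderiv_fun_neg
    rw [this]; rfl
end DL

/-- `x ↦ ∫ u(z) η(z-x) dz` -/
noncomputable def Gx (u : E → ℝ) (η : E → ℝ) (x : E) : ℝ := ∫ z, u z * η (z - x)

theorem hasFDerivAt_Gx {u : E → ℝ} (hu : LocallyIntegrable u volume) {η : E → ℝ}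
    (hη : ContDiff ℝ ∞ η) (hc : HasCompactSupport η) (x : E) :
    ∃ D : E →L[ℝ] ℝ, HasFDerivAt (Gx u η) D x ∧ ∀ v, D v = - Gx u (fun y => fderiv ℝ η y v) x := by
  let ηn : E → ℝ := fun y => η (-y)
  have hηn : ContDiff ℝ ∞ ηn := hη.comp contDiff_neg
  have hcn : HasCompactSupport ηn := hc.comp_homeomorph (Homeomorph.neg E)
  have e1 : Gx u η = (u ⋆[ContinuousLinearMap.mul ℝ ℝ, volume] ηn) := by
    ext y
    simp only [Gx, convolution_def, ηn, ContinuousLinearMap.mul_apply']
    congr 1; ext z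
    rw [neg_sub]
  have h1 := hcn.hasFDerivAt_convolution_right (ContinuousLinearMap.mul ℝ ℝ) hu
    (hηn.of_le (by simp)) x
  refine ⟨_, by rw [e1]; exact h1, ?_⟩
  intro v
  have hcf : Continuous (fderiv ℝ ηn) := hηn.continuous_fderiv (by simp)
  rw [convolution_precompR_apply (ContinuousLinearMap.mul ℝ ℝ) hu (hcn.fderiv (𝕜 := ℝ)) hcf x v]
  simp only [Gx, convolution_def, ContinuousLinearMap.mul_apply']
  rw [← integral_neg]
  congr 1; ext z
  have h2 : fderiv ℝ ηn (x - z) v = - fderiv ℝ η (z - x) v := by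
    have h3 : HasFDerivAt ηn ((fderiv ℝ η (-(x - z))).comp (-(ContinuousLinearMap.id ℝ E)))
        (x - z) := by
      have h4 : HasFDerivAt η (fderiv ℝ η (-(x - z))) (-(x - z)) :=
        (hη.differentiable (by simp) _).hasFDerivAt
      exact h4.comp (x - z) ((hasFDerivAt_id (x - z)).neg)
    rw [h3.fderiv]
    simp
  rw [h2]; ring

theorem fderiv_smooth_dir {η : E → ℝ} (hη : ContDiff ℝ ∞ η) (v : E) :
    ContDiff ℝ ∞ (fun y => fderiv ℝ η y v) :=
  (hη.fderiv_right (m := ∞) (by simp)).clm_apply contDiff_const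

theorem fderiv_cpt_dir {η : E → ℝ} (hc : HasCompactSupport η) (v : E) :
    HasCompactSupport (fun y => fderiv ℝ η y v) :=
  (hc.fderiv (𝕜 := ℝ)).comp_left (g := fun l : E →L[ℝ] ℝ => l v) (by simp)

theorem DL_Gx {P : Type} [NormedAddCommGroup P] [NormedSpace ℝ P] (ι : P →L[ℝ] E)
    {u : E → ℝ} (hu : LocallyIntegrable u volume) (L : List P) :
    ∀ {η : E → ℝ}, ContDiff ℝ ∞ η → HasCompactSupport η → ∀ t,
      DL L (fun t => Gx u η (ι t)) t = (-1) ^ L.length * Gx u (dW (L.map ι) η) (ι t) := by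
  induction L with
  | nil => intro η h1 h2 t; simp [DL, dW]
  | cons s L ih =>
    intro η h1 h2 t
    have e : (fun t => fderiv ℝ (fun t => Gx u η (ι t)) t s) =
        fun t => - Gx u (fun y => fderiv ℝ η y (ι s)) (ι t) := by
      ext t
      obtain ⟨D, hD, hDv⟩ := hasFDerivAt_Gx hu h1 h2 (ι t)
      have h3 : HasFDerivAt (fun t => Gx u η (ι t)) (D.comp ι) t :=
        hD.comp t ι.hasFDerivAt
      rw [h3.fderiv]
      show D (ι s) = _
      rw [hDv]
    show DL L (fun t => fderiv ℝ (fun t => Gx u η (ι t)) t s) t = _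
    rw [e, DL_neg]
    show - DL L (fun t => Gx u (fun y => (fderiv ℝ η y) (ι s)) (ι t)) t = _
    rw [ih (fderiv_smooth_dir h1 (ι s)) (fderiv_cpt_dir h2 (ι s))]
    simp only [List.map_cons, dW, List.length_cons, pow_succ]
    ring

end E5

open E5 in
/-- extraction of weak derivatives -/
theorem extract : ExtractStmt := by
  intro Ω P _ _ _ ι χ hχ hΩ u f hf hsm x0 r hr hχ1 L
  refine ⟨(DL L f 0).v, (DL L f 0).mem, ?_⟩
  intro η hη
  have hset : ∀ g : E → ℝ, (∀ x, η x = 0 → g x = 0) →
      (∫ x in Metric.ball x0 r ∩ Ω, g x) = ∫ x, g x := by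
    intro g hg
    refine setIntegral_eq_integral_of_forall_compl_eq_zero ?_
    intro x hx
    refine hg x ?_
    by_contra h
    exact hx (hη.supp (subset_tsupport η h))
  have hdW : ∀ (M : List E) (θ : E → ℝ), tsupport (dW M θ) ⊆ tsupport θ := by
    intro M
    induction M with
    | nil => intro θ; exact Subset.rfl
    | cons s M ih =>
      intro θ
      refine (ih _).trans ?_
      refine closure_minimal ?_ (isClosed_tsupport θ)
      intro x hx
      by_contra h
      have : fderiv ℝ θ x = 0 := fderiv_of_notMem_tsupport (𝕜 := ℝ) h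
      exact hx (by simp [this])
  have e1 : (∫ x in Metric.ball x0 r ∩ Ω, fn (DL L f 0).v x * η x) =
      ∫ x, fn (DL L f 0).v x * η x := hset _ (fun x hx => by rw [hx, mul_zero])
  have e2 : (∫ x in Metric.ball x0 r ∩ Ω, fn u.v x * dW (L.map ι) η x) =
      ∫ x, fn u.v x * dW (L.map ι) η x := by
    refine setIntegral_eq_integral_of_forall_compl_eq_zero ?_
    intro x hx
    have : dW (L.map ι) η x = 0 := by
      by_contra h
      exact hx (hη.supp (hdW _ _ (subset_tsupport _ h)))
    rw [this, mul_zero]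
  rw [e1, e2]
  -- the functional
  have hm : MemLp η 2 volume := hη.memLp 2
  let ℓ : VS Ω →L[ℝ] ℝ := (innerSL ℝ (hm.toLp η)).comp (vsFst Ω)
  have hℓ : ∀ w : VS Ω, ℓ w = ∫ x, fn w.v x * η x := by
    intro w
    rw [integral_fn_mul _ hm, real_inner_comm]
    rfl
  have hloc : LocallyIntegrable (fn u.v) volume := (memLp_fn u.v).locallyIntegrable (by norm_num)
  have h1 : (fun t => ℓ (f t)) =ᶠ[𝓝 (0 : P)] fun t => Gx (fn u.v) η (ι t) := by
    filter_upwards [hf] with t ht
    rw [hℓ]
    have h2 : (∫ x, fn (f t).v x * η x) = ∫ x, fn u.v (x + ι t) * η x := by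
      refine integral_congr_ae ?_
      filter_upwards [ht.1] with x hx
      by_cases hxη : η x = 0
      · rw [hxη, mul_zero, mul_zero]
      · have hxb : x ∈ Metric.ball x0 r := (hη.supp (subset_tsupport η hxη)).1
        rw [hx, hχ1 x hxb, one_smul]
    rw [h2]
    unfold Gx
    rw [← integral_add_right_eq_self (μ := volume) (fun z => fn u.v z * η (z - ι t)) (ι t)]
    congr 1; ext x
    rw [add_sub_cancel_right]
  have h3 := (DL_congr L h1).eq_of_nhds
  rw [DL_clm ℓ L hsm, hℓ, DL_Gx ι hloc L hη.smooth hη.cpt, map_zero] at h3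
  rw [h3, List.length_map]
  congr 1
  unfold Gx
  simp only [sub_zero]

end Pool.Agent.H92.BN
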