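import Pool.Agent.H92.BN.Api

/-!
# Tangential regularity: assembly
-/

set_option autoImplicit false

namespace Pool.Agent.H92.BN

open MeasureTheory Set Filter Topology
open scoped ContDiff InnerProductSpace

/-- inclusion `VS Ω → BB` as a linear isometry -/
noncomputable def vsIncl (Ω : Set E) : VS Ω →L[ℝ] BB :=
  LinearMap.mkContinuous
    { toFun := fun u => u.v
      map_add' := fun _ _ => rfl
      map_smul' := fun _ _ => rfl } 1 (fun u => by
        show ‖u.v‖ ≤ 1 * ‖u‖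
        rw [one_mul, VS.norm_def])

@[simp] theorem vsIncl_apply {Ω : Set E} (u : VS Ω) : vsIncl Ω u = u.v := rfl

/-- the value map `VS Ω → L²` -/
noncomputable def vsFst (Ω : Set E) : VS Ω →L[ℝ] Lp ℝ 2 (volume : Measure E) :=
  (WithLp.fstL 2 ℝ _ _).comp (vsIncl Ω)

theorem vsFst_apply {Ω : Set E} (u : VS Ω) : vsFst Ω u = u.v.fst := rfl

/-- pairing `L² → V*` -/
noncomputable def vsPair (Ω : Set E) (M : ℝ) :
    Lp ℝ 2 (volume : Measure E) →L[ℝ] (VS Ω →L[ℝ] ℝ) :=
  M • ((ContinuousLinearMap.compL ℝ (VS Ω) (Lp ℝ 2 (volume : Measure E)) ℝ).flip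
    (vsFst Ω)).comp (innerSL ℝ)

theorem vsPair_apply {Ω : Set E} (M : ℝ) (z : Lp ℝ 2 (volume : Measure E)) (η : VS Ω) :
    vsPair Ω M z η = M * ⟪z, η.v.fst⟫_ℝ := rfl

/-- assembly of tangential regularity -/
theorem tang (hPull : PullStmt) (hOper : OperStmt) (hDeriv : DerivStmt) (hBoot : BootStmt)
    (hExtract : ExtractStmt) : TangStmt := by
  intro Ω hΩ A J hc lam om u hu P _ _ _ ι U hU hinv x0 r hr hball L
  -- the cutoff
  obtain ⟨δ, hδ, hδU⟩ := (isCompact_closedBall x0 r).exists_cthickening_subset_open hU hball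
  have hδU' : Metric.closedBall x0 (r + δ) ⊆ U := by
    refine Subset.trans ?_ hδU
    rw [cthickening_closedBall hδ.le hr.le, add_comm]
  let b : ContDiffBump x0 := ⟨r, r + δ / 2, hr, by linarith⟩
  let χ : E → ℝ := b
  have hbs : tsupport χ = Metric.closedBall x0 (r + δ / 2) := b.tsupport_eq
  have hχ : IsTest univ χ := ⟨b.contDiff, b.hasCompactSupport, subset_univ _⟩
  have hχ1 : ∀ x ∈ Metric.ball x0 r, χ x = 1 := fun x hx =>
    b.one_of_mem_closedBall (Metric.ball_subset_closedBall hx)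
  have hinvt : ∀ᶠ t : P in 𝓝 0, ∀ x, (x + χ x • ι t ∈ Ω ↔ x ∈ Ω) := by
    have h1 : ∀ᶠ t : P in 𝓝 0, ‖ι t‖ < δ / 2 := by
      have : Tendsto (fun t : P => ‖ι t‖) (𝓝 0) (𝓝 ‖ι 0‖) := (ι.continuous.norm).tendsto 0
      rw [map_zero, norm_zero] at this
      exact this.eventually (gt_mem_nhds (by positivity))
    filter_upwards [h1] with t ht x
    by_cases hx : x ∈ tsupport χ
    · rw [hbs, Metric.mem_closedBall] at hx
      have hxU : x ∈ U := hδU' (by
        rw [Metric.mem_closedBall]; linarith)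
      have hyU : x + ι (χ x • t) ∈ U := by
        apply hδU'
        rw [Metric.mem_closedBall]
        have h2 : dist (x + ι (χ x • t)) x0 ≤ dist (x + ι (χ x • t)) x + dist x x0 :=
          dist_triangle _ _ _
        have h3 : dist (x + ι (χ x • t)) x ≤ δ / 2 := by
          rw [dist_eq_norm, add_sub_cancel_left, map_smul, norm_smul]
          have h4 : ‖χ x‖ ≤ 1 := by
            rw [Real.norm_eq_abs, abs_of_nonneg b.nonneg]
            exact b.le_one
          calc ‖χ x‖ * ‖ι t‖ ≤ 1 * (δ / 2) := by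
                gcongr
            _ = δ / 2 := one_mul _
        linarith
      have := hinv x hxU (χ x • t) hyU
      rw [map_smul] at this
      exact this.symm
    · have : χ x = 0 := image_eq_zero_of_notMem_tsupport hx
      rw [this, zero_smul, add_zero]
  obtain ⟨f, hf0, hfp, hfc, hfd, hfs⟩ := hPull Ω P ι χ hχ hinvt (VS.mk u hu.1)
  obtain ⟨M, H, hH, hHf, T, hT⟩ := hOper Ω χ hχ A J hc lam om (VS.mk u hu.1)
  obtain ⟨G, hG, hGf⟩ := hDeriv Ω P ι χ hχ
  have hιt : Tendsto (fun t : P => ι t) (𝓝 0) (𝓝 0) := by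
    have := ι.continuous.tendsto 0
    rwa [map_zero] at this
  have hsmooth : ∀ n : ℕ, ContDiffAt ℝ n f 0 := by
    refine hBoot P (VS Ω) (VS Ω →L[ℝ] ℝ) (Lp ℝ 2 (volume : Measure E)) f
      (fun p => H (ι p.1, p.2)) (vsFst Ω) (vsPair Ω M) G T hfc ?_ ?_ ?_ hG ?_
    · have h1 : ContDiffAt ℝ ∞ (fun p : P × VS Ω => (ι p.1, p.2)) (0, f 0) :=
        ((ι.contDiff.comp contDiff_fst).prodMk contDiff_snd).contDiffAt
      refine ContDiffAt.comp (0, f 0) (g := H) ?_ h1
      show ContDiffAt ℝ ∞ H (ι 0, f 0)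
      rw [map_zero, hf0]
      exact hH
    · show HasFDerivAt (fun w => H (ι 0, w)) (T : VS Ω →L[ℝ] (VS Ω →L[ℝ] ℝ)) (f 0)
      rw [map_zero, hf0]
      exact hT
    · filter_upwards [hιt.eventually hHf, hfs A J hc lam om hu] with t ht hs
      ext η
      show H (ι t, f t) η = _
      rw [ht, hs.2 η.v η.mem, vsPair_apply, vsFst_apply, mI_eq_inner]
      ring
    · filter_upwards [hfd, hGf] with t ⟨D, hD, hDh⟩ hg
      have : D = G t (f t) := by
        ext1 h
        exact Lp.ext ((hDh h).trans (hg (f t) h).symm)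
      rw [← this]
      exact hD
  exact hExtract Ω P ι χ hχ hΩ (VS.mk u hu.1) f hfp hsmooth x0 r hr hχ1 L

end Pool.Agent.H92.BN
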