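import Mathlib
import Pool.Agent.H92.BN.Iface2

/-!
# E7, part A: calculus of weak derivatives
-/

set_option autoImplicit false

namespace Pool.Agent.H92.BN.E7

open MeasureTheory Set Filter Topology Pool.Agent.H92.BN
open scoped ContDiff InnerProductSpace

/-! ## Test functions -/

/-- directional derivative -/
noncomputable def dd (t : E) (η : E → ℝ) : E → ℝ := fun x => fderiv ℝ η x t

theorem contDiff_dd {η : E → ℝ} (h : ContDiff ℝ ∞ η) (t : E) : ContDiff ℝ ∞ (dd t η) := by
  have h1 : ContDiff ℝ ∞ (fderiv ℝ η) := h.fderiv_right (m := ∞) (by norm_cast)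
  exact h1.clm_apply contDiff_const

theorem dd_eq_zero {η : E → ℝ} {x : E} (hx : x ∉ tsupport η) (t : E) : dd t η x = 0 := by
  have h1 : η =ᶠ[𝓝 x] fun _ => (0 : ℝ) := notMem_tsupport_iff_eventuallyEq.1 hx
  unfold dd
  rw [h1.fderiv_eq]
  simp

theorem tsupport_dd (η : E → ℝ) (t : E) : tsupport (dd t η) ⊆ tsupport η := by
  apply closure_minimal _ (isClosed_tsupport η)
  intro x hx
  by_contra hcon
  exact hx (dd_eq_zero hcon t)

theorem isTest_dd {Q : Set E} {η : E → ℝ} (h : IsTest Q η) (t : E) : IsTest Q (dd t η) where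
  smooth := contDiff_dd h.smooth t
  cpt := HasCompactSupport.of_support_subset_isCompact h.cpt.isCompact
    ((subset_tsupport _).trans (tsupport_dd η t))
  supp := (tsupport_dd η t).trans h.supp

theorem isTest_dW {Q : Set E} : ∀ (L : List E) {η : E → ℝ}, IsTest Q η → IsTest Q (dW L η)
  | [], _, h => h
  | t :: L, _, h => isTest_dW L (isTest_dd h t)

theorem contDiff_dW : ∀ (L : List E) {η : E → ℝ}, ContDiff ℝ ∞ η → ContDiff ℝ ∞ (dW L η)
  | [], _, h => h
  | t :: L, _, h => contDiff_dW L (contDiff_dd h t)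

theorem dd_comm {η : E → ℝ} (h : ContDiff ℝ ∞ η) (s t : E) : dd s (dd t η) = dd t (dd s η) := by
  funext x
  have h1 : ContDiff ℝ ∞ (fderiv ℝ η) := h.fderiv_right (m := ∞) (by norm_cast)
  have h2 : DifferentiableAt ℝ (fderiv ℝ η) x := (h1.differentiable (by norm_num)).differentiableAt
  have key : ∀ a b : E, dd a (dd b η) x = (fderiv ℝ (fderiv ℝ η) x a) b := by
    intro a b
    have h3 : HasFDerivAt (fun y => fderiv ℝ η y b)
        ((ContinuousLinearMap.apply ℝ ℝ b).comp (fderiv ℝ (fderiv ℝ η) x)) x :=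
      (ContinuousLinearMap.apply ℝ ℝ b).hasFDerivAt.comp x h2.hasFDerivAt
    change fderiv ℝ (fun y => fderiv ℝ η y b) x a = _
    rw [h3.fderiv]
    rfl
  rw [key, key]
  have h4 : IsSymmSndFDerivAt ℝ η x := by
    apply ContDiffAt.isSymmSndFDerivAt (n := ∞) h.contDiffAt
    rw [minSmoothness_of_isRCLikeNormedField]
    exact WithTop.coe_le_coe.2 (le_top : (2 : ℕ∞) ≤ ⊤)
  exact h4 s t

theorem dW_append : ∀ (L L' : List E) (η : E → ℝ), dW (L ++ L') η = dW L' (dW L η)
  | [], _, _ => rfl
  | _ :: L, L', _ => dW_append L L' _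

theorem dW_perm {L L' : List E} (hp : L.Perm L') : ∀ {η : E → ℝ}, ContDiff ℝ ∞ η →
    dW L η = dW L' η := by
  induction hp with
  | nil => intro η _; rfl
  | cons t _ ih =>
    intro η h
    exact ih (contDiff_dd h t)
  | swap s t L =>
    intro η h
    change dW L (dd s (dd t η)) = dW L (dd t (dd s η))
    rw [dd_comm h]
  | trans _ _ ih1 ih2 =>
    intro η h
    rw [ih1 h, ih2 h]

theorem test_bdd {Q : Set E} {η : E → ℝ} (h : IsTest Q η) : ∃ c : ℝ, 0 ≤ c ∧ ∀ x, |η x| ≤ c := by
  obtain ⟨c, hc⟩ := h.smooth.continuous.bounded_above_of_compact_support h.cpt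
  exact ⟨c, (norm_nonneg _).trans (hc 0), hc⟩

/-! ## Weak derivatives -/

variable {Q : Set E} {f g h : E → ℝ} {L L' : List E}

theorem HasW.perm (hW : HasW Q f L g) (hp : L.Perm L') : HasW Q f L' g := by
  intro η hη
  rw [hW η hη, hp.length_eq, dW_perm hp hη.smooth]

theorem HasW.comp (h1 : HasW Q f L g) (h2 : HasW Q g L' h) : HasW Q f (L' ++ L) h := by
  intro η hη
  rw [h2 η hη, h1 _ (isTest_dW L' hη), dW_append, List.length_append, pow_add]
  ring

theorem HasW.comp' (h1 : HasW Q f L g) (h2 : HasW Q g L' h) : HasW Q f (L ++ L') h :=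
  HasW.perm (HasW.comp h1 h2) List.perm_append_comm

theorem HasW.peel (h1 : HasW Q f L g) (h2 : HasW Q f (L ++ L') h) : HasW Q g L' h := by
  intro η hη
  rw [h2 η hη, h1 _ (isTest_dW L' hη), List.length_append, pow_add,
    dW_perm (List.perm_append_comm : (L ++ L').Perm (L' ++ L)) hη.smooth, dW_append L' L]
  ring

theorem HasW.nil (f : E → ℝ) : HasW Q f [] f := by
  intro η _
  simp [dW]

theorem integrable_mul_test (hf : Integrable f (volume.restrict Q)) {η : E → ℝ}
    (hη : IsTest Q η) : Integrable (fun x => f x * η x) (volume.restrict Q) := by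
  obtain ⟨c, _, hc⟩ := test_bdd hη
  exact hf.mul_bdd (c := c) hη.smooth.continuous.aestronglyMeasurable (ae_of_all _ hc)

theorem HasW.add {f' g' : E → ℝ} (hf : Integrable f (volume.restrict Q))
    (hf' : Integrable f' (volume.restrict Q)) (hg : Integrable g (volume.restrict Q))
    (hg' : Integrable g' (volume.restrict Q)) (h1 : HasW Q f L g) (h2 : HasW Q f' L g') :
    HasW Q (fun x => f x + f' x) L (fun x => g x + g' x) := by
  intro η hη
  have e1 : ∫ x in Q, (g x + g' x) * η x = (∫ x in Q, g x * η x) + ∫ x in Q, g' x * η x := by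
    rw [← integral_add (integrable_mul_test hg hη) (integrable_mul_test hg' hη)]
    congr 1; funext x; ring
  have e2 : ∫ x in Q, (f x + f' x) * dW L η x =
      (∫ x in Q, f x * dW L η x) + ∫ x in Q, f' x * dW L η x := by
    rw [← integral_add (integrable_mul_test hf (isTest_dW L hη))
      (integrable_mul_test hf' (isTest_dW L hη))]
    congr 1; funext x; ring
  rw [e1, e2, h1 η hη, h2 η hη]
  ring

theorem HasW.const_mul (c : ℝ) (h1 : HasW Q f L g) :
    HasW Q (fun x => c * f x) L (fun x => c * g x) := by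
  intro η hη
  have e1 : ∫ x in Q, c * g x * η x = c * ∫ x in Q, g x * η x := by
    rw [← integral_const_mul]; congr 1; funext x; ring
  have e2 : ∫ x in Q, c * f x * dW L η x = c * ∫ x in Q, f x * dW L η x := by
    rw [← integral_const_mul]; congr 1; funext x; ring
  rw [e1, e2, h1 η hη]
  ring

theorem dd_mul {a η : E → ℝ} {x : E} (ha : DifferentiableAt ℝ a x) (hη : DifferentiableAt ℝ η x)
    (t : E) : dd t (fun y => a y * η y) x = dd t a x * η x + a x * dd t η x := by
  unfold dd
  rw [fderiv_fun_mul ha hη]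
  simp only [ContinuousLinearMap.add_apply, ContinuousLinearMap.smul_apply, smul_eq_mul]
  ring

theorem IsTest.smooth_mul {η a : E → ℝ} (ha : ContDiff ℝ ∞ a) (hη : IsTest Q η) :
    IsTest Q (fun x => a x * η x) where
  smooth := ha.mul hη.smooth
  cpt := hη.cpt.mul_left
  supp := (tsupport_mul_subset_right (f := a) (g := η)).trans hη.supp

/-- product with a smooth function, first order -/
theorem HasW.smooth_mul {a : E → ℝ} (ha : ContDiff ℝ ∞ a) {t : E}
    (hf : Integrable f (volume.restrict Q)) (hg : Integrable g (volume.restrict Q))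
    (h1 : HasW Q f [t] g) : HasW Q (fun x => a x * f x) [t] (fun x => a x * g x + dd t a x * f x) := by
  intro η hη
  have hda : ContDiff ℝ ∞ (dd t a) := contDiff_dd ha t
  have t1 := IsTest.smooth_mul ha hη
  have t2 := IsTest.smooth_mul hda hη
  have h2 := h1 _ t1
  simp only [dW, List.length_singleton, pow_one] at h2 ⊢
  have e1 : ∀ x, fderiv ℝ (fun y => a y * η y) x t = dd t a x * η x + a x * fderiv ℝ η x t :=
    fun x => dd_mul (ha.differentiable (by norm_num)).differentiableAt
      (hη.smooth.differentiable (by norm_num)).differentiableAt t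
  have i1 := integrable_mul_test hg t1
  have i2 := integrable_mul_test hf t2
  have i3 : Integrable (fun x => f x * (a x * fderiv ℝ η x t)) (volume.restrict Q) :=
    integrable_mul_test hf (IsTest.smooth_mul ha (isTest_dd hη t))
  have e2 : ∫ x in Q, (a x * g x + dd t a x * f x) * η x =
      (∫ x in Q, g x * (a x * η x)) + ∫ x in Q, f x * (dd t a x * η x) := by
    rw [← integral_add i1 i2]; congr 1; funext x; ring
  have e3 : ∫ x in Q, f x * fderiv ℝ (fun y => a y * η y) x t =
      (∫ x in Q, f x * (dd t a x * η x)) + ∫ x in Q, f x * (a x * fderiv ℝ η x t) := by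
    rw [← integral_add i2 i3]; congr 1; funext x; rw [e1]; ring
  have e4 : ∫ x in Q, a x * f x * fderiv ℝ η x t = ∫ x in Q, f x * (a x * fderiv ℝ η x t) := by
    congr 1; funext x; ring
  rw [e2, h2, e3, e4]
  ring

end Pool.Agent.H92.BN.E7
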