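import Mathlib
import Pool.Agent.H92.BN.ME7_A
import Pool.Agent.H20.Stab.Moll
import Pool.Agent.H20.Stab.Pratt

/-!
# E7, part C: the weak product rule
-/

set_option autoImplicit false

namespace Pool.Agent.H92.BN.E7

open MeasureTheory Set Filter Topology Pool.Agent.H92.BN
open scoped ContDiff InnerProductSpace
open Pool.Agent.H20.Stab (mo ker bs mo_contDiff mo_integrable integral_mo mo_tendsto pratt)

/-- Jensen -/
theorem mo_sq_le (b : ContDiffBump (0 : E)) {F : E → ℝ} (hF : Integrable F)
    (hF2 : Integrable (fun x => F x ^ 2)) (x : E) :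
    (mo b F x) ^ 2 ≤ mo b (fun t => F t ^ 2) x := by
  set c := mo b F x with hc
  have hk1 : ∫ t, ker b (x - t) = 1 := by
    rw [integral_sub_left_eq_self (ker b) volume x]
    exact Pool.Agent.H20.Stab.ker_integral b
  have hk2 : Integrable (fun t => ker b (x - t)) :=
    (Pool.Agent.H20.Stab.ker_integrable b).comp_sub_left x
  have i1 := Pool.Agent.H20.Stab.integrable_mul_ker (b := b) hF2 x
  have i2 := Pool.Agent.H20.Stab.integrable_mul_ker (b := b) hF x
  have h1 : 0 ≤ ∫ t, (F t - c) ^ 2 * ker b (x - t) :=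
    integral_nonneg fun t => mul_nonneg (sq_nonneg _) (Pool.Agent.H20.Stab.ker_nonneg b _)
  have h2 : ∫ t, (F t - c) ^ 2 * ker b (x - t) =
      mo b (fun t => F t ^ 2) x - 2 * c * c + c ^ 2 := by
    have e : ∀ t, (F t - c) ^ 2 * ker b (x - t) =
        F t ^ 2 * ker b (x - t) - 2 * c * (F t * ker b (x - t)) + c ^ 2 * ker b (x - t) :=
      fun t => by ring
    rw [integral_congr_ae (ae_of_all _ e), integral_add, integral_sub, integral_const_mul,
      integral_const_mul, hk1, mul_one]
    · rfl
    · exact i1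
    · exact i2.const_mul _
    · exact i1.sub (i2.const_mul _)
    · exact hk2.const_mul _
  rw [h2] at h1
  nlinarith

/-- convergence of pairings with mollifications -/
theorem conv_pair {F G : E → ℝ} (hF1 : Integrable F) (hF : MemLp F 2 volume)
    (hG : MemLp G 2 volume) {φ : E → ℝ} (hφ : Continuous φ) {c : ℝ} (hc : ∀ x, |φ x| ≤ c) :
    Tendsto (fun m => ∫ x, mo (bs m) F x * G x * φ x) atTop (𝓝 (∫ x, F x * G x * φ x)) := by
  have hc0 : 0 ≤ c := (abs_nonneg _).trans (hc 0)
  have hF2 : Integrable (fun x => F x ^ 2) := hF.integrable_sq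
  have hG2 : Integrable (fun x => G x ^ 2) := hG.integrable_sq
  refine (pratt (f := fun m x => mo (bs m) F x * G x * φ x) (f0 := fun x => F x * G x * φ x)
    (g := fun m x => c * (mo (bs m) (fun t => F t ^ 2) x + G x ^ 2))
    (g0 := fun x => c * (F x ^ 2 + G x ^ 2)) ?_ ?_ ?_ ?_ ?_ ?_ ?_).2
  · intro m
    exact (((mo_contDiff hF1).continuous.aestronglyMeasurable).mul
      hG.aestronglyMeasurable).mul hφ.aestronglyMeasurable
  · intro m
    exact ((mo_integrable hF2).add hG2).const_mul _
  · exact (hF2.add hG2).const_mul _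
  · intro m
    refine ae_of_all _ fun x => ?_
    rw [abs_mul, abs_mul]
    have h1 := mo_sq_le (bs m) hF1 hF2 x
    have h2 : |mo (bs m) F x| * |G x| ≤ (mo (bs m) F x) ^ 2 + G x ^ 2 := by
      rw [← sq_abs (mo (bs m) F x), ← sq_abs (G x)]
      nlinarith [sq_nonneg (|mo (bs m) F x| - |G x|), abs_nonneg (mo (bs m) F x), abs_nonneg (G x)]
    calc |mo (bs m) F x| * |G x| * |φ x| ≤ (mo (bs m) (fun t => F t ^ 2) x + G x ^ 2) * c := by
          apply mul_le_mul (h2.trans (by linarith)) (hc x) (abs_nonneg _)
          have := sq_nonneg (mo (bs m) F x)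
          have := sq_nonneg (G x)
          linarith
      _ = c * (mo (bs m) (fun t => F t ^ 2) x + G x ^ 2) := by ring
  · filter_upwards [mo_tendsto hF1] with x hx
    exact (hx.mul_const _).mul_const _
  · filter_upwards [mo_tendsto hF2] with x hx
    exact (hx.add_const _).const_mul _
  · refine tendsto_const_nhds.congr ?_
    intro m
    rw [integral_const_mul, integral_const_mul, integral_add hF2 hG2,
      integral_add (mo_integrable hF2) hG2, integral_mo hF2]

variable {Q : Set E}

theorem integral_ind_mul (hQ : MeasurableSet Q) (a g φ : E → ℝ) :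
    ∫ x in Q, a x * g x * φ x = ∫ x, a x * Q.indicator g x * φ x := by
  rw [← integral_indicator hQ]
  congr 1
  funext x
  by_cases hx : x ∈ Q
  · rw [indicator_of_mem hx, indicator_of_mem hx]
  · rw [indicator_of_notMem hx, indicator_of_notMem hx]; ring

theorem integral_ind_mul' (hQ : MeasurableSet Q) (f g φ : E → ℝ) :
    ∫ x in Q, f x * g x * φ x = ∫ x, Q.indicator f x * Q.indicator g x * φ x := by
  rw [← integral_indicator hQ]
  congr 1
  funext x
  by_cases hx : x ∈ Q
  · rw [indicator_of_mem hx, indicator_of_mem hx, indicator_of_mem hx]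
  · rw [indicator_of_notMem hx, indicator_of_notMem hx]; ring

theorem conv_pairQ (hQ : MeasurableSet Q) (hQf : volume Q ≠ ⊤) {f g : E → ℝ}
    (hf : MemLp f 2 (volume.restrict Q)) (hg : MemLp g 2 (volume.restrict Q)) {φ : E → ℝ}
    (hφ : Continuous φ) {c : ℝ} (hc : ∀ x, |φ x| ≤ c) :
    Tendsto (fun m => ∫ x in Q, mo (bs m) (Q.indicator f) x * g x * φ x) atTop
      (𝓝 (∫ x in Q, f x * g x * φ x)) := by
  have : IsFiniteMeasure (volume.restrict Q) := ⟨by rw [Measure.restrict_apply_univ]; exact hQf.lt_top⟩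
  have h1 : MemLp (Q.indicator f) 2 volume := (memLp_indicator_iff_restrict hQ).2 hf
  have h2 : MemLp (Q.indicator g) 2 volume := (memLp_indicator_iff_restrict hQ).2 hg
  have h3 : Integrable (Q.indicator f) := (integrable_indicator_iff hQ).2 (hf.integrable (by norm_num))
  rw [integral_ind_mul' hQ]
  refine (conv_pair h3 h1 h2 hφ hc).congr fun m => ?_
  rw [integral_ind_mul hQ]

/-- the derivative of the mollification of a function with a weak derivative -/
theorem dd_mo (hQo : IsOpen Q) (hQf : volume Q ≠ ⊤) {f g : E → ℝ}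
    (hf : MemLp f 2 (volume.restrict Q)) {i : Fin 3} (h1 : HasW Q f [ee i] g)
    (b : ContDiffBump (0 : E)) {x : E} (hx : Metric.closedBall x b.rOut ⊆ Q) :
    dd (ee i) (mo b (Q.indicator f)) x = mo b (Q.indicator g) x := by
  have : IsFiniteMeasure (volume.restrict Q) := ⟨by rw [Measure.restrict_apply_univ]; exact hQf.lt_top⟩
  have hQ := hQo.measurableSet
  have h3 : Integrable (Q.indicator f) := (integrable_indicator_iff hQ).2 (hf.integrable (by norm_num))
  refine Pool.Agent.H20.Stab.pd_mo_of_weak (A := Q) h3 i ?_ hx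
  intro φ hφ
  have hφ' : IsTest Q φ := ⟨hφ.smooth, hφ.compact, hφ.sub⟩
  have h4 := h1 φ hφ'
  simp only [dW, List.length_singleton, pow_one] at h4
  have e1 : ∫ t, Q.indicator f t * Pool.Agent.H94.Stab.pd i φ t =
      ∫ x in Q, f x * fderiv ℝ φ x (ee i) := by
    rw [← integral_indicator hQ]
    congr 1
    funext x
    by_cases hx : x ∈ Q
    · rw [indicator_of_mem hx, indicator_of_mem hx]; rfl
    · rw [indicator_of_notMem hx, indicator_of_notMem hx]; ring
  have e2 : ∫ t, Q.indicator g t * φ t = ∫ x in Q, g x * φ x := by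
    rw [← integral_indicator hQ]
    congr 1
    funext x
    by_cases hx : x ∈ Q
    · rw [indicator_of_mem hx, indicator_of_mem hx]
    · rw [indicator_of_notMem hx, indicator_of_notMem hx]; ring
  rw [e1, e2, h4]
  ring

/-- the weak product rule -/
theorem HasW.mul (hQo : IsOpen Q) (hQf : volume Q ≠ ⊤) {f g h k : E → ℝ} {i : Fin 3}
    (hf : MemLp f 2 (volume.restrict Q)) (hg : MemLp g 2 (volume.restrict Q))
    (hh : MemLp h 2 (volume.restrict Q)) (hk : MemLp k 2 (volume.restrict Q))
    (h1 : HasW Q f [ee i] g) (h2 : HasW Q h [ee i] k) :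
    HasW Q (fun x => f x * h x) [ee i] (fun x => g x * h x + f x * k x) := by
  have : IsFiniteMeasure (volume.restrict Q) := ⟨by rw [Measure.restrict_apply_univ]; exact hQf.lt_top⟩
  have hQ := hQo.measurableSet
  intro η hη
  have hi : ∀ {u : E → ℝ}, MemLp u 2 (volume.restrict Q) → Integrable u (volume.restrict Q) :=
    fun hu => hu.integrable (by norm_num)
  have hFi : Integrable (Q.indicator f) := (integrable_indicator_iff hQ).2 (hi hf)
  obtain ⟨c, -, hc⟩ := test_bdd hη
  obtain ⟨c', -, hc'⟩ := test_bdd (isTest_dd hη (ee i))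
  -- the radius
  obtain ⟨ε, hε, hεQ⟩ : ∃ ε > 0, ∀ x ∈ tsupport η, Metric.closedBall x ε ⊆ Q := by
    obtain ⟨ε, hε, h1⟩ := hη.cpt.isCompact.exists_cthickening_subset_open hQo hη.supp
    refine ⟨ε, hε, fun x hx => (Metric.closedBall_subset_cthickening hx ε).trans h1⟩
  have hm : ∀ᶠ m in atTop, (bs m : ContDiffBump (0 : E)).rOut ≤ ε := by
    have := Pool.Agent.H20.Stab.bs_tendsto (n := 3)
    filter_upwards [this.eventually_lt_const hε] with m hm
    exact hm.le
  -- the identity for the mollification
  have key : ∀ᶠ m in atTop, (∫ x in Q, mo (bs m) (Q.indicator f) x * k x * η x) +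
      (∫ x in Q, mo (bs m) (Q.indicator g) x * h x * η x) =
      - ∫ x in Q, mo (bs m) (Q.indicator f) x * h x * dd (ee i) η x := by
    filter_upwards [hm] with m hm
    have hs : ContDiff ℝ ∞ (mo (bs m) (Q.indicator f)) := mo_contDiff hFi
    have h3 := HasW.smooth_mul hs (hi hh) (hi hk) h2 η hη
    simp only [dW, List.length_singleton, pow_one] at h3
    have t1 := IsTest.smooth_mul hs hη
    have t2 := IsTest.smooth_mul (contDiff_dd hs (ee i)) hη
    have e1 : ∫ x in Q, (mo (bs m) (Q.indicator f) x * k x +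
        dd (ee i) (mo (bs m) (Q.indicator f)) x * h x) * η x =
        (∫ x in Q, mo (bs m) (Q.indicator f) x * k x * η x) +
          ∫ x in Q, dd (ee i) (mo (bs m) (Q.indicator f)) x * h x * η x := by
      rw [← integral_add]
      · congr 1; funext x; ring
      · exact (integrable_mul_test (hi hk) t1).congr (ae_of_all _ fun x => by ring)
      · exact (integrable_mul_test (hi hh) t2).congr (ae_of_all _ fun x => by ring)
    have e2 : ∫ x in Q, dd (ee i) (mo (bs m) (Q.indicator f)) x * h x * η x =
        ∫ x in Q, mo (bs m) (Q.indicator g) x * h x * η x := by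
      apply integral_congr_ae
      refine ae_of_all _ fun x => ?_
      by_cases hx : x ∈ tsupport η
      · simp only
        rw [dd_mo hQo hQf hf h1 (bs m) ((Metric.closedBall_subset_closedBall hm).trans (hεQ x hx))]
      · simp only
        rw [image_eq_zero_of_notMem_tsupport hx, mul_zero, mul_zero]
    rw [e1, e2] at h3
    rw [h3]
    have e3 : ∫ x in Q, mo (bs m) (Q.indicator f) x * h x * fderiv ℝ η x (ee i) =
        ∫ x in Q, mo (bs m) (Q.indicator f) x * h x * dd (ee i) η x := rfl
    rw [e3]
    ring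
  have l1 := (conv_pairQ hQ hQf hf hk hη.smooth.continuous hc).add
    (conv_pairQ hQ hQf hg hh hη.smooth.continuous hc)
  have l2 := (conv_pairQ hQ hQf hf hh (isTest_dd hη (ee i)).smooth.continuous hc').neg
  have l3 := tendsto_nhds_unique (l1.congr' key) l2
  simp only [dW, List.length_singleton, pow_one]
  have i1 : Integrable (fun x => f x * k x) (volume.restrict Q) := hf.integrable_mul hk
  have i2 : Integrable (fun x => g x * h x) (volume.restrict Q) := hg.integrable_mul hh
  have e1 : ∫ x in Q, (g x * h x + f x * k x) * η x =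
      (∫ x in Q, f x * k x * η x) + ∫ x in Q, g x * h x * η x := by
    rw [← integral_add (integrable_mul_test i1 hη) (integrable_mul_test i2 hη)]
    congr 1; funext x; ring
  rw [e1, l3]
  have e3 : ∫ x in Q, f x * h x * fderiv ℝ η x (ee i) =
        ∫ x in Q, f x * h x * dd (ee i) η x := rfl
  rw [e3]
  ring

end Pool.Agent.H92.BN.E7
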