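import Mathlib
import Pool.Agent.H92.BN.ME7_C

/-!
# E7, part B: sup bound on a box
-/

set_option autoImplicit false

namespace Pool.Agent.H92.BN.E7

open MeasureTheory Set Filter Topology Pool.Agent.H92.BN
open scoped ContDiff InnerProductSpace ENNReal
open Pool.Agent.H20.Stab (mo ker bs mo_contDiff mo_integrable integral_mo mo_tendsto)

/-- the point with coordinates `a, b, c` -/
noncomputable def pt (a b c : ℝ) : E := !₂[a, b, c]

@[simp] theorem pt_0 (a b c : ℝ) : (pt a b c) 0 = a := rfl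
@[simp] theorem pt_1 (a b c : ℝ) : (pt a b c) 1 = b := rfl
@[simp] theorem pt_2 (a b c : ℝ) : (pt a b c) 2 = c := rfl

theorem pt_eta (x : E) : pt (x 0) (x 1) (x 2) = x := by
  ext i
  fin_cases i <;> rfl

theorem lintegral_E {G : E → ℝ≥0∞} (hG : Measurable G) :
    ∫⁻ x, G x = ∫⁻ a, ∫⁻ b, ∫⁻ c, G (pt a b c) := by
  have e1 : ∫⁻ x, G x = ∫⁻ y : Fin 3 → ℝ, G (WithLp.toLp 2 y) :=
    ((PiLp.volume_preserving_toLp (Fin 3)).lintegral_comp hG).symm
  have hm1 : Measurable (fun y : Fin 3 → ℝ => G (WithLp.toLp 2 y)) :=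
    hG.comp (PiLp.volume_preserving_toLp (Fin 3)).measurable
  set e := MeasurableEquiv.piFinSuccAbove (fun _ : Fin 3 => ℝ) 0 with he
  have hp : MeasurePreserving e.symm volume volume :=
    (volume_preserving_piFinSuccAbove (fun _ : Fin 3 => ℝ) 0).symm
  have e2 : ∫⁻ y : Fin 3 → ℝ, G (WithLp.toLp 2 y) =
      ∫⁻ p : ℝ × (Fin 2 → ℝ), G (WithLp.toLp 2 (e.symm p)) := (hp.lintegral_comp hm1).symm
  have hm2 : Measurable (fun p : ℝ × (Fin 2 → ℝ) => G (WithLp.toLp 2 (e.symm p))) :=
    hm1.comp e.symm.measurable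
  have e3 : ∫⁻ p : ℝ × (Fin 2 → ℝ), G (WithLp.toLp 2 (e.symm p)) =
      ∫⁻ a : ℝ, ∫⁻ z : Fin 2 → ℝ, G (WithLp.toLp 2 (e.symm (a, z))) :=
    lintegral_prod _ hm2.aemeasurable
  rw [e1, e2, e3]
  apply lintegral_congr
  intro a
  have hq : MeasurePreserving (@MeasurableEquiv.finTwoArrow ℝ _).symm volume volume :=
    (volume_preserving_finTwoArrow ℝ).symm
  have hm3 : Measurable (fun z : Fin 2 → ℝ => G (WithLp.toLp 2 (e.symm (a, z)))) :=
    hm2.comp measurable_prodMk_left
  have e4 : ∫⁻ z : Fin 2 → ℝ, G (WithLp.toLp 2 (e.symm (a, z))) =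
      ∫⁻ w : ℝ × ℝ, G (WithLp.toLp 2 (e.symm (a, (@MeasurableEquiv.finTwoArrow ℝ _).symm w))) :=
    (hq.lintegral_comp hm3).symm
  have hm4 : Measurable (fun w : ℝ × ℝ =>
      G (WithLp.toLp 2 (e.symm (a, (@MeasurableEquiv.finTwoArrow ℝ _).symm w)))) :=
    hm3.comp (@MeasurableEquiv.finTwoArrow ℝ _).symm.measurable
  rw [e4]
  have e5 : ∫⁻ w : ℝ × ℝ, G (WithLp.toLp 2 (e.symm (a, (@MeasurableEquiv.finTwoArrow ℝ _).symm w))) =
      ∫⁻ b : ℝ, ∫⁻ c : ℝ,
        G (WithLp.toLp 2 (e.symm (a, (@MeasurableEquiv.finTwoArrow ℝ _).symm (b, c)))) :=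
    lintegral_prod _ hm4.aemeasurable
  rw [e5]
  apply lintegral_congr
  intro b
  apply lintegral_congr
  intro c
  congr 1
  ext i
  fin_cases i <;> rfl

/-- one-dimensional estimate -/
theorem one_dim {a b : ℝ} (hab : a < b) {v v' : ℝ → ℝ} (hv : ∀ t ∈ Ioo a b, HasDerivAt v (v' t) t)
    (hc : Continuous v) (hc' : Continuous v') {t : ℝ} (ht : t ∈ Ioo a b) :
    ‖v t‖ₑ ≤ ENNReal.ofReal (1 + 1 / (b - a)) *
      ∫⁻ s in Ioo a b, (‖v s‖ₑ + ‖v' s‖ₑ) := by
  have hba : 0 < b - a := by linarith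
  -- real inequality
  have hiv' : IntegrableOn (fun s => |v' s|) (Ioo a b) :=
    (hc'.abs.integrableOn_Icc (a := a) (b := b)).mono_set Ioo_subset_Icc_self
  have hiv : IntegrableOn (fun s => |v s|) (Ioo a b) :=
    (hc.abs.integrableOn_Icc (a := a) (b := b)).mono_set Ioo_subset_Icc_self
  have h1 : ∀ s ∈ Ioo a b, |v t| ≤ |v s| + ∫ y in Ioo a b, |v' y| := by
    intro s hs
    have hsub : uIcc s t ⊆ Ioo a b := by
      intro y hy
      rw [mem_uIcc] at hy
      rcases hy with ⟨h1, h2⟩ | ⟨h1, h2⟩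
      · exact ⟨lt_of_lt_of_le hs.1 h1, lt_of_le_of_lt h2 ht.2⟩
      · exact ⟨lt_of_lt_of_le ht.1 h1, lt_of_le_of_lt h2 hs.2⟩
    have h2 : ∫ y in s..t, v' y = v t - v s :=
      intervalIntegral.integral_eq_sub_of_hasDerivAt (fun y hy => hv y (hsub hy))
        (hc'.intervalIntegrable _ _)
    have h3 : |∫ y in s..t, v' y| ≤ ∫ y in Ioo a b, |v' y| := by
      refine (intervalIntegral.norm_integral_le_integral_norm_uIoc (f := v') (a := s) (b := t)
        (μ := volume)).trans ?_
      apply setIntegral_mono_set hiv' (ae_of_all _ fun y => abs_nonneg _)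
      apply LE.le.eventuallyLE
      exact uIoc_subset_uIcc.trans hsub
    rw [h2] at h3
    have h4 : |v t| ≤ |v s| + |v t - v s| := by
      have := abs_add_le (v s) (v t - v s)
      rwa [add_sub_cancel] at this
    linarith
  have h2 : (b - a) * |v t| ≤ (∫ s in Ioo a b, |v s|) + (b - a) * ∫ y in Ioo a b, |v' y| := by
    have h3 : ∫ _s in Ioo a b, |v t| ≤ ∫ s in Ioo a b, (|v s| + ∫ y in Ioo a b, |v' y|) := by
      apply setIntegral_mono_on
      · exact integrableOn_const (by simp)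
      · exact hiv.add (integrableOn_const (by simp))
      · exact measurableSet_Ioo
      · exact h1
    rw [integral_add hiv (integrableOn_const (by simp)), setIntegral_const, setIntegral_const] at h3
    simp only [Real.volume_real_Ioo_of_le hab.le, smul_eq_mul] at h3
    exact h3
  have hA0 : 0 ≤ ∫ s in Ioo a b, |v s| := integral_nonneg fun s => abs_nonneg _
  have hB0 : 0 ≤ ∫ s in Ioo a b, |v' s| := integral_nonneg fun s => abs_nonneg _
  have h3 : |v t| ≤ (1 + 1 / (b - a)) * ((∫ s in Ioo a b, |v s|) + ∫ y in Ioo a b, |v' y|) := by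
    have h4 : |v t| ≤ (1 / (b - a)) * (∫ s in Ioo a b, |v s|) + ∫ y in Ioo a b, |v' y| := by
      rw [← mul_le_mul_iff_right₀ hba]
      refine h2.trans (le_of_eq ?_)
      field_simp
    have h5 : 0 ≤ 1 / (b - a) := by positivity
    nlinarith [mul_nonneg h5 hB0]
  -- to lintegral
  have e1 : ∫⁻ s in Ioo a b, (‖v s‖ₑ + ‖v' s‖ₑ) =
      ENNReal.ofReal ((∫ s in Ioo a b, |v s|) + ∫ y in Ioo a b, |v' y|) := by
    rw [← integral_add hiv hiv', ofReal_integral_eq_lintegral_ofReal
      (f := fun s => |v s| + |v' s|) (hiv.add hiv')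
      (ae_of_all _ fun s => add_nonneg (abs_nonneg _) (abs_nonneg _))]
    apply lintegral_congr
    intro s
    rw [ENNReal.ofReal_add (abs_nonneg _) (abs_nonneg _), Real.enorm_eq_ofReal_abs,
      Real.enorm_eq_ofReal_abs]
  rw [e1, ← ENNReal.ofReal_mul (by positivity), Real.enorm_eq_ofReal_abs]
  exact ENNReal.ofReal_le_ofReal h3

/-- the box `∏ (a i, b i)` -/
def box (a b : Fin 3 → ℝ) : Set E := {x | ∀ i, x i ∈ Ioo (a i) (b i)}

theorem isOpen_box (a b : Fin 3 → ℝ) : IsOpen (box a b) := by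
  have h : box a b = ⋂ i, {x : E | x i ∈ Ioo (a i) (b i)} := by
    ext x; simp [box]
  rw [h]
  apply isOpen_iInter_of_finite
  intro i
  exact isOpen_Ioo.preimage (by fun_prop)

theorem continuous_pt_0 (b c : ℝ) : Continuous (fun t => pt t b c) := by
  apply (PiLp.continuous_toLp 2 _).comp
  apply continuous_pi
  intro i
  fin_cases i <;> simp <;> fun_prop

theorem continuous_pt_1 (a c : ℝ) : Continuous (fun t => pt a t c) := by
  apply (PiLp.continuous_toLp 2 _).comp
  apply continuous_pi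
  intro i
  fin_cases i <;> simp <;> fun_prop

theorem continuous_pt_2 (a b : ℝ) : Continuous (fun t => pt a b t) := by
  apply (PiLp.continuous_toLp 2 _).comp
  apply continuous_pi
  intro i
  fin_cases i <;> simp <;> fun_prop

theorem pt_0_add (a b c s : ℝ) : pt (a + s) b c = pt a b c + s • ee 0 := by
  ext i
  fin_cases i <;> simp [pt, ee]

theorem pt_1_add (a b c s : ℝ) : pt a (b + s) c = pt a b c + s • ee 1 := by
  ext i
  fin_cases i <;> simp [pt, ee]

theorem pt_2_add (a b c s : ℝ) : pt a b (c + s) = pt a b c + s • ee 2 := by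
  ext i
  fin_cases i <;> simp [pt, ee]

theorem hasDerivAt_of_line {w : E → ℝ} {x t : E} {γ : ℝ → E} {a : ℝ}
    (hw : DifferentiableAt ℝ w x) (hγ : ∀ s, γ (a + s) = x + s • t) :
    HasDerivAt (fun s => w (γ s)) (dd t w x) a := by
  have h1 : HasDerivAt (fun s : ℝ => w (x + s • t)) (dd t w x) 0 :=
    hw.hasFDerivAt.hasLineDerivAt t
  have h2 : HasDerivAt (fun s : ℝ => s - a) 1 a := (hasDerivAt_id a).sub_const a
  have h3 : HasDerivAt (fun s : ℝ => w (x + s • t)) (dd t w x) (a - a) := by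
    rw [sub_self]; exact h1
  have h4 := HasDerivAt.comp (h₂ := fun s : ℝ => w (x + s • t)) (h := fun s : ℝ => s - a) a h3 h2
  rw [mul_one] at h4
  refine h4.congr_of_eventuallyEq (Filter.Eventually.of_forall fun s => ?_)
  simp only [Function.comp_apply]
  rw [← hγ, add_sub_cancel]

/-- sup estimate for smooth functions on a box -/
theorem sup_smooth {a b : Fin 3 → ℝ} (hab : ∀ i, a i < b i) {W : Bool → Bool → Bool → E → ℝ}
    (hW : ∀ i j k, ContDiff ℝ ∞ (W i j k))
    (h0 : ∀ x ∈ box a b, dd (ee 0) (W false false false) x = W true false false x)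
    (h1 : ∀ i, ∀ x ∈ box a b, dd (ee 1) (W i false false) x = W i true false x)
    (h2 : ∀ i j, ∀ x ∈ box a b, dd (ee 2) (W i j false) x = W i j true x)
    {x : E} (hx : x ∈ box a b) :
    ‖W false false false x‖ₑ ≤ ENNReal.ofReal (1 + 1 / (b 0 - a 0)) *
      (ENNReal.ofReal (1 + 1 / (b 1 - a 1)) * (ENNReal.ofReal (1 + 1 / (b 2 - a 2)) *
        ∑ i, ∑ j, ∑ k, ∫⁻ y in box a b, ‖W i j k y‖ₑ)) := by
  set C0 := ENNReal.ofReal (1 + 1 / (b 0 - a 0)) with hC0
  set C1 := ENNReal.ofReal (1 + 1 / (b 1 - a 1)) with hC1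
  set C2 := ENNReal.ofReal (1 + 1 / (b 2 - a 2)) with hC2
  have hcW : ∀ i j k, Continuous (W i j k) := fun i j k => (hW i j k).continuous
  have hmem : ∀ {p q s : ℝ}, p ∈ Ioo (a 0) (b 0) → q ∈ Ioo (a 1) (b 1) → s ∈ Ioo (a 2) (b 2) →
      pt p q s ∈ box a b := by
    intro p q s hp hq hs i
    fin_cases i
    · exact hp
    · exact hq
    · exact hs
  -- direction 2
  have s2 : ∀ i j, ∀ p ∈ Ioo (a 0) (b 0), ∀ q ∈ Ioo (a 1) (b 1), ∀ s ∈ Ioo (a 2) (b 2),
      ‖W i j false (pt p q s)‖ₑ ≤ C2 * ∫⁻ s in Ioo (a 2) (b 2), ∑ k, ‖W i j k (pt p q s)‖ₑ := by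
    intro i j p hp q hq s hs
    have := one_dim (hab 2) (v := fun s => W i j false (pt p q s))
      (v' := fun s => W i j true (pt p q s)) (fun t ht => by
        have h3 := hasDerivAt_of_line (w := W i j false) (x := pt p q t) (t := ee 2)
          (γ := fun s => pt p q s) (a := t)
          ((hW i j false).differentiable (by norm_num)).differentiableAt
          (fun s => pt_2_add _ _ _ _)
        rwa [h2 i j _ (hmem hp hq ht)] at h3)
      ((hcW i j false).comp (continuous_pt_2 _ _)) ((hcW i j true).comp (continuous_pt_2 _ _)) hs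
    refine this.trans (le_of_eq ?_)
    congr 1
    apply lintegral_congr
    intro s
    rw [Fintype.sum_bool, add_comm]
  have s1 : ∀ i, ∀ p ∈ Ioo (a 0) (b 0), ∀ q ∈ Ioo (a 1) (b 1), ∀ s ∈ Ioo (a 2) (b 2),
      ‖W i false false (pt p q s)‖ₑ ≤ C1 * ∫⁻ q in Ioo (a 1) (b 1),
        ∑ j, ‖W i j false (pt p q s)‖ₑ := by
    intro i p hp q hq s hs
    have := one_dim (hab 1) (v := fun q => W i false false (pt p q s))
      (v' := fun q => W i true false (pt p q s)) (fun t ht => by
        have h3 := hasDerivAt_of_line (w := W i false false) (x := pt p t s) (t := ee 1)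
          (γ := fun q => pt p q s) (a := t)
          ((hW i false false).differentiable (by norm_num)).differentiableAt
          (fun s => pt_1_add _ _ _ _)
        rwa [h1 i _ (hmem hp ht hs)] at h3)
      ((hcW i false false).comp (continuous_pt_1 _ _))
      ((hcW i true false).comp (continuous_pt_1 _ _)) hq
    refine this.trans (le_of_eq ?_)
    congr 1
    apply lintegral_congr
    intro s
    rw [Fintype.sum_bool, add_comm]
  have s0 : ∀ p ∈ Ioo (a 0) (b 0), ∀ q ∈ Ioo (a 1) (b 1), ∀ s ∈ Ioo (a 2) (b 2),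
      ‖W false false false (pt p q s)‖ₑ ≤ C0 * ∫⁻ p in Ioo (a 0) (b 0),
        ∑ i, ‖W i false false (pt p q s)‖ₑ := by
    intro p hp q hq s hs
    have := one_dim (hab 0) (v := fun p => W false false false (pt p q s))
      (v' := fun p => W true false false (pt p q s)) (fun t ht => by
        have h3 := hasDerivAt_of_line (w := W false false false) (x := pt t q s) (t := ee 0)
          (γ := fun p => pt p q s) (a := t)
          ((hW false false false).differentiable (by norm_num)).differentiableAt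
          (fun s => pt_0_add _ _ _ _)
        rwa [h0 _ (hmem ht hq hs)] at h3)
      ((hcW false false false).comp (continuous_pt_0 _ _))
      ((hcW true false false).comp (continuous_pt_0 _ _)) hp
    refine this.trans (le_of_eq ?_)
    congr 1
    apply lintegral_congr
    intro s
    rw [Fintype.sum_bool, add_comm]
  -- total integral
  have hmeas : ∀ i j k, Measurable (fun y => ‖W i j k y‖ₑ) := fun i j k =>
    (hcW i j k).measurable.enorm
  set T : E → ℝ≥0∞ := fun y => ∑ i, ∑ j, ∑ k, ‖W i j k y‖ₑ with hT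
  have hTm : Measurable T := Finset.measurable_fun_sum _ fun i _ =>
    Finset.measurable_fun_sum _ fun j _ => Finset.measurable_fun_sum _ fun k _ => hmeas i j k
  have htot : ∫⁻ y in box a b, T y =
      ∫⁻ p in Ioo (a 0) (b 0), ∫⁻ q in Ioo (a 1) (b 1), ∫⁻ s in Ioo (a 2) (b 2),
        T (pt p q s) := by
    rw [← lintegral_indicator (isOpen_box a b).measurableSet,
      lintegral_E (hTm.indicator (isOpen_box a b).measurableSet),
      ← lintegral_indicator measurableSet_Ioo]
    apply lintegral_congr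
    intro p
    by_cases hp : p ∈ Ioo (a 0) (b 0)
    · rw [indicator_of_mem hp, ← lintegral_indicator measurableSet_Ioo]
      apply lintegral_congr
      intro q
      by_cases hq : q ∈ Ioo (a 1) (b 1)
      · rw [indicator_of_mem hq, ← lintegral_indicator measurableSet_Ioo]
        apply lintegral_congr
        intro s
        by_cases hs : s ∈ Ioo (a 2) (b 2)
        · rw [indicator_of_mem hs, indicator_of_mem (hmem hp hq hs)]
        · rw [indicator_of_notMem hs, indicator_of_notMem (fun h : pt p q s ∈ box a b => hs (h 2))]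
      · rw [indicator_of_notMem hq]
        have : ∀ s, (box a b).indicator T (pt p q s) = 0 := fun s =>
          indicator_of_notMem (fun h : pt p q s ∈ box a b => hq (h 1)) _
        simp [this]
    · rw [indicator_of_notMem hp]
      have : ∀ q s, (box a b).indicator T (pt p q s) = 0 := fun q s =>
        indicator_of_notMem (fun h : pt p q s ∈ box a b => hp (h 0)) _
      simp [this]
  have s2' : ∀ p ∈ Ioo (a 0) (b 0), ∀ q ∈ Ioo (a 1) (b 1), ∀ s ∈ Ioo (a 2) (b 2),
      ∑ i, ∑ j, ‖W i j false (pt p q s)‖ₑ ≤ C2 * ∫⁻ s in Ioo (a 2) (b 2), T (pt p q s) := by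
    intro p hp q hq s hs
    have e1 : ∫⁻ s in Ioo (a 2) (b 2), T (pt p q s) =
        ∑ i, ∑ j, ∫⁻ s in Ioo (a 2) (b 2), ∑ k, ‖W i j k (pt p q s)‖ₑ := by
      have hm : ∀ i j k, Measurable (fun s => ‖W i j k (pt p q s)‖ₑ) := fun i j k =>
        (hmeas i j k).comp (continuous_pt_2 p q).measurable
      rw [hT, lintegral_finsetSum _ fun i _ => Finset.measurable_fun_sum _ fun j _ =>
        Finset.measurable_fun_sum _ fun k _ => hm i j k]
      refine Finset.sum_congr rfl fun i _ => ?_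
      rw [lintegral_finsetSum _ fun j _ => Finset.measurable_fun_sum _ fun k _ => hm i j k]
    rw [e1, Finset.mul_sum]
    refine Finset.sum_le_sum fun i _ => ?_
    rw [Finset.mul_sum]
    exact Finset.sum_le_sum fun j _ => s2 i j p hp q hq s hs
  have s1' : ∀ p ∈ Ioo (a 0) (b 0), ∀ q ∈ Ioo (a 1) (b 1), ∀ s ∈ Ioo (a 2) (b 2),
      ∑ i, ‖W i false false (pt p q s)‖ₑ ≤ C1 * ∫⁻ q in Ioo (a 1) (b 1),
        ∑ i, ∑ j, ‖W i j false (pt p q s)‖ₑ := by
    intro p hp q hq s hs
    have hm : ∀ i j, Measurable (fun q => ‖W i j false (pt p q s)‖ₑ) := fun i j =>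
        (hmeas i j false).comp (continuous_pt_1 p s).measurable
    rw [lintegral_finsetSum _ fun i _ => Finset.measurable_fun_sum _ fun j _ => hm i j,
      Finset.mul_sum]
    exact Finset.sum_le_sum fun i _ => s1 i p hp q hq s hs
  have hTsum : ∫⁻ y in box a b, T y = ∑ i, ∑ j, ∑ k, ∫⁻ y in box a b, ‖W i j k y‖ₑ := by
    rw [hT, lintegral_finsetSum _ fun i _ => Finset.measurable_fun_sum _ fun j _ =>
      Finset.measurable_fun_sum _ fun k _ => hmeas i j k]
    refine Finset.sum_congr rfl fun i _ => ?_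
    rw [lintegral_finsetSum _ fun j _ => Finset.measurable_fun_sum _ fun k _ => hmeas i j k]
    refine Finset.sum_congr rfl fun j _ => ?_
    rw [lintegral_finsetSum _ fun k _ => hmeas i j k]
  rw [← hTsum, htot, ← pt_eta x]
  have hx0 := hx 0
  have hx1 := hx 1
  have hx2 := hx 2
  refine (s0 _ hx0 _ hx1 _ hx2).trans ?_
  refine mul_le_mul_right ?_ C0
  rw [← lintegral_const_mul' C2 _ ENNReal.ofReal_ne_top,
    ← lintegral_const_mul' C1 _ ENNReal.ofReal_ne_top]
  apply setLIntegral_mono' measurableSet_Ioo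
  intro p hp
  refine (s1' p hp _ hx1 _ hx2).trans ?_
  refine mul_le_mul_right ?_ C1
  rw [← lintegral_const_mul' C2 _ ENNReal.ofReal_ne_top]
  apply setLIntegral_mono' measurableSet_Ioo
  intro q hq
  exact s2' p hp q hq _ hx2

end Pool.Agent.H92.BN.E7
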