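import Mathlib
import Pool.Agent.H92.BN.ME7_C

/-!
# E7, part D: classes of functions with weak derivatives in `L²`, limited in direction `2`
-/

set_option autoImplicit false

namespace Pool.Agent.H92.BN.E7

open MeasureTheory Set Filter Topology Pool.Agent.H92.BN
open scoped ContDiff InnerProductSpace

/-- `f ∈ L²(Q)`, and all weak derivatives with at most `k` letters `2` are in `L²(Q)` -/
def Rk (Q : Set E) (k : ℕ) (f : E → ℝ) : Prop :=
  MemLp f 2 (volume.restrict Q) ∧ ∀ L : List (Fin 3), L.count 2 ≤ k →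
    ∃ g : E → ℝ, MemLp g 2 (volume.restrict Q) ∧ HasW Q f (L.map ee) g

variable {Q : Set E} {f g h : E → ℝ} {k l : ℕ}

theorem Rk.mono (hkl : k ≤ l) (hf : Rk Q l f) : Rk Q k f :=
  ⟨hf.1, fun L hL => hf.2 L (hL.trans hkl)⟩

theorem Rk.deriv {i : Fin 3} (hf : Rk Q k f) (hg : MemLp g 2 (volume.restrict Q))
    (h1 : HasW Q f [ee i] g) (hkl : [i].count 2 + l ≤ k) : Rk Q l g := by
  refine ⟨hg, fun L hL => ?_⟩
  obtain ⟨u, hu, hW⟩ := hf.2 (i :: L) (by
    rw [List.count_cons]
    rw [List.count_cons, List.count_nil] at hkl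
    omega)
  exact ⟨u, hu, HasW.peel h1 hW⟩

theorem Rk.congr (hf : Rk Q k f) (hfg : f =ᵐ[volume.restrict Q] g) : Rk Q k g := by
  refine ⟨(memLp_congr_ae hfg).1 hf.1, fun L hL => ?_⟩
  obtain ⟨u, hu, hW⟩ := hf.2 L hL
  refine ⟨u, hu, fun η hη => ?_⟩
  rw [hW η hη]
  congr 1
  apply integral_congr_ae
  filter_upwards [hfg] with x hx
  rw [hx]

section Fin

variable (hQf : volume Q ≠ ⊤)

include hQf

theorem integrable_of_memLp (hf : MemLp f 2 (volume.restrict Q)) :
    Integrable f (volume.restrict Q) := by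
  have : IsFiniteMeasure (volume.restrict Q) := ⟨by
    rw [Measure.restrict_apply_univ]; exact hQf.lt_top⟩
  exact hf.integrable (by norm_num)

theorem Rk.add (hf : Rk Q k f) (hg : Rk Q k g) : Rk Q k (fun x => f x + g x) := by
  refine ⟨hf.1.add hg.1, fun L hL => ?_⟩
  obtain ⟨u, hu, hW⟩ := hf.2 L hL
  obtain ⟨u', hu', hW'⟩ := hg.2 L hL
  exact ⟨fun x => u x + u' x, hu.add hu', HasW.add (integrable_of_memLp hQf hf.1)
    (integrable_of_memLp hQf hg.1) (integrable_of_memLp hQf hu) (integrable_of_memLp hQf hu') hW hW'⟩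

omit hQf in
theorem Rk.const_mul (c : ℝ) (hf : Rk Q k f) : Rk Q k (fun x => c * f x) := by
  refine ⟨hf.1.const_mul c, fun L hL => ?_⟩
  obtain ⟨u, hu, hW⟩ := hf.2 L hL
  exact ⟨fun x => c * u x, hu.const_mul c, HasW.const_mul c hW⟩

theorem Rk.sub (hf : Rk Q k f) (hg : Rk Q k g) : Rk Q k (fun x => f x - g x) := by
  have := Rk.add hQf hf (Rk.const_mul (-1) hg)
  refine this.congr (ae_of_all _ fun x => ?_)
  simp only
  ring

omit hQf in
theorem Rk.of_deriv (hf : Rk Q k f) (hg : Rk Q k g) (h1 : HasW Q f [ee 2] g) :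
    Rk Q (k + 1) f := by
  refine ⟨hf.1, fun L hL => ?_⟩
  by_cases hk : L.count 2 ≤ k
  · exact hf.2 L hk
  · have hmem : (2 : Fin 3) ∈ L := by
      rw [← List.count_pos_iff]
      omega
    have hp := List.perm_cons_erase hmem
    have hc : (L.erase 2).count 2 ≤ k := by
      have := hp.count_eq (2 : Fin 3)
      rw [List.count_cons_self] at this
      omega
    obtain ⟨u, hu, hW⟩ := hg.2 _ hc
    refine ⟨u, hu, ?_⟩
    have h2 := HasW.comp' h1 hW
    refine HasW.perm h2 ?_
    have := (hp.map ee).symm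
    simpa using this

end Fin

/-! ## Products -/

theorem bdd_on (hQb : Bornology.IsBounded Q) {a : E → ℝ} (ha : Continuous a) :
    ∃ c : ℝ, ∀ x ∈ Q, |a x| ≤ c := by
  obtain ⟨c, hc⟩ := (hQb.isCompact_closure).exists_bound_of_continuousOn (f := a) ha.continuousOn
  exact ⟨c, fun x hx => hc x (subset_closure hx)⟩

theorem memLp_smooth_mul (hQo : IsOpen Q) (hQb : Bornology.IsBounded Q) {a : E → ℝ}
    (ha : Continuous a) (hf : MemLp f 2 (volume.restrict Q)) :
    MemLp (fun x => a x * f x) 2 (volume.restrict Q) := by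
  obtain ⟨c, hc⟩ := bdd_on hQb ha
  have h1 : MemLp a ⊤ (volume.restrict Q) :=
    memLp_top_of_bound ha.aestronglyMeasurable c ((ae_restrict_iff' hQo.measurableSet).2
      (ae_of_all _ hc))
  exact hf.mul h1

theorem Rk.smooth_mul (hQo : IsOpen Q) (hQb : Bornology.IsBounded Q) (hQf : volume Q ≠ ⊤)
    {a : E → ℝ} (ha : ContDiff ℝ ∞ a) (hf : Rk Q k f) : Rk Q k (fun x => a x * f x) := by
  refine ⟨memLp_smooth_mul hQo hQb ha.continuous hf.1, ?_⟩
  have key : ∀ L : List (Fin 3), ∀ (k : ℕ) (f a : E → ℝ), ContDiff ℝ ∞ a → Rk Q k f →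
      L.count 2 ≤ k → ∃ g : E → ℝ, MemLp g 2 (volume.restrict Q) ∧
        HasW Q (fun x => a x * f x) (L.map ee) g := by
    intro L
    induction L with
    | nil =>
      intro k f a ha hf _
      exact ⟨_, memLp_smooth_mul hQo hQb ha.continuous hf.1, HasW.nil _⟩
    | cons i L ih =>
      intro k f a ha hf hk
      rw [List.count_cons] at hk
      obtain ⟨u, hu, hW⟩ := hf.2 [i] (by rw [List.count_cons, List.count_nil]; omega)
      have hW' : HasW Q f [ee i] u := hW
      have hu' : Rk Q (k - [i].count 2) u := hf.deriv hu hW' (by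
        rw [List.count_cons, List.count_nil]; omega)
      have hda : ContDiff ℝ ∞ (dd (ee i) a) := contDiff_dd ha (ee i)
      obtain ⟨p, hp, hWp⟩ := ih _ u a ha hu' (by rw [List.count_cons, List.count_nil]; omega)
      obtain ⟨p', hp', hWp'⟩ := ih k f (dd (ee i) a) hda hf (by omega)
      have h1 := HasW.smooth_mul ha (integrable_of_memLp hQf hf.1) (integrable_of_memLp hQf hu) hW'
      have h2 := HasW.add (integrable_of_memLp hQf (memLp_smooth_mul hQo hQb ha.continuous hu))
        (integrable_of_memLp hQf (memLp_smooth_mul hQo hQb hda.continuous hf.1))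
        (integrable_of_memLp hQf hp) (integrable_of_memLp hQf hp') hWp hWp'
      exact ⟨_, hp.add hp', HasW.comp' h1 h2⟩
  exact fun L hL => key L k f a ha hf hL

section Prod

variable (hQo : IsOpen Q) (hQf : volume Q ≠ ⊤)
  (hsup : ∀ g : E → ℝ, Rk Q 1 g → ∃ C : ℝ, ∀ᵐ x ∂(volume.restrict Q), |g x| ≤ C)

include hQo hQf hsup

theorem memLp_mul (hf : Rk Q k f) (hg : Rk Q l g) (hkl : 1 ≤ k + l) :
    MemLp (fun x => f x * g x) 2 (volume.restrict Q) := by
  rcases Nat.eq_zero_or_pos k with hk | hk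
  · obtain ⟨C, hC⟩ := hsup g (hg.mono (by omega))
    have h1 : MemLp g ⊤ (volume.restrict Q) :=
      memLp_top_of_bound hg.1.aestronglyMeasurable C hC
    exact h1.mul hf.1
  · obtain ⟨C, hC⟩ := hsup f (hf.mono hk)
    have h1 : MemLp f ⊤ (volume.restrict Q) :=
      memLp_top_of_bound hf.1.aestronglyMeasurable C hC
    exact hg.1.mul h1

theorem Rk.mul (hf : Rk Q k f) (hg : Rk Q l g) (hkl : 1 ≤ k + l) :
    Rk Q (min k l) (fun x => f x * g x) := by
  refine ⟨memLp_mul hQo hQf hsup hf hg hkl, ?_⟩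
  have key : ∀ L : List (Fin 3), ∀ (k l : ℕ) (f g : E → ℝ), Rk Q k f → Rk Q l g → 1 ≤ k + l →
      L.count 2 ≤ k → L.count 2 ≤ l → ∃ h : E → ℝ, MemLp h 2 (volume.restrict Q) ∧
        HasW Q (fun x => f x * g x) (L.map ee) h := by
    intro L
    induction L with
    | nil =>
      intro k l f g hf hg hkl _ _
      exact ⟨_, memLp_mul hQo hQf hsup hf hg hkl, HasW.nil _⟩
    | cons i L ih =>
      intro k l f g hf hg hkl hk hl
      rw [List.count_cons] at hk hl
      obtain ⟨u, hu, hWu⟩ := hf.2 [i] (by rw [List.count_cons, List.count_nil]; omega)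
      obtain ⟨v, hv, hWv⟩ := hg.2 [i] (by rw [List.count_cons, List.count_nil]; omega)
      have hWu' : HasW Q f [ee i] u := hWu
      have hWv' : HasW Q g [ee i] v := hWv
      have hu' : Rk Q (k - [i].count 2) u := hf.deriv hu hWu' (by
        rw [List.count_cons, List.count_nil]; omega)
      have hv' : Rk Q (l - [i].count 2) v := hg.deriv hv hWv' (by
        rw [List.count_cons, List.count_nil]; omega)
      have hc1 : 1 ≤ (k - [i].count 2) + l := by
        rw [List.count_cons, List.count_nil]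
        split_ifs at * <;> omega
      have hc2 : 1 ≤ k + (l - [i].count 2) := by
        rw [List.count_cons, List.count_nil]
        split_ifs at * <;> omega
      obtain ⟨p, hp, hWp⟩ := ih _ l u g hu' hg hc1
        (by rw [List.count_cons, List.count_nil]; omega) (by omega)
      obtain ⟨p', hp', hWp'⟩ := ih k _ f v hf hv' hc2 (by omega)
        (by rw [List.count_cons, List.count_nil]; omega)
      have h1 := HasW.mul hQo hQf hf.1 hu hg.1 hv hWu' hWv'
      have h2 := HasW.add (integrable_of_memLp hQf (memLp_mul hQo hQf hsup hu' hg hc1))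
        (integrable_of_memLp hQf (memLp_mul hQo hQf hsup hf hv' hc2))
        (integrable_of_memLp hQf hp) (integrable_of_memLp hQf hp') hWp hWp'
      exact ⟨_, hp.add hp', HasW.comp' h1 h2⟩
  exact fun L hL => key L k l f g hf hg hkl (hL.trans (min_le_left _ _))
    (hL.trans (min_le_right _ _))

theorem Rk.pow_five (hk : 1 ≤ k) (hf : Rk Q k f) : Rk Q k (fun x => f x ^ 5) := by
  have h2 := Rk.mul hQo hQf hsup hf hf (by omega)
  rw [min_self] at h2
  have h4 := Rk.mul hQo hQf hsup h2 h2 (by omega)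
  rw [min_self] at h4
  have h5 := Rk.mul hQo hQf hsup h4 hf (by omega)
  rw [min_self] at h5
  refine h5.congr (ae_of_all _ fun x => ?_)
  simp only
  ring

end Prod

end Pool.Agent.H92.BN.E7
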