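import Mathlib
import Pool.Agent.H92.BN.ME7_B
import Pool.Agent.H92.BN.ME7_D

/-!
# E7, part E: boundedness on the lower box
-/

set_option autoImplicit false

namespace Pool.Agent.H92.BN.E7

open MeasureTheory Set Filter Topology Pool.Agent.H92.BN
open scoped ContDiff InnerProductSpace ENNReal
open Pool.Agent.H20.Stab (mo ker bs mo_contDiff mo_integrable integral_mo mo_tendsto)

theorem boxm_eq (r : ℝ) : boxm r = box ![-r, -r, -r] ![r, r, 0] := by
  ext x
  simp only [boxm, box, mem_ofPred_eq, abs_lt, mem_Ioo]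
  constructor
  · rintro ⟨h0, h1, h2, h3⟩ i
    fin_cases i
    · exact h0
    · exact h1
    · exact ⟨h2, h3⟩
  · intro h
    exact ⟨h 0, h 1, (h 2).1, (h 2).2⟩

theorem isOpen_boxm (r : ℝ) : IsOpen (boxm r) := by
  rw [boxm_eq]; exact isOpen_box _ _

theorem isBounded_boxm (r : ℝ) : Bornology.IsBounded (boxm r) := by
  rw [isBounded_iff_forall_norm_le]
  refine ⟨|r| + |r| + |r|, fun x hx => ?_⟩
  obtain ⟨h0, h1, h2, h3⟩ := hx
  have hr : 0 < r := by linarith
  have h2' : |x 2| < r := by rw [abs_lt]; constructor <;> linarith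
  rw [EuclideanSpace.norm_eq, Fin.sum_univ_three, abs_of_pos hr]
  apply Real.sqrt_le_iff.2
  refine ⟨by positivity, ?_⟩
  simp only [Real.norm_eq_abs]
  nlinarith [abs_nonneg (x 0), abs_nonneg (x 1), abs_nonneg (x 2)]

theorem volume_boxm (r : ℝ) : volume (boxm r) ≠ ⊤ := (isBounded_boxm r).measure_lt_top.ne

/-- the `L¹` norm does not increase under mollification -/
theorem lintegral_mo_le (b : ContDiffBump (0 : E)) {F : E → ℝ} (hF : Integrable F) :
    ∫⁻ x, ‖mo b F x‖ₑ ≤ ∫⁻ x, ‖F x‖ₑ := by
  have h1 : ∀ x, ‖mo b F x‖ₑ ≤ ENNReal.ofReal (mo b (fun t => |F t|) x) := by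
    intro x
    rw [Real.enorm_eq_ofReal_abs]
    exact ENNReal.ofReal_le_ofReal (Pool.Agent.H20.Stab.abs_mo_le hF hF.abs
      (ae_of_all _ fun t => le_rfl) x)
  refine (lintegral_mono h1).trans ?_
  have h2 : Integrable (mo b (fun t => |F t|)) := mo_integrable hF.abs
  rw [← ofReal_integral_eq_lintegral_ofReal h2 (ae_of_all _ fun x =>
    Pool.Agent.H20.Stab.mo_nonneg (ae_of_all _ fun t => abs_nonneg _) x), integral_mo hF.abs,
    ofReal_integral_eq_lintegral_ofReal hF.abs (ae_of_all _ fun x => abs_nonneg _)]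
  apply le_of_eq
  apply lintegral_congr
  intro x
  rw [Real.enorm_eq_ofReal_abs]

theorem bounded_of_family {r : ℝ} (hr : 0 < r) (G : Bool → Bool → Bool → E → ℝ)
    (hG : ∀ i j k, MemLp (G i j k) 2 (volume.restrict (boxm r)))
    (h0 : HasW (boxm r) (G false false false) [ee 0] (G true false false))
    (h1 : ∀ i, HasW (boxm r) (G i false false) [ee 1] (G i true false))
    (h2 : ∀ i j, HasW (boxm r) (G i j false) [ee 2] (G i j true)) :
    ∃ C : ℝ, ∀ᵐ x ∂(volume.restrict (boxm r)), |G false false false x| ≤ C := by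
  set Q := boxm r with hQdef
  have hQo : IsOpen Q := isOpen_boxm r
  have hQf : volume Q ≠ ⊤ := volume_boxm r
  have hi : ∀ i j k, Integrable (Q.indicator (G i j k)) := fun i j k =>
    (integrable_indicator_iff hQo.measurableSet).2 (integrable_of_memLp hQf (hG i j k))
  set c := ENNReal.ofReal (1 + 2 / r) with hc
  set K : ℝ≥0∞ := c * (c * (c * ∑ i, ∑ j, ∑ k, ∫⁻ y, ‖Q.indicator (G i j k) y‖ₑ)) with hK
  have hKtop : K ≠ ⊤ := by
    have h3 : ∀ i j k, ∫⁻ y, ‖Q.indicator (G i j k) y‖ₑ ≠ ⊤ := fun i j k =>
      (hi i j k).2.ne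
    rw [hK]
    refine ENNReal.mul_ne_top ENNReal.ofReal_ne_top (ENNReal.mul_ne_top ENNReal.ofReal_ne_top
      (ENNReal.mul_ne_top ENNReal.ofReal_ne_top ?_))
    exact ENNReal.sum_ne_top.2 fun i _ => ENNReal.sum_ne_top.2 fun j _ =>
      ENNReal.sum_ne_top.2 fun k _ => h3 i j k
  -- estimate for the mollifications
  have key : ∀ x ∈ Q, ∀ᶠ m in atTop, ‖mo (bs m) (Q.indicator (G false false false)) x‖ₑ ≤ K := by
    intro x hx
    obtain ⟨q0, q1, q2, q3⟩ := hx
    rw [abs_lt] at q0 q1
    obtain ⟨s, hs0, hs1, hs2⟩ : ∃ s : ℝ, 0 < s ∧ s ≤ r / 4 ∧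
        x ∈ box ![-r + s, -r + s, -r + s] ![r - s, r - s, -s] := by
      set s := min (r / 4) (min (min (r - x 0) (x 0 + r)) (min (min (r - x 1) (x 1 + r))
        (min (x 2 + r) (-x 2)))) / 2 with hs
      have p1 : 0 < min (min (r - x 0) (x 0 + r)) (min (min (r - x 1) (x 1 + r))
        (min (x 2 + r) (-x 2))) := by
        refine lt_min (lt_min (by linarith) (by linarith)) (lt_min (lt_min (by linarith)
          (by linarith)) (lt_min (by linarith) (by linarith)))
      have p2 : 0 < min (r / 4) (min (min (r - x 0) (x 0 + r)) (min (min (r - x 1) (x 1 + r))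
        (min (x 2 + r) (-x 2)))) := lt_min (by linarith) p1
      set t := min (r / 4) (min (min (r - x 0) (x 0 + r)) (min (min (r - x 1) (x 1 + r))
        (min (x 2 + r) (-x 2)))) with ht
      have t0 : t ≤ r / 4 := min_le_left _ _
      have t1 : t ≤ r - x 0 := (min_le_right _ _).trans ((min_le_left _ _).trans (min_le_left _ _))
      have t2 : t ≤ x 0 + r := (min_le_right _ _).trans ((min_le_left _ _).trans (min_le_right _ _))
      have t3 : t ≤ r - x 1 := (min_le_right _ _).trans ((min_le_right _ _).trans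
        ((min_le_left _ _).trans (min_le_left _ _)))
      have t4 : t ≤ x 1 + r := (min_le_right _ _).trans ((min_le_right _ _).trans
        ((min_le_left _ _).trans (min_le_right _ _)))
      have t5 : t ≤ x 2 + r := (min_le_right _ _).trans ((min_le_right _ _).trans
        ((min_le_right _ _).trans (min_le_left _ _)))
      have t6 : t ≤ -x 2 := (min_le_right _ _).trans ((min_le_right _ _).trans
        ((min_le_right _ _).trans (min_le_right _ _)))
      refine ⟨s, by positivity, by rw [hs]; linarith, fun i => ?_⟩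
      fin_cases i
      · exact ⟨by change -r + s < x 0; rw [hs]; linarith, by change x 0 < r - s; rw [hs]; linarith⟩
      · exact ⟨by change -r + s < x 1; rw [hs]; linarith, by change x 1 < r - s; rw [hs]; linarith⟩
      · exact ⟨by change -r + s < x 2; rw [hs]; linarith, by change x 2 < -s; rw [hs]; linarith⟩
    have hm : ∀ᶠ m in atTop, (bs m : ContDiffBump (0 : E)).rOut < s := by
      have := Pool.Agent.H20.Stab.bs_tendsto (n := 3)
      exact this.eventually_lt_const hs0
    filter_upwards [hm] with m hm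
    -- balls
    have hball : ∀ y ∈ box ![-r + s, -r + s, -r + s] ![r - s, r - s, -s],
        Metric.closedBall y (bs m : ContDiffBump (0 : E)).rOut ⊆ Q := by
      intro y hy z hz
      rw [Metric.mem_closedBall, dist_eq_norm] at hz
      have hz' : ‖z - y‖ < s := lt_of_le_of_lt hz hm
      have hzi : ∀ i, |z i - y i| < s := fun i =>
        lt_of_le_of_lt (by
          have := PiLp.norm_apply_le (z - y) i
          simpa using this) hz'
      rw [hQdef, boxm_eq]
      intro i
      have a1 := hzi i
      rw [abs_lt] at a1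
      have a2 := hy i
      fin_cases i
      · change -r + s < y 0 ∧ y 0 < r - s at a2
        change -s < z 0 - y 0 ∧ z 0 - y 0 < s at a1
        change -r < z 0 ∧ z 0 < r
        constructor <;> linarith [a1.1, a1.2, a2.1, a2.2]
      · change -r + s < y 1 ∧ y 1 < r - s at a2
        change -s < z 1 - y 1 ∧ z 1 - y 1 < s at a1
        change -r < z 1 ∧ z 1 < r
        constructor <;> linarith [a1.1, a1.2, a2.1, a2.2]
      · change -r + s < y 2 ∧ y 2 < - s at a2
        change -s < z 2 - y 2 ∧ z 2 - y 2 < s at a1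
        change -r < z 2 ∧ z 2 < 0
        constructor <;> linarith [a1.1, a1.2, a2.1, a2.2]
    have hab : ∀ i, (![-r + s, -r + s, -r + s] : Fin 3 → ℝ) i <
        (![r - s, r - s, -s] : Fin 3 → ℝ) i := by
      intro i
      fin_cases i
      · change -r + s < r - s; linarith
      · change -r + s < r - s; linarith
      · change -r + s < - s; linarith
    have hest := sup_smooth hab (W := fun i j k => mo (bs m) (Q.indicator (G i j k)))
      (fun i j k => mo_contDiff (hi i j k))
      (fun y hy => dd_mo hQo hQf (hG _ _ _) h0 (bs m) (hball y hy))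
      (fun i y hy => dd_mo hQo hQf (hG _ _ _) (h1 i) (bs m) (hball y hy))
      (fun i j y hy => dd_mo hQo hQf (hG _ _ _) (h2 i j) (bs m) (hball y hy)) hs2
    refine hest.trans ?_
    have hside : ∀ {u v : ℝ}, r / 2 ≤ v - u → ENNReal.ofReal (1 + 1 / (v - u)) ≤ c := by
      intro u v huv
      apply ENNReal.ofReal_le_ofReal
      have : 1 / (v - u) ≤ 1 / (r / 2) := one_div_le_one_div_of_le (by positivity) huv
      have e : 1 / (r / 2) = 2 / r := by field_simp
      linarith
    have hs3 : ∑ i, ∑ j, ∑ k, ∫⁻ y in box ![-r + s, -r + s, -r + s] ![r - s, r - s, -s],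
        ‖mo (bs m) (Q.indicator (G i j k)) y‖ₑ ≤
        ∑ i, ∑ j, ∑ k, ∫⁻ y, ‖Q.indicator (G i j k) y‖ₑ :=
      Finset.sum_le_sum fun i _ => Finset.sum_le_sum fun j _ => Finset.sum_le_sum fun k _ =>
        (setLIntegral_le_lintegral _ _).trans (lintegral_mo_le (bs m) (hi i j k))
    rw [hK]
    refine mul_le_mul' (hside ?_) (mul_le_mul' (hside ?_) (mul_le_mul' (hside ?_) hs3))
    · change r / 2 ≤ (r - s) - (-r + s); linarith
    · change r / 2 ≤ (r - s) - (-r + s); linarith
    · change r / 2 ≤ (-s) - (-r + s); linarith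
  refine ⟨K.toReal, ?_⟩
  rw [ae_restrict_iff' hQo.measurableSet]
  filter_upwards [mo_tendsto (hi false false false)] with x hx hxQ
  rw [indicator_of_mem hxQ] at hx
  have h3 : Tendsto (fun m => ‖mo (bs m) (Q.indicator (G false false false)) x‖ₑ) atTop
      (𝓝 ‖G false false false x‖ₑ) := (continuous_enorm.tendsto _).comp hx
  have h4 : ‖G false false false x‖ₑ ≤ K := le_of_tendsto h3 (key x hxQ)
  rw [Real.enorm_eq_ofReal_abs] at h4
  exact (ENNReal.ofReal_le_iff_le_toReal hKtop).1 h4

/-- functions of class `1` are bounded -/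
theorem bounded_boxm {r : ℝ} (hr : 0 < r) (g : E → ℝ) (hg : Rk (boxm r) 1 g) :
    ∃ C : ℝ, ∀ᵐ x ∂(volume.restrict (boxm r)), |g x| ≤ C := by
  let Lw : Bool → Bool → Bool → List (Fin 3) := fun i j k =>
    (if i then [0] else []) ++ (if j then [1] else []) ++ (if k then [2] else [])
  have hc : ∀ i j k, (Lw i j k).count 2 ≤ 1 := by decide
  choose G0 hG0 hW0 using fun i j k => hg.2 (Lw i j k) (hc i j k)
  let G : Bool → Bool → Bool → E → ℝ := fun i j k =>
    if i = false ∧ j = false ∧ k = false then g else G0 i j k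
  have hG : ∀ i j k, MemLp (G i j k) 2 (volume.restrict (boxm r)) := by
    intro i j k
    by_cases h : i = false ∧ j = false ∧ k = false
    · simp only [G, if_pos h]; exact hg.1
    · simp only [G, if_neg h]; exact hG0 i j k
  have hW : ∀ i j k, HasW (boxm r) g ((Lw i j k).map ee) (G i j k) := by
    intro i j k
    by_cases h : i = false ∧ j = false ∧ k = false
    · obtain ⟨rfl, rfl, rfl⟩ := h
      simp only [G, if_pos (show false = false ∧ false = false ∧ false = false from
        ⟨rfl, rfl, rfl⟩)]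
      exact HasW.nil g
    · simp only [G, if_neg h]; exact hW0 i j k
  have hfin := bounded_of_family hr G hG
    (HasW.peel (L := (Lw false false false).map ee) (hW _ _ _) (by
      have := hW true false false
      exact this))
    (fun i => HasW.peel (L := (Lw i false false).map ee) (hW _ _ _) (by
      have := hW i true false
      cases i <;> exact this))
    (fun i j => HasW.peel (L := (Lw i j false).map ee) (hW _ _ _) (by
      have := hW i j true
      cases i <;> cases j <;> exact this))
  exact hfin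

end Pool.Agent.H92.BN.E7
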