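import Mathlib
import Pool.Agent.H92.BN.ME7_E

/-!
# E7: normal regularity on the lower box
-/

set_option autoImplicit false

namespace Pool.Agent.H92.BN

open MeasureTheory Set Filter Topology E7
open scoped ContDiff InnerProductSpace

theorem normal : NormalStmt := by
  intro r hr A J hC lam om f g hf hyp1 hg heq
  set Q := boxm r with hQdef
  have hQo : IsOpen Q := isOpen_boxm r
  have hQb : Bornology.IsBounded Q := isBounded_boxm r
  have hQf : volume Q ≠ ⊤ := volume_boxm r
  have hsup : ∀ g : E → ℝ, Rk Q 1 g → ∃ C : ℝ, ∀ᵐ x ∂(volume.restrict Q), |g x| ≤ C :=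
    fun g hg => bounded_boxm hr g hg
  -- coefficients
  set a : Fin 3 → Fin 3 → E → ℝ := fun i j x => ⟪A x (ee j), ee i⟫_ℝ with ha
  have hasm : ∀ i j, ContDiff ℝ ∞ (a i j) := fun i j =>
    (hC.smoothA.clm_apply contDiff_const).inner ℝ contDiff_const
  obtain ⟨θ, hθ, hell⟩ := hC.ell
  have ha22 : ∀ x, 0 < a 2 2 x := by
    intro x
    have h1 := hell x (ee 2)
    have h2 : ‖ee 2‖ = 1 := by simp [ee]
    rw [h2] at h1
    have : θ ≤ a 2 2 x := by simpa using h1
    linarith
  -- base
  have base : Rk Q 1 f := by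
    refine ⟨hf, fun L hL => ?_⟩
    by_cases h2 : (2 : Fin 3) ∈ L
    · have hp := List.perm_cons_erase h2
      have hc : (L.erase 2).count 2 = 0 := by
        have := hp.count_eq (2 : Fin 3)
        rw [List.count_cons_self] at this
        omega
      have hn : ∀ i ∈ L.erase 2, i ≠ 2 := by
        intro i hi h
        rw [h] at hi
        exact absurd (List.count_pos_iff.2 hi) (by omega)
      obtain ⟨w, hw, hW, hw'⟩ := hyp1 _ hn
      obtain ⟨w', hw1, hW1⟩ := hw' 2
      refine ⟨w', hw1, ?_⟩
      have h3 := HasW.comp hW hW1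
      refine HasW.perm h3 ?_
      have := (hp.map ee).symm
      simpa using this
    · obtain ⟨w, hw, hW, -⟩ := hyp1 L (fun i hi h => h2 (h ▸ hi))
      exact ⟨w, hw, hW⟩
  -- the equation as a weak derivative
  set P : Fin 3 → E → ℝ := fun i x => ∑ j : Fin 3, a i j x * g j x with hP
  set F : E → ℝ := fun x => J x * (lam * f x + om * f x ^ 5) with hF
  -- induction step
  have step : ∀ k, 1 ≤ k → Rk Q k f → Rk Q (k + 1) f := by
    intro k hk hfk
    have hgt : ∀ i : Fin 3, i ≠ 2 → Rk Q k (g i) := by
      intro i hi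
      refine hfk.deriv (hg i).1 (hg i).2 ?_
      rw [List.count_cons, List.count_nil, if_neg (by simpa using hi)]
      omega
    have hgall : ∀ i : Fin 3, Rk Q (k - 1) (g i) := by
      intro i
      refine hfk.deriv (hg i).1 (hg i).2 ?_
      rw [List.count_cons, List.count_nil]
      split_ifs <;> omega
    have hPk : ∀ i, Rk Q (k - 1) (P i) := by
      intro i
      have h1 : ∀ j, Rk Q (k - 1) (fun x => a i j x * g j x) := fun j =>
        Rk.smooth_mul hQo hQb hQf (hasm i j) (hgall j)
      have h2 := Rk.add hQf (Rk.add hQf (h1 0) (h1 1)) (h1 2)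
      refine h2.congr (ae_of_all _ fun x => ?_)
      simp only [hP, Fin.sum_univ_three]
    have hFk : Rk Q k F := by
      have h5 := Rk.pow_five hQo hQf hsup hk hfk
      exact Rk.smooth_mul hQo hQb hQf hC.smoothJ
        (Rk.add hQf (Rk.const_mul lam hfk) (Rk.const_mul om h5))
    obtain ⟨p0, hp0, hW0⟩ := (hPk 0).2 [0] (by simp)
    obtain ⟨p1, hp1, hW1⟩ := (hPk 1).2 [1] (by simp)
    have hW0' : HasW Q (P 0) [ee 0] p0 := hW0
    have hW1' : HasW Q (P 1) [ee 1] p1 := hW1
    have hp0k : Rk Q (k - 1) p0 := (hPk 0).deriv hp0 hW0' (by simp)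
    have hp1k : Rk Q (k - 1) p1 := (hPk 1).deriv hp1 hW1' (by simp)
    have hW2 : HasW Q (P 2) [ee 2] (fun x => -1 * F x - p0 x - p1 x) := by
      intro η hη
      have e := heq η hη
      have i0 : Integrable (fun x => P 0 x * dd (ee 0) η x) (volume.restrict Q) :=
        integrable_mul_test (integrable_of_memLp hQf (hPk 0).1) (isTest_dd hη _)
      have i1 : Integrable (fun x => P 1 x * dd (ee 1) η x) (volume.restrict Q) :=
        integrable_mul_test (integrable_of_memLp hQf (hPk 1).1) (isTest_dd hη _)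
      have i2 : Integrable (fun x => P 2 x * dd (ee 2) η x) (volume.restrict Q) :=
        integrable_mul_test (integrable_of_memLp hQf (hPk 2).1) (isTest_dd hη _)
      have j0 : Integrable (fun x => p0 x * η x) (volume.restrict Q) :=
        integrable_mul_test (integrable_of_memLp hQf hp0) hη
      have j1 : Integrable (fun x => p1 x * η x) (volume.restrict Q) :=
        integrable_mul_test (integrable_of_memLp hQf hp1) hη
      have jF : Integrable (fun x => F x * η x) (volume.restrict Q) :=
        integrable_mul_test (integrable_of_memLp hQf hFk.1) hη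
      have e0 := hW0' η hη
      have e1 := hW1' η hη
      simp only [dW, List.length_singleton, pow_one] at e0 e1 ⊢
      have e2 : (∫ x in Q, ∑ i : Fin 3, ∑ j : Fin 3,
          ⟪A x (ee j), ee i⟫_ℝ * g j x * fderiv ℝ η x (ee i)) =
          (∫ x in Q, P 0 x * dd (ee 0) η x) + (∫ x in Q, P 1 x * dd (ee 1) η x) +
            ∫ x in Q, P 2 x * dd (ee 2) η x := by
        have i01 : Integrable (fun x => P 0 x * dd (ee 0) η x + P 1 x * dd (ee 1) η x)
            (volume.restrict Q) := i0.add i1
        rw [← integral_add i0 i1, ← integral_add i01 i2]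
        congr 1
        funext x
        rw [Fin.sum_univ_three]
        simp only [hP, ha, dd, Finset.sum_mul]
      have e3 : ∫ x in Q, (-1 * F x - p0 x - p1 x) * η x =
          - (∫ x in Q, F x * η x) - (∫ x in Q, p0 x * η x) - ∫ x in Q, p1 x * η x := by
        have jF' : Integrable (fun x => - (F x * η x)) (volume.restrict Q) := jF.neg
        have jF0 : Integrable (fun x => - (F x * η x) - p0 x * η x) (volume.restrict Q) :=
          jF'.sub j0
        rw [← integral_neg, ← integral_sub jF' j0, ← integral_sub jF0 j1]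
        congr 1
        funext x
        ring
      have e4 : ∫ x in Q, J x * (lam * f x + om * f x ^ 5) * η x = ∫ x in Q, F x * η x := rfl
      rw [e2, e4] at e
      rw [e3, e0, e1]
      have d0 : ∫ x in Q, P 0 x * fderiv ℝ η x (ee 0) = ∫ x in Q, P 0 x * dd (ee 0) η x := rfl
      have d1 : ∫ x in Q, P 1 x * fderiv ℝ η x (ee 1) = ∫ x in Q, P 1 x * dd (ee 1) η x := rfl
      have d2 : ∫ x in Q, P 2 x * fderiv ℝ η x (ee 2) = ∫ x in Q, P 2 x * dd (ee 2) η x := rfl
      rw [d0, d1, d2]
      linarith
    have hR2 : Rk Q (k - 1) (fun x => -1 * F x - p0 x - p1 x) :=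
      Rk.sub hQf (Rk.sub hQf (Rk.const_mul (-1) (hFk.mono (by omega))) hp0k) hp1k
    have hP2 : Rk Q k (P 2) := by
      have := Rk.of_deriv (hPk 2) hR2 hW2
      rwa [Nat.sub_add_cancel hk] at this
    have hg2 : Rk Q k (g 2) := by
      have h1 := Rk.sub hQf (Rk.sub hQf hP2
        (Rk.smooth_mul hQo hQb hQf (hasm 2 0) (hgt 0 (by decide))))
        (Rk.smooth_mul hQo hQb hQf (hasm 2 1) (hgt 1 (by decide)))
      have h2 : ContDiff ℝ ∞ (fun x => (a 2 2 x)⁻¹) :=
        (hasm 2 2).inv fun x => (ha22 x).ne'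
      have h3 := Rk.smooth_mul hQo hQb hQf h2 h1
      refine h3.congr (ae_of_all _ fun x => ?_)
      simp only [hP, Fin.sum_univ_three]
      have := (ha22 x).ne'
      field_simp
      ring
    exact Rk.of_deriv hfk hg2 (hg 2).2
  have hall : ∀ k, Rk Q (k + 1) f := by
    intro k
    induction k with
    | zero => exact base
    | succ k ih => exact step (k + 1) (by omega) ih
  refine ⟨hf, fun L => ?_⟩
  exact (hall (L.count 2)).2 L (by omega)

end Pool.Agent.H92.BN
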