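import Pool.Agent.H92.BN.ME8_Glob

/-!
# Module E8, part 2: weak derivative calculus and `InnerStmt` (by helper14)
-/

set_option autoImplicit false

namespace Pool.Agent.H92.BN

open MeasureTheory Set Filter Topology
open scoped ContDiff InnerProductSpace

namespace E8

theorem contDiff_dir {η : E → ℝ} (hη : ContDiff ℝ ∞ η) (t : E) :
    ContDiff ℝ ∞ (fun x => fderiv ℝ η x t) := by
  have h1 : ContDiff ℝ ∞ (fderiv ℝ η) := hη.fderiv_right (m := ∞) (by simp)
  exact h1.clm_apply contDiff_const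

theorem contDiff_dW (L : List E) : ∀ {η : E → ℝ}, ContDiff ℝ ∞ η → ContDiff ℝ ∞ (dW L η) := by
  induction L with
  | nil => intro η h; exact h
  | cons s L ih => intro η h; exact ih (contDiff_dir h s)

theorem fderiv_fderiv_dir {η : E → ℝ} (hη : ContDiff ℝ ∞ η) (x s t : E) :
    fderiv ℝ (fun y => fderiv ℝ η y t) x s = fderiv ℝ (fderiv ℝ η) x s t := by
  have h1 : ContDiff ℝ ∞ (fderiv ℝ η) := hη.fderiv_right (m := ∞) (by simp)
  have h2 : HasFDerivAt (fderiv ℝ η) (fderiv ℝ (fderiv ℝ η) x) x :=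
    (h1.differentiable (by simp) x).hasFDerivAt
  have h3 := h2.clm_apply (hasFDerivAt_const t x)
  rw [h3.fderiv]
  simp

theorem fderiv_comm {η : E → ℝ} (hη : ContDiff ℝ ∞ η) (x s t : E) :
    fderiv ℝ (fun y => fderiv ℝ η y t) x s = fderiv ℝ (fun y => fderiv ℝ η y s) x t := by
  rw [fderiv_fderiv_dir hη, fderiv_fderiv_dir hη]
  have h2 : minSmoothness ℝ 2 ≤ (∞ : WithTop ℕ∞) := by
    simp only [minSmoothness_of_isRCLikeNormedField]
    exact WithTop.coe_le_coe.2 (le_top : (2 : ℕ∞) ≤ ⊤)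
  exact (hη.contDiffAt.isSymmSndFDerivAt h2) s t

theorem dW_dir (L : List E) : ∀ {η : E → ℝ}, ContDiff ℝ ∞ η → ∀ t : E,
    dW L (fun x => fderiv ℝ η x t) = fun x => fderiv ℝ (dW L η) x t := by
  induction L with
  | nil => intro η h t; rfl
  | cons s L ih =>
    intro η h t
    have e1 : (fun x => fderiv ℝ (fun y => fderiv ℝ η y t) x s) =
        fun x => fderiv ℝ (fun y => fderiv ℝ η y s) x t := by
      ext x; exact fderiv_comm h x s t
    show dW L (fun x => fderiv ℝ (fun y => fderiv ℝ η y t) x s) = _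
    rw [e1, ih (contDiff_dir h s) t]
    rfl

theorem test_dir {Q : Set E} {η : E → ℝ} (h : IsTest Q η) (t : E) :
    IsTest Q (fun x => fderiv ℝ η x t) := by
  refine ⟨contDiff_dir h.smooth t, ?_, ?_⟩
  · exact (h.cpt.fderiv (𝕜 := ℝ)).comp_left (g := fun l : E →L[ℝ] ℝ => l t) (by simp)
  · refine (closure_mono ?_).trans ((tsupport_fderiv_subset ℝ (f := η)).trans h.supp)
    intro x hx hx'
    exact hx (by show fderiv ℝ η x t = 0; rw [hx']; rfl)

theorem test_dW {Q : Set E} (L : List E) : ∀ {η : E → ℝ}, IsTest Q η → IsTest Q (dW L η) := by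
  induction L with
  | nil => intro η h; exact h
  | cons s L ih => intro η h; exact ih (test_dir h s)

theorem hasW_cons {Q : Set E} {f f1 g : E → ℝ} {s : E} {L : List E} (h1 : HasW Q f [s] f1)
    (h2 : HasW Q f1 L g) : HasW Q f (s :: L) g := by
  intro η hη
  rw [h2 η hη, h1 _ (test_dW L hη)]
  show (-1) ^ L.length * ((-1) ^ 1 * ∫ x in Q, f x * (fderiv ℝ (dW L η) x s)) =
    (-1) ^ (L.length + 1) * ∫ x in Q, f x * dW L (fun x => fderiv ℝ η x s) x
  rw [dW_dir L hη.smooth s]
  ring

theorem hasW_of_cons {Q : Set E} {f f1 g : E → ℝ} {s : E} {L : List E} (h1 : HasW Q f [s] f1)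
    (h2 : HasW Q f (s :: L) g) : HasW Q f1 L g := by
  intro η hη
  rw [h2 η hη, h1 _ (test_dW L hη)]
  show (-1) ^ (L.length + 1) * (∫ x in Q, f x * dW L (fun x => fderiv ℝ η x s) x) =
    (-1) ^ L.length * ((-1) ^ 1 * ∫ x in Q, f x * (fderiv ℝ (dW L η) x s))
  rw [dW_dir L hη.smooth s]
  ring

theorem allW_of_hasW {Q : Set E} {f f1 : E → ℝ} {i : Fin 3} (h : AllW Q f)
    (h1 : HasW Q f [ee i] f1) (h1' : MemLp f1 2 (volume.restrict Q)) : AllW Q f1 := by
  refine ⟨h1', fun L => ?_⟩
  obtain ⟨g, hg, hW⟩ := h.2 (i :: L)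
  exact ⟨g, hg, hasW_of_cons h1 hW⟩

theorem integrable_mul_test {Q Q' : Set E} {f : E → ℝ} (hf : MemLp f 2 (volume.restrict Q))
    {η : E → ℝ} (hη : IsTest Q' η) : IntegrableOn (fun x => f x * η x) Q := by
  have := hf.integrable_mul ((hη.memLp 2).restrict Q)
  exact this

theorem hasW_add {Q : Set E} {f f' g g' : E → ℝ} {L : List E}
    (hf : MemLp f 2 (volume.restrict Q)) (hf' : MemLp f' 2 (volume.restrict Q))
    (hg : MemLp g 2 (volume.restrict Q)) (hg' : MemLp g' 2 (volume.restrict Q))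
    (h : HasW Q f L g) (h' : HasW Q f' L g') :
    HasW Q (fun x => f x + f' x) L (fun x => g x + g' x) := by
  intro η hη
  simp only [add_mul]
  rw [integral_add (integrable_mul_test hg hη) (integrable_mul_test hg' hη),
    integral_add (integrable_mul_test hf (test_dW L hη)) (integrable_mul_test hf' (test_dW L hη)),
    h η hη, h' η hη]
  ring

theorem memLp_cut {Q : Set E} (hQ : MeasurableSet Q) {f χ : E → ℝ}
    (hf : MemLp f 2 (volume.restrict Q)) (hχ : IsTest Q χ) :
    MemLp (fun x => χ x * f x) 2 volume := by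
  obtain ⟨C, hC⟩ := hχ.cpt.exists_bound_of_continuous hχ.smooth.continuous
  have h1 : MemLp (fun x => χ x * f x) 2 (volume.restrict Q) := by
    refine MemLp.of_le_mul (c := C) hf
      (hχ.smooth.continuous.aestronglyMeasurable.mul hf.1) (Eventually.of_forall fun x => ?_)
    rw [norm_mul]
    exact mul_le_mul_of_nonneg_right (hC x) (norm_nonneg _)
  have h2 : (fun x => χ x * f x) = Q.indicator (fun x => χ x * f x) := by
    ext x
    by_cases hx : x ∈ Q
    · rw [indicator_of_mem hx]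
    · rw [indicator_of_notMem hx]
      have : χ x = 0 := by
        by_contra h
        exact hx (hχ.supp (subset_tsupport χ h))
      rw [this, zero_mul]
  rw [h2]
  exact (memLp_indicator_iff_restrict hQ).2 h1

theorem test_zero_off {Q : Set E} {χ : E → ℝ} (hχ : IsTest Q χ) {x : E} (hx : x ∉ Q) :
    χ x = 0 := by
  by_contra h
  exact hx (hχ.supp (subset_tsupport χ h))

theorem test_mul' {Q : Set E} {χ η : E → ℝ} (hχ : IsTest Q χ) (hη : ContDiff ℝ ∞ η) :
    IsTest Q (fun x => χ x * η x) := by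
  refine ⟨hχ.smooth.mul hη, hχ.cpt.mul_right (f' := η), ?_⟩
  refine (closure_mono ?_).trans hχ.supp
  intro x hx hx'
  exact hx (by show χ x * η x = 0; rw [hx', zero_mul])

/-- product rule -/
theorem hasW_mul {Q : Set E} {f f1 χ : E → ℝ} {s : E}
    (hf : MemLp f 2 (volume.restrict Q)) (hf1 : MemLp f1 2 (volume.restrict Q))
    (h1 : HasW Q f [s] f1) (hχ : IsTest Q χ) :
    HasW univ (fun x => χ x * f x) [s] (fun x => fderiv ℝ χ x s * f x + χ x * f1 x) := by
  intro η hη
  have ht : IsTest Q (fun x => χ x * η x) := test_mul' hχ hη.smooth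
  have hχs := test_dir hχ s
  have hηs := test_dir hη s
  have h2 := h1 _ ht
  simp only [List.length_singleton, pow_one, neg_mul, one_mul, Measure.restrict_univ, dW] at h2 ⊢
  have e0 : ∀ x, fderiv ℝ (fun x => χ x * η x) x s = fderiv ℝ χ x s * η x +
      χ x * fderiv ℝ η x s := by
    intro x
    have := ((hχ.smooth.differentiable (by simp) x).hasFDerivAt.mul
      (hη.smooth.differentiable (by simp) x).hasFDerivAt).fderiv
    have e : fderiv ℝ (fun x => χ x * η x) x =
      χ x • fderiv ℝ η x + η x • fderiv ℝ χ x := this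
    rw [e]
    simp only [add_apply, smul_apply, smul_eq_mul]
    ring
  simp only [e0] at h2
  have t1 : IsTest Q (fun x => fderiv ℝ χ x s * η x) := test_mul' hχs hη.smooth
  have t2 : IsTest Q (fun x => χ x * fderiv ℝ η x s) := test_mul' hχ hηs.smooth
  have i1 := integrable_mul_test hf t1
  have i2 := integrable_mul_test hf t2
  have i3 := integrable_mul_test hf1 ht
  have e1 : (∫ x, (fderiv ℝ χ x s * f x + χ x * f1 x) * η x) =
      ∫ x in Q, (f x * (fderiv ℝ χ x s * η x) + f1 x * (χ x * η x)) := by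
    rw [← setIntegral_eq_integral_of_forall_compl_eq_zero (s := Q)]
    · congr 1
      ext x
      ring
    · intro x hx
      rw [test_zero_off hχs hx, test_zero_off hχ hx]
      ring
  have e2 : (∫ x, χ x * f x * fderiv ℝ η x s) = ∫ x in Q, f x * (χ x * fderiv ℝ η x s) := by
    rw [← setIntegral_eq_integral_of_forall_compl_eq_zero (s := Q)]
    · congr 1
      ext x
      ring
    · intro x hx
      rw [test_zero_off hχ hx]
      ring
  rw [e1, e2, integral_add i1 i3, h2]
  have e3 : (∫ x in Q, f x * (fderiv ℝ χ x s * η x + χ x * fderiv ℝ η x s)) =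
      (∫ x in Q, f x * (fderiv ℝ χ x s * η x)) + ∫ x in Q, f x * (χ x * fderiv ℝ η x s) := by
    rw [← integral_add i1 i2]
    congr 1
    ext x
    ring
  rw [e3]
  ring

theorem leibniz {Q : Set E} (hQ : MeasurableSet Q) (L : List (Fin 3)) :
    ∀ (χ f : E → ℝ), IsTest Q χ → AllW Q f →
      ∃ G : E → ℝ, MemLp G 2 volume ∧ HasW univ (fun x => χ x * f x) (L.map ee) G := by
  induction L with
  | nil =>
    intro χ f hχ hf
    refine ⟨fun x => χ x * f x, memLp_cut hQ hf.1 hχ, ?_⟩
    intro η hη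
    simp [dW]
  | cons i L ih =>
    intro χ f hχ hf
    obtain ⟨f1, hf1, h1⟩ := hf.2 [i]
    have h1' : HasW Q f [ee i] f1 := h1
    have hf1' := allW_of_hasW hf h1' hf1
    have hχs := test_dir hχ (ee i)
    obtain ⟨G1, hG1, hW1⟩ := ih (fun x => fderiv ℝ χ x (ee i)) f hχs hf
    obtain ⟨G2, hG2, hW2⟩ := ih χ f1 hχ hf1'
    refine ⟨fun x => G1 x + G2 x, hG1.add hG2, ?_⟩
    have h2 := hasW_mul hf.1 hf1 h1' hχ
    refine hasW_cons h2 ?_
    refine hasW_add ?_ ?_ ?_ ?_ hW1 hW2
    · rw [Measure.restrict_univ]; exact memLp_cut hQ hf.1 hχs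
    · rw [Measure.restrict_univ]; exact memLp_cut hQ hf1 hχ
    · rw [Measure.restrict_univ]; exact hG1
    · rw [Measure.restrict_univ]; exact hG2

theorem allW_cut {Q : Set E} (hQ : MeasurableSet Q) {χ f : E → ℝ} (hχ : IsTest Q χ)
    (hf : AllW Q f) : AllW univ (fun x => χ x * f x) := by
  refine ⟨?_, fun L => ?_⟩
  · rw [Measure.restrict_univ]; exact memLp_cut hQ hf.1 hχ
  · obtain ⟨G, hG, hW⟩ := leibniz hQ L χ f hχ hf
    exact ⟨G, by rw [Measure.restrict_univ]; exact hG, hW⟩

end E8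

open E8

theorem inner_of_glob (hGlob : GlobStmt) : InnerStmt := by
  intro x0 r hr f hf
  let χ : ContDiffBump x0 := ⟨r / 2, 3 * r / 4, by linarith, by linarith⟩
  have hχ : IsTest (Metric.ball x0 r) (fun x => χ x) := by
    refine ⟨χ.contDiff, χ.hasCompactSupport, ?_⟩
    have : tsupport (fun x => χ x) = Metric.closedBall x0 (3 * r / 4) := χ.tsupport_eq
    rw [this]
    exact Metric.closedBall_subset_ball (by linarith)
  have hA := allW_cut measurableSet_ball hχ hf
  obtain ⟨U, hU, hae⟩ := hGlob (fun x => χ x * f x) (memLp_cut measurableSet_ball hf.1 hχ)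
    ⟨‖x0‖ + r, Eventually.of_forall fun x hx => by
      have : x ∉ Metric.ball x0 r := by
        intro h
        rw [Metric.mem_ball, dist_eq_norm] at h
        have h1 : ‖x‖ ≤ ‖x - x0‖ + ‖x0‖ := by
          simpa using norm_add_le (x - x0) x0
        linarith
      have h2 : χ x = 0 := test_zero_off hχ this
      rw [h2, zero_mul]⟩ hA
  refine ⟨U, hU, ?_⟩
  rw [ae_restrict_iff' measurableSet_ball]
  filter_upwards [hae] with x hx hxB
  have h1 : χ x = 1 := χ.one_of_mem_closedBall (Metric.ball_subset_closedBall hxB)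
  rw [h1, one_mul] at hx
  exact hx

theorem inner' : InnerStmt := inner_of_glob glob

end Pool.Agent.H92.BN
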