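import Pool.Agent.H92.BN.Api

/-!
# Module E8, part 1: `GlobStmt` (by helper14), via the Fourier transform
-/

set_option autoImplicit false

namespace Pool.Agent.H92.BN

open MeasureTheory Set Filter Topology FourierTransform
open scoped ContDiff InnerProductSpace

namespace E8

/-- the list `[i,i,…,i]` of length `2n` -/
def LL (i : Fin 3) : ℕ → List (Fin 3)
  | 0 => []
  | n + 1 => i :: i :: LL i n

theorem LL_length (i : Fin 3) (n : ℕ) : (LL i n).length = 2 * n := by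
  induction n with
  | zero => rfl
  | succ n ih => simp [LL, ih]; ring

theorem inner_ee (a : E) (i : Fin 3) : ⟪a, ee i⟫_ℝ = a i := by
  simp [ee, EuclideanSpace.inner_single_right]

theorem hasFDerivAt_phase (a : E) (β : ℝ) (x : E) :
    HasFDerivAt (fun y : E => ⟪a, y⟫_ℝ + β) (innerSL ℝ a) x :=
  ((innerSL ℝ a).hasFDerivAt).add_const β

theorem dW_cos {B : Set E} (hB : IsOpen B) (a : E) (β : ℝ) (i : Fin 3) :
    ∀ (n : ℕ) (η : E → ℝ) (c : ℝ), (∀ x ∈ B, η x = c * Real.cos (⟪a, x⟫_ℝ + β)) →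
      ∀ x ∈ B, dW ((LL i n).map ee) η x = c * (-(a i) ^ 2) ^ n * Real.cos (⟪a, x⟫_ℝ + β) := by
  intro n
  induction n with
  | zero =>
    intro η c h x hx
    simp [LL, dW, h x hx]
  | succ n ih =>
    intro η c h x hx
    have h1 : ∀ y ∈ B, fderiv ℝ η y (ee i) = -(c * a i) * Real.sin (⟪a, y⟫_ℝ + β) := by
      intro y hy
      have e1 : η =ᶠ[𝓝 y] fun z => c * Real.cos (⟪a, z⟫_ℝ + β) := by
        filter_upwards [hB.mem_nhds hy] with z hz
        exact h z hz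
      rw [e1.fderiv_eq]
      have h2 := ((hasFDerivAt_phase a β y).cos).const_mul c
      rw [h2.fderiv]
      simp only [smul_apply, innerSL_apply_apply, inner_ee, smul_eq_mul]
      ring
    have h3 : ∀ y ∈ B, fderiv ℝ (fun z => fderiv ℝ η z (ee i)) y (ee i) =
        (c * (-(a i) ^ 2)) * Real.cos (⟪a, y⟫_ℝ + β) := by
      intro y hy
      have e1 : (fun z => fderiv ℝ η z (ee i)) =ᶠ[𝓝 y]
          fun z => -(c * a i) * Real.sin (⟪a, z⟫_ℝ + β) := by
        filter_upwards [hB.mem_nhds hy] with z hz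
        exact h1 z hz
      rw [e1.fderiv_eq]
      have h2 := ((hasFDerivAt_phase a β y).sin).const_mul (-(c * a i))
      rw [h2.fderiv]
      simp only [smul_apply, innerSL_apply_apply, inner_ee, smul_eq_mul]
      ring
    have h4 := ih (fun x => fderiv ℝ (fun y => fderiv ℝ η y (ee i)) x (ee i)) _ h3 x hx
    show dW ((LL i n).map ee) _ x = _
    rw [h4, pow_succ]
    ring

theorem decay {f : E → ℝ} {R : ℝ} (hR : 0 ≤ R)
    (hsupp : ∀ᵐ x : E, R ≤ ‖x‖ → f x = 0) (h : AllW univ f) (i : Fin 3) (n : ℕ) :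
    ∃ C : ℝ, 0 ≤ C ∧ ∀ (a : E) (β : ℝ),
      |a i| ^ (2 * n) * |∫ x, f x * Real.cos (⟪a, x⟫_ℝ + β)| ≤ C := by
  obtain ⟨g, hg, hW⟩ := h.2 (LL i n)
  rw [Measure.restrict_univ] at hg
  let χ : ContDiffBump (0 : E) := ⟨R + 1, R + 2, by linarith, by linarith⟩
  have hχL2 : MemLp (fun x : E => χ x) 2 volume :=
    (χ.contDiff (n := 0)).continuous.memLp_of_hasCompactSupport χ.hasCompactSupport
  have hint : Integrable (fun x => |g x| * χ x) := by
    have := hg.norm.integrable_mul hχL2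
    exact this
  refine ⟨∫ x, |g x| * χ x, integral_nonneg fun x => mul_nonneg (abs_nonneg _) χ.nonneg,
    fun a β => ?_⟩
  set η : E → ℝ := fun x => χ x * Real.cos (⟪a, x⟫_ℝ + β) with hη
  have hcos : ContDiff ℝ ∞ (fun x : E => Real.cos (⟪a, x⟫_ℝ + β)) :=
    Real.contDiff_cos.comp (((innerSL ℝ a).contDiff).add contDiff_const)
  have hηt : IsTest univ η :=
    ⟨χ.contDiff.mul hcos, χ.hasCompactSupport.mul_right, subset_univ _⟩
  have h1 := hW η hηt
  rw [List.length_map, LL_length, pow_mul] at h1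
  simp only [Measure.restrict_univ, even_two, Even.neg_pow, one_pow, one_mul] at h1
  have h2 : (∫ x, f x * dW ((LL i n).map ee) η x) =
      (-(a i) ^ 2) ^ n * ∫ x, f x * Real.cos (⟪a, x⟫_ℝ + β) := by
    rw [← integral_const_mul]
    refine integral_congr_ae ?_
    filter_upwards [hsupp] with x hx
    rcases le_or_gt R ‖x‖ with hR' | hR'
    · rw [hx hR']; simp
    · have hxB : x ∈ Metric.ball (0 : E) (R + 1) := by
        rw [mem_ball_zero_iff]; linarith
      rw [dW_cos (Metric.isOpen_ball (x := (0 : E)) (ε := R + 1)) a β i n η 1 ?_ x hxB]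
      · ring
      · intro y hy
        have : χ y = 1 := χ.one_of_mem_closedBall (Metric.ball_subset_closedBall hy)
        rw [hη]
        simp only [this]
  rw [h2] at h1
  have h3 : |a i| ^ (2 * n) * |∫ x, f x * Real.cos (⟪a, x⟫_ℝ + β)| = |∫ x, g x * η x| := by
    rw [h1, abs_mul, abs_pow, abs_neg, abs_pow, pow_mul]
  rw [h3, ← Real.norm_eq_abs]
  refine (norm_integral_le_integral_norm _).trans ?_
  refine integral_mono_of_nonneg (Eventually.of_forall fun x => norm_nonneg _) hint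
    (Eventually.of_forall fun x => ?_)
  show ‖g x * (χ x * Real.cos (⟪a, x⟫_ℝ + β))‖ ≤ |g x| * χ x
  rw [norm_mul, norm_mul, Real.norm_eq_abs, Real.norm_eq_abs, Real.norm_eq_abs,
    abs_of_nonneg (χ.nonneg (x := x))]
  have h5 := Real.abs_cos_le_one (⟪a, x⟫_ℝ + β)
  have h6 : 0 ≤ |g x| * χ x := mul_nonneg (abs_nonneg _) χ.nonneg
  nlinarith

theorem norm_fourier_le {f : E → ℝ} (hf : Integrable f) (ξ : E) :
    ‖𝓕 (fun x => (f x : ℂ)) ξ‖ ≤
      |∫ x, f x * Real.cos (⟪(2 * Real.pi) • ξ, x⟫_ℝ + 0)| +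
      |∫ x, f x * Real.cos (⟪(2 * Real.pi) • ξ, x⟫_ℝ + Real.pi / 2)| := by
  have e1 : 𝓕 (fun x => (f x : ℂ)) ξ =
      ((∫ x, f x * Real.cos (⟪(2 * Real.pi) • ξ, x⟫_ℝ + 0) : ℝ) : ℂ) +
      Complex.I * ((∫ x, f x * Real.cos (⟪(2 * Real.pi) • ξ, x⟫_ℝ + Real.pi / 2) : ℝ) : ℂ) := by
    rw [Real.fourier_eq', ← integral_complex_ofReal, ← integral_complex_ofReal,
      ← integral_const_mul, ← integral_add]
    · congr 1
      ext x
      have e2 : Complex.exp ((↑(-2 * Real.pi * ⟪x, ξ⟫_ℝ) * Complex.I)) =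
          ((Real.cos (⟪(2 * Real.pi) • ξ, x⟫_ℝ + 0) : ℝ) : ℂ) +
          Complex.I * ((Real.cos (⟪(2 * Real.pi) • ξ, x⟫_ℝ + Real.pi / 2) : ℝ) : ℂ) := by
        rw [Complex.exp_mul_I, ← Complex.ofReal_cos, ← Complex.ofReal_sin, add_zero,
          Real.cos_add_pi_div_two, real_inner_smul_left, real_inner_comm,
          show -2 * Real.pi * ⟪ξ, x⟫_ℝ = -(2 * Real.pi * ⟪ξ, x⟫_ℝ) by ring, Real.cos_neg,
          Real.sin_neg]
        ring
      rw [e2]
      push_cast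
      rw [smul_eq_mul]
      ring
    · refine Integrable.ofReal ?_
      refine hf.mul_bdd (c := 1) (Continuous.aestronglyMeasurable (by fun_prop)) ?_
      exact Eventually.of_forall fun x => Real.abs_cos_le_one _
    · refine Integrable.const_mul ?_ _
      refine Integrable.ofReal ?_
      refine hf.mul_bdd (c := 1) (Continuous.aestronglyMeasurable (by fun_prop)) ?_
      exact Eventually.of_forall fun x => Real.abs_cos_le_one _
  rw [e1]
  refine (norm_add_le _ _).trans (le_of_eq ?_)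
  rw [norm_mul, Complex.norm_I, one_mul, Complex.norm_real, Complex.norm_real, Real.norm_eq_abs,
    Real.norm_eq_abs]

theorem norm_le_sum (ξ : E) : ‖ξ‖ ≤ |ξ 0| + |ξ 1| + |ξ 2| := by
  rw [EuclideanSpace.norm_eq]
  refine Real.sqrt_le_iff.mpr ⟨by positivity, ?_⟩
  rw [Fin.sum_univ_three]
  simp only [Real.norm_eq_abs]
  nlinarith [abs_nonneg (ξ 0), abs_nonneg (ξ 1), abs_nonneg (ξ 2),
    mul_nonneg (abs_nonneg (ξ 0)) (abs_nonneg (ξ 1)), mul_nonneg (abs_nonneg (ξ 0)) (abs_nonneg (ξ 2)),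
    mul_nonneg (abs_nonneg (ξ 1)) (abs_nonneg (ξ 2))]

theorem pow_four (a b c d : ℝ) (ha : 0 ≤ a) (hb : 0 ≤ b) (hc : 0 ≤ c) (hd : 0 ≤ d) (n : ℕ) :
    (a + b + c + d) ^ n ≤ 8 ^ n * (a ^ n + b ^ n + c ^ n + d ^ n) := by
  have h1 := add_pow_le (add_nonneg (add_nonneg ha hb) hc) hd n
  have h2 := add_pow_le (add_nonneg ha hb) hc n
  have h3 := add_pow_le ha hb n
  have h0 : (2 : ℝ) ^ (n - 1) ≤ 2 ^ n := pow_le_pow_right₀ (by norm_num) (by omega)
  have h4 : (1 : ℝ) ≤ 2 ^ n := one_le_pow₀ (by norm_num)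
  have h8 : (8 : ℝ) ^ n = 2 ^ n * (2 ^ n * 2 ^ n) := by
    rw [← mul_pow, ← mul_pow]; norm_num
  have i3 : (a + b) ^ n ≤ 2 ^ n * (a ^ n + b ^ n) :=
    h3.trans (mul_le_mul_of_nonneg_right h0 (by positivity))
  have i2 : (a + b + c) ^ n ≤ 2 ^ n * (2 ^ n * (a ^ n + b ^ n) + c ^ n) :=
    h2.trans (mul_le_mul h0 (by linarith) (by positivity) (by positivity))
  have i1 : (a + b + c + d) ^ n ≤ 2 ^ n * (2 ^ n * (2 ^ n * (a ^ n + b ^ n) + c ^ n) + d ^ n) :=
    h1.trans (mul_le_mul h0 (by linarith) (by positivity) (by positivity))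
  refine i1.trans ?_
  rw [h8]
  set t : ℝ := 2 ^ n
  have hA : 0 ≤ a ^ n := by positivity
  have hB : 0 ≤ b ^ n := by positivity
  have hC' : 0 ≤ c ^ n := by positivity
  have hD' : 0 ≤ d ^ n := by positivity
  have ht2 : t ≤ t * t := by nlinarith
  have ht3 : t * t ≤ t * (t * t) := by nlinarith
  have k1 : t * t * c ^ n ≤ t * (t * t) * c ^ n := mul_le_mul_of_nonneg_right ht3 hC'
  have k2 : t * d ^ n ≤ t * (t * t) * d ^ n :=
    mul_le_mul_of_nonneg_right (ht2.trans ht3) hD'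
  nlinarith

theorem fourier_decay {f : E → ℝ} (hfi : Integrable f) {R : ℝ} (hR : 0 ≤ R)
    (hsupp : ∀ᵐ x : E, R ≤ ‖x‖ → f x = 0) (h : AllW univ f) (n : ℕ) :
    ∃ C : ℝ, 0 ≤ C ∧ ∀ ξ : E, (1 + ‖ξ‖) ^ (2 * n) * ‖𝓕 (fun x => (f x : ℂ)) ξ‖ ≤ C := by
  obtain ⟨C0, hC0, h0⟩ := decay hR hsupp h 0 0
  have hi : ∀ i : Fin 3, ∃ C : ℝ, 0 ≤ C ∧ ∀ (a : E) (β : ℝ),
      |a i| ^ (2 * n) * |∫ x, f x * Real.cos (⟪a, x⟫_ℝ + β)| ≤ C := fun i => decay hR hsupp h i n
  choose C hC hCb using hi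
  refine ⟨8 ^ (2 * n) * (2 * C0 + 2 * C 0 + 2 * C 1 + 2 * C 2), ?_, fun ξ => ?_⟩
  · have := hC 0; have := hC 1; have := hC 2
    positivity
  have hπ : (1 : ℝ) ≤ 2 * Real.pi := by linarith [Real.pi_gt_three]
  set N := ‖𝓕 (fun x => (f x : ℂ)) ξ‖ with hN
  have hN0 : 0 ≤ N := norm_nonneg _
  have hF := norm_fourier_le hfi ξ
  set A1 := |∫ x, f x * Real.cos (⟪(2 * Real.pi) • ξ, x⟫_ℝ + 0)|
  set A2 := |∫ x, f x * Real.cos (⟪(2 * Real.pi) • ξ, x⟫_ℝ + Real.pi / 2)|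
  have hA1 : 0 ≤ A1 := abs_nonneg _
  have hA2 : 0 ≤ A2 := abs_nonneg _
  have b0 : N ≤ 2 * C0 := by
    have h1 := h0 ((2 * Real.pi) • ξ) 0
    have h2 := h0 ((2 * Real.pi) • ξ) (Real.pi / 2)
    simp only [mul_zero, pow_zero, one_mul] at h1 h2
    linarith
  have bi : ∀ i : Fin 3, |ξ i| ^ (2 * n) * N ≤ 2 * C i := by
    intro i
    have h1 := hCb i ((2 * Real.pi) • ξ) 0
    have h2 := hCb i ((2 * Real.pi) • ξ) (Real.pi / 2)
    have h3 : |ξ i| ^ (2 * n) ≤ |((2 * Real.pi) • ξ) i| ^ (2 * n) := by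
      refine pow_le_pow_left₀ (abs_nonneg _) ?_ _
      rw [PiLp.smul_apply, smul_eq_mul, abs_mul, abs_of_pos (by linarith : (0:ℝ) < 2 * Real.pi)]
      nlinarith [abs_nonneg (ξ i)]
    calc |ξ i| ^ (2 * n) * N ≤ |((2 * Real.pi) • ξ) i| ^ (2 * n) * (A1 + A2) := by
          refine mul_le_mul h3 hF hN0 (by positivity)
      _ = |((2 * Real.pi) • ξ) i| ^ (2 * n) * A1 + |((2 * Real.pi) • ξ) i| ^ (2 * n) * A2 := by
          ring
      _ ≤ 2 * C i := by linarith
  have hp : (1 + ‖ξ‖) ^ (2 * n) ≤ 8 ^ (2 * n) *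
      (1 ^ (2 * n) + |ξ 0| ^ (2 * n) + |ξ 1| ^ (2 * n) + |ξ 2| ^ (2 * n)) := by
    refine le_trans (pow_le_pow_left₀ (by positivity) ?_ _)
      (pow_four 1 |ξ 0| |ξ 1| |ξ 2| zero_le_one (abs_nonneg _) (abs_nonneg _) (abs_nonneg _) _)
    linarith [norm_le_sum ξ]
  rw [one_pow] at hp
  calc (1 + ‖ξ‖) ^ (2 * n) * N ≤ 8 ^ (2 * n) *
      (1 + |ξ 0| ^ (2 * n) + |ξ 1| ^ (2 * n) + |ξ 2| ^ (2 * n)) * N :=
        mul_le_mul_of_nonneg_right hp hN0
    _ = 8 ^ (2 * n) * (N + |ξ 0| ^ (2 * n) * N + |ξ 1| ^ (2 * n) * N + |ξ 2| ^ (2 * n) * N) := by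
        ring
    _ ≤ 8 ^ (2 * n) * (2 * C0 + 2 * C 0 + 2 * C 1 + 2 * C 2) := by
        refine mul_le_mul_of_nonneg_left ?_ (by positivity)
        linarith [bi 0, bi 1, bi 2]

theorem fourier_integrable {f : E → ℝ} (hfi : Integrable f) {R : ℝ} (hR : 0 ≤ R)
    (hsupp : ∀ᵐ x : E, R ≤ ‖x‖ → f x = 0) (h : AllW univ f) (m : ℕ) :
    Integrable (fun ξ : E => ‖ξ‖ ^ m * ‖𝓕 (fun x => (f x : ℂ)) ξ‖) := by
  obtain ⟨C, hC, hb⟩ := fourier_decay hfi hR hsupp h (m + 4)
  have hcont : Continuous (𝓕 (fun x => (f x : ℂ))) := by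
    refine VectorFourier.fourierIntegral_continuous Real.continuous_fourierChar ?_ hfi.ofReal
    exact (innerSL ℝ).continuous₂
  have h1 : Integrable (fun ξ : E => C * (1 + ‖ξ‖) ^ (-(4 : ℝ))) := by
    refine (integrable_one_add_norm ?_).const_mul _
    rw [finrank_euclideanSpace]
    norm_num
  refine h1.mono' ((continuous_norm.pow m).mul hcont.norm).aestronglyMeasurable
    (Eventually.of_forall fun ξ => ?_)
  rw [Real.norm_eq_abs, abs_of_nonneg (by positivity), Real.rpow_neg (by positivity),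
    ← div_eq_mul_inv, le_div_iff₀ (by positivity)]
  have e4 : (1 + ‖ξ‖) ^ (4 : ℝ) = (1 + ‖ξ‖) ^ (4 : ℕ) := by
    rw [← Real.rpow_natCast]; norm_num
  rw [e4]
  have h2 : ‖ξ‖ ^ m ≤ (1 + ‖ξ‖) ^ m := pow_le_pow_left₀ (norm_nonneg _) (by linarith) _
  have h3 : (1 + ‖ξ‖) ^ (m + 4) ≤ (1 + ‖ξ‖) ^ (2 * (m + 4)) :=
    pow_le_pow_right₀ (by linarith [norm_nonneg ξ]) (by omega)
  set N := ‖𝓕 (fun x => (f x : ℂ)) ξ‖
  have hN0 : 0 ≤ N := norm_nonneg _
  calc ‖ξ‖ ^ m * N * (1 + ‖ξ‖) ^ 4 = (‖ξ‖ ^ m * (1 + ‖ξ‖) ^ 4) * N := by ring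
    _ ≤ ((1 + ‖ξ‖) ^ m * (1 + ‖ξ‖) ^ 4) * N := by gcongr
    _ = (1 + ‖ξ‖) ^ (m + 4) * N := by rw [pow_add]
    _ ≤ (1 + ‖ξ‖) ^ (2 * (m + 4)) * N := by gcongr
    _ ≤ C := hb ξ

/-- self-adjointness of the inverse transform -/
theorem flip_inv {f : E → ℂ} {g : E → ℂ} (hf : Integrable f) (hg : Integrable g) :
    ∫ ξ, 𝓕⁻ f ξ • g ξ = ∫ x, f x • 𝓕⁻ g x := by
  have hc : Continuous fun p : E × E => (-innerₗ E) p.1 p.2 := by
    simp only [LinearMap.neg_apply, innerₗ_apply_apply]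
    fun_prop
  have h := VectorFourier.integral_fourierIntegral_smul_eq_flip (μ := (volume : Measure E))
    (ν := (volume : Measure E)) (L := -innerₗ E) (e := Real.fourierChar) (f := f) (g := g)
    Real.continuous_fourierChar hc hf hg
  have h2 : (-innerₗ E).flip = -innerₗ E := by
    ext x y
    simp [real_inner_comm]
  rw [h2] at h
  exact h

/-- self-adjointness of the transform -/
theorem flip_fwd {f : E → ℂ} {g : E → ℂ} (hf : Integrable f) (hg : Integrable g) :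
    ∫ ξ, 𝓕 f ξ • g ξ = ∫ x, f x • 𝓕 g x := by
  have hc : Continuous fun p : E × E => (innerₗ E) p.1 p.2 := by
    simp only [innerₗ_apply_apply]
    fun_prop
  have h := VectorFourier.integral_fourierIntegral_smul_eq_flip (μ := (volume : Measure E))
    (ν := (volume : Measure E)) (L := innerₗ E) (e := Real.fourierChar) (f := f) (g := g)
    Real.continuous_fourierChar hc hf hg
  have h2 : (innerₗ E).flip = innerₗ E := by
    ext x y
    simp
  rw [h2] at h
  exact h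

end E8

open E8

theorem glob : GlobStmt := by
  intro f hf hR h
  obtain ⟨R0, hsupp0⟩ := hR
  set R := max R0 0 with hRdef
  have hR : 0 ≤ R := le_max_right _ _
  have hsupp : ∀ᵐ x : E, R ≤ ‖x‖ → f x = 0 := by
    filter_upwards [hsupp0] with x hx h'
    exact hx ((le_max_left _ _).trans h')
  have hfi : Integrable f := by
    have : IsFiniteMeasure ((volume : Measure E).restrict (Metric.closedBall (0 : E) R)) :=
      ⟨by rw [Measure.restrict_apply_univ]; exact measure_closedBall_lt_top⟩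
    have h1 : IntegrableOn f (Metric.closedBall (0 : E) R) :=
      (hf.restrict _).integrable (by norm_num)
    have h2 : f =ᵐ[volume] (Metric.closedBall (0 : E) R).indicator f := by
      filter_upwards [hsupp] with x hx
      by_cases hxB : x ∈ Metric.closedBall (0 : E) R
      · rw [indicator_of_mem hxB]
      · rw [indicator_of_notMem hxB]
        rw [mem_closedBall_zero_iff, not_le] at hxB
        exact hx hxB.le
    exact (h1.integrable_indicator measurableSet_closedBall).congr h2.symm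
  set F : E → ℂ := fun x => (f x : ℂ) with hF
  have hFi : Integrable F := hfi.ofReal
  have hFF : ∀ m : ℕ, Integrable (fun ξ : E => ‖ξ‖ ^ m * ‖𝓕 F ξ‖) :=
    fun m => fourier_integrable hfi hR hsupp h m
  have hcont : Continuous (𝓕 F) := by
    refine VectorFourier.fourierIntegral_continuous Real.continuous_fourierChar ?_ hFi
    exact (innerSL ℝ).continuous₂
  have hFFi : Integrable (𝓕 F) := by
    have := hFF 0
    simp only [pow_zero, one_mul] at this
    exact (integrable_norm_iff hcont.aestronglyMeasurable).1 this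
  set U0 : E → ℂ := 𝓕⁻ (𝓕 F) with hU0
  have hU0s : ContDiff ℝ ∞ U0 := by
    have h1 : ContDiff ℝ ∞ (𝓕 (𝓕 F)) := Real.contDiff_fourier (fun n _ => hFF n)
    have h2 : U0 = fun v => 𝓕 (𝓕 F) (-v) := by
      ext v
      rw [hU0, Real.fourierInv_eq_fourier_neg]
    rw [h2]
    exact h1.comp contDiff_neg
  have hae : ∀ᵐ x, F x = U0 x := by
    refine ae_eq_of_integral_contDiff_smul_eq hFi.locallyIntegrable
      hU0s.continuous.locallyIntegrable ?_
    intro g hg hgc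
    have hΦs : ContDiff ℝ ∞ (fun x => (g x : ℂ)) := Complex.ofRealCLM.contDiff.comp hg
    have hΦc : HasCompactSupport (fun x => (g x : ℂ)) :=
      hgc.comp_left (g := fun r : ℝ => (r : ℂ)) Complex.ofReal_zero
    set Φ := hΦc.toSchwartzMap hΦs with hΦ
    have hΦe : (Φ : E → ℂ) = fun x => (g x : ℂ) := by
      ext x; rfl
    have i1 : Integrable (fun x => (g x : ℂ)) := hΦe ▸ Φ.integrable
    have i2 : Integrable (𝓕⁻ (fun x => (g x : ℂ))) := by
      rw [← hΦe, ← SchwartzMap.fourierInv_coe]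
      exact (𝓕⁻ Φ).integrable
    have i3 : 𝓕 (𝓕⁻ (fun x => (g x : ℂ))) = fun x => (g x : ℂ) := by
      have i4 : Integrable (𝓕 (fun x => (g x : ℂ))) := by
        rw [← hΦe, ← SchwartzMap.fourier_coe]
        exact (𝓕 Φ).integrable
      exact hΦs.continuous.fourier_fourierInv_eq i1 i4
    have e1 : (∫ x, g x • U0 x) = ∫ x, 𝓕⁻ (𝓕 F) x • (g x : ℂ) := by
      congr 1; ext x
      rw [hU0, Complex.real_smul, smul_eq_mul, mul_comm]
    have e2 : (∫ x, g x • F x) = ∫ x, F x • (g x : ℂ) := by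
      congr 1; ext x
      rw [Complex.real_smul, smul_eq_mul, mul_comm]
    rw [e1, e2, flip_inv hFFi i1, flip_fwd hFi i2, i3]
  refine ⟨fun x => (U0 x).re, Complex.reCLM.contDiff.comp hU0s, ?_⟩
  filter_upwards [hae] with x hx
  rw [← hx]
  simp [hF]

end Pool.Agent.H92.BN
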