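import Pool.Agent.H92.BN.ME9_Half

/-!
# Scaling in the last variable, and the dual (Seeley) series of a test function
-/

set_option autoImplicit false

namespace Pool.Agent.H92.BN.Seeley

open MeasureTheory Set Filter Topology
open scoped ContDiff InnerProductSpace

/-- scaling of the last variable -/
noncomputable def Bm (c : ℝ) : E →L[ℝ] E :=
  ContinuousLinearMap.id ℝ E +
    (c - 1) • (EuclideanSpace.proj (𝕜 := ℝ) (ι := Fin 3) 2).smulRight (ee 2)

theorem Bm_apply (c : ℝ) (x : E) : Bm c x = x + ((c - 1) * x 2) • ee 2 := by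
  simp [Bm, smul_smul]

theorem Bm_coord (c : ℝ) (x : E) (i : Fin 3) : Bm c x i = if i = 2 then c * x 2 else x i := by
  rw [Bm_apply]
  fin_cases i <;> simp [ee]
  ring

theorem Bm_two (c : ℝ) (x : E) : Bm c x 2 = c * x 2 := by rw [Bm_coord]; simp

theorem Bm_ne (c : ℝ) (x : E) {i : Fin 3} (h : i ≠ 2) : Bm c x i = x i := by
  rw [Bm_coord]; simp [h]

theorem Bm_Bm (c d : ℝ) (x : E) : Bm c (Bm d x) = Bm (c * d) x := by
  ext i
  by_cases h : i = 2
  · subst h; simp only [Bm_two]; ring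
  · rw [Bm_ne _ _ h, Bm_ne _ _ h, Bm_ne _ _ h]

theorem Bm_one (x : E) : Bm 1 x = x := by
  rw [Bm_apply]; simp

theorem Bm_plane (c : ℝ) {x : E} (h : x 2 = 0) : Bm c x = x := by
  rw [Bm_apply, h]; simp

theorem Bm_ee (c : ℝ) (i : Fin 3) : Bm c (ee i) = (if i = 2 then c else 1) • ee i := by
  ext j
  rw [Bm_coord]
  fin_cases i <;> fin_cases j <;> simp [ee]

theorem norm_Bm {c : ℝ} (hc : |c| ≤ 1) : ‖Bm c‖ ≤ 1 := by
  refine ContinuousLinearMap.opNorm_le_bound _ zero_le_one (fun x => ?_)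
  rw [one_mul, EuclideanSpace.norm_eq, EuclideanSpace.norm_eq]
  apply Real.sqrt_le_sqrt
  simp only [Fin.sum_univ_three, Real.norm_eq_abs, sq_abs]
  rw [Bm_ne c x (by decide : (0 : Fin 3) ≠ 2), Bm_ne c x (by decide : (1 : Fin 3) ≠ 2), Bm_two]
  have h1 : c ^ 2 ≤ 1 := by
    rw [← sq_abs]
    nlinarith [abs_nonneg c]
  nlinarith [sq_nonneg (x 2)]

theorem det_Bm (c : ℝ) : LinearMap.det (Bm c : E →ₗ[ℝ] E) = c := by
  rw [← LinearMap.det_toMatrix (EuclideanSpace.basisFun (Fin 3) ℝ).toBasis, Matrix.det_fin_three]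
  simp only [LinearMap.toMatrix_apply]
  simp [Bm_apply, ee]

theorem map_Bm {c : ℝ} (hc : c ≠ 0) :
    Measure.map (Bm c) (volume : Measure E) = ENNReal.ofReal |c⁻¹| • volume := by
  have h := Measure.map_linearMap_addHaar_eq_smul_addHaar (volume : Measure E)
    (f := (Bm c : E →ₗ[ℝ] E)) (by rw [det_Bm]; exact hc)
  rw [det_Bm] at h
  exact h

theorem cont_Bm (c : ℝ) : Continuous (Bm c) := (Bm c).continuous

theorem measurable_Bm (c : ℝ) : Measurable (Bm c) := (cont_Bm c).measurable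

theorem me_Bm {c : ℝ} (hc : c ≠ 0) : MeasurableEmbedding (Bm c) := by
  refine (cont_Bm c).measurableEmbedding ?_
  intro x y hxy
  have := congrArg (Bm c⁻¹) hxy
  rwa [Bm_Bm, Bm_Bm, inv_mul_cancel₀ hc, Bm_one, Bm_one] at this

theorem integral_Bm {c : ℝ} (hc : c ≠ 0) (G : E → ℝ) :
    (∫ x, G (Bm c x)) = |c⁻¹| * ∫ x, G x := by
  rw [← (me_Bm hc).integral_map, map_Bm hc, integral_smul_measure,
    ENNReal.toReal_ofReal (abs_nonneg _), smul_eq_mul]

theorem memLp_Bm {c : ℝ} (hc : c ≠ 0) {F : E → ℝ} (hF : MemLp F 2 volume) :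
    MemLp (F ∘ Bm c) 2 volume := by
  refine ((me_Bm hc).memLp_map_measure_iff).1 ?_
  rw [map_Bm hc]
  exact hF.smul_measure (by simp)

theorem eLpNorm_Bm {c : ℝ} (hc : 1 ≤ |c|) (F : E → ℝ) :
    eLpNorm (F ∘ Bm c) 2 volume ≤ eLpNorm F 2 volume := by
  have hc0 : c ≠ 0 := by
    rintro rfl
    simp at hc
    linarith
  rw [← (me_Bm hc0).eLpNorm_map_measure, map_Bm hc0]
  apply eLpNorm_mono_measure
  intro s
  rw [Measure.smul_apply, smul_eq_mul]
  refine (mul_le_mul_left (ENNReal.ofReal_le_one.2 ?_) _).trans (one_mul _).le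
  rw [abs_inv]
  exact inv_le_one_of_one_le₀ hc

/-! ### the dual series -/

/-- the reflected dilation ratios -/
noncomputable def rt (k : ℕ) : ℝ := -(1 / 2 : ℝ) ^ k

theorem abs_rt (k : ℕ) : |rt k| ≤ 1 := by
  unfold rt
  rw [abs_neg, abs_of_nonneg (by positivity)]
  exact pow_le_one₀ (by norm_num) (by norm_num)

/-- dual series -/
noncomputable def Z (c : ℕ → ℝ) (η : E → ℝ) (x : E) : ℝ := η x + ∑' k, c k * η (Bm (rt k) x)

theorem bdd_iter {η : E → ℝ} (hη : ContDiff ℝ ∞ η) (hc : HasCompactSupport η) (n : ℕ) :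
    ∃ M : ℝ, ∀ x, ‖iteratedFDeriv ℝ n η x‖ ≤ M :=
  (hc.iteratedFDeriv (𝕜 := ℝ) n).exists_bound_of_continuous
    (hη.continuous_iteratedFDeriv (mod_cast le_top))

theorem term_smooth {η : E → ℝ} (hη : ContDiff ℝ ∞ η) (a c : ℝ) :
    ContDiff ℝ ∞ (fun x => a * η (Bm c x)) :=
  contDiff_const.mul (hη.comp (Bm c).contDiff)

theorem term_iter {η : E → ℝ} (hη : ContDiff ℝ ∞ η) (a : ℝ) {c : ℝ} (hc : |c| ≤ 1) (n : ℕ)
    {M : ℝ} (hM : ∀ x, ‖iteratedFDeriv ℝ n η x‖ ≤ M) (x : E) :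
    ‖iteratedFDeriv ℝ n (fun x => a * η (Bm c x)) x‖ ≤ |a| * M := by
  have h1 : ContDiff ℝ ∞ (η ∘ Bm c) := hη.comp (Bm c).contDiff
  have e1 : (fun x => a * η (Bm c x)) = a • (η ∘ Bm c) := rfl
  have hM0 : 0 ≤ M := (norm_nonneg _).trans (hM 0)
  rw [e1, iteratedFDeriv_const_smul_apply ((h1.of_le (mod_cast le_top)).contDiffAt), norm_smul,
    Real.norm_eq_abs]
  refine mul_le_mul_of_nonneg_left ?_ (abs_nonneg _)
  rw [ContinuousLinearMap.iteratedFDeriv_comp_right (Bm c) hη x (mod_cast le_top)]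
  refine (ContinuousMultilinearMap.norm_compContinuousLinearMap_le _ _).trans ?_
  rw [Finset.prod_const]
  calc ‖iteratedFDeriv ℝ n η (Bm c x)‖ * ‖Bm c‖ ^ Finset.card (Finset.univ : Finset (Fin n))
      ≤ M * 1 := by
        apply mul_le_mul (hM _) (pow_le_one₀ (norm_nonneg _) (norm_Bm hc)) (by positivity) hM0
    _ = M := mul_one M

theorem Z_smooth {c : ℕ → ℝ} (hc : Summable fun k => |c k|) {η : E → ℝ} (hη : ContDiff ℝ ∞ η)
    (hs : HasCompactSupport η) : ContDiff ℝ ∞ (Z c η) := by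
  choose M hM using bdd_iter hη hs
  refine hη.add ?_
  refine contDiff_tsum (𝕜 := ℝ) (N := ⊤) (v := fun n k => |c k| * M n)
    (fun k => term_smooth hη _ _) (fun n _ => hc.mul_right _) (fun n k x _ => ?_)
  exact term_iter hη (c k) (abs_rt k) n (hM n) x

theorem Z_fderiv {c : ℕ → ℝ} (hc : Summable fun k => |c k|) {η : E → ℝ} (hη : ContDiff ℝ ∞ η)
    (hs : HasCompactSupport η) (i : Fin 3) (x : E) :
    fderiv ℝ (Z c η) x (ee i) =
      Z (fun k => c k * (if i = 2 then rt k else 1)) (fun x => fderiv ℝ η x (ee i)) x := by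
  obtain ⟨M, hM⟩ := bdd_iter hη hs 1
  obtain ⟨M0, hM0⟩ := bdd_iter hη hs 0
  have hd : Differentiable ℝ η := hη.differentiable (by simp)
  have hderiv : ∀ k x, HasFDerivAt (fun x => c k * η (Bm (rt k) x))
      (c k • (fderiv ℝ η (Bm (rt k) x)).comp (Bm (rt k))) x := by
    intro k x
    exact ((hd _).hasFDerivAt.comp x (Bm (rt k)).hasFDerivAt).const_mul (c k)
  have hb : ∀ k x, ‖c k • (fderiv ℝ η (Bm (rt k) x)).comp (Bm (rt k))‖ ≤ |c k| * M := by
    intro k x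
    rw [norm_smul, Real.norm_eq_abs]
    refine mul_le_mul_of_nonneg_left ?_ (abs_nonneg _)
    refine (ContinuousLinearMap.opNorm_comp_le _ _).trans ?_
    have h1 : ‖fderiv ℝ η (Bm (rt k) x)‖ ≤ M := by
      rw [← norm_iteratedFDeriv_one]; exact hM _
    calc ‖fderiv ℝ η (Bm (rt k) x)‖ * ‖Bm (rt k)‖ ≤ M * 1 :=
          mul_le_mul h1 (norm_Bm (abs_rt k)) (norm_nonneg _) ((norm_nonneg _).trans h1)
      _ = M := mul_one M
  have h0 : Summable fun k => c k * η (Bm (rt k) 0) := by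
    refine Summable.of_norm_bounded (g := fun k => |c k| * M0) (hc.mul_right _) (fun k => ?_)
    rw [norm_mul, Real.norm_eq_abs]
    refine mul_le_mul_of_nonneg_left ?_ (abs_nonneg _)
    rw [← norm_iteratedFDeriv_zero (𝕜 := ℝ)]; exact hM0 _
  have hS : HasFDerivAt (fun x => ∑' k, c k * η (Bm (rt k) x))
      (∑' k, c k • (fderiv ℝ η (Bm (rt k) x)).comp (Bm (rt k))) x :=
    hasFDerivAt_tsum (hc.mul_right M) hderiv hb h0 x
  have hZ : HasFDerivAt (Z c η) (fderiv ℝ η x +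
      ∑' k, c k • (fderiv ℝ η (Bm (rt k) x)).comp (Bm (rt k))) x := (hd x).hasFDerivAt.add hS
  have hsum : Summable fun k => c k • (fderiv ℝ η (Bm (rt k) x)).comp (Bm (rt k)) :=
    Summable.of_norm_bounded (hc.mul_right M) (fun k => hb k x)
  rw [hZ.fderiv, _root_.add_apply]
  unfold Z
  congr 1
  have := (ContinuousLinearMap.apply ℝ ℝ (ee i)).map_tsum hsum
  simp only [ContinuousLinearMap.apply_apply] at this
  rw [this]
  refine tsum_congr (fun k => ?_)
  simp only [_root_.smul_apply, ContinuousLinearMap.comp_apply, Bm_ee, map_smul,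
    smul_eq_mul]
  split_ifs <;> ring

theorem Z_plane {c : ℕ → ℝ} (h : ∑' k, c k = -1) (η : E → ℝ) {x : E}
    (hx : x 2 = 0) : Z c η x = 0 := by
  unfold Z
  have : ∀ k, c k * η (Bm (rt k) x) = c k * η x := fun k => by rw [Bm_plane _ hx]
  simp only [this]
  rw [tsum_mul_right, h]
  ring

end Pool.Agent.H92.BN.Seeley
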