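import Pool.Agent.H92.BN.ME9_Seq
import Pool.Agent.H92.BN.ME9_Z

/-!
# Module E9: smoothness up to the flat boundary by Seeley extension
-/

set_option autoImplicit false

namespace Pool.Agent.H92.BN.Seeley

open MeasureTheory Set Filter Topology
open scoped ContDiff InnerProductSpace

/-- dilation ratios for the reflected copies -/
noncomputable def st (k : ℕ) : ℝ := -(2 : ℝ) ^ k

theorem st_ne (k : ℕ) : st k ≠ 0 := by
  unfold st
  have : (2 : ℝ) ^ k ≠ 0 := by positivity
  exact neg_ne_zero.2 this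

theorem one_le_st (k : ℕ) : 1 ≤ |st k| := by
  unfold st
  rw [abs_neg, abs_of_pos (by positivity)]
  exact one_le_pow₀ (by norm_num)

theorem st_rt (k : ℕ) : st k * rt k = 1 := by
  unfold st rt
  rw [neg_mul_neg, ← mul_pow]
  norm_num

theorem st_inv (k : ℕ) : (st k)⁻¹ = rt k := by
  rw [inv_eq_iff_eq_inv, ← one_div, eq_div_iff, st_rt]
  intro h
  have := st_rt k
  rw [h, mul_zero] at this
  exact zero_ne_one this

/-- the reflected copy in `L²` -/
noncomputable def tk (k : ℕ) (F : E → ℝ) (hF : MemLp F 2 (volume : Measure E)) :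
    Lp ℝ 2 (volume : Measure E) := (memLp_Bm (st_ne k) hF).toLp _

theorem norm_tk (k : ℕ) (F : E → ℝ) (hF : MemLp F 2 (volume : Measure E)) :
    ‖tk k F hF‖ ≤ ‖hF.toLp F‖ := by
  unfold tk
  rw [Lp.norm_toLp, Lp.norm_toLp]
  exact ENNReal.toReal_mono hF.2.ne (eLpNorm_Bm (one_le_st k) F)

/-- the extended function -/
noncomputable def T (a : ℕ → ℝ) (m : ℕ) (F : E → ℝ) (hF : MemLp F 2 (volume : Measure E)) :
    Lp ℝ 2 (volume : Measure E) :=
  hF.toLp F + ∑' k, (a k * st k ^ m) • tk k F hF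

/-- coefficients of the dual series -/
noncomputable def cf (a : ℕ → ℝ) (m k : ℕ) : ℝ := a k * st k ^ m * |rt k|

variable {a : ℕ → ℝ}

theorem abs_cf (m k : ℕ) : |cf a m k| ≤ |a k * st k ^ m| := by
  unfold cf
  rw [abs_mul, abs_abs]
  exact mul_le_of_le_one_right (abs_nonneg _) (abs_rt k)

theorem summable_abs (ha : ∀ n, Summable (fun k => |a k| * (2 : ℝ) ^ (k * n))) (m : ℕ) :
    Summable (fun k => |a k * st k ^ m|) := by
  refine (ha m).congr (fun k => ?_)
  rw [abs_mul, abs_pow]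
  unfold st
  rw [abs_neg, abs_of_pos (by positivity : (0 : ℝ) < 2 ^ k), pow_mul]

theorem summable_cf (ha : ∀ n, Summable (fun k => |a k| * (2 : ℝ) ^ (k * n))) (m : ℕ) :
    Summable (fun k => |cf a m k|) :=
  Summable.of_nonneg_of_le (fun _ => abs_nonneg _) (fun k => abs_cf m k) (summable_abs ha m)

theorem summable_T (ha : ∀ n, Summable (fun k => |a k| * (2 : ℝ) ^ (k * n))) (m : ℕ)
    {F : E → ℝ} (hF : MemLp F 2 (volume : Measure E)) :
    Summable (fun k => (a k * st k ^ m) • tk k F hF) := by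
  refine Summable.of_norm_bounded (g := fun k => |a k * st k ^ m| * ‖hF.toLp F‖)
    ((summable_abs ha m).mul_right _) (fun k => ?_)
  rw [norm_smul, Real.norm_eq_abs]
  exact mul_le_mul_of_nonneg_left (norm_tk k F hF) (abs_nonneg _)

theorem pair_eq (G : Lp ℝ 2 (volume : Measure E)) {η : E → ℝ} (hη : MemLp η 2 (volume : Measure E)) :
    ⟪hη.toLp η, G⟫_ℝ = ∫ x, G x * η x := by
  rw [L2.inner_def]
  refine integral_congr_ae ?_
  filter_upwards [hη.coeFn_toLp] with x hx
  rw [hx]
  simp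

theorem pair_toLp {F : E → ℝ} (hF : MemLp F 2 (volume : Measure E)) {η : E → ℝ}
    (hη : MemLp η 2 (volume : Measure E)) :
    ⟪hη.toLp η, hF.toLp F⟫_ℝ = ∫ x, F x * η x := by
  rw [pair_eq]
  refine integral_congr_ae ?_
  filter_upwards [hF.coeFn_toLp] with x hx
  rw [hx]

theorem pair_tk (k : ℕ) {F : E → ℝ} (hF : MemLp F 2 (volume : Measure E)) {η : E → ℝ}
    (hη : MemLp η 2 (volume : Measure E)) :
    ⟪hη.toLp η, tk k F hF⟫_ℝ = |rt k| * ∫ x, F x * η (Bm (rt k) x) := by
  unfold tk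
  rw [pair_toLp, ← st_inv, ← integral_Bm (st_ne k)]
  refine integral_congr_ae (Eventually.of_forall fun x => ?_)
  show F (Bm (st k) x) * η x = F (Bm (st k) x) * η (Bm (st k)⁻¹ (Bm (st k) x))
  rw [Bm_Bm, inv_mul_cancel₀ (st_ne k), Bm_one]

theorem pair_T (ha : ∀ n, Summable (fun k => |a k| * (2 : ℝ) ^ (k * n))) (m : ℕ)
    {F : E → ℝ} (hF : MemLp F 2 (volume : Measure E)) (hF1 : Integrable F) {η : E → ℝ}
    (hηc : Continuous η) (hηs : HasCompactSupport η) :
    (∫ x, T a m F hF x * η x) =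
      ∫ x, F x * Z (cf a m) η x := by
  have hη : MemLp η 2 (volume : Measure E) := memLp_cpt hηc hηs 2
  obtain ⟨M, hM⟩ := hηs.exists_bound_of_continuous hηc
  rw [← pair_eq _ hη]
  unfold T
  rw [inner_add_right, pair_toLp]
  have h1 : ⟪hη.toLp η, ∑' k, (a k * st k ^ m) • tk k F hF⟫_ℝ =
      ∑' k, (a k * st k ^ m) * (|rt k| * ∫ x, F x * η (Bm (rt k) x)) := by
    have := (innerSL ℝ (hη.toLp η)).map_tsum (summable_T ha m hF)
    simp only [innerSL_apply_apply] at this
    rw [this]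
    refine tsum_congr (fun k => ?_)
    rw [inner_smul_right, pair_tk]
  rw [h1]
  have hcs : Summable (fun k => |cf a m k|) := summable_cf ha m
  have hint : ∀ k, Integrable (fun x => cf a m k * (F x * η (Bm (rt k) x))) := by
    intro k
    refine Integrable.const_mul ?_ _
    exact hF1.mul_bdd (hηc.comp (cont_Bm _)).aestronglyMeasurable (Eventually.of_forall fun x => hM _)
  have hM0 : 0 ≤ M := (norm_nonneg _).trans (hM 0)
  have hsum := hasSum_integral_of_summable_integral_norm hint (by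
    refine Summable.of_nonneg_of_le (fun k => integral_nonneg fun x => norm_nonneg _) (fun k => ?_)
      (hcs.mul_right (M * ∫ x, ‖F x‖))
    rw [← integral_const_mul, ← integral_const_mul]
    refine integral_mono (hint k).norm ((hF1.norm.const_mul _).const_mul _) (fun x => ?_)
    show ‖cf a m k * (F x * η (Bm (rt k) x))‖ ≤
      |cf a m k| * (M * ‖F x‖)
    rw [norm_mul, Real.norm_eq_abs (cf a m k), norm_mul, mul_comm ‖F x‖]
    refine mul_le_mul_of_nonneg_left ?_ (abs_nonneg _)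
    exact mul_le_mul_of_nonneg_right (hM _) (norm_nonneg _))
  have h2 : (∑' k, (a k * st k ^ m) * (|rt k| * ∫ x, F x * η (Bm (rt k) x))) =
      ∫ x, ∑' k, cf a m k * (F x * η (Bm (rt k) x)) := by
    rw [← hsum.tsum_eq]
    refine tsum_congr (fun k => ?_)
    rw [integral_const_mul]
    unfold cf
    ring
  have h3 : ∀ x, (∑' k, cf a m k * (F x * η (Bm (rt k) x))) =
      F x * ∑' k, cf a m k * η (Bm (rt k) x) := by
    intro x
    rw [← tsum_mul_left]
    refine tsum_congr (fun k => ?_)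
    ring
  have hZb : ∀ x, ‖∑' k, cf a m k * η (Bm (rt k) x)‖ ≤
      ∑' k, |cf a m k| * M := by
    intro x
    refine tsum_of_norm_bounded (hcs.mul_right M).hasSum (fun k => ?_)
    rw [norm_mul, Real.norm_eq_abs]
    exact mul_le_mul_of_nonneg_left (hM _) (abs_nonneg _)
  have hZm : AEStronglyMeasurable (fun x => ∑' k, cf a m k * η (Bm (rt k) x))
      (volume : Measure E) := by
    refine Continuous.aestronglyMeasurable (continuous_tsum (fun k => ?_) (hcs.mul_right M)
      (fun k x => ?_))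
    · exact continuous_const.mul (hηc.comp (cont_Bm _))
    · rw [norm_mul, Real.norm_eq_abs]
      exact mul_le_mul_of_nonneg_left (hM _) (abs_nonneg _)
  rw [h2]
  simp only [h3]
  rw [← integral_add]
  · refine integral_congr_ae (Eventually.of_forall fun x => ?_)
    show F x * η x + F x * _ = F x * Z _ η x
    unfold Z
    ring
  · exact integrable_mul_of hF hη
  · exact hF1.mul_bdd hZm (Eventually.of_forall hZb)

theorem Gen.integrable {r : ℝ} {F : E → ℝ} (h : Gen r F) : Integrable F := by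
  have hb : (volume : Measure E) (boxm r) < ⊤ := by
    refine (measure_mono (t := Metric.ball (0 : E) (2 * r)) (fun x hx => ?_)).trans_lt
      measure_ball_lt_top
    rw [mem_ball_zero_iff]
    exact norm_lt_of_boxm hx
  have hi : IntegrableOn F (boxm r) := by
    have : IsFiniteMeasure (volume.restrict (boxm r)) := ⟨by simpa using hb⟩
    exact (h.memLp.restrict (boxm r)).integrable (by norm_num)
  have he : F = indicator (boxm r) F := by
    ext1 x
    by_cases hx : x ∈ boxm r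
    · rw [indicator_of_mem hx]
    · rw [indicator_of_notMem hx, h.zero_off hx]
  rw [he]
  exact hi.integrable_indicator (isOpen_boxm r).measurableSet

theorem Gen.integral_Hm {r : ℝ} {F : E → ℝ} (h : Gen r F) (ζ : E → ℝ) :
    (∫ x, F x * ζ x) = ∫ x in Hm, F x * ζ x := by
  rw [← integral_indicator isOpen_Hm.measurableSet]
  refine integral_congr_ae (Eventually.of_forall fun x => ?_)
  show F x * ζ x = indicator Hm (fun x => F x * ζ x) x
  by_cases hx : x ∈ Hm
  · rw [indicator_of_mem hx]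
  · rw [indicator_of_notMem hx, h.zero_off (fun hc => hx (boxm_subset_Hm r hc)), zero_mul]

/-- the family of extended functions -/
def S2 (a : ℕ → ℝ) (r : ℝ) : Set (E → ℝ) :=
  {g | ∃ (m : ℕ) (F : E → ℝ) (hF : Gen r F), g = T a m F hF.memLp}

theorem clos_S2 (ha : ∀ n, Summable (fun k => |a k| * (2 : ℝ) ^ (k * n)))
    (ha1 : ∀ n, ∑' k, a k * (st k) ^ n = 1) (r : ℝ) : Clos univ (S2 a r) := by
  rintro g ⟨m, F, hF, rfl⟩
  refine ⟨by rw [Measure.restrict_univ]; exact Lp.memLp _, fun i => ?_⟩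
  obtain ⟨F', hF', hW⟩ := hF.deriv i
  have hcs : ∀ m, Summable (fun k => |cf a m k|) := summable_cf ha
  by_cases hi : i = 2
  · refine ⟨_, ⟨m + 1, F', hF', rfl⟩, fun η hη => ?_⟩
    rw [Measure.restrict_univ, pair_T ha _ _ hF'.integrable hη.smooth.continuous hη.cpt,
      pair_T ha _ _ hF.integrable (isTest_fd hη (ee i)).smooth.continuous (isTest_fd hη (ee i)).cpt,
      hF.integral_Hm, hF'.integral_Hm]
    rw [half hF hF' hW (Z_smooth (hcs (m + 1)) hη.smooth hη.cpt) (fun _ x hx => Z_plane ?_ η hx)]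
    · congr 1
      refine integral_congr_ae (Eventually.of_forall fun x => ?_)
      show F x * fderiv ℝ (Z _ η) x (ee i) = F x * Z _ _ x
      rw [Z_fderiv (hcs (m + 1)) hη.smooth hη.cpt]
      congr 2
      ext1 k
      rw [if_pos hi]
      unfold cf
      calc a k * st k ^ (m + 1) * |rt k| * rt k = a k * st k ^ m * |rt k| * (st k * rt k) := by ring
        _ = _ := by rw [st_rt, mul_one]
    · rw [← neg_eq_iff_eq_neg, ← tsum_neg, ← ha1 m]
      refine tsum_congr (fun k => ?_)
      have h1 : |rt k| = - rt k := by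
        apply abs_of_nonpos
        unfold rt
        have : (0 : ℝ) ≤ (1 / 2) ^ k := by positivity
        linarith
      unfold cf
      rw [h1]
      calc -(a k * st k ^ (m + 1) * -rt k) = a k * st k ^ m * (st k * rt k) := by ring
        _ = _ := by rw [st_rt, mul_one]
  · refine ⟨_, ⟨m, F', hF', rfl⟩, fun η hη => ?_⟩
    rw [Measure.restrict_univ, pair_T ha _ _ hF'.integrable hη.smooth.continuous hη.cpt,
      pair_T ha _ _ hF.integrable (isTest_fd hη (ee i)).smooth.continuous (isTest_fd hη (ee i)).cpt,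
      hF.integral_Hm, hF'.integral_Hm]
    rw [half hF hF' hW (Z_smooth (hcs m) hη.smooth hη.cpt) (fun h => absurd h hi)]
    congr 1
    refine integral_congr_ae (Eventually.of_forall fun x => ?_)
    show F x * fderiv ℝ (Z _ η) x (ee i) = F x * Z _ _ x
    rw [Z_fderiv (hcs m) hη.smooth hη.cpt]
    congr 2
    ext1 k
    rw [if_neg hi, mul_one]

/-- if all copies vanish a.e. on `s`, then `T F = F` a.e. on `s` -/
theorem T_eq_on (ha : ∀ n, Summable (fun k => |a k| * (2 : ℝ) ^ (k * n))) (m : ℕ)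
    {F : E → ℝ} (hF : MemLp F 2 (volume : Measure E)) {s : Set E} (hs : MeasurableSet s)
    (h : ∀ k, ∀ x ∈ s, F (Bm (st k) x) = 0) :
    ∀ᵐ x ∂(volume.restrict s), T a m F hF x = F x := by
  let R := LpToLpRestrictCLM E ℝ ℝ (volume : Measure E) 2 s
  have hR : ∀ k, R (tk k F hF) = 0 := by
    intro k
    rw [Lp.eq_zero_iff_ae_eq_zero]
    refine (LpToLpRestrictCLM_coeFn ℝ s (tk k F hF)).trans ?_
    have h1 : tk k F hF =ᵐ[volume.restrict s] F ∘ Bm (st k) :=
      ae_restrict_of_ae (memLp_Bm (st_ne k) hF).coeFn_toLp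
    filter_upwards [h1, ae_restrict_mem hs] with x hx hxs
    rw [hx]
    exact h k x hxs
  have h2 : R (T a m F hF) = R (hF.toLp F) := by
    unfold T
    rw [map_add, R.map_tsum (summable_T ha m hF)]
    simp [hR]
  have h3 := LpToLpRestrictCLM_coeFn ℝ s (T a m F hF)
  have h4 := LpToLpRestrictCLM_coeFn ℝ s (hF.toLp F)
  have h5 : (hF.toLp F : E → ℝ) =ᵐ[volume.restrict s] F := ae_restrict_of_ae hF.coeFn_toLp
  filter_upwards [h3, h4, h5] with x e3 e4 e5
  rw [← e3, ← e5, ← e4]
  exact congrFun (congrArg (fun g : Lp ℝ 2 (volume.restrict s) => (g : E → ℝ)) h2) x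

/-- one-dimensional bump -/
theorem exists_bump {r : ℝ} (hr : 0 < r) : ∃ b : ℝ → ℝ, ContDiff ℝ ∞ b ∧
    (∀ s, |s| ≤ r / 2 → b s = 1) ∧ tsupport b ⊆ {s | |s| ≤ 3 * r / 4} := by
  let κ : ContDiffBump (0 : ℝ) := ⟨r / 2, 3 * r / 4, by positivity, by linarith⟩
  refine ⟨κ, κ.contDiff, fun s hs => κ.one_of_mem_closedBall ?_, ?_⟩
  · rw [mem_closedBall_zero_iff]; exact hs
  · rw [κ.tsupport_eq]
    intro s hs
    rw [mem_closedBall_zero_iff] at hs
    exact hs

theorem exists_cut {r : ℝ} (hr : 0 < r) : ∃ χ : E → ℝ, ContDiff ℝ ∞ χ ∧ HasCompactSupport χ ∧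
    tsupport χ ⊆ cube r ∧ ∀ x ∈ boxm (r / 2), χ x = 1 := by
  obtain ⟨b, hb, hb1, hb2⟩ := exists_bump hr
  have hsub : tsupport (fun x : E => b (x 0) * b (x 1) * b (x 2)) ⊆
      {x : E | |x 0| ≤ 3 * r / 4 ∧ |x 1| ≤ 3 * r / 4 ∧ |x 2| ≤ 3 * r / 4} := by
    apply closure_minimal
    · intro x hx
      have hs : ∀ i : Fin 3, b (x i) ≠ 0 → |x i| ≤ 3 * r / 4 := fun i hi =>
        hb2 (subset_tsupport _ hi)
      refine ⟨hs 0 ?_, hs 1 ?_, hs 2 ?_⟩ <;>
      · intro h0
        apply hx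
        simp [h0]
    · exact (isClosed_le (cont_coord 0).abs continuous_const).inter
        ((isClosed_le (cont_coord 1).abs continuous_const).inter
          (isClosed_le (cont_coord 2).abs continuous_const))
  have hsub2 : tsupport (fun x : E => b (x 0) * b (x 1) * b (x 2)) ⊆ cube r := by
    intro x hx
    obtain ⟨h0, h1, h2⟩ := hsub hx
    exact ⟨h0.trans_lt (by linarith), h1.trans_lt (by linarith), h2.trans_lt (by linarith)⟩
  refine ⟨fun x => b (x 0) * b (x 1) * b (x 2),
    ((hb.comp (smooth_coord 0)).mul (hb.comp (smooth_coord 1))).mul (hb.comp (smooth_coord 2)),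
    ?_, hsub2, ?_⟩
  · refine HasCompactSupport.of_support_subset_isCompact (isCompact_closedBall (0 : E) (2 * r))
      (fun x hx => ?_)
    rw [mem_closedBall_zero_iff]
    exact (norm_lt_of_cube (hsub2 (subset_tsupport _ hx))).le
  · intro x hx
    obtain ⟨h0, h1, h2, h3⟩ := hx
    have e2 : |x 2| ≤ r / 2 := by
      rw [abs_of_neg h3]; linarith
    show b (x 0) * b (x 1) * b (x 2) = 1
    rw [hb1 _ h0.le, hb1 _ h1.le, hb1 _ e2]
    norm_num

theorem seeley (h : GlobStmt) : SeeleyStmt := by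
  intro r hr f hf
  obtain ⟨a, ha, ha1⟩ := exists_seq
  obtain ⟨χ, hχ1, hχ2, hχ3, hχ4⟩ := exists_cut hr
  have hG : Gen r (indicator (boxm r) (fun x => χ x * f x)) := Gen.base χ f hχ1 hχ2 hχ3 hf
  set F : E → ℝ := indicator (boxm r) (fun x => χ x * f x) with hFdef
  have hA : AllW univ (T a 0 F hG.memLp) :=
    (clos_S2 ha ha1 r).allW ⟨0, F, hG, rfl⟩
  have hsup : ∀ᵐ x : E, 2 * r ≤ ‖x‖ → T a 0 F hG.memLp x = 0 := by
    have hs : MeasurableSet {x : E | 2 * r ≤ ‖x‖} :=
      (isClosed_le continuous_const continuous_norm).measurableSet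
    have h0 : ∀ x : E, 2 * r ≤ ‖x‖ → F x = 0 := by
      intro x hx
      exact hG.zero_off (fun hc => absurd (norm_lt_of_boxm hc) (not_lt.2 hx))
    have h1 := T_eq_on ha 0 hG.memLp hs (fun k x hx => by
      apply hG.zero_off
      intro hc
      have hx' : 2 * r ≤ ‖x‖ := hx
      refine absurd (norm_lt_of_cube (r := r) (x := x) ?_) (not_lt.2 hx')
      obtain ⟨⟨c0, c1, c2⟩, c3⟩ := mem_boxm_iff.1 hc
      rw [Bm_ne _ _ (by decide : (0 : Fin 3) ≠ 2)] at c0
      rw [Bm_ne _ _ (by decide : (1 : Fin 3) ≠ 2)] at c1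
      rw [Bm_two, abs_mul] at c2
      refine ⟨c0, c1, lt_of_le_of_lt ?_ c2⟩
      exact le_mul_of_one_le_left (abs_nonneg _) (one_le_st k))
    rw [ae_restrict_iff' hs] at h1
    filter_upwards [h1] with x hx hx2
    rw [hx hx2, h0 x hx2]
  obtain ⟨U, hU, hUeq⟩ := h (T a 0 F hG.memLp) (Lp.memLp _) ⟨2 * r, hsup⟩ hA
  refine ⟨U, hU, ?_⟩
  have hm : MeasurableSet (boxm (r / 2)) := (isOpen_boxm _).measurableSet
  have h1 : ∀ᵐ x ∂(volume.restrict (boxm (r / 2))), T a 0 F hG.memLp x = F x := by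
    refine T_eq_on ha 0 hG.memLp hm (fun k x hx => ?_)
    apply hG.zero_off
    intro hc
    have hx2 : x 2 < 0 := hx.2.2.2
    have hc2 : Bm (st k) x 2 < 0 := hc.2.2.2
    rw [Bm_two] at hc2
    have : 0 < st k * x 2 := mul_pos_of_neg_of_neg (by
      unfold st
      have : (0 : ℝ) < 2 ^ k := by positivity
      linarith) hx2
    linarith
  filter_upwards [h1, ae_restrict_of_ae hUeq, ae_restrict_mem hm] with x e1 e2 e3
  rw [← e2, e1, hFdef]
  have e4 : x ∈ boxm r := by
    obtain ⟨h0, h1, h2, h3⟩ := e3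
    exact ⟨h0.trans (by linarith), h1.trans (by linarith), (by linarith), h3⟩
  rw [indicator_of_mem e4, hχ4 x e3, one_mul]

end Pool.Agent.H92.BN.Seeley

namespace Pool.Agent.H92.BN

theorem seeley (h : GlobStmt) : SeeleyStmt := Seeley.seeley h

end Pool.Agent.H92.BN
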