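import Pool.Agent.H92.BN.Iface2
import Pool.Agent.H92.BN.Api

/-!
# Weak derivatives of all orders: first order characterisation
-/

set_option autoImplicit false

namespace Pool.Agent.H92.BN.Seeley

open MeasureTheory Set Filter Topology
open scoped ContDiff InnerProductSpace

theorem contDiff_fd {η : E → ℝ} (h : ContDiff ℝ ∞ η) (t : E) :
    ContDiff ℝ ∞ (fun x => fderiv ℝ η x t) :=
  (h.fderiv_right (m := ∞) (by simp)).clm_apply contDiff_const

theorem tsupport_fd (η : E → ℝ) (t : E) : tsupport (fun x => fderiv ℝ η x t) ⊆ tsupport η := by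
  refine (closure_mono ?_).trans (tsupport_fderiv_subset ℝ (f := η))
  intro x hx
  simp only [Function.mem_support] at hx ⊢
  intro h0
  apply hx
  rw [h0]; rfl

theorem isTest_fd {Q : Set E} {η : E → ℝ} (h : IsTest Q η) (t : E) :
    IsTest Q (fun x => fderiv ℝ η x t) where
  smooth := contDiff_fd h.smooth t
  cpt := h.cpt.of_isClosed_subset (isClosed_tsupport _) (tsupport_fd η t)
  supp := (tsupport_fd η t).trans h.supp

theorem fd_comm {η : E → ℝ} (h : ContDiff ℝ ∞ η) (s t : E) :
    (fun x => fderiv ℝ (fun y => fderiv ℝ η y t) x s) =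
      (fun x => fderiv ℝ (fun y => fderiv ℝ η y s) x t) := by
  ext1 x
  have hd : DifferentiableAt ℝ (fderiv ℝ η) x :=
    ((h.fderiv_right (m := ∞) (by simp)).differentiable (by simp)) x
  have hs : IsSymmSndFDerivAt ℝ η x :=
    (h.contDiffAt (x := x)).isSymmSndFDerivAt (by
      rw [minSmoothness_of_isRCLikeNormedField]
      exact WithTop.coe_le_coe.2 (le_top : (2 : ℕ∞) ≤ ⊤))
  rw [fderiv_clm_apply hd (differentiableAt_const _), fderiv_clm_apply hd (differentiableAt_const _)]
  simp [hs s t]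

theorem dW_smooth {η : E → ℝ} (h : ContDiff ℝ ∞ η) (L : List E) : ContDiff ℝ ∞ (dW L η) := by
  induction L generalizing η with
  | nil => exact h
  | cons t L ih => exact ih (contDiff_fd h t)

theorem dW_test {Q : Set E} {η : E → ℝ} (h : IsTest Q η) (L : List E) : IsTest Q (dW L η) := by
  induction L generalizing η with
  | nil => exact h
  | cons t L ih => exact ih (isTest_fd h t)

theorem dW_fd {η : E → ℝ} (h : ContDiff ℝ ∞ η) (L : List E) (t : E) :
    dW L (fun x => fderiv ℝ η x t) = fun x => fderiv ℝ (dW L η) x t := by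
  induction L generalizing η with
  | nil => rfl
  | cons s L ih =>
    show dW L (fun x => fderiv ℝ (fun y => fderiv ℝ η y t) x s) =
      fun x => fderiv ℝ (dW L (fun y => fderiv ℝ η y s)) x t
    rw [fd_comm h, ih (contDiff_fd h s)]

/-- first order weak derivative -/
def W1 (Q : Set E) (f : E → ℝ) (i : Fin 3) (g : E → ℝ) : Prop :=
  ∀ η, IsTest Q η → (∫ x in Q, g x * η x) = - ∫ x in Q, f x * fderiv ℝ η x (ee i)

/-- a set of functions closed under weak derivatives -/
def Clos (Q : Set E) (S : Set (E → ℝ)) : Prop :=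
  ∀ g ∈ S, MemLp g 2 (volume.restrict Q) ∧ ∀ i, ∃ g' ∈ S, W1 Q g i g'

theorem allW_deriv {Q : Set E} {g : E → ℝ} (h : AllW Q g) (i : Fin 3) :
    ∃ g', AllW Q g' ∧ W1 Q g i g' := by
  obtain ⟨g', hg', hW⟩ := h.2 [i]
  have hW1 : W1 Q g i g' := by
    intro η hη
    have := hW η hη
    simpa [dW] using this
  refine ⟨g', ⟨hg', fun L => ?_⟩, hW1⟩
  obtain ⟨w, hw, hwW⟩ := h.2 (i :: L)
  refine ⟨w, hw, fun η hη => ?_⟩
  have h1 := hwW η hη
  have h2 := hW1 _ (dW_test hη (L.map ee))
  simp only [List.map_cons, List.length_cons, List.length_map] at h1 ⊢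
  rw [h1, show dW (ee i :: List.map ee L) η = dW (List.map ee L) (fun x => fderiv ℝ η x (ee i))
    from rfl, dW_fd hη.smooth, h2, pow_succ]
  ring

theorem clos_allW (Q : Set E) : Clos Q {g | AllW Q g} := by
  intro g hg
  refine ⟨hg.1, fun i => ?_⟩
  obtain ⟨g', h1, h2⟩ := allW_deriv hg i
  exact ⟨g', h1, h2⟩

theorem Clos.allW {Q : Set E} {S : Set (E → ℝ)} (hS : Clos Q S) {f : E → ℝ} (hf : f ∈ S) :
    AllW Q f := by
  refine ⟨(hS f hf).1, ?_⟩
  have key : ∀ L : List (Fin 3), ∃ g ∈ S, HasW Q f (L.map ee) g := by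
    intro L
    induction L with
    | nil =>
      refine ⟨f, hf, fun η _ => ?_⟩
      simp [dW]
    | cons i L ih =>
      obtain ⟨g', hg', hW⟩ := ih
      obtain ⟨g, hg, hW1⟩ := (hS g' hg').2 i
      refine ⟨g, hg, fun η hη => ?_⟩
      have h1 := hW _ (isTest_fd hη (ee i))
      rw [hW1 η hη, h1]
      simp only [List.map_cons, List.length_cons, List.length_map]
      rw [show dW (ee i :: List.map ee L) η = dW (List.map ee L) (fun x => fderiv ℝ η x (ee i))
        from rfl, pow_succ]
      ring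
  intro L
  obtain ⟨g, hg, hW⟩ := key L
  exact ⟨g, (hS g hg).1, hW⟩

end Pool.Agent.H92.BN.Seeley
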