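import Pool.Agent.H92.BN.ME9_Clos

/-!
# Integration by parts in the lower half space
-/

set_option autoImplicit false

namespace Pool.Agent.H92.BN.Seeley

open MeasureTheory Set Filter Topology
open scoped ContDiff InnerProductSpace

/-- lower half space -/
def Hm : Set E := {x | x 2 < 0}

/-- cube -/
def cube (r : ℝ) : Set E := {x | |x 0| < r ∧ |x 1| < r ∧ |x 2| < r}

theorem cont_coord (i : Fin 3) : Continuous (fun x : E => x i) :=
  (EuclideanSpace.proj (𝕜 := ℝ) i).continuous

theorem smooth_coord (i : Fin 3) : ContDiff ℝ ∞ (fun x : E => x i) :=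
  (EuclideanSpace.proj (𝕜 := ℝ) (ι := Fin 3) i).contDiff

theorem hasFDerivAt_coord (i : Fin 3) (x : E) :
    HasFDerivAt (fun x : E => x i) (EuclideanSpace.proj (𝕜 := ℝ) (ι := Fin 3) i) x :=
  (EuclideanSpace.proj (𝕜 := ℝ) (ι := Fin 3) i).hasFDerivAt

theorem isOpen_Hm : IsOpen Hm := isOpen_lt (cont_coord 2) continuous_const

theorem isOpen_boxm (r : ℝ) : IsOpen (boxm r) :=
  (isOpen_lt (cont_coord 0).abs continuous_const).inter
    ((isOpen_lt (cont_coord 1).abs continuous_const).inter
      ((isOpen_lt continuous_const (cont_coord 2)).inter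
        (isOpen_lt (cont_coord 2) continuous_const)))

theorem boxm_subset_Hm (r : ℝ) : boxm r ⊆ Hm := fun _ hx => hx.2.2.2

theorem mem_boxm_iff {r : ℝ} {x : E} : x ∈ boxm r ↔ x ∈ cube r ∧ x 2 < 0 := by
  unfold boxm cube
  simp only [Set.mem_ofPred_eq]
  constructor
  · rintro ⟨h0, h1, h2, h3⟩
    exact ⟨⟨h0, h1, abs_lt.2 ⟨h2, by linarith⟩⟩, h3⟩
  · rintro ⟨⟨h0, h1, h2⟩, h3⟩
    exact ⟨h0, h1, (abs_lt.1 h2).1, h3⟩

theorem norm_lt_of_cube {r : ℝ} {x : E} (hx : x ∈ cube r) : ‖x‖ < 2 * r := by
  obtain ⟨h0, h1, h2⟩ := hx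
  have hr : 0 < r := (abs_nonneg _).trans_lt h0
  rw [EuclideanSpace.norm_eq, Real.sqrt_lt' (by positivity), Fin.sum_univ_three]
  simp only [Real.norm_eq_abs, sq_abs]
  have e0 := sq_lt_sq' (abs_lt.1 h0).1 (abs_lt.1 h0).2
  have e1 := sq_lt_sq' (abs_lt.1 h1).1 (abs_lt.1 h1).2
  have e2 := sq_lt_sq' (abs_lt.1 h2).1 (abs_lt.1 h2).2
  nlinarith

theorem norm_lt_of_boxm {r : ℝ} {x : E} (hx : x ∈ boxm r) : ‖x‖ < 2 * r :=
  norm_lt_of_cube (mem_boxm_iff.1 hx).1

/-- finite sums of cut-off functions -/
inductive Gen (r : ℝ) : (E → ℝ) → Prop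
  | base (χ g : E → ℝ) (h1 : ContDiff ℝ ∞ χ) (h2 : HasCompactSupport χ)
      (h3 : tsupport χ ⊆ cube r) (h4 : AllW (boxm r) g) :
      Gen r (indicator (boxm r) (fun x => χ x * g x))
  | add (F G : E → ℝ) (hF : Gen r F) (hG : Gen r G) : Gen r (F + G)

theorem Gen.zero_off {r : ℝ} {F : E → ℝ} (h : Gen r F) {x : E} (hx : x ∉ boxm r) : F x = 0 := by
  induction h with
  | base χ g h1 h2 h3 h4 => exact indicator_of_notMem hx _
  | add F G hF hG ihF ihG => simp [ihF, ihG]

theorem memLp_cpt {ψ : E → ℝ} (h : Continuous ψ) (hc : HasCompactSupport ψ) (p : ENNReal) :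
    MemLp ψ p volume := h.memLp_of_hasCompactSupport hc

theorem Gen.memLp {r : ℝ} {F : E → ℝ} (h : Gen r F) : MemLp F 2 volume := by
  induction h with
  | base χ g h1 h2 h3 h4 =>
    rw [memLp_indicator_iff_restrict (isOpen_boxm r).measurableSet]
    have hχ : MemLp χ ⊤ (volume.restrict (boxm r)) := (memLp_cpt h1.continuous h2 ⊤).restrict _
    exact MemLp.mul (p := ⊤) (q := 2) (r := 2) h4.1 hχ
  | add F G hF hG ihF ihG => exact ihF.add ihG

theorem integrable_mul_of {φ ψ : E → ℝ} {μ : Measure E} (h1 : MemLp φ 2 μ)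
    (h2 : MemLp ψ 2 μ) : Integrable (fun x => φ x * ψ x) μ := by
  exact MemLp.integrable_mul h1 h2

theorem Gen.deriv {r : ℝ} {F : E → ℝ} (h : Gen r F) (i : Fin 3) :
    ∃ F', Gen r F' ∧ W1 Hm F i F' := by
  induction h with
  | base χ g h1 h2 h3 h4 =>
    obtain ⟨g', hg', hW⟩ := allW_deriv h4 i
    have hm := (isOpen_boxm r).measurableSet
    have hχ' : HasCompactSupport (fun x => fderiv ℝ χ x (ee i)) :=
      h2.of_isClosed_subset (isClosed_tsupport _) (tsupport_fd χ (ee i))
    refine ⟨_, Gen.add _ _ (Gen.base χ g' h1 h2 h3 hg')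
      (Gen.base (fun x => fderiv ℝ χ x (ee i)) g (contDiff_fd h1 _) hχ'
        ((tsupport_fd χ _).trans h3) h4), fun η hη => ?_⟩
    have hint : ∀ φ : E → ℝ, MemLp φ 2 (volume.restrict (boxm r)) → ∀ ψ : E → ℝ,
        Continuous ψ → HasCompactSupport ψ →
        Integrable (fun x => φ x * ψ x) (volume.restrict (boxm r)) := by
      intro φ hφ ψ hψ hψc
      exact integrable_mul_of hφ ((memLp_cpt hψ hψc 2).restrict _)
    have hconv : ∀ φ ψ : E → ℝ, (∫ x in Hm, indicator (boxm r) φ x * ψ x) =
        ∫ x in boxm r, φ x * ψ x := by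
      intro φ ψ
      have : (fun x => indicator (boxm r) φ x * ψ x) = indicator (boxm r) (fun x => φ x * ψ x) := by
        ext1 x
        by_cases hx : x ∈ boxm r <;> simp [hx]
      rw [this, setIntegral_indicator hm, inter_eq_self_of_subset_right (boxm_subset_Hm r)]
    have hηs : HasCompactSupport (fun x => χ x * η x) := h2.mul_right
    have htest : IsTest (boxm r) (fun x => χ x * η x) := by
      refine ⟨h1.mul hη.smooth, hηs, ?_⟩
      intro x hx
      rw [mem_boxm_iff]
      exact ⟨h3 (tsupport_mul_subset_left hx), hη.supp (tsupport_mul_subset_right hx)⟩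
    have hW2 := hW _ htest
    have hηd : HasCompactSupport (fun x => fderiv ℝ η x (ee i)) := (isTest_fd hη (ee i)).cpt
    have hηc : Continuous (fun x => fderiv ℝ η x (ee i)) :=
      (contDiff_fd hη.smooth (ee i)).continuous
    have e1 : (∫ x in Hm, (indicator (boxm r) (fun x => χ x * g' x) +
        indicator (boxm r) (fun x => fderiv ℝ χ x (ee i) * g x)) x * η x) =
        (∫ x in boxm r, g' x * (χ x * η x)) +
          ∫ x in boxm r, g x * (fderiv ℝ χ x (ee i) * η x) := by
      have : (fun x => (indicator (boxm r) (fun x => χ x * g' x) +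
          indicator (boxm r) (fun x => fderiv ℝ χ x (ee i) * g x)) x * η x) =
          fun x => indicator (boxm r) (fun x => χ x * g' x + fderiv ℝ χ x (ee i) * g x) x * η x := by
        ext1 x
        by_cases hx : x ∈ boxm r <;> simp [hx]
      rw [this, hconv, ← integral_add]
      · refine integral_congr_ae (Eventually.of_forall fun x => ?_)
        show (χ x * g' x + fderiv ℝ χ x (ee i) * g x) * η x = _
        ring
      · exact hint g' hg'.1 _ (h1.continuous.mul hη.smooth.continuous) hηs
      · exact hint g h4.1 _ ((contDiff_fd h1 _).continuous.mul hη.smooth.continuous) hχ'.mul_right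
    rw [e1, hW2, hconv]
    have e2 : ∀ x, fderiv ℝ (fun x => χ x * η x) x (ee i) =
        fderiv ℝ χ x (ee i) * η x + χ x * fderiv ℝ η x (ee i) := by
      intro x
      rw [fderiv_fun_mul ((h1.differentiable (by simp)) x) ((hη.smooth.differentiable (by simp)) x)]
      simp
      ring
    have e3 : (∫ x in boxm r, g x * fderiv ℝ (fun x => χ x * η x) x (ee i)) =
        (∫ x in boxm r, g x * (fderiv ℝ χ x (ee i) * η x)) +
          ∫ x in boxm r, χ x * g x * fderiv ℝ η x (ee i) := by
      rw [← integral_add]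
      · refine integral_congr_ae (Eventually.of_forall fun x => ?_)
        show g x * fderiv ℝ (fun x => χ x * η x) x (ee i) = _
        rw [e2]; ring
      · exact hint g h4.1 _ ((contDiff_fd h1 _).continuous.mul hη.smooth.continuous) hχ'.mul_right
      · have := hint g h4.1 (fun x => χ x * fderiv ℝ η x (ee i)) (h1.continuous.mul hηc)
          h2.mul_right
        refine this.congr (Eventually.of_forall fun x => ?_)
        show g x * (χ x * fderiv ℝ η x (ee i)) = _
        ring
    rw [e3]
    ring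
  | add F G hF hG ihF ihG =>
    obtain ⟨F', hF', hWF⟩ := ihF
    obtain ⟨G', hG', hWG⟩ := ihG
    refine ⟨_, Gen.add _ _ hF' hG', fun η hη => ?_⟩
    have hη2 : MemLp η 2 (volume.restrict Hm) :=
      (memLp_cpt hη.smooth.continuous hη.cpt 2).restrict _
    have hη3 : MemLp (fun x => fderiv ℝ η x (ee i)) 2 (volume.restrict Hm) :=
      (memLp_cpt (isTest_fd hη (ee i)).smooth.continuous (isTest_fd hη (ee i)).cpt 2).restrict _
    have e1 : (∫ x in Hm, (F' + G') x * η x) = (∫ x in Hm, F' x * η x) + ∫ x in Hm, G' x * η x := by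
      rw [← integral_add (integrable_mul_of (hF'.memLp.restrict _) hη2)
        (integrable_mul_of (hG'.memLp.restrict _) hη2)]
      refine integral_congr_ae (Eventually.of_forall fun x => ?_)
      show (F' x + G' x) * η x = _
      ring
    have e2 : (∫ x in Hm, (F + G) x * fderiv ℝ η x (ee i)) =
        (∫ x in Hm, F x * fderiv ℝ η x (ee i)) + ∫ x in Hm, G x * fderiv ℝ η x (ee i) := by
      rw [← integral_add (integrable_mul_of (hF.memLp.restrict _) hη3)
        (integrable_mul_of (hG.memLp.restrict _) hη3)]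
      refine integral_congr_ae (Eventually.of_forall fun x => ?_)
      show (F x + G x) * fderiv ℝ η x (ee i) = _
      ring
    rw [e1, e2, hWF η hη, hWG η hη]
    ring

/-! ### the cut-off -/

open Real in
theorem sT_deriv_bound : ∃ M : ℝ, 0 ≤ M ∧ ∀ s, |_root_.deriv smoothTransition s| ≤ M := by
  have hc : Continuous (_root_.deriv smoothTransition) :=
    (smoothTransition.contDiff (n := 1)).continuous_deriv le_rfl
  obtain ⟨M, hM⟩ := (isCompact_Icc (a := (0 : ℝ)) (b := 1)).exists_bound_of_continuousOn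
    hc.continuousOn
  refine ⟨max M 0, le_max_right _ _, fun s => ?_⟩
  by_cases hs : s ∈ Icc (0 : ℝ) 1
  · exact (hM s hs).trans (le_max_left _ _)
  · have : _root_.deriv smoothTransition s = 0 := by
      rw [mem_Icc, not_and_or, not_le, not_le] at hs
      rcases hs with hs | hs
      · have : smoothTransition =ᶠ[𝓝 s] fun _ => 0 := by
          filter_upwards [Iio_mem_nhds hs] with y hy
          exact smoothTransition.zero_of_nonpos (le_of_lt hy)
        rw [this.deriv_eq, deriv_const]
      · have : smoothTransition =ᶠ[𝓝 s] fun _ => 1 := by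
          filter_upwards [Ioi_mem_nhds hs] with y hy
          exact smoothTransition.one_of_one_le (le_of_lt hy)
        rw [this.deriv_eq, deriv_const]
    rw [this, abs_zero]
    exact le_max_right _ _

open Real in
theorem sT_deriv_zero {s : ℝ} (hs : s ∉ Icc (0 : ℝ) 1) : _root_.deriv smoothTransition s = 0 := by
  rw [mem_Icc, not_and_or, not_le, not_le] at hs
  rcases hs with hs | hs
  · have : smoothTransition =ᶠ[𝓝 s] fun _ => 0 := by
      filter_upwards [Iio_mem_nhds hs] with y hy
      exact smoothTransition.zero_of_nonpos (le_of_lt hy)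
    rw [this.deriv_eq, deriv_const]
  · have : smoothTransition =ᶠ[𝓝 s] fun _ => 1 := by
      filter_upwards [Ioi_mem_nhds hs] with y hy
      exact smoothTransition.one_of_one_le (le_of_lt hy)
    rw [this.deriv_eq, deriv_const]

/-- cut-off away from the plane `x 2 = 0` -/
noncomputable def th (n : ℕ) (x : E) : ℝ := Real.smoothTransition (-1 - (n + 1) * x 2)

theorem th_smooth (n : ℕ) : ContDiff ℝ ∞ (th n) :=
  Real.smoothTransition.contDiff.comp
    (contDiff_const.sub (contDiff_const.mul (smooth_coord 2)))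

theorem th_fderiv (n : ℕ) (x : E) (i : Fin 3) :
    fderiv ℝ (th n) x (ee i) =
      deriv Real.smoothTransition (-1 - (n + 1) * x 2) * (-((n + 1) * (ee i) 2)) := by
  have h1 : HasFDerivAt (fun x : E => -1 - ((n : ℝ) + 1) * x 2)
      (-(((n : ℝ) + 1) • (EuclideanSpace.proj (𝕜 := ℝ) (ι := Fin 3) 2))) x :=
    ((hasFDerivAt_coord 2 x).const_mul ((n : ℝ) + 1)).const_sub (-1)
  have h2 : HasDerivAt Real.smoothTransition
      (deriv Real.smoothTransition (-1 - (n + 1) * x 2)) (-1 - (n + 1) * x 2) :=
    ((Real.smoothTransition.contDiff (n := 1)).differentiable (by simp) _).hasDerivAt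
  have h3 := h2.comp_hasFDerivAt x h1
  have h4 : fderiv ℝ (th n) x = _ := h3.fderiv
  rw [h4]
  simp

theorem half {r : ℝ} {F F' : E → ℝ} {i : Fin 3} (hF : Gen r F) (hF' : Gen r F')
    (hW : W1 Hm F i F') {ζ : E → ℝ} (hζ : ContDiff ℝ ∞ ζ)
    (hz : i = 2 → ∀ x : E, x 2 = 0 → ζ x = 0) :
    (∫ x in Hm, F' x * ζ x) = - ∫ x in Hm, F x * fderiv ℝ ζ x (ee i) := by
  -- the large bump
  obtain ⟨R, hR0, hR⟩ : ∃ R : ℝ, 0 < R ∧ 2 * r ≤ R := ⟨max (2 * r) 1, by positivity, le_max_left _ _⟩
  let κ : ContDiffBump (0 : E) := ⟨R, R + 1, hR0, by linarith⟩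
  have hκ1 : ∀ x ∈ boxm r, κ x = 1 := by
    intro x hx
    apply κ.one_of_mem_closedBall
    rw [mem_closedBall_zero_iff]
    exact (norm_lt_of_boxm hx).le.trans hR
  have hκe : ∀ x ∈ boxm r, (κ : E → ℝ) =ᶠ[𝓝 x] 1 := by
    intro x hx
    apply κ.eventuallyEq_one_of_mem_ball
    rw [mem_ball_zero_iff]
    exact (norm_lt_of_boxm hx).trans_le hR
  have hκs : ContDiff ℝ ∞ (κ : E → ℝ) := κ.contDiff
  have hκc : HasCompactSupport (κ : E → ℝ) := κ.hasCompactSupport
  have hm : MeasurableSet Hm := isOpen_Hm.measurableSet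
  -- Lipschitz bound
  have hζd : Differentiable ℝ ζ := hζ.differentiable (by simp)
  obtain ⟨Lp, hLp⟩ := (isCompact_closedBall (0 : E) R).exists_bound_of_continuousOn
    (hζ.continuous_fderiv (by simp)).continuousOn
  have hLp0 : 0 ≤ Lp := (norm_nonneg _).trans (hLp 0 (Metric.mem_closedBall_self hR0.le))
  have hLip : i = 2 → ∀ x ∈ boxm r, |ζ x| ≤ Lp * |x 2| := by
    intro hi x hx
    have hxR : x ∈ Metric.closedBall (0 : E) R := by
      rw [mem_closedBall_zero_iff]; exact (norm_lt_of_boxm hx).le.trans hR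
    have hyn : ‖x - x 2 • ee 2‖ ≤ ‖x‖ := by
      rw [EuclideanSpace.norm_eq, EuclideanSpace.norm_eq]
      apply Real.sqrt_le_sqrt
      simp only [Fin.sum_univ_three, Real.norm_eq_abs, sq_abs]
      simp [ee]
      positivity
    have hyR : x - x 2 • ee 2 ∈ Metric.closedBall (0 : E) R := by
      rw [mem_closedBall_zero_iff] at hxR ⊢; exact hyn.trans hxR
    have h1 := (convex_closedBall (0 : E) R).norm_image_sub_le_of_norm_fderiv_le
      (fun y _ => hζd y) hLp hyR hxR
    have h2 : ζ (x - x 2 • ee 2) = 0 := by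
      apply hz hi
      simp [ee]
    rw [h2, sub_zero, Real.norm_eq_abs] at h1
    refine h1.trans (mul_le_mul_of_nonneg_left ?_ hLp0)
    rw [sub_sub_cancel, norm_smul, Real.norm_eq_abs]
    simp [ee]
  -- the identities for the cut-off test functions
  have htest : ∀ n : ℕ, IsTest Hm (fun x => κ x * (th n x * ζ x)) := by
    intro n
    refine ⟨hκs.mul ((th_smooth n).mul hζ), hκc.mul_right, ?_⟩
    have hcl : IsClosed {x : E | ((n : ℝ) + 1) * x 2 ≤ -1} :=
      isClosed_le (continuous_const.mul (cont_coord 2)) continuous_const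
    have hs : tsupport (fun x => κ x * (th n x * ζ x)) ⊆ {x : E | ((n : ℝ) + 1) * x 2 ≤ -1} := by
      apply closure_minimal _ hcl
      intro x hx
      by_contra hcon
      apply hx
      have : th n x = 0 := by
        apply Real.smoothTransition.zero_of_nonpos
        have : ¬ ((n : ℝ) + 1) * x 2 ≤ -1 := hcon
        linarith
      simp [this]
    intro x hx
    have h1 : ((n : ℝ) + 1) * x 2 ≤ -1 := hs hx
    show x 2 < 0
    by_contra h2
    have : 0 ≤ ((n : ℝ) + 1) * x 2 := mul_nonneg (by positivity) (not_lt.1 h2)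
    linarith
  have hid : ∀ n : ℕ, (∫ x in Hm, F' x * (th n x * ζ x)) =
      - ∫ x in Hm, F x * (th n x * fderiv ℝ ζ x (ee i) + fderiv ℝ (th n) x (ee i) * ζ x) := by
    intro n
    have h1 := hW _ (htest n)
    have e1 : (∫ x in Hm, F' x * (th n x * ζ x)) =
        ∫ x in Hm, F' x * (κ x * (th n x * ζ x)) := by
      refine integral_congr_ae (Eventually.of_forall fun x => ?_)
      show F' x * (th n x * ζ x) = F' x * (κ x * (th n x * ζ x))
      by_cases hx : x ∈ boxm r
      · rw [hκ1 x hx, one_mul]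
      · rw [hF'.zero_off hx, zero_mul, zero_mul]
    have e2 : (∫ x in Hm, F x * (th n x * fderiv ℝ ζ x (ee i) + fderiv ℝ (th n) x (ee i) * ζ x)) =
        ∫ x in Hm, F x * fderiv ℝ (fun x => κ x * (th n x * ζ x)) x (ee i) := by
      refine integral_congr_ae (Eventually.of_forall fun x => ?_)
      show F x * (th n x * fderiv ℝ ζ x (ee i) + fderiv ℝ (th n) x (ee i) * ζ x) =
        F x * fderiv ℝ (fun x => κ x * (th n x * ζ x)) x (ee i)
      by_cases hx : x ∈ boxm r
      · congr 1
        have h2 : (fun x => κ x * (th n x * ζ x)) =ᶠ[𝓝 x] fun x => th n x * ζ x := by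
          filter_upwards [hκe x hx] with y hy
          rw [hy]; simp
        rw [h2.fderiv_eq, fderiv_fun_mul ((th_smooth n).differentiable (by simp) x) (hζd x)]
        simp
        ring
      · rw [hF.zero_off hx, zero_mul, zero_mul]
    rw [e1, e2, h1]
  -- limits
  have hlarge : ∀ x ∈ Hm, ∀ᶠ n : ℕ in atTop, 1 < -1 - ((n : ℝ) + 1) * x 2 := by
    intro x hx
    have hx' : 0 < -(x 2) := by have : x 2 < 0 := hx; linarith
    have h1 : Tendsto (fun n : ℕ => ((n : ℝ) + 1) * -(x 2)) atTop atTop :=
      (tendsto_atTop_add_const_right _ 1 tendsto_natCast_atTop_atTop).atTop_mul_const hx'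
    filter_upwards [h1.eventually_gt_atTop 2] with n hn
    linarith
  have hth1 : ∀ (n : ℕ) (x : E), |th n x| ≤ 1 := by
    intro n x
    have h0 : 0 ≤ th n x := Real.smoothTransition.nonneg _
    exact abs_le.2 ⟨by linarith, Real.smoothTransition.le_one _⟩
  have hL : Tendsto (fun n : ℕ => ∫ x in Hm, F' x * (th n x * ζ x)) atTop
      (𝓝 (∫ x in Hm, F' x * ζ x)) := by
    apply tendsto_integral_of_dominated_convergence (fun x => |F' x * (κ x * ζ x)|)
    · intro n
      exact hF'.memLp.1.restrict.mul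
        ((th_smooth n).continuous.mul hζ.continuous).aestronglyMeasurable
    · refine (integrable_mul_of hF'.memLp
        (memLp_cpt (hκs.continuous.mul hζ.continuous) hκc.mul_right 2)).abs.restrict
    · intro n
      filter_upwards with x
      by_cases hx : x ∈ boxm r
      · rw [hκ1 x hx, one_mul, Real.norm_eq_abs, abs_mul, abs_mul, abs_mul]
        have := hth1 n x
        have h2 : |th n x| * |ζ x| ≤ 1 * |ζ x| := mul_le_mul_of_nonneg_right this (abs_nonneg _)
        rw [one_mul] at h2
        exact mul_le_mul_of_nonneg_left h2 (abs_nonneg _)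
      · rw [hF'.zero_off hx]; simp
    · filter_upwards [ae_restrict_mem hm] with x hx
      have : ∀ᶠ n : ℕ in atTop, F' x * (th n x * ζ x) = F' x * ζ x := by
        filter_upwards [hlarge x hx] with n hn
        have : th n x = 1 := Real.smoothTransition.one_of_one_le hn.le
        rw [this, one_mul]
      exact tendsto_const_nhds.congr' (this.mono fun n hn => hn.symm)
  obtain ⟨M, hM0, hM⟩ := sT_deriv_bound
  have hbd : ∀ n : ℕ, ∀ x ∈ boxm r, |fderiv ℝ (th n) x (ee i) * ζ x| ≤ 2 * M * Lp := by
    intro n x hx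
    rw [th_fderiv]
    by_cases hi : i = 2
    · by_cases hs : (-1 - ((n : ℝ) + 1) * x 2) ∈ Icc (0 : ℝ) 1
      · have h1 := hLip hi x hx
        have h2 := hM (-1 - ((n : ℝ) + 1) * x 2)
        have hx2 : x 2 < 0 := hx.2.2.2
        have h3 : ((n : ℝ) + 1) * |x 2| ≤ 2 := by
          rw [abs_of_neg hx2]
          have := hs.2
          linarith
        have h4 : (ee i) 2 = 1 := by simp [ee, hi]
        rw [h4, mul_one, abs_mul, abs_mul, abs_neg, abs_of_pos (by positivity : (0 : ℝ) < (n : ℝ) + 1)]
        calc |deriv Real.smoothTransition (-1 - ((n : ℝ) + 1) * x 2)| * ((n : ℝ) + 1) * |ζ x|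
            ≤ M * ((n : ℝ) + 1) * (Lp * |x 2|) := by
              apply mul_le_mul _ h1 (abs_nonneg _) (by positivity)
              exact mul_le_mul_of_nonneg_right h2 (by positivity)
          _ = M * Lp * (((n : ℝ) + 1) * |x 2|) := by ring
          _ ≤ M * Lp * 2 := mul_le_mul_of_nonneg_left h3 (by positivity)
          _ = 2 * M * Lp := by ring
      · rw [sT_deriv_zero hs]
        simp only [zero_mul, abs_zero]
        positivity
    · have h4 : (ee i) 2 = 0 := by
        simp only [ee, PiLp.single_apply]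
        rw [if_neg]
        exact fun h => hi h.symm
      rw [h4]
      simp only [mul_zero, neg_zero, zero_mul, abs_zero]
      positivity
  have hR' : Tendsto (fun n : ℕ => ∫ x in Hm, F x *
      (th n x * fderiv ℝ ζ x (ee i) + fderiv ℝ (th n) x (ee i) * ζ x)) atTop
      (𝓝 (∫ x in Hm, F x * fderiv ℝ ζ x (ee i))) := by
    have hc1 : Continuous (fun x => fderiv ℝ ζ x (ee i)) := (contDiff_fd hζ _).continuous
    apply tendsto_integral_of_dominated_convergence
      (fun x => |F x * (κ x * fderiv ℝ ζ x (ee i))| + (2 * M * Lp) * |F x * κ x|)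
    · intro n
      refine hF.memLp.1.restrict.mul (Continuous.aestronglyMeasurable ?_)
      exact ((th_smooth n).continuous.mul hc1).add
        ((contDiff_fd (th_smooth n) _).continuous.mul hζ.continuous)
    · refine Integrable.add ?_ (Integrable.const_mul ?_ _)
      · exact (integrable_mul_of hF.memLp
          (memLp_cpt (hκs.continuous.mul hc1) hκc.mul_right 2)).abs.restrict
      · exact (integrable_mul_of hF.memLp (memLp_cpt hκs.continuous hκc 2)).abs.restrict
    · intro n
      filter_upwards with x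
      by_cases hx : x ∈ boxm r
      · rw [hκ1 x hx, one_mul, mul_one, mul_add]
        refine (norm_add_le _ _).trans (add_le_add ?_ ?_)
        · rw [Real.norm_eq_abs, abs_mul, abs_mul, abs_mul]
          have h2 : |th n x| * |fderiv ℝ ζ x (ee i)| ≤ 1 * |fderiv ℝ ζ x (ee i)| :=
            mul_le_mul_of_nonneg_right (hth1 n x) (abs_nonneg _)
          rw [one_mul] at h2
          exact mul_le_mul_of_nonneg_left h2 (abs_nonneg _)
        · rw [Real.norm_eq_abs, abs_mul, mul_comm]
          exact mul_le_mul_of_nonneg_right (hbd n x hx) (abs_nonneg _)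
      · rw [hF.zero_off hx]; simp
    · filter_upwards [ae_restrict_mem hm] with x hx
      have : ∀ᶠ n : ℕ in atTop, F x *
          (th n x * fderiv ℝ ζ x (ee i) + fderiv ℝ (th n) x (ee i) * ζ x) =
          F x * fderiv ℝ ζ x (ee i) := by
        filter_upwards [hlarge x hx] with n hn
        have h1 : th n x = 1 := Real.smoothTransition.one_of_one_le hn.le
        have h2 : fderiv ℝ (th n) x (ee i) = 0 := by
          rw [th_fderiv, sT_deriv_zero, zero_mul]
          intro h3
          exact absurd h3.2 (not_le.2 hn)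
        rw [h1, h2]; ring
      exact tendsto_const_nhds.congr' (this.mono fun n hn => hn.symm)
  have hfin := hR'.neg
  refine tendsto_nhds_unique hL ?_
  refine hfin.congr (fun n => ?_)
  exact (hid n).symm

end Pool.Agent.H92.BN.Seeley
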