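import Mathlib

/-!
# Seeley's sequence
-/

set_option autoImplicit false

namespace Pool.Agent.H92.BN.Seeley

open Filter Topology Finset

/-- finite Lagrange weights -/
noncomputable def aN (N k : ℕ) : ℝ :=
  if k < N then ∏ j ∈ (range N).erase k, ((1 + (2 : ℝ) ^ j) / ((2 : ℝ) ^ j - 2 ^ k)) else 0

/-- bound -/
noncomputable def bet (k : ℕ) : ℝ := ∏ i ∈ range k, (4 * (1 / 2 : ℝ) ^ (i + 1))

theorem bet_pos (k : ℕ) : 0 < bet k := by
  unfold bet
  exact Finset.prod_pos (fun i _ => by positivity)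

theorem bet_eq (k : ℕ) : bet k = ∏ j ∈ range k, (4 * (1 / 2 : ℝ) ^ (k - j)) := by
  unfold bet
  rw [← Finset.prod_range_reflect]
  apply Finset.prod_congr rfl
  intro j hj
  have : j < k := by simpa using hj
  congr 2
  omega

theorem factor_lt {j k : ℕ} (h : j < k) :
    |((1 + (2 : ℝ) ^ j) / ((2 : ℝ) ^ j - 2 ^ k))| ≤ 4 * (1 / 2 : ℝ) ^ (k - j) := by
  obtain ⟨d, rfl⟩ : ∃ d, k = j + 1 + d := ⟨k - (j + 1), by omega⟩
  have h1 : (1 : ℝ) ≤ 2 ^ j := one_le_pow₀ (by norm_num)
  have h2 : (1 : ℝ) ≤ 2 ^ d := one_le_pow₀ (by norm_num)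
  have e1 : j + 1 + d - j = d + 1 := by omega
  rw [e1, abs_div, abs_of_pos (by positivity : (0 : ℝ) < 1 + 2 ^ j)]
  have h3 : (2 : ℝ) ^ (j + 1 + d) = 2 * (2 ^ j * 2 ^ d) := by rw [pow_add, pow_succ]; ring
  have h4 : (2 : ℝ) ^ j ≤ 2 ^ j * 2 ^ d := le_mul_of_one_le_right (by positivity) h2
  have h5 : (2 : ℝ) ^ j - 2 ^ (j + 1 + d) < 0 := by rw [h3]; linarith
  rw [abs_of_neg h5, h3, div_le_iff₀ (by linarith), pow_succ, div_pow, one_pow]
  have h6 : 4 * (1 / (2 : ℝ) ^ d * (1 / 2)) * -(2 ^ j - 2 * (2 ^ j * 2 ^ d)) =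
      4 * 2 ^ j - 2 * (2 ^ j / 2 ^ d) := by
    field_simp
    ring
  rw [h6]
  have h7 : (2 : ℝ) ^ j / 2 ^ d ≤ 2 ^ j := div_le_self (by positivity) h2
  linarith

theorem factor_gt {j k : ℕ} (h : k < j) :
    |((1 + (2 : ℝ) ^ j) / ((2 : ℝ) ^ j - 2 ^ k))| ≤ Real.exp (4 * (1 / 2 : ℝ) ^ (j - k)) := by
  obtain ⟨d, rfl⟩ : ∃ d, j = k + 1 + d := ⟨j - (k + 1), by omega⟩
  have h1 : (1 : ℝ) ≤ 2 ^ k := one_le_pow₀ (by norm_num)
  have h2 : (1 : ℝ) ≤ 2 ^ d := one_le_pow₀ (by norm_num)
  have e1 : k + 1 + d - k = d + 1 := by omega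
  have h3 : (2 : ℝ) ^ (k + 1 + d) = 2 * (2 ^ k * 2 ^ d) := by rw [pow_add, pow_succ]; ring
  have h4 : (2 : ℝ) ^ k ≤ 2 ^ k * 2 ^ d := le_mul_of_one_le_right (by positivity) h2
  have h5 : 0 < (2 : ℝ) ^ (k + 1 + d) - 2 ^ k := by rw [h3]; linarith
  rw [e1, abs_of_pos (by positivity)]
  refine le_trans ?_ (Real.add_one_le_exp _)
  rw [div_le_iff₀ h5, h3, pow_succ, div_pow, one_pow]
  have h6 : (4 * (1 / (2 : ℝ) ^ d * (1 / 2)) + 1) * (2 * (2 ^ k * 2 ^ d) - 2 ^ k) =
      4 * 2 ^ k - 2 * (2 ^ k / 2 ^ d) + (2 * (2 ^ k * 2 ^ d) - 2 ^ k) := by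
    field_simp
    ring
  rw [h6]
  have h7 : (2 : ℝ) ^ k / 2 ^ d ≤ 2 ^ k := div_le_self (by positivity) h2
  linarith

theorem abs_aN_le (N k : ℕ) : |aN N k| ≤ Real.exp 8 * bet k := by
  unfold aN
  split_ifs with hk
  swap
  · simp only [abs_zero]
    have := bet_pos k
    positivity
  rw [Finset.abs_prod, ← Finset.prod_filter_mul_prod_filter_not _ (fun j => j < k), mul_comm]
  have hA : ∏ j ∈ ((range N).erase k).filter (fun j => j < k),
      |((1 + (2 : ℝ) ^ j) / ((2 : ℝ) ^ j - 2 ^ k))| ≤ bet k := by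
    have e : ((range N).erase k).filter (fun j => j < k) = range k := by
      ext j
      simp only [mem_filter, mem_erase, mem_range]
      constructor
      · rintro ⟨_, h⟩; exact h
      · intro h; exact ⟨⟨h.ne, h.trans hk⟩, h⟩
    rw [e, bet_eq]
    apply Finset.prod_le_prod (fun i _ => abs_nonneg _)
    intro j hj
    exact factor_lt (by simpa using hj)
  have hB : ∏ j ∈ ((range N).erase k).filter (fun j => ¬ j < k),
      |((1 + (2 : ℝ) ^ j) / ((2 : ℝ) ^ j - 2 ^ k))| ≤ Real.exp 8 := by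
    calc ∏ j ∈ ((range N).erase k).filter (fun j => ¬ j < k),
          |((1 + (2 : ℝ) ^ j) / ((2 : ℝ) ^ j - 2 ^ k))|
        ≤ ∏ j ∈ ((range N).erase k).filter (fun j => ¬ j < k),
            Real.exp (4 * (1 / 2 : ℝ) ^ (j - k)) := by
          apply Finset.prod_le_prod (fun i _ => abs_nonneg _)
          intro j hj
          simp only [mem_filter, mem_erase, mem_range] at hj
          exact factor_gt (by omega)
      _ = Real.exp (∑ j ∈ ((range N).erase k).filter (fun j => ¬ j < k),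
            (4 * (1 / 2 : ℝ) ^ (j - k))) := (Real.exp_sum _ _).symm
      _ ≤ Real.exp 8 := by
          apply Real.exp_le_exp.2
          rw [← Finset.mul_sum]
          have h1 : ∑ j ∈ ((range N).erase k).filter (fun j => ¬ j < k), (1 / 2 : ℝ) ^ (j - k) ≤
              ∑ j ∈ Ico k N, (1 / 2 : ℝ) ^ (j - k) := by
            apply Finset.sum_le_sum_of_subset_of_nonneg
            · intro j hj
              simp only [mem_filter, mem_erase, mem_range, mem_Ico] at hj ⊢
              omega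
            · intro i _ _; positivity
          have h2 : ∑ j ∈ Ico k N, (1 / 2 : ℝ) ^ (j - k) = ∑ i ∈ range (N - k), (1 / 2 : ℝ) ^ i := by
            rw [Finset.sum_Ico_eq_sum_range]
            apply Finset.sum_congr rfl
            intro i _
            congr 1
            omega
          have h3 : ∑ i ∈ range (N - k), (1 / 2 : ℝ) ^ i ≤ 2 := by
            have hs : Summable (fun i : ℕ => (1 / 2 : ℝ) ^ i) := summable_geometric_two
            have := hs.sum_le_tsum (range (N - k)) (fun i _ => by positivity)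
            rwa [tsum_geometric_two] at this
          linarith
  have h0 : 0 ≤ bet k := (bet_pos k).le
  refine mul_le_mul hB hA (Finset.prod_nonneg fun i _ => abs_nonneg _) (Real.exp_pos _).le

theorem summable_bet (n : ℕ) : Summable (fun k => bet k * (2 : ℝ) ^ (k * n)) := by
  apply summable_of_ratio_test_tendsto_lt_one (l := 0) (by norm_num)
  · filter_upwards with k
    have := bet_pos k
    positivity
  · have h1 : ∀ k : ℕ, ‖bet (k + 1) * (2 : ℝ) ^ ((k + 1) * n)‖ / ‖bet k * (2 : ℝ) ^ (k * n)‖ =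
        2 * 2 ^ n * (1 / 2 : ℝ) ^ k := by
      intro k
      have hb := bet_pos k
      have e1 : bet (k + 1) = bet k * (4 * (1 / 2 : ℝ) ^ (k + 1)) := by
        unfold bet; rw [Finset.prod_range_succ]
      have e2 : (2 : ℝ) ^ ((k + 1) * n) = 2 ^ (k * n) * 2 ^ n := by rw [← pow_add]; congr 1; ring
      rw [e1, e2, Real.norm_of_nonneg (by positivity), Real.norm_of_nonneg (by positivity),
        pow_succ]
      field_simp
      ring
    simp_rw [h1]
    have h2 : Tendsto (fun k : ℕ => (1 / 2 : ℝ) ^ k) atTop (𝓝 0) :=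
      tendsto_pow_atTop_nhds_zero_of_lt_one (by norm_num) (by norm_num)
    simpa using h2.const_mul (2 * 2 ^ n : ℝ)

theorem sum_aN {N n : ℕ} (h : n < N) : ∑' k, aN N k * (-(2 : ℝ) ^ k) ^ n = 1 := by
  have hv : Set.InjOn (fun k : ℕ => -(2 : ℝ) ^ k) (range N : Set ℕ) := by
    intro a _ b _ hab
    have : (2 : ℝ) ^ a = 2 ^ b := by simpa using hab
    exact pow_right_injective₀ (by norm_num) (by norm_num) this
  have hdeg : (Polynomial.X ^ n : Polynomial ℝ).degree < ((range N).card : WithBot ℕ) := by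
    rw [Polynomial.degree_X_pow, card_range]
    exact_mod_cast h
  have hL := Lagrange.eq_interpolate (s := range N) (v := fun k : ℕ => -(2 : ℝ) ^ k) hv hdeg
  have hE := congrArg (Polynomial.eval 1) hL
  rw [Lagrange.interpolate_apply, Polynomial.eval_finset_sum] at hE
  simp only [Polynomial.eval_pow, Polynomial.eval_X, one_pow, Polynomial.eval_mul,
    Polynomial.eval_C] at hE
  rw [tsum_eq_sum (s := range N)]
  · rw [hE]
    apply Finset.sum_congr rfl
    intro k hk
    rw [mul_comm]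
    congr 1
    unfold aN
    rw [if_pos (by simpa using hk), Lagrange.basis, Polynomial.eval_prod]
    apply Finset.prod_congr rfl
    intro j hj
    have hjk : j ≠ k := (mem_erase.1 hj).1
    have hne : (2 : ℝ) ^ j - 2 ^ k ≠ 0 := by
      intro h0
      exact hjk (pow_right_injective₀ (by norm_num) (by norm_num) (sub_eq_zero.1 h0))
    rw [Lagrange.basisDivisor]
    simp only [Polynomial.eval_mul, Polynomial.eval_C, Polynomial.eval_sub, Polynomial.eval_X,
      sub_neg_eq_add]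
    rw [div_eq_inv_mul]
    congr 2
    ring
  · intro k hk
    have : ¬ k < N := by simpa using hk
    simp [aN, this]

/-- Seeley's sequence -/
theorem exists_seq : ∃ a : ℕ → ℝ, (∀ n : ℕ, Summable (fun k => |a k| * (2 : ℝ) ^ (k * n))) ∧
    ∀ n : ℕ, ∑' k, a k * (-(2 : ℝ) ^ k) ^ n = 1 := by
  have hlim : ∀ k, ∃ x ∈ Set.Icc (-(Real.exp 8 * bet k)) (Real.exp 8 * bet k),
      Tendsto (fun N => aN N k) (hyperfilter ℕ : Filter ℕ) (𝓝 x) := by
    intro k
    have hK : IsCompact (Set.Icc (-(Real.exp 8 * bet k)) (Real.exp 8 * bet k)) := isCompact_Icc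
    obtain ⟨x, hx, hx2⟩ := hK.ultrafilter_le_nhds' ((hyperfilter ℕ).map (fun N => aN N k)) (by
      rw [Ultrafilter.mem_map]
      apply Filter.mem_of_superset Filter.univ_mem
      intro N _
      exact abs_le.1 (abs_aN_le N k))
    exact ⟨x, hx, hx2⟩
  choose a ha1 ha2 using hlim
  have habs : ∀ k, |a k| ≤ Real.exp 8 * bet k := fun k => abs_le.2 (ha1 k)
  refine ⟨a, fun n => ?_, fun n => ?_⟩
  · refine Summable.of_nonneg_of_le (fun k => by positivity) (fun k => ?_)
      ((summable_bet n).mul_left (Real.exp 8))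
    rw [← mul_assoc]
    exact mul_le_mul_of_nonneg_right (habs k) (by positivity)
  · have hT : Tendsto (fun N => ∑' k, aN N k * (-(2 : ℝ) ^ k) ^ n) (hyperfilter ℕ : Filter ℕ)
        (𝓝 (∑' k, a k * (-(2 : ℝ) ^ k) ^ n)) := by
      apply tendsto_tsum_of_dominated_convergence
        (bound := fun k => Real.exp 8 * (bet k * (2 : ℝ) ^ (k * n)))
        ((summable_bet n).mul_left (Real.exp 8))
      · intro k
        exact (ha2 k).mul_const _
      · filter_upwards with N k
        rw [norm_mul, norm_pow, norm_neg, norm_pow, Real.norm_ofNat, ← pow_mul, ← mul_assoc]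
        exact mul_le_mul_of_nonneg_right (abs_aN_le N k) (by positivity)
    have hev : ∀ᶠ N in (hyperfilter ℕ : Filter ℕ), ∑' k, aN N k * (-(2 : ℝ) ^ k) ^ n = 1 := by
      have h1 : ∀ᶠ N in (atTop : Filter ℕ), ∑' k, aN N k * (-(2 : ℝ) ^ k) ^ n = 1 := by
        filter_upwards [eventually_gt_atTop n] with N hN
        exact sum_aN hN
      exact Nat.hyperfilter_le_atTop h1
    have hT2 : Tendsto (fun N => ∑' k, aN N k * (-(2 : ℝ) ^ k) ^ n) (hyperfilter ℕ : Filter ℕ)
        (𝓝 1) := by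
      refine Tendsto.congr' ?_ tendsto_const_nhds
      filter_upwards [hev] with N hN
      exact hN.symm
    exact tendsto_nhds_unique hT hT2

end Pool.Agent.H92.BN.Seeley
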