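import Pool.Agent.H92.BN.Iface

/-!
# Module F: interface for the exterior test functions
(helper49)
-/

set_option autoImplicit false

namespace Pool.Agent.H92.BN.MF

open MeasureTheory Set Filter Topology
open scoped ContDiff InnerProductSpace

/-- exterior test functions at a boundary point: `ζ(y) = κ(y) H((y-p_ε)/ε)`, `p_ε = x + ε n` with
`n = ∇ρ(x)/|∇ρ(x)|`, `H` smooth with `H(z) = 1/|z|` for `|z| ≥ 1/2`, `κ` a cut-off which is `1`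
near `closure Ω` (so that `ζ` is harmonic on `Ω` and `dI χ ζ = 0` on `V Ω`). -/
def ExteriorStmt : Prop :=
  ∀ Ω : Set E, IsOpen Ω → Bornology.IsBounded Ω → SmoothDom Ω → ∀ x ∈ closure Ω, x ∉ Ω →
    ∃ C : ℝ, 0 < C ∧ ∃ ε1 : ℝ, 0 < ε1 ∧ ∀ ε : ℝ, 0 < ε → ε < ε1 →
      ∃ ζ ∈ V univ, ∃ Z : E → ℝ, fn ζ =ᵐ[volume] Z ∧ (∀ y ∈ Ω, 0 ≤ Z y ∧ Z y ≤ 2) ∧
        (∀ y ∈ Ω, y ∈ Metric.ball x ε → 1 / 2 ≤ Z y) ∧ dI ζ ζ ≤ C * ε ∧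
        ∀ χ ∈ V Ω, dI χ ζ = 0

end Pool.Agent.H92.BN.MF
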