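import Pool.Agent.H92.BN.MF3
import Pool.Agent.H92.BN.MF_Iface

/-!
# Module F: `BarrierStmt`
(helper49)
-/

set_option autoImplicit false

namespace Pool.Agent.H92.BN.MF

open MeasureTheory Set Filter Topology Metric
open scoped ContDiff InnerProductSpace ENNReal
open Pool.Agent.H92.BN.C5

theorem abs_pow5 (a : ℝ) : |a| ^ 5 = (max a 0) ^ 5 + (max (-a) 0) ^ 5 := by
  rcases le_total a 0 with h | h
  · rw [max_eq_right h, max_eq_left (by linarith), abs_of_nonpos h]; ring
  · rw [max_eq_left h, max_eq_right (by linarith), abs_of_nonneg h]; ring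

theorem pow5 (a : ℝ) : a ^ 5 = (max a 0) ^ 5 - (max (-a) 0) ^ 5 := by
  rcases le_total a 0 with h | h
  · rw [max_eq_right h, max_eq_left (by linarith)]; ring
  · rw [max_eq_left h, max_eq_right (by linarith)]; ring

section
variable (hS : SobVStmt) {Ω : Set E} (hΩo : IsOpen Ω) (hΩ : Bornology.IsBounded Ω)
  {u : BB} (hu : u ∈ V Ω)
include hS hΩo hΩ hu

theorem int_P : Integrable (fun x => (max (fn u x) 0) ^ 5) volume := by
  refine (integrable_u5 hS hΩo hΩ hu).mono (((memLp_fn u).1.sup aestronglyMeasurable_const).pow 5)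
    (Eventually.of_forall fun x => ?_)
  simp only [Real.norm_eq_abs, abs_pow]
  refine pow_le_pow_left₀ (abs_nonneg _) ?_ 5
  rw [abs_of_nonneg (le_max_right _ _)]
  exact max_le (le_abs_self _) (abs_nonneg _)

theorem int_N : Integrable (fun x => (max (-fn u x) 0) ^ 5) volume := by
  refine (integrable_u5 hS hΩo hΩ hu).mono
    (((memLp_fn u).1.neg.sup aestronglyMeasurable_const).pow 5) (Eventually.of_forall fun x => ?_)
  simp only [Real.norm_eq_abs, abs_pow]
  refine pow_le_pow_left₀ (abs_nonneg _) ?_ 5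
  rw [abs_of_nonneg (le_max_right _ _)]
  exact max_le (neg_le_abs _) (abs_nonneg _)

theorem int_A : Integrable (fun x => |fn u x| ^ 5) volume := by
  have := (integrable_u5 hS hΩo hΩ hu).abs
  refine this.congr (Eventually.of_forall fun x => ?_)
  simp only [abs_pow]

theorem N_ind : (∫ x, (max (-fn u x) 0) ^ 5) =
    ∫ x, (max (-fn u x) 0) ^ 5 * |Ω.indicator (fun _ => (1 : ℝ)) x| := by
  refine integral_congr_ae ?_
  filter_upwards [fn_eq_zero_off hu] with x hx
  by_cases h : x ∈ Ω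
  · simp [indicator_of_mem h]
  · simp [hx h]

theorem A_ind (s : Set E) : (∫ x in s, |fn u x| ^ 5) =
    ∫ x in s, |fn u x| ^ 5 * |Ω.indicator (fun _ => (1 : ℝ)) x| := by
  refine integral_congr_ae ?_
  filter_upwards [ae_restrict_of_ae (fn_eq_zero_off hu)] with x hx
  by_cases h : x ∈ Ω
  · simp [indicator_of_mem h]
  · simp [hx h]

theorem split_total (x : E) (r : ℝ) :
    (∫ y, |fn u y| ^ 5) ≤ (∫ y in ball x r, (max (fn u y) 0) ^ 5) +
      (∫ y, (max (-fn u y) 0) ^ 5) + ∫ y in (ball x r)ᶜ, |fn u y| ^ 5 := by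
  have hP := int_P hS hΩo hΩ hu
  have hN := int_N hS hΩo hΩ hu
  have hA := int_A hS hΩo hΩ hu
  rw [← integral_add_compl (measurableSet_ball (x := x) (ε := r)) hA]
  have e : (∫ y in ball x r, |fn u y| ^ 5) = (∫ y in ball x r, (max (fn u y) 0) ^ 5) +
      ∫ y in ball x r, (max (-fn u y) 0) ^ 5 := by
    rw [← integral_add hP.integrableOn hN.integrableOn]
    exact integral_congr_ae (Eventually.of_forall fun y => abs_pow5 _)
  have e2 : (∫ y in ball x r, (max (-fn u y) 0) ^ 5) ≤ ∫ y, (max (-fn u y) 0) ^ 5 :=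
    setIntegral_le_integral hN (Eventually.of_forall fun y => pow_nonneg (le_max_right _ _) 5)
  rw [e]
  linarith

theorem interior_split {e1 : BB} (he1 : e1 ∈ V univ) {f1 : E → ℝ} (hf1 : fn e1 =ᵐ[volume] f1)
    (x : E) {r a : ℝ} (ha : ∀ y ∈ ball x r, a ≤ f1 y) :
    a * (∫ y in ball x r, (max (fn u y) 0) ^ 5) ≤ p5 u e1 +
      (∫ y in (ball x r)ᶜ, |fn u y| ^ 5 * |fn e1 y|) + ∫ y, (max (-fn u y) 0) ^ 5 * |fn e1 y| := by
  have hu' := V_le_univ Ω hu
  have h6 := memLp6 hS hu'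
  have h6e := memLp6 hS he1
  have hP := int_P hS hΩo hΩ hu
  have hNp : MemLp (fun x => max (-fn u x) 0) 6 volume := by
    refine h6.mono ((memLp_fn u).1.neg.sup aestronglyMeasurable_const) ?_
    refine Eventually.of_forall fun x => ?_
    simp only [Real.norm_eq_abs]
    rw [abs_of_nonneg (le_max_right _ _)]
    exact max_le (neg_le_abs _) (abs_nonneg _)
  have hPe : Integrable (fun y => (max (fn u y) 0) ^ 5 * fn e1 y) volume :=
    (holder51 (memLp6_pos hS hu') h6e).1
  have hNe : Integrable (fun y => (max (-fn u y) 0) ^ 5 * fn e1 y) volume :=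
    (holder51 hNp h6e).1
  have hNe' : Integrable (fun y => (max (-fn u y) 0) ^ 5 * |fn e1 y|) volume := by
    refine hNe.abs.congr (Eventually.of_forall fun y => ?_)
    simp only [abs_mul, abs_of_nonneg (pow_nonneg (le_max_right (-fn u y) 0) 5)]
  have hue : Integrable (fun y => fn u y ^ 5 * fn e1 y) volume := (holder51 h6 h6e).1
  have hue' : Integrable (fun y => |fn u y| ^ 5 * |fn e1 y|) volume := by
    refine hue.abs.congr (Eventually.of_forall fun y => ?_)
    simp only [abs_mul, abs_pow]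
  have s1 : a * (∫ y in ball x r, (max (fn u y) 0) ^ 5) ≤
      ∫ y in ball x r, (max (fn u y) 0) ^ 5 * fn e1 y := by
    rw [← integral_const_mul]
    refine setIntegral_mono_on_ae (hP.const_mul a).integrableOn hPe.integrableOn
      measurableSet_ball ?_
    filter_upwards [hf1] with y hy hyb
    rw [hy, mul_comm]
    exact mul_le_mul_of_nonneg_left (ha y hyb) (pow_nonneg (le_max_right _ _) 5)
  have s2 : p5 u e1 = (∫ y in ball x r, fn u y ^ 5 * fn e1 y) +
      ∫ y in (ball x r)ᶜ, fn u y ^ 5 * fn e1 y :=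
    (integral_add_compl measurableSet_ball hue).symm
  have s3 : (∫ y in ball x r, fn u y ^ 5 * fn e1 y) =
      (∫ y in ball x r, (max (fn u y) 0) ^ 5 * fn e1 y) -
      ∫ y in ball x r, (max (-fn u y) 0) ^ 5 * fn e1 y := by
    rw [← integral_sub hPe.integrableOn hNe.integrableOn]
    refine integral_congr_ae (Eventually.of_forall fun y => ?_)
    simp only
    rw [pow5 (fn u y)]; ring
  have s4 : - (∫ y in (ball x r)ᶜ, |fn u y| ^ 5 * |fn e1 y|) ≤
      ∫ y in (ball x r)ᶜ, fn u y ^ 5 * fn e1 y := by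
    rw [← integral_neg]
    refine integral_mono hue'.integrableOn.neg hue.integrableOn fun y => ?_
    simp only
    rw [← abs_pow, ← abs_mul]
    exact neg_abs_le _
  have s5 : (∫ y in ball x r, (max (-fn u y) 0) ^ 5 * fn e1 y) ≤
      ∫ y, (max (-fn u y) 0) ^ 5 * |fn e1 y| := by
    refine le_trans (integral_mono hNe.integrableOn hNe'.integrableOn fun y => ?_)
      (setIntegral_le_integral hNe' (Eventually.of_forall fun y => ?_))
    · simp only
      exact mul_le_mul_of_nonneg_left (le_abs_self _) (pow_nonneg (le_max_right _ _) 5)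
    · exact mul_nonneg (pow_nonneg (le_max_right _ _) 5) (abs_nonneg _)
  linarith

theorem boundary_split {ζ : BB} (hζ : ζ ∈ V univ) {Z : E → ℝ} (hZ : fn ζ =ᵐ[volume] Z)
    (x : E) {r : ℝ} (h1 : ∀ y ∈ Ω, 0 ≤ Z y ∧ Z y ≤ 2) (h2 : ∀ y ∈ Ω, y ∈ ball x r → 1 / 2 ≤ Z y) :
    1 / 2 * (∫ y in ball x r, (max (fn u y) 0) ^ 5) ≤ p5 u ζ +
      2 * ∫ y, (max (-fn u y) 0) ^ 5 := by
  have hu' := V_le_univ Ω hu
  have hP := int_P hS hΩo hΩ hu
  have hN := int_N hS hΩo hΩ hu
  have hue : Integrable (fun y => fn u y ^ 5 * fn ζ y) volume :=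
    (holder51 (memLp6 hS hu') (memLp6 hS hζ)).1
  rw [← integral_indicator measurableSet_ball, ← integral_const_mul, ← integral_const_mul]
  unfold p5
  rw [← integral_add hue (hN.const_mul 2)]
  refine integral_mono_ae ((hP.indicator measurableSet_ball).const_mul _)
    (hue.add (hN.const_mul 2)) ?_
  filter_upwards [hZ, fn_eq_zero_off hu] with y hy hy0
  by_cases hyΩ : y ∈ Ω
  · obtain ⟨z1, z2⟩ := h1 y hyΩ
    have p1 : 0 ≤ (max (fn u y) 0) ^ 5 := pow_nonneg (le_max_right _ _) 5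
    have n1 : 0 ≤ (max (-fn u y) 0) ^ 5 := pow_nonneg (le_max_right _ _) 5
    rw [hy, pow5 (fn u y)]
    by_cases hyb : y ∈ ball x r
    · rw [indicator_of_mem hyb]
      have z3 := h2 y hyΩ hyb
      nlinarith [mul_nonneg p1 (sub_nonneg.2 z3), mul_nonneg n1 (sub_nonneg.2 z2)]
    · rw [indicator_of_notMem hyb]
      nlinarith [mul_nonneg p1 z1, mul_nonneg n1 (sub_nonneg.2 z2)]
  · rw [hy0 hyΩ]
    by_cases hyb : y ∈ ball x r
    · rw [indicator_of_mem hyb, hy0 hyΩ]; simp
    · rw [indicator_of_notMem hyb]; simp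

end

theorem mI_pos_of_p6 {u : BB} (h6 : p6 u = 1) : 0 < mI u u := by
  rcases (mI_nonneg u).lt_or_eq with h | h
  · exact h
  · exfalso
    have h1 : (∫ x, fn u x ^ 2) = 0 := by rw [← mI_self_eq]; exact h.symm
    rw [integral_eq_zero_iff_of_nonneg (fun x => sq_nonneg _) (integrable_fn_sq u)] at h1
    have h2 : p6 u = 0 := by
      unfold p6
      rw [← integral_zero E ℝ (μ := volume)]
      refine integral_congr_ae ?_
      filter_upwards [h1] with x hx
      have : fn u x = 0 := by simpa using hx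
      rw [this]; norm_num
    rw [h2] at h6
    exact zero_ne_one h6

/-- **Module F** -/
theorem barrier' (hS : SobVStmt) (hP : PosPartStmt) (hC : CutStmt) (hL : L1L2Stmt)
    (hX : ExteriorStmt) : BarrierStmt := by
  intro Ω hΩo hΩ hSm l1 l2 e1 e2 f1 f2 hE
  by_contra hcon
  push Not at hcon
  have hS0 := hS.1
  have hl1 := hE.pos
  have hgap := hE.gap
  have hl2 : 0 < l2 := hl1.trans hgap
  have he1' := V_le_univ Ω hE.mem1
  obtain ⟨δ0, hδ0, hδ1, hδ2⟩ : ∃ δ0 : ℝ, 0 < δ0 ∧ δ0 ≤ 1 ∧ l1 + 2 * δ0 < l2 := by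
    refine ⟨min 1 ((l2 - l1) / 4), lt_min one_pos (by linarith), min_le_left _ _, ?_⟩
    have := min_le_right (1 : ℝ) ((l2 - l1) / 4)
    linarith
  set δ : ℕ → ℝ := fun n => δ0 / (n + 1) with hδdef
  have hδpos : ∀ n, 0 < δ n := fun n => by simp only [hδdef]; positivity
  have hδle : ∀ n, δ n ≤ δ0 := fun n => by
    simp only [hδdef]
    apply div_le_self hδ0.le
    have : (0 : ℝ) ≤ n := Nat.cast_nonneg n
    linarith
  have hδlt : ∀ n, l1 + 2 * δ n < l2 := fun n => by linarith [hδle n]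
  have hδlim : Tendsto δ atTop (𝓝 0) := by
    have h := tendsto_one_div_add_atTop_nhds_zero_nat (𝕜 := ℝ)
    have h2 := h.const_mul δ0
    rw [mul_zero] at h2
    refine h2.congr fun n => ?_
    simp only [hδdef]
    ring
  have hex : ∀ n, ∃ u ∈ V Ω, p6 u = 1 ∧ 1 / 2 < pp u ∧ mI u u < δ n ∧
      dI u u ≤ S0 + (l1 + δ n) * mI u u ∧ gI (δ n) e1 u = 0 := fun n =>
    hcon (δ n) (hδpos n) (hδlt n) (δ n) (hδpos n)
  choose u hu h6 hpp hm hD hg using hex
  have hu' : ∀ n, u n ∈ V univ := fun n => V_le_univ Ω (hu n)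
  have hmpos : ∀ n, 0 < mI (u n) (u n) := fun n => mI_pos_of_p6 (h6 n)
  have hCD : 0 ≤ l1 + 1 := by linarith
  have hD' : ∀ n, dI (u n) (u n) ≤ S0 + (l1 + 1) * mI (u n) (u n) := fun n => by
    refine (hD n).trans ?_
    have h1 : l1 + δ n ≤ l1 + 1 := by linarith [hδle n]
    have := mul_le_mul_of_nonneg_right h1 (hmpos n).le
    linarith
  let 𝒰 : Ultrafilter ℕ := Filter.hyperfilter ℕ
  have h𝒰 : (𝒰 : Filter ℕ) ≤ atTop := by
    rw [← Nat.cofinite_eq_atTop]
    exact Filter.hyperfilter_le_cofinite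
  have hδ𝒰 : Tendsto δ (𝒰 : Filter ℕ) (𝓝 0) := hδlim.mono_left h𝒰
  have hm𝒰 : Tendsto (fun n => mI (u n) (u n)) (𝒰 : Filter ℕ) (𝓝 0) :=
    tendsto_of_tendsto_of_tendsto_of_le_of_le tendsto_const_nhds hδ𝒰 (fun n => (hmpos n).le)
      (fun n => (hm n).le)
  -- normalisation
  have hnorm := fun n => normalised hS hE (hδpos n) (hδlt n) (hu n) (h6 n) (hmpos n) (hD n) (hg n)
  choose χ hχV c hc hcs hχ1 hχ2 hineq hce using hnorm
  obtain ⟨κ, hκ, hlow⟩ := lower hS hL hΩo hΩ hE
  have hlow' : ∀ n, κ ≤ c n * ∫ x, |fn (u n) x| ^ 5 := fun n =>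
    hlow (δ n) (hδpos n) (hδlt n) (u n) (hu n) (χ n) (hχV n) (c n) (hc n) (hχ1 n) (hχ2 n) (hineq n)
  -- the small quantity `c √m⁵`
  set ee : ℕ → ℝ := fun n => c n * √(mI (u n) (u n)) ^ 5 with hee
  have hee0 : ∀ n, 0 ≤ ee n := fun n => mul_nonneg (hc n).le (by positivity)
  have heele : ∀ n, ee n ≤ S0 * √l2 * mI (u n) (u n) := by
    intro n
    set m := mI (u n) (u n) with hmdef
    have hm0 := hmpos n
    have hm1 : m ≤ 1 := by
      have := hm n
      have := hδle n
      linarith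
    set s := √m with hs
    have hs0 : 0 < s := Real.sqrt_pos.2 hm0
    have hss : s * s = m := Real.mul_self_sqrt hm0.le
    have h1 : √(l2 / δ n) ≤ √l2 / s := by
      rw [← Real.sqrt_div hl2.le]
      apply Real.sqrt_le_sqrt
      exact div_le_div_of_nonneg_left hl2.le hm0 (hm n).le
    have h2 : c n * s ≤ S0 * (√l2 / s) := (hcs n).trans (mul_le_mul_of_nonneg_left h1 hS0.le)
    have h3 : ee n = (c n * s) * (m * m) := by
      simp only [hee]
      rw [← hss]; ring
    rw [h3]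
    calc (c n * s) * (m * m) ≤ (S0 * (√l2 / s)) * (m * m) :=
          mul_le_mul_of_nonneg_right h2 (by positivity)
      _ = S0 * √l2 * (s * m) := by
          rw [← hss]; field_simp
      _ ≤ S0 * √l2 * (1 * m) := by
          have : s ≤ 1 := by
            rw [hs]; exact Real.sqrt_le_one.2 hm1
          have := Real.sqrt_nonneg l2
          gcongr
      _ = _ := by rw [one_mul]
  have hee𝒰 : Tendsto ee (𝒰 : Filter ℕ) (𝓝 0) := by
    have h := hm𝒰.const_mul (S0 * √l2)
    rw [mul_zero] at h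
    exact tendsto_of_tendsto_of_tendsto_of_le_of_le tendsto_const_nhds h hee0 heele
  -- concentration
  obtain ⟨x, hxcl, hx⟩ := concentrate hS hC hΩ (𝒰 := 𝒰) hCD hu h6 hD' hm𝒰
  obtain ⟨K1, hK1, hneg⟩ := neg5_est hS hP hCD
  set g1 : ℝ := n6 volume (Ω.indicator (fun _ => (1 : ℝ))) with hg1
  have hg1n : 0 ≤ g1 := n6_nonneg _
  have hN : ∀ n, c n * (∫ y, (max (-fn (u n) y) 0) ^ 5) ≤ K1 * g1 * ee n := by
    intro n
    rw [N_ind hS hΩo hΩ (hu n)]
    have h1 := hneg (u n) (hu' n) (h6 n) (hD' n) (hpp n) _ (memLp_one hΩo hΩ)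
    calc c n * _ ≤ c n * (K1 * √(mI (u n) (u n)) ^ 5 * g1) := mul_le_mul_of_nonneg_left h1 (hc n).le
      _ = _ := by simp only [hee]; ring
  have hout : ∀ r : ℝ, 0 < r → ∃ K : ℝ, 0 ≤ K ∧ ∀ᶠ n in (𝒰 : Filter ℕ),
      c n * (∫ y in (ball x r)ᶜ, |fn (u n) y| ^ 5) ≤ K * g1 * ee n ∧
      c n * (∫ y in (ball x r)ᶜ, |fn (u n) y| ^ 5 * |fn e1 y|) ≤ K * nn e1 * ee n := by
    intro r hr
    obtain ⟨K, hK, hev⟩ := outside_est hS hC (𝒰 := 𝒰) hCD hu' h6 hD' hx hr
    refine ⟨K, hK, ?_⟩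
    filter_upwards [hev] with n hn
    constructor
    · rw [A_ind hS hΩo hΩ (hu n)]
      have h1 := hn _ (memLp_one hΩo hΩ)
      calc c n * _ ≤ c n * (K * √(mI (u n) (u n)) ^ 5 * g1) :=
            mul_le_mul_of_nonneg_left h1 (hc n).le
        _ = _ := by simp only [hee]; ring
    · have h1 := hn _ (memLp6 hS he1')
      calc c n * _ ≤ c n * (K * √(mI (u n) (u n)) ^ 5 * nn e1) :=
            mul_le_mul_of_nonneg_left h1 (hc n).le
        _ = _ := by simp only [hee]; ring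
  -- the positive part near `x`
  have hclaim : ∀ η : ℝ, 0 < η → ∃ r : ℝ, 0 < r ∧ ∀ᶠ n in (𝒰 : Filter ℕ),
      c n * (∫ y in ball x r, (max (fn (u n) y) 0) ^ 5) ≤ η := by
    intro η hη
    by_cases hxΩ : x ∈ Ω
    · -- interior point
      have hf : 0 < f1 x := hE.pos1 x hxΩ
      have hcont : ContinuousAt f1 x := hE.cont1.continuousAt (hΩo.mem_nhds hxΩ)
      have hev : ∀ᶠ y in 𝓝 x, f1 x / 2 < f1 y := hcont.eventually (lt_mem_nhds (by linarith))
      obtain ⟨r, hr, hball⟩ := Metric.eventually_nhds_iff_ball.1 hev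
      obtain ⟨K, hK, hKev⟩ := hout r hr
      refine ⟨r, hr, ?_⟩
      have hlim : Tendsto (fun n => √(l2 * δ n) + (K * nn e1 + K1 * nn e1) * ee n)
          (𝒰 : Filter ℕ) (𝓝 (√(l2 * 0) + (K * nn e1 + K1 * nn e1) * 0)) :=
        ((Real.continuous_sqrt.tendsto _).comp (hδ𝒰.const_mul l2)).add (hee𝒰.const_mul _)
      simp only [mul_zero, Real.sqrt_zero, add_zero] at hlim
      have hη' : 0 < f1 x / 2 * η := by positivity
      filter_upwards [hKev, hlim.eventually (gt_mem_nhds hη')] with n hn hsmall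
      have h1 := interior_split hS hΩo hΩ (hu n) he1' hE.rep1 x
        (fun y hy => (hball y hy).le)
      have h2 := mul_le_mul_of_nonneg_left h1 (hc n).le
      have h3 := hneg (u n) (hu' n) (h6 n) (hD' n) (hpp n) _ (memLp6 hS he1')
      have h3' : c n * (∫ y, (max (-fn (u n) y) 0) ^ 5 * |fn e1 y|) ≤ K1 * nn e1 * ee n := by
        calc c n * _ ≤ c n * (K1 * √(mI (u n) (u n)) ^ 5 * nn e1) :=
              mul_le_mul_of_nonneg_left h3 (hc n).le
          _ = _ := by simp only [hee]; ring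
      have h4 := (le_abs_self _).trans (hce n)
      have h5 : f1 x / 2 * (c n * (∫ y in ball x r, (max (fn (u n) y) 0) ^ 5)) ≤ f1 x / 2 * η := by
        have e1 : c n * (f1 x / 2 * ∫ y in ball x r, (max (fn (u n) y) 0) ^ 5) =
            f1 x / 2 * (c n * (∫ y in ball x r, (max (fn (u n) y) 0) ^ 5)) := by ring
        rw [e1] at h2
        have h6' := hn.2
        nlinarith
      exact le_of_mul_le_mul_left h5 (by positivity)
    · -- boundary point
      obtain ⟨C, hC0, ε1, hε1, hext⟩ := hX Ω hΩo hΩ hSm x hxcl hxΩ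
      obtain ⟨ε, hε, hεlt, hεη⟩ : ∃ ε : ℝ, 0 < ε ∧ ε < ε1 ∧ (l2 + C) * √ε ≤ η / 2 := by
        refine ⟨min (ε1 / 2) ((η / (2 * (l2 + C))) ^ 2), lt_min (by linarith) (by positivity),
          (min_le_left _ _).trans_lt (by linarith), ?_⟩
        have h1 : √(min (ε1 / 2) ((η / (2 * (l2 + C))) ^ 2)) ≤ η / (2 * (l2 + C)) := by
          rw [← Real.sqrt_sq (by positivity : 0 ≤ η / (2 * (l2 + C)))]
          exact Real.sqrt_le_sqrt (by
            rw [Real.sqrt_sq (by positivity : 0 ≤ η / (2 * (l2 + C)))]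
            exact min_le_right _ _)
        calc (l2 + C) * √(min (ε1 / 2) ((η / (2 * (l2 + C))) ^ 2)) ≤
              (l2 + C) * (η / (2 * (l2 + C))) := mul_le_mul_of_nonneg_left h1 (by positivity)
          _ = η / 2 := by field_simp
      obtain ⟨ζ, hζ, Z, hZ, hZ1, hZ2, hζd, hζ0⟩ := hext ε hε hεlt
      refine ⟨ε, hε, ?_⟩
      have hlim : Tendsto (fun n => 4 * (K1 * g1) * ee n) (𝒰 : Filter ℕ)
          (𝓝 (4 * (K1 * g1) * 0)) := hee𝒰.const_mul _
      rw [mul_zero] at hlim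
      filter_upwards [hlim.eventually (gt_mem_nhds (half_pos hη))] with n hsmall
      have h1 := boundary_split hS hΩo hΩ (hu n) hζ hZ x hZ1 hZ2
      have h2 := mul_le_mul_of_nonneg_left h1 (hc n).le
      have h3 := hN n
      -- test with `T ζ`
      set T : ℝ := (√ε)⁻¹ with hT
      have hsε : 0 < √ε := Real.sqrt_pos.2 hε
      have hT0 : 0 < T := inv_pos.2 hsε
      have h4 := hineq n (T • ζ) ((V univ).smul_mem _ hζ)
      rw [dI_smul_right, hζ0 _ (hχV n), p5_smul_right, dI_smul_left, dI_smul_right] at h4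
      have h5 : T * (T * dI ζ ζ) ≤ C := by
        have : T * (T * dI ζ ζ) ≤ T * (T * (C * ε)) := by gcongr
        refine this.trans (le_of_eq ?_)
        have e : ε = √ε * √ε := (Real.mul_self_sqrt hε.le).symm
        rw [hT]
        nth_rewrite 3 [e]
        field_simp
      have h6' : 2 * T * (c n * p5 (u n) ζ) ≤ l2 + C := by
        have := hδlt n
        have := hδpos n
        nlinarith
      have h7 : c n * p5 (u n) ζ ≤ (l2 + C) * √ε / 2 := by
        have e : c n * p5 (u n) ζ = (2 * T * (c n * p5 (u n) ζ)) * (√ε / 2) := by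
          rw [hT]; field_simp
        rw [e]
        calc (2 * T * (c n * p5 (u n) ζ)) * (√ε / 2) ≤ (l2 + C) * (√ε / 2) :=
              mul_le_mul_of_nonneg_right h6' (by positivity)
          _ = _ := by ring
      nlinarith
  -- conclusion
  obtain ⟨r, hr, hrev⟩ := hclaim (κ / 2) (half_pos hκ)
  obtain ⟨K, hK, hKev⟩ := hout r hr
  have hlim : Tendsto (fun n => (K1 * g1 + K * g1) * ee n) (𝒰 : Filter ℕ)
      (𝓝 ((K1 * g1 + K * g1) * 0)) := hee𝒰.const_mul _
  rw [mul_zero] at hlim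
  have hfin : ∀ᶠ n in (𝒰 : Filter ℕ), False := by
    filter_upwards [hrev, hKev, hlim.eventually (gt_mem_nhds (half_pos hκ))] with n a1 a2 a3
    have h1 := split_total hS hΩo hΩ (hu n) x r
    have h2 := mul_le_mul_of_nonneg_left h1 (hc n).le
    have h3 := hlow' n
    have h4 := hN n
    have h5 := a2.1
    nlinarith
  exact (Filter.eventually_false_iff_eq_bot.1 hfin) |> (𝒰.neBot).ne

end Pool.Agent.H92.BN.MF
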