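import Pool.Agent.H92.BN.MC5

/-!
# Module F, part 1: local estimates (cut-off, negative part)
(helper49)
-/

set_option autoImplicit false

namespace Pool.Agent.H92.BN.MF

open MeasureTheory Set Filter Topology
open scoped ContDiff InnerProductSpace ENNReal
open Pool.Agent.H92.BN.C5

/-- elements of `V Ω` vanish off `Ω` -/
theorem fn_eq_zero_off {Ω : Set E} {u : BB} (hu : u ∈ V Ω) :
    ∀ᵐ x ∂(volume : Measure E), x ∉ Ω → fn u x = 0 := by
  obtain ⟨b, φ, hφ, hr, -, hlim⟩ := exists_seq hu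
  obtain ⟨ns, -, hae⟩ := exists_subseq_ae hlim
  have h : ∀ᵐ x ∂(volume : Measure E), ∀ k, fn (b (ns k)) x = φ (ns k) x :=
    ae_all_iff.2 fun k => (hr (ns k)).1
  filter_upwards [hae, h] with x h1 h2 hx
  have h3 : (fun k => fn (b (ns k)) x) = fun _ => 0 := by
    ext k
    rw [h2 k]
    by_contra hne
    exact hx ((hφ (ns k)).supp (subset_tsupport _ hne))
  rw [h3] at h1
  exact (tendsto_nhds_unique h1 tendsto_const_nhds)

/-- a test function defines an element of `V Ω` -/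
theorem exists_rep {Ω : Set E} {φ : E → ℝ} (hφ : IsTest Ω φ) : ∃ b ∈ V Ω, Rep b φ := by
  have h1 : MemLp φ 2 (volume : Measure E) :=
    hφ.smooth.continuous.memLp_of_hasCompactSupport hφ.cpt
  have hg : Continuous (gradient φ) := by
    have : Continuous (fderiv ℝ φ) := hφ.smooth.continuous_fderiv (by simp)
    exact (InnerProductSpace.toDual ℝ E).symm.continuous.comp this
  have hc : HasCompactSupport (gradient φ) := by
    have h3 : HasCompactSupport (fderiv ℝ φ) := hφ.cpt.fderiv (𝕜 := ℝ)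
    exact h3.comp_left (g := (InnerProductSpace.toDual ℝ E).symm) (map_zero _)
  have h2 : MemLp (gradient φ) 2 (volume : Measure E) := hg.memLp_of_hasCompactSupport hc
  refine ⟨WithLp.toLp 2 (h1.toLp φ, h2.toLp (gradient φ)), ?_, ?_, ?_⟩
  · exact V0_le Ω ⟨φ, hφ, h1.coeFn_toLp, h2.coeFn_toLp⟩
  · exact h1.coeFn_toLp
  · exact h2.coeFn_toLp

theorem integrable_fn_sq (u : BB) : Integrable (fun x => fn u x ^ 2) volume :=
  (memLp_fn u).integrable_sq

theorem integrable_gr_sq (u : BB) : Integrable (fun x => ‖gr u x‖ ^ 2) volume :=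
  (memLp_gr u).integrable_norm_pow (by norm_num)

theorem integrable_inner (u v : BB) : Integrable (fun x => ⟪gr u x, gr v x⟫_ℝ) volume :=
  L2.integrable_inner (𝕜 := ℝ) u.snd v.snd

theorem mI_self_eq (u : BB) : mI u u = ∫ x, fn u x ^ 2 :=
  integral_congr_ae (Eventually.of_forall fun _ => (sq _).symm)

theorem dI_self_eq (u : BB) : dI u u = ∫ x, ‖gr u x‖ ^ 2 :=
  integral_congr_ae (Eventually.of_forall fun _ => real_inner_self_eq_norm_sq _)

/-- **Step (2)**: cut-off estimate -/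
theorem cut_est (hS : SobVStmt) (hC : CutStmt) {φ : E → ℝ} (hφ : ContDiff ℝ ∞ φ) {C0 C1 : ℝ}
    (h0 : ∀ x, |φ x| ≤ C0) (h1 : ∀ x, ‖gradient φ x‖ ≤ C1) {CD θ : ℝ} (hCD : 0 ≤ CD)
    (hθ0 : 0 ≤ θ) (hθ : θ < 1) :
    ∃ K : ℝ, 0 ≤ K ∧ ∀ u ∈ V univ, p6 u = 1 → dI u u ≤ S0 + CD * mI u u →
      (∫ x in {x | φ x ≠ 0}, fn u x ^ 6) ≤ θ →
      ∃ w ∈ V univ, (fn w =ᵐ[volume] fun x => φ x * fn u x) ∧ dI w w ≤ K * mI u u := by
  have hC0 : 0 ≤ C0 := (abs_nonneg _).trans (h0 0)
  have hC1 : 0 ≤ C1 := (norm_nonneg _).trans (h1 0)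
  have hgrad : Continuous (gradient φ) := by
    have : Continuous (fderiv ℝ φ) := hφ.continuous_fderiv (by simp)
    exact (InnerProductSpace.toDual ℝ E).symm.continuous.comp this
  set κ : ℝ := 1 - θ ^ ((2 : ℝ) / 3) with hκ
  have hκ0 : 0 < κ := by
    have : θ ^ ((2 : ℝ) / 3) < 1 := Real.rpow_lt_one hθ0 hθ (by norm_num)
    rw [hκ]; linarith
  -- choose `s`
  obtain ⟨s, hs0, hs⟩ : ∃ s : ℝ, 0 < s ∧ s * (2 * C0 ^ 2) ≤ κ := by
    refine ⟨κ / (2 * C0 ^ 2 + 1), by positivity, ?_⟩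
    rw [div_mul_eq_mul_div, div_le_iff₀ (by positivity)]
    nlinarith
  refine ⟨(2 * C1 ^ 2 + CD / s + s * (2 * C0 ^ 2 * C1 ^ 2)) / κ, by positivity, ?_⟩
  intro u hu hp6 hD hmass
  obtain ⟨w, hw, hw1, hw2⟩ := hC univ univ u hu φ hφ ⟨C0, h0⟩ ⟨C1, h1⟩ (subset_univ _)
  rw [univ_inter] at hw
  obtain ⟨v, hv, hv1, hv2⟩ := hC univ univ w hw φ hφ ⟨C0, h0⟩ ⟨C1, h1⟩ (subset_univ _)
  rw [univ_inter] at hv
  refine ⟨w, hw, hw1, ?_⟩
  have hm : 0 ≤ mI u u := mI_nonneg u
  set X := dI w w with hX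
  have hX0 : 0 ≤ X := dI_nonneg w
  -- integral of `u²|∇φ|²`
  have hI : Integrable (fun x => fn u x ^ 2 * ‖gradient φ x‖ ^ 2) volume := by
    refine (integrable_fn_sq u).mul_bdd (c := C1 ^ 2) (hgrad.norm.pow 2).aestronglyMeasurable ?_
    refine Eventually.of_forall fun x => ?_
    rw [Real.norm_eq_abs, abs_of_nonneg (by positivity)]
    exact pow_le_pow_left₀ (norm_nonneg _) (h1 x) 2
  have hI' : (∫ x, fn u x ^ 2 * ‖gradient φ x‖ ^ 2) ≤ C1 ^ 2 * mI u u := by
    rw [mI_self_eq, ← integral_const_mul]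
    refine integral_mono hI ((integrable_fn_sq u).const_mul _) fun x => ?_
    have := pow_le_pow_left₀ (norm_nonneg _) (h1 x) 2
    have h3 : 0 ≤ fn u x ^ 2 := sq_nonneg _
    simp only
    nlinarith
  -- (a) dI u v = X - ∫ u²|∇φ|²
  have ha : dI u v = X - ∫ x, fn u x ^ 2 * ‖gradient φ x‖ ^ 2 := by
    rw [hX, dI_self_eq, ← integral_sub (integrable_gr_sq w) hI]
    unfold dI
    refine integral_congr_ae ?_
    filter_upwards [hw1, hw2, hv2] with x e1 e2 e3
    rw [e3, e2, e1, norm_add_sq_real, norm_smul, norm_smul, inner_add_right, inner_smul_right,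
      inner_smul_right, inner_add_right, inner_smul_right, inner_smul_right, real_inner_smul_left,
      real_inner_smul_right, real_inner_self_eq_norm_sq, mul_pow, mul_pow, Real.norm_eq_abs,
      Real.norm_eq_abs, sq_abs, sq_abs]
    ring
  -- (b) S0 p5 u v ≤ (1-κ) X
  have hmeas : MeasurableSet {x | φ x ≠ 0} :=
    (isOpen_ne_fun hφ.continuous continuous_const).measurableSet
  have hb : S0 * p5 u v ≤ (1 - κ) * X := by
    set a : E → ℝ := {x | φ x ≠ 0}.indicator (fn u) with ha'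
    have hma : MemLp a 6 volume := (memLp6 hS hu).indicator hmeas
    have hna : n6 volume a ^ 6 ≤ θ := by
      rw [n6_pow_six]
      refine le_trans (le_of_eq ?_) hmass
      rw [← integral_indicator hmeas]
      refine integral_congr_ae (Eventually.of_forall fun x => ?_)
      by_cases hx : x ∈ {x | φ x ≠ 0}
      · simp only [ha', indicator_of_mem hx]
      · simp only [ha', indicator_of_notMem hx]
        norm_num
    have hna4 : n6 volume a ^ 4 ≤ θ ^ ((2 : ℝ) / 3) := by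
      have h6 : n6 volume a ^ 4 = (n6 volume a ^ 6) ^ ((2 : ℝ) / 3) := by
        rw [← Real.rpow_natCast, ← Real.rpow_natCast, ← Real.rpow_mul (n6_nonneg _)]
        norm_num
      rw [h6]
      exact Real.rpow_le_rpow (pow_nonneg (n6_nonneg _) _) hna (by norm_num)
    have hH := holder411 hma (memLp6 hS hw) (memLp6 hS hw)
    have hp : p5 u v ≤ n6 volume a ^ 4 * nn w * nn w := by
      refine le_trans (le_trans (le_of_eq ?_) ((le_abs_self _).trans abs_integral_le_integral_abs)) hH.2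
      unfold p5
      refine integral_congr_ae ?_
      filter_upwards [hw1, hv1] with x e1 e3
      rw [e3, e1]
      by_cases hx : x ∈ {x | φ x ≠ 0}
      · simp only [ha', indicator_of_mem hx]; ring
      · have : φ x = 0 := by simpa using hx
        simp only [ha', indicator_of_notMem hx, this]; ring
    have hsob := sob hS hw
    have hS0 := hS.1
    have hnw : 0 ≤ nn w ^ 2 := sq_nonneg _
    calc S0 * p5 u v ≤ S0 * (n6 volume a ^ 4 * nn w * nn w) := mul_le_mul_of_nonneg_left hp hS0.le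
      _ = n6 volume a ^ 4 * (S0 * nn w ^ 2) := by ring
      _ ≤ θ ^ ((2 : ℝ) / 3) * X := mul_le_mul hna4 hsob (by positivity)
          (Real.rpow_nonneg hθ0 _)
      _ = (1 - κ) * X := by rw [hκ]; ring
  -- (c) dI v v ≤ 2 C0² X + 2 C0² C1² m
  have hc : dI v v ≤ 2 * C0 ^ 2 * X + 2 * C0 ^ 2 * C1 ^ 2 * mI u u := by
    have e : dI v v ≤ ∫ x, (2 * C0 ^ 2 * ‖gr w x‖ ^ 2 + 2 * C0 ^ 2 * C1 ^ 2 * fn u x ^ 2) := by
      rw [dI_self_eq]
      refine integral_mono_ae (integrable_gr_sq v)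
        (((integrable_gr_sq w).const_mul _).add ((integrable_fn_sq u).const_mul _)) ?_
      filter_upwards [hw1, hv2] with x e1 e3
      rw [e3, e1]
      have t1 : ‖φ x • gr w x + (φ x * fn u x) • gradient φ x‖ ≤
          C0 * ‖gr w x‖ + C0 * (C1 * |fn u x|) := by
        refine (norm_add_le _ _).trans (add_le_add ?_ ?_)
        · rw [norm_smul, Real.norm_eq_abs]
          exact mul_le_mul_of_nonneg_right (h0 x) (norm_nonneg _)
        · rw [norm_smul, Real.norm_eq_abs, abs_mul]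
          calc |φ x| * |fn u x| * ‖gradient φ x‖ = |φ x| * (‖gradient φ x‖ * |fn u x|) := by ring
            _ ≤ C0 * (C1 * |fn u x|) := by
              have := h0 x
              have := h1 x
              have := abs_nonneg (fn u x)
              gcongr
      have t2 := pow_le_pow_left₀ (norm_nonneg _) t1 2
      refine t2.trans ?_
      rw [← sq_abs (fn u x)]
      nlinarith [sq_nonneg (C0 * ‖gr w x‖ - C0 * (C1 * |fn u x|))]
    refine e.trans (le_of_eq ?_)
    rw [integral_add ((integrable_gr_sq w).const_mul _) ((integrable_fn_sq u).const_mul _),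
      integral_const_mul, integral_const_mul, ← dI_self_eq, ← mI_self_eq]
  -- combine with the key inequality
  have hkey := key' hS hu ((V univ).smul_mem (-s) hv) hp6
  rw [dI_smul_right, p5_smul_right, dI_smul_left, dI_smul_right] at hkey
  have hA : κ * X - C1 ^ 2 * mI u u ≤ dI u v - S0 * p5 u v := by
    rw [ha]; linarith
  have h5 : 2 * s * (κ * X - C1 ^ 2 * mI u u) ≤ CD * mI u u +
      s ^ 2 * (2 * C0 ^ 2 * X + 2 * C0 ^ 2 * C1 ^ 2 * mI u u) := by
    have t1 := mul_le_mul_of_nonneg_left hA (by positivity : 0 ≤ 2 * s)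
    have t2 := mul_le_mul_of_nonneg_left hc (by positivity : 0 ≤ s ^ 2)
    nlinarith
  have h6 : s ^ 2 * (2 * C0 ^ 2 * X) ≤ s * (κ * X) := by
    have := mul_le_mul_of_nonneg_right hs (mul_nonneg hs0.le hX0)
    nlinarith
  have h7 : s * (κ * X) ≤ (2 * s * C1 ^ 2 + CD + s ^ 2 * (2 * C0 ^ 2 * C1 ^ 2)) * mI u u := by
    nlinarith
  rw [div_mul_eq_mul_div, le_div_iff₀ hκ0]
  have h8 : s * (X * κ) ≤ s * ((2 * C1 ^ 2 + CD / s + s * (2 * C0 ^ 2 * C1 ^ 2)) * mI u u) := by
    have e : s * ((2 * C1 ^ 2 + CD / s + s * (2 * C0 ^ 2 * C1 ^ 2)) * mI u u) =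
        (2 * s * C1 ^ 2 + CD + s ^ 2 * (2 * C0 ^ 2 * C1 ^ 2)) * mI u u := by
      field_simp
    rw [e]
    linarith
  exact le_of_mul_le_mul_left h8 hs0

/-- **Step (4)**: the negative part is small -/
theorem neg_est (hS : SobVStmt) (hP : PosPartStmt) {CD : ℝ} :
    ∀ u ∈ V univ, p6 u = 1 → dI u u ≤ S0 + CD * mI u u → 1 / 2 < pp u →
      ∃ w ∈ V univ, (fn w =ᵐ[volume] fun x => max (-fn u x) 0) ∧ dI w w ≤ 8 * CD * mI u u := by
  intro u hu hp6 hD hpp
  obtain ⟨w, hw, hw1, hw2⟩ := hP univ (-u) ((V univ).neg_mem hu)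
  have hw1' : fn w =ᵐ[volume] fun x => max (-fn u x) 0 := by
    filter_upwards [hw1, fn_neg u] with x e1 e2
    rw [e1, e2]; rfl
  refine ⟨w, hw, hw1', ?_⟩
  set X := dI w w with hX
  have hX0 : 0 ≤ X := dI_nonneg w
  have ha : dI u w = -X := by
    rw [hX, dI_self_eq, ← integral_neg]
    unfold dI
    refine integral_congr_ae ?_
    filter_upwards [hw2, gr_neg u] with x e1 e2
    rw [e1, e2]
    split_ifs with h
    · simp only [Pi.neg_apply, inner_neg_right, norm_neg, real_inner_self_eq_norm_sq]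
    · simp
  have hp : p5 u w = -p6 w := by
    unfold p5 p6
    rw [← integral_neg]
    refine integral_congr_ae ?_
    filter_upwards [hw1'] with x e1
    rw [e1]
    rcases le_total (fn u x) 0 with h | h
    · rw [max_eq_left (by linarith)]; ring
    · rw [max_eq_right (by linarith)]; ring
  have hp6w : p6 w = pp (-u) := by
    unfold p6 pp
    refine integral_congr_ae ?_
    filter_upwards [hw1] with x e1
    rw [e1]
  have h1 := pp_add_pp_neg hS hu
  have h2 : p6 w < 1 / 2 := by rw [hp6w]; linarith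
  rw [p6_eq] at h2
  have hnn := nn_nonneg w
  have h3 : nn w ^ 2 ≤ 4 / 5 := by
    by_contra h
    push Not at h
    have : (4 / 5 : ℝ) ^ 3 < (nn w ^ 2) ^ 3 := pow_lt_pow_left₀ h (by norm_num) (by norm_num)
    nlinarith
  have h4 : nn w ^ 4 ≤ 16 / 25 := by nlinarith [sq_nonneg (nn w)]
  have hsob := sob hS hw
  have hb : S0 * p6 w ≤ 16 / 25 * X := by
    rw [p6_eq]
    have : S0 * nn w ^ 6 = nn w ^ 4 * (S0 * nn w ^ 2) := by ring
    rw [this]
    have hS0 := hS.1
    exact mul_le_mul h4 hsob (by positivity) (by norm_num)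
  have hkey := key' hS hu ((V univ).smul_mem (9 / 25 : ℝ) hw) hp6
  rw [dI_smul_right, p5_smul_right, dI_smul_left, dI_smul_right, ha, hp] at hkey
  nlinarith

end Pool.Agent.H92.BN.MF
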