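import Pool.Agent.H92.BN.MF1

/-!
# Module F, part 2: concentration
(helper49)
-/

set_option autoImplicit false

namespace Pool.Agent.H92.BN.MF

open MeasureTheory Set Filter Topology Metric
open scoped ContDiff InnerProductSpace ENNReal
open Pool.Agent.H92.BN.C5

theorem gradient_bounded {φ : E → ℝ} (hφ : ContDiff ℝ ∞ φ) (hc : HasCompactSupport φ) :
    ∃ C, ∀ x, ‖gradient φ x‖ ≤ C := by
  have h1 : Continuous (fderiv ℝ φ) := hφ.continuous_fderiv (by simp)
  have h2 : HasCompactSupport (fderiv ℝ φ) := hc.fderiv (𝕜 := ℝ)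
  obtain ⟨C, hC⟩ := h2.exists_bound_of_continuous h1
  refine ⟨C, fun x => ?_⟩
  rw [gradient, LinearIsometryEquiv.norm_map]
  exact hC x

/-- smooth cut-off of a ball -/
theorem exists_cut (x : E) {r : ℝ} (hr : 0 < r) :
    ∃ φ : E → ℝ, ContDiff ℝ ∞ φ ∧ HasCompactSupport φ ∧ (∀ y, 0 ≤ φ y) ∧ (∀ y, φ y ≤ 1) ∧
      (∃ C, ∀ y, ‖gradient φ y‖ ≤ C) ∧ (∀ y ∈ ball x (r / 2), φ y = 1) ∧
      (∀ y ∉ ball x r, φ y = 0) := by
  let f : ContDiffBump x := ⟨r / 2, r, by linarith, by linarith⟩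
  have h1 : ContDiff ℝ ∞ f := f.contDiff
  refine ⟨f, h1, f.hasCompactSupport, fun y => f.nonneg, fun y => f.le_one,
    gradient_bounded h1 f.hasCompactSupport, fun y hy => ?_, fun y hy => ?_⟩
  · exact f.one_of_mem_closedBall (ball_subset_closedBall hy)
  · exact f.zero_of_le_dist (by simpa using hy)

/-- complementary cut-off -/
theorem exists_cut' (x : E) {r : ℝ} (hr : 0 < r) :
    ∃ φ : E → ℝ, ContDiff ℝ ∞ φ ∧ (∀ y, |φ y| ≤ 1) ∧
      (∃ C, ∀ y, ‖gradient φ y‖ ≤ C) ∧ (∀ y ∈ ball x (r / 2), φ y = 0) ∧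
      (∀ y ∉ ball x r, φ y = 1) := by
  obtain ⟨φ, h1, -, h3, h4, ⟨C, hC⟩, h6, h7⟩ := exists_cut x hr
  refine ⟨fun y => 1 - φ y, contDiff_const.sub h1, fun y => ?_, ⟨C, fun y => ?_⟩, fun y hy => ?_,
    fun y hy => ?_⟩
  · rw [abs_le]; constructor <;> [linarith [h4 y]; linarith [h3 y]]
  · have : gradient (fun y => 1 - φ y) y = - gradient φ y := by
      rw [gradient, gradient, fderiv_const_sub, map_neg]
    rw [this, norm_neg]
    exact hC y
  · simp only [h6 y hy, sub_self]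
  · simp only [h7 y hy, sub_zero]

theorem nn_le_of_dI (hS : SobVStmt) {w : BB} (hw : w ∈ V univ) {K m : ℝ} (hK : 0 ≤ K)
    (h : dI w w ≤ K * m) : nn w ≤ √(K / S0) * √m := by
  refine (nn_le hS hw).trans ?_
  rw [← Real.sqrt_mul (div_nonneg hK hS.1.le)]
  apply Real.sqrt_le_sqrt
  rw [div_mul_eq_mul_div]
  exact div_le_div_of_nonneg_right h hS.1.le

theorem lint6 (hS : SobVStmt) {w : BB} (hw : w ∈ V univ) :
    (∫⁻ x, ENNReal.ofReal (fn w x ^ 6)) = ENNReal.ofReal (p6 w) :=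
  (ofReal_integral_eq_lintegral_ofReal (integrable_p6 hS hw)
    (Eventually.of_forall fun x => by positivity)).symm

/-- **Step (3)**: existence of a concentration point -/
theorem concentrate (hS : SobVStmt) (hC : CutStmt) {Ω : Set E} (hΩ : Bornology.IsBounded Ω)
    {𝒰 : Ultrafilter ℕ} {u : ℕ → BB} {CD : ℝ} (hCD : 0 ≤ CD) (hu : ∀ n, u n ∈ V Ω)
    (h6 : ∀ n, p6 (u n) = 1) (hD : ∀ n, dI (u n) (u n) ≤ S0 + CD * mI (u n) (u n))
    (hm : Tendsto (fun n => mI (u n) (u n)) (𝒰 : Filter ℕ) (𝓝 0)) :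
    ∃ x ∈ closure Ω, ∀ r : ℝ, 0 < r → ∀ θ : ℝ, θ < 1 → ∀ᶠ n in (𝒰 : Filter ℕ),
      θ < ∫ y in ball x r, fn (u n) y ^ 6 := by
  by_contra hcon
  push Not at hcon
  have hu' : ∀ n, u n ∈ V univ := fun n => V_le_univ Ω (hu n)
  have hlim : Tendsto (fun n => ∫⁻ y in closure Ω, ENNReal.ofReal (fn (u n) y ^ 6))
      (𝒰 : Filter ℕ) (𝓝 0) := by
    refine (hΩ.isCompact_closure).induction_on
      (p := fun s => Tendsto (fun n => ∫⁻ y in s, ENNReal.ofReal (fn (u n) y ^ 6))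
        (𝒰 : Filter ℕ) (𝓝 0)) ?_ ?_ ?_ ?_
    · simp
    · intro s t hst ht
      exact tendsto_of_tendsto_of_tendsto_of_le_of_le tendsto_const_nhds ht (fun n => zero_le)
        (fun n => lintegral_mono_set hst)
    · intro s t hs ht
      have := hs.add ht
      rw [add_zero] at this
      exact tendsto_of_tendsto_of_tendsto_of_le_of_le tendsto_const_nhds this (fun n => zero_le)
        (fun n => lintegral_union_le _ _ _)
    · intro x hx
      obtain ⟨r, hr, θ, hθ, hev⟩ := hcon x hx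
      refine ⟨ball x (r / 2), mem_nhdsWithin_of_mem_nhds (ball_mem_nhds x (by linarith)), ?_⟩
      obtain ⟨φ, h1, -, h3, h4, ⟨C1, hC1⟩, h6', h7⟩ := exists_cut x hr
      obtain ⟨K, hK0, hK⟩ := cut_est hS hC h1 (C0 := 1) (C1 := C1)
        (fun y => by rw [abs_of_nonneg (h3 y)]; exact h4 y) hC1 hCD (θ := max θ 0)
        (le_max_right _ _) (max_lt hθ one_pos)
      have hup : Tendsto (fun n => ENNReal.ofReal ((√(K / S0) * √(mI (u n) (u n))) ^ 6))
          (𝒰 : Filter ℕ) (𝓝 0) := by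
        have t1 : Tendsto (fun n => (√(K / S0) * √(mI (u n) (u n))) ^ 6) (𝒰 : Filter ℕ)
            (𝓝 ((√(K / S0) * √0) ^ 6)) :=
          ((Real.continuous_sqrt.tendsto 0).comp hm).const_mul _ |>.pow 6
        have t2 := ENNReal.tendsto_ofReal t1
        simpa using t2
      refine tendsto_of_tendsto_of_tendsto_of_le_of_le' tendsto_const_nhds hup
        (Eventually.of_forall fun n => zero_le) ?_
      filter_upwards [hev] with n hn
      have hle : (∫ y in {y | φ y ≠ 0}, fn (u n) y ^ 6) ≤ max θ 0 := by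
        refine le_trans ?_ (hn.trans (le_max_left _ _))
        refine setIntegral_mono_set (integrable_p6 hS (hu' n)).integrableOn
          (Eventually.of_forall fun y => by positivity) ?_
        refine Eventually.of_forall fun y hy => ?_
        by_contra hyb
        exact hy (h7 y hyb)
      obtain ⟨w, hw, hw1, hw2⟩ := hK (u n) (hu' n) (h6 n) (hD n) hle
      have e1 : (∫⁻ y in ball x (r / 2), ENNReal.ofReal (fn (u n) y ^ 6)) ≤
          ∫⁻ y, ENNReal.ofReal (fn w y ^ 6) := by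
        refine le_trans (le_of_eq ?_) (setLIntegral_le_lintegral (ball x (r / 2)) _)
        refine setLIntegral_congr_fun_ae measurableSet_ball ?_
        filter_upwards [hw1] with y hy hyb
        rw [hy, h6' y hyb, one_mul]
      refine e1.trans ?_
      rw [lint6 hS hw]
      apply ENNReal.ofReal_le_ofReal
      rw [p6_eq]
      exact pow_le_pow_left₀ (nn_nonneg w) (nn_le_of_dI hS hw hK0 hw2) 6
  have hone : ∀ n, (∫⁻ y in closure Ω, ENNReal.ofReal (fn (u n) y ^ 6)) = 1 := by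
    intro n
    have e : (∫⁻ y, ENNReal.ofReal (fn (u n) y ^ 6)) = 1 := by
      rw [lint6 hS (hu' n), h6 n, ENNReal.ofReal_one]
    rw [← e, ← lintegral_indicator isClosed_closure.measurableSet]
    refine lintegral_congr_ae ?_
    filter_upwards [fn_eq_zero_off (hu n)] with y hy
    by_cases hyc : y ∈ closure Ω
    · rw [indicator_of_mem hyc]
    · rw [indicator_of_notMem hyc, hy (fun h => hyc (subset_closure h))]
      simp
  simp only [hone] at hlim
  exact one_ne_zero (tendsto_nhds_unique tendsto_const_nhds hlim)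

/-- the mass outside a ball around a concentration point -/
theorem outside_est (hS : SobVStmt) (hC : CutStmt)
    {𝒰 : Ultrafilter ℕ} {u : ℕ → BB} {CD : ℝ} (hCD : 0 ≤ CD) (hu : ∀ n, u n ∈ V univ)
    (h6 : ∀ n, p6 (u n) = 1) (hD : ∀ n, dI (u n) (u n) ≤ S0 + CD * mI (u n) (u n)) {x : E}
    (hx : ∀ r : ℝ, 0 < r → ∀ θ : ℝ, θ < 1 → ∀ᶠ n in (𝒰 : Filter ℕ),
      θ < ∫ y in ball x r, fn (u n) y ^ 6) {r : ℝ} (hr : 0 < r) :
    ∃ K : ℝ, 0 ≤ K ∧ ∀ᶠ n in (𝒰 : Filter ℕ), ∀ g : E → ℝ, MemLp g 6 volume →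
      (∫ y in (ball x r)ᶜ, |fn (u n) y| ^ 5 * |g y|) ≤
        K * √(mI (u n) (u n)) ^ 5 * n6 volume g := by
  obtain ⟨φ, h1, h2, ⟨C1, hC1⟩, h3, h4⟩ := exists_cut' x hr
  obtain ⟨K, hK0, hK⟩ := cut_est hS hC h1 (C0 := 1) (C1 := C1) h2 hC1 hCD (θ := 1 / 2)
    (by norm_num) (by norm_num)
  refine ⟨√(K / S0) ^ 5, by positivity, ?_⟩
  filter_upwards [hx (r / 2) (by linarith) (1 / 2) (by norm_num)] with n hn g hg
  have hle : (∫ y in {y | φ y ≠ 0}, fn (u n) y ^ 6) ≤ 1 / 2 := by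
    have e1 : (∫ y in {y | φ y ≠ 0}, fn (u n) y ^ 6) ≤ ∫ y in (ball x (r / 2))ᶜ, fn (u n) y ^ 6 := by
      refine setIntegral_mono_set (integrable_p6 hS (hu n)).integrableOn
        (Eventually.of_forall fun y => by positivity) ?_
      refine Eventually.of_forall fun y hy => ?_
      intro hyb
      exact hy (h3 y hyb)
    have e2 := integral_add_compl (measurableSet_ball (x := x) (ε := r / 2))
      (integrable_p6 hS (hu n))
    have e3 : (∫ y, fn (u n) y ^ 6) = 1 := h6 n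
    linarith
  obtain ⟨w, hw, hw1, hw2⟩ := hK (u n) (hu n) (h6 n) (hD n) hle
  have hH := holder51 (memLp6 hS hw) hg
  have hnn := nn_le_of_dI hS hw hK0 hw2
  have hint : Integrable (fun y => |fn w y ^ 5 * g y|) volume := hH.1.abs
  calc (∫ y in (ball x r)ᶜ, |fn (u n) y| ^ 5 * |g y|) = ∫ y in (ball x r)ᶜ, |fn w y ^ 5 * g y| := by
        refine setIntegral_congr_ae measurableSet_ball.compl ?_
        filter_upwards [hw1] with y hy hyb
        rw [hy, h4 y hyb, one_mul, abs_mul, abs_pow]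
    _ ≤ ∫ y, |fn w y ^ 5 * g y| :=
        setIntegral_le_integral hint (Eventually.of_forall fun y => abs_nonneg _)
    _ ≤ nn w ^ 5 * n6 volume g := hH.2
    _ ≤ (√(K / S0) * √(mI (u n) (u n))) ^ 5 * n6 volume g := by
        have := nn_nonneg w
        have := n6_nonneg (μ := volume) g
        gcongr
    _ = _ := by rw [mul_pow]

/-- the negative part is of lower order -/
theorem neg5_est (hS : SobVStmt) (hP : PosPartStmt) {CD : ℝ} (hCD : 0 ≤ CD) :
    ∃ K : ℝ, 0 ≤ K ∧ ∀ u ∈ V univ, p6 u = 1 → dI u u ≤ S0 + CD * mI u u → 1 / 2 < pp u →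
      ∀ g : E → ℝ, MemLp g 6 volume →
      (∫ y, (max (-fn u y) 0) ^ 5 * |g y|) ≤ K * √(mI u u) ^ 5 * n6 volume g := by
  refine ⟨√(8 * CD / S0) ^ 5, by positivity, fun u hu h6 hD hpp g hg => ?_⟩
  obtain ⟨w, hw, hw1, hw2⟩ := neg_est hS hP (CD := CD) u hu h6 hD hpp
  have hH := holder51 (memLp6 hS hw) hg
  have hnn := nn_le_of_dI hS hw (by positivity) hw2
  calc (∫ y, (max (-fn u y) 0) ^ 5 * |g y|) = ∫ y, |fn w y ^ 5 * g y| := by
        refine integral_congr_ae ?_
        filter_upwards [hw1] with y hy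
        rw [hy, abs_mul, abs_of_nonneg (pow_nonneg (le_max_right (-fn u y) 0) 5)]
    _ ≤ nn w ^ 5 * n6 volume g := hH.2
    _ ≤ (√(8 * CD / S0) * √(mI u u)) ^ 5 * n6 volume g := by
        have := nn_nonneg w
        have := n6_nonneg (μ := volume) g
        gcongr
    _ = _ := by rw [mul_pow]

end Pool.Agent.H92.BN.MF
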