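import Pool.Agent.H92.BN.MF2
import Pool.Agent.H92.BN.Iface2

/-!
# Module F, part 3: the normalised inequality and the lower bound for `‖ρ̂‖₁`
(helper49)
-/

set_option autoImplicit false

namespace Pool.Agent.H92.BN.MF

open MeasureTheory Set Filter Topology Metric
open scoped ContDiff InnerProductSpace ENNReal
open Pool.Agent.H92.BN.C5

/-- Riesz representation for the Dirichlet form on `V Ω` -/
theorem exists_riesz {Ω : Set E} {c0 : ℝ} (hc0 : 0 < c0)
    (hco : ∀ v ∈ V Ω, c0 * mI v v ≤ dI v v) (ℓ : BB → ℝ)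
    (hadd : ∀ u ∈ V Ω, ∀ v ∈ V Ω, ℓ (u + v) = ℓ u + ℓ v)
    (hsmul : ∀ c : ℝ, ∀ u ∈ V Ω, ℓ (c • u) = c * ℓ u) (C : ℝ)
    (hC : ∀ u ∈ V Ω, |ℓ u| ≤ C * ‖u‖) : ∃ z ∈ V Ω, ∀ η ∈ V Ω, dI z η = ℓ η := by
  let B : VS Ω →L[ℝ] VS Ω →L[ℝ] ℝ :=
    LinearMap.mkContinuous₂ (LinearMap.mk₂ ℝ (fun u v : VS Ω => dI u.v v.v)
      (fun a b c => by simp only [VS.v_add, dI_add_left])
      (fun a b c => by simp only [VS.v_smul, dI_smul_left, smul_eq_mul])
      (fun a b c => by simp only [VS.v_add, dI_add_right])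
      (fun a b c => by simp only [VS.v_smul, dI_smul_right, smul_eq_mul])) 1
      (fun x y => by
        simp only [LinearMap.mk₂_apply, one_mul, Real.norm_eq_abs]
        exact abs_dI_le_norm _ _)
  have hB : ∀ u v : VS Ω, B u v = dI u.v v.v := fun u v => rfl
  have hcoer : IsCoercive B := by
    refine ⟨c0 / (1 + c0), by positivity, fun u => ?_⟩
    rw [hB]
    have h1 := hco u.v u.mem
    have h2 := norm_sq u.v
    have h3 : ‖u‖ * ‖u‖ = mI u.v u.v + dI u.v u.v := by rw [← h2, VS.norm_def]; ring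
    rw [mul_assoc, h3, div_mul_eq_mul_div, div_le_iff₀ (by positivity)]
    nlinarith
  let L : VS Ω →L[ℝ] ℝ := LinearMap.mkContinuous
    { toFun := fun u : VS Ω => ℓ u.v
      map_add' := fun u v => hadd _ u.mem _ v.mem
      map_smul' := fun c u => hsmul c _ u.mem } C (fun u => hC _ u.mem)
  have hL : ∀ u : VS Ω, L u = ℓ u.v := fun u => rfl
  let r : VS Ω := (InnerProductSpace.toDual ℝ (VS Ω)).symm L
  let z : VS Ω := hcoer.continuousLinearEquivOfBilin.symm r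
  refine ⟨z.v, z.mem, fun η hη => ?_⟩
  have h1 := hcoer.continuousLinearEquivOfBilin_apply z (VS.mk η hη)
  have h2 : hcoer.continuousLinearEquivOfBilin z = r :=
    ContinuousLinearEquiv.apply_symm_apply _ _
  rw [h2, hB] at h1
  have h3 : ⟪r, VS.mk η hη⟫_ℝ = L (VS.mk η hη) := InnerProductSpace.toDual_symm_apply
  rw [h3, hL] at h1
  simpa using h1.symm

/-- indicator of a bounded set is in `L⁶` -/
theorem memLp_one {Ω : Set E} (hΩo : IsOpen Ω) (hΩ : Bornology.IsBounded Ω) :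
    MemLp (Ω.indicator (fun _ => (1 : ℝ))) 6 (volume : Measure E) :=
  memLp_indicator_const 6 hΩo.measurableSet 1 (Or.inr hΩ.measure_lt_top.ne)

theorem integrable_u5 (hS : SobVStmt) {Ω : Set E} (hΩo : IsOpen Ω) (hΩ : Bornology.IsBounded Ω)
    {u : BB} (hu : u ∈ V Ω) : Integrable (fun x => fn u x ^ 5) volume := by
  refine (holder51 (memLp6 hS (V_le_univ Ω hu)) (memLp_one hΩo hΩ)).1.congr ?_
  filter_upwards [fn_eq_zero_off hu] with x hx
  by_cases h : x ∈ Ω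
  · simp [indicator_of_mem h]
  · simp [hx h]

theorem memLp_u5 (hS : SobVStmt) {u : BB} (hu : u ∈ V univ) (c : ℝ) :
    MemLp (fun x => c * fn u x ^ 5) (ENNReal.ofReal (6 / 5)) volume := by
  have h6 := memLp6 hS hu
  refine MemLp.const_mul ?_ c
  refine ⟨h6.1.pow 5, ?_⟩
  have hp0 : ENNReal.ofReal (6 / 5) ≠ 0 := by
    rw [Ne, ENNReal.ofReal_eq_zero]; norm_num
  rw [eLpNorm_lt_top_iff_lintegral_rpow_enorm_lt_top hp0 ENNReal.ofReal_ne_top]
  have h7 := (eLpNorm_lt_top_iff_lintegral_rpow_enorm_lt_top (by norm_num) (by norm_num)).1 h6.2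
  refine lt_of_le_of_lt (le_of_eq ?_) h7
  refine lintegral_congr fun x => ?_
  rw [ENNReal.toReal_ofReal (by norm_num), enorm_pow, ← ENNReal.rpow_natCast, ← ENNReal.rpow_mul]
  norm_num

/-- **Steps (5), (7)**: the normalised inequality -/
theorem normalised (hS : SobVStmt) {Ω : Set E} {l1 l2 : ℝ} {e1 e2 : BB} {f1 f2 : E → ℝ}
    (hE : Eig Ω l1 l2 e1 e2 f1 f2) {δ : ℝ} (hδ : 0 < δ) (hδ2 : l1 + 2 * δ < l2) {u : BB}
    (hu : u ∈ V Ω) (h6 : p6 u = 1) (hm : 0 < mI u u) (hD : dI u u ≤ S0 + (l1 + δ) * mI u u)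
    (hg : gI δ e1 u = 0) :
    ∃ χ ∈ V Ω, ∃ c : ℝ, 0 < c ∧ c * √(mI u u) ≤ S0 * √(l2 / δ) ∧ mI χ χ = 1 ∧ mI e1 χ = 0 ∧
      (∀ ζ ∈ V univ, -2 * dI χ ζ + 2 * (c * p5 u ζ) - dI ζ ζ ≤ l1 + δ) ∧
      |c * p5 u e1| ≤ √(l2 * δ) := by
  have hS0 := hS.1
  have hl1 := hE.pos
  have hl2 : 0 < l2 := hE.pos.trans hE.gap
  have hu' := V_le_univ Ω hu
  have he1 := hE.mem1
  have he1' := V_le_univ Ω hE.mem1
  set m := mI u u with hmdef
  set s := √m with hs
  have hs0 : 0 < s := Real.sqrt_pos.2 hm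
  have hss : s * s = m := Real.mul_self_sqrt hm.le
  set τ := mI e1 u / s with hτ
  have hτs : mI e1 u = s * τ := by rw [hτ]; field_simp
  have hτs' : mI u e1 = s * τ := by rw [mI_comm, hτs]
  have hdue : dI u e1 = l1 * (s * τ) := by rw [dI_comm, hE.eq1 u hu, hτs]
  have hdee : dI e1 e1 = l1 := by rw [hE.eq1 e1 he1, hE.norm1, mul_one]
  have hSp : S0 * p5 u e1 = - δ * (s * τ) := by
    have h1 : gI δ e1 u = δ * mI u e1 + S0 * p5 u e1 := rfl
    rw [hg, hτs'] at h1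
    linarith
  -- first bound on τ
  have hτ1 : (l1 + 2 * δ) * τ ^ 2 ≤ l1 + δ := by
    have hk := key' hS hu' ((V univ).smul_mem (-(s * τ)) he1') h6
    rw [dI_smul_right, p5_smul_right, dI_smul_left, dI_smul_right, hdue, hdee] at hk
    have h2 : dI u u - S0 ≤ (l1 + δ) * (s * s) := by rw [hss]; linarith
    have h3 : -2 * (-(s * τ) * (l1 * (s * τ)) - S0 * (-(s * τ) * p5 u e1)) =
        2 * (s * τ) * (l1 * (s * τ)) - 2 * (s * τ) * (S0 * p5 u e1) := by ring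
    rw [h3, hSp] at hk
    have h4 : (s * s) * ((l1 + 2 * δ) * τ ^ 2) ≤ (s * s) * (l1 + δ) := by nlinarith
    exact le_of_mul_le_mul_left h4 (by positivity)
  have hτ2 : τ ^ 2 < 1 := by
    by_contra h
    push Not at h
    nlinarith
  set t := √(1 - τ ^ 2) with ht
  have ht0 : 0 < t := Real.sqrt_pos.2 (by linarith)
  have htt : t * t = 1 - τ ^ 2 := Real.mul_self_sqrt (by linarith)
  have ht2 : δ / l2 ≤ t * t := by
    rw [htt, div_le_iff₀ hl2]
    nlinarith [sq_nonneg τ]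
  set c := S0 / (s * t) with hc
  have hc0 : 0 < c := by positivity
  have hcs : c * (s * t) = S0 := by rw [hc]; field_simp
  set χ : BB := t⁻¹ • (s⁻¹ • u - τ • e1) with hχ
  have hχV : χ ∈ V Ω := (V Ω).smul_mem _ ((V Ω).sub_mem ((V Ω).smul_mem _ hu) ((V Ω).smul_mem _ he1))
  have hχζ : ∀ ζ : BB, dI χ ζ = t⁻¹ * (s⁻¹ * dI u ζ - τ * dI e1 ζ) := by
    intro ζ
    rw [hχ, dI_smul_left, dI_sub_left, dI_smul_left, dI_smul_left]
  have hχζ' : ∀ ζ : BB, dI u ζ = s * (t * dI χ ζ + τ * dI e1 ζ) := by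
    intro ζ
    rw [hχζ]; field_simp; ring
  have hst : √(δ / l2) ≤ t := by
    rw [← Real.sqrt_mul_self ht0.le]
    exact Real.sqrt_le_sqrt ht2
  have hinv : t⁻¹ ≤ √(l2 / δ) := by
    rw [inv_le_comm₀ ht0 (Real.sqrt_pos.2 (by positivity)), ← Real.sqrt_inv, inv_div]
    exact hst
  refine ⟨χ, hχV, c, hc0, ?_, ?_, ?_, ?_, ?_⟩
  · have : c * s = S0 * t⁻¹ := by rw [hc]; field_simp
    rw [this]
    exact mul_le_mul_of_nonneg_left hinv hS0.le
  · rw [hχ, mI_smul_left, mI_smul_right, mI_sub_left, mI_sub_right, mI_sub_right, mI_smul_left,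
      mI_smul_right, mI_smul_left, mI_smul_right, mI_smul_left, mI_smul_right, mI_smul_left,
      mI_smul_right, hE.norm1, hτs, hτs', ← hmdef, ← hss]
    have h1 : s⁻¹ * (s⁻¹ * (s * s)) = 1 := by field_simp
    have h2 : s⁻¹ * (τ * (s * τ)) = τ ^ 2 := by field_simp
    have h3 : τ * (s⁻¹ * (s * τ)) = τ ^ 2 := by field_simp
    rw [h1, h2, h3]
    have h4 : 1 - τ ^ 2 - (τ ^ 2 - τ * (τ * 1)) = t * t := by rw [htt]; ring
    rw [h4]
    field_simp
  · rw [hχ, mI_smul_right, mI_sub_right, mI_smul_right, mI_smul_right, hE.norm1, hτs]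
    have h2 : s⁻¹ * (s * τ) - τ * 1 = 0 := by field_simp; ring
    rw [h2, mul_zero]
  · intro ζ hζ
    have hζ2 : (s • (t • ζ - τ • e1) : BB) ∈ V univ :=
      (V univ).smul_mem _ ((V univ).sub_mem ((V univ).smul_mem _ hζ) ((V univ).smul_mem _ he1'))
    have hk := key' hS hu' hζ2 h6
    have q1 : dI u (s • (t • ζ - τ • e1)) = (s * s) * (t * t * dI χ ζ + t * τ * dI e1 ζ - l1 * τ ^ 2) := by
      rw [dI_smul_right, dI_sub_right, dI_smul_right, dI_smul_right, hdue, hχζ' ζ]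
      ring
    have q2 : S0 * p5 u (s • (t • ζ - τ • e1)) = (s * s) * (t * t * (c * p5 u ζ) + δ * τ ^ 2) := by
      rw [p5_smul_right, p5_sub_right hS hu' ((V univ).smul_mem _ hζ) ((V univ).smul_mem _ he1'),
        p5_smul_right, p5_smul_right]
      have : S0 * (s * (t * p5 u ζ - τ * p5 u e1)) = s * t * (S0 * p5 u ζ) - s * τ * (S0 * p5 u e1) := by
        ring
      rw [this, hSp]
      nth_rewrite 1 [← hcs]
      ring
    have q3 : dI (s • (t • ζ - τ • e1)) (s • (t • ζ - τ • e1)) =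
        (s * s) * (t * t * dI ζ ζ - 2 * (t * τ) * dI e1 ζ + τ ^ 2 * l1) := by
      rw [dI_smul_left, dI_smul_right, dI_sub_left, dI_sub_right, dI_sub_right, dI_smul_left,
        dI_smul_right, dI_smul_left, dI_smul_right, dI_smul_left, dI_smul_right, dI_smul_left,
        dI_smul_right, hdee, dI_comm ζ e1]
      ring
    rw [q1, q2, q3] at hk
    have h2 : dI u u - S0 ≤ (l1 + δ) * (s * s) := by rw [hss]; linarith
    have h3 : (s * s) * ((t * t) * (-2 * dI χ ζ + 2 * (c * p5 u ζ) - dI ζ ζ)) ≤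
        (s * s) * ((t * t) * (l1 + δ)) := by
      have e : (s * s) * ((t * t) * (l1 + δ)) = (s * s) * (l1 + δ) - (s * s) * ((l1 + δ) * τ ^ 2) := by
        rw [htt]; ring
      rw [e]
      have : 0 ≤ (s * s) * (δ * τ ^ 2) := by positivity
      nlinarith
    have h4 := le_of_mul_le_mul_left h3 (by positivity : 0 < s * s)
    exact le_of_mul_le_mul_left h4 (by positivity : 0 < t * t)
  · have e : c * p5 u e1 = - (δ * τ * t⁻¹) := by
      have : c * p5 u e1 = (S0 * p5 u e1) / (s * t) := by rw [hc]; ring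
      rw [this, hSp]
      field_simp
    rw [e, abs_neg, abs_mul, abs_mul, abs_of_pos hδ, abs_of_pos (inv_pos.2 ht0)]
    have h1 : |τ| ≤ 1 := by
      rw [← sq_abs] at hτ2
      have := abs_nonneg τ
      nlinarith
    have h2 : √(l2 * δ) = δ * √(l2 / δ) := by
      have : l2 * δ = δ ^ 2 * (l2 / δ) := by field_simp
      rw [this, Real.sqrt_mul (by positivity), Real.sqrt_sq hδ.le]
    rw [h2]
    calc δ * |τ| * t⁻¹ ≤ δ * 1 * √(l2 / δ) := by
          have := abs_nonneg τ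
          have := inv_pos.2 ht0
          gcongr
      _ = δ * √(l2 / δ) := by ring

/-- **Step (7)**: lower bound for the `L¹` norm of `ρ̂ = c u⁵` -/
theorem lower (hS : SobVStmt) (hL : L1L2Stmt) {Ω : Set E} (hΩo : IsOpen Ω)
    (hΩ : Bornology.IsBounded Ω) {l1 l2 : ℝ} {e1 e2 : BB} {f1 f2 : E → ℝ}
    (hE : Eig Ω l1 l2 e1 e2 f1 f2) :
    ∃ κ : ℝ, 0 < κ ∧ ∀ δ : ℝ, 0 < δ → l1 + 2 * δ < l2 → ∀ u ∈ V Ω, ∀ χ ∈ V Ω, ∀ c : ℝ, 0 < c →
      mI χ χ = 1 → mI e1 χ = 0 →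
      (∀ ζ ∈ V univ, -2 * dI χ ζ + 2 * (c * p5 u ζ) - dI ζ ζ ≤ l1 + δ) →
      κ ≤ c * ∫ x, |fn u x| ^ 5 := by
  obtain ⟨C, hC, hCL⟩ := hL Ω hΩ
  have hl1 := hE.pos
  have hl2 : 0 < l2 := hE.pos.trans hE.gap
  refine ⟨(l2 - l1) / (4 * l2 * √C), div_pos (sub_pos.2 hE.gap) (by positivity), ?_⟩
  intro δ hδ hδ2 u hu χ hχ c hc hχ1 hχ2 hineq
  have hu' := V_le_univ Ω hu
  have hS0 := hS.1
  -- z
  obtain ⟨z, hz, hzeq⟩ := exists_riesz hl1 hE.ray1 (fun η => c * p5 u η)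
    (fun a ha b hb => by
      simp only [p5_add_right hS hu' (V_le_univ Ω ha) (V_le_univ Ω hb)]; ring)
    (fun k a ha => by simp only [p5_smul_right]; ring)
    (c * (nn u ^ 5 * (√S0)⁻¹)) (fun a ha => by
      have h1 := abs_p5_le hS hu' (V_le_univ Ω ha)
      have h2 := nn_le_norm hS (V_le_univ Ω ha)
      have h3 := nn_nonneg u
      rw [abs_mul, abs_of_pos hc]
      calc c * |p5 u a| ≤ c * (nn u ^ 5 * ((√S0)⁻¹ * ‖a‖)) := by
            refine mul_le_mul_of_nonneg_left (h1.trans ?_) hc.le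
            gcongr
        _ = _ := by ring)
  have hZ : mI z z ≤ C * (∫ x, |c * fn u x ^ 5|) ^ 2 := by
    refine hCL z hz (fun x => c * fn u x ^ 5) (memLp_u5 hS hu' c)
      ((integrable_u5 hS hΩo hΩ hu).const_mul c) fun η hη => ?_
    rw [hzeq η hη]
    unfold p5
    rw [← integral_const_mul]
    refine integral_congr_ae (Eventually.of_forall fun x => ?_)
    simp only
    ring
  have hI : (∫ x, |c * fn u x ^ 5|) = c * ∫ x, |fn u x| ^ 5 := by
    rw [← integral_const_mul]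
    refine integral_congr_ae (Eventually.of_forall fun x => ?_)
    simp only [abs_mul, abs_pow, abs_of_pos hc]
  rw [hI] at hZ
  set R := c * ∫ x, |fn u x| ^ 5 with hR
  have hR0 : 0 ≤ R := mul_nonneg hc.le (integral_nonneg fun x => by positivity)
  -- w
  obtain ⟨w, hw⟩ : ∃ w : BB, w = χ - z := ⟨_, rfl⟩
  have hwV : w ∈ V Ω := by rw [hw]; exact (V Ω).sub_mem hχ hz
  have h1 : dI w w ≤ l1 + δ := by
    have h := hineq (-w) ((V univ).neg_mem (V_le_univ Ω hwV))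
    rw [dI_neg_right, p5_neg_right, dI_neg_left, dI_neg_right] at h
    have h2 : c * p5 u w = dI z w := (hzeq w hwV).symm
    have h3 : dI w w = dI χ w - dI z w := by rw [hw, dI_sub_left]
    have h4 : c * -p5 u w = - (c * p5 u w) := by ring
    rw [h4, h2] at h
    linarith
  obtain ⟨a, ha⟩ : ∃ a : ℝ, a = mI e1 w := ⟨_, rfl⟩
  have ha' : a = - mI e1 z := by rw [ha, hw, mI_sub_right, hχ2]; ring
  have hw'V : w - a • e1 ∈ V Ω := (V Ω).sub_mem hwV ((V Ω).smul_mem _ hE.mem1)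
  have horth : mI e1 (w - a • e1) = 0 := by
    rw [mI_sub_right, mI_smul_right, hE.norm1, ← ha]; ring
  have hr := hE.ray2 _ hw'V horth
  have e1' : mI (w - a • e1) (w - a • e1) = mI w w - a ^ 2 := by
    rw [mI_sub_left, mI_sub_right, mI_sub_right, mI_smul_left, mI_smul_right, mI_smul_left,
      mI_smul_right, hE.norm1, mI_comm w e1, ← ha]
    ring
  have hdw : dI e1 w = l1 * a := by rw [ha]; exact hE.eq1 w hwV
  have hdee : dI e1 e1 = l1 := by rw [hE.eq1 e1 hE.mem1, hE.norm1, mul_one]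
  have e2' : dI (w - a • e1) (w - a • e1) = dI w w - l1 * a ^ 2 := by
    rw [dI_sub_left, dI_sub_right, dI_sub_right, dI_smul_left, dI_smul_right, dI_smul_left,
      dI_smul_right, hdee, dI_comm w e1, hdw]
    ring
  rw [e1', e2'] at hr
  have hZ0 := mI_nonneg z
  have ha2 : a ^ 2 ≤ mI z z := by
    rw [ha', neg_sq]
    have := mI_sq_le e1 z
    rw [hE.norm1, one_mul] at this
    exact this
  have hcz : mI χ z ≤ √(mI z z) := by
    have h := abs_mI_le χ z
    rw [hχ1, Real.sqrt_one, one_mul] at h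
    exact (le_abs_self _).trans h
  have hww : mI w w = 1 - 2 * mI χ z + mI z z := by
    rw [hw, mI_sub_left, mI_sub_right, mI_sub_right, hχ1, mI_comm z χ]; ring
  have hsq : √(mI z z) ≤ √C * R := by
    rw [← Real.sqrt_sq hR0, ← Real.sqrt_mul hC.le]
    exact Real.sqrt_le_sqrt hZ
  have h5 : l2 * (1 - 2 * √(mI z z)) ≤ l1 + δ := by
    have h6 : 1 - 2 * √(mI z z) ≤ mI w w - a ^ 2 := by rw [hww]; linarith
    have h7 := mul_le_mul_of_nonneg_left h6 hl2.le
    have h8 : 0 ≤ l1 * a ^ 2 := by positivity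
    linarith
  have hsC : 0 < √C := Real.sqrt_pos.2 hC
  rw [div_le_iff₀ (by positivity)]
  have h9 := mul_le_mul_of_nonneg_left hsq (by positivity : 0 ≤ 2 * l2)
  have h10 : (l2 - l1) / 2 ≤ 2 * l2 * (√C * R) := by nlinarith
  nlinarith

end Pool.Agent.H92.BN.MF
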