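import Pool.Agent.H92.BN.Api
import Pool.Agent.H92.BN.MC3
import Pool.Agent.H92.BN.MF_Iface

/-!
# Module F4: exterior test functions (by helper14)
-/

set_option autoImplicit false

namespace Pool.Agent.H92.BN.MF4

open MeasureTheory Set Filter Topology
open scoped ContDiff InnerProductSpace
open Pool.Agent.H92.BN.MF

/-- `H(z) = 1/|z|` for `|z| ≥ 1/2`, smoothly cut off at the origin -/
noncomputable def HH (z : E) : ℝ :=
  Real.smoothTransition (8 * ‖z‖ ^ 2 - 1) * (‖z‖ ^ 2) ^ (-(1 / 2) : ℝ)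

theorem HH_zero {z : E} (hz : 8 * ‖z‖ ^ 2 - 1 ≤ 0) : HH z = 0 := by
  unfold HH
  rw [Real.smoothTransition.zero_of_nonpos hz, zero_mul]

theorem HH_far {z : E} (hz : 1 / 2 ≤ ‖z‖) : HH z = (‖z‖ ^ 2) ^ (-(1 / 2) : ℝ) := by
  unfold HH
  rw [Real.smoothTransition.one_of_one_le (by nlinarith), one_mul]

theorem rpow_half {t : ℝ} (ht : 0 ≤ t) : (t ^ 2) ^ (-(1 / 2) : ℝ) = t⁻¹ := by
  rw [Real.rpow_neg (by positivity), ← Real.sqrt_eq_rpow, Real.sqrt_sq ht]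

theorem contDiff_HH : ContDiff ℝ ∞ HH := by
  rw [contDiff_iff_contDiffAt]
  intro z
  by_cases hz : z = 0
  · have h1 : HH =ᶠ[𝓝 z] fun _ => 0 := by
      have hc : Continuous (fun z : E => 8 * ‖z‖ ^ 2 - 1) := by fun_prop
      have : {w : E | 8 * ‖w‖ ^ 2 - 1 < 0} ∈ 𝓝 z :=
        (isOpen_lt hc continuous_const).mem_nhds (by
          show 8 * ‖z‖ ^ 2 - 1 < 0
          rw [hz]; simp)
      filter_upwards [this] with w hw
      exact HH_zero (le_of_lt hw)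
    exact contDiffAt_const.congr_of_eventuallyEq h1
  · unfold HH
    have h2 : ContDiff ℝ ∞ (fun z : E => ‖z‖ ^ 2) := contDiff_norm_sq ℝ
    have h3 : ContDiff ℝ ∞ (fun z : E => Real.smoothTransition (8 * ‖z‖ ^ 2 - 1)) :=
      Real.smoothTransition.contDiff.comp ((contDiff_const.mul h2).sub contDiff_const)
    refine h3.contDiffAt.mul (h2.contDiffAt.rpow_const_of_ne ?_)
    have := norm_pos_iff.2 hz
    exact (by positivity : (0 : ℝ) < ‖z‖ ^ 2).ne'

theorem HH_nonneg (z : E) : 0 ≤ HH z :=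
  mul_nonneg (Real.smoothTransition.nonneg _) (Real.rpow_nonneg (sq_nonneg ‖z‖) _)

theorem HH_sq_le (z : E) : HH z ^ 2 ≤ 9 / (1 + ‖z‖ ^ 2) := by
  rcases le_or_gt (8 * ‖z‖ ^ 2 - 1) 0 with h | h
  · rw [HH_zero h, zero_pow two_ne_zero]; positivity
  · have hz : 0 < ‖z‖ := by
      by_contra hz
      have : ‖z‖ = 0 := le_antisymm (not_lt.1 hz) (norm_nonneg _)
      rw [this] at h
      norm_num at h
    have h1 : HH z ≤ ‖z‖⁻¹ := by
      unfold HH
      rw [rpow_half (norm_nonneg z)]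
      calc Real.smoothTransition (8 * ‖z‖ ^ 2 - 1) * ‖z‖⁻¹ ≤ 1 * ‖z‖⁻¹ :=
            mul_le_mul_of_nonneg_right (Real.smoothTransition.le_one _) (by positivity)
        _ = ‖z‖⁻¹ := one_mul _
    have h2 : HH z ^ 2 ≤ (‖z‖⁻¹) ^ 2 := pow_le_pow_left₀ (HH_nonneg z) h1 2
    refine h2.trans ?_
    rw [inv_pow, inv_eq_one_div, div_le_div_iff₀ (by positivity) (by positivity)]
    linarith

/-- the function `c |y-p|⁻¹` -/
noncomputable def ff (c : ℝ) (p : E) (y : E) : ℝ := c * (‖y - p‖ ^ 2) ^ (-(1 / 2) : ℝ)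

theorem normsq_pos {p y : E} (hy : y ≠ p) : 0 < ‖y - p‖ ^ 2 := by
  have := norm_pos_iff.2 (sub_ne_zero.2 hy)
  positivity

theorem hasFDerivAt_N (p y : E) : HasFDerivAt (fun y : E => ‖y - p‖ ^ 2)
    (2 • (innerSL ℝ (y - p)).comp (ContinuousLinearMap.id ℝ E)) y :=
  ((hasFDerivAt_id y).sub_const p).norm_sq

theorem hasFDerivAt_rpow (p : E) (s : ℝ) {y : E} (hy : y ≠ p) :
    HasFDerivAt (fun y : E => (‖y - p‖ ^ 2) ^ s)
      ((s * (‖y - p‖ ^ 2) ^ (s - 1)) • (2 • (innerSL ℝ (y - p)).comp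
        (ContinuousLinearMap.id ℝ E))) y :=
  (hasFDerivAt_N p y).rpow_const (Or.inl (normsq_pos hy).ne')

theorem inner_ee (a : E) (i : Fin 3) : ⟪a, ee i⟫_ℝ = a i := by
  simp [ee, EuclideanSpace.inner_single_right]

theorem fderiv_ff (c : ℝ) (p : E) {y : E} (hy : y ≠ p) (v : E) :
    fderiv ℝ (ff c p) y v = -c * (‖y - p‖ ^ 2) ^ (-(3 / 2) : ℝ) * ⟪y - p, v⟫_ℝ := by
  have h := (hasFDerivAt_rpow p (-(1 / 2)) hy).const_mul c
  have h2 : HasFDerivAt (ff c p) (c • ((-(1 / 2) * (‖y - p‖ ^ 2) ^ ((-(1 / 2) : ℝ) - 1)) •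
    (2 • (innerSL ℝ (y - p)).comp (ContinuousLinearMap.id ℝ E)))) y := h
  rw [h2.fderiv, show (-(1 / 2) : ℝ) - 1 = -(3 / 2) by norm_num]
  simp only [smul_apply, ContinuousLinearMap.comp_apply, ContinuousLinearMap.id_apply,
    innerSL_apply_apply, smul_eq_mul, nsmul_eq_mul]
  push_cast
  ring

theorem norm_gradient_ff (c : ℝ) (hc : 0 ≤ c) (p : E) {y : E} (hy : y ≠ p) :
    ‖gradient (ff c p) y‖ = c / ‖y - p‖ ^ 2 := by
  have hn := norm_pos_iff.2 (sub_ne_zero.2 hy)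
  have h1 : gradient (ff c p) y = (-c * (‖y - p‖ ^ 2) ^ (-(3 / 2) : ℝ)) • (y - p) := by
    refine ext_inner_right ℝ (fun v => ?_)
    rw [inner_gradient_left, fderiv_ff c p hy, real_inner_smul_left]
  rw [h1, norm_smul, Real.norm_eq_abs, abs_mul, abs_neg, abs_of_nonneg hc,
    abs_of_nonneg (Real.rpow_nonneg (by positivity) _)]
  have h2 : (‖y - p‖ ^ 2) ^ (-(3 / 2) : ℝ) = (‖y - p‖ ^ 3)⁻¹ := by
    rw [Real.rpow_neg (by positivity), ← Real.rpow_natCast ‖y - p‖ 2, ← Real.rpow_mul hn.le,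
      ← Real.rpow_natCast ‖y - p‖ 3]
    norm_num
  rw [h2]
  field_simp

theorem lap_ff (c : ℝ) (p : E) {y : E} (hy : y ≠ p) : lap (ff c p) y = 0 := by
  have hopen : {z : E | z ≠ p} ∈ 𝓝 y := isOpen_ne.mem_nhds hy
  have key : ∀ i : Fin 3, fderiv ℝ (fun z => fderiv ℝ (ff c p) z (ee i)) y (ee i) =
      -c * (‖y - p‖ ^ 2) ^ (-(3 / 2) : ℝ) +
        3 * c * (‖y - p‖ ^ 2) ^ (-(5 / 2) : ℝ) * ((y - p) i) ^ 2 := by
    intro i
    have e1 : (fun z => fderiv ℝ (ff c p) z (ee i)) =ᶠ[𝓝 y]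
        fun z => -c * ((‖z - p‖ ^ 2) ^ (-(3 / 2) : ℝ) * ⟪z - p, ee i⟫_ℝ) := by
      filter_upwards [hopen] with z hz
      rw [fderiv_ff c p hz, mul_assoc]
    rw [e1.fderiv_eq]
    have h2 : HasFDerivAt (fun z : E => ⟪z - p, ee i⟫_ℝ) (innerSL ℝ (ee i)) y := by
      have h3 := ((innerSL ℝ (ee i)).hasFDerivAt (x := y)).sub_const ⟪p, ee i⟫_ℝ
      refine h3.congr_of_eventuallyEq (Eventually.of_forall fun z => ?_)
      show ⟪z - p, ee i⟫_ℝ = ⟪ee i, z⟫_ℝ - ⟪p, ee i⟫_ℝ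
      rw [inner_sub_left, real_inner_comm]
    have h4 : HasFDerivAt (fun z : E => -c * ((‖z - p‖ ^ 2) ^ (-(3 / 2) : ℝ) * ⟪z - p, ee i⟫_ℝ)) _
      y := ((hasFDerivAt_rpow p (-(3 / 2)) hy).mul h2).const_mul (-c)
    rw [h4.fderiv, show (-(3 / 2) : ℝ) - 1 = -(5 / 2) by norm_num]
    have h5 : ⟪ee i, ee i⟫_ℝ = 1 := by
      rw [inner_ee]; simp [ee]
    simp only [smul_apply, add_apply, ContinuousLinearMap.comp_apply, ContinuousLinearMap.id_apply,
      innerSL_apply_apply, inner_ee, smul_eq_mul, nsmul_eq_mul, h5]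
    push_cast
    ring
  unfold lap
  have h0 : ∑ i : Fin 3, fderiv ℝ (fun z => fderiv ℝ (ff c p) z (ee i)) y (ee i) = 0 := by
    rw [Finset.sum_congr rfl (fun i _ => key i), Finset.sum_add_distrib, Finset.sum_const,
      ← Finset.mul_sum]
    have h7 : ∑ i : Fin 3, ((y - p) i) ^ 2 = ‖y - p‖ ^ 2 := by
      rw [EuclideanSpace.norm_sq_eq]
      simp
    have h8 : (‖y - p‖ ^ 2) ^ (-(5 / 2) : ℝ) * ‖y - p‖ ^ 2 = (‖y - p‖ ^ 2) ^ (-(3 / 2) : ℝ) := by
      have hN := normsq_pos hy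
      nth_rewrite 2 [← Real.rpow_one (‖y - p‖ ^ 2)]
      rw [← Real.rpow_add hN]
      norm_num
    rw [h7, Finset.card_univ, Fintype.card_fin, nsmul_eq_mul, mul_assoc (3 * c), h8]
    push_cast
    ring
  exact h0

theorem HH_eq_ff {z : E} (hz : 1 / 2 ≤ ‖z‖) : HH z = ff 1 0 z := by
  rw [HH_far hz, ff, sub_zero, one_mul]

theorem gradient_congr {f g : E → ℝ} {x : E} (h : f =ᶠ[𝓝 x] g) : gradient f x = gradient g x := by
  unfold gradient
  rw [h.fderiv_eq]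

theorem gradient_HH_le : ∃ C : ℝ, 0 ≤ C ∧ ∀ z, ‖gradient HH z‖ ≤ C / (1 + ‖z‖ ^ 2) := by
  have hc : Continuous (gradient HH) := by
    have h1 : Continuous (fderiv ℝ HH) := contDiff_HH.continuous_fderiv (by simp)
    exact (LinearIsometryEquiv.continuous _).comp h1
  obtain ⟨C, hC⟩ := (isCompact_closedBall (0 : E) 1).exists_bound_of_continuousOn hc.continuousOn
  refine ⟨max (2 * C) 2, le_trans (by norm_num) (le_max_right _ _), fun z => ?_⟩
  rcases le_or_gt ‖z‖ 1 with h | h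
  · have h1 := hC z (mem_closedBall_zero_iff.2 h)
    have hC0 : 0 ≤ C := (norm_nonneg _).trans h1
    rw [le_div_iff₀ (by positivity)]
    calc ‖gradient HH z‖ * (1 + ‖z‖ ^ 2) ≤ C * 2 := by
          refine mul_le_mul h1 ?_ (by positivity) hC0
          nlinarith [norm_nonneg z]
      _ ≤ max (2 * C) 2 := by rw [mul_comm]; exact le_max_left _ _
  · have h1 : HH =ᶠ[𝓝 z] ff 1 0 := by
      have : {w : E | 1 / 2 < ‖w‖} ∈ 𝓝 z :=
        (isOpen_lt continuous_const continuous_norm).mem_nhds (by show 1 / 2 < ‖z‖; linarith)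
      filter_upwards [this] with w hw
      exact HH_eq_ff (le_of_lt hw)
    have hz : z ≠ 0 := by
      intro h0; rw [h0, norm_zero] at h; linarith
    rw [gradient_congr h1, norm_gradient_ff 1 zero_le_one 0 hz, sub_zero]
    rw [div_le_div_iff₀ (by nlinarith) (by positivity)]
    have h2 : (2 : ℝ) * ‖z‖ ^ 2 ≤ max (2 * C) 2 * ‖z‖ ^ 2 :=
      mul_le_mul_of_nonneg_right (le_max_right _ _) (by positivity)
    nlinarith

/-- `∫ ∇φ·∇Z = - ∫ φ ΔZ` -/
theorem parts {Z : E → ℝ} (hZ : ContDiff ℝ ∞ Z) {Ω : Set E} {φ : E → ℝ} (hφ : IsTest Ω φ) :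
    (∫ x, ⟪gradient φ x, gradient Z x⟫_ℝ) = - ∫ x, φ x * lap Z x := by
  have hdir : ∀ i : Fin 3, ContDiff ℝ ∞ (fun x => fderiv ℝ Z x (ee i)) := fun i => by
    have h1 : ContDiff ℝ ∞ (fderiv ℝ Z) := hZ.fderiv_right (m := ∞) (by simp)
    exact h1.clm_apply contDiff_const
  have hdir2 : ∀ i : Fin 3, Continuous
      (fun x => fderiv ℝ (fun y => fderiv ℝ Z y (ee i)) x (ee i)) := fun i =>
    ((hdir i).continuous_fderiv (by simp)).clm_apply continuous_const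
  have hφc : ∀ i : Fin 3, Continuous (fun x => fderiv ℝ φ x (ee i)) := fun i =>
    (hφ.smooth.continuous_fderiv (by simp)).clm_apply continuous_const
  have hφcs : ∀ i : Fin 3, HasCompactSupport (fun x => fderiv ℝ φ x (ee i)) := fun i =>
    (hφ.cpt.fderiv (𝕜 := ℝ)).comp_left (g := fun l : E →L[ℝ] ℝ => l (ee i)) (by simp)
  have e1 : ∀ x, ⟪gradient φ x, gradient Z x⟫_ℝ =
      ∑ i : Fin 3, fderiv ℝ Z x (ee i) * fderiv ℝ φ x (ee i) := by
    intro x
    rw [PiLp.inner_apply]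
    refine Finset.sum_congr rfl fun i _ => ?_
    rw [← inner_gradient_left, ← inner_gradient_left, inner_ee, inner_ee]
    simp
  have i1 : ∀ i : Fin 3, Integrable (fun x => fderiv ℝ Z x (ee i) * fderiv ℝ φ x (ee i)) :=
    fun i => ((hdir i).continuous.mul (hφc i)).integrable_of_hasCompactSupport
      ((hφcs i).mul_left (f := fun x => fderiv ℝ Z x (ee i)))
  have i2 : ∀ i : Fin 3, Integrable
      (fun x => fderiv ℝ (fun y => fderiv ℝ Z y (ee i)) x (ee i) * φ x) :=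
    fun i => ((hdir2 i).mul hφ.smooth.continuous).integrable_of_hasCompactSupport
      (hφ.cpt.mul_left (f := fun x => fderiv ℝ (fun y => fderiv ℝ Z y (ee i)) x (ee i)))
  simp only [e1]
  rw [integral_finsetSum _ (fun i _ => i1 i)]
  have e2 : ∀ i : Fin 3, (∫ x, fderiv ℝ Z x (ee i) * fderiv ℝ φ x (ee i)) =
      - ∫ x, fderiv ℝ (fun y => fderiv ℝ Z y (ee i)) x (ee i) * φ x := by
    intro i
    refine integral_mul_fderiv_eq_neg_fderiv_mul_of_integrable (i2 i) (i1 i) ?_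
      (fun x _ => (hdir i).differentiable (by simp) x)
      (fun x _ => hφ.smooth.differentiable (by simp) x)
    exact ((hdir i).continuous.mul hφ.smooth.continuous).integrable_of_hasCompactSupport
      (hφ.cpt.mul_left (f := fun x => fderiv ℝ Z x (ee i)))
  rw [Finset.sum_congr rfl (fun i _ => e2 i), Finset.sum_neg_distrib,
    ← integral_finsetSum _ (fun i _ => i2 i)]
  congr 2
  ext x
  unfold lap
  rw [← Finset.sum_mul, mul_comm]
  rfl

theorem lap_congr {f g : E → ℝ} {x : E} (h : f =ᶠ[𝓝 x] g) : lap f x = lap g x := by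
  unfold lap
  refine Finset.sum_congr rfl fun i _ => ?_
  have h1 : (fun y => fderiv ℝ f y (EuclideanSpace.single i 1)) =ᶠ[𝓝 x]
      fun y => fderiv ℝ g y (EuclideanSpace.single i 1) := by
    filter_upwards [h.fderiv (𝕜 := ℝ)] with y hy
    rw [hy]
  rw [h1.fderiv_eq]

/-- the geometry: the balls outside the domain -/
theorem geom {ρ : E → ℝ} (hρ : ContDiff ℝ ∞ ρ) {x : E} (hx : ρ x = 0) (hd : fderiv ℝ ρ x ≠ 0) :
    ∃ n : E, ‖n‖ = 1 ∧ ∃ ε1 : ℝ, 0 < ε1 ∧ ∀ ε : ℝ, 0 < ε → ε < ε1 →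
      ∀ y : E, ‖y - (x + ε • n)‖ ≤ ε / 2 → 0 < ρ y := by
  set g := gradient ρ x with hg
  have hg0 : g ≠ 0 := by
    intro h
    apply hd
    have : fderiv ℝ ρ x = InnerProductSpace.toDual ℝ E g := by
      rw [hg, gradient, LinearIsometryEquiv.apply_symm_apply]
    rw [this, h, map_zero]
  have hgn : 0 < ‖g‖ := norm_pos_iff.2 hg0
  have hdiff : HasFDerivAt ρ (fderiv ℝ ρ x) x := (hρ.differentiable (by simp) x).hasFDerivAt
  have h1 := hdiff.isLittleO.def (c := ‖g‖ / 4) (by positivity)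
  rw [Metric.eventually_nhds_iff] at h1
  obtain ⟨δ, hδ, hδ2⟩ := h1
  refine ⟨‖g‖⁻¹ • g, ?_, δ / 2, by positivity, fun ε hε hε1 y hy => ?_⟩
  · rw [norm_smul, norm_inv, norm_norm, inv_mul_cancel₀ hgn.ne']
  · set v := y - (x + ε • (‖g‖⁻¹ • g)) with hv
    have hyx : y - x = ε • (‖g‖⁻¹ • g) + v := by rw [hv]; abel
    have hn1 : ‖ε • (‖g‖⁻¹ • g)‖ = ε := by
      rw [norm_smul, norm_smul, norm_inv, norm_norm, inv_mul_cancel₀ hgn.ne', mul_one,
        Real.norm_eq_abs, abs_of_pos hε]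
    have hyn : ‖y - x‖ ≤ 3 / 2 * ε := by
      rw [hyx]
      refine (norm_add_le _ _).trans ?_
      rw [hn1]; linarith
    have h2 := hδ2 (y := y) (by rw [dist_eq_norm]; linarith)
    rw [hx, sub_zero, Real.norm_eq_abs] at h2
    have h3 : fderiv ℝ ρ x (y - x) = ⟪g, y - x⟫_ℝ := by
      rw [hg, inner_gradient_left]
    have h4 : ε * ‖g‖ / 2 ≤ ⟪g, y - x⟫_ℝ := by
      rw [hyx, inner_add_right, real_inner_smul_right, real_inner_smul_right,
        real_inner_self_eq_norm_sq]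
      have h5 : |⟪g, v⟫_ℝ| ≤ ‖g‖ * (ε / 2) :=
        (abs_real_inner_le_norm _ _).trans (mul_le_mul_of_nonneg_left hy hgn.le)
      have h6 := (abs_le.1 h5).1
      have h7 : ε * (‖g‖⁻¹ * ‖g‖ ^ 2) = ε * ‖g‖ := by field_simp
      rw [h7]; linarith
    rw [h3] at h2
    have h5 := (abs_le.1 h2).1
    have h6 : ‖g‖ / 4 * ‖y - x‖ ≤ ‖g‖ / 4 * (3 / 2 * ε) :=
      mul_le_mul_of_nonneg_left hyn (by positivity)
    have h7 : 0 < ε * ‖g‖ := by positivity
    linarith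

/-- the weight -/
noncomputable def WW (z : E) : ℝ := 1 / (1 + ‖z‖ ^ 2) ^ 2

theorem integrable_WW : Integrable WW := by
  have h := integrable_rpow_neg_one_add_norm_sq (E := E) (μ := volume) (r := 4)
    (by rw [finrank_euclideanSpace]; norm_num)
  refine h.congr (Eventually.of_forall fun z => ?_)
  have e : (-(4 : ℝ) / 2) = -((2 : ℕ) : ℝ) := by norm_num
  show (1 + ‖z‖ ^ 2) ^ (-(4 : ℝ) / 2) = WW z
  rw [e, Real.rpow_neg (by positivity), Real.rpow_natCast, WW, one_div]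

theorem integrable_WW_scaled (ε : ℝ) (hε : 0 < ε) (p : E) :
    Integrable (fun y => WW (ε⁻¹ • (y - p))) := by
  have h1 : Integrable (fun y => WW (ε⁻¹ • y)) := integrable_WW.comp_smul (inv_ne_zero hε.ne')
  exact h1.comp_sub_right p

theorem integral_WW_scaled (ε : ℝ) (hε : 0 < ε) (p : E) :
    (∫ y, WW (ε⁻¹ • (y - p))) = ε ^ 3 * ∫ z, WW z := by
  rw [integral_sub_right_eq_self (fun y => WW (ε⁻¹ • y)) p, Measure.integral_comp_inv_smul,
    finrank_euclideanSpace, Fintype.card_fin, abs_of_pos (by positivity), smul_eq_mul]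

theorem exists_kappa (R : ℝ) (hR : 0 < R) : ∃ κ : E → ℝ, ContDiff ℝ ∞ κ ∧ HasCompactSupport κ ∧
    (∀ y, 0 ≤ κ y) ∧ (∀ y, κ y ≤ 1) ∧ ∀ y ∈ Metric.ball (0 : E) R, κ y = 1 := by
  let f : ContDiffBump (0 : E) := ⟨R, R + 1, hR, by linarith⟩
  exact ⟨f, f.contDiff, f.hasCompactSupport, fun y => f.nonneg, fun y => f.le_one, fun y hy =>
    f.one_of_mem_closedBall (Metric.ball_subset_closedBall hy)⟩

theorem exterior : ExteriorStmt := by
  intro Ω hΩo hΩb hΩs x hx hxn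
  obtain ⟨ρ, hρ, hΩ, hd⟩ := hΩs
  have hρx : ρ x = 0 := by
    apply le_antisymm
    · have h1 : closure Ω ⊆ {y | ρ y ≤ 0} := by
        refine closure_minimal ?_ (isClosed_le hρ.continuous continuous_const)
        intro y hy
        rw [hΩ] at hy
        have hy' : ρ y < 0 := hy
        exact hy'.le
      exact h1 hx
    · rw [hΩ] at hxn
      exact not_lt.1 hxn
  obtain ⟨n, hn1, ε1, hε1, hgeom⟩ := geom hρ hρx (hd x hρx)
  obtain ⟨R, hR0, hR⟩ : ∃ R : ℝ, 0 < R ∧ Ω ⊆ Metric.ball (0 : E) R := by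
    obtain ⟨R, hR⟩ := hΩb.subset_ball (0 : E)
    exact ⟨max R 1, lt_of_lt_of_le one_pos (le_max_right _ _),
      hR.trans (Metric.ball_subset_ball (le_max_left _ _))⟩
  obtain ⟨κ, hκs, hκc, hκ0, hκ1, hκR⟩ := exists_kappa R hR0
  have hκt : IsTest univ κ := ⟨hκs, hκc, subset_univ _⟩
  obtain ⟨Cκ, hCκ⟩ : ∃ C, ∀ y, ‖gradient κ y‖ ≤ C := by
    obtain ⟨C, hC⟩ := (hasCompactSupport_gradient hκc).exists_bound_of_continuous
      hκt.continuous_gradient
    exact ⟨C, hC⟩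
  have hCκ0 : 0 ≤ Cκ := (norm_nonneg _).trans (hCκ 0)
  obtain ⟨CH, hCH0, hCH⟩ := gradient_HH_le
  obtain ⟨IW, hIW⟩ : ∃ c : ℝ, c = ∫ z, WW z := ⟨_, rfl⟩
  have hIW0 : 0 ≤ IW := by
    rw [hIW]; exact integral_nonneg fun z => by unfold WW; positivity
  obtain ⟨IK, hIK⟩ : ∃ c : ℝ, c = ∫ y, ‖gradient κ y‖ ^ 2 := ⟨_, rfl⟩
  have hIK0 : 0 ≤ IK := by
    rw [hIK]; exact integral_nonneg fun z => by positivity
  have hIKi : Integrable (fun y => ‖gradient κ y‖ ^ 2) :=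
    (hκt.memLp_gradient 2).norm.integrable_sq
  refine ⟨2 * CH ^ 2 * IW + IK + 81 * Cκ ^ 2 * IW + 1, by positivity, min ε1 1, lt_min hε1 one_pos,
    fun ε hε hε2 => ?_⟩
  have hεε1 : ε < ε1 := lt_of_lt_of_le hε2 (min_le_left _ _)
  have hε1' : ε < 1 := lt_of_lt_of_le hε2 (min_le_right _ _)
  set p := x + ε • n with hp
  have hfar : ∀ y ∈ Ω, ε / 2 < ‖y - p‖ := by
    intro y hy
    by_contra h
    rw [not_lt] at h
    have h1 := hgeom ε hε hεε1 y h
    rw [hΩ] at hy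
    exact lt_asymm h1 hy
  set Hε : E → ℝ := fun y => HH (ε⁻¹ • (y - p)) with hHε
  have haff : ∀ y : E, HasFDerivAt (fun y : E => ε⁻¹ • (y - p))
      (ε⁻¹ • ContinuousLinearMap.id ℝ E) y := fun y =>
    ((hasFDerivAt_id y).sub_const p).const_smul ε⁻¹
  have hHs : ContDiff ℝ ∞ Hε :=
    contDiff_HH.comp (ContDiff.const_smul ε⁻¹ (contDiff_id.sub contDiff_const))
  set Z : E → ℝ := fun y => κ y * Hε y with hZ
  have hZs : ContDiff ℝ ∞ Z := hκs.mul hHs
  have hZt : IsTest univ Z := ⟨hZs, hκc.mul_right, subset_univ _⟩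
  have hgH : ∀ y, ‖gradient Hε y‖ ≤ ε⁻¹ * (CH / (1 + ‖ε⁻¹ • (y - p)‖ ^ 2)) := by
    intro y
    have h0 : HasFDerivAt HH (fderiv ℝ HH (ε⁻¹ • (y - p))) (ε⁻¹ • (y - p)) :=
      ((contDiff_HH.differentiable (by simp)) _).hasFDerivAt
    have h1 : HasFDerivAt Hε ((fderiv ℝ HH (ε⁻¹ • (y - p))).comp
        (ε⁻¹ • ContinuousLinearMap.id ℝ E)) y :=
      HasFDerivAt.comp (g := HH) (f := fun y : E => ε⁻¹ • (y - p)) y h0 (haff y)
    have h2 : gradient Hε y = ε⁻¹ • gradient HH (ε⁻¹ • (y - p)) := by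
      refine ext_inner_right ℝ (fun v => ?_)
      rw [inner_gradient_left, real_inner_smul_left, inner_gradient_left, h1.fderiv]
      simp
    rw [h2, norm_smul, Real.norm_eq_abs, abs_of_pos (by positivity)]
    exact mul_le_mul_of_nonneg_left (hCH _) (by positivity)
  have hZΩ : ∀ y ∈ Ω, Z =ᶠ[𝓝 y] ff ε p := by
    intro y hy
    filter_upwards [hΩo.mem_nhds hy] with w hw
    have h1 : κ w = 1 := hκR w (hR hw)
    have h2 := hfar w hw
    have h3 : 1 / 2 ≤ ‖ε⁻¹ • (w - p)‖ := by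
      rw [norm_smul, norm_inv, Real.norm_eq_abs, abs_of_pos hε, inv_mul_eq_div, le_div_iff₀ hε]
      linarith
    simp only [hZ, hHε, h1, one_mul]
    have hwp : 0 < ‖w - p‖ := by linarith
    rw [HH_far h3, ff, norm_smul, norm_inv, Real.norm_eq_abs, abs_of_pos hε,
      rpow_half (by positivity), rpow_half (norm_nonneg _), mul_inv, inv_inv]
  have hZv : ∀ y ∈ Ω, Z y = ε / ‖y - p‖ := by
    intro y hy
    rw [(hZΩ y hy).eq_of_nhds, ff, rpow_half (norm_nonneg _), div_eq_mul_inv]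
  refine ⟨tb Z, tb_mem hZt, Z, (rep_tb hZt).1, ?_, ?_, ?_, ?_⟩
  · intro y hy
    have h2 := hfar y hy
    have hwp : 0 < ‖y - p‖ := by linarith
    rw [hZv y hy]
    refine ⟨by positivity, ?_⟩
    rw [div_le_iff₀ hwp]
    linarith
  · intro y hy hyb
    have h2 := hfar y hy
    have hwp : 0 < ‖y - p‖ := by linarith
    rw [hZv y hy, le_div_iff₀ hwp]
    have h3 : ‖y - p‖ ≤ ‖y - x‖ + ‖ε • n‖ := by
      have : y - p = (y - x) - ε • n := by rw [hp]; abel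
      rw [this]
      exact norm_sub_le _ _
    rw [norm_smul, hn1, mul_one, Real.norm_eq_abs, abs_of_pos hε] at h3
    rw [Metric.mem_ball, dist_eq_norm] at hyb
    linarith
  · have e1 : dI (tb Z) (tb Z) = ∫ y, ‖gradient Z y‖ ^ 2 := by
      unfold dI
      refine integral_congr_ae ?_
      filter_upwards [(rep_tb hZt).2] with y hy
      rw [hy, real_inner_self_eq_norm_sq]
    rw [e1]
    have hbound : ∀ y, ‖gradient Z y‖ ^ 2 ≤ (2 * CH ^ 2 * (ε⁻¹) ^ 2 + 81 * Cκ ^ 2 * ε⁻¹) *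
        WW (ε⁻¹ • (y - p)) + ε * ‖gradient κ y‖ ^ 2 := by
      intro y
      set w := ε⁻¹ • (y - p) with hw
      have g1 : gradient Z y = κ y • gradient Hε y + Hε y • gradient κ y :=
        C3.gradient_mul (hκs.differentiable (by simp) y) (hHs.differentiable (by simp) y)
      have k0 : 0 ≤ κ y := hκ0 y
      have k1 : κ y ≤ 1 := hκ1 y
      have n1 : ‖gradient Z y‖ ≤ ‖gradient Hε y‖ + Hε y * ‖gradient κ y‖ := by
        rw [g1]
        refine (norm_add_le _ _).trans ?_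
        rw [norm_smul, norm_smul, Real.norm_eq_abs, Real.norm_eq_abs, abs_of_nonneg k0,
          abs_of_nonneg (HH_nonneg _)]
        refine add_le_add ?_ le_rfl
        calc κ y * ‖gradient Hε y‖ ≤ 1 * ‖gradient Hε y‖ :=
              mul_le_mul_of_nonneg_right k1 (norm_nonneg _)
          _ = ‖gradient Hε y‖ := one_mul _
      set A := ‖gradient Hε y‖ with hA
      set G := ‖gradient κ y‖ with hG
      have hA0 : 0 ≤ A := norm_nonneg _
      have hG0 : 0 ≤ G := norm_nonneg _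
      have hH0 : 0 ≤ Hε y := HH_nonneg _
      have n2 : ‖gradient Z y‖ ^ 2 ≤ (A + Hε y * G) ^ 2 :=
        pow_le_pow_left₀ (norm_nonneg _) n1 2
      have n3 : (A + Hε y * G) ^ 2 ≤ 2 * A ^ 2 + 2 * (Hε y ^ 2 * G ^ 2) := by
        nlinarith [sq_nonneg (A - Hε y * G)]
      have hWpos : 0 < 1 + ‖w‖ ^ 2 := by positivity
      have n4 : A ^ 2 ≤ CH ^ 2 * (ε⁻¹) ^ 2 * WW w := by
        have h1 := pow_le_pow_left₀ hA0 (hgH y) 2
        refine h1.trans (le_of_eq ?_)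
        rw [WW, mul_pow, div_pow]
        ring
      have n5 : (Hε y ^ 2) ^ 2 ≤ 81 * WW w := by
        have h1 := pow_le_pow_left₀ (sq_nonneg (Hε y)) (HH_sq_le w) 2
        refine h1.trans (le_of_eq ?_)
        rw [WW, div_pow]
        ring
      have n6 : 2 * Hε y ^ 2 ≤ ε + ε⁻¹ * (Hε y ^ 2) ^ 2 := by
        have h1 : 0 ≤ ε⁻¹ * (ε - Hε y ^ 2) ^ 2 := by positivity
        have h2 : ε⁻¹ * (ε - Hε y ^ 2) ^ 2 = ε - 2 * Hε y ^ 2 + ε⁻¹ * (Hε y ^ 2) ^ 2 := by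
          field_simp
          ring
        linarith
      have n7 : 2 * (Hε y ^ 2 * G ^ 2) ≤ ε * G ^ 2 + 81 * Cκ ^ 2 * ε⁻¹ * WW w := by
        have hGC : G ^ 2 ≤ Cκ ^ 2 := pow_le_pow_left₀ hG0 (hCκ y) 2
        have hW0 : 0 ≤ WW w := by unfold WW; positivity
        calc 2 * (Hε y ^ 2 * G ^ 2) = (2 * Hε y ^ 2) * G ^ 2 := by ring
          _ ≤ (ε + ε⁻¹ * (Hε y ^ 2) ^ 2) * G ^ 2 := mul_le_mul_of_nonneg_right n6 (by positivity)
          _ = ε * G ^ 2 + ε⁻¹ * (Hε y ^ 2) ^ 2 * G ^ 2 := by ring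
          _ ≤ ε * G ^ 2 + ε⁻¹ * (81 * WW w) * Cκ ^ 2 := by gcongr
          _ = ε * G ^ 2 + 81 * Cκ ^ 2 * ε⁻¹ * WW w := by ring
      linarith
    have hi := ((integrable_WW_scaled ε hε p).const_mul
      (2 * CH ^ 2 * (ε⁻¹) ^ 2 + 81 * Cκ ^ 2 * ε⁻¹)).add (hIKi.const_mul ε)
    have h2 := integral_mono_of_nonneg (Eventually.of_forall fun y => by positivity) hi
      (Eventually.of_forall hbound)
    refine h2.trans ?_
    have e3 : (∫ y, ((2 * CH ^ 2 * (ε⁻¹) ^ 2 + 81 * Cκ ^ 2 * ε⁻¹) * WW (ε⁻¹ • (y - p)) +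
        ε * ‖gradient κ y‖ ^ 2)) =
        (2 * CH ^ 2 * (ε⁻¹) ^ 2 + 81 * Cκ ^ 2 * ε⁻¹) * (ε ^ 3 * IW) + ε * IK := by
      rw [integral_add ((integrable_WW_scaled ε hε p).const_mul _) (hIKi.const_mul ε),
        integral_const_mul, integral_const_mul, integral_WW_scaled ε hε p, ← hIW, ← hIK]
    have e4 : (2 * CH ^ 2 * (ε⁻¹) ^ 2 + 81 * Cκ ^ 2 * ε⁻¹) * (ε ^ 3 * IW) + ε * IK =
        (2 * CH ^ 2 * IW + 81 * Cκ ^ 2 * IW * ε + IK) * ε := by
      field_simp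
    show (∫ y, ((2 * CH ^ 2 * (ε⁻¹) ^ 2 + 81 * Cκ ^ 2 * ε⁻¹) * WW (ε⁻¹ • (y - p)) +
        ε * ‖gradient κ y‖ ^ 2)) ≤ _
    rw [e3, e4]
    refine mul_le_mul_of_nonneg_right ?_ hε.le
    have h5 : 81 * Cκ ^ 2 * IW * ε ≤ 81 * Cκ ^ 2 * IW * 1 :=
      mul_le_mul_of_nonneg_left hε1'.le (by positivity)
    linarith
  · intro χ hχ
    have hcl : IsClosed {χ : BB | dI χ (tb Z) = 0} := by
      refine isClosed_eq ?_ continuous_const
      exact continuous_dI.comp (continuous_id.prodMk continuous_const)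
    refine V_induction (C := {χ : BB | dI χ (tb Z) = 0}) hcl (fun φ hφ => ?_) hχ
    show dI (tb φ) (tb Z) = 0
    have e1 : dI (tb φ) (tb Z) = ∫ y, ⟪gradient φ y, gradient Z y⟫_ℝ := by
      unfold dI
      refine integral_congr_ae ?_
      filter_upwards [(rep_tb hφ).2, (rep_tb hZt).2] with y h1 h2
      rw [h1, h2]
    rw [e1, parts hZs hφ, neg_eq_zero]
    rw [← integral_zero E ℝ (μ := volume)]
    congr 1
    ext y
    by_cases hy : y ∈ Ω
    · have hyp : y ≠ p := by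
        intro h
        have := hfar y hy
        rw [h, sub_self, norm_zero] at this
        linarith
      rw [lap_congr (hZΩ y hy), lap_ff ε p hyp, mul_zero]
    · have : φ y = 0 := by
        by_contra h
        exact hy (hφ.supp (subset_tsupport φ h))
      rw [this, zero_mul]

end Pool.Agent.H92.BN.MF4
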