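import Pool.Agent.H92.BN.MF
import Pool.Agent.H92.BN.MF4

/-!
# Module F, final form (helper49, helper14)
-/

set_option autoImplicit false

namespace Pool.Agent.H92.BN

/-- **Module F** -/
theorem barrier (hS : SobVStmt) (hP : PosPartStmt) (hC : CutStmt) (hL : L1L2Stmt) :
    BarrierStmt :=
  MF.barrier' hS hP hC hL MF4.exterior

end Pool.Agent.H92.BN
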