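import Mathlib

/-!
# Module G (path), elementary real inequalities
-/

set_option autoImplicit false

namespace Pool.Agent.H92.BN
namespace MG

theorem exists_small (b1 b2 b3 b4 b5 b6 b7 : ℝ) (h1 : 0 < b1) (h2 : 0 < b2) (h3 : 0 < b3)
    (h4 : 0 < b4) (h5 : 0 < b5) (h6 : 0 < b6) (h7 : 0 < b7) :
    ∃ ε : ℝ, 0 < ε ∧ ε ≤ b1 ∧ ε ≤ b2 ∧ ε ≤ b3 ∧ ε ≤ b4 ∧ ε ≤ b5 ∧ ε ≤ b6 ∧ ε ≤ b7 := by
  refine ⟨min b1 (min b2 (min b3 (min b4 (min b5 (min b6 b7))))), by positivity, ?_, ?_, ?_, ?_,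
    ?_, ?_, ?_⟩ <;> simp

theorem real_choice {l1 l2 δ S C B q : ℝ} (hδ : 0 < δ) (hl : l1 + 2 * δ < l2)
    (hS : 0 < S) (hC : 1 ≤ C) (hB : 1 ≤ B) (hq : 0 < q) :
    ∃ ε η : ℝ, 0 < ε ∧ ε ≤ 1 ∧ 0 < η ∧ l1 + δ < l2 - η ∧
      C * ε ^ 2 ≤ 1 / 16 ∧ B * ε ≤ 1 / 16 ∧ S * B * ε < δ / 16 ∧
      (∀ c s a1 a2 p1 p2 : ℝ, c ^ 2 + s ^ 2 = 1 → 0 ≤ s → |a1| ≤ B * ε → |a2| ≤ B * ε →
        0 ≤ p1 → p1 ≤ B * ε → q * ε ≤ p2 →
        C * ε ^ 2 + 2 * (c * (l1 - (l2 - η)) * a1 + s * (l2 - (l2 - η)) * a2) +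
          (c ^ 2 * (l1 - (l2 - η)) + s ^ 2 * (l2 - (l2 - η))) - 2 * S * (c * p1 + s * p2) ≤ 0) ∧
      (∀ c a1 p1 : ℝ, c ^ 2 = 1 → |a1| ≤ B * ε → 0 ≤ p1 → p1 ≤ B * ε →
        C * ε ^ 2 + 2 * (c * (l1 - (l1 + δ / 2)) * a1) + c ^ 2 * (l1 - (l1 + δ / 2)) -
          2 * S * (c * p1) < 0) := by
  have hC0 : 0 < C := by linarith
  have hB0 : 0 < B := by linarith
  set K : ℝ := 2 * B * (l2 - l1) + 2 * S * B with hK
  have hK0 : 0 < K := by
    have : 0 < B * (l2 - l1) := mul_pos hB0 (by linarith)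
    have : 0 < S * B := mul_pos hS hB0
    rw [hK]; linarith
  set D : ℝ := C + 2 * B + 1 + K ^ 2 / (2 * δ) with hD
  have hD0 : 0 < D := by positivity
  obtain ⟨ε, hε, e1, e2, e3, e4, e5, e6, e7⟩ := exists_small 1 (1 / (16 * C)) (1 / (16 * B))
    (δ / (32 * S * B)) (δ / (4 * S * q)) (2 * S * q / D) (δ / (16 * C)) one_pos (by positivity)
    (by positivity) (by positivity) (by positivity) (by positivity) (by positivity)
  rw [le_div_iff₀ (by positivity)] at e2 e3 e4 e5 e6 e7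
  have hBε : B * ε ≤ 1 / 16 := by linarith
  have hCε1 : C * ε ≤ 1 / 16 := by linarith
  have hCε2 : C * ε ≤ δ / 16 := by linarith
  have hCε : C * ε ^ 2 ≤ 1 / 16 := by nlinarith
  have hCε' : C * ε ^ 2 ≤ δ / 16 := by nlinarith
  have hSB : S * B * ε ≤ δ / 32 := by linarith
  set η : ℝ := min (ε ^ 2) ((l2 - l1 - δ) / 2) with hη
  have hη0 : 0 < η := lt_min (by positivity) (by linarith)
  have hη1 : η ≤ ε ^ 2 := min_le_left _ _
  have hη2 : η ≤ (l2 - l1 - δ) / 2 := min_le_right _ _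
  refine ⟨ε, η, hε, e1, hη0, by linarith, hCε, hBε, by linarith, ?_, ?_⟩
  · intro c s a1 a2 p1 p2 hcs hs ha1 ha2 hp1 hp1' hp2
    set g : ℝ := l2 - η - l1 with hg
    have hgδ : δ ≤ g := by rw [hg]; linarith
    have hgl : g ≤ l2 - l1 := by rw [hg]; linarith
    have hg0 : 0 ≤ g := by linarith
    have hc2 : |c| ^ 2 = c ^ 2 := sq_abs c
    have hs1 : s ≤ 1 := by nlinarith [sq_nonneg c]
    have hs2 : 1 - c ^ 2 ≤ s := by
      have : s ^ 2 ≤ s := by rw [sq]; exact mul_le_of_le_one_left hs hs1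
      linarith
    have hBε0 : 0 ≤ B * ε := by positivity
    -- first term
    have t1 : c * (l1 - (l2 - η)) * a1 ≤ |c| * g * (B * ε) := by
      have : c * (l1 - (l2 - η)) * a1 = g * (-(c * a1)) := by rw [hg]; ring
      rw [this]
      have h1 : -(c * a1) ≤ |c| * (B * ε) := by
        calc -(c * a1) ≤ |c * a1| := neg_le_abs _
          _ = |c| * |a1| := abs_mul _ _
          _ ≤ |c| * (B * ε) := mul_le_mul_of_nonneg_left ha1 (abs_nonneg _)
      calc g * (-(c * a1)) ≤ g * (|c| * (B * ε)) := mul_le_mul_of_nonneg_left h1 hg0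
        _ = _ := by ring
    have t2 : s * (l2 - (l2 - η)) * a2 ≤ B * ε ^ 2 := by
      have : s * (l2 - (l2 - η)) * a2 = (s * η) * a2 := by ring
      rw [this]
      have h1 : a2 ≤ B * ε := (le_abs_self _).trans ha2
      have h2 : 0 ≤ s * η := by positivity
      have h3 : s * η ≤ ε ^ 2 := by nlinarith
      calc (s * η) * a2 ≤ (s * η) * (B * ε) := mul_le_mul_of_nonneg_left h1 h2
        _ ≤ ε ^ 2 * (B * ε) := mul_le_mul_of_nonneg_right h3 hBε0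
        _ = B * ε ^ 2 * ε := by ring
        _ ≤ B * ε ^ 2 * 1 := mul_le_mul_of_nonneg_left e1 (by positivity)
        _ = _ := by ring
    have t3 : s ^ 2 * (l2 - (l2 - η)) ≤ ε ^ 2 := by
      have : s ^ 2 ≤ 1 := by nlinarith [sq_nonneg c]
      have e : s ^ 2 * (l2 - (l2 - η)) = s ^ 2 * η := by ring
      rw [e]
      nlinarith
    have t4 : c ^ 2 * (l1 - (l2 - η)) ≤ -(δ * c ^ 2) := by
      have e : c ^ 2 * (l1 - (l2 - η)) = -(g * c ^ 2) := by rw [hg]; ring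
      rw [e]
      nlinarith [sq_nonneg c]
    have t5 : -(c * p1) ≤ |c| * (B * ε) := by
      calc -(c * p1) ≤ |c * p1| := neg_le_abs _
        _ = |c| * |p1| := abs_mul _ _
        _ = |c| * p1 := by rw [abs_of_nonneg hp1]
        _ ≤ |c| * (B * ε) := mul_le_mul_of_nonneg_left hp1' (abs_nonneg _)
    have t6 : (1 - c ^ 2) * (q * ε) ≤ s * p2 := by
      calc (1 - c ^ 2) * (q * ε) ≤ s * (q * ε) := mul_le_mul_of_nonneg_right hs2 (by positivity)
        _ ≤ s * p2 := mul_le_mul_of_nonneg_left hp2 hs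
    have t7 : |c| * g * (B * ε) ≤ |c| * (l2 - l1) * (B * ε) :=
      mul_le_mul_of_nonneg_right (mul_le_mul_of_nonneg_left hgl (abs_nonneg _)) hBε0
    have t8 : K * ε * |c| ≤ δ / 2 * c ^ 2 + K ^ 2 / (2 * δ) * ε ^ 2 := by
      rw [← hc2]
      have h := sq_nonneg (δ * |c| - K * ε)
      have h2 : K ^ 2 / (2 * δ) * ε ^ 2 = (K * ε) ^ 2 / (2 * δ) := by ring
      rw [h2]
      have h3 : K * ε * |c| - δ / 2 * |c| ^ 2 ≤ (K * ε) ^ 2 / (2 * δ) := by
        rw [le_div_iff₀ (by positivity)]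
        nlinarith
      linarith
    have t9 : c ^ 2 * (2 * S * q * ε) ≤ c ^ 2 * (δ / 2) :=
      mul_le_mul_of_nonneg_left (by linarith) (sq_nonneg c)
    have t10 : D * ε ^ 2 ≤ 2 * S * q * ε := by nlinarith
    have t11 : 2 * S * (-(c * p1)) ≤ 2 * S * (|c| * (B * ε)) :=
      mul_le_mul_of_nonneg_left t5 (by positivity)
    have t12 : 2 * S * ((1 - c ^ 2) * (q * ε)) ≤ 2 * S * (s * p2) :=
      mul_le_mul_of_nonneg_left t6 (by positivity)
    have t13 : K * ε * |c| = 2 * (|c| * (l2 - l1) * (B * ε)) + 2 * S * (|c| * (B * ε)) := by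
      rw [hK]; ring
    have t14 : D * ε ^ 2 = C * ε ^ 2 + 2 * (B * ε ^ 2) + ε ^ 2 + K ^ 2 / (2 * δ) * ε ^ 2 := by
      rw [hD]; ring
    linarith
  · intro c a1 p1 hc ha1 hp1 hp1'
    have hc' : |c| = 1 := by
      have : |c| ^ 2 = 1 := by rw [sq_abs, hc]
      nlinarith [abs_nonneg c]
    have t1 : c * (l1 - (l1 + δ / 2)) * a1 ≤ δ / 2 * (B * ε) := by
      have : c * (l1 - (l1 + δ / 2)) * a1 = δ / 2 * (-(c * a1)) := by ring
      rw [this]
      have h1 : -(c * a1) ≤ B * ε := by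
        calc -(c * a1) ≤ |c * a1| := neg_le_abs _
          _ = |c| * |a1| := abs_mul _ _
          _ ≤ B * ε := by rw [hc', one_mul]; exact ha1
      exact mul_le_mul_of_nonneg_left h1 (by positivity)
    have t2 : -(c * p1) ≤ B * ε := by
      calc -(c * p1) ≤ |c * p1| := neg_le_abs _
        _ = |c| * |p1| := abs_mul _ _
        _ = p1 := by rw [abs_of_nonneg hp1, hc', one_mul]
        _ ≤ B * ε := hp1'
    have t3 : 2 * S * (-(c * p1)) ≤ 2 * S * (B * ε) :=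
      mul_le_mul_of_nonneg_left t2 (by positivity)
    have t4 : δ / 2 * (B * ε) ≤ δ / 2 * (1 / 16) :=
      mul_le_mul_of_nonneg_left hBε (by positivity)
    have t5 : c ^ 2 * (l1 - (l1 + δ / 2)) = -(δ / 2) := by rw [hc]; ring
    rw [t5]
    linarith

end MG
end Pool.Agent.H92.BN
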