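import Pool.Agent.H92.BN.MG_Data
import Pool.Agent.H92.BN.MG_Real

/-!
# Module G: the path (`PathStmt`)
-/

set_option autoImplicit false

namespace Pool.Agent.H92.BN
namespace MG

open MeasureTheory Set Filter Topology
open scoped ContDiff InnerProductSpace

/-- the unnormalised path -/
noncomputable def UU (e1 e2 b : BB) (α β : ℝ) : BB := b + α • e1 + β • e2

theorem UU_mem {Ω : Set E} {e1 e2 b : BB} (hb : b ∈ V Ω) (h1 : e1 ∈ V Ω) (h2 : e2 ∈ V Ω)
    (α β : ℝ) : UU e1 e2 b α β ∈ V Ω :=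
  (V Ω).add_mem ((V Ω).add_mem hb ((V Ω).smul_mem _ h1)) ((V Ω).smul_mem _ h2)

section
variable {Ω : Set E} {l1 l2 : ℝ} {e1 e2 b : BB} {f1 f2 : E → ℝ}

theorem mI_UU (hE : Eig Ω l1 l2 e1 e2 f1 f2) (α β : ℝ) :
    mI (UU e1 e2 b α β) (UU e1 e2 b α β) =
      mI b b + 2 * (α * mI b e1 + β * mI b e2) + (α ^ 2 + β ^ 2) := by
  have h := hE.orth
  have h' : mI e2 e1 = 0 := by rw [mI_comm]; exact h
  unfold UU
  simp only [mI_add_left, mI_add_right, mI_smul_left, mI_smul_right, hE.norm1, hE.norm2, h, h',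
    mI_comm e1 b, mI_comm e2 b]
  ring

theorem dI_UU (hE : Eig Ω l1 l2 e1 e2 f1 f2) (hb : b ∈ V Ω) (α β : ℝ) :
    dI (UU e1 e2 b α β) (UU e1 e2 b α β) =
      dI b b + 2 * (α * (l1 * mI b e1) + β * (l2 * mI b e2)) + (l1 * α ^ 2 + l2 * β ^ 2) := by
  have h := hE.orth
  have h' : mI e2 e1 = 0 := by rw [mI_comm]; exact h
  have g1 : dI e1 b = l1 * mI b e1 := by rw [hE.eq1 b hb, mI_comm]
  have g2 : dI e2 b = l2 * mI b e2 := by rw [hE.eq2 b hb, mI_comm]
  have g1' : dI b e1 = l1 * mI b e1 := by rw [dI_comm, g1]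
  have g2' : dI b e2 = l2 * mI b e2 := by rw [dI_comm, g2]
  have k11 : dI e1 e1 = l1 := by rw [hE.eq1 _ hE.mem1, hE.norm1, mul_one]
  have k22 : dI e2 e2 = l2 := by rw [hE.eq2 _ hE.mem2, hE.norm2, mul_one]
  have k12 : dI e1 e2 = 0 := by rw [hE.eq1 _ hE.mem2, h, mul_zero]
  have k21 : dI e2 e1 = 0 := by rw [dI_comm, k12]
  unfold UU
  simp only [dI_add_left, dI_add_right, dI_smul_left, dI_smul_right, k11, k22, k12, k21, g1, g2,
    g1', g2']
  ring

theorem p5_UU (mb : MemLp (fn b) 6 volume) (m1 : MemLp (fn e1) 6 volume)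
    (m2 : MemLp (fn e2) 6 volume) (h6 : p6 b = 1) (α β : ℝ) :
    p5 b (UU e1 e2 b α β) = 1 + (α * p5 b e1 + β * p5 b e2) := by
  have a1 : MemLp (fn (α • e1)) 6 volume :=
    (m1.const_smul α).ae_eq (fn_smul α e1).symm
  have a2 : MemLp (fn (β • e2)) 6 volume :=
    (m2.const_smul β).ae_eq (fn_smul β e2).symm
  have a3 : MemLp (fn (b + α • e1)) 6 volume := (mb.add a1).ae_eq (fn_add _ _).symm
  unfold UU
  rw [p5_add_right mb a3 a2, p5_add_right mb mb a1, p5_smul_right, p5_smul_right, p6_eq_p5, h6]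
  ring

theorem memLp_UU (mb : MemLp (fn b) 6 volume) (m1 : MemLp (fn e1) 6 volume)
    (m2 : MemLp (fn e2) 6 volume) (α β : ℝ) : MemLp (fn (UU e1 e2 b α β)) 6 volume := by
  have a1 : MemLp (fn (α • e1)) 6 volume :=
    (m1.const_smul α).ae_eq (fn_smul α e1).symm
  have a2 : MemLp (fn (β • e2)) 6 volume :=
    (m2.const_smul β).ae_eq (fn_smul β e2).symm
  have a3 : MemLp (fn (b + α • e1)) 6 volume := (mb.add a1).ae_eq (fn_add _ _).symm
  exact (a3.add a2).ae_eq (fn_add _ _).symm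

theorem fn_UU (α β : ℝ) :
    fn (UU e1 e2 b α β) =ᵐ[volume] fun x => fn b x + α * fn e1 x + β * fn e2 x := by
  unfold UU
  filter_upwards [fn_add (b + α • e1) (β • e2), fn_add b (α • e1), fn_smul α e1, fn_smul β e2]
    with x h1 h2 h3 h4
  rw [h1, Pi.add_apply, h2, Pi.add_apply, h3, h4]
  simp

/-- continuity of `p6` along the path -/
theorem continuous_p6_UU (mb : MemLp (fn b) 6 volume) (m1 : MemLp (fn e1) 6 volume)
    (m2 : MemLp (fn e2) 6 volume) {α β : ℝ → ℝ} (hα : Continuous α) (hβ : Continuous β) (r : ℝ)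
    (hα' : ∀ t, |α t| ≤ r) (hβ' : ∀ t, |β t| ≤ r) :
    Continuous fun t => p6 (UU e1 e2 b (α t) (β t)) := by
  have h1 : (fun t => p6 (UU e1 e2 b (α t) (β t))) =
      fun t => ∫ x, (fn b x + α t * fn e1 x + β t * fn e2 x) ^ 6 := by
    ext1 t
    unfold p6
    refine integral_congr_ae ?_
    filter_upwards [fn_UU (e1 := e1) (e2 := e2) (b := b) (α t) (β t)] with x hx
    rw [hx]
  rw [h1]
  have hg : MemLp (fun x => |fn b x| + r * |fn e1 x| + r * |fn e2 x|) 6 volume :=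
    (mb.abs.add (m1.abs.const_mul r)).add (m2.abs.const_mul r)
  refine continuous_of_dominated (bound := fun x => (|fn b x| + r * |fn e1 x| + r * |fn e2 x|) ^ 6)
    (fun t => ?_) (fun t => ?_) (integrable_pow_six hg) ?_
  · exact ((mb.aestronglyMeasurable.add (m1.aestronglyMeasurable.const_mul _)).add
      (m2.aestronglyMeasurable.const_mul _)).pow 6
  · refine Eventually.of_forall fun x => ?_
    rw [norm_pow, Real.norm_eq_abs]
    refine pow_le_pow_left₀ (abs_nonneg _) ?_ 6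
    refine (abs_add_le _ _).trans (add_le_add ((abs_add_le _ _).trans (add_le_add le_rfl ?_)) ?_)
    · rw [abs_mul]; exact mul_le_mul_of_nonneg_right (hα' t) (abs_nonneg _)
    · rw [abs_mul]; exact mul_le_mul_of_nonneg_right (hβ' t) (abs_nonneg _)
  · refine Eventually.of_forall fun x => ?_
    fun_prop

/-- lower bound for the positive part -/
theorem pp_UU (mb : MemLp (fn b) 6 volume) (m1 : MemLp (fn e1) 6 volume)
    (m2 : MemLp (fn e2) 6 volume) (hb : ∀ᵐ x, 0 ≤ fn b x) (α β : ℝ) :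
    p6 (UU e1 e2 b α β) - p6 (UU e1 e2 0 α β) ≤ pp (UU e1 e2 b α β) := by
  have hm := memLp_UU (e1 := e1) (e2 := e2) mb m1 m2 α β
  have m0 : MemLp (fn (0 : BB)) 6 volume := (MemLp.zero).ae_eq fn_zero.symm
  have hm0 := memLp_UU (e1 := e1) (e2 := e2) m0 m1 m2 α β
  have i1 := integrable_pow_six hm
  have i2 := integrable_pow_six hm0
  have i3 : Integrable (fun x => (max (fn (UU e1 e2 b α β) x) 0) ^ 6) volume := by
    refine i1.mono ?_ (Eventually.of_forall fun x => ?_)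
    · exact ((hm.aestronglyMeasurable.sup aestronglyMeasurable_const)).pow 6
    · rw [norm_pow, norm_pow]
      refine pow_le_pow_left₀ (norm_nonneg _) ?_ 6
      rw [Real.norm_eq_abs, Real.norm_eq_abs]
      rcases le_total 0 (fn (UU e1 e2 b α β) x) with h | h
      · rw [max_eq_left h]
      · rw [max_eq_right h]; simp
  unfold pp p6
  rw [← integral_sub i1 i2]
  refine integral_mono_ae (i1.sub i2) i3 ?_
  filter_upwards [fn_UU (e1 := e1) (e2 := e2) (b := b) α β,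
    fn_UU (e1 := e1) (e2 := e2) (b := 0) α β, hb, fn_zero] with x h1 h2 h3 h4
  rw [h1, h2, h4]
  simp only [Pi.zero_apply, zero_add]
  set y := α * fn e1 x + β * fn e2 x with hy
  have e : fn b x + α * fn e1 x + β * fn e2 x = fn b x + y := by rw [hy]; ring
  rw [e]
  rcases le_total 0 (fn b x + y) with h | h
  · rw [max_eq_left h]
    have : 0 ≤ y ^ 6 := by positivity
    linarith
  · rw [max_eq_right h]
    have h5 : |fn b x + y| ≤ |y| := by
      rw [abs_of_nonpos h, abs_of_nonpos (by linarith)]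
      linarith
    have h6 : (fn b x + y) ^ 6 ≤ y ^ 6 := by
      have := pow_le_pow_left₀ (abs_nonneg _) h5 6
      rwa [← abs_pow, ← abs_pow, abs_of_nonneg (by positivity), abs_of_nonneg (by positivity)]
        at this
    linarith [h6, (by norm_num : (0 : ℝ) ^ 6 = 0)]

/-- `‖u‖₆` -/
noncomputable def NN (u : BB) : ℝ := (p6 u) ^ ((1 : ℝ) / 6)

theorem NN_nonneg (u : BB) : 0 ≤ NN u := Real.rpow_nonneg (p6_nonneg u) _

theorem NN_pow_six (u : BB) : NN u ^ 6 = p6 u := by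
  unfold NN
  rw [← Real.rpow_natCast, ← Real.rpow_mul (p6_nonneg u)]
  norm_num

theorem NN_sq (u : BB) : NN u ^ 2 = (p6 u) ^ ((1 : ℝ) / 3) := by
  unfold NN
  rw [← Real.rpow_natCast, ← Real.rpow_mul (p6_nonneg u)]
  norm_num

theorem NN_lower {C B q κ : ℝ} (hb : Bub Ω e1 e2 b C B q κ) (mb : MemLp (fn b) 6 volume)
    (m1 : MemLp (fn e1) 6 volume) (m2 : MemLp (fn e2) 6 volume) (α β : ℝ) :
    1 + (α * p5 b e1 + β * p5 b e2) ≤ NN (UU e1 e2 b α β) := by
  rw [← p5_UU mb m1 m2 hb.six]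
  exact p5_le mb (memLp_UU mb m1 m2 α β) hb.six

theorem core (hS : 0 < S0) (hE : Eig Ω l1 l2 e1 e2 f1 f2) {C B q ε r : ℝ}
    (hb : Bub Ω e1 e2 b C B q (ε * r)) (hr : 0 < r) (mb : MemLp (fn b) 6 volume)
    (m1 : MemLp (fn e1) 6 volume) (m2 : MemLp (fn e2) 6 volume) (c s ℓ : ℝ) (hℓ : 0 ≤ ℓ) :
    dI (UU e1 e2 b (r * c) (r * s)) (UU e1 e2 b (r * c) (r * s)) -
      S0 * NN (UU e1 e2 b (r * c) (r * s)) ^ 2 -
      ℓ * mI (UU e1 e2 b (r * c) (r * s)) (UU e1 e2 b (r * c) (r * s)) ≤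
    r ^ 2 * (C * ε ^ 2 + 2 * (c * (l1 - ℓ) * (mI b e1 / r) + s * (l2 - ℓ) * (mI b e2 / r)) +
      (c ^ 2 * (l1 - ℓ) + s ^ 2 * (l2 - ℓ)) -
      2 * S0 * (c * (p5 b e1 / r) + s * (p5 b e2 / r))) := by
  have hN := NN_lower hb mb m1 m2 (r * c) (r * s)
  have hN0 := NN_nonneg (UU e1 e2 b (r * c) (r * s))
  have hN2 : 1 + 2 * (r * c * p5 b e1 + r * s * p5 b e2) ≤
      NN (UU e1 e2 b (r * c) (r * s)) ^ 2 := by
    nlinarith [sq_nonneg (r * c * p5 b e1 + r * s * p5 b e2),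
      sq_nonneg (NN (UU e1 e2 b (r * c) (r * s)) - 1)]
  have h1 := hb.di
  have h2 : 0 ≤ ℓ * mI b b := mul_nonneg hℓ (mI_self_nonneg b)
  have h3 := mul_le_mul_of_nonneg_left hN2 hS.le
  rw [mI_UU hE, dI_UU hE hb.mem]
  obtain ⟨a1, ha1⟩ : ∃ a1, mI b e1 = r * a1 := ⟨mI b e1 / r, by field_simp⟩
  obtain ⟨a2, ha2⟩ : ∃ a2, mI b e2 = r * a2 := ⟨mI b e2 / r, by field_simp⟩
  obtain ⟨p1, hp1⟩ : ∃ p1, p5 b e1 = r * p1 := ⟨p5 b e1 / r, by field_simp⟩
  obtain ⟨p2, hp2⟩ : ∃ p2, p5 b e2 = r * p2 := ⟨p5 b e2 / r, by field_simp⟩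
  rw [hp1, hp2] at h3
  rw [ha1, ha2, hp1, hp2, mul_div_cancel_left₀ _ hr.ne', mul_div_cancel_left₀ _ hr.ne',
    mul_div_cancel_left₀ _ hr.ne', mul_div_cancel_left₀ _ hr.ne']
  generalize NN (UU e1 e2 b (r * c) (r * s)) = N at *
  linarith

end

/-- all the numerical facts about one point of the unnormalised path -/
theorem point_facts (hS : SobVStmt) {Ω : Set E} {l1 l2 : ℝ} {e1 e2 b : BB} {f1 f2 : E → ℝ}
    (hE : Eig Ω l1 l2 e1 e2 f1 f2) {C B q ε r : ℝ}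
    (hb : Bub Ω e1 e2 b C B q (ε * r)) (hr : 0 < r) (hε : 0 < ε) (hC : 1 ≤ C) (hB : 1 ≤ B)
    (hCε : C * ε ^ 2 ≤ 1 / 16) (hBε : B * ε ≤ 1 / 16) (hr1 : r ^ 2 ≤ 1)
    (hr2 : 8 * (1 + 2 * l2) * r ^ 2 ≤ S0) {c s : ℝ} (hcs : c ^ 2 + s ^ 2 = 1) :
    7 / 8 ≤ NN (UU e1 e2 b (r * c) (r * s)) ∧ NN (UU e1 e2 b (r * c) (r * s)) ^ 2 ≤ 9 / 8 ∧
    3 / 4 * r ^ 2 ≤ mI (UU e1 e2 b (r * c) (r * s)) (UU e1 e2 b (r * c) (r * s)) ∧
    mI (UU e1 e2 b (r * c) (r * s)) (UU e1 e2 b (r * c) (r * s)) ≤ 3 / 2 * r ^ 2 ∧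
    p6 (UU e1 e2 0 (r * c) (r * s)) ≤ 1 / 64 := by
  have hS0 := hS.1
  have hl1 := hE.pos
  have hgap := hE.gap
  have hV : V Ω ≤ V univ := V_le Ω
  have mb := (hS.2 b (hV hb.mem)).1
  have m1 := (hS.2 e1 (hV hE.mem1)).1
  have m2 := (hS.2 e2 (hV hE.mem2)).1
  have hN := NN_lower hb mb m1 m2 (r * c) (r * s)
  have hc1 : |c| ≤ 1 := (sq_le_one_iff_abs_le_one c).1 (by nlinarith [sq_nonneg s])
  have hs1 : |s| ≤ 1 := (sq_le_one_iff_abs_le_one s).1 (by nlinarith [sq_nonneg c])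
  have hr20 : 0 < r ^ 2 := by positivity
  have hBr : B * (ε * r) * r ≤ 1 / 16 * r ^ 2 := by
    have : B * (ε * r) * r = B * ε * r ^ 2 := by ring
    rw [this]
    exact mul_le_mul_of_nonneg_right hBε hr20.le
  have est : ∀ z w : ℝ, |z| ≤ 1 → |w| ≤ B * (ε * r) → |r * z * w| ≤ 1 / 16 * r ^ 2 := by
    intro z w hz hw
    calc |r * z * w| = r * (|z| * |w|) := by rw [abs_mul, abs_mul, abs_of_pos hr]; ring
      _ ≤ r * (1 * (B * (ε * r))) := by
        refine mul_le_mul_of_nonneg_left ?_ hr.le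
        exact mul_le_mul hz hw (abs_nonneg _) zero_le_one
      _ = B * (ε * r) * r := by ring
      _ ≤ _ := hBr
  have hq1 : |p5 b e1| ≤ B * (ε * r) := by rw [abs_of_nonneg hb.q1]; exact hb.q1'
  have k1 := abs_le.1 (est c _ hc1 hq1)
  have k2 := abs_le.1 (est s _ hs1 hb.q2')
  have k3 := abs_le.1 (est c _ hc1 hb.a1)
  have k4 := abs_le.1 (est s _ hs1 hb.a2)
  have hCr : C * (ε * r) ^ 2 ≤ 1 / 16 * r ^ 2 := by
    have : C * (ε * r) ^ 2 = C * ε ^ 2 * r ^ 2 := by ring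
    rw [this]
    exact mul_le_mul_of_nonneg_right hCε hr20.le
  have hcr : (r * c) ^ 2 + (r * s) ^ 2 = r ^ 2 := by
    have : (r * c) ^ 2 + (r * s) ^ 2 = r ^ 2 * (c ^ 2 + s ^ 2) := by ring
    rw [this, hcs, mul_one]
  have hN78 : 7 / 8 ≤ NN (UU e1 e2 b (r * c) (r * s)) := by
    have : r * c * p5 b e1 + r * s * p5 b e2 ≥ -(1 / 8) * r ^ 2 := by linarith [k1.1, k2.1]
    have : r * c * p5 b e1 + r * s * p5 b e2 ≥ -(1 / 8) := by nlinarith
    linarith
  have hUV := UU_mem hb.mem hE.mem1 hE.mem2 (r * c) (r * s)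
  have hsob := (hS.2 _ (hV hUV)).2
  rw [← NN_sq, dI_UU hE hb.mem] at hsob
  have hlr : l1 * (r * c) ^ 2 + l2 * (r * s) ^ 2 ≤ l2 * r ^ 2 := by
    rw [← hcr, mul_add]
    have : l1 * (r * c) ^ 2 ≤ l2 * (r * c) ^ 2 :=
      mul_le_mul_of_nonneg_right hgap.le (sq_nonneg _)
    linarith
  refine ⟨hN78, ?_, ?_, ?_, ?_⟩
  · have g1 : r * c * (l1 * mI b e1) ≤ l1 * (1 / 16 * r ^ 2) := by
      calc r * c * (l1 * mI b e1) = l1 * (r * c * mI b e1) := by ring
        _ ≤ _ := mul_le_mul_of_nonneg_left k3.2 hl1.le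
    have g2 : r * s * (l2 * mI b e2) ≤ l2 * (1 / 16 * r ^ 2) := by
      calc r * s * (l2 * mI b e2) = l2 * (r * s * mI b e2) := by ring
        _ ≤ _ := mul_le_mul_of_nonneg_left k4.2 (by linarith)
    have g3 : l1 * (1 / 16 * r ^ 2) ≤ l2 * (1 / 16 * r ^ 2) :=
      mul_le_mul_of_nonneg_right hgap.le (by positivity)
    have g4 : S0 * NN (UU e1 e2 b (r * c) (r * s)) ^ 2 ≤ S0 * (9 / 8) := by
      have := hb.di
      have : 0 ≤ l2 * r ^ 2 := mul_nonneg (by linarith) hr20.le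
      linarith
    exact le_of_mul_le_mul_left g4 hS0
  · rw [mI_UU hE]
    have := mI_self_nonneg b
    linarith [k3.1, k4.1]
  · rw [mI_UU hE]
    have := hb.mi
    linarith [k3.2, k4.2]
  · have hU0 := UU_mem (Ω := Ω) (V Ω).zero_mem hE.mem1 hE.mem2 (r * c) (r * s)
    have h := (hS.2 _ (hV hU0)).2
    rw [← NN_sq, dI_UU hE (V Ω).zero_mem] at h
    have z1 : mI (0 : BB) e1 = 0 := by rw [mI_eq]; simp
    have z2 : mI (0 : BB) e2 = 0 := by rw [mI_eq]; simp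
    have z3 : dI (0 : BB) 0 = 0 := by rw [dI_eq]; simp
    rw [z1, z2, z3] at h
    have h2 : S0 * NN (UU e1 e2 0 (r * c) (r * s)) ^ 2 ≤ S0 * (1 / 16) := by nlinarith
    have h3 := le_of_mul_le_mul_left h2 hS0
    rw [← NN_pow_six]
    have h4 : NN (UU e1 e2 0 (r * c) (r * s)) ^ 6 =
      (NN (UU e1 e2 0 (r * c) (r * s)) ^ 2) ^ 3 := by ring
    rw [h4]
    calc (NN (UU e1 e2 0 (r * c) (r * s)) ^ 2) ^ 3 ≤ (1 / 16) ^ 3 :=
        pow_le_pow_left₀ (sq_nonneg _) h3 3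
      _ ≤ 1 / 64 := by norm_num

end MG

open MeasureTheory Set Filter Topology MG in
/-- Module G -/
theorem path (hB : BubbleStmt) (hS : SobVStmt) : PathStmt := by
  intro Ω hΩ hbd l1 l2 e1 e2 f1 f2 hE δ hδ hl
  have hS0 := hS.1
  have hl1 := hE.pos
  have hgap := hE.gap
  have hl2 : 0 < l2 := by linarith
  have hV : V Ω ≤ V univ := V_le Ω
  have m1 := (hS.2 e1 (hV hE.mem1)).1
  have m2 := (hS.2 e2 (hV hE.mem2)).1
  obtain ⟨C, B, q, hC, hB1, hq, hbub⟩ := bubble_data hB hΩ hE m2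
  obtain ⟨ε, η, hε, hε1, hη, hηl, hCε, hBε, hSB, hint, hend⟩ := real_choice hδ hl hS0 hC hB1 hq
  refine ⟨η, hη, hηl, min 1 (S0 / (8 * (1 + 2 * l2))), by positivity, fun m hm hm0 => ?_⟩
  have hm1 : m ≤ 1 := hm0.le.trans (min_le_left _ _)
  have hm2 : 8 * (1 + 2 * l2) * m ≤ S0 := by
    have := hm0.le.trans (min_le_right _ _)
    rw [le_div_iff₀ (by positivity)] at this
    linarith
  obtain ⟨r, hr, rfl⟩ : ∃ r : ℝ, 0 < r ∧ m = r ^ 2 :=
    ⟨Real.sqrt m, Real.sqrt_pos.2 hm, (Real.sq_sqrt hm.le).symm⟩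
  have hr1 : r ≤ 1 := by nlinarith
  obtain ⟨b, hb⟩ := hbub (ε * r) (by positivity) (by nlinarith)
  have mb := (hS.2 b (hV hb.mem)).1
  set cc : ℝ → ℝ := fun t => r * Real.cos (Real.pi * t) with hcc
  set ss : ℝ → ℝ := fun t => r * Real.sin (Real.pi * t) with hss
  set U : ℝ → BB := fun t => UU e1 e2 b (cc t) (ss t) with hU
  have hcs : ∀ t, Real.cos (Real.pi * t) ^ 2 + Real.sin (Real.pi * t) ^ 2 = 1 := fun t =>
    Real.cos_sq_add_sin_sq _
  have PF := fun t => point_facts hS hE hb hr hε hC hB1 hCε hBε hm1 hm2 (hcs t)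
  have Upos : ∀ t, 0 < NN (U t) := fun t => by
    have : 7 / 8 ≤ NN (U t) := (PF t).1
    linarith
  have UV : ∀ t, U t ∈ V Ω := fun t => UU_mem hb.mem hE.mem1 hE.mem2 _ _
  have hinv : ∀ t, 0 < (NN (U t))⁻¹ := fun t => inv_pos.2 (Upos t)
  have gsix : ∀ t, (NN (U t))⁻¹ ^ 6 * p6 (U t) = 1 := fun t => by
    rw [← NN_pow_six, ← mul_pow, inv_mul_cancel₀ (Upos t).ne', one_pow]
  have gmi : ∀ t, mI ((NN (U t))⁻¹ • U t) ((NN (U t))⁻¹ • U t) =
      mI (U t) (U t) / NN (U t) ^ 2 := fun t => by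
    rw [mI_smul_left, mI_smul_right]; field_simp
  have gdi : ∀ t, dI ((NN (U t))⁻¹ • U t) ((NN (U t))⁻¹ • U t) =
      dI (U t) (U t) / NN (U t) ^ 2 := fun t => by
    rw [dI_smul_left, dI_smul_right]; field_simp
  have hc0 : cc 0 = r * 1 := by simp [hcc]
  have hs0 : ss 0 = r * 0 := by simp [hss]
  have hc1 : cc 1 = r * (-1) := by simp [hcc]
  have hs1 : ss 1 = r * 0 := by simp [hss]
  have ha1r : |mI b e1 / r| ≤ B * ε := by
    rw [abs_div, abs_of_pos hr, div_le_iff₀ hr]; linarith [hb.a1]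
  have ha2r : |mI b e2 / r| ≤ B * ε := by
    rw [abs_div, abs_of_pos hr, div_le_iff₀ hr]; linarith [hb.a2]
  have hq1r : 0 ≤ p5 b e1 / r := div_nonneg hb.q1 hr.le
  have hq1r' : p5 b e1 / r ≤ B * ε := by rw [div_le_iff₀ hr]; linarith [hb.q1']
  have hq2r : q * ε ≤ p5 b e2 / r := by rw [le_div_iff₀ hr]; linarith [hb.q2]
  -- end points
  have endp : ∀ c : ℝ, c ^ 2 = 1 → ∀ t, U t = UU e1 e2 b (r * c) (r * 0) →
      dI ((NN (U t))⁻¹ • U t) ((NN (U t))⁻¹ • U t) <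
        S0 + (l1 + δ / 2) * mI ((NN (U t))⁻¹ • U t) ((NN (U t))⁻¹ • U t) := by
    intro c hc t ht
    have h1 := core hS0 hE hb hr mb m1 m2 c 0 (l1 + δ / 2) (by positivity)
    rw [← ht] at h1
    have h2 := hend c (mI b e1 / r) (p5 b e1 / r) hc ha1r hq1r hq1r'
    have h3 : dI (U t) (U t) - S0 * NN (U t) ^ 2 - (l1 + δ / 2) * mI (U t) (U t) < 0 := by
      refine h1.trans_lt ?_
      refine mul_neg_of_pos_of_neg hm ?_
      linarith
    rw [gmi, gdi, div_lt_iff₀ (by have := Upos t; positivity), add_mul, mul_assoc,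
      div_mul_cancel₀ _ (by have := Upos t; positivity)]
    linarith
  refine ⟨fun t => (NN (U t))⁻¹ • U t, ?_, ?_, ?_, ?_, ?_, ?_⟩
  · -- continuity
    have hcont : Continuous fun t => NN (U t) := by
      unfold NN
      refine Continuous.rpow_const ?_ fun t => Or.inr (by norm_num)
      refine continuous_p6_UU mb m1 m2 (by fun_prop) (by fun_prop) r (fun t => ?_) fun t => ?_
      · rw [hcc]; simp only
        rw [abs_mul, abs_of_pos hr]
        exact mul_le_of_le_one_right hr.le (Real.abs_cos_le_one _)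
      · rw [hss]; simp only
        rw [abs_mul, abs_of_pos hr]
        exact mul_le_of_le_one_right hr.le (Real.abs_sin_le_one _)
    have hUc : Continuous U := by
      rw [hU]
      unfold UU
      fun_prop
    exact ((hcont.inv₀ fun t => (Upos t).ne').smul hUc).continuousOn
  · intro t ht
    obtain ⟨F1, F2, F3, F4, F5⟩ := PF t
    have hN2 : 3 / 4 ≤ NN (U t) ^ 2 := by
      have : 7 / 8 ≤ NN (U t) := F1
      nlinarith
    have hN2' : NN (U t) ^ 2 ≤ 9 / 8 := F2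
    have hN2p : 0 < NN (U t) ^ 2 := by linarith
    have F3' : 3 / 4 * r ^ 2 ≤ mI (U t) (U t) := F3
    have F4' : mI (U t) (U t) ≤ 3 / 2 * r ^ 2 := F4
    refine ⟨(V Ω).smul_mem _ (UV t), ?_, ?_, ?_, ?_, ?_⟩
    · rw [p6_smul]; exact gsix t
    · rw [gmi, le_div_iff₀ hN2p]
      nlinarith
    · rw [gmi, div_le_iff₀ hN2p]
      nlinarith
    · rw [pp_smul (hinv t).le]
      have h1 := pp_UU mb m1 m2 hb.nn (cc t) (ss t)
      have h2 : p6 (UU e1 e2 0 (cc t) (ss t)) ≤ 1 / 64 := F5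
      have h3 : p6 (U t) - 1 / 64 ≤ pp (U t) := by linarith
      have h4 : (27 / 64 : ℝ) ≤ p6 (U t) := by
        rw [← NN_pow_six]
        have : NN (U t) ^ 6 = (NN (U t) ^ 2) ^ 3 := by ring
        rw [this]
        calc (27 / 64 : ℝ) = (3 / 4) ^ 3 := by norm_num
          _ ≤ _ := pow_le_pow_left₀ (by norm_num) hN2 3
      have h5 := gsix t
      have h6 : 0 < (NN (U t))⁻¹ ^ 6 := pow_pos (hinv t) 6
      have h7 := mul_le_mul_of_nonneg_left h3 h6.le
      nlinarith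
    · rw [gmi, gdi, div_le_iff₀ hN2p, add_mul, mul_assoc, div_mul_cancel₀ _ hN2p.ne']
      have hsn : 0 ≤ Real.sin (Real.pi * t) :=
        Real.sin_nonneg_of_nonneg_of_le_pi (mul_nonneg Real.pi_pos.le ht.1)
          (mul_le_of_le_one_right Real.pi_pos.le ht.2)
      have h1 := core hS0 hE hb hr mb m1 m2 (Real.cos (Real.pi * t)) (Real.sin (Real.pi * t))
        (l2 - η) (by linarith)
      have h2 := hint _ _ (mI b e1 / r) (mI b e2 / r) (p5 b e1 / r) (p5 b e2 / r) (hcs t) hsn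
        ha1r ha2r hq1r hq1r' hq2r
      have h3 : dI (U t) (U t) - S0 * NN (U t) ^ 2 - (l2 - η) * mI (U t) (U t) ≤ 0 :=
        h1.trans (mul_nonpos_of_nonneg_of_nonpos hm.le h2)
      linarith
  · refine endp 1 (by norm_num) 0 ?_
    rw [hU]; simp only; rw [hc0, hs0]
  · refine endp (-1) (by norm_num) 1 ?_
    rw [hU]; simp only; rw [hc1, hs1]
  · -- gI at 0
    have hU0 : U 0 = UU e1 e2 b (r * 1) (r * 0) := by rw [hU]; simp only; rw [hc0, hs0]
    have hmi : 0 < mI (U 0) e1 := by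
      rw [hU0]
      unfold UU
      simp only [mI_add_left, mI_smul_left, hE.norm1]
      have := hb.a1'
      nlinarith [hr]
    have hp5 : 0 ≤ p5 (U 0) e1 := by
      unfold p5
      refine integral_nonneg_of_ae ?_
      have he1 : ∀ᵐ x, 0 ≤ fn e1 x := by
        filter_upwards [hE.rep1] with x hx
        rw [hx]
        by_cases h : x ∈ Ω
        · exact (hE.pos1 x h).le
        · exact (hE.out1 x h).ge
      filter_upwards [fn_UU (e1 := e1) (e2 := e2) (b := b) (r * 1) (r * 0), hb.nn, he1]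
        with x h1 h2 h3
      rw [hU0, h1]
      simp only [Pi.zero_apply]
      have : 0 ≤ fn b x + r * 1 * fn e1 x + r * 0 * fn e2 x := by
        have := mul_nonneg hr.le h3
        linarith
      exact mul_nonneg (pow_nonneg this 5) h3
    unfold gI
    rw [mI_smul_left, p5_smul_left]
    have h1 : 0 < δ * ((NN (U 0))⁻¹ * mI (U 0) e1) := by have := hinv 0; positivity
    have h2 : 0 ≤ S0 * ((NN (U 0))⁻¹ ^ 5 * p5 (U 0) e1) := by have := hinv 0; positivity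
    linarith
  · -- gI at 1
    have hU1 : U 1 = UU e1 e2 b (r * (-1)) (r * 0) := by rw [hU]; simp only; rw [hc1, hs1]
    obtain ⟨F1, F2, F3, F4, F5⟩ := PF 1
    have F1' : 7 / 8 ≤ NN (U 1) := F1
    have hmi : mI (U 1) e1 ≤ -(15 / 16) * r := by
      rw [hU1]
      unfold UU
      have h21 : mI e2 e1 = 0 := by rw [mI_comm]; exact hE.orth
      simp only [mI_add_left, mI_smul_left, hE.norm1, h21]
      have h1 := (le_abs_self _).trans hb.a1
      have h2 : B * (ε * r) ≤ 1 / 16 * r := by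
        rw [← mul_assoc]; exact mul_le_mul_of_nonneg_right hBε hr.le
      linarith
    have hp5 : p5 (U 1) e1 ≤ B * (ε * r) := by
      refine le_trans ?_ hb.q1'
      unfold p5
      refine integral_mono_ae (integrable_pow_five_mul ?_ m1) (integrable_pow_five_mul mb m1) ?_
      · rw [hU1]; exact memLp_UU mb m1 m2 _ _
      have he1 : ∀ᵐ x, 0 ≤ fn e1 x := by
        filter_upwards [hE.rep1] with x hx
        rw [hx]
        by_cases h : x ∈ Ω
        · exact (hE.pos1 x h).le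
        · exact (hE.out1 x h).ge
      filter_upwards [fn_UU (e1 := e1) (e2 := e2) (b := b) (r * (-1)) (r * 0), he1]
        with x h1 h3
      rw [hU1, h1]
      refine mul_le_mul_of_nonneg_right ?_ h3
      have h4 : fn b x + r * (-1) * fn e1 x + r * 0 * fn e2 x ≤ fn b x := by
        have := mul_nonneg hr.le h3
        linarith
      exact (Odd.strictMono_pow (by decide : Odd 5)).monotone h4
    unfold gI
    rw [mI_smul_left, p5_smul_left]
    have hNi : NN (U 1) * (NN (U 1))⁻¹ = 1 := mul_inv_cancel₀ (Upos 1).ne'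
    have hN4 : 9 / 16 ≤ NN (U 1) ^ 4 := by
      have : NN (U 1) ^ 4 = (NN (U 1) ^ 2) ^ 2 := by ring
      rw [this]
      have h34 : 3 / 4 ≤ NN (U 1) ^ 2 := by nlinarith
      nlinarith
    have key : δ * ((NN (U 1))⁻¹ * mI (U 1) e1) + S0 * ((NN (U 1))⁻¹ ^ 5 * p5 (U 1) e1) =
        (NN (U 1))⁻¹ ^ 5 * (δ * NN (U 1) ^ 4 * mI (U 1) e1 + S0 * p5 (U 1) e1) := by
      have : (NN (U 1))⁻¹ = (NN (U 1))⁻¹ ^ 5 * NN (U 1) ^ 4 := by
        have hne := (Upos 1).ne'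
        field_simp
      calc _ = δ * (((NN (U 1))⁻¹ ^ 5 * NN (U 1) ^ 4) * mI (U 1) e1) +
            S0 * ((NN (U 1))⁻¹ ^ 5 * p5 (U 1) e1) := by rw [← this]
        _ = _ := by ring
    rw [key]
    refine mul_neg_of_pos_of_neg (pow_pos (hinv 1) 5) ?_
    have h1 : S0 * p5 (U 1) e1 ≤ S0 * (B * (ε * r)) := mul_le_mul_of_nonneg_left hp5 hS0.le
    have h2 : S0 * (B * (ε * r)) < δ / 16 * r := by
      have : S0 * (B * (ε * r)) = S0 * B * ε * r := by ring
      rw [this]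
      exact mul_lt_mul_of_pos_right hSB hr
    have h3 : δ * NN (U 1) ^ 4 * mI (U 1) e1 ≤ δ * NN (U 1) ^ 4 * (-(15 / 16) * r) :=
      mul_le_mul_of_nonneg_left hmi (by positivity)
    have h4 : δ * r * (9 / 16) ≤ δ * r * NN (U 1) ^ 4 :=
      mul_le_mul_of_nonneg_left hN4 (by positivity)
    have h5 : 0 < δ * r := by positivity
    nlinarith

end Pool.Agent.H92.BN
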