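import Pool.Agent.H92.BN.MG_Tools

/-!
# Module G (path): the bubble and its interaction with the eigenfunctions
-/

set_option autoImplicit false

namespace Pool.Agent.H92.BN
namespace MG

open MeasureTheory Set Filter Topology
open scoped ContDiff InnerProductSpace

/-- the facts about a bubble used for the path -/
structure Bub (Ω : Set E) (e1 e2 b : BB) (C B q κ : ℝ) : Prop where
  mem : b ∈ V Ω
  nn : ∀ᵐ x, 0 ≤ fn b x
  six : p6 b = 1
  di : dI b b ≤ S0 + C * κ ^ 2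
  mi : mI b b ≤ C * κ ^ 2
  a1 : |mI b e1| ≤ B * κ
  a1' : 0 ≤ mI b e1
  a2 : |mI b e2| ≤ B * κ
  q1 : 0 ≤ p5 b e1
  q1' : p5 b e1 ≤ B * κ
  q2 : q * κ ≤ p5 b e2
  q2' : |p5 b e2| ≤ B * κ

theorem abs_integral_mul_le {w g : E → ℝ} {x0 : E} {R M : ℝ} (hw : Integrable w volume)
    (h0 : ∀ x, 0 ≤ w x) (hs : ∀ x ∉ Metric.ball x0 R, w x = 0)
    (hg : ∀ x ∈ Metric.closedBall x0 R, |g x| ≤ M) :
    |∫ x, w x * g x| ≤ M * ∫ x, w x := by
  rw [← integral_const_mul]
  rw [← Real.norm_eq_abs]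
  refine norm_integral_le_of_norm_le (hw.const_mul M) (Eventually.of_forall fun x => ?_)
  rw [Real.norm_eq_abs, abs_mul, abs_of_nonneg (h0 x)]
  by_cases hx : x ∈ Metric.ball x0 R
  · rw [mul_comm]
    exact mul_le_mul_of_nonneg_right (hg x (Metric.ball_subset_closedBall hx)) (h0 x)
  · rw [hs x hx]; simp

theorem integrable_test_pow {Ω : Set E} {v : E → ℝ} (hv : IsTest Ω v) {n : ℕ} (hn : n ≠ 0) :
    Integrable (fun x => v x ^ n) volume := by
  refine (hv.smooth.continuous.pow n).integrable_of_hasCompactSupport ?_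
  exact hv.cpt.comp_left (g := fun y : ℝ => y ^ n) (by simp [hn])

theorem bubble_data (hB : BubbleStmt) {Ω : Set E} (hΩ : IsOpen Ω) {l1 l2 : ℝ} {e1 e2 : BB}
    {f1 f2 : E → ℝ} (hE : Eig Ω l1 l2 e1 e2 f1 f2) (m2 : MemLp (fn e2) 6 volume) :
    ∃ C B q : ℝ, 1 ≤ C ∧ 1 ≤ B ∧ 0 < q ∧ ∀ κ : ℝ, 0 < κ → κ ≤ 1 →
      ∃ b : BB, Bub Ω e1 e2 b C B q κ := by
  obtain ⟨x0, hx0, hpos⟩ := hE.pos2
  have hnhds : {x | x ∈ Ω ∧ f2 x0 / 2 < f2 x} ∈ 𝓝 x0 := by
    have h1 : ContinuousAt f2 x0 := hE.cont2.continuousAt (hΩ.mem_nhds hx0)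
    exact Filter.inter_mem (hΩ.mem_nhds hx0)
      (h1.eventually (lt_mem_nhds (by linarith : f2 x0 / 2 < f2 x0)))
  obtain ⟨R, hR, hsub⟩ := Metric.nhds_basis_closedBall.mem_iff.1 hnhds
  have hsubΩ : Metric.closedBall x0 R ⊆ Ω := fun x hx => (hsub hx).1
  obtain ⟨M1, hM1⟩ := (isCompact_closedBall x0 R).exists_bound_of_continuousOn
    (hE.cont1.mono hsubΩ)
  obtain ⟨M2, hM2⟩ := (isCompact_closedBall x0 R).exists_bound_of_continuousOn
    (hE.cont2.mono hsubΩ)
  set M : ℝ := max 1 (max M1 M2) with hM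
  have hM1' : ∀ x ∈ Metric.closedBall x0 R, |f1 x| ≤ M := fun x hx =>
    (hM1 x hx).trans ((le_max_left _ _).trans (le_max_right _ _))
  have hM2' : ∀ x ∈ Metric.closedBall x0 R, |f2 x| ≤ M := fun x hx =>
    (hM2 x hx).trans ((le_max_right _ _).trans (le_max_right _ _))
  have hM0 : 1 ≤ M := le_max_left _ _
  obtain ⟨C, hC, hv⟩ := hB x0 R hR
  have hC0 : 0 < C := by linarith
  refine ⟨C, M * C, f2 x0 / 2 / C, hC, by nlinarith, by positivity, fun κ hκ hκ1 => ?_⟩
  obtain ⟨v, hvt, hv0, h6, hgrad, h2, h1, h5, h5', -⟩ := hv κ hκ hκ1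
  have hvΩ : IsTest Ω v := hvt.mono (Metric.ball_subset_closedBall.trans hsubΩ)
  obtain ⟨b, hb⟩ := exists_rep hvt
  have hvz : ∀ x ∉ Metric.ball x0 R, v x = 0 := fun x hx =>
    image_eq_zero_of_notMem_tsupport fun h => hx (hvt.supp h)
  have iv : Integrable v volume := by simpa using integrable_test_pow hvt (n := 1) (by norm_num)
  have iv5 : Integrable (fun x => v x ^ 5) volume := integrable_test_pow hvt (by norm_num)
  have hbV : b ∈ V Ω := mem_V_of_rep hvΩ hb
  have E1 : mI b e1 = ∫ x, v x * f1 x := by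
    unfold mI
    refine integral_congr_ae ?_
    filter_upwards [hb.1, hE.rep1] with x hx1 hx2
    rw [hx1, hx2]
  have E2 : mI b e2 = ∫ x, v x * f2 x := by
    unfold mI
    refine integral_congr_ae ?_
    filter_upwards [hb.1, hE.rep2] with x hx1 hx2
    rw [hx1, hx2]
  have F1 : p5 b e1 = ∫ x, v x ^ 5 * f1 x := by
    unfold p5
    refine integral_congr_ae ?_
    filter_upwards [hb.1, hE.rep1] with x hx1 hx2
    rw [hx1, hx2]
  have F2 : p5 b e2 = ∫ x, v x ^ 5 * f2 x := by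
    unfold p5
    refine integral_congr_ae ?_
    filter_upwards [hb.1, hE.rep2] with x hx1 hx2
    rw [hx1, hx2]
  have hf1 : ∀ x, 0 ≤ f1 x := fun x => by
    by_cases hx : x ∈ Ω
    · exact (hE.pos1 x hx).le
    · exact (hE.out1 x hx).ge
  have hMv : M * (∫ x, v x) ≤ M * C * κ := by
    rw [mul_assoc]; exact mul_le_mul_of_nonneg_left h1 (by linarith)
  have hMv5 : M * (∫ x, v x ^ 5) ≤ M * C * κ := by
    rw [mul_assoc]; exact mul_le_mul_of_nonneg_left h5' (by linarith)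
  have bnd5 : ∀ x ∉ Metric.ball x0 R, v x ^ 5 = 0 := fun x hx => by rw [hvz x hx]; norm_num
  refine ⟨b, hbV, ?_, ?_, ?_, ?_, ?_, ?_, ?_, ?_, ?_, ?_, ?_⟩
  · filter_upwards [hb.1] with x hx
    rw [hx]; exact hv0 x
  · rw [← h6]
    unfold p6
    refine integral_congr_ae ?_
    filter_upwards [hb.1] with x hx
    rw [hx]
  · refine le_trans (le_of_eq ?_) hgrad
    unfold dI
    refine integral_congr_ae ?_
    filter_upwards [hb.2] with x hx
    rw [hx, real_inner_self_eq_norm_sq]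
  · refine le_trans (le_of_eq ?_) h2
    unfold mI
    refine integral_congr_ae ?_
    filter_upwards [hb.1] with x hx
    rw [hx, sq]
  · rw [E1]
    exact (abs_integral_mul_le iv hv0 hvz hM1').trans hMv
  · rw [E1]
    exact integral_nonneg fun x => mul_nonneg (hv0 x) (hf1 x)
  · rw [E2]
    exact (abs_integral_mul_le iv hv0 hvz hM2').trans hMv
  · rw [F1]
    exact integral_nonneg fun x => mul_nonneg (pow_nonneg (hv0 x) 5) (hf1 x)
  · rw [F1]
    exact (le_abs_self _).trans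
      ((abs_integral_mul_le iv5 (fun x => pow_nonneg (hv0 x) 5) bnd5 hM1').trans hMv5)
  · have i5 : Integrable (fun x => v x ^ 5 * f2 x) volume := by
      have hvm : MemLp v 6 volume := hvt.smooth.continuous.memLp_of_hasCompactSupport hvt.cpt
      refine (integrable_pow_five_mul hvm m2).congr ?_
      filter_upwards [hE.rep2] with x hx
      rw [hx]
    rw [F2]
    calc f2 x0 / 2 / C * κ = f2 x0 / 2 * (κ / C) := by ring
      _ ≤ f2 x0 / 2 * ∫ x, v x ^ 5 := mul_le_mul_of_nonneg_left h5 (by linarith)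
      _ = ∫ x, f2 x0 / 2 * v x ^ 5 := (integral_const_mul _ _).symm
      _ ≤ ∫ x, v x ^ 5 * f2 x := by
        refine integral_mono (iv5.const_mul _) i5 fun x => ?_
        simp only
        by_cases hx : x ∈ Metric.ball x0 R
        · rw [mul_comm]
          exact mul_le_mul_of_nonneg_left (hsub (Metric.ball_subset_closedBall hx)).2.le
            (pow_nonneg (hv0 x) 5)
        · rw [bnd5 x hx]; simp
  · rw [F2]
    exact (abs_integral_mul_le iv5 (fun x => pow_nonneg (hv0 x) 5) bnd5 hM2').trans hMv5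

end MG
end Pool.Agent.H92.BN
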