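import Pool.Agent.H92.BN.Iface

/-!
# Module G (path), toolbox: bilinearity, homogeneity, Hölder
-/

set_option autoImplicit false

namespace Pool.Agent.H92.BN
namespace MG

open MeasureTheory Set Filter Topology
open scoped ContDiff InnerProductSpace

theorem dI_eq (u v : BB) : dI u v = ⟪u.snd, v.snd⟫_ℝ := by
  rw [MeasureTheory.L2.inner_def]; rfl

theorem mI_eq (u v : BB) : mI u v = ⟪u.fst, v.fst⟫_ℝ := by
  rw [MeasureTheory.L2.inner_def]
  unfold mI fn
  refine integral_congr_ae (Eventually.of_forall fun x => ?_)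
  simp [mul_comm]

theorem dI_comm (u v : BB) : dI u v = dI v u := by
  rw [dI_eq, dI_eq, real_inner_comm]

theorem mI_comm (u v : BB) : mI u v = mI v u := by
  rw [mI_eq, mI_eq, real_inner_comm]

theorem dI_add_left (u v w : BB) : dI (u + v) w = dI u w + dI v w := by
  simp only [dI_eq, WithLp.add_snd, inner_add_left]

theorem mI_add_left (u v w : BB) : mI (u + v) w = mI u w + mI v w := by
  simp only [mI_eq, WithLp.add_fst, inner_add_left]

theorem dI_smul_left (c : ℝ) (v w : BB) : dI (c • v) w = c * dI v w := by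
  simp only [dI_eq, WithLp.smul_snd, real_inner_smul_left]

theorem mI_smul_left (c : ℝ) (v w : BB) : mI (c • v) w = c * mI v w := by
  simp only [mI_eq, WithLp.smul_fst, real_inner_smul_left]

theorem dI_add_right (u v w : BB) : dI u (v + w) = dI u v + dI u w := by
  rw [dI_comm, dI_add_left, dI_comm v, dI_comm w]

theorem mI_add_right (u v w : BB) : mI u (v + w) = mI u v + mI u w := by
  rw [mI_comm, mI_add_left, mI_comm v, mI_comm w]

theorem dI_smul_right (c : ℝ) (v w : BB) : dI v (c • w) = c * dI v w := by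
  rw [dI_comm, dI_smul_left, dI_comm w]

theorem mI_smul_right (c : ℝ) (v w : BB) : mI v (c • w) = c * mI v w := by
  rw [mI_comm, mI_smul_left, mI_comm w]

theorem mI_self_nonneg (u : BB) : 0 ≤ mI u u := by
  rw [mI_eq]; exact real_inner_self_nonneg

theorem dI_self_nonneg (u : BB) : 0 ≤ dI u u := by
  rw [dI_eq]; exact real_inner_self_nonneg

theorem V_le (Ω : Set E) : V Ω ≤ V univ := by
  refine Submodule.topologicalClosure_mono ?_
  rintro b ⟨φ, hφ, hr⟩
  exact ⟨φ, hφ.mono (subset_univ _), hr⟩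

theorem V0_le_V (Ω : Set E) : V0 Ω ≤ V Ω := Submodule.le_topologicalClosure _

theorem mem_V_of_rep {Ω : Set E} {φ : E → ℝ} {b : BB} (hφ : IsTest Ω φ) (hb : Rep b φ) :
    b ∈ V Ω := V0_le_V Ω ⟨φ, hφ, hb⟩

theorem continuous_gradient {φ : E → ℝ} (h : ContDiff ℝ ∞ φ) : Continuous (gradient φ) := by
  unfold gradient
  exact (LinearIsometryEquiv.continuous _).comp (h.continuous_fderiv (by simp))

theorem hasCompactSupport_gradient {φ : E → ℝ} (h : HasCompactSupport φ) :
    HasCompactSupport (gradient φ) := by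
  unfold gradient
  exact (h.fderiv ℝ).comp_left (map_zero _)

theorem exists_rep {Ω : Set E} {φ : E → ℝ} (hφ : IsTest Ω φ) : ∃ b : BB, Rep b φ := by
  have h1 : MemLp φ 2 (volume : Measure E) :=
    hφ.smooth.continuous.memLp_of_hasCompactSupport hφ.cpt
  have h2 : MemLp (gradient φ) 2 (volume : Measure E) :=
    (continuous_gradient hφ.smooth).memLp_of_hasCompactSupport (hasCompactSupport_gradient hφ.cpt)
  exact ⟨WithLp.toLp 2 (h1.toLp φ, h2.toLp _), h1.coeFn_toLp, h2.coeFn_toLp⟩

/-! ### L⁶ part -/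

theorem integrable_pow_six {f : E → ℝ} (hf : MemLp f 6 volume) :
    Integrable (fun x => f x ^ 6) volume := by
  have h := MemLp.integrable_norm_pow (p := 6) (by simpa using hf) (by norm_num)
  refine h.congr (Eventually.of_forall fun x => ?_)
  simp only [Real.norm_eq_abs]
  rw [← abs_pow, abs_of_nonneg (by positivity)]

theorem young6 (a b : ℝ) : a ^ 5 * b ≤ 5 / 6 * a ^ 6 + 1 / 6 * b ^ 6 := by
  nlinarith [mul_nonneg (sq_nonneg (a - b)) (add_nonneg (add_nonneg (sq_nonneg (2 * a ^ 2 + a * b))
    (sq_nonneg (a ^ 2))) (add_nonneg (sq_nonneg (a * b)) (sq_nonneg (a * b + b ^ 2))))]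

theorem abs_young6 (a b : ℝ) : |a ^ 5 * b| ≤ a ^ 6 + b ^ 6 := by
  have h1 := young6 a b
  have h2 := young6 a (-b)
  have h3 : 0 ≤ a ^ 6 := by positivity
  have h4 : 0 ≤ b ^ 6 := by positivity
  rw [abs_le]
  constructor <;> nlinarith

theorem integrable_pow_five_mul {f g : E → ℝ} (hf : MemLp f 6 volume) (hg : MemLp g 6 volume) :
    Integrable (fun x => f x ^ 5 * g x) volume := by
  refine ((integrable_pow_six hf).add (integrable_pow_six hg)).mono'
    ((hf.aestronglyMeasurable.pow 5).mul hg.aestronglyMeasurable)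
    (Eventually.of_forall fun x => ?_)
  simp only [Pi.add_apply, Real.norm_eq_abs]
  exact abs_young6 _ _

theorem p6_nonneg (u : BB) : 0 ≤ p6 u := integral_nonneg fun x => by positivity

theorem p6_eq_p5 (u : BB) : p5 u u = p6 u := by
  unfold p5 p6
  refine integral_congr_ae (Eventually.of_forall fun x => ?_)
  ring

theorem p6_smul (c : ℝ) (u : BB) : p6 (c • u) = c ^ 6 * p6 u := by
  unfold p6
  rw [← integral_const_mul]
  refine integral_congr_ae ?_
  filter_upwards [fn_smul c u] with x hx
  rw [hx]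
  simp only [Pi.smul_apply, smul_eq_mul]
  ring

theorem p5_smul_left (c : ℝ) (u v : BB) : p5 (c • u) v = c ^ 5 * p5 u v := by
  unfold p5
  rw [← integral_const_mul]
  refine integral_congr_ae ?_
  filter_upwards [fn_smul c u] with x hx
  rw [hx]
  simp only [Pi.smul_apply, smul_eq_mul]
  ring

theorem p5_smul_right (c : ℝ) (u v : BB) : p5 u (c • v) = c * p5 u v := by
  unfold p5
  rw [← integral_const_mul]
  refine integral_congr_ae ?_
  filter_upwards [fn_smul c v] with x hx
  rw [hx]
  simp only [Pi.smul_apply, smul_eq_mul]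
  ring

theorem p5_add_right {u v w : BB} (hu : MemLp (fn u) 6 volume) (hv : MemLp (fn v) 6 volume)
    (hw : MemLp (fn w) 6 volume) : p5 u (v + w) = p5 u v + p5 u w := by
  unfold p5
  rw [← integral_add (integrable_pow_five_mul hu hv) (integrable_pow_five_mul hu hw)]
  refine integral_congr_ae ?_
  filter_upwards [fn_add v w] with x hx
  rw [hx]
  simp only [Pi.add_apply]
  ring

theorem pp_smul {c : ℝ} (hc : 0 ≤ c) (u : BB) : pp (c • u) = c ^ 6 * pp u := by
  unfold pp
  rw [← integral_const_mul]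
  refine integral_congr_ae ?_
  filter_upwards [fn_smul c u] with x hx
  rw [hx]
  simp only [Pi.smul_apply, smul_eq_mul]
  rw [← mul_pow]
  congr 1
  rw [mul_max_of_nonneg _ _ hc, mul_zero]

/-- Hölder's inequality for `p5` -/
theorem p5_le {u v : BB} (hu : MemLp (fn u) 6 volume) (hv : MemLp (fn v) 6 volume)
    (h1 : p6 u = 1) : p5 u v ≤ (p6 v) ^ ((1 : ℝ) / 6) := by
  have key : ∀ N : ℝ, 0 < N → p6 v ≤ N ^ 6 → p5 u v ≤ N := by
    intro N hN hle
    have hI1 := integrable_pow_six hu
    have hI2 := integrable_pow_six hv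
    have h2 : N⁻¹ * p5 u v ≤ 5 / 6 * p6 u + 1 / 6 * (N⁻¹ ^ 6 * p6 v) := by
      unfold p5 p6
      rw [← integral_const_mul, ← integral_const_mul, ← integral_const_mul, ← integral_const_mul,
        ← integral_add (hI1.const_mul _) ((hI2.const_mul _).const_mul _)]
      refine integral_mono ((integrable_pow_five_mul hu hv).const_mul _)
        ((hI1.const_mul _).add ((hI2.const_mul _).const_mul _)) fun x => ?_
      have := young6 (fn u x) (N⁻¹ * fn v x)
      simp only
      calc N⁻¹ * (fn u x ^ 5 * fn v x) = fn u x ^ 5 * (N⁻¹ * fn v x) := by ring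
        _ ≤ _ := this
        _ = _ := by ring
    have h3 : N⁻¹ ^ 6 * p6 v ≤ 1 := by
      rw [inv_pow, inv_mul_le_iff₀ (by positivity)]
      linarith
    rw [h1] at h2
    have h4 : N⁻¹ * p5 u v ≤ 1 := by linarith
    rw [inv_mul_le_iff₀ hN] at h4
    linarith
  have h0 := p6_nonneg v
  rcases h0.eq_or_lt with h | h
  · rw [← h, Real.zero_rpow (by norm_num)]
    refine le_of_forall_pos_le_add fun ε hε => ?_
    rw [zero_add]
    exact key ε hε (by rw [← h]; positivity)
  · refine key _ (by positivity) ?_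
    rw [← Real.rpow_natCast, ← Real.rpow_mul h0]
    norm_num

end MG
end Pool.Agent.H92.BN
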