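import Pool.Agent.H92.BN.Api

/-!
# Linear algebra for the Palais–Smale alternative, weak limits along ultrafilters
-/

set_option autoImplicit false

namespace Pool.Agent.H92.BN

open MeasureTheory Set Filter Topology
open scoped ContDiff InnerProductSpace

section lin
variable {X : Type*} [NormedAddCommGroup X] [InnerProductSpace ℝ X]

/-- the alternative -/
theorem ps_alternative (p q : X) {G ε k : ℝ} (hG : 0 < G) (hε : 0 < ε) (hk : 0 < k)
    (hno : ¬ ∃ v : X, ‖v‖ ≤ k ∧ ⟪p, v⟫_ℝ ≤ -(ε / 2) * G ∧ |⟪q, v⟫_ℝ| ≤ G) :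
    ∃ σ : ℝ, |σ| ≤ ε / 2 ∧ ‖p - σ • q‖ ≤ ε * G / k := by
  by_cases hq : G / k ≤ ‖q‖
  · have hq0 : 0 < ‖q‖ := lt_of_lt_of_le (by positivity) hq
    set σ : ℝ := ⟪p, q⟫_ℝ / ‖q‖ ^ 2 with hσ
    have hpq : ⟪p, q⟫_ℝ = σ * ‖q‖ ^ 2 := by rw [hσ]; field_simp
    have hσ' : |σ| ≤ ε / 2 := by
      by_contra hcon
      push Not at hcon
      apply hno
      have hs : ∃ s : ℝ, |s| = 1 ∧ s * σ = |σ| := by
        rcases le_total 0 σ with h | h
        · exact ⟨1, by simp, by rw [abs_of_nonneg h]; ring⟩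
        · exact ⟨-1, by simp, by rw [abs_of_nonpos h]; ring⟩
      obtain ⟨s, hs1, hs2⟩ := hs
      refine ⟨-(s * (G / ‖q‖ ^ 2)) • q, ?_, ?_, ?_⟩
      · rw [norm_smul, norm_neg, Real.norm_eq_abs, abs_mul, hs1, one_mul,
          abs_of_nonneg (by positivity)]
        have : G / ‖q‖ ^ 2 * ‖q‖ = G / ‖q‖ := by field_simp
        rw [this, div_le_iff₀ hq0]
        rw [div_le_iff₀ hk] at hq
        linarith
      · rw [real_inner_smul_right, hpq]
        have : -(s * (G / ‖q‖ ^ 2)) * (σ * ‖q‖ ^ 2) = - (s * σ) * G := by field_simp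
        rw [this, hs2]
        nlinarith
      · rw [real_inner_smul_right, real_inner_self_eq_norm_sq]
        have : -(s * (G / ‖q‖ ^ 2)) * ‖q‖ ^ 2 = - (s * G) := by field_simp
        rw [this, abs_neg, abs_mul, hs1, one_mul, abs_of_nonneg hG.le]
    refine ⟨σ, hσ', ?_⟩
    by_contra hcon
    push Not at hcon
    set r := p - σ • q with hr
    have hr0 : 0 < ‖r‖ := lt_trans (by positivity) hcon
    have hqr : ⟪q, r⟫_ℝ = 0 := by
      rw [hr, inner_sub_right, real_inner_smul_right, real_inner_self_eq_norm_sq,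
        real_inner_comm, hpq]; ring
    have hpr : ⟪p, r⟫_ℝ = ‖r‖ ^ 2 := by
      have : p = r + σ • q := by rw [hr]; abel
      rw [this, inner_add_left, real_inner_smul_left, hqr, real_inner_self_eq_norm_sq]; ring
    apply hno
    refine ⟨-(ε * G / (2 * ‖r‖ ^ 2)) • r, ?_, ?_, ?_⟩
    · rw [norm_smul, norm_neg, Real.norm_eq_abs, abs_of_nonneg (by positivity)]
      have : ε * G / (2 * ‖r‖ ^ 2) * ‖r‖ = ε * G / (2 * ‖r‖) := by field_simp
      rw [this, div_le_iff₀ (by positivity)]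
      rw [div_lt_iff₀ hk] at hcon
      nlinarith
    · rw [real_inner_smul_right, hpr]
      apply le_of_eq
      field_simp
    · rw [real_inner_smul_right, hqr, mul_zero, abs_zero]
      exact hG.le
  · push Not at hq
    refine ⟨0, by simp; positivity, ?_⟩
    rw [zero_smul, sub_zero]
    by_contra hcon
    push Not at hcon
    have hp0 : 0 < ‖p‖ := lt_trans (by positivity) hcon
    apply hno
    have hcon' := hcon
    rw [div_lt_iff₀ hk] at hcon'
    refine ⟨-(ε * G / (2 * ‖p‖ ^ 2)) • p, ?_, ?_, ?_⟩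
    · rw [norm_smul, norm_neg, Real.norm_eq_abs, abs_of_nonneg (by positivity)]
      have : ε * G / (2 * ‖p‖ ^ 2) * ‖p‖ = ε * G / (2 * ‖p‖) := by field_simp
      rw [this, div_le_iff₀ (by positivity)]
      nlinarith
    · rw [real_inner_smul_right, real_inner_self_eq_norm_sq]
      apply le_of_eq
      field_simp
    · rw [real_inner_smul_right, abs_mul, abs_neg, abs_of_nonneg (by positivity)]
      have h1 : |⟪q, p⟫_ℝ| ≤ ‖q‖ * ‖p‖ := abs_real_inner_le_norm _ _
      have h2 : ε * G / (2 * ‖p‖ ^ 2) * |⟪q, p⟫_ℝ| ≤ ε * G / (2 * ‖p‖ ^ 2) * (‖q‖ * ‖p‖) := by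
        gcongr
      refine h2.trans ?_
      have h3 : ε * G / (2 * ‖p‖ ^ 2) * (‖q‖ * ‖p‖) = (ε * ‖q‖ / (2 * ‖p‖)) * G := by
        field_simp
      rw [h3]
      have h4 : ε * ‖q‖ / (2 * ‖p‖) ≤ 1 := by
        rw [div_le_one (by positivity)]
        have h5 : ε * ‖q‖ ≤ ε * (G / k) := by gcongr
        have h6 : ε * (G / k) = ε * G / k := by ring
        linarith
      nlinarith

end lin

section weak
variable {X : Type*} [NormedAddCommGroup X] [InnerProductSpace ℝ X] [CompleteSpace X]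

/-- weak limits along ultrafilters -/
theorem exists_weak_limit {ι : Type*} (𝒰 : Ultrafilter ι) (x : ι → X) (C : ℝ)
    (hx : ∀ i, ‖x i‖ ≤ C) :
    ∃ u : X, ∀ ℓ : X →L[ℝ] ℝ, Tendsto (fun i => ℓ (x i)) 𝒰 (𝓝 (ℓ u)) := by
  have hC : 0 ≤ C := by
    obtain ⟨i⟩ : Nonempty ι := 𝒰.nonempty_of_neBot
    exact (norm_nonneg _).trans (hx i)
  have h1 : ∀ η : X, ∃ a : ℝ, |a| ≤ C * ‖η‖ ∧ Tendsto (fun i => ⟪x i, η⟫_ℝ) 𝒰 (𝓝 a) := by
    intro η
    have hc : IsCompact (Icc (-(C * ‖η‖)) (C * ‖η‖)) := isCompact_Icc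
    have hm : ∀ i, ⟪x i, η⟫_ℝ ∈ Icc (-(C * ‖η‖)) (C * ‖η‖) := by
      intro i
      have h2 : |⟪x i, η⟫_ℝ| ≤ C * ‖η‖ :=
        (abs_real_inner_le_norm _ _).trans (by gcongr; exact hx i)
      exact abs_le.1 h2
    obtain ⟨a, ha, hat⟩ := hc.ultrafilter_le_nhds (𝒰.map fun i => ⟪x i, η⟫_ℝ) (by
      rw [le_principal_iff, Ultrafilter.coe_map, mem_map]
      exact univ_mem' hm)
    exact ⟨a, abs_le.2 ha, hat⟩
  choose a ha hat using h1
  let A : X →ₗ[ℝ] ℝ :=
    { toFun := a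
      map_add' := by
        intro y z
        refine tendsto_nhds_unique (hat (y + z)) ?_
        have := (hat y).add (hat z)
        simpa only [inner_add_right] using this
      map_smul' := by
        intro c y
        refine tendsto_nhds_unique (hat (c • y)) ?_
        have := (hat y).const_mul c
        simp only [real_inner_smul_right]
        exact this }
  let A' : X →L[ℝ] ℝ := A.mkContinuous C (fun η => ha η)
  refine ⟨(InnerProductSpace.toDual ℝ X).symm A', ?_⟩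
  intro ℓ
  set y := (InnerProductSpace.toDual ℝ X).symm ℓ with hy
  have e1 : ∀ z, ℓ z = ⟪z, y⟫_ℝ := by
    intro z
    rw [real_inner_comm, hy, InnerProductSpace.toDual_symm_apply]
  have e2 : ℓ ((InnerProductSpace.toDual ℝ X).symm A') = a y := by
    rw [e1, InnerProductSpace.toDual_symm_apply]
    rfl
  rw [e2]
  simp only [e1]
  exact hat y

end weak

end Pool.Agent.H92.BN
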