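import Pool.Agent.H92.BN.MH_Cross
import Pool.Agent.H92.BN.MH_Lin

/-!
# Palais–Smale property in quantitative form
-/

set_option autoImplicit false

namespace Pool.Agent.H92.BN

open MeasureTheory Set Filter Topology
open scoped ContDiff InnerProductSpace

namespace MH

/-- `η ↦ dI u η` on `VS Ω` -/
noncomputable def dL (Ω : Set E) (u : BB) : VS Ω →L[ℝ] ℝ :=
  LinearMap.mkContinuous
    { toFun := fun η => dI u η.v
      map_add' := fun a b => by rw [VS.v_add, dI_add_right]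
      map_smul' := fun c a => by rw [VS.v_smul, dI_smul_right]; rfl } ‖u‖ (fun η => by
        show ‖dI u η.v‖ ≤ ‖u‖ * ‖η‖
        rw [VS.norm_def]; exact abs_dI_le_norm _ _)

/-- `η ↦ mI u η` on `VS Ω` -/
noncomputable def mL (Ω : Set E) (u : BB) : VS Ω →L[ℝ] ℝ :=
  LinearMap.mkContinuous
    { toFun := fun η => mI u η.v
      map_add' := fun a b => by rw [VS.v_add, mI_add_right]
      map_smul' := fun c a => by rw [VS.v_smul, mI_smul_right]; rfl } ‖u‖ (fun η => by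
        show ‖mI u η.v‖ ≤ ‖u‖ * ‖η‖
        rw [VS.norm_def]; exact abs_mI_le_norm _ _)

theorem exists_p5L (hS : SobVStmt) (Ω : Set E) {u : BB} (hu : u ∈ V univ) :
    ∃ L : VS Ω →L[ℝ] ℝ, ∀ η : VS Ω, L η = p5 u η.v := by
  have hm : ∀ η : VS Ω, η.v ∈ V univ := fun η => V_le_univ Ω η.mem
  refine ⟨LinearMap.mkContinuous
    { toFun := fun η => p5 u η.v
      map_add' := fun a b => by rw [VS.v_add, C5.p5_add_right hS hu (hm a) (hm b)]
      map_smul' := fun c a => by rw [VS.v_smul, C5.p5_smul_right]; rfl }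
      (C5.nn u ^ 5 * (√S0)⁻¹) (fun η => ?_), fun η => rfl⟩
  show ‖p5 u η.v‖ ≤ _
  rw [VS.norm_def, Real.norm_eq_abs, mul_assoc]
  have h1 := C5.nn_le_norm hS (hm η)
  have h2 := C5.nn_nonneg u
  refine (C5.abs_p5_le hS hu (hm η)).trans (by gcongr)

/-- from the lack of a good direction to an almost-critical point -/
theorem almost_crit (hS : SobVStmt) {Ω : Set E} {u : BB} (hu : u ∈ V Ω)
    (th : ℝ) {ε k : ℝ} (hε : 0 < ε) (hk : 0 < k) (hG : 0 < mI u u)
    (hno : ¬ ∃ v ∈ V Ω, ‖v‖ ≤ k ∧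
            dI u v - S0 * p5 u v - th * mI u v ≤ - (ε / 2) * mI u u ∧
            |mI u v - mI u u * p5 u v| ≤ mI u u) :
    ∃ σ : ℝ, |σ| ≤ ε / 2 ∧ ∀ η ∈ V Ω,
      |dI u η - (th + σ) * mI u η - (S0 - σ * mI u u) * p5 u η| ≤ ε * mI u u / k * ‖η‖ := by
  obtain ⟨L5, hL5⟩ := exists_p5L hS Ω (V_le_univ Ω hu)
  let A : VS Ω →L[ℝ] ℝ := dL Ω u - S0 • L5 - th • mL Ω u
  let B : VS Ω →L[ℝ] ℝ := mL Ω u - mI u u • L5
  have hA : ∀ η : VS Ω, A η = dI u η.v - S0 * p5 u η.v - th * mI u η.v := fun η => by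
    show dI u η.v - S0 * L5 η - th * mI u η.v = _
    rw [hL5]
  have hB : ∀ η : VS Ω, B η = mI u η.v - mI u u * p5 u η.v := fun η => by
    show mI u η.v - mI u u * L5 η = _
    rw [hL5]
  set p := (InnerProductSpace.toDual ℝ (VS Ω)).symm A with hp
  set q := (InnerProductSpace.toDual ℝ (VS Ω)).symm B with hq
  have hpA : ∀ η, ⟪p, η⟫_ℝ = A η := fun η => InnerProductSpace.toDual_symm_apply
  have hqB : ∀ η, ⟪q, η⟫_ℝ = B η := fun η => InnerProductSpace.toDual_symm_apply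
  obtain ⟨σ, hσ, hr⟩ := ps_alternative p q hG hε hk (by
    rintro ⟨v, hv1, hv2, hv3⟩
    apply hno
    refine ⟨v.v, v.mem, hv1, ?_, ?_⟩
    · rw [← hA, ← hpA]; exact hv2
    · rw [← hB, ← hqB]; exact hv3)
  refine ⟨σ, hσ, fun η hη => ?_⟩
  have h1 : dI u η - (th + σ) * mI u η - (S0 - σ * mI u u) * p5 u η =
      ⟪p - σ • q, VS.mk η hη⟫_ℝ := by
    rw [inner_sub_left, real_inner_smul_left, hpA, hqB, hA, hB, VS.v_mk]
    ring
  rw [h1]
  refine (abs_real_inner_le_norm _ _).trans ?_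
  have : ‖VS.mk η hη‖ = ‖η‖ := rfl
  rw [this]
  gcongr

/-- small weak limits are impossible -/
theorem no_small (hS : SobVStmt) {Ω : Set E} {l1 l2 : ℝ} {e1 e2 : BB} {f1 f2 : E → ℝ}
    (hE : Eig Ω l1 l2 e1 e2 f1 f2) {u : BB} (hu : u ∈ V Ω) {lam om : ℝ}
    (heq : ∀ η ∈ V Ω, dI u η = lam * mI u η + om * p5 u η) {d1 d2 : ℝ} (hd1 : 0 < d1)
    (hd2 : 0 < d2) (h1 : l1 + d1 / 2 ≤ lam) (h2 : lam ≤ l2 - d2 / 2) (hom : |om| ≤ 2 * S0) :
    mI u u ≤ ((4 * S0 * C5.nn e1 / d1) ^ 2 + 16 * S0 * l2 / d2 ^ 2) * C5.nn u ^ 10 := by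
  have hS0 := hS.1
  have huU := V_le_univ Ω hu
  have he1U := V_le_univ Ω hE.mem1
  have hn := C5.nn_nonneg u
  have hne := C5.nn_nonneg e1
  set t := mI e1 u with ht
  have hl2 : 0 < l2 := hE.pos.trans hE.gap
  have hlam : 0 < lam := by linarith [hE.pos]
  -- test with e1
  have a1 : (l1 - lam) * t = om * p5 u e1 := by
    have b1 := heq e1 hE.mem1
    have b2 := hE.eq1 u hu
    rw [dI_comm, b2, mI_comm u e1] at b1
    linarith
  have a2 : |t| ≤ 4 * S0 * C5.nn e1 / d1 * C5.nn u ^ 5 := by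
    have b1 : (d1 / 2) * |t| ≤ 2 * S0 * (C5.nn u ^ 5 * C5.nn e1) := by
      have c1 : |l1 - lam| * |t| = |om| * |p5 u e1| := by
        rw [← abs_mul, a1, abs_mul]
      have c2 : d1 / 2 ≤ |l1 - lam| := by
        rw [abs_of_nonpos (by linarith)]; linarith
      have c3 := C5.abs_p5_le hS huU he1U
      calc (d1 / 2) * |t| ≤ |l1 - lam| * |t| := by gcongr
        _ = |om| * |p5 u e1| := c1
        _ ≤ 2 * S0 * (C5.nn u ^ 5 * C5.nn e1) := by gcongr
    have b2 : |t| ≤ 2 * S0 * (C5.nn u ^ 5 * C5.nn e1) / (d1 / 2) := by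
      rw [le_div_iff₀ (by positivity)]; linarith
    refine b2.trans (le_of_eq ?_)
    field_simp
    ring
  -- orthogonal part
  set w := u - t • e1 with hw
  have hwV : w ∈ V Ω := (V Ω).sub_mem hu ((V Ω).smul_mem _ hE.mem1)
  have hwU := V_le_univ Ω hwV
  have hwo : mI e1 w = 0 := by
    rw [hw, mI_sub_right, mI_smul_right, hE.norm1, ← ht]; ring
  have hdw : dI e1 w = 0 := by rw [hE.eq1 w hwV, hwo, mul_zero]
  have e1' : dI u w = dI w w := by
    have : u = w + t • e1 := by rw [hw]; abel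
    conv_lhs => rw [this]
    rw [dI_add_left, dI_smul_left, hdw, mul_zero, add_zero]
  have e2' : mI u w = mI w w := by
    have : u = w + t • e1 := by rw [hw]; abel
    conv_lhs => rw [this]
    rw [mI_add_left, mI_smul_left, hwo, mul_zero, add_zero]
  have e3 : mI u u = t ^ 2 + mI w w := by
    have : u = w + t • e1 := by rw [hw]; abel
    conv_lhs => rw [this]
    rw [mI_add_left, mI_add_right, mI_add_right, mI_smul_left, mI_smul_left, mI_smul_right,
      mI_smul_right, hE.norm1, hwo, mI_comm w e1, hwo]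
    ring
  have b3 : dI w w - lam * mI w w = om * p5 u w := by
    have := heq w hwV
    rw [e1', e2'] at this
    linarith
  have b4 := hE.ray2 w hwV hwo
  set X := √(dI w w) with hX
  have hX0 : 0 ≤ X := Real.sqrt_nonneg _
  have hXX : X ^ 2 = dI w w := Real.sq_sqrt (dI_self_nonneg w)
  have b5 : C5.nn w ≤ X / √S0 := by
    have := C5.nn_le hS hwU
    rwa [Real.sqrt_div (dI_self_nonneg w)] at this
  have hsS : 0 < √S0 := Real.sqrt_pos.2 hS0
  have b6 : (d2 / (2 * l2)) * X ^ 2 ≤ 2 * S0 * (C5.nn u ^ 5 * (X / √S0)) := by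
    have c1 : om * p5 u w ≤ 2 * S0 * (C5.nn u ^ 5 * (X / √S0)) := by
      refine (le_abs_self _).trans ?_
      rw [abs_mul]
      have := C5.abs_p5_le hS huU hwU
      have c2 : |p5 u w| ≤ C5.nn u ^ 5 * (X / √S0) := this.trans (by gcongr)
      gcongr
    have c2 : lam * mI w w ≤ (lam / l2) * dI w w := by
      have : (lam / l2) * (l2 * mI w w) ≤ (lam / l2) * dI w w := by gcongr
      have e : (lam / l2) * (l2 * mI w w) = lam * mI w w := by field_simp
      linarith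
    have c3 : (d2 / (2 * l2)) * X ^ 2 ≤ dI w w - (lam / l2) * dI w w := by
      rw [hXX]
      have c4 : d2 / (2 * l2) ≤ 1 - lam / l2 := by
        rw [div_le_iff₀ (by positivity)]
        have : (1 - lam / l2) * (2 * l2) = 2 * (l2 - lam) := by field_simp
        rw [this]; linarith
      nlinarith [dI_self_nonneg w]
    linarith
  have b7 : X ≤ (4 * S0 * l2 / (d2 * √S0)) * C5.nn u ^ 5 := by
    rcases hX0.eq_or_lt with h | h
    · rw [← h]; positivity
    · have c1 : (d2 / (2 * l2)) * X ≤ 2 * S0 * (C5.nn u ^ 5 / √S0) := by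
        have : (d2 / (2 * l2)) * X * X ≤ 2 * S0 * (C5.nn u ^ 5 / √S0) * X := by
          have e : 2 * S0 * (C5.nn u ^ 5 * (X / √S0)) = 2 * S0 * (C5.nn u ^ 5 / √S0) * X := by ring
          nlinarith
        exact le_of_mul_le_mul_right this h
      have c2 : X ≤ 2 * S0 * (C5.nn u ^ 5 / √S0) / (d2 / (2 * l2)) := by
        rw [le_div_iff₀ (by positivity)]; linarith
      refine c2.trans (le_of_eq ?_)
      field_simp
      ring
  have b8 : mI w w ≤ 16 * S0 * l2 / d2 ^ 2 * C5.nn u ^ 10 := by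
    have c1 : l2 * mI w w ≤ (4 * S0 * l2 / (d2 * √S0)) ^ 2 * C5.nn u ^ 10 := by
      refine b4.trans ?_
      rw [← hXX]
      calc X ^ 2 ≤ ((4 * S0 * l2 / (d2 * √S0)) * C5.nn u ^ 5) ^ 2 := by gcongr
        _ = _ := by ring
    have c2 : (4 * S0 * l2 / (d2 * √S0)) ^ 2 = l2 * (16 * S0 * l2 / d2 ^ 2) := by
      rw [div_pow, mul_pow d2, Real.sq_sqrt hS0.le]
      field_simp
      ring
    rw [c2, mul_assoc] at c1
    exact le_of_mul_le_mul_left c1 hl2
  have b9 : t ^ 2 ≤ (4 * S0 * C5.nn e1 / d1) ^ 2 * C5.nn u ^ 10 := by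
    rw [← sq_abs t]
    calc |t| ^ 2 ≤ (4 * S0 * C5.nn e1 / d1 * C5.nn u ^ 5) ^ 2 := by gcongr
      _ = _ := by ring
  rw [e3]
  nlinarith

/-- `w ↦ ⟪w.fst, y⟫` on `VS Ω` -/
noncomputable def fL (Ω : Set E) (y : Lp ℝ 2 (volume : Measure E)) : VS Ω →L[ℝ] ℝ :=
  LinearMap.mkContinuous
    { toFun := fun η => ⟪η.v.fst, y⟫_ℝ
      map_add' := fun a b => by rw [VS.v_add, WithLp.add_fst, inner_add_left]
      map_smul' := fun c a => by
        rw [VS.v_smul, WithLp.smul_fst, real_inner_smul_left]; rfl } ‖y‖ (fun η => by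
        show ‖⟪η.v.fst, y⟫_ℝ‖ ≤ ‖y‖ * ‖η‖
        rw [VS.norm_def, mul_comm, Real.norm_eq_abs]
        refine (abs_real_inner_le_norm _ _).trans ?_
        gcongr
        exact WithLp.norm_fst_le _ _)

theorem p5_self (u : BB) : p5 u u = p6 u := by
  unfold p5 p6
  refine integral_congr_ae (Eventually.of_forall fun x => ?_)
  simp only
  ring

/-- real inequality -/
theorem real_ineq {y x : ℝ} (hy : 0 < y) (hy1 : y ≤ 1) (hx : 0 ≤ x) (h : 1 ≤ (1 + x) * y ^ 2) :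
    1 - y ^ 3 ≤ 3 / 2 * x := by
  have h1 : 1 - y ^ 2 ≤ x := by nlinarith
  have h2 : 1 - y ^ 3 ≤ 3 / 2 * (1 - y ^ 2) := by
    have h3 : 3 / 2 * (1 - y ^ 2) - (1 - y ^ 3) = (1 - y) * (1 - y) * (2 * y + 1) / 2 := by ring
    have h4 : 0 ≤ (1 - y) * (1 - y) * (2 * y + 1) / 2 := by
      have := mul_self_nonneg (1 - y)
      positivity
    linarith
  linarith

/-- final numeric contradiction -/
theorem final_num {n c K m G : ℝ} (hn : 0 ≤ n) (hc : 0 ≤ c) (hK : 0 ≤ K) (hG : 0 < G)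
    (hGm : G ≤ m) (h1 : n ^ 6 ≤ c * G) (h2 : G ≤ K * n ^ 10)
    (hm : m ≤ 1 / (1 + (c * K) ^ 3 * c ^ 2)) : False := by
  have hn0 : 0 < n := by
    rcases hn.eq_or_lt with h | h
    · rw [← h] at h2; norm_num at h2; linarith
    · exact h
  have hm0 : 0 < m := hG.trans_le hGm
  have a1 : 1 ≤ c * K * n ^ 4 := by
    have b1 : n ^ 6 ≤ (c * K * n ^ 4) * n ^ 6 := by
      calc n ^ 6 ≤ c * G := h1
        _ ≤ c * (K * n ^ 10) := by gcongr
        _ = _ := by ring
    have b2 : 0 < n ^ 6 := by positivity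
    by_contra hcon
    push Not at hcon
    nlinarith
  have a2 : 1 ≤ (c * K) ^ 3 * n ^ 12 := by
    have := one_le_pow₀ a1 (n := 3)
    calc 1 ≤ (c * K * n ^ 4) ^ 3 := this
      _ = _ := by ring
  have a3 : n ^ 12 ≤ c ^ 2 * m ^ 2 := by
    have b1 : n ^ 6 ≤ c * m := h1.trans (by gcongr)
    calc n ^ 12 = (n ^ 6) ^ 2 := by ring
      _ ≤ (c * m) ^ 2 := by gcongr
      _ = _ := by ring
  have a4 : 1 ≤ (c * K) ^ 3 * c ^ 2 * m ^ 2 := by
    calc 1 ≤ (c * K) ^ 3 * n ^ 12 := a2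
      _ ≤ (c * K) ^ 3 * (c ^ 2 * m ^ 2) := by gcongr
      _ = _ := by ring
  set D := (c * K) ^ 3 * c ^ 2 with hD
  have hD0 : 0 ≤ D := by positivity
  have hm' : m * (1 + D) ≤ 1 := by rwa [le_div_iff₀ (by positivity)] at hm
  have hm1 : m ≤ 1 := by nlinarith
  have : D * m ^ 2 ≤ D * m := by
    have : m ^ 2 ≤ m := by nlinarith
    gcongr
  nlinarith

end MH

/-- the Palais–Smale property -/
theorem ps (hS : SobVStmt) (hR : RellichStmt) : PSStmt := by
  intro Ω hΩ hb l1 l2 e1 e2 f1 f2 hE a b ha hab hbl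
  have hS0 := hS.1
  have hl1 := hE.pos
  have hl2 : 0 < l2 := hE.pos.trans hE.gap
  set d1 := a - l1 with hd1
  set d2 := l2 - b with hd2
  have hd1p : 0 < d1 := by rw [hd1]; linarith
  have hd2p : 0 < d2 := by rw [hd2]; linarith
  set ε0 := min d1 d2 with hε0
  have hε0p : 0 < ε0 := lt_min hd1p hd2p
  set K := (4 * S0 * C5.nn e1 / d1) ^ 2 + 16 * S0 * l2 / d2 ^ 2 with hK
  have hK0 : 0 ≤ K := by positivity
  set c := 3 / 4 * ε0 / S0 with hc
  have hc0 : 0 ≤ c := by positivity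
  set m1 := min (S0 / ε0) (1 / (1 + (c * K) ^ 3 * c ^ 2)) with hm1
  have hm1p : 0 < m1 := lt_min (by positivity) (by positivity)
  refine ⟨ε0, hε0p, m1, hm1p, ?_⟩
  intro ε hε hεε ma mb hma hmb hno
  by_contra hcon
  push Not at hcon
  have hk : ∀ k : ℕ, ∃ u : BB, ∃ th σ : ℝ, u ∈ V Ω ∧ p6 u = 1 ∧ ma ≤ mI u u ∧ mI u u ≤ mb ∧
      a ≤ th ∧ th ≤ b ∧ dI u u = S0 + th * mI u u ∧ |σ| ≤ ε / 2 ∧ ∀ η ∈ V Ω,
      |dI u η - (th + σ) * mI u η - (S0 - σ * mI u u) * p5 u η| ≤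
        ε * mI u u / ((k : ℝ) + 1) * ‖η‖ := by
    intro k
    obtain ⟨u, hu, h6, h1, h2, th, h3, h4, h5, h7⟩ := hcon ((k : ℝ) + 1) (by positivity)
    obtain ⟨σ, hσ1, hσ2⟩ := MH.almost_crit hS hu th hε (k := (k : ℝ) + 1) (by positivity)
      (hma.trans_le h1) (by
        rintro ⟨v, hv, hv1, hv2, hv3⟩
        exact absurd hv3 (not_le.2 (h7 v hv hv1 hv2)))
    exact ⟨u, th, σ, hu, h6, h1, h2, h3, h4, h5, hσ1, hσ2⟩
  choose u th σ hu h6 hG1 hG2 hth1 hth2 hd hσ heq using hk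
  have huU : ∀ k, u k ∈ V univ := fun k => V_le_univ Ω (hu k)
  set 𝒰 : Ultrafilter ℕ := hyperfilter ℕ with h𝒰
  have h𝒰top : (𝒰 : Filter ℕ) ≤ atTop := Nat.hyperfilter_le_atTop
  have hmb0 : 0 ≤ mb := hma.le.trans ((hG1 0).trans (hG2 0))
  have hb0 : 0 ≤ b := by linarith
  -- bound of the norm
  set R := √(mb + S0 + b * mb) with hRdef
  have hnorm : ∀ k, ‖u k‖ ≤ R := by
    intro k
    apply Real.le_sqrt_of_sq_le
    rw [norm_sq_eq, hd k]
    have h1 : th k * mI (u k) (u k) ≤ b * mb := by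
      have := mI_self_nonneg (u k)
      have := hth2 k
      have := hG2 k
      gcongr
    linarith [hG2 k]
  obtain ⟨w, hw⟩ := exists_weak_limit 𝒰 (fun k => VS.mk (Ω := Ω) (u k) (hu k)) R (fun k => by
    rw [VS.norm_def, VS.v_mk]; exact hnorm k)
  have hwV : w.v ∈ V Ω := w.mem
  have hwU : w.v ∈ V univ := V_le_univ Ω hwV
  -- strong convergence in L²
  obtain ⟨KK, hKK, hKK2⟩ := hR Ω hb R
  obtain ⟨z, hz, hzt⟩ := hKK.ultrafilter_le_nhds (𝒰.map fun k => (u k).fst) (by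
    rw [le_principal_iff, Ultrafilter.coe_map, mem_map]
    exact univ_mem' fun k => hKK2 _ (hu k) (hnorm k))
  have hzt' : Tendsto (fun k => (u k).fst) 𝒰 (𝓝 z) := hzt
  have hzw : z = w.v.fst := by
    have h1 : ∀ y, ⟪z, y⟫_ℝ = ⟪w.v.fst, y⟫_ℝ := by
      intro y
      refine tendsto_nhds_unique (hzt'.inner tendsto_const_nhds) ?_
      exact hw (MH.fL Ω y)
    have h2 : ⟪z - w.v.fst, z - w.v.fst⟫_ℝ = 0 := by
      rw [inner_sub_left, h1]; ring
    exact sub_eq_zero.1 (inner_self_eq_zero.1 h2)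
  rw [hzw] at hzt'
  have hm0 : Tendsto (fun k => mI (u k - w.v) (u k - w.v)) 𝒰 (𝓝 0) := by
    have h1 : Tendsto (fun k => ‖(u k).fst - w.v.fst‖ ^ 2) 𝒰 (𝓝 (‖w.v.fst - w.v.fst‖ ^ 2)) :=
      ((hzt'.sub tendsto_const_nhds).norm).pow 2
    rw [sub_self, norm_zero] at h1
    have h2 : ∀ k, mI (u k - w.v) (u k - w.v) = ‖(u k).fst - w.v.fst‖ ^ 2 := fun k => by
      rw [mI_self_eq, WithLp.sub_fst]
    simp only [h2]
    simpa using h1
  set G := mI w.v w.v with hG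
  have hGt : Tendsto (fun k => mI (u k) (u k)) 𝒰 (𝓝 G) := by
    simp only [hG, mI_self_eq]
    exact (hzt'.norm).pow 2
  have hGma : ma ≤ G := ge_of_tendsto' hGt hG1
  have hGmb : G ≤ mb := le_of_tendsto' hGt hG2
  have hG0 : 0 < G := hma.trans_le hGma
  obtain ⟨t, ht, htt⟩ := (isCompact_Icc (a := a) (b := b)).ultrafilter_le_nhds
    (𝒰.map fun k => th k) (by
    rw [le_principal_iff, Ultrafilter.coe_map, mem_map]
    exact univ_mem' fun k => ⟨hth1 k, hth2 k⟩)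
  have htt' : Tendsto (fun k => th k) 𝒰 (𝓝 t) := htt
  obtain ⟨s, hs, hst⟩ := (isCompact_Icc (a := -(ε / 2)) (b := ε / 2)).ultrafilter_le_nhds
    (𝒰.map fun k => σ k) (by
    rw [le_principal_iff, Ultrafilter.coe_map, mem_map]
    exact univ_mem' fun k => abs_le.1 (hσ k))
  have hst' : Tendsto (fun k => σ k) 𝒰 (𝓝 s) := hst
  have hs' : |s| ≤ ε / 2 := abs_le.2 hs
  -- nn bounded
  have hnn : ∀ k, C5.nn (u k) ≤ 1 := by
    intro k
    have h1 : C5.nn (u k) ^ 6 = 1 := by rw [← C5.p6_eq]; exact h6 k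
    by_contra hcon
    push Not at hcon
    have := one_lt_pow₀ hcon (n := 6) (by norm_num)
    linarith
  -- limit equation
  have hdt : ∀ η ∈ V Ω, Tendsto (fun k => dI (u k) η) 𝒰 (𝓝 (dI w.v η)) := by
    intro η hη
    have := hw (MH.dL Ω η)
    simp only [dI_comm _ η]
    exact this
  have hmt : ∀ η ∈ V Ω, Tendsto (fun k => mI (u k) η) 𝒰 (𝓝 (mI w.v η)) := by
    intro η hη
    have := hw (MH.mL Ω η)
    simp only [mI_comm _ η]
    exact this
  have hpt : ∀ η ∈ V Ω, Tendsto (fun k => p5 (u k) η) 𝒰 (𝓝 (p5 w.v η)) := by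
    intro η hη
    exact MH.p5_tendsto hS 𝒰 huU hwU (V_le_univ Ω hη) hnn hm0
  have h0t : Tendsto (fun k : ℕ => 1 / ((k : ℝ) + 1)) 𝒰 (𝓝 0) :=
    tendsto_one_div_add_atTop_nhds_zero_nat.mono_left h𝒰top
  have heql : ∀ η ∈ V Ω, dI w.v η = (t + s) * mI w.v η + (S0 - s * G) * p5 w.v η := by
    intro η hη
    have h1 : Tendsto (fun k => |dI (u k) η - (th k + σ k) * mI (u k) η -
        (S0 - σ k * mI (u k) (u k)) * p5 (u k) η|) 𝒰
        (𝓝 |dI w.v η - (t + s) * mI w.v η - (S0 - s * G) * p5 w.v η|) :=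
      (((hdt η hη).sub ((htt'.add hst').mul (hmt η hη))).sub
        ((tendsto_const_nhds.sub (hst'.mul hGt)).mul (hpt η hη))).abs
    have h2 : Tendsto (fun k : ℕ => ε * mI (u k) (u k) / ((k : ℝ) + 1) * ‖η‖) 𝒰 (𝓝 0) := by
      have := (((hGt.const_mul ε).mul h0t).mul_const ‖η‖)
      simp only [mul_zero, zero_mul] at this
      refine this.congr (fun k => ?_)
      ring
    have h3 := le_of_tendsto_of_tendsto' h1 h2 (fun k => heq k η hη)
    have h4 := abs_nonpos_iff.1 h3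
    linarith
  set om := S0 - s * G with hom
  have hdw : dI w.v w.v = (t + s) * G + om * p6 w.v := by
    rw [heql _ hwV, MH.p5_self]
  -- Brezis–Lieb
  have hp6t : Tendsto (fun k => p6 (u k - w.v)) 𝒰 (𝓝 (1 - p6 w.v)) := by
    have h1 := MH.p6_tendsto hS 𝒰 huU hwU hnn hm0
    have h2 := (tendsto_const_nhds (x := (1 : ℝ))).sub h1
    refine h2.congr (fun k => ?_)
    rw [h6 k]; ring
  have hdt2 : Tendsto (fun k => dI (u k - w.v) (u k - w.v)) 𝒰 (𝓝 (om * (1 - p6 w.v))) := by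
    have h1 : Tendsto (fun k => S0 + th k * mI (u k) (u k) - 2 * dI (u k) w.v + dI w.v w.v) 𝒰
        (𝓝 (S0 + t * G - 2 * dI w.v w.v + dI w.v w.v)) :=
      ((tendsto_const_nhds.add (htt'.mul hGt)).sub ((hdt _ hwV).const_mul 2)).add
        tendsto_const_nhds
    have h2 : S0 + t * G - 2 * dI w.v w.v + dI w.v w.v = om * (1 - p6 w.v) := by
      rw [hdw, hom]; ring
    rw [h2] at h1
    refine h1.congr (fun k => ?_)
    rw [dI_sub_left, dI_sub_right, dI_sub_right, hd k, dI_comm w.v (u k)]; ring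
  set β := 1 - p6 w.v with hβ
  have hβ0 : 0 ≤ β := ge_of_tendsto' hp6t (fun k => by
    rw [C5.p6_eq]; have := C5.nn_nonneg (u k - w.v); positivity)
  have hp6w0 : 0 ≤ p6 w.v := by
    rw [C5.p6_eq]; have := C5.nn_nonneg w.v; positivity
  have hsob : S0 * β ^ ((1 : ℝ) / 3) ≤ om * β := by
    have h1 : Tendsto (fun k => S0 * (p6 (u k - w.v)) ^ ((1 : ℝ) / 3)) 𝒰
        (𝓝 (S0 * β ^ ((1 : ℝ) / 3))) :=
      ((hp6t.rpow_const (Or.inr (by norm_num))).const_mul S0)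
    exact le_of_tendsto_of_tendsto' h1 hdt2 (fun k =>
      (hS.2 _ ((V univ).sub_mem (huU k) hwU)).2)
  have hm1a : m1 ≤ S0 / ε0 := min_le_left _ _
  have hGm1 : G ≤ m1 := hGmb.trans hmb
  have hsG : |s| * G ≤ S0 / 2 := by
    have h1 : |s| * G ≤ (ε0 / 2) * (S0 / ε0) := by
      have h2 : |s| ≤ ε0 / 2 := by linarith
      have h3 : G ≤ S0 / ε0 := hGm1.trans hm1a
      gcongr
    have h4 : (ε0 / 2) * (S0 / ε0) = S0 / 2 := by field_simp
    linarith
  have hsG' : |s * G| ≤ S0 / 2 := by rw [abs_mul, abs_of_pos hG0]; exact hsG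
  rcases hβ0.eq_or_lt with hβz | hβp
  · -- strong limit: a genuine critical point
    have hp1 : p6 w.v = 1 := by linarith
    refine hno w.v hwV hp1 hGma hGmb t ht.1 ht.2 ?_ s (by linarith) heql
    rw [hdw, hp1, hom]; ring
  · -- concentration
    set y := β ^ ((1 : ℝ) / 3) with hy
    have hyp : 0 < y := Real.rpow_pos_of_pos hβp _
    have hy3 : y ^ 3 = β := by
      rw [hy, ← Real.rpow_natCast, ← Real.rpow_mul hβ0]; norm_num
    have hβ1 : β ≤ 1 := by linarith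
    have hy1 : y ≤ 1 := Real.rpow_le_one hβ0 hβ1 (by norm_num)
    have h1 : S0 ≤ om * y ^ 2 := by
      rw [← hy3] at hsob
      have : S0 * y ≤ (om * y ^ 2) * y := by nlinarith
      exact le_of_mul_le_mul_right this hyp
    set x := |s| * G / S0 with hx
    have hx0 : 0 ≤ x := by positivity
    have h2 : om ≤ S0 * (1 + x) := by
      have : S0 * (1 + x) = S0 + |s| * G := by rw [hx]; field_simp
      rw [this, hom]
      have : -(s * G) ≤ |s| * G := by
        have := neg_abs_le s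
        nlinarith
      linarith
    have h3 : 1 ≤ (1 + x) * y ^ 2 := by
      have h4 : S0 * 1 ≤ S0 * ((1 + x) * y ^ 2) := by
        have : om * y ^ 2 ≤ S0 * (1 + x) * y ^ 2 := by gcongr
        linarith
      exact le_of_mul_le_mul_left h4 hS0
    have h4 := MH.real_ineq hyp hy1 hx0 h3
    have h5 : p6 w.v ≤ c * G := by
      have h6 : p6 w.v ≤ 3 / 2 * x := by rw [hy3] at h4; linarith
      refine h6.trans ?_
      have h7 : 3 / 2 * x = (3 / 2 * |s| / S0) * G := by rw [hx]; ring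
      have h8 : 3 / 2 * |s| / S0 ≤ c := by
        have h9 : 3 / 2 * |s| ≤ 3 / 4 * ε0 := by linarith
        exact div_le_div_of_nonneg_right h9 hS0.le
      rw [h7]
      gcongr
    have h6 : C5.nn w.v ^ 6 ≤ c * G := by rw [← C5.p6_eq]; exact h5
    have hns := MH.no_small hS hE hwV heql hd1p hd2p (by
        have q1 := ht.1
        have q2 := neg_abs_le s
        have q3 : ε0 ≤ d1 := min_le_left _ _
        have q4 : a = l1 + d1 := by rw [hd1]; ring
        linarith) (by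
        have q1 := ht.2
        have q2 := le_abs_self s
        have q3 : ε0 ≤ d2 := min_le_right _ _
        have q4 : b = l2 - d2 := by rw [hd2]; ring
        linarith) (by
        rw [hom]
        have := abs_le.1 hsG'
        rw [abs_le]
        constructor <;> linarith)
    exact MH.final_num (C5.nn_nonneg _) hc0 hK0 hG0 hGm1 h6 hns (min_le_right _ _)

end Pool.Agent.H92.BN
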