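import Pool.Agent.H92.BN.MC5
import Pool.Agent.H92.BN.Api

/-!
# Cross terms: Brezis–Lieb type statements
-/

set_option autoImplicit false

namespace Pool.Agent.H92.BN

open MeasureTheory Set Filter Topology
open scoped ContDiff InnerProductSpace

namespace MH

theorem young_pt {δ : ℝ} (hδ : 0 < δ) (hδ1 : δ ≤ 1) (a b : ℝ) :
    |a| * b ^ 4 ≤ δ * (a ^ 6 + b ^ 6) + (δ ^ 3)⁻¹ * a ^ 2 := by
  have ha := abs_nonneg a
  have e2 : a ^ 2 = |a| ^ 2 := (sq_abs a).symm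
  have e6 : a ^ 6 = |a| ^ 6 := by
    rw [show (6 : ℕ) = 2 * 3 by norm_num, pow_mul, pow_mul, sq_abs]
  rw [e2, e6]
  set A := |a|
  have hi : 0 < (δ ^ 3)⁻¹ := by positivity
  by_cases h1 : A ≤ δ * b ^ 2
  · have h2 : A * b ^ 4 ≤ δ * b ^ 2 * b ^ 4 := by gcongr
    have h3 : 0 ≤ δ * A ^ 6 := by positivity
    have h4 : 0 ≤ (δ ^ 3)⁻¹ * A ^ 2 := by positivity
    nlinarith
  · push Not at h1
    have h2 : b ^ 4 * δ ^ 2 ≤ A ^ 2 := by
      have := pow_le_pow_left₀ (by positivity) h1.le 2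
      nlinarith
    have h3 : A * b ^ 4 ≤ A ^ 3 * (δ ^ 2)⁻¹ := by
      rw [← div_eq_mul_inv, le_div_iff₀ (by positivity)]
      nlinarith
    have h4 : 0 ≤ δ * b ^ 6 := by positivity
    by_cases h5 : A * δ ≤ 1
    · have h6 : A ^ 3 * (δ ^ 2)⁻¹ ≤ (δ ^ 3)⁻¹ * A ^ 2 := by
        have : A ^ 3 * (δ ^ 2)⁻¹ = (A * δ) * ((δ ^ 3)⁻¹ * A ^ 2) := by field_simp
        rw [this]
        have h7 : 0 ≤ (δ ^ 3)⁻¹ * A ^ 2 := by positivity
        nlinarith
      have h7 : 0 ≤ δ * A ^ 6 := by positivity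
      nlinarith
    · push Not at h5
      have h6 : A ^ 3 * (δ ^ 2)⁻¹ ≤ δ * A ^ 6 := by
        have h7 : 1 ≤ (A * δ) ^ 3 := one_le_pow₀ h5.le
        have : δ * A ^ 6 = (A * δ) ^ 3 * (A ^ 3 * (δ ^ 2)⁻¹) := by field_simp
        rw [this]
        have h8 : 0 ≤ A ^ 3 * (δ ^ 2)⁻¹ := by positivity
        nlinarith
      have h7 : 0 ≤ (δ ^ 3)⁻¹ * A ^ 2 := by positivity
      nlinarith

variable (hS : SobVStmt)
include hS

theorem int_abs4 {a b g : BB} (ha : a ∈ V univ) (hb : b ∈ V univ) (hg : g ∈ V univ) :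
    Integrable (fun x => |fn a x| * fn b x ^ 4 * |fn g x|) volume ∧
    (∫ x, |fn a x| * fn b x ^ 4 * |fn g x|) ≤ C5.nn b ^ 4 * C5.nn a * C5.nn g := by
  have h := C5.holder411 (C5.memLp6 hS hb) (C5.memLp6 hS ha) (C5.memLp6 hS hg)
  have e : ∀ x, |fn b x ^ 4 * fn a x * fn g x| = |fn a x| * fn b x ^ 4 * |fn g x| := by
    intro x
    rw [abs_mul, abs_mul, abs_of_nonneg (by positivity : 0 ≤ fn b x ^ 4)]
    ring
  refine ⟨?_, ?_⟩
  · refine h.1.abs.congr (Eventually.of_forall fun x => ?_)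
    exact e x
  · refine le_trans (le_of_eq ?_) h.2
    refine integral_congr_ae (Eventually.of_forall fun x => ?_)
    exact (e x).symm

theorem cross_le {a b g : BB} (ha : a ∈ V univ) (hb : b ∈ V univ) (hg : g ∈ V univ)
    {φ : E → ℝ} (hφ : IsTest univ φ) {M : ℝ} (hM : ∀ x, |φ x| ≤ M) {δ : ℝ} (hδ : 0 < δ)
    (hδ1 : δ ≤ 1) {C : ℝ} (hCa : C5.nn a ≤ C) (hCb : C5.nn b ≤ C) :
    (∫ x, |fn a x| * fn b x ^ 4 * |fn g x|) ≤
      C ^ 5 * C5.nn (g - tb φ) + M * (2 * δ * C ^ 6 + (δ ^ 3)⁻¹ * mI a a) := by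
  have hC : 0 ≤ C := (C5.nn_nonneg a).trans hCa
  have htb : tb φ ∈ V univ := tb_mem hφ
  have hgt : g - tb φ ∈ V univ := (V univ).sub_mem hg htb
  have h1 := int_abs4 hS ha hb hgt
  have hM0 : 0 ≤ M := (abs_nonneg _).trans (hM 0)
  have i6a := C5.integrable_p6 hS ha
  have i6b := C5.integrable_p6 hS hb
  have i2a : Integrable (fun x => fn a x ^ 2) volume := by
    have := (memLp_fn a).integrable_sq
    exact this
  have h2 : ∀ᵐ x : E, |fn a x| * fn b x ^ 4 * |fn g x| ≤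
      |fn a x| * fn b x ^ 4 * |fn (g - tb φ) x| +
        M * (δ * (fn a x ^ 6 + fn b x ^ 6) + (δ ^ 3)⁻¹ * fn a x ^ 2) := by
    filter_upwards [fn_sub g (tb φ), (rep_tb hφ).1] with x hx hx'
    rw [hx, Pi.sub_apply, hx']
    have h3 : |fn g x| ≤ |fn g x - φ x| + M := by
      have : |fn g x| ≤ |fn g x - φ x| + |φ x| := by
        have := abs_add_le (fn g x - φ x) (φ x)
        rwa [sub_add_cancel] at this
      linarith [hM x]
    have h4 := young_pt hδ hδ1 (fn a x) (fn b x)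
    have h5 : 0 ≤ |fn a x| * fn b x ^ 4 := by positivity
    calc |fn a x| * fn b x ^ 4 * |fn g x| ≤ |fn a x| * fn b x ^ 4 * (|fn g x - φ x| + M) := by
          gcongr
      _ = |fn a x| * fn b x ^ 4 * |fn g x - φ x| + M * (|fn a x| * fn b x ^ 4) := by ring
      _ ≤ _ := by gcongr
  have i3 : Integrable (fun x => M * (δ * (fn a x ^ 6 + fn b x ^ 6) + (δ ^ 3)⁻¹ * fn a x ^ 2))
      volume := (((i6a.add i6b).const_mul δ).add (i2a.const_mul _)).const_mul M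
  refine (integral_mono_ae (int_abs4 hS ha hb hg).1 (h1.1.add i3) h2).trans ?_
  have e1 : (∫ x, (|fn a x| * fn b x ^ 4 * |fn (g - tb φ) x| +
      M * (δ * (fn a x ^ 6 + fn b x ^ 6) + (δ ^ 3)⁻¹ * fn a x ^ 2))) =
      (∫ x, |fn a x| * fn b x ^ 4 * |fn (g - tb φ) x|) +
        M * (δ * (p6 a + p6 b) + (δ ^ 3)⁻¹ * mI a a) := by
    have i6ab : Integrable (fun x => fn a x ^ 6 + fn b x ^ 6) volume := i6a.add i6b
    have e0 : (∫ x, fn a x ^ 2) = mI a a := by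
      unfold mI
      refine integral_congr_ae (Eventually.of_forall fun x => ?_)
      simp only
      ring
    rw [integral_add h1.1 i3, integral_const_mul,
      integral_add (i6ab.const_mul δ) (i2a.const_mul _), integral_const_mul,
      integral_add i6a i6b, integral_const_mul, e0]
    rfl
  have e1' := e1
  refine (le_of_eq e1').trans ?_
  have h6 : C5.nn b ^ 4 * C5.nn a * C5.nn (g - tb φ) ≤ C ^ 5 * C5.nn (g - tb φ) := by
    have hn1 := C5.nn_nonneg (g - tb φ)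
    have hn2 := C5.nn_nonneg a
    have hn3 := C5.nn_nonneg b
    have : C5.nn b ^ 4 * C5.nn a ≤ C ^ 4 * C := by gcongr
    calc _ ≤ (C ^ 4 * C) * C5.nn (g - tb φ) := by gcongr
      _ = _ := by ring
  have h7 : p6 a + p6 b ≤ 2 * C ^ 6 := by
    rw [C5.p6_eq, C5.p6_eq]
    have := pow_le_pow_left₀ (C5.nn_nonneg a) hCa 6
    have := pow_le_pow_left₀ (C5.nn_nonneg b) hCb 6
    linarith
  have h8 : δ * (p6 a + p6 b) ≤ 2 * δ * C ^ 6 := by nlinarith
  have h9 : M * (δ * (p6 a + p6 b) + (δ ^ 3)⁻¹ * mI a a) ≤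
      M * (2 * δ * C ^ 6 + (δ ^ 3)⁻¹ * mI a a) := by gcongr
  linarith [h1.2]

/-- the cross terms vanish in the limit -/
theorem cross_tendsto {κ : Type*} (l : Filter κ) {a b : κ → BB} {g : BB} {C : ℝ}
    (ha : ∀ i, a i ∈ V univ) (hb : ∀ i, b i ∈ V univ) (hg : g ∈ V univ)
    (hCa : ∀ i, C5.nn (a i) ≤ C) (hCb : ∀ i, C5.nn (b i) ≤ C)
    (hm : Tendsto (fun i => mI (a i) (a i)) l (𝓝 0)) :
    Tendsto (fun i => ∫ x, |fn (a i) x| * fn (b i) x ^ 4 * |fn g x|) l (𝓝 0) := by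
  rw [Metric.tendsto_nhds]
  intro ε hε
  rcases isEmpty_or_nonempty κ with hκ | ⟨⟨i0⟩⟩
  · exact Eventually.of_forall fun i => (hκ.false i).elim
  have hC : 0 ≤ C := (C5.nn_nonneg _).trans (hCa i0)
  -- choose φ
  have hSs : 0 < (√S0)⁻¹ := inv_pos.2 (Real.sqrt_pos.2 hS.1)
  set η1 : ℝ := ε / 4 / ((C ^ 5 + 1) * (√S0)⁻¹) with hη1
  have hη1p : 0 < η1 := by positivity
  obtain ⟨φ, hφ, hφn⟩ := exists_test_near hg hη1p
  have hn1 : C ^ 5 * C5.nn (g - tb φ) ≤ ε / 4 := by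
    have h1 := C5.nn_le_norm hS ((V univ).sub_mem hg (tb_mem hφ))
    have h2 : C5.nn (g - tb φ) ≤ (√S0)⁻¹ * η1 := h1.trans (by gcongr)
    have h3 : (√S0)⁻¹ * η1 = ε / 4 / (C ^ 5 + 1) := by
      have hs : √S0 ≠ 0 := (Real.sqrt_pos.2 hS.1).ne'
      have hc : C ^ 5 + 1 ≠ 0 := by positivity
      rw [hη1]; field_simp
    rw [h3] at h2
    have h4 : C ^ 5 * C5.nn (g - tb φ) ≤ C ^ 5 * (ε / 4 / (C ^ 5 + 1)) := by
      have : 0 ≤ C ^ 5 := by positivity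
      gcongr
    have h5 : C ^ 5 * (ε / 4 / (C ^ 5 + 1)) = (ε / 4) * (C ^ 5 / (C ^ 5 + 1)) := by ring
    have h6 : C ^ 5 / (C ^ 5 + 1) ≤ 1 := by
      rw [div_le_one (by positivity)]; linarith
    rw [h5] at h4
    nlinarith
  obtain ⟨M, hM⟩ := hφ.cpt.exists_bound_of_continuous hφ.smooth.continuous
  have hM' : ∀ x, |φ x| ≤ M := hM
  have hM0 : 0 ≤ M := (abs_nonneg _).trans (hM' 0)
  set δ : ℝ := min 1 (ε / 4 / ((M + 1) * (2 * C ^ 6 + 1))) with hδ
  have hδp : 0 < δ := by positivity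
  have hδ1 : δ ≤ 1 := min_le_left _ _
  have hδ2 : M * (2 * δ * C ^ 6) ≤ ε / 4 := by
    have h1 : δ ≤ ε / 4 / ((M + 1) * (2 * C ^ 6 + 1)) := min_le_right _ _
    rw [le_div_iff₀ (by positivity)] at h1
    have hc6 : 0 ≤ C ^ 6 := by positivity
    nlinarith [mul_nonneg hδp.le hM0, mul_nonneg hδp.le hc6, mul_nonneg (mul_nonneg hδp.le hM0) hc6]
  have h3 : Tendsto (fun i => M * ((δ ^ 3)⁻¹ * mI (a i) (a i))) l (𝓝 0) := by
    have := (hm.const_mul (δ ^ 3)⁻¹).const_mul M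
    simpa using this
  filter_upwards [h3.eventually (gt_mem_nhds (show (0 : ℝ) < ε / 4 by positivity))] with i hi
  have h4 := cross_le hS (ha i) (hb i) hg hφ hM' hδp hδ1 (hCa i) (hCb i)
  have h5 : 0 ≤ ∫ x, |fn (a i) x| * fn (b i) x ^ 4 * |fn g x| :=
    integral_nonneg fun x => by positivity
  rw [Real.dist_eq, sub_zero, abs_of_nonneg h5]
  have h6 : M * (2 * δ * C ^ 6 + (δ ^ 3)⁻¹ * mI (a i) (a i)) =
    M * (2 * δ * C ^ 6) + M * ((δ ^ 3)⁻¹ * mI (a i) (a i)) := by ring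
  rw [h6] at h4
  linarith

/-- convergence of `p5` -/
theorem p5_tendsto {κ : Type*} (l : Filter κ) {w : κ → BB} {u g : BB} {C : ℝ}
    (hw : ∀ i, w i ∈ V univ) (hu : u ∈ V univ) (hg : g ∈ V univ)
    (hCw : ∀ i, C5.nn (w i) ≤ C)
    (hm : Tendsto (fun i => mI (w i - u) (w i - u)) l (𝓝 0)) :
    Tendsto (fun i => p5 (w i) g) l (𝓝 (p5 u g)) := by
  have hCd : ∀ i, C5.nn (w i - u) ≤ C + C5.nn u := fun i =>
    (C5.nn_sub_le hS (hw i) hu).trans (by linarith [hCw i])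
  have hmem : ∀ i, w i - u ∈ V univ := fun i => (V univ).sub_mem (hw i) hu
  have hCw' : ∀ i, C5.nn (w i) ≤ C + C5.nn u := fun i => by
    linarith [hCw i, C5.nn_nonneg u]
  have h1 := cross_tendsto hS l (a := fun i => w i - u) (b := w) (g := g) hmem hw hg hCd hCw' hm
  rcases isEmpty_or_nonempty κ with hκ | ⟨⟨i0⟩⟩
  · have : l = ⊥ := Subsingleton.elim _ _
    rw [this]; exact tendsto_bot
  have hC : 0 ≤ C := (C5.nn_nonneg _).trans (hCw i0)
  have h2 := cross_tendsto hS l (a := fun i => w i - u) (b := fun _ => u) (g := g) hmem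
    (fun _ => hu) hg hCd (fun i => by linarith) hm
  rw [tendsto_iff_norm_sub_tendsto_zero]
  have h3 := (h1.add h2).const_mul 5
  simp only [add_zero, mul_zero] at h3
  refine squeeze_zero (fun i => norm_nonneg _) (fun i => ?_) h3
  rw [Real.norm_eq_abs]
  have i1 := (int_abs4 hS (hmem i) (hw i) hg).1
  have i2 := (int_abs4 hS (hmem i) hu hg).1
  unfold p5
  rw [← integral_sub (C5.integrable_p5 hS (hw i) hg) (C5.integrable_p5 hS hu hg),
    ← integral_add i1 i2, ← integral_const_mul]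
  refine abs_integral_le_integral_abs.trans ?_
  refine integral_mono_ae ?_ ((i1.add i2).const_mul 5) ?_
  · exact ((C5.integrable_p5 hS (hw i) hg).sub (C5.integrable_p5 hS hu hg)).abs
  · filter_upwards [fn_sub (w i) u] with x hx
    rw [hx]
    simp only [Pi.sub_apply]
    set y := fn (w i) x
    set z := fn u x
    set q := fn g x
    have e1 : y ^ 5 * q - z ^ 5 * q = (y - z) * (y ^ 4 + y ^ 3 * z + y ^ 2 * z ^ 2 + y * z ^ 3 + z ^ 4) * q := by
      ring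
    have e2 : |y ^ 4 + y ^ 3 * z + y ^ 2 * z ^ 2 + y * z ^ 3 + z ^ 4| ≤ 5 * (y ^ 4 + z ^ 4) := by
      rw [abs_le]
      constructor <;>
      nlinarith [sq_nonneg (y ^ 2 - z ^ 2), sq_nonneg (y ^ 2 + y * z), sq_nonneg (z ^ 2 + y * z),
        sq_nonneg (y ^ 2 - y * z), sq_nonneg (z ^ 2 - y * z), sq_nonneg (y ^ 2), sq_nonneg (z ^ 2),
        sq_nonneg (y * z)]
    rw [e1, abs_mul, abs_mul]
    calc |y - z| * |y ^ 4 + y ^ 3 * z + y ^ 2 * z ^ 2 + y * z ^ 3 + z ^ 4| * |q|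
        ≤ |y - z| * (5 * (y ^ 4 + z ^ 4)) * |q| := by gcongr
      _ = _ := by ring

/-- Brezis–Lieb for `p6` -/
theorem p6_tendsto {κ : Type*} (l : Filter κ) {w : κ → BB} {u : BB} {C : ℝ}
    (hw : ∀ i, w i ∈ V univ) (hu : u ∈ V univ)
    (hCw : ∀ i, C5.nn (w i) ≤ C)
    (hm : Tendsto (fun i => mI (w i - u) (w i - u)) l (𝓝 0)) :
    Tendsto (fun i => p6 (w i) - p6 (w i - u)) l (𝓝 (p6 u)) := by
  have hCd : ∀ i, C5.nn (w i - u) ≤ C + C5.nn u := fun i =>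
    (C5.nn_sub_le hS (hw i) hu).trans (by linarith [hCw i])
  have hmem : ∀ i, w i - u ∈ V univ := fun i => (V univ).sub_mem (hw i) hu
  have h1 := cross_tendsto hS l (a := fun i => w i - u) (b := fun i => w i - u) (g := u)
    hmem hmem hu hCd hCd hm
  rcases isEmpty_or_nonempty κ with hκ | ⟨⟨i0⟩⟩
  · have : l = ⊥ := Subsingleton.elim _ _
    rw [this]; exact tendsto_bot
  have hC : 0 ≤ C := (C5.nn_nonneg _).trans (hCw i0)
  have h2 := cross_tendsto hS l (a := fun i => w i - u) (b := fun _ => u) (g := u) hmem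
    (fun _ => hu) hu hCd (fun i => by linarith) hm
  rw [tendsto_iff_norm_sub_tendsto_zero]
  have h3 := (h1.add h2).const_mul 62
  simp only [add_zero, mul_zero] at h3
  refine squeeze_zero (fun i => norm_nonneg _) (fun i => ?_) h3
  rw [Real.norm_eq_abs]
  have i1 := (int_abs4 hS (hmem i) (hmem i) hu).1
  have i2 := (int_abs4 hS (hmem i) hu hu).1
  have j1 := C5.integrable_p6 hS (hw i)
  have j2 := C5.integrable_p6 hS (hmem i)
  have j3 := C5.integrable_p6 hS hu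
  unfold p6
  have j12 : Integrable (fun x => fn (w i) x ^ 6 - fn (w i - u) x ^ 6) volume := j1.sub j2
  rw [← integral_sub j1 j2, ← integral_sub j12 j3, ← integral_add i1 i2,
    ← integral_const_mul]
  refine abs_integral_le_integral_abs.trans ?_
  refine integral_mono_ae ?_ ((i1.add i2).const_mul 62) ?_
  · exact (j12.sub j3).abs
  · filter_upwards [fn_sub (w i) u] with x hx
    rw [hx]
    simp only [Pi.sub_apply]
    set z := fn u x
    obtain ⟨s, hs⟩ : ∃ s, s = fn (w i) x - z := ⟨_, rfl⟩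
    have hy : fn (w i) x = z + s := by rw [hs]; ring
    rw [← hs, hy]
    have e1 : (z + s) ^ 6 - s ^ 6 - z ^ 6 =
        s * z * (6 * z ^ 4 + 15 * z ^ 3 * s + 20 * z ^ 2 * s ^ 2 + 15 * z * s ^ 3 + 6 * s ^ 4) := by
      ring
    have e2 : |6 * z ^ 4 + 15 * z ^ 3 * s + 20 * z ^ 2 * s ^ 2 + 15 * z * s ^ 3 + 6 * s ^ 4| ≤
        62 * (s ^ 4 + z ^ 4) := by
      rw [abs_le]
      constructor <;>
      nlinarith [sq_nonneg (z ^ 2 - s ^ 2), sq_nonneg (z ^ 2 + z * s), sq_nonneg (s ^ 2 + z * s),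
        sq_nonneg (z ^ 2 - z * s), sq_nonneg (s ^ 2 - z * s), sq_nonneg (z ^ 2), sq_nonneg (s ^ 2),
        sq_nonneg (z * s)]
    rw [e1, abs_mul, abs_mul]
    calc |s| * |z| * |6 * z ^ 4 + 15 * z ^ 3 * s + 20 * z ^ 2 * s ^ 2 + 15 * z * s ^ 3 + 6 * s ^ 4|
        ≤ |s| * |z| * (62 * (s ^ 4 + z ^ 4)) := by gcongr
      _ = _ := by ring

end MH

end Pool.Agent.H92.BN
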