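import Pool.Agent.H92.BN.Api

/-!
# Module H, part 1: elementary `L⁶` estimates
-/

set_option autoImplicit false

namespace Pool.Agent.H92.BN.MH

open MeasureTheory Set Filter Topology
open scoped ContDiff InnerProductSpace

/-! ### pointwise inequalities -/

theorem pow_mul_pow_le {a b : ℝ} (ha : 0 ≤ a) (hb : 0 ≤ b) {i j n : ℕ} (h : i + j = n) :
    a ^ i * b ^ j ≤ a ^ n + b ^ n := by
  rcases le_total a b with hab | hab
  · have h1 : a ^ i * b ^ j ≤ b ^ i * b ^ j :=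
      mul_le_mul_of_nonneg_right (pow_le_pow_left₀ ha hab i) (pow_nonneg hb j)
    rw [← pow_add, h] at h1
    have := pow_nonneg ha n
    linarith
  · have h1 : a ^ i * b ^ j ≤ a ^ i * a ^ j :=
      mul_le_mul_of_nonneg_left (pow_le_pow_left₀ hb hab j) (pow_nonneg ha i)
    rw [← pow_add, h] at h1
    have := pow_nonneg hb n
    linarith

theorem young51 {a b K : ℝ} (ha : 0 ≤ a) (hb : 0 ≤ b) (hK : 0 < K) :
    a ^ 5 * b ≤ K * a ^ 6 + (K⁻¹) ^ 5 * b ^ 6 := by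
  rcases le_total b (K * a) with h | h
  · have h1 : a ^ 5 * b ≤ a ^ 5 * (K * a) := mul_le_mul_of_nonneg_left h (by positivity)
    have h2 : 0 ≤ (K⁻¹) ^ 5 * b ^ 6 := by positivity
    calc a ^ 5 * b ≤ a ^ 5 * (K * a) := h1
      _ = K * a ^ 6 := by ring
      _ ≤ _ := by linarith
  · have h1 : a ≤ K⁻¹ * b := by
      rw [inv_mul_eq_div, le_div_iff₀ hK]; linarith
    have h2 : a ^ 5 * b ≤ (K⁻¹ * b) ^ 5 * b :=
      mul_le_mul_of_nonneg_right (pow_le_pow_left₀ ha h1 5) hb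
    have h3 : 0 ≤ K * a ^ 6 := by positivity
    calc a ^ 5 * b ≤ (K⁻¹ * b) ^ 5 * b := h2
      _ = (K⁻¹) ^ 5 * b ^ 6 := by ring
      _ ≤ _ := by linarith

theorem young15 {a b K : ℝ} (ha : 0 ≤ a) (hb : 0 ≤ b) (hK : 0 < K) :
    a * b ^ 5 ≤ K ^ 5 * a ^ 6 + K⁻¹ * b ^ 6 := by
  have := young51 hb ha (inv_pos.mpr hK)
  rw [inv_inv] at this
  linarith [this, mul_comm a (b ^ 5)]

theorem pow5_le {b s : ℝ} (hb : 0 ≤ b) (hs : 0 < s) : b ^ 5 ≤ s * b ^ 6 + (s⁻¹) ^ 3 * b ^ 2 := by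
  rcases le_total b s⁻¹ with h | h
  · have h1 : b ^ 3 * b ^ 2 ≤ (s⁻¹) ^ 3 * b ^ 2 :=
      mul_le_mul_of_nonneg_right (pow_le_pow_left₀ hb h 3) (by positivity)
    have h2 : 0 ≤ s * b ^ 6 := by positivity
    calc b ^ 5 = b ^ 3 * b ^ 2 := by ring
      _ ≤ _ := by linarith
  · have h1 : 1 ≤ s * b := by
      have := mul_le_mul_of_nonneg_left h hs.le
      rwa [mul_inv_cancel₀ hs.ne'] at this
    have h2 : b ^ 5 * 1 ≤ b ^ 5 * (s * b) := mul_le_mul_of_nonneg_left h1 (by positivity)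
    have h3 : 0 ≤ (s⁻¹) ^ 3 * b ^ 2 := by positivity
    calc b ^ 5 = b ^ 5 * 1 := by ring
      _ ≤ b ^ 5 * (s * b) := h2
      _ = s * b ^ 6 := by ring
      _ ≤ _ := by linarith

theorem diff5_le (u w e : ℝ) : |((u + w) ^ 5 - u ^ 5) * e| ≤
    31 * (|u| ^ 5 * |w| + |e| ^ 5 * |w| + |e| * |w| ^ 5) := by
  have h0 : ((u + w) ^ 5 - u ^ 5) * e = (5 * (u ^ 4 * w ^ 1) + 10 * (u ^ 3 * w ^ 2) +
      10 * (u ^ 2 * w ^ 3) + 5 * (u ^ 1 * w ^ 4) + w ^ 5) * e := by ring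
  have hu := abs_nonneg u
  have hw := abs_nonneg w
  have he := abs_nonneg e
  have t : ∀ i j : ℕ, i + j = 4 → |u| ^ i * |w| ^ j ≤ |u| ^ 4 + |w| ^ 4 := fun i j h =>
    pow_mul_pow_le hu hw h
  have t3 := mul_le_mul_of_nonneg_right (t 3 1 rfl) hw
  have t2 := mul_le_mul_of_nonneg_right (t 2 2 rfl) hw
  have t1 := mul_le_mul_of_nonneg_right (t 1 3 rfl) hw
  have h1 : |(5 * (u ^ 4 * w ^ 1) + 10 * (u ^ 3 * w ^ 2) +
      10 * (u ^ 2 * w ^ 3) + 5 * (u ^ 1 * w ^ 4) + w ^ 5)| ≤ 31 * ((|u| ^ 4 + |w| ^ 4) * |w|) := by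
    refine (abs_add_le _ _).trans ?_
    refine (add_le_add_left (abs_add_le _ _) _).trans ?_
    refine (add_le_add_left (add_le_add_left (abs_add_le _ _) _) _).trans ?_
    refine (add_le_add_left (add_le_add_left (add_le_add_left (abs_add_le _ _) _) _) _).trans ?_
    simp only [abs_mul, abs_pow, Nat.abs_ofNat]
    have q4 : 0 ≤ |w| ^ 4 * |w| := by positivity
    have q0 : 0 ≤ |u| ^ 4 * |w| := by positivity
    nlinarith
  rw [h0, abs_mul]
  refine (mul_le_mul_of_nonneg_right h1 he).trans ?_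
  have h2 : |u| ^ 4 * |e| ^ 1 ≤ |u| ^ 5 + |e| ^ 5 := pow_mul_pow_le hu he rfl
  have h3 := mul_le_mul_of_nonneg_right h2 hw
  nlinarith

theorem diff6_le (u w : ℝ) : |(u + w) ^ 6 - u ^ 6 - w ^ 6| ≤
    62 * (|u| ^ 5 * |w| + |u| * |w| ^ 5) := by
  have h0 : (u + w) ^ 6 - u ^ 6 - w ^ 6 = 6 * (u ^ 5 * w) + 15 * (u ^ 4 * w ^ 2) +
      20 * (u ^ 3 * w ^ 3) + 15 * (u ^ 2 * w ^ 4) + 6 * (u * w ^ 5) := by ring
  have hu := abs_nonneg u
  have hw := abs_nonneg w
  have hp : 0 ≤ |u| * |w| := by positivity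
  have t : ∀ i j : ℕ, i + j = 4 → |u| ^ i * |w| ^ j ≤ |u| ^ 4 + |w| ^ 4 := fun i j h =>
    pow_mul_pow_le hu hw h
  have t3 := mul_le_mul_of_nonneg_right (t 3 1 rfl) hp
  have t2 := mul_le_mul_of_nonneg_right (t 2 2 rfl) hp
  have t1 := mul_le_mul_of_nonneg_right (t 1 3 rfl) hp
  rw [h0]
  refine (abs_add_le _ _).trans ?_
  refine (add_le_add_left (abs_add_le _ _) _).trans ?_
  refine (add_le_add_left (add_le_add_left (abs_add_le _ _) _) _).trans ?_
  refine (add_le_add_left (add_le_add_left (add_le_add_left (abs_add_le _ _) _) _) _).trans ?_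
  simp only [abs_mul, abs_pow, Nat.abs_ofNat]
  have q4 : 0 ≤ |w| ^ 5 * |u| := by positivity
  have q0 : 0 ≤ |u| ^ 5 * |w| := by positivity
  nlinarith

/-! ### integrability -/

theorem int6 {f : E → ℝ} (hf : MemLp f 6 volume) : Integrable (fun x => |f x| ^ 6) volume := by
  have h : MemLp f ((6 : ℕ) : ENNReal) volume := by exact_mod_cast hf
  simpa [Real.norm_eq_abs] using h.integrable_norm_pow (by norm_num)

theorem int2 {f : E → ℝ} (hf : MemLp f 2 volume) : Integrable (fun x => |f x| ^ 2) volume := by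
  have h : MemLp f ((2 : ℕ) : ENNReal) volume := by exact_mod_cast hf
  simpa [Real.norm_eq_abs] using h.integrable_norm_pow (by norm_num)

theorem intmix {f g : E → ℝ} (hf : MemLp f 6 volume) (hg : MemLp g 6 volume) {i j : ℕ}
    (h : i + j = 6) : Integrable (fun x => |f x| ^ i * |g x| ^ j) volume := by
  refine ((int6 hf).add (int6 hg)).mono'
    ((hf.1.norm.pow i).mul (hg.1.norm.pow j)) (Eventually.of_forall fun x => ?_)
  rw [Real.norm_eq_abs, abs_of_nonneg (by positivity)]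
  exact pow_mul_pow_le (abs_nonneg _) (abs_nonneg _) h

theorem int51 {f g : E → ℝ} (hf : MemLp f 6 volume) (hg : MemLp g 6 volume) :
    Integrable (fun x => |f x| ^ 5 * |g x|) volume := by
  simpa using intmix hf hg (i := 5) (j := 1) rfl

theorem int15 {f g : E → ℝ} (hf : MemLp f 6 volume) (hg : MemLp g 6 volume) :
    Integrable (fun x => |f x| * |g x| ^ 5) volume := by
  simpa using intmix hf hg (i := 1) (j := 5) rfl

theorem intp5 {f g : E → ℝ} (hf : MemLp f 6 volume) (hg : MemLp g 6 volume) :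
    Integrable (fun x => f x ^ 5 * g x) volume := by
  refine (int51 hf hg).mono' ((hf.1.pow 5).mul hg.1) (Eventually.of_forall fun x => ?_)
  rw [Real.norm_eq_abs, abs_mul, abs_pow]

/-- tails -/
theorem tail6 {u : E → ℝ} (hu : MemLp u 6 volume) :
    Tendsto (fun n : ℕ => ∫ x, (if (n : ℝ) < |u x| then |u x| ^ 6 else 0)) atTop (𝓝 0) := by
  have : Tendsto (fun n : ℕ => ∫ x, (if (n : ℝ) < |u x| then |u x| ^ 6 else 0)) atTop
      (𝓝 (∫ _ : E, (0 : ℝ))) := by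
    refine tendsto_integral_of_dominated_convergence (fun x => |u x| ^ 6) ?_ (int6 hu) ?_ ?_
    · intro n
      have hm : AEMeasurable (fun x => |u x|) volume := hu.1.aemeasurable.abs
      have h6 : AEMeasurable (fun x => |u x| ^ 6) volume := hm.pow_const 6
      refine AEMeasurable.aestronglyMeasurable ?_
      obtain ⟨g, hg, hge⟩ := hm
      refine ⟨fun x => if (n : ℝ) < g x then (g x) ^ 6 else 0, ?_, ?_⟩
      · exact Measurable.ite (measurableSet_lt measurable_const hg) (hg.pow_const 6)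
          measurable_const
      · filter_upwards [hge] with x hx
        simp only [hx]
    · intro n
      refine Eventually.of_forall fun x => ?_
      split_ifs
      · rw [Real.norm_eq_abs, abs_of_nonneg (by positivity)]
      · rw [norm_zero]; positivity
    · refine Eventually.of_forall fun x => ?_
      apply tendsto_const_nhds.congr'
      obtain ⟨N, hN⟩ := exists_nat_ge |u x|
      filter_upwards [eventually_ge_atTop N] with n hn
      rw [if_neg]
      push Not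
      exact hN.trans (by exact_mod_cast hn)
  simpa using this

theorem int_tail6 {u : E → ℝ} (hu : MemLp u 6 volume) (M : ℝ) :
    Integrable (fun x => if M < |u x| then |u x| ^ 6 else 0) volume := by
  refine (int6 hu).mono' ?_ ?_
  · have hm : AEMeasurable (fun x => |u x|) volume := hu.1.aemeasurable.abs
    refine AEMeasurable.aestronglyMeasurable ?_
    obtain ⟨g, hg, hge⟩ := hm
    refine ⟨fun x => if M < g x then (g x) ^ 6 else 0, ?_, ?_⟩
    · exact Measurable.ite (measurableSet_lt measurable_const hg) (hg.pow_const 6)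
        measurable_const
    · filter_upwards [hge] with x hx
      simp only [hx]
  · refine Eventually.of_forall fun x => ?_
    split_ifs
    · rw [Real.norm_eq_abs, abs_of_nonneg (by positivity)]
    · rw [norm_zero]; positivity

/-- `∫ |u| |w_k|⁵ → 0` -/
theorem cross15 {l : Filter ℕ} {u : E → ℝ} {w : ℕ → E → ℝ} {C : ℝ} (hu : MemLp u 6 volume)
    (hw6 : ∀ k, MemLp (w k) 6 volume) (hw2 : ∀ k, MemLp (w k) 2 volume)
    (hC : ∀ k, (∫ x, |w k x| ^ 6) ≤ C) (h0 : Tendsto (fun k => ∫ x, |w k x| ^ 2) l (𝓝 0)) :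
    Tendsto (fun k => ∫ x, |u x| * |w k x| ^ 5) l (𝓝 0) := by
  have hnn : ∀ k, 0 ≤ ∫ x, |u x| * |w k x| ^ 5 := fun k => integral_nonneg fun x => by positivity
  have hC0 : 0 ≤ |C| := abs_nonneg C
  rw [Metric.tendsto_nhds]
  intro δ hδ
  set K : ℝ := 4 * (|C| + 1) / δ with hK
  have hK0 : 0 < K := by positivity
  obtain ⟨n, hn⟩ : ∃ n : ℕ, K ^ 5 * ∫ x, (if (n : ℝ) < |u x| then |u x| ^ 6 else 0) < δ / 4 := by
    have h1 := (tail6 hu).const_mul (K ^ 5)
    rw [mul_zero] at h1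
    exact (h1.eventually (gt_mem_nhds (show (0 : ℝ) < δ / 4 by positivity))).exists
  set M : ℝ := ((n : ℕ) : ℝ) with hM
  have hM0 : 0 ≤ M := Nat.cast_nonneg n
  set s : ℝ := δ / (4 * (|C| + 1) * (M + 1)) with hs
  have hs0 : 0 < s := by positivity
  have h2 : Tendsto (fun k => M * (s⁻¹) ^ 3 * ∫ x, |w k x| ^ 2) l (𝓝 0) := by
    have := h0.const_mul (M * (s⁻¹) ^ 3)
    rwa [mul_zero] at this
  filter_upwards [h2.eventually (gt_mem_nhds (show (0 : ℝ) < δ / 4 by positivity))] with k hk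
  rw [Real.dist_eq, sub_zero, abs_of_nonneg (hnn k)]
  have hI6 := int6 (hw6 k)
  have hI2 := int2 (hw2 k)
  have hIt := int_tail6 hu M
  have hpt : ∀ x, |u x| * |w k x| ^ 5 ≤ (M * s + K⁻¹) * |w k x| ^ 6 +
      (M * (s⁻¹) ^ 3) * |w k x| ^ 2 + K ^ 5 * (if M < |u x| then |u x| ^ 6 else 0) := by
    intro x
    have hwx := abs_nonneg (w k x)
    have hux := abs_nonneg (u x)
    by_cases h : M < |u x|
    · rw [if_pos h]
      have := young15 hux hwx hK0
      have q1 : 0 ≤ M * s * |w k x| ^ 6 := by positivity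
      have q2 : 0 ≤ (M * (s⁻¹) ^ 3) * |w k x| ^ 2 := by positivity
      linarith
    · rw [if_neg h]
      push Not at h
      have h3 := pow5_le hwx hs0
      have h4 : |u x| * |w k x| ^ 5 ≤ M * (s * |w k x| ^ 6 + (s⁻¹) ^ 3 * |w k x| ^ 2) :=
        mul_le_mul h h3 (by positivity) hM0
      have q1 : 0 ≤ K⁻¹ * |w k x| ^ 6 := by positivity
      linarith
  have hle : (∫ x, |u x| * |w k x| ^ 5) ≤ (M * s + K⁻¹) * (∫ x, |w k x| ^ 6) +
      (M * (s⁻¹) ^ 3) * (∫ x, |w k x| ^ 2) +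
      K ^ 5 * ∫ x, (if M < |u x| then |u x| ^ 6 else 0) := by
    have h5 := integral_mono (int15 hu (hw6 k))
      (((hI6.const_mul (M * s + K⁻¹)).add (hI2.const_mul (M * (s⁻¹) ^ 3))).add
        (hIt.const_mul (K ^ 5))) hpt
    have h6 : (∫ x, ((M * s + K⁻¹) * |w k x| ^ 6 +
      (M * (s⁻¹) ^ 3) * |w k x| ^ 2 + K ^ 5 * (if M < |u x| then |u x| ^ 6 else 0))) =
      (M * s + K⁻¹) * (∫ x, |w k x| ^ 6) +
      (M * (s⁻¹) ^ 3) * (∫ x, |w k x| ^ 2) +
      K ^ 5 * ∫ x, (if M < |u x| then |u x| ^ 6 else 0) := by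
      have hI12 : Integrable (fun x => (M * s + K⁻¹) * |w k x| ^ 6 +
        (M * (s⁻¹) ^ 3) * |w k x| ^ 2) volume :=
        (hI6.const_mul (M * s + K⁻¹)).add (hI2.const_mul (M * (s⁻¹) ^ 3))
      rw [integral_add hI12 (hIt.const_mul (K ^ 5)),
        integral_add (hI6.const_mul (M * s + K⁻¹)) (hI2.const_mul (M * (s⁻¹) ^ 3)),
        integral_const_mul, integral_const_mul, integral_const_mul]
    exact h5.trans h6.le
  have hC' : (∫ x, |w k x| ^ 6) ≤ |C| + 1 := (hC k).trans (by have := le_abs_self C; linarith)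
  have h7 : (M * s + K⁻¹) * (∫ x, |w k x| ^ 6) ≤ (M * s + K⁻¹) * (|C| + 1) :=
    mul_le_mul_of_nonneg_left hC' (by positivity)
  have h8 : K⁻¹ * (|C| + 1) = δ / 4 := by rw [hK]; field_simp
  have h9 : M * s * (|C| + 1) ≤ δ / 4 := by
    have : M * s * (|C| + 1) = δ / 4 * (M / (M + 1)) := by rw [hs]; field_simp
    rw [this]
    have h10 : M / (M + 1) ≤ 1 := by rw [div_le_one (by positivity)]; linarith
    have : δ / 4 * (M / (M + 1)) ≤ δ / 4 * 1 := mul_le_mul_of_nonneg_left h10 (by positivity)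
    linarith
  linarith

/-- `∫ |u|⁵ |w_k| → 0` -/
theorem cross51 {l : Filter ℕ} {u : E → ℝ} {w : ℕ → E → ℝ} {C : ℝ} (hu : MemLp u 6 volume)
    (hu2 : MemLp u 2 volume)
    (hw6 : ∀ k, MemLp (w k) 6 volume) (hw2 : ∀ k, MemLp (w k) 2 volume)
    (hC : ∀ k, (∫ x, |w k x| ^ 6) ≤ C) (h0 : Tendsto (fun k => ∫ x, |w k x| ^ 2) l (𝓝 0)) :
    Tendsto (fun k => ∫ x, |u x| ^ 5 * |w k x|) l (𝓝 0) := by
  have hnn : ∀ k, 0 ≤ ∫ x, |u x| ^ 5 * |w k x| := fun k => integral_nonneg fun x => by positivity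
  have hC0 : 0 ≤ |C| := abs_nonneg C
  set B : ℝ := ∫ x, |u x| ^ 2 with hB
  have hB0 : 0 ≤ B := integral_nonneg fun x => by positivity
  rw [Metric.tendsto_nhds]
  intro δ hδ
  set K : ℝ := max 1 (4 * (|C| + 1) / δ) with hK
  have hK0 : 0 < K := lt_max_of_lt_left one_pos
  have hK1 : 1 ≤ K := le_max_left _ _
  obtain ⟨n, hn⟩ : ∃ n : ℕ, K * ∫ x, (if (n : ℝ) < |u x| then |u x| ^ 6 else 0) < δ / 4 := by
    have h1 := (tail6 hu).const_mul K
    rw [mul_zero] at h1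
    exact (h1.eventually (gt_mem_nhds (show (0 : ℝ) < δ / 4 by positivity))).exists
  set M : ℝ := ((n : ℕ) : ℝ) with hM
  have hM0 : 0 ≤ M := Nat.cast_nonneg n
  set s : ℝ := δ / (4 * (B + 1) * (M ^ 4 + 1)) with hs
  have hs0 : 0 < s := by positivity
  have h2 : Tendsto (fun k => M ^ 4 * s⁻¹ * ∫ x, |w k x| ^ 2) l (𝓝 0) := by
    have := h0.const_mul (M ^ 4 * s⁻¹)
    rwa [mul_zero] at this
  filter_upwards [h2.eventually (gt_mem_nhds (show (0 : ℝ) < δ / 4 by positivity))] with k hk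
  rw [Real.dist_eq, sub_zero, abs_of_nonneg (hnn k)]
  have hI6 := int6 (hw6 k)
  have hI2 := int2 (hw2 k)
  have hIu := int2 hu2
  have hIt := int_tail6 hu M
  have hpt : ∀ x, |u x| ^ 5 * |w k x| ≤ ((K⁻¹) ^ 5 * |w k x| ^ 6 + (M ^ 4 * s⁻¹) * |w k x| ^ 2) +
      ((M ^ 4 * s) * |u x| ^ 2 + K * (if M < |u x| then |u x| ^ 6 else 0)) := by
    intro x
    have hwx := abs_nonneg (w k x)
    have hux := abs_nonneg (u x)
    by_cases h : M < |u x|
    · rw [if_pos h]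
      have := young51 hux hwx hK0
      have q1 : 0 ≤ (M ^ 4 * s) * |u x| ^ 2 := by positivity
      have q2 : 0 ≤ (M ^ 4 * s⁻¹) * |w k x| ^ 2 := by positivity
      linarith
    · rw [if_neg h]
      push Not at h
      have h3 : |u x| ^ 4 ≤ M ^ 4 := pow_le_pow_left₀ hux h 4
      have h5 : |u x| * |w k x| ≤ s * |u x| ^ 2 + s⁻¹ * |w k x| ^ 2 := by
        have e1 : s * |u x| ^ 2 + s⁻¹ * |w k x| ^ 2 - |u x| * |w k x| =
            s⁻¹ * ((s * |u x| - |w k x| / 2) ^ 2 + 3 / 4 * |w k x| ^ 2) := by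
          field_simp
          ring
        have e2 : 0 ≤ s⁻¹ * ((s * |u x| - |w k x| / 2) ^ 2 + 3 / 4 * |w k x| ^ 2) := by positivity
        linarith
      have h4 : |u x| ^ 5 * |w k x| ≤ M ^ 4 * (s * |u x| ^ 2 + s⁻¹ * |w k x| ^ 2) := by
        calc |u x| ^ 5 * |w k x| = |u x| ^ 4 * (|u x| * |w k x|) := by ring
          _ ≤ _ := mul_le_mul h3 h5 (by positivity) (by positivity)
      have q1 : 0 ≤ (K⁻¹) ^ 5 * |w k x| ^ 6 := by positivity
      linarith
  have hle : (∫ x, |u x| ^ 5 * |w k x|) ≤ ((K⁻¹) ^ 5 * (∫ x, |w k x| ^ 6) +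
      (M ^ 4 * s⁻¹) * (∫ x, |w k x| ^ 2)) + ((M ^ 4 * s) * B +
      K * ∫ x, (if M < |u x| then |u x| ^ 6 else 0)) := by
    have hA : Integrable (fun x => (K⁻¹) ^ 5 * |w k x| ^ 6 + (M ^ 4 * s⁻¹) * |w k x| ^ 2) volume :=
      (hI6.const_mul _).add (hI2.const_mul _)
    have hD : Integrable (fun x => (M ^ 4 * s) * |u x| ^ 2 +
        K * (if M < |u x| then |u x| ^ 6 else 0)) volume :=
      (hIu.const_mul _).add (hIt.const_mul _)
    have h5 := integral_mono (int51 hu (hw6 k)) (hA.add hD) hpt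
    have h6 : (∫ x, (((K⁻¹) ^ 5 * |w k x| ^ 6 + (M ^ 4 * s⁻¹) * |w k x| ^ 2) +
      ((M ^ 4 * s) * |u x| ^ 2 + K * (if M < |u x| then |u x| ^ 6 else 0)))) =
      ((K⁻¹) ^ 5 * (∫ x, |w k x| ^ 6) +
      (M ^ 4 * s⁻¹) * (∫ x, |w k x| ^ 2)) + ((M ^ 4 * s) * B +
      K * ∫ x, (if M < |u x| then |u x| ^ 6 else 0)) := by
      rw [integral_add hA hD, integral_add (hI6.const_mul _) (hI2.const_mul _),
        integral_add (hIu.const_mul _) (hIt.const_mul _),
        integral_const_mul, integral_const_mul, integral_const_mul, integral_const_mul]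
    exact h5.trans h6.le
  have hC' : (∫ x, |w k x| ^ 6) ≤ |C| + 1 := (hC k).trans (by have := le_abs_self C; linarith)
  have h7 : (K⁻¹) ^ 5 * (∫ x, |w k x| ^ 6) ≤ δ / 4 := by
    have e1 : (K⁻¹) ^ 5 * (∫ x, |w k x| ^ 6) ≤ (K⁻¹) ^ 5 * (|C| + 1) :=
      mul_le_mul_of_nonneg_left hC' (by positivity)
    have e2 : (K⁻¹) ^ 5 ≤ K⁻¹ := by
      have : K⁻¹ ≤ 1 := inv_le_one_of_one_le₀ hK1
      exact pow_le_of_le_one (by positivity) this (by norm_num)
    have e3 : K⁻¹ * (|C| + 1) ≤ δ / 4 := by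
      rw [inv_mul_eq_div, div_le_iff₀ hK0]
      have : 4 * (|C| + 1) / δ ≤ K := le_max_right _ _
      rw [div_le_iff₀ hδ] at this
      linarith
    have e4 : (K⁻¹) ^ 5 * (|C| + 1) ≤ K⁻¹ * (|C| + 1) :=
      mul_le_mul_of_nonneg_right e2 (by positivity)
    linarith
  have h9 : M ^ 4 * s * B ≤ δ / 4 := by
    have h10 : M ^ 4 * s * B = δ / 4 * (M ^ 4 / (M ^ 4 + 1)) * (B / (B + 1)) := by
      rw [hs]; field_simp
    rw [h10]
    have h11 : M ^ 4 / (M ^ 4 + 1) ≤ 1 := by rw [div_le_one (by positivity)]; linarith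
    have h12 : B / (B + 1) ≤ 1 := by rw [div_le_one (by positivity)]; linarith
    have h13 : δ / 4 * (M ^ 4 / (M ^ 4 + 1)) ≤ δ / 4 * 1 :=
      mul_le_mul_of_nonneg_left h11 (by positivity)
    have h14 : δ / 4 * (M ^ 4 / (M ^ 4 + 1)) * (B / (B + 1)) ≤ δ / 4 * 1 * 1 :=
      mul_le_mul h13 h12 (by positivity) (by positivity)
    linarith
  linarith

end Pool.Agent.H92.BN.MH
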