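import Pool.Agent.H92.BN.MI_Path

/-!
# Module I: the min–max argument
-/

set_option autoImplicit false

namespace Pool.Agent.H92.BN

open MeasureTheory Set Filter Topology
open scoped ContDiff InnerProductSpace ENNReal

namespace SI

theorem Pth.mono {Ω : Set E} {lo hi q lo' hi' q' : ℝ} {p0 p1 : BB} {γ : ℝ → BB}
    (h : Pth Ω lo hi q p0 p1 γ) (h1 : lo' ≤ lo) (h2 : hi ≤ hi') (h3 : q ≤ q') :
    Pth Ω lo' hi' q' p0 p1 γ where
  cont := h.cont
  mem := h.mem
  norm := h.norm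
  low := fun t => h1.trans (h.low t)
  upp := fun t => (h.upp t).trans h2
  en := fun t => by
    have := mul_le_mul_of_nonneg_right h3 (mI_nonneg (γ t))
    linarith [h.en t]
  st := h.st
  fi := h.fi

theorem exp_le_one_sub {x : ℝ} (h0 : 0 ≤ x) (h1 : x ≤ 1 / 2) : Real.exp (-(2 * x)) ≤ 1 - x := by
  have h2 : 1 + 2 * x ≤ Real.exp (2 * x) := by
    have := Real.add_one_le_exp (2 * x)
    linarith
  rw [Real.exp_neg, inv_le_comm₀ (Real.exp_pos _) (by linarith)]
  refine le_trans ?_ h2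
  rw [inv_le_comm₀ (by linarith) (by linarith), inv_eq_one_div, div_le_iff₀ (by linarith)]
  nlinarith

theorem iterate (hS : SobVStmt) {Ω : Set E} {a b ma mb ε C κ : ℝ} (ha : 0 ≤ a)
    (hma : 0 < ma) (hε : 0 < ε) (hC : 0 ≤ C) (hκ : 0 < κ) (hb : a + κ ≤ b)
    (hd : Desc Ω a b ma mb ε C) {lo hi : ℝ} {p0 p1 : BB} {γ : ℝ → BB}
    (hγ : Pth Ω lo hi b p0 p1 γ)
    (hlo : ma ≤ lo * Real.exp (-(18 * (8 * (b - (a + κ)) / ε))))
    (hhi : hi * Real.exp (9 * (8 * (b - (a + κ)) / ε)) ≤ mb)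
    (h0 : dI p0 p0 < S0 + a * mI p0 p0) (h1 : dI p1 p1 < S0 + a * mI p1 p1) :
    ∃ γ' : ℝ → BB, Pth Ω ma mb (a + κ) p0 p1 γ' := by
  set T0 : ℝ := 8 * (b - (a + κ)) / ε with hT0
  have hT00 : 0 ≤ T0 := by
    rw [hT0]
    have : 0 ≤ b - (a + κ) := by linarith
    positivity
  obtain ⟨τ0, hτ0, hτs⟩ := exists_small hS (M := C + 1) (ma := ma) (ε := ε) (by linarith) hma hε
  set N : ℕ := ⌈T0 / τ0⌉₊ + 1 with hN
  have hN0 : (0 : ℝ) < N := by rw [hN]; positivity
  set τ : ℝ := T0 / N with hτ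
  have hτ00 : 0 ≤ τ := div_nonneg hT00 hN0.le
  have hττ : τ ≤ τ0 := by
    rw [hτ, div_le_iff₀ hN0]
    have h2 : T0 / τ0 ≤ N := by
      refine (Nat.le_ceil _).trans ?_
      rw [hN]
      push_cast
      linarith
    rw [div_le_iff₀ hτ0] at h2
    linarith
  have hτsm : Small (C + 1) ma ε τ := hτs.mono hS (by linarith) hττ
  have hτN : τ * N = T0 := by rw [hτ]; field_simp
  have hτ1 := hτsm.h1
  have hG0 : 0 < lo := by
    have h2 := hma.trans_le hlo
    have h3 := Real.exp_pos (-(18 * T0))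
    exact pos_of_mul_pos_left h2 h3.le
  have hhi0 : 0 < hi := hG0.trans_le ((hγ.low 0).trans (hγ.upp 0))
  -- bounds of the powers
  have hpow1 : ∀ k : ℕ, k ≤ N → ma ≤ lo * (1 - 9 * τ) ^ k := by
    intro k hk
    refine hlo.trans (mul_le_mul_of_nonneg_left ?_ hG0.le)
    have h2 : Real.exp (-(18 * T0)) = Real.exp (-(2 * (9 * τ))) ^ N := by
      rw [← Real.exp_nat_mul]
      congr 1
      rw [← hτN]
      ring
    rw [h2]
    have h3 : Real.exp (-(2 * (9 * τ))) ≤ 1 - 9 * τ := exp_le_one_sub (by linarith) (by linarith)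
    calc Real.exp (-(2 * (9 * τ))) ^ N ≤ (1 - 9 * τ) ^ N :=
          pow_le_pow_left₀ (Real.exp_pos _).le h3 N
      _ ≤ (1 - 9 * τ) ^ k := pow_le_pow_of_le_one (by linarith) (by linarith) hk
  have hpow2 : ∀ k : ℕ, k ≤ N → hi * (1 + 9 * τ) ^ k ≤ mb := by
    intro k hk
    refine le_trans (mul_le_mul_of_nonneg_left ?_ hhi0.le) hhi
    have h2 : Real.exp (9 * T0) = Real.exp (9 * τ) ^ N := by
      rw [← Real.exp_nat_mul]
      congr 1
      rw [← hτN]
      ring
    rw [h2]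
    have h3 : 1 + 9 * τ ≤ Real.exp (9 * τ) := by
      have := Real.add_one_le_exp (9 * τ)
      linarith
    calc (1 + 9 * τ) ^ k ≤ (1 + 9 * τ) ^ N := pow_le_pow_right₀ (by linarith) hk
      _ ≤ Real.exp (9 * τ) ^ N := pow_le_pow_left₀ (by linarith) h3 N
  have hind : ∀ k : ℕ, k ≤ N → ∃ γ' : ℝ → BB, Pth Ω (lo * (1 - 9 * τ) ^ k)
      (hi * (1 + 9 * τ) ^ k) (max (b - ε / 8 * τ * k) (a + κ)) p0 p1 γ' := by
    intro k
    induction k with
    | zero =>
      intro _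
      refine ⟨γ, hγ.mono (by simp) (by simp) ?_⟩
      simp
    | succ k ih =>
      intro hk
      obtain ⟨γk, hγk⟩ := ih (by omega)
      have hqb : max (b - ε / 8 * τ * k) (a + κ) ≤ b := by
        refine max_le ?_ hb
        have : 0 ≤ ε / 8 * τ * k := by positivity
        linarith
      obtain ⟨γ', hγ'⟩ := step_path hS ha hma hε hC hκ hd hτ00 hτsm hγk
        (hpow1 k (by omega)) (hpow2 k (by omega)) hqb h0 h1
      refine ⟨γ', hγ'.mono ?_ ?_ ?_⟩
      · rw [pow_succ, ← mul_assoc]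
      · rw [pow_succ, ← mul_assoc]
      · refine max_le ?_ (le_max_right _ _)
        rw [sub_le_iff_le_add]
        refine max_le ?_ ?_
        · have : b - ε / 8 * τ * ((k : ℕ) + 1 : ℕ) ≤
            max (b - ε / 8 * τ * ((k : ℕ) + 1 : ℕ)) (a + κ) := le_max_left _ _
          push_cast at this ⊢
          linarith
        · have : a + κ ≤ max (b - ε / 8 * τ * ((k : ℕ) + 1 : ℕ)) (a + κ) := le_max_right _ _
          have h2 : 0 ≤ ε / 8 * τ := by positivity
          linarith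
  obtain ⟨γ', hγ'⟩ := hind N le_rfl
  refine ⟨γ', hγ'.mono (hpow1 N le_rfl) (hpow2 N le_rfl) (max_le ?_ le_rfl)⟩
  have h2 : ε / 8 * τ * N = b - (a + κ) := by
    rw [mul_assoc, hτN, hT0]
    field_simp
  rw [h2]
  linarith

/-- splitting of mass costs energy -/
theorem split_energy (hS : SobVStmt) (hPP : PosPartStmt) {Ω : Set E} {u : BB} (hu : u ∈ V Ω)
    (h1 : p6 u = 1) (hp : pp u = 1 / 2) : 3 / 2 * S0 ≤ dI u u := by
  obtain ⟨w, hw, hwf, hwg⟩ := hPP Ω u hu
  obtain ⟨w', hw', hwf', hwg'⟩ := hPP Ω (-u) ((V Ω).neg_mem hu)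
  have e1 : p6 w = 1 / 2 := by
    rw [← hp]
    unfold p6 pp
    exact integral_congr_ae (hwf.mono fun x hx => by simp only [hx])
  have e2 : p6 w' = 1 / 2 := by
    have i1 : Integrable (fun x => fn u x ^ 6) := integrable_pow6 (mem6 hS (V_univ hu))
    have i2 : Integrable (fun x => max (fn u x) 0 ^ 6) := integrable_pow6 (memPos hS (V_univ hu))
    have h2 : p6 w' = p6 u - pp u := by
      unfold p6 pp
      rw [← integral_sub i1 i2]
      refine integral_congr_ae ((hwf'.and (fn_neg u)).mono fun x hx => ?_)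
      simp only [hx.1, hx.2, Pi.neg_apply]
      rcases le_total 0 (fn u x) with h | h
      · rw [max_eq_left h, max_eq_right (by linarith)]; ring
      · rw [max_eq_right h, max_eq_left (by linarith)]; ring
    rw [h2, h1, hp]
    norm_num
  have hhalf : (3 / 4 : ℝ) ≤ (1 / 2 : ℝ) ^ ((1 : ℝ) / 3) := by
    have h2 : (3 / 4 : ℝ) = ((3 / 4 : ℝ) ^ (3 : ℕ)) ^ ((1 : ℝ) / 3) := by
      rw [← Real.rpow_natCast, ← Real.rpow_mul (by norm_num)]
      norm_num
    rw [h2]
    exact Real.rpow_le_rpow (by norm_num) (by norm_num) (by norm_num)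
  have s1 := (hS.2 w (V_univ hw)).2
  have s2 := (hS.2 w' (V_univ hw')).2
  rw [e1] at s1
  rw [e2] at s2
  have hS0 := hS.1
  have s3 : S0 * (3 / 4) ≤ S0 * (1 / 2 : ℝ) ^ ((1 : ℝ) / 3) :=
    mul_le_mul_of_nonneg_left hhalf hS0.le
  have e3 : dI w w + dI w' w' ≤ dI u u := by
    have i : ∀ z : BB, Integrable (fun x => ⟪gr z x, gr z x⟫_ℝ) := fun z =>
      L2.integrable_inner z.snd z.snd
    unfold dI
    rw [← integral_add (i w) (i w')]
    refine integral_mono_ae ((i w).add (i w')) (i u) ?_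
    filter_upwards [hwg, hwg', fn_neg u, gr_neg u] with x g1 g2 g3 g4
    rw [g1, g2, g3, g4]
    simp only [Pi.neg_apply]
    have h0 : 0 ≤ ⟪gr u x, gr u x⟫_ℝ := real_inner_self_nonneg
    rcases lt_trichotomy (fn u x) 0 with h | h | h
    · rw [if_neg (by linarith), if_pos (by linarith)]
      simp
    · rw [if_neg (by linarith), if_neg (by linarith)]
      simp
    · rw [if_pos h, if_neg (by linarith)]
      simp
  linarith

end SI

open SI in
/-- module I -/
theorem seqStmt (hB : BarrierStmt) (hP : PathStmt) (hPS : PSStmt) (hS : SobVStmt)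
    (hPP : PosPartStmt) : SeqStmt := by
  intro Ω hΩo hΩb hΩs l1 l2 e1 e2 f1 f2 hE
  obtain ⟨δ, hδ0, hδl, m0, hm0, hbar⟩ := hB Ω hΩo hΩb hΩs l1 l2 e1 e2 f1 f2 hE
  obtain ⟨η0, hη0, hηl, m0', hm0', hpath⟩ := hP Ω hΩo hΩb l1 l2 e1 e2 f1 f2 hE δ hδ0 hδl
  have hl1 := hE.pos
  have hS0 := hS.1
  set a := l1 + δ / 2 with ha
  set b := l2 - η0 with hb
  have hab : a + δ / 4 ≤ b := by linarith
  obtain ⟨ε0, hε0, m1, hm1, hps⟩ := hPS Ω hΩo hΩb l1 l2 e1 e2 f1 f2 hE a b (by linarith)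
    (by linarith) (by linarith)
  refine ⟨l1 + δ / 4, l2 - η0 / 2, by linarith, by linarith, fun εt hεt => ?_⟩
  set ε := min (min ε0 (δ / 4)) (min (η0 / 2) (εt / 2)) with hε
  have hεpos : 0 < ε := lt_min (lt_min hε0 (by linarith)) (lt_min (by linarith) (by linarith))
  have hε1 : ε ≤ ε0 := (min_le_left _ _).trans (min_le_left _ _)
  have hε2 : ε ≤ δ / 4 := (min_le_left _ _).trans (min_le_right _ _)
  have hε3 : ε ≤ η0 / 2 := (min_le_right _ _).trans (min_le_left _ _)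
  have hε4 : ε ≤ εt / 2 := (min_le_right _ _).trans (min_le_right _ _)
  set T0 : ℝ := 8 * (b - (a + δ / 4)) / ε with hT0
  have hb0 : 0 < b := by linarith
  set mb := min (min (m0 / 2) m1) (min (min (εt / 2) 1) (S0 / (4 * (b + 1)))) with hmb
  have hmbpos : 0 < mb := lt_min (lt_min (by linarith) hm1) (lt_min (lt_min (by linarith)
    one_pos) (by positivity))
  have hmb1 : mb ≤ m0 / 2 := (min_le_left _ _).trans (min_le_left _ _)
  have hmb2 : mb ≤ m1 := (min_le_left _ _).trans (min_le_right _ _)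
  have hmb3 : mb ≤ εt / 2 := (min_le_right _ _).trans ((min_le_left _ _).trans (min_le_left _ _))
  have hmb4 : mb ≤ 1 := (min_le_right _ _).trans ((min_le_left _ _).trans (min_le_right _ _))
  have hmb5 : mb ≤ S0 / (4 * (b + 1)) := (min_le_right _ _).trans (min_le_right _ _)
  set m := min (m0' / 2) (mb * Real.exp (-(9 * T0)) / 4) with hm
  have hmpos : 0 < m := lt_min (by linarith) (by positivity)
  have hmm0 : m < m0' := (min_le_left _ _).trans_lt (by linarith)
  have hmm1 : 4 * m ≤ mb * Real.exp (-(9 * T0)) := by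
    have : m ≤ mb * Real.exp (-(9 * T0)) / 4 := min_le_right _ _
    linarith
  set ma := m / 4 * Real.exp (-(18 * T0)) with hma
  have hmapos : 0 < ma := by positivity
  by_contra hcon
  -- no critical points
  have hNo : ∀ u ∈ V Ω, p6 u = 1 → ma ≤ mI u u → mI u u ≤ mb → ∀ th : ℝ, a ≤ th → th ≤ b →
      dI u u = S0 + th * mI u u → ∀ σ : ℝ, |σ| ≤ ε →
        ¬ (∀ η ∈ V Ω, dI u η = (th + σ) * mI u η + (S0 - σ * mI u u) * p5 u η) := by
    intro u hu hu1 _ hu3 th ht1 ht2 _ σ hσ heq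
    obtain ⟨σ1, σ2⟩ := abs_le.1 hσ
    refine hcon ⟨u, hu, th + σ, S0 - σ * mI u u, hu1, by linarith, by linarith, by linarith, ?_,
      hu, heq⟩
    have e : S0 - σ * mI u u - S0 = -(σ * mI u u) := by ring
    rw [e, abs_neg, abs_mul, abs_of_nonneg (mI_nonneg u)]
    have h2 : |σ| * mI u u ≤ ε * 1 :=
      mul_le_mul hσ (hu3.trans hmb4) (mI_nonneg u) hεpos.le
    linarith
  obtain ⟨C, hC, hdesc⟩ := hps ε hεpos hε1 ma mb hmapos hmb2 hNo
  obtain ⟨γ, hγc, hγ, hγ0, hγ1, hg0, hg1⟩ := hpath m hmpos hmm0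
  -- extend the path
  set cl : ℝ → ℝ := fun t => max 0 (min 1 t) with hcl
  have hclc : Continuous cl := continuous_const.max (continuous_const.min continuous_id)
  have hclm : ∀ t, cl t ∈ Icc (0 : ℝ) 1 := fun t =>
    ⟨le_max_left _ _, max_le zero_le_one (min_le_left _ _)⟩
  have hcl0 : cl 0 = 0 := by rw [hcl]; simp
  have hcl1 : cl 1 = 1 := by rw [hcl]; simp
  have hpth : Pth Ω (m / 4) (4 * m) b (γ 0) (γ 1) (fun t => γ (cl t)) := by
    refine ⟨hγc.comp_continuous hclc hclm, fun t => (hγ _ (hclm t)).1,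
      fun t => (hγ _ (hclm t)).2.1, fun t => (hγ _ (hclm t)).2.2.1,
      fun t => (hγ _ (hclm t)).2.2.2.1, fun t => (hγ _ (hclm t)).2.2.2.2.2, ?_, ?_⟩
    · simp only [hcl0]
    · simp only [hcl1]
  obtain ⟨Γ, hΓ⟩ := iterate hS (a := a) (b := b) (ma := ma) (mb := mb) (ε := ε) (C := C)
    (κ := δ / 4) (by linarith) hmapos hεpos hC.le (by linarith) hab hdesc hpth le_rfl (by
      have h2 := mul_le_mul_of_nonneg_right hmm1 (Real.exp_pos (9 * T0)).le
      rw [mul_assoc mb, ← Real.exp_add] at h2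
      simp only [neg_add_cancel, Real.exp_zero, mul_one] at h2
      exact h2) hγ0 hγ1
  -- the positive part
  have hΓV : ∀ t, Γ t ∈ V univ := fun t => V_univ (hΓ.mem t)
  have hppc : Continuous fun t => pp (Γ t) := continuous_pp hS hΓ.cont hΓV
  have hΓen : ∀ t, dI (Γ t) (Γ t) < 3 / 2 * S0 := by
    intro t
    have h2 := hΓ.en t
    have h3 : (a + δ / 4) * mI (Γ t) (Γ t) ≤ b * mb :=
      mul_le_mul hab (hΓ.upp t) (mI_nonneg _) hb0.le
    have h4 : b * mb ≤ S0 / 4 := by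
      have h5 : b * mb ≤ b * (S0 / (4 * (b + 1))) := mul_le_mul_of_nonneg_left hmb5 hb0.le
      have h6 : b * (S0 / (4 * (b + 1))) ≤ S0 / 4 := by
        rw [mul_div_assoc', div_le_div_iff₀ (by positivity) (by norm_num)]
        nlinarith
      linarith
    linarith
  have hpp0 : 3 / 4 < pp (Γ 0) := by
    rw [hΓ.st]
    exact (hγ 0 ⟨le_rfl, zero_le_one⟩).2.2.2.2.1
  have hpp : ∀ t ∈ Icc (0 : ℝ) 1, 1 / 2 < pp (Γ t) := by
    intro t ht
    by_contra hlt
    rw [not_lt] at hlt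
    have hiv : (1 / 2 : ℝ) ∈ (fun t => pp (Γ t)) '' Icc 0 t := by
      refine intermediate_value_Icc' ht.1 hppc.continuousOn ⟨hlt, ?_⟩
      linarith
    obtain ⟨s, _, hs⟩ := hiv
    have h2 := split_energy hS hPP (hΓ.mem s) (hΓ.norm s) hs
    linarith [hΓen s]
  -- the separating functional
  have hgc : Continuous fun t => gI δ e1 (Γ t) := by
    unfold gI
    exact (continuous_const.mul (continuous_mI hΓ.cont continuous_const)).add
      (continuous_const.mul (continuous_p5 hS hΓ.cont hΓV (V_univ hE.mem1)))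
  have hgiv : (0 : ℝ) ∈ (fun t => gI δ e1 (Γ t)) '' Icc 0 1 := by
    refine intermediate_value_Icc' zero_le_one hgc.continuousOn ⟨?_, ?_⟩
    · simp only [hΓ.fi]; exact hg1.le
    · simp only [hΓ.st]; exact hg0.le
  obtain ⟨t, ht, hgt⟩ := hgiv
  refine hbar (Γ t) (hΓ.mem t) (hΓ.norm t) (hpp t ht) ?_ ?_ hgt
  · have := hΓ.upp t
    linarith
  · refine (hΓ.en t).trans ?_
    have : (a + δ / 4) * mI (Γ t) (Γ t) ≤ (l1 + δ) * mI (Γ t) (Γ t) :=
      mul_le_mul_of_nonneg_right (by linarith) (mI_nonneg _)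
    linarith

end Pool.Agent.H92.BN
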