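import Pool.Agent.H92.BN.MI_Step

/-!
# Module I: deformation of paths
-/

set_option autoImplicit false

namespace Pool.Agent.H92.BN.SI

open MeasureTheory Set Filter Topology
open scoped ContDiff InnerProductSpace ENNReal

/-- paths on the constraint manifold -/
structure Pth (Ω : Set E) (lo hi q : ℝ) (p0 p1 : BB) (γ : ℝ → BB) : Prop where
  cont : Continuous γ
  mem : ∀ t, γ t ∈ V Ω
  norm : ∀ t, p6 (γ t) = 1
  low : ∀ t, lo ≤ mI (γ t) (γ t)
  upp : ∀ t, mI (γ t) (γ t) ≤ hi
  en : ∀ t, dI (γ t) (γ t) ≤ S0 + q * mI (γ t) (γ t)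
  st : γ 0 = p0
  fi : γ 1 = p1

/-- existence of descent directions -/
def Desc (Ω : Set E) (a b ma mb ε C : ℝ) : Prop :=
  ∀ u ∈ V Ω, p6 u = 1 → ma ≤ mI u u → mI u u ≤ mb → ∀ th : ℝ, a ≤ th → th ≤ b →
    dI u u = S0 + th * mI u u →
    ∃ v ∈ V Ω, ‖v‖ ≤ C ∧ dI u v - S0 * p5 u v - th * mI u v ≤ - (ε / 2) * mI u u ∧
      |mI u v - mI u u * p5 u v| ≤ mI u u

theorem step_path (hS : SobVStmt) {Ω : Set E} {a b ma mb ε C τ κ : ℝ} (ha : 0 ≤ a)
    (hma : 0 < ma) (hε : 0 < ε) (hC : 0 ≤ C) (hκ : 0 < κ) (hd : Desc Ω a b ma mb ε C)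
    (hτ0 : 0 ≤ τ) (hτ : Small (C + 1) ma ε τ) {lo hi q : ℝ} {p0 p1 : BB} {γ : ℝ → BB}
    (hγ : Pth Ω lo hi q p0 p1 γ) (hlo : ma ≤ lo) (hhi : hi ≤ mb) (hq : q ≤ b)
    (h0 : dI p0 p0 < S0 + a * mI p0 p0) (h1 : dI p1 p1 < S0 + a * mI p1 p1) :
    ∃ γ' : ℝ → BB, Pth Ω (lo * (1 - 9 * τ)) (hi * (1 + 9 * τ)) (max (q - ε / 8 * τ) (a + κ))
      p0 p1 γ' := by
  -- abbreviations
  set G : ℝ → ℝ := fun t => mI (γ t) (γ t) with hG
  set D : ℝ → ℝ := fun t => dI (γ t) (γ t) with hD
  have hGc : Continuous G := continuous_mI hγ.cont hγ.cont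
  have hDc : Continuous D := continuous_dI hγ.cont hγ.cont
  have hG0 : ∀ t, 0 < G t := fun t => hma.trans_le (hlo.trans (hγ.low t))
  set th : ℝ → ℝ := fun t => (D t - S0) / G t with hth
  have hthc : Continuous th := (hDc.sub continuous_const).div hGc fun t => (hG0 t).ne'
  have hDth : ∀ t, D t = S0 + th t * G t := by
    intro t
    rw [hth]
    have := (hG0 t).ne'
    field_simp
    ring
  have hthq : ∀ t, th t ≤ q := by
    intro t
    rw [hth]
    simp only
    rw [div_le_iff₀ (hG0 t)]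
    have := hγ.en t
    show D t - S0 ≤ q * G t
    linarith
  -- selection of the vector field
  set T : ℝ → Set BB := fun t => {v | v ∈ V Ω ∧ ‖v‖ < C + 1 ∧ (a ≤ th t →
    dI (γ t) v - S0 * p5 (γ t) v - th t * mI (γ t) v < -(ε / 4) * G t ∧
    mI (γ t) v - G t * p5 (γ t) v < 2 * G t ∧
    -(2 * G t) < mI (γ t) v - G t * p5 (γ t) v)} with hT
  have hconv : ∀ t, Convex ℝ (T t) := by
    intro t v hv w hw α β hα hβ hαβ
    obtain ⟨v1, v2, v3⟩ := hv
    obtain ⟨w1, w2, w3⟩ := hw
    have hu := V_univ (hγ.mem t)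
    have hv' := V_univ v1
    have hw' := V_univ w1
    refine ⟨(V Ω).add_mem ((V Ω).smul_mem _ v1) ((V Ω).smul_mem _ w1), ?_, fun hta => ?_⟩
    · have := (convex_ball (0 : BB) (C + 1)) (by simpa using v2 : v ∈ Metric.ball (0 : BB) (C + 1))
        (by simpa using w2 : w ∈ Metric.ball (0 : BB) (C + 1)) hα hβ hαβ
      simpa using this
    · obtain ⟨v4, v5, v6⟩ := v3 hta
      obtain ⟨w4, w5, w6⟩ := w3 hta
      have hp : p5 (γ t) (α • v + β • w) = α * p5 (γ t) v + β * p5 (γ t) w := by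
        rw [p5_add hS hu ((V univ).smul_mem _ hv') ((V univ).smul_mem _ hw'), p5_smul, p5_smul]
      have hdd : dI (γ t) (α • v + β • w) = α * dI (γ t) v + β * dI (γ t) w := by
        rw [dI_add_right, dI_smul_right, dI_smul_right]
      have hmm : mI (γ t) (α • v + β • w) = α * mI (γ t) v + β * mI (γ t) w := by
        rw [mI_add_right, mI_smul_right, mI_smul_right]
      rw [hp, hdd, hmm]
      have key : ∀ (x y c : ℝ), x < c → y < c → α * x + β * y < c := by
        intro x y c hx hy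
        have := (convex_Iio c) (show x ∈ Iio c from hx) (show y ∈ Iio c from hy) hα hβ hαβ
        simpa using this
      refine ⟨?_, ?_, ?_⟩
      · have := key _ _ _ v4 w4
        calc _ = α * (dI (γ t) v - S0 * p5 (γ t) v - th t * mI (γ t) v) +
              β * (dI (γ t) w - S0 * p5 (γ t) w - th t * mI (γ t) w) := by ring
          _ < _ := this
      · have := key _ _ _ v5 w5
        calc _ = α * (mI (γ t) v - G t * p5 (γ t) v) +
              β * (mI (γ t) w - G t * p5 (γ t) w) := by ring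
          _ < _ := this
      · have := key (-(mI (γ t) v - G t * p5 (γ t) v)) (-(mI (γ t) w - G t * p5 (γ t) w))
          (2 * G t) (by linarith) (by linarith)
        have e : α * mI (γ t) v + β * mI (γ t) w - G t * (α * p5 (γ t) v + β * p5 (γ t) w) =
          -(α * -(mI (γ t) v - G t * p5 (γ t) v) + β * -(mI (γ t) w - G t * p5 (γ t) w)) := by
          ring
        rw [e]
        linarith
  have hloc : ∀ t, ∃ c : BB, ∀ᶠ y in 𝓝 t, c ∈ T y := by
    intro t
    by_cases hta : th t < a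
    · refine ⟨0, ?_⟩
      have h2 : ∀ᶠ y in 𝓝 t, th y < a := hthc.continuousAt.eventually (gt_mem_nhds hta)
      filter_upwards [h2] with y hy
      refine ⟨(V Ω).zero_mem, by rw [norm_zero]; linarith, fun h3 => ?_⟩
      exact absurd h3 (not_le.2 hy)
    · have hta' : a ≤ th t := not_lt.1 hta
      obtain ⟨v, hv, hvC, hA, hB⟩ := hd (γ t) (hγ.mem t) (hγ.norm t) (hlo.trans (hγ.low t))
        ((hγ.upp t).trans hhi) (th t) hta' ((hthq t).trans hq) (hDth t)
      refine ⟨v, ?_⟩
      have hp5c : Continuous fun t => p5 (γ t) v :=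
        continuous_p5 hS hγ.cont (fun t => V_univ (hγ.mem t)) (V_univ hv)
      have hdc : Continuous fun t => dI (γ t) v := continuous_dI hγ.cont continuous_const
      have hmc : Continuous fun t => mI (γ t) v := continuous_mI hγ.cont continuous_const
      have hGt := hG0 t
      have c1 : dI (γ t) v - S0 * p5 (γ t) v - th t * mI (γ t) v < -(ε / 4) * G t := by
        have : -(ε / 2) * G t < -(ε / 4) * G t := by nlinarith
        exact hA.trans_lt this
      obtain ⟨hB1, hB2⟩ := abs_le.1 hB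
      have c2 : mI (γ t) v - G t * p5 (γ t) v < 2 * G t := by
        show _ - mI (γ t) (γ t) * _ < 2 * mI (γ t) (γ t)
        have : 0 < mI (γ t) (γ t) := hGt
        linarith
      have c3 : -(2 * G t) < mI (γ t) v - G t * p5 (γ t) v := by
        show -(2 * mI (γ t) (γ t)) < _ - mI (γ t) (γ t) * _
        have : 0 < mI (γ t) (γ t) := hGt
        linarith
      have d1 : ∀ᶠ y in 𝓝 t, dI (γ y) v - S0 * p5 (γ y) v - th y * mI (γ y) v <
          -(ε / 4) * G y :=
        ((hdc.sub (continuous_const.mul hp5c)).sub (hthc.mul hmc)).continuousAt.eventually_lt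
          (continuous_const.mul hGc).continuousAt c1
      have d2 : ∀ᶠ y in 𝓝 t, mI (γ y) v - G y * p5 (γ y) v < 2 * G y :=
        (hmc.sub (hGc.mul hp5c)).continuousAt.eventually_lt
          (continuous_const.mul hGc).continuousAt c2
      have d3 : ∀ᶠ y in 𝓝 t, -(2 * G y) < mI (γ y) v - G y * p5 (γ y) v :=
        (continuous_const.mul hGc).neg.continuousAt.eventually_lt
          (hmc.sub (hGc.mul hp5c)).continuousAt c3
      filter_upwards [d1, d2, d3] with y y1 y2 y3
      exact ⟨hv, by linarith, fun _ => ⟨y1, y2, y3⟩⟩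
  obtain ⟨v, hv⟩ := exists_continuous_forall_mem_convex_of_local_const hconv hloc
  -- cut-off
  set χ : ℝ → ℝ := fun t => max 0 (min 1 ((th t - a) / κ)) with hχ
  have hχc : Continuous χ :=
    continuous_const.max (continuous_const.min ((hthc.sub continuous_const).div_const κ))
  have hχ0 : ∀ t, 0 ≤ χ t := fun t => le_max_left _ _
  have hχ1 : ∀ t, χ t ≤ 1 := fun t => max_le zero_le_one (min_le_left _ _)
  have hχz : ∀ t, th t ≤ a → χ t = 0 := by
    intro t h
    refine max_eq_left ((min_le_right _ _).trans ?_)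
    exact div_nonpos_of_nonpos_of_nonneg (by linarith) hκ.le
  have hχo : ∀ t, a + κ ≤ th t → χ t = 1 := by
    intro t h
    have h2 : 1 ≤ (th t - a) / κ := by rw [le_div_iff₀ hκ]; linarith
    rw [hχ]
    simp only
    rw [min_eq_left h2, max_eq_right zero_le_one]
  set s : ℝ → ℝ := fun t => τ * χ t with hs
  have hs0 : ∀ t, 0 ≤ s t := fun t => mul_nonneg hτ0 (hχ0 t)
  have hs1 : ∀ t, s t ≤ τ := fun t => mul_le_of_le_one_right hτ0 (hχ1 t)
  set w : ℝ → BB := fun t => γ t + s t • v t with hw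
  have hwc : Continuous w :=
    hγ.cont.add ((continuous_const.mul hχc).smul v.continuous)
  have hwV : ∀ t, w t ∈ V Ω := fun t =>
    (V Ω).add_mem (hγ.mem t) ((V Ω).smul_mem _ (hv t).1)
  -- pointwise facts
  have hpt : ∀ t, 0 < N6 (w t) ∧ lo * (1 - 9 * τ) ≤ mI (nz (w t)) (nz (w t)) ∧
      mI (nz (w t)) (nz (w t)) ≤ hi * (1 + 9 * τ) ∧
      dI (nz (w t)) (nz (w t)) ≤ S0 + (max (q - ε / 8 * τ) (a + κ)) * mI (nz (w t)) (nz (w t)) := by
    intro t
    have hGt := hG0 t
    have hlot := hγ.low t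
    have huppt := hγ.upp t
    have hτ1 := hτ.h1
    have hlo0 : 0 < lo := hma.trans_le hlo
    by_cases hta : th t ≤ a
    · have hst : s t = 0 := by rw [hs]; simp only; rw [hχz t hta, mul_zero]
      have hwt : w t = γ t := by rw [hw]; simp only; rw [hst, zero_smul, add_zero]
      rw [hwt, nz_self (hγ.norm t)]
      refine ⟨by rw [N6_eq_one (hγ.norm t)]; norm_num, ?_, ?_, ?_⟩
      · nlinarith
      · nlinarith
      · have h2 : dI (γ t) (γ t) = S0 + th t * mI (γ t) (γ t) := hDth t
        rw [h2]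
        have h3 : th t ≤ max (q - ε / 8 * τ) (a + κ) := hta.trans (by
          refine le_trans ?_ (le_max_right _ _); linarith)
        have := mul_le_mul_of_nonneg_right h3 hGt.le
        linarith
    · have hta' : a ≤ th t := (not_le.1 hta).le
      obtain ⟨v1, v2, v3⟩ := hv t
      obtain ⟨v4, v5, v6⟩ := v3 hta'
      have hsm : Small (C + 1) ma ε (s t) := hτ.mono hS (by linarith) (hs1 t)
      obtain ⟨r1, r2, r3, r4⟩ := step_bound hS (V_univ (hγ.mem t)) (V_univ v1) (hγ.norm t)
        (M := C + 1) (ma := ma) (ε := ε) (s := s t) (th := th t) v2.le hma hε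
        (hlo.trans hlot) (ha.trans hta') (hDth t) v4.le (abs_le.2 ⟨v6.le, v5.le⟩) (hs0 t) hsm
      refine ⟨r1, ?_, ?_, ?_⟩
      · refine le_trans ?_ r2
        have h2 : 1 - 9 * τ ≤ 1 - 9 * s t := by linarith [hs1 t]
        have h3 : 0 ≤ 1 - 9 * τ := by linarith
        exact mul_le_mul hlot h2 h3 hGt.le
      · refine r3.trans ?_
        have h2 : 1 + 9 * s t ≤ 1 + 9 * τ := by linarith [hs1 t]
        exact mul_le_mul huppt h2 (by linarith [hs0 t]) (hGt.le.trans huppt)
      · refine r4.trans ?_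
        have h2 : th t - ε / 8 * s t ≤ max (q - ε / 8 * τ) (a + κ) := by
          by_cases h3 : a + κ ≤ th t
          · have h4 : s t = τ := by rw [hs]; simp only; rw [hχo t h3, mul_one]
            rw [h4]
            exact le_trans (by linarith [hthq t]) (le_max_left _ _)
          · refine le_trans ?_ (le_max_right _ _)
            have : 0 ≤ ε / 8 * s t := mul_nonneg (by positivity) (hs0 t)
            linarith [not_le.1 h3]
        have h5 : 0 ≤ mI (nz (γ t + s t • v t)) (nz (γ t + s t • v t)) := mI_nonneg _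
        have := mul_le_mul_of_nonneg_right h2 h5
        show S0 + _ ≤ S0 + _
        linarith
  have hend : ∀ t, th t < a → nz (w t) = γ t := by
    intro t hta
    have hst : s t = 0 := by rw [hs]; simp only; rw [hχz t hta.le, mul_zero]
    have hwt : w t = γ t := by rw [hw]; simp only; rw [hst, zero_smul, add_zero]
    rw [hwt, nz_self (hγ.norm t)]
  have hth0 : ∀ t p, γ t = p → dI p p < S0 + a * mI p p → th t < a := by
    intro t p hp h2
    rw [hth]
    simp only
    rw [div_lt_iff₀ (hG0 t)]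
    show dI (γ t) (γ t) - S0 < a * mI (γ t) (γ t)
    rw [hp]
    linarith
  refine ⟨fun t => nz (w t), ?_, fun t => nz_mem (hwV t), fun t => p6_nz (hpt t).1,
    fun t => (hpt t).2.1, fun t => (hpt t).2.2.1, fun t => (hpt t).2.2.2, ?_, ?_⟩
  · have hNc : Continuous fun t => N6 (w t) := continuous_N6 hS hwc fun t => V_univ (hwV t)
    exact (hNc.inv₀ fun t => (hpt t).1.ne').smul hwc
  · show nz (w 0) = p0
    rw [hend 0 (hth0 0 p0 hγ.st h0), hγ.st]
  · show nz (w 1) = p1
    rw [hend 1 (hth0 1 p1 hγ.fi h1), hγ.fi]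

end Pool.Agent.H92.BN.SI
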