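import Pool.Agent.H92.BN.MI_V

/-!
# Module I: one step of the deformation
-/

set_option autoImplicit false

namespace Pool.Agent.H92.BN.SI

open MeasureTheory Set Filter Topology
open scoped ContDiff InnerProductSpace ENNReal

/-- normalisation in `L⁶` -/
noncomputable def nz (w : BB) : BB := (N6 w)⁻¹ • w

theorem nz_mem {Ω : Set E} {w : BB} (hw : w ∈ V Ω) : nz w ∈ V Ω := (V Ω).smul_mem _ hw

theorem p6_nz {w : BB} (hw : 0 < N6 w) : p6 (nz w) = 1 := by
  refine p6_eq_one ?_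
  unfold nz
  rw [N6_smul, abs_of_pos (inv_pos.2 hw), inv_mul_cancel₀ hw.ne']

theorem dI_nz (w : BB) : dI (nz w) (nz w) = dI w w / N6 w ^ 2 := by
  unfold nz
  rw [dI_smul_left, dI_smul_right, ← mul_assoc, ← mul_inv, ← sq, inv_mul_eq_div]

theorem mI_nz (w : BB) : mI (nz w) (nz w) = mI w w / N6 w ^ 2 := by
  unfold nz
  rw [mI_smul_left, mI_smul_right, ← mul_assoc, ← mul_inv, ← sq, inv_mul_eq_div]

theorem nz_self {u : BB} (h : p6 u = 1) : nz u = u := by
  unfold nz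
  rw [N6_eq_one h, inv_one, one_smul]

/-- admissible step sizes -/
structure Small (M ma ε s : ℝ) : Prop where
  h1 : s ≤ 1 / 100
  h2 : s * (kS * M) ≤ 1 / 8
  h3 : s * (19 * (1 + (kS * M) ^ 6)) ≤ 1 / 8
  h4 : s * M ^ 2 ≤ ma / 4
  h5 : s * M ^ 2 ≤ ε / 4 * ma

theorem Small.mono {M ma ε s τ : ℝ} (hS : SobVStmt) (hM : 0 ≤ M) (h : Small M ma ε τ)
    (hs : s ≤ τ) : Small M ma ε s := by
  have hk := (kS_pos hS).le
  have h1 : 0 ≤ kS * M := mul_nonneg hk hM
  refine ⟨hs.trans h.h1, ?_, ?_, ?_, ?_⟩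
  · exact (mul_le_mul_of_nonneg_right hs h1).trans h.h2
  · exact (mul_le_mul_of_nonneg_right hs (by positivity)).trans h.h3
  · exact (mul_le_mul_of_nonneg_right hs (by positivity)).trans h.h4
  · exact (mul_le_mul_of_nonneg_right hs (by positivity)).trans h.h5

theorem exists_small (hS : SobVStmt) {M ma ε : ℝ} (hM : 0 < M) (hma : 0 < ma) (hε : 0 < ε) :
    ∃ τ, 0 < τ ∧ Small M ma ε τ := by
  have hk := kS_pos hS
  have a2 : 0 < kS * M := mul_pos hk hM
  have a3 : 0 < 19 * (1 + (kS * M) ^ 6) := by positivity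
  have a4 : 0 < M ^ 2 := by positivity
  set c2 := 1 / 8 / (kS * M) with hc2
  set c3 := 1 / 8 / (19 * (1 + (kS * M) ^ 6)) with hc3
  set c4 := ma / 4 / M ^ 2 with hc4
  set c5 := ε / 4 * ma / M ^ 2 with hc5
  refine ⟨min (1 / 100) (min c2 (min c3 (min c4 c5))), ?_, ?_, ?_, ?_, ?_, ?_⟩
  · refine lt_min (by norm_num) (lt_min (by positivity) (lt_min (by positivity)
      (lt_min (by positivity) (by positivity))))
  · exact min_le_left _ _
  · rw [← le_div_iff₀ a2]
    exact (min_le_right _ _).trans (min_le_left _ _)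
  · rw [← le_div_iff₀ a3]
    exact (min_le_right _ _).trans ((min_le_right _ _).trans (min_le_left _ _))
  · rw [← le_div_iff₀ a4]
    exact (min_le_right _ _).trans ((min_le_right _ _).trans ((min_le_right _ _).trans
      (min_le_left _ _)))
  · rw [← le_div_iff₀ a4]
    exact (min_le_right _ _).trans ((min_le_right _ _).trans ((min_le_right _ _).trans
      (min_le_right _ _)))

/-- the real-variable part of the estimates -/
theorem step_real {S g x y m dv duv Q X W th ε ma M2 s : ℝ} (hS : 0 ≤ S) (hs0 : 0 ≤ s)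
    (s1 : s ≤ 1 / 100) (hsy1 : -(1 / 8) ≤ s * y) (hsy2 : s * y ≤ 1 / 8)
    (s4 : s * M2 ≤ ma / 4) (s5 : s * M2 ≤ ε / 4 * ma) (hma : 0 < ma) (hε : 0 < ε) (hg : ma ≤ g)
    (hth : 0 ≤ th) (hm0 : 0 ≤ m) (hm1 : m ≤ M2) (hdv : dv ≤ M2)
    (hB1 : -(2 * g) ≤ x - g * y) (hB2 : x - g * y ≤ 2 * g)
    (hA : duv - S * y - th * x ≤ -(ε / 4) * g)
    (hlow : 1 + 2 * (s * y) ≤ Q) (hup : Q ≤ 1 + 2 * (s * y) + s / 8)
    (hX : X = g + 2 * s * x + s ^ 2 * m) (hW : W = S + th * g + 2 * s * duv + s ^ 2 * dv) :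
    g * (1 - 9 * s) * Q ≤ X ∧ X ≤ g * (1 + 9 * s) * Q ∧
      W ≤ (S + (th - ε / 8 * s) * (X / Q)) * Q := by
  have hg0 : 0 < g := hma.trans_le hg
  have hQ0 : 3 / 4 ≤ Q := by linarith
  have hQpos : 0 < Q := by linarith
  set t := s * y with ht
  set r := s * g with hr
  have hr0 : 0 ≤ r := mul_nonneg hs0 hg0.le
  have e1 : g * t = r * y := by rw [ht, hr]; ring
  have hsx1 : s * x ≤ g * t + 2 * r := by
    have := mul_le_mul_of_nonneg_left hB2 hs0
    have e : s * (x - g * y) = s * x - g * t := by rw [ht]; ring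
    have e' : s * (2 * g) = 2 * r := by rw [hr]; ring
    rw [e, e'] at this
    linarith
  have hsx2 : g * t - 2 * r ≤ s * x := by
    have := mul_le_mul_of_nonneg_left hB1 hs0
    have e : s * (x - g * y) = s * x - g * t := by rw [ht]; ring
    have e' : s * -(2 * g) = -(2 * r) := by rw [hr]; ring
    rw [e, e'] at this
    linarith
  have hsM : s * (s * M2) ≤ r / 4 := by
    have h1 : s * M2 ≤ g / 4 := by linarith
    have := mul_le_mul_of_nonneg_left h1 hs0
    have e : s * (g / 4) = r / 4 := by rw [hr]; ring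
    linarith
  have hsm : s ^ 2 * m ≤ r / 4 := by
    calc s ^ 2 * m ≤ s ^ 2 * M2 := mul_le_mul_of_nonneg_left hm1 (by positivity)
      _ = s * (s * M2) := by ring
      _ ≤ _ := hsM
  have hsm0 : 0 ≤ s ^ 2 * m := by positivity
  have hX1 : X ≤ g + 2 * (g * t) + 4 * r + r / 4 := by
    have : 2 * s * x = 2 * (s * x) := by ring
    rw [hX, this]; linarith
  have hX2 : g + 2 * (g * t) - 4 * r ≤ X := by
    have : 2 * s * x = 2 * (s * x) := by ring
    rw [hX, this]; linarith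
  have hrg : r ≤ g / 100 := by
    have := mul_le_mul_of_nonneg_right s1 hg0.le
    linarith
  have hgt : g * t ≤ g / 8 := by
    have := mul_le_mul_of_nonneg_left hsy2 hg0.le
    linarith
  have hX3 : X ≤ 2 * g := by linarith
  refine ⟨?_, ?_, ?_⟩
  · have h2 : 0 ≤ g * (1 - 9 * s) := mul_nonneg hg0.le (by linarith)
    refine (mul_le_mul_of_nonneg_left hup h2).trans (le_trans ?_ hX2)
    have h4 : (1 - 9 * s) * (1 + 2 * t + s / 8) ≤ 1 + 2 * t - 4 * s := by
      have h5 : 0 ≤ s * (1 / 8 + t) := mul_nonneg hs0 (by linarith)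
      have h6 : 0 ≤ s * s := mul_nonneg hs0 hs0
      have e : (1 - 9 * s) * (1 + 2 * t + s / 8) =
          1 + 2 * t - 9 * s + s / 8 - 18 * (s * (1 / 8 + t)) + 9 / 4 * s - 9 / 8 * (s * s) := by
        ring
      rw [e]
      linarith
    have h7 := mul_le_mul_of_nonneg_left h4 hg0.le
    have e : g * (1 + 2 * t - 4 * s) = g + 2 * (g * t) - 4 * r := by rw [hr]; ring
    rw [e] at h7
    calc g * (1 - 9 * s) * (1 + 2 * t + s / 8) = g * ((1 - 9 * s) * (1 + 2 * t + s / 8)) := by ring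
      _ ≤ _ := h7
  · have h2 : 0 ≤ g * (1 + 9 * s) := mul_nonneg hg0.le (by linarith)
    refine le_trans hX1 (le_trans ?_ (mul_le_mul_of_nonneg_left hlow h2))
    have h4 : 1 + 2 * t + 4 * s + s / 4 ≤ (1 + 9 * s) * (1 + 2 * t) := by
      have h5 : 0 ≤ s * (1 / 8 + t) := mul_nonneg hs0 (by linarith)
      have e : (1 + 9 * s) * (1 + 2 * t) =
          1 + 2 * t + 9 * s + 18 * (s * (1 / 8 + t)) - 9 / 4 * s := by ring
      rw [e]
      linarith
    have h7 := mul_le_mul_of_nonneg_left h4 hg0.le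
    have e : g * (1 + 2 * t + 4 * s + s / 4) = g + 2 * (g * t) + 4 * r + r / 4 := by
      rw [hr]; ring
    rw [e] at h7
    calc g + 2 * (g * t) + 4 * r + r / 4 ≤ g * ((1 + 9 * s) * (1 + 2 * t)) := h7
      _ = _ := by ring
  · have e2 : (S + (th - ε / 8 * s) * (X / Q)) * Q = S * Q + (th - ε / 8 * s) * X := by
      field_simp
    rw [e2, hW]
    have h2 : S * (1 + 2 * t) ≤ S * Q := mul_le_mul_of_nonneg_left hlow hS
    have h3 := mul_le_mul_of_nonneg_left hA hs0
    have e3 : s * (duv - S * y - th * x) = s * duv - S * t - th * (s * x) := by rw [ht]; ring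
    have e4 : s * (-(ε / 4) * g) = -(ε / 4) * r := by rw [hr]; ring
    rw [e3, e4] at h3
    have h4 : s ^ 2 * dv ≤ ε / 4 * r := by
      have h5 : s * M2 ≤ ε / 4 * g := s5.trans (mul_le_mul_of_nonneg_left hg (by positivity))
      calc s ^ 2 * dv ≤ s ^ 2 * M2 := mul_le_mul_of_nonneg_left hdv (by positivity)
        _ = s * (s * M2) := by ring
        _ ≤ s * (ε / 4 * g) := mul_le_mul_of_nonneg_left h5 hs0
        _ = ε / 4 * r := by rw [hr]; ring
    have h5 : th * (g + 2 * (s * x)) ≤ th * X := by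
      refine mul_le_mul_of_nonneg_left ?_ hth
      have : 2 * s * x = 2 * (s * x) := by ring
      rw [hX, this]; linarith
    have h8 : ε / 8 * s * X ≤ ε / 4 * r := by
      have := mul_le_mul_of_nonneg_left hX3 (show 0 ≤ ε / 8 * s by positivity)
      have e : ε / 8 * s * (2 * g) = ε / 4 * r := by rw [hr]; ring
      linarith
    have e5 : th * (g + 2 * (s * x)) = th * g + 2 * (th * (s * x)) := by ring
    have e6 : (th - ε / 8 * s) * X = th * X - ε / 8 * s * X := by ring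
    rw [e5] at h5
    rw [e6]
    have e7 : 2 * s * duv = 2 * (s * duv) := by ring
    have e8 : S * (1 + 2 * t) = S + 2 * (S * t) := by ring
    rw [e7]
    rw [e8] at h2
    linarith

/-- the estimates for one step at one point -/
theorem step_bound (hS : SobVStmt) {u v : BB} (hu : u ∈ V univ) (hv : v ∈ V univ)
    (h1 : p6 u = 1) {M ma ε s th : ℝ} (hM : ‖v‖ ≤ M) (hma : 0 < ma) (hε : 0 < ε)
    (hg : ma ≤ mI u u) (hth : 0 ≤ th) (hD : dI u u = S0 + th * mI u u)
    (hA : dI u v - S0 * p5 u v - th * mI u v ≤ -(ε / 4) * mI u u)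
    (hB : |mI u v - mI u u * p5 u v| ≤ 2 * mI u u) (hs0 : 0 ≤ s) (hs : Small M ma ε s) :
    0 < N6 (u + s • v) ∧
      mI u u * (1 - 9 * s) ≤ mI (nz (u + s • v)) (nz (u + s • v)) ∧
      mI (nz (u + s • v)) (nz (u + s • v)) ≤ mI u u * (1 + 9 * s) ∧
      dI (nz (u + s • v)) (nz (u + s • v)) ≤
        S0 + (th - ε / 8 * s) * mI (nz (u + s • v)) (nz (u + s • v)) := by
  have hM0 : 0 ≤ M := (norm_nonneg v).trans hM
  have hk := (kS_pos hS).le
  have hL0 : 0 ≤ kS * M := mul_nonneg hk hM0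
  have hNv : N6 v ≤ kS * M := (N6_le hS hv).trans (mul_le_mul_of_nonneg_left hM hk)
  have hy1 : |p5 u v| ≤ kS * M := (abs_p5_le hS hu hv h1).trans hNv
  obtain ⟨hB1, hB2⟩ := abs_le.1 hB
  obtain ⟨s1, s2, s3, s4, s5⟩ := hs
  have hsy : |s * p5 u v| ≤ 1 / 8 := by
    rw [abs_mul, abs_of_nonneg hs0]
    exact (mul_le_mul_of_nonneg_left hy1 hs0).trans s2
  obtain ⟨hsy1, hsy2⟩ := abs_le.1 hsy
  have hlow : 1 + 2 * (s * p5 u v) ≤ N6 (u + s • v) ^ 2 := by
    have := N6_lower hS hu ((V univ).smul_mem s hv) h1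
    rwa [p5_smul] at this
  have hup : N6 (u + s • v) ^ 2 ≤ 1 + 2 * (s * p5 u v) + s / 8 := by
    have h2 := N6_upper hS hu hv h1 hs0 (s1.trans (by norm_num))
    have h3 : 19 * s ^ 2 * (1 + N6 v ^ 6) ≤ s / 8 := by
      have h4 : N6 v ^ 6 ≤ (kS * M) ^ 6 := pow_le_pow_left₀ (N6_nonneg v) hNv 6
      calc 19 * s ^ 2 * (1 + N6 v ^ 6) ≤ 19 * s ^ 2 * (1 + (kS * M) ^ 6) :=
            mul_le_mul_of_nonneg_left (by linarith) (by positivity)
        _ = s * (s * (19 * (1 + (kS * M) ^ 6))) := by ring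
        _ ≤ s * (1 / 8) := mul_le_mul_of_nonneg_left s3 hs0
        _ = s / 8 := by ring
    have h5 : 2 * s * p5 u v = 2 * (s * p5 u v) := by ring
    rw [h5] at h2
    linarith
  have hQpos : 0 < N6 (u + s • v) ^ 2 := by linarith
  have hN : 0 < N6 (u + s • v) := by
    refine lt_of_le_of_ne (N6_nonneg _) fun h0 => ?_
    rw [← h0] at hQpos
    norm_num at hQpos
  have hm1 : mI v v ≤ M ^ 2 := (mI_le v).trans (pow_le_pow_left₀ (norm_nonneg _) hM 2)
  have hdv : dI v v ≤ M ^ 2 := (dI_le v).trans (pow_le_pow_left₀ (norm_nonneg _) hM 2)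
  have hW : dI (u + s • v) (u + s • v) = S0 + th * mI u u + 2 * s * dI u v + s ^ 2 * dI v v := by
    rw [dI_expand, hD]
  obtain ⟨r1, r2, r3⟩ := step_real hS.1.le hs0 s1 hsy1 hsy2 s4 s5 hma hε hg hth (mI_nonneg v) hm1
    hdv hB1 hB2 hA hlow hup (mI_expand u v s) hW
  rw [mI_nz, dI_nz]
  exact ⟨hN, (le_div_iff₀ hQpos).2 r1, (div_le_iff₀ hQpos).2 r2, (div_le_iff₀ hQpos).2 r3⟩

end Pool.Agent.H92.BN.SI
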