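import Pool.Agent.H92.BN.Iface

/-!
# Toolbox for module I (min–max)
-/

set_option autoImplicit false

namespace Pool.Agent.H92.BN.SI

open MeasureTheory Set Filter Topology
open scoped ContDiff InnerProductSpace ENNReal

/-! ### the quadratic forms -/

theorem dI_eq (u v : BB) : dI u v = ⟪u.snd, v.snd⟫_ℝ := rfl

theorem mI_eq (u v : BB) : mI u v = ⟪u.fst, v.fst⟫_ℝ := by
  rw [L2.inner_def]
  unfold mI fn
  congr 1
  ext x
  rw [real_inner_comm]
  simp

theorem continuous_fst' : Continuous (fun u : BB => u.fst) := WithLp.continuous_fst 2 _ _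

theorem continuous_snd' : Continuous (fun u : BB => u.snd) := WithLp.continuous_snd 2 _ _

theorem continuous_dI {X : Type*} [TopologicalSpace X] {f g : X → BB} (hf : Continuous f)
    (hg : Continuous g) : Continuous fun x => dI (f x) (g x) := by
  simp only [dI_eq]
  exact (continuous_snd'.comp hf).inner (continuous_snd'.comp hg)

theorem continuous_mI {X : Type*} [TopologicalSpace X] {f g : X → BB} (hf : Continuous f)
    (hg : Continuous g) : Continuous fun x => mI (f x) (g x) := by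
  simp only [mI_eq]
  exact (continuous_fst'.comp hf).inner (continuous_fst'.comp hg)

theorem dI_comm (u v : BB) : dI u v = dI v u := by
  rw [dI_eq, dI_eq, real_inner_comm]

theorem mI_comm (u v : BB) : mI u v = mI v u := by
  rw [mI_eq, mI_eq, real_inner_comm]

theorem dI_add_right (u v w : BB) : dI u (v + w) = dI u v + dI u w := by
  simp only [dI_eq, WithLp.add_snd, inner_add_right]

theorem dI_smul_right (u v : BB) (c : ℝ) : dI u (c • v) = c * dI u v := by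
  simp only [dI_eq, WithLp.smul_snd, inner_smul_right]

theorem mI_add_right (u v w : BB) : mI u (v + w) = mI u v + mI u w := by
  simp only [mI_eq, WithLp.add_fst, inner_add_right]

theorem mI_smul_right (u v : BB) (c : ℝ) : mI u (c • v) = c * mI u v := by
  simp only [mI_eq, WithLp.smul_fst, inner_smul_right]

theorem dI_add_left (u v w : BB) : dI (u + v) w = dI u w + dI v w := by
  rw [dI_comm, dI_add_right, dI_comm w u, dI_comm w v]

theorem mI_add_left (u v w : BB) : mI (u + v) w = mI u w + mI v w := by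
  rw [mI_comm, mI_add_right, mI_comm w u, mI_comm w v]

theorem dI_smul_left (u v : BB) (c : ℝ) : dI (c • u) v = c * dI u v := by
  rw [dI_comm, dI_smul_right, dI_comm]

theorem mI_smul_left (u v : BB) (c : ℝ) : mI (c • u) v = c * mI u v := by
  rw [mI_comm, mI_smul_right, mI_comm]

theorem dI_nonneg (u : BB) : 0 ≤ dI u u := by rw [dI_eq]; exact real_inner_self_nonneg

theorem mI_nonneg (u : BB) : 0 ≤ mI u u := by rw [mI_eq]; exact real_inner_self_nonneg

theorem dI_le (u : BB) : dI u u ≤ ‖u‖ ^ 2 := by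
  rw [WithLp.prod_norm_sq_eq_of_L2, dI_eq, real_inner_self_eq_norm_sq]
  nlinarith [sq_nonneg ‖u.fst‖]

theorem mI_le (u : BB) : mI u u ≤ ‖u‖ ^ 2 := by
  rw [WithLp.prod_norm_sq_eq_of_L2, mI_eq, real_inner_self_eq_norm_sq]
  nlinarith [sq_nonneg ‖u.snd‖]

/-- quadratic expansion -/
theorem dI_expand (u v : BB) (s : ℝ) :
    dI (u + s • v) (u + s • v) = dI u u + 2 * s * dI u v + s ^ 2 * dI v v := by
  simp only [dI_add_left, dI_add_right, dI_smul_left, dI_smul_right, dI_comm v u]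
  ring

theorem mI_expand (u v : BB) (s : ℝ) :
    mI (u + s • v) (u + s • v) = mI u u + 2 * s * mI u v + s ^ 2 * mI v v := by
  simp only [mI_add_left, mI_add_right, mI_smul_left, mI_smul_right, mI_comm v u]
  ring

theorem V_mono {Ω Ω' : Set E} (h : Ω ⊆ Ω') : V Ω ≤ V Ω' := by
  unfold V
  refine Submodule.topologicalClosure_mono ?_
  rintro b ⟨φ, hφ, hb⟩
  exact ⟨φ, hφ.mono h, hb⟩

theorem V_univ {Ω : Set E} {u : BB} (h : u ∈ V Ω) : u ∈ V univ := V_mono (subset_univ _) h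

/-! ### pointwise inequalities -/

theorem abs6 (a : ℝ) : |a| ^ 6 = a ^ 6 := Even.pow_abs (by decide) a

theorem young5 (a b : ℝ) : a ^ 5 * b ≤ (5 * a ^ 6 + b ^ 6) / 6 := by
  have h : (5 * a ^ 6 + b ^ 6) / 6 - a ^ 5 * b =
      (a - b) ^ 2 * ((b ^ 2 + a * b) ^ 2 + a ^ 2 * (2 * (a + b) ^ 2 + 3 * a ^ 2)) / 6 := by ring
  have h2 : 0 ≤ (a - b) ^ 2 * ((b ^ 2 + a * b) ^ 2 + a ^ 2 * (2 * (a + b) ^ 2 + 3 * a ^ 2)) / 6 := by
    positivity
  linarith

theorem mul6_le {x y z : ℝ} (hx : 0 ≤ x) (hy : 0 ≤ y) (hz : 0 ≤ z) :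
    x * y ^ 4 * z ≤ x ^ 6 + y ^ 6 + z ^ 6 := by
  set m := max x (max y z) with hm
  have h1 : x ≤ m := le_max_left _ _
  have h2 : y ≤ m := (le_max_left _ _).trans (le_max_right _ _)
  have h3 : z ≤ m := (le_max_right _ _).trans (le_max_right _ _)
  have hm0 : 0 ≤ m := hx.trans h1
  have h4 : x * y ^ 4 * z ≤ m * m ^ 4 * m := by gcongr
  have h5 : m ^ 6 ≤ x ^ 6 + y ^ 6 + z ^ 6 := by
    have h6 : 0 ≤ x ^ 6 := by positivity
    have h7 : 0 ≤ y ^ 6 := by positivity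
    have h8 : 0 ≤ z ^ 6 := by positivity
    rcases max_choice x (max y z) with h | h
    · rw [hm, h]; linarith
    · rcases max_choice y z with h' | h'
      · rw [hm, h, h']; linarith
      · rw [hm, h, h']; linarith
  calc x * y ^ 4 * z ≤ m * m ^ 4 * m := h4
    _ = m ^ 6 := by ring
    _ ≤ _ := h5

/-- monomials of degree six -/
theorem mono6_le {x y : ℝ} (hx : 0 ≤ x) (hy : 0 ≤ y) (k : ℕ) (hk : k ≤ 6) :
    x ^ (6 - k) * y ^ k ≤ x ^ 6 + y ^ 6 := by
  set m := max x y with hm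
  have h1 : x ≤ m := le_max_left _ _
  have h2 : y ≤ m := le_max_right _ _
  have hm0 : 0 ≤ m := hx.trans h1
  have h4 : x ^ (6 - k) * y ^ k ≤ m ^ (6 - k) * m ^ k := by gcongr
  rw [← pow_add, Nat.sub_add_cancel hk] at h4
  refine h4.trans ?_
  rcases max_choice x y with h | h
  · rw [hm, h]; have : 0 ≤ y ^ 6 := by positivity
    linarith
  · rw [hm, h]; have : 0 ≤ x ^ 6 := by positivity
    linarith

theorem expand6 (a b : ℝ) {s : ℝ} (hs : 0 ≤ s) (hs1 : s ≤ 1) :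
    (a + s * b) ^ 6 ≤ a ^ 6 + 6 * s * (a ^ 5 * b) + s ^ 2 * (57 * (a ^ 6 + b ^ 6)) := by
  have e : (a + s * b) ^ 6 = a ^ 6 + 6 * s * (a ^ 5 * b) + s ^ 2 *
      (15 * (a ^ 4 * b ^ 2) + 20 * s * (a ^ 3 * b ^ 3) + 15 * s ^ 2 * (a ^ 2 * b ^ 4) +
        6 * s ^ 3 * (a * b ^ 5) + s ^ 4 * b ^ 6) := by ring
  rw [e]
  have key : ∀ k, k ≤ 6 → |a ^ (6 - k) * b ^ k| ≤ a ^ 6 + b ^ 6 := by
    intro k hk
    rw [abs_mul, abs_pow, abs_pow]
    have := mono6_le (abs_nonneg a) (abs_nonneg b) k hk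
    rwa [abs6, abs6] at this
  have hs2 : ∀ j : ℕ, s ^ j ≤ 1 := fun j => pow_le_one₀ hs hs1
  have hs3 : ∀ j : ℕ, 0 ≤ s ^ j := fun j => pow_nonneg hs j
  set A := a ^ 6 + b ^ 6 with hA
  have hA0 : 0 ≤ A := by positivity
  have k2 : a ^ 4 * b ^ 2 ≤ A := (le_abs_self _).trans (key 2 (by norm_num))
  have k3 : a ^ 3 * b ^ 3 ≤ A := (le_abs_self _).trans (key 3 (by norm_num))
  have k4 : a ^ 2 * b ^ 4 ≤ A := (le_abs_self _).trans (key 4 (by norm_num))
  have k5 : a * b ^ 5 ≤ A := by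
    have := (le_abs_self _).trans (key 5 (by norm_num))
    simpa using this
  have k6 : b ^ 6 ≤ A := by rw [hA]; have : 0 ≤ a ^ 6 := by positivity
                            linarith
  have m3 : s * (a ^ 3 * b ^ 3) ≤ A := by
    calc s * (a ^ 3 * b ^ 3) ≤ s * A := mul_le_mul_of_nonneg_left k3 hs
      _ ≤ 1 * A := mul_le_mul_of_nonneg_right hs1 hA0
      _ = A := one_mul A
  have m4 : s ^ 2 * (a ^ 2 * b ^ 4) ≤ A := by
    calc s ^ 2 * (a ^ 2 * b ^ 4) ≤ s ^ 2 * A := mul_le_mul_of_nonneg_left k4 (hs3 2)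
      _ ≤ 1 * A := mul_le_mul_of_nonneg_right (hs2 2) hA0
      _ = A := one_mul A
  have m5 : s ^ 3 * (a * b ^ 5) ≤ A := by
    calc s ^ 3 * (a * b ^ 5) ≤ s ^ 3 * A := mul_le_mul_of_nonneg_left k5 (hs3 3)
      _ ≤ 1 * A := mul_le_mul_of_nonneg_right (hs2 3) hA0
      _ = A := one_mul A
  have m6 : s ^ 4 * b ^ 6 ≤ A := by
    calc s ^ 4 * b ^ 6 ≤ s ^ 4 * A := mul_le_mul_of_nonneg_left k6 (hs3 4)
      _ ≤ 1 * A := mul_le_mul_of_nonneg_right (hs2 4) hA0
      _ = A := one_mul A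
  have h : 15 * (a ^ 4 * b ^ 2) + 20 * s * (a ^ 3 * b ^ 3) + 15 * s ^ 2 * (a ^ 2 * b ^ 4) +
        6 * s ^ 3 * (a * b ^ 5) + s ^ 4 * b ^ 6 ≤ 57 * A := by nlinarith
  have := mul_le_mul_of_nonneg_left h (hs3 2)
  linarith

/-! ### the space `L⁶` -/

theorem integrable_pow6 {f : E → ℝ} (hf : MemLp f 6 volume) : Integrable (fun x => f x ^ 6) := by
  have h := hf.integrable_norm_rpow (by norm_num) (by norm_num)
  have e : (fun x => ‖f x‖ ^ (6 : ℝ≥0∞).toReal) = fun x => f x ^ 6 := by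
    funext x
    rw [show (6 : ℝ≥0∞).toReal = ((6 : ℕ) : ℝ) by norm_num, Real.rpow_natCast, Real.norm_eq_abs,
      Even.pow_abs (by decide)]
  rwa [e] at h

theorem integrable_pow5_mul {f g : E → ℝ} (hf : MemLp f 6 volume) (hg : MemLp g 6 volume) :
    Integrable (fun x => f x ^ 5 * g x) := by
  refine Integrable.mono' ((integrable_pow6 hf).add (integrable_pow6 hg)) ?_
    (Eventually.of_forall fun x => ?_)
  · exact (hf.aestronglyMeasurable.pow 5).mul hg.aestronglyMeasurable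
  · rw [Real.norm_eq_abs, abs_mul, abs_pow]
    have := mono6_le (abs_nonneg (f x)) (abs_nonneg (g x)) 1 (by norm_num)
    rw [abs6, abs6] at this
    simpa using this

/-- the `L⁶` norm -/
noncomputable def n6 (f : E → ℝ) : ℝ := (∫ x, f x ^ 6) ^ ((1 : ℝ) / 6)

theorem int6_nonneg (f : E → ℝ) : 0 ≤ ∫ x, f x ^ 6 := integral_nonneg fun x => by
  show 0 ≤ f x ^ 6
  positivity

theorem n6_nonneg (f : E → ℝ) : 0 ≤ n6 f := Real.rpow_nonneg (int6_nonneg f) _

theorem n6_pow (f : E → ℝ) : n6 f ^ 6 = ∫ x, f x ^ 6 := by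
  unfold n6
  rw [← Real.rpow_natCast, ← Real.rpow_mul (int6_nonneg f)]
  norm_num

theorem n6_sq (f : E → ℝ) : n6 f ^ 2 = (∫ x, f x ^ 6) ^ ((1 : ℝ) / 3) := by
  unfold n6
  rw [← Real.rpow_natCast, ← Real.rpow_mul (int6_nonneg f)]
  norm_num

theorem n6_eq {f : E → ℝ} (hf : MemLp f 6 volume) : n6 f = (eLpNorm f 6 volume).toReal := by
  rw [hf.eLpNorm_eq_integral_rpow_norm (by norm_num) (by norm_num),
    ENNReal.toReal_ofReal (Real.rpow_nonneg (integral_nonneg fun x =>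
      Real.rpow_nonneg (norm_nonneg _) _) _)]
  unfold n6
  have e : ∀ x, ‖f x‖ ^ (6 : ℝ≥0∞).toReal = f x ^ 6 := by
    intro x
    rw [show (6 : ℝ≥0∞).toReal = ((6 : ℕ) : ℝ) by norm_num, Real.rpow_natCast, Real.norm_eq_abs,
      Even.pow_abs (by decide)]
  simp_rw [e]
  norm_num

theorem n6_add_le {f g : E → ℝ} (hf : MemLp f 6 volume) (hg : MemLp g 6 volume) :
    n6 (fun x => f x + g x) ≤ n6 f + n6 g := by
  have h1 : MemLp (fun x => f x + g x) 6 volume := hf.add hg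
  rw [n6_eq h1, n6_eq hf, n6_eq hg, ← ENNReal.toReal_add hf.2.ne hg.2.ne]
  refine ENNReal.toReal_mono (ENNReal.add_ne_top.2 ⟨hf.2.ne, hg.2.ne⟩) ?_
  exact eLpNorm_add_le hf.1 hg.1 (by norm_num)

theorem n6_mono {f g : E → ℝ} (hg : MemLp g 6 volume) (h : ∀ᵐ x, |f x| ≤ |g x|)
    (hf : MemLp f 6 volume) : n6 f ≤ n6 g := by
  rw [n6_eq hf, n6_eq hg]
  exact ENNReal.toReal_mono hg.2.ne (eLpNorm_mono_ae h)

theorem n6_congr {f g : E → ℝ} (h : f =ᵐ[volume] g) : n6 f = n6 g := by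
  unfold n6
  congr 1
  exact integral_congr_ae (h.mono fun x hx => by simp only [hx])

theorem n6_smul (f : E → ℝ) (c : ℝ) : n6 (fun x => c * f x) = |c| * n6 f := by
  unfold n6
  simp_rw [mul_pow]
  rw [integral_const_mul, Real.mul_rpow (by positivity) (int6_nonneg f)]
  congr 1
  rw [← abs6 c, ← Real.rpow_natCast, ← Real.rpow_mul (abs_nonneg c)]
  norm_num

/-- Hölder -/
theorem holder5 {f g : E → ℝ} (hf : MemLp f 6 volume) (hg : MemLp g 6 volume)
    (h1 : ∫ x, f x ^ 6 = 1) : ∫ x, f x ^ 5 * g x ≤ n6 g := by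
  have key : ∀ r : ℝ, 0 < r → ∫ x, f x ^ 5 * g x ≤ r * (5 / 6 + (∫ x, g x ^ 6) / r ^ 6 / 6) := by
    intro r hr
    have h2 : ∫ x, f x ^ 5 * g x ≤ ∫ x, r * ((5 * f x ^ 6 + g x ^ 6 / r ^ 6) / 6) := by
      refine integral_mono (integrable_pow5_mul hf hg)
        (((((integrable_pow6 hf).const_mul 5).add ((integrable_pow6 hg).div_const _)).div_const
          6).const_mul r) fun x => ?_
      have h3 := young5 (f x) (g x / r)
      rw [div_pow] at h3
      have h4 : f x ^ 5 * g x = r * (f x ^ 5 * (g x / r)) := by field_simp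
      show f x ^ 5 * g x ≤ r * ((5 * f x ^ 6 + g x ^ 6 / r ^ 6) / 6)
      rw [h4]
      exact mul_le_mul_of_nonneg_left h3 hr.le
    rw [integral_const_mul, integral_div, integral_add ((integrable_pow6 hf).const_mul 5)
      ((integrable_pow6 hg).div_const _), integral_const_mul, integral_div, h1] at h2
    refine h2.trans (le_of_eq ?_)
    ring
  by_cases h0 : n6 g = 0
  · have h2 : ∫ x, g x ^ 6 = 0 := by rw [← n6_pow, h0]; norm_num
    rw [h0]
    refine le_of_forall_pos_le_add fun r hr => ?_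
    have := key r hr
    rw [h2, zero_div, zero_div, add_zero] at this
    linarith
  · have hpos : 0 < n6 g := lt_of_le_of_ne (n6_nonneg g) (Ne.symm h0)
    have := key (n6 g) hpos
    rw [← n6_pow, div_self (pow_ne_zero 6 h0)] at this
    linarith

/-- lower bound for the norm of a sum -/
theorem lower6 {f g : E → ℝ} (hf : MemLp f 6 volume) (hg : MemLp g 6 volume)
    (h1 : ∫ x, f x ^ 6 = 1) : 1 + 2 * ∫ x, f x ^ 5 * g x ≤ n6 (fun x => f x + g x) ^ 2 := by
  have h2 : ∫ x, f x ^ 5 * (f x + g x) = 1 + ∫ x, f x ^ 5 * g x := by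
    have e : ∀ x, f x ^ 5 * (f x + g x) = f x ^ 6 + f x ^ 5 * g x := fun x => by ring
    simp_rw [e]
    rw [integral_add (integrable_pow6 hf) (integrable_pow5_mul hf hg), h1]
  have h3 := holder5 hf (hf.add hg) h1
  simp only [Pi.add_apply] at h3
  rw [h2] at h3
  have h5 : n6 (f + g) = n6 (fun x => f x + g x) := rfl
  rw [h5] at h3
  set I := ∫ x, f x ^ 5 * g x
  have h4 := n6_nonneg (fun x => f x + g x)
  by_cases h6 : 0 ≤ 1 + I
  · nlinarith [sq_nonneg I]
  · nlinarith [sq_nonneg (n6 fun x => f x + g x)]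

theorem abs_holder5 {f g : E → ℝ} (hf : MemLp f 6 volume) (hg : MemLp g 6 volume)
    (h1 : ∫ x, f x ^ 6 = 1) : |∫ x, f x ^ 5 * g x| ≤ n6 g := by
  refine abs_le.2 ⟨?_, holder5 hf hg h1⟩
  have h2 := holder5 hf hg.neg h1
  simp only [Pi.neg_apply] at h2
  have h3 : ∫ x, f x ^ 5 * -g x = - ∫ x, f x ^ 5 * g x := by
    rw [← integral_neg]
    congr 1
    ext x
    ring
  have h4 : n6 (-g) = n6 g := by
    unfold n6
    congr 1
    refine integral_congr_ae (Eventually.of_forall fun x => ?_)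
    show (-g x) ^ 6 = g x ^ 6
    ring
  rw [h3, h4] at h2
  linarith

theorem upper6 {f g : E → ℝ} (hf : MemLp f 6 volume) (hg : MemLp g 6 volume)
    (h1 : ∫ x, f x ^ 6 = 1) {s : ℝ} (hs : 0 ≤ s) (hs1 : s ≤ 1) :
    ∫ x, (f x + s * g x) ^ 6 ≤
      1 + 6 * s * (∫ x, f x ^ 5 * g x) + s ^ 2 * (57 * (1 + ∫ x, g x ^ 6)) := by
  have i1 := integrable_pow6 hf
  have i2 := integrable_pow6 hg
  have i3 := integrable_pow5_mul hf hg
  have i4 : Integrable (fun x => (f x + s * g x) ^ 6) :=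
    integrable_pow6 (f := fun x => f x + s * g x) (hf.add (hg.const_mul s))
  have i5 : Integrable (fun x => f x ^ 6 + 6 * s * (f x ^ 5 * g x)) := i1.add (i3.const_mul _)
  have i6 : Integrable (fun x => s ^ 2 * (57 * (f x ^ 6 + g x ^ 6))) :=
    ((i1.add i2).const_mul 57).const_mul _
  have h2 : ∫ x, (f x + s * g x) ^ 6 ≤ ∫ x, (f x ^ 6 + 6 * s * (f x ^ 5 * g x) +
      s ^ 2 * (57 * (f x ^ 6 + g x ^ 6))) :=
    integral_mono i4 (i5.add i6) fun x => expand6 _ _ hs hs1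
  rw [integral_add i5 i6, integral_add i1 (i3.const_mul _), integral_const_mul,
    integral_const_mul, integral_const_mul, integral_add i1 i2, h1] at h2
  exact h2

/-- Lipschitz type bound for `∫ f⁵ g` in `f` -/
theorem diff5 {f f' g : E → ℝ} (hf : MemLp f 6 volume) (hf' : MemLp f' 6 volume)
    (hg : MemLp g 6 volume) {r : ℝ} (hr : 0 < r) :
    |(∫ x, f x ^ 5 * g x) - ∫ x, f' x ^ 5 * g x| ≤
      5 * r * ((∫ x, (f x - f' x) ^ 6) / r ^ 6 + 64 * ((∫ x, f x ^ 6) + ∫ x, f' x ^ 6) +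
        ∫ x, g x ^ 6) := by
  have i1 := integrable_pow6 hf
  have i1' := integrable_pow6 hf'
  have i2 := integrable_pow6 hg
  have i3 := integrable_pow5_mul hf hg
  have i3' := integrable_pow5_mul hf' hg
  have i4 : Integrable (fun x => (f x - f' x) ^ 6) :=
    integrable_pow6 (f := fun x => f x - f' x) (hf.sub hf')
  rw [← integral_sub i3 i3']
  have i5 : Integrable (fun x => (f x - f' x) ^ 6 / r ^ 6 + 64 * (f x ^ 6 + f' x ^ 6)) :=
    (i4.div_const _).add ((i1.add i1').const_mul 64)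
  have h2 : |∫ x, (f x ^ 5 * g x - f' x ^ 5 * g x)| ≤
      ∫ x, 5 * r * ((f x - f' x) ^ 6 / r ^ 6 + 64 * (f x ^ 6 + f' x ^ 6) + g x ^ 6) := by
    rw [← Real.norm_eq_abs]
    refine norm_integral_le_of_norm_le ((i5.add i2).const_mul _) (Eventually.of_forall fun x => ?_)
    rw [Real.norm_eq_abs]
    set a := f x
    set b := f' x
    set c := g x
    have e1 : a ^ 5 * c - b ^ 5 * c = (a - b) * (a ^ 4 + a ^ 3 * b + a ^ 2 * b ^ 2 + a * b ^ 3 +
        b ^ 4) * c := by ring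
    have e2 : |a ^ 4 + a ^ 3 * b + a ^ 2 * b ^ 2 + a * b ^ 3 + b ^ 4| ≤ 5 * (|a| + |b|) ^ 4 := by
      have ha := abs_nonneg a
      have hb := abs_nonneg b
      have t1 : |a ^ 4| = |a| ^ 4 := abs_pow _ _
      have t2 : |a ^ 3 * b| = |a| ^ 3 * |b| := by rw [abs_mul, abs_pow]
      have t3 : |a ^ 2 * b ^ 2| = |a| ^ 2 * |b| ^ 2 := by rw [abs_mul, abs_pow, abs_pow]
      have t4 : |a * b ^ 3| = |a| * |b| ^ 3 := by rw [abs_mul, abs_pow]
      have t5 : |b ^ 4| = |b| ^ 4 := abs_pow _ _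
      have s1 := abs_add_le (a ^ 4 + a ^ 3 * b + a ^ 2 * b ^ 2 + a * b ^ 3) (b ^ 4)
      have s2 := abs_add_le (a ^ 4 + a ^ 3 * b + a ^ 2 * b ^ 2) (a * b ^ 3)
      have s3 := abs_add_le (a ^ 4 + a ^ 3 * b) (a ^ 2 * b ^ 2)
      have s4 := abs_add_le (a ^ 4) (a ^ 3 * b)
      have expd : 5 * (|a| + |b|) ^ 4 = (|a| ^ 4 + |a| ^ 3 * |b| + |a| ^ 2 * |b| ^ 2 +
          |a| * |b| ^ 3 + |b| ^ 4) + (4 * |a| ^ 4 + 19 * (|a| ^ 3 * |b|) +
          29 * (|a| ^ 2 * |b| ^ 2) + 19 * (|a| * |b| ^ 3) + 4 * |b| ^ 4) := by ring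
      have pos : 0 ≤ 4 * |a| ^ 4 + 19 * (|a| ^ 3 * |b|) +
          29 * (|a| ^ 2 * |b| ^ 2) + 19 * (|a| * |b| ^ 3) + 4 * |b| ^ 4 := by positivity
      rw [expd]
      linarith
    have e3 : |a ^ 5 * c - b ^ 5 * c| ≤ 5 * r * ((|a - b| / r) * (|a| + |b|) ^ 4 * |c|) := by
      rw [e1, abs_mul, abs_mul]
      calc |a - b| * |a ^ 4 + a ^ 3 * b + a ^ 2 * b ^ 2 + a * b ^ 3 + b ^ 4| * |c|
          ≤ |a - b| * (5 * (|a| + |b|) ^ 4) * |c| := by gcongr
        _ = 5 * r * ((|a - b| / r) * (|a| + |b|) ^ 4 * |c|) := by field_simp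
    refine e3.trans (mul_le_mul_of_nonneg_left ?_ (by positivity))
    have e4 := mul6_le (x := |a - b| / r) (y := |a| + |b|) (z := |c|) (by positivity)
      (by positivity) (abs_nonneg c)
    refine e4.trans ?_
    have e5 : (|a - b| / r) ^ 6 = (a - b) ^ 6 / r ^ 6 := by
      rw [div_pow, Even.pow_abs (by decide)]
    have e6 : |c| ^ 6 = c ^ 6 := Even.pow_abs (by decide) c
    have e7 : (|a| + |b|) ^ 6 ≤ 64 * (a ^ 6 + b ^ 6) := by
      have h1 : |a| + |b| ≤ 2 * max |a| |b| := by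
        linarith [le_max_left |a| |b|, le_max_right |a| |b|]
      have h2 : (|a| + |b|) ^ 6 ≤ (2 * max |a| |b|) ^ 6 := by gcongr
      have h3 : (max |a| |b|) ^ 6 ≤ a ^ 6 + b ^ 6 := by
        have ha6 : |a| ^ 6 = a ^ 6 := Even.pow_abs (by decide) a
        have hb6 : |b| ^ 6 = b ^ 6 := Even.pow_abs (by decide) b
        rcases max_choice |a| |b| with h | h
        · rw [h, ha6]; have : 0 ≤ b ^ 6 := by positivity
          linarith
        · rw [h, hb6]; have : 0 ≤ a ^ 6 := by positivity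
          linarith
      calc (|a| + |b|) ^ 6 ≤ (2 * max |a| |b|) ^ 6 := h2
        _ = 64 * (max |a| |b|) ^ 6 := by ring
        _ ≤ _ := by linarith
    rw [e5, e6]
    linarith
  have i6 : Integrable (fun x => f x ^ 6 + f' x ^ 6) := i1.add i1'
  rw [integral_const_mul, integral_add i5 i2, integral_add (i4.div_const _)
    (i6.const_mul 64), integral_div, integral_const_mul, integral_add i1 i1'] at h2
  exact h2

end Pool.Agent.H92.BN.SI
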