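import Pool.Agent.H92.BN.MI_Tool

/-!
# Module I: the functionals on `V`
-/

set_option autoImplicit false

namespace Pool.Agent.H92.BN.SI

open MeasureTheory Set Filter Topology
open scoped ContDiff InnerProductSpace ENNReal

/-- `‖u‖₆` -/
noncomputable def N6 (u : BB) : ℝ := n6 (fn u)

theorem N6_nonneg (u : BB) : 0 ≤ N6 u := n6_nonneg _

theorem p6_eq (u : BB) : p6 u = N6 u ^ 6 := (n6_pow _).symm

theorem p6_third (u : BB) : p6 u ^ ((1 : ℝ) / 3) = N6 u ^ 2 := (n6_sq _).symm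

theorem p6_nonneg (u : BB) : 0 ≤ p6 u := int6_nonneg _

theorem N6_eq_one {u : BB} (h : p6 u = 1) : N6 u = 1 := by
  unfold N6 n6
  have : ∫ x, fn u x ^ 6 = 1 := h
  rw [this, Real.one_rpow]

theorem p6_eq_one {u : BB} (h : N6 u = 1) : p6 u = 1 := by rw [p6_eq, h]; norm_num

theorem mem6 (hS : SobVStmt) {u : BB} (hu : u ∈ V univ) : MemLp (fn u) 6 volume := (hS.2 u hu).1

/-- constant of the embedding into `L⁶` -/
noncomputable def kS : ℝ := (Real.sqrt S0)⁻¹

theorem kS_pos (hS : SobVStmt) : 0 < kS := inv_pos.2 (Real.sqrt_pos.2 hS.1)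

theorem S0_N6_le (hS : SobVStmt) {u : BB} (hu : u ∈ V univ) : S0 * N6 u ^ 2 ≤ dI u u := by
  rw [← p6_third]; exact (hS.2 u hu).2

theorem N6_le (hS : SobVStmt) {u : BB} (hu : u ∈ V univ) : N6 u ≤ kS * ‖u‖ := by
  have h1 := S0_N6_le hS hu
  have h2 := dI_le u
  have h3 : Real.sqrt S0 ^ 2 = S0 := Real.sq_sqrt hS.1.le
  have h4 : (Real.sqrt S0 * N6 u) ^ 2 ≤ ‖u‖ ^ 2 := by rw [mul_pow, h3]; linarith
  have h5 : Real.sqrt S0 * N6 u ≤ ‖u‖ := by
    have := abs_le_of_sq_le_sq h4 (norm_nonneg u)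
    exact (le_abs_self _).trans this
  have h6 : 0 < Real.sqrt S0 := Real.sqrt_pos.2 hS.1
  unfold kS
  rw [inv_mul_eq_div, le_div_iff₀ h6]
  linarith

theorem N6_add_le (hS : SobVStmt) {u v : BB} (hu : u ∈ V univ) (hv : v ∈ V univ) :
    N6 (u + v) ≤ N6 u + N6 v := by
  have h := n6_add_le (mem6 hS hu) (mem6 hS hv)
  have e : n6 (fn (u + v)) = n6 (fun x => fn u x + fn v x) := n6_congr (fn_add u v)
  unfold N6
  rw [e]
  exact h

theorem N6_smul (u : BB) (c : ℝ) : N6 (c • u) = |c| * N6 u := by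
  unfold N6
  rw [← n6_smul]
  exact n6_congr (fn_smul c u)

theorem N6_neg (u : BB) : N6 (-u) = N6 u := by
  have := N6_smul u (-1)
  simpa using this

theorem abs_N6_sub (hS : SobVStmt) {u v : BB} (hu : u ∈ V univ) (hv : v ∈ V univ) :
    |N6 u - N6 v| ≤ N6 (u - v) := by
  rw [abs_le]
  constructor
  · have h := N6_add_le hS ((V univ).sub_mem hv hu) hu
    rw [sub_add_cancel] at h
    have h2 : N6 (v - u) = N6 (u - v) := by rw [← N6_neg, neg_sub]
    rw [h2] at h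
    linarith
  · have h := N6_add_le hS ((V univ).sub_mem hu hv) hv
    rw [sub_add_cancel] at h
    linarith

section Cont

variable {X : Type*} [TopologicalSpace X]

theorem continuous_of_bound {γ : X → BB} (hγ : Continuous γ) {F : X → ℝ} {c : ℝ}
    (h : ∀ x y, |F x - F y| ≤ c * ‖γ x - γ y‖) : Continuous F := by
  rw [continuous_iff_continuousAt]
  intro x
  rw [ContinuousAt, tendsto_iff_dist_tendsto_zero]
  have h1 : Tendsto (fun y => c * ‖γ y - γ x‖) (𝓝 x) (𝓝 0) := by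
    have h2 : Tendsto (fun y => γ y - γ x) (𝓝 x) (𝓝 0) := by
      have := (hγ.tendsto x).sub_const (γ x)
      simpa using this
    have h3 := h2.norm.const_mul c
    simpa using h3
  refine squeeze_zero (fun y => dist_nonneg) (fun y => ?_) h1
  rw [Real.dist_eq]
  exact h y x

theorem continuous_N6 (hS : SobVStmt) {γ : X → BB} (hγ : Continuous γ)
    (hV : ∀ x, γ x ∈ V univ) : Continuous fun x => N6 (γ x) :=
  continuous_of_bound hγ (c := kS) fun x y => (abs_N6_sub hS (hV x) (hV y)).trans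
    (N6_le hS ((V univ).sub_mem (hV x) (hV y)))

theorem p5_diff (hS : SobVStmt) {u u' v : BB} (hu : u ∈ V univ) (hu' : u' ∈ V univ)
    (hv : v ∈ V univ) {r : ℝ} (hr : 0 < r) (h : N6 (u - u') ≤ r) :
    |p5 u v - p5 u' v| ≤ 5 * r * (1 + 64 * (N6 u ^ 6 + N6 u' ^ 6) + N6 v ^ 6) := by
  have h1 := diff5 (mem6 hS hu) (mem6 hS hu') (mem6 hS hv) hr
  have e1 : ∫ x, (fn u x - fn u' x) ^ 6 = N6 (u - u') ^ 6 := by
    rw [← p6_eq]
    unfold p6
    refine integral_congr_ae ((fn_sub u u').mono fun x hx => ?_)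
    simp only [hx, Pi.sub_apply]
  rw [e1] at h1
  have e2 : ∫ x, fn u x ^ 6 = N6 u ^ 6 := p6_eq u
  have e3 : ∫ x, fn u' x ^ 6 = N6 u' ^ 6 := p6_eq u'
  have e4 : ∫ x, fn v x ^ 6 = N6 v ^ 6 := p6_eq v
  rw [e2, e3, e4] at h1
  refine h1.trans (mul_le_mul_of_nonneg_left ?_ (by positivity))
  have h2 : N6 (u - u') ^ 6 / r ^ 6 ≤ 1 := by
    rw [div_le_one (by positivity)]
    exact pow_le_pow_left₀ (N6_nonneg _) h 6
  linarith

theorem continuous_p5 (hS : SobVStmt) {γ : X → BB} (hγ : Continuous γ)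
    (hV : ∀ x, γ x ∈ V univ) {v : BB} (hv : v ∈ V univ) : Continuous fun x => p5 (γ x) v := by
  rw [continuous_iff_continuousAt]
  intro x
  rw [ContinuousAt, tendsto_iff_dist_tendsto_zero]
  set B : ℝ := 1 + 64 * (((N6 (γ x)) + 1) ^ 6 + N6 (γ x) ^ 6) + N6 v ^ 6 with hB
  have hB0 : 0 < B := by
    have := N6_nonneg (γ x)
    have := N6_nonneg v
    positivity
  -- use `r = kS ‖γ y - γ x‖ + η`
  rw [Metric.tendsto_nhds]
  intro ε hε
  set r : ℝ := ε / (10 * B) with hr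
  have hr0 : 0 < r := by positivity
  have h1 : ∀ᶠ y in 𝓝 x, kS * ‖γ y - γ x‖ < min r 1 := by
    have h2 : Tendsto (fun y => γ y - γ x) (𝓝 x) (𝓝 0) := by
      have := (hγ.tendsto x).sub_const (γ x)
      simpa using this
    have h3 := h2.norm.const_mul kS
    simp only [norm_zero, mul_zero] at h3
    exact h3.eventually (gt_mem_nhds (lt_min hr0 one_pos))
  filter_upwards [h1] with y hy
  have hN := (N6_le hS ((V univ).sub_mem (hV y) (hV x)))
  have h4 : N6 (γ y - γ x) ≤ r := hN.trans (hy.le.trans (min_le_left _ _))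
  have h5 : N6 (γ y) ≤ N6 (γ x) + 1 := by
    have h6 := (abs_le.1 (abs_N6_sub hS (hV y) (hV x))).2
    have h7 : N6 (γ y - γ x) ≤ 1 := hN.trans (hy.le.trans (min_le_right _ _))
    linarith
  have h8 := p5_diff hS (hV y) (hV x) hv hr0 h4
  have h9 : 1 + 64 * (N6 (γ y) ^ 6 + N6 (γ x) ^ 6) + N6 v ^ 6 ≤ B := by
    have : N6 (γ y) ^ 6 ≤ (N6 (γ x) + 1) ^ 6 := pow_le_pow_left₀ (N6_nonneg _) h5 6
    rw [hB]
    linarith
  rw [Real.dist_eq, Real.dist_eq, sub_zero, abs_abs]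
  calc |p5 (γ y) v - p5 (γ x) v| ≤ 5 * r * (1 + 64 * (N6 (γ y) ^ 6 + N6 (γ x) ^ 6) + N6 v ^ 6) := h8
    _ ≤ 5 * r * B := mul_le_mul_of_nonneg_left h9 (by positivity)
    _ = ε / 2 := by rw [hr]; field_simp; ring
    _ < ε := by linarith

/-- `‖u⁺‖₆` -/
noncomputable def P6 (u : BB) : ℝ := n6 (fun x => max (fn u x) 0)

theorem pp_eq (u : BB) : pp u = P6 u ^ 6 := (n6_pow _).symm

theorem memPos (hS : SobVStmt) {u : BB} (hu : u ∈ V univ) :
    MemLp (fun x => max (fn u x) 0) 6 volume := by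
  have h := mem6 hS hu
  refine h.of_le ?_ (Eventually.of_forall fun x => ?_)
  · exact (h.aestronglyMeasurable.sup aestronglyMeasurable_const)
  · rw [Real.norm_eq_abs, Real.norm_eq_abs, abs_of_nonneg (le_max_right _ _)]
    exact max_le (le_abs_self _) (abs_nonneg _)

theorem P6_le (hS : SobVStmt) {u v : BB} (hu : u ∈ V univ) (hv : v ∈ V univ) :
    P6 u ≤ P6 v + N6 (u - v) := by
  have h1 : MemLp (fun x => fn u x - fn v x) 6 volume := (mem6 hS hu).sub (mem6 hS hv)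
  have h2 : MemLp (fun x => |fn u x - fn v x|) 6 volume := by
    have := h1.norm
    simpa [Real.norm_eq_abs] using this
  have h3 := n6_add_le (memPos hS hv) h2
  have h4 : P6 u ≤ n6 (fun x => max (fn v x) 0 + |fn u x - fn v x|) := by
    refine n6_mono ((memPos hS hv).add h2) (Eventually.of_forall fun x => ?_) (memPos hS hu)
    have h5 : 0 ≤ max (fn v x) 0 := le_max_right _ _
    have h6 := abs_nonneg (fn u x - fn v x)
    rw [abs_of_nonneg (le_max_right _ _), abs_of_nonneg (add_nonneg h5 h6)]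
    refine max_le ?_ (add_nonneg h5 h6)
    have h7 := le_abs_self (fn u x - fn v x)
    have h8 := le_max_left (fn v x) 0
    linarith
  have h9 : n6 (fun x => |fn u x - fn v x|) = N6 (u - v) := by
    unfold N6 n6
    congr 1
    refine integral_congr_ae ((fn_sub u v).mono fun x hx => ?_)
    simp only [hx, Pi.sub_apply, abs6]
  rw [h9] at h3
  exact h4.trans h3

theorem continuous_pp (hS : SobVStmt) {γ : X → BB} (hγ : Continuous γ)
    (hV : ∀ x, γ x ∈ V univ) : Continuous fun x => pp (γ x) := by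
  have h : Continuous fun x => P6 (γ x) := by
    refine continuous_of_bound hγ (c := kS) fun x y => ?_
    refine le_trans ?_ (N6_le hS ((V univ).sub_mem (hV x) (hV y)))
    rw [abs_le]
    have h1 := P6_le hS (hV x) (hV y)
    have h2 := P6_le hS (hV y) (hV x)
    have h3 : N6 (γ y - γ x) = N6 (γ x - γ y) := by rw [← N6_neg, neg_sub]
    rw [h3] at h2
    constructor <;> linarith
  simp_rw [pp_eq]
  exact h.pow 6

end Cont

/-! ### linearity of `p5 u ·` -/

theorem p5_int (hS : SobVStmt) {u v : BB} (hu : u ∈ V univ) (hv : v ∈ V univ) :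
    Integrable (fun x => fn u x ^ 5 * fn v x) := integrable_pow5_mul (mem6 hS hu) (mem6 hS hv)

theorem p5_add (hS : SobVStmt) {u v w : BB} (hu : u ∈ V univ) (hv : v ∈ V univ)
    (hw : w ∈ V univ) : p5 u (v + w) = p5 u v + p5 u w := by
  unfold p5
  rw [← integral_add (p5_int hS hu hv) (p5_int hS hu hw)]
  refine integral_congr_ae ((fn_add v w).mono fun x hx => ?_)
  simp only [hx, Pi.add_apply]
  ring

theorem p5_smul (u v : BB) (c : ℝ) : p5 u (c • v) = c * p5 u v := by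
  unfold p5
  rw [← integral_const_mul]
  refine integral_congr_ae ((fn_smul c v).mono fun x hx => ?_)
  simp only [hx, Pi.smul_apply, smul_eq_mul]
  ring

theorem abs_p5_le (hS : SobVStmt) {u v : BB} (hu : u ∈ V univ) (hv : v ∈ V univ)
    (h1 : p6 u = 1) : |p5 u v| ≤ N6 v := abs_holder5 (mem6 hS hu) (mem6 hS hv) h1

/-- (B0), norm part -/
theorem N6_lower (hS : SobVStmt) {u v : BB} (hu : u ∈ V univ) (hv : v ∈ V univ)
    (h1 : p6 u = 1) : 1 + 2 * p5 u v ≤ N6 (u + v) ^ 2 := by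
  have h := lower6 (mem6 hS hu) (mem6 hS hv) h1
  have e : N6 (u + v) = n6 (fun x => fn u x + fn v x) := n6_congr (fn_add u v)
  rw [e]
  exact h

/-- second order upper bound -/
theorem N6_upper (hS : SobVStmt) {u v : BB} (hu : u ∈ V univ) (hv : v ∈ V univ)
    (h1 : p6 u = 1) {s : ℝ} (hs : 0 ≤ s) (hs1 : s ≤ 1)  :
    N6 (u + s • v) ^ 2 ≤ 1 + 2 * s * p5 u v + 19 * s ^ 2 * (1 + N6 v ^ 6) := by
  have h := upper6 (mem6 hS hu) (mem6 hS hv) h1 hs hs1
  have e1 : ∫ x, (fn u x + s * fn v x) ^ 6 = p6 (u + s • v) := by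
    unfold p6
    refine integral_congr_ae (((fn_add u (s • v)).and (fn_smul s v)).mono fun x hx => ?_)
    simp only [hx.1, Pi.add_apply, hx.2, Pi.smul_apply, smul_eq_mul]
  have e2 : ∫ x, fn v x ^ 6 = N6 v ^ 6 := p6_eq v
  have e3 : ∫ x, fn u x ^ 5 * fn v x = p5 u v := rfl
  rw [e1, e2, e3] at h
  have h0 : 0 ≤ p6 (u + s • v) := p6_nonneg _
  rw [← p6_third]
  set y := 2 * s * p5 u v + 19 * s ^ 2 * (1 + N6 v ^ 6) with hy
  have h2 : p6 (u + s • v) ≤ 1 + 3 * y := by rw [hy]; linarith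
  have h3 : p6 (u + s • v) ^ ((1 : ℝ) / 3) ≤ (1 + 3 * y) ^ ((1 : ℝ) / 3) :=
    Real.rpow_le_rpow h0 h2 (by norm_num)
  have h4 : (1 + 3 * y) ^ ((1 : ℝ) / 3) ≤ 1 + (1 : ℝ) / 3 * (3 * y) :=
    rpow_one_add_le_one_add_mul_self (by linarith) (by norm_num) (by norm_num)
  linarith

end Pool.Agent.H92.BN.SI
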