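import Pool.Agent.H92.BN.Api

/-!
# Final assembly for `S04847`
-/

set_option autoImplicit false

namespace Pool.Agent.H92.BN

open MeasureTheory Set Filter Topology
open scoped ContDiff InnerProductSpace

/-- a number `l` with `S_l ≥ 0`-type inequality is at most `l1` -/
theorem le_l1 {Ω : Set E} {l1 l2 : ℝ} {e1 e2 : BB} {f1 f2 : E → ℝ}
    (h : Eig Ω l1 l2 e1 e2 f1 f2) {l : ℝ}
    (hl : ∀ φ : E → ℝ, IsTest Ω φ → l * (∫ x, φ x ^ 2) ≤ ∫ x, ‖fderiv ℝ φ x‖ ^ 2) : l ≤ l1 := by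
  have key : e1 ∈ {w : BB | l * mI w w ≤ dI w w} := by
    refine V_induction (Ω := Ω) ?_ ?_ h.mem1
    · exact isClosed_le (continuous_const.mul (continuous_mI.comp (continuous_id.prodMk continuous_id)))
        (continuous_dI.comp (continuous_id.prodMk continuous_id))
    · intro φ hφ
      have r := rep_tb hφ
      have h1 : mI (tb φ) (tb φ) = ∫ x, φ x ^ 2 := by
        refine integral_congr_ae ?_
        filter_upwards [r.1] with x hx
        rw [hx]; ring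
      have h2 : dI (tb φ) (tb φ) = ∫ x, ‖fderiv ℝ φ x‖ ^ 2 := by
        refine integral_congr_ae ?_
        filter_upwards [r.2] with x hx
        rw [hx, real_inner_self_eq_norm_sq, norm_gradient]
      show l * mI (tb φ) (tb φ) ≤ dI (tb φ) (tb φ)
      rw [h1, h2]
      exact hl φ hφ
  have h3 : l * mI e1 e1 ≤ dI e1 e1 := key
  rw [h.eq1 e1 h.mem1, h.norm1] at h3
  linarith

/-- Druet's number is at most `l1` -/
theorem druet_le {Ω : Set E} {l1 l2 : ℝ} {e1 e2 : BB} {f1 f2 : E → ℝ}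
    (h : Eig Ω l1 l2 e1 e2 f1 f2) :
    sSup {l : ℝ | 0 < l ∧
          ∀ φ : E → ℝ, ContDiff ℝ ((⊤ : ℕ∞) : WithTop ℕ∞) φ →
            HasCompactSupport φ → tsupport φ ⊆ Ω → φ ≠ 0 →
            sInf {q : ℝ | ∃ ψ : E → ℝ,
                ContDiff ℝ ((⊤ : ℕ∞) : WithTop ℕ∞) ψ ∧ HasCompactSupport ψ ∧
                tsupport ψ ⊆ Ω ∧ ψ ≠ 0 ∧
                q = (∫ x, ‖fderiv ℝ ψ x‖ ^ 2) / (∫ x, ψ x ^ 6) ^ ((1 : ℝ) / 3)}
              ≤ ((∫ x, ‖fderiv ℝ φ x‖ ^ 2) - l * (∫ x, φ x ^ 2)) /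
                  (∫ x, φ x ^ 6) ^ ((1 : ℝ) / 3)} ≤ l1 := by
  refine Real.sSup_le ?_ h.pos.le
  rintro l ⟨hl0, hl⟩
  refine le_l1 h ?_
  intro φ hφ
  by_cases h0 : φ = 0
  · subst h0
    simp
  have h1 := hl φ hφ.smooth hφ.cpt hφ.supp h0
  have h2 : 0 ≤ sInf {q : ℝ | ∃ ψ : E → ℝ,
                ContDiff ℝ ((⊤ : ℕ∞) : WithTop ℕ∞) ψ ∧ HasCompactSupport ψ ∧
                tsupport ψ ⊆ Ω ∧ ψ ≠ 0 ∧
                q = (∫ x, ‖fderiv ℝ ψ x‖ ^ 2) / (∫ x, ψ x ^ 6) ^ ((1 : ℝ) / 3)} := by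
    refine Real.sInf_nonneg ?_
    rintro q ⟨ψ, _, _, _, _, rfl⟩
    have a1 : 0 ≤ ∫ x, ‖fderiv ℝ ψ x‖ ^ 2 := integral_nonneg fun x => by positivity
    have a2 : 0 ≤ ∫ x, ψ x ^ 6 := integral_nonneg fun x => by positivity
    positivity
  have h3 : 0 < ∫ x, φ x ^ 6 := by
    have hc : Continuous (fun x => φ x ^ 6) := hφ.smooth.continuous.pow 6
    have hcs : HasCompactSupport (fun x => φ x ^ 6) :=
      hφ.cpt.comp_left (g := fun s : ℝ => s ^ 6) (by simp)
    have hne : ∃ x, φ x ≠ 0 := by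
      by_contra hcon
      push Not at hcon
      exact h0 (funext hcon)
    obtain ⟨x, hx⟩ := hne
    exact hc.integral_pos_of_hasCompactSupport_nonneg_nonzero hcs
      (fun y => by positivity) (x := x) (by positivity)
  have h4 : 0 < (∫ x, φ x ^ 6) ^ ((1 : ℝ) / 3) := Real.rpow_pos_of_pos h3 _
  have h5 : 0 ≤ ((∫ x, ‖fderiv ℝ φ x‖ ^ 2) - l * (∫ x, φ x ^ 2)) /
                  (∫ x, φ x ^ 6) ^ ((1 : ℝ) / 3) := h2.trans h1
  have h6 : 0 ≤ (∫ x, ‖fderiv ℝ φ x‖ ^ 2) - l * (∫ x, φ x ^ 2) := by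
    by_contra hcon
    push Not at hcon
    exact absurd h5 (not_le.2 (div_neg_of_neg_of_pos hcon h4))
  linarith

theorem p5_self (u : BB) : p5 u u = p6 u := by
  unfold p5 p6
  refine integral_congr_ae (Eventually.of_forall fun x => ?_)
  show fn u x ^ 5 * fn u x = fn u x ^ 6
  ring

theorem lap_const_mul {U : E → ℝ} (hU : ContDiff ℝ ∞ U) (c : ℝ) (x : E) :
    lap (fun y => c * U y) x = c * lap U x := by
  unfold lap
  rw [Finset.mul_sum]
  refine Finset.sum_congr rfl fun i _ => ?_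
  have h1 : (fun y => fderiv ℝ (fun y => c * U y) y (EuclideanSpace.single i 1)) =
      fun y => c * fderiv ℝ U y (EuclideanSpace.single i 1) := by
    ext y
    rw [fderiv_const_mul (hU.differentiable (by simp) y)]
    simp
  rw [h1, fderiv_const_mul]
  · simp
  · have : ContDiff ℝ ∞ (fun y => fderiv ℝ U y (EuclideanSpace.single i 1)) :=
      (hU.fderiv_right (m := ∞) (by simp)).clm_apply contDiff_const
    exact this.differentiable (by simp) x

/-- one good solution -/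
theorem one_sol (hReg : RegBdStmt) {Ω : Set E} (ho : IsOpen Ω) (hb : Bornology.IsBounded Ω)
    (hs : SmoothDom Ω) {lam om : ℝ} (hom : 0 < om) {u : BB} (hu : Sol Ω lam om u)
    (h6 : p6 u = 1) :
    ∃ v : E → ℝ, ContDiff ℝ ∞ v ∧ (∀ x ∈ frontier Ω, v x = 0) ∧
      (∀ x ∈ Ω, - lap v x = lam * v x + |v x| ^ 4 * v x) ∧
      (∫ x in Ω, v x ^ 2) = Real.sqrt om * mI u u ∧
      (∫ x in Ω, v x ^ 6) = Real.sqrt om ^ 3 ∧
      (∫ x in Ω, ‖fderiv ℝ v x‖ ^ 2) = Real.sqrt om * dI u u := by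
  obtain ⟨U, hU, hfn, hgr, hbd, heq⟩ := hReg Ω ho hb hs lam om u hu
  set c : ℝ := om ^ ((1 : ℝ) / 4) with hc
  have hc0 : 0 < c := Real.rpow_pos_of_pos hom _
  have hc4 : c ^ 4 = om := by
    rw [hc, ← Real.rpow_natCast, ← Real.rpow_mul hom.le]
    norm_num
  have hc2 : c ^ 2 = Real.sqrt om := by
    rw [eq_comm, Real.sqrt_eq_iff_mul_self_eq hom.le (by positivity)]
    rw [← hc4]; ring
  have hoff := ae_zero_off ho.measurableSet hu.1
  have e2 : (∫ x in Ω, U x ^ 2) = mI u u := by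
    have h1 : (∫ x in Ω, U x ^ 2) = ∫ x in Ω, fn u x * fn u x := by
      refine integral_congr_ae ?_
      filter_upwards [hfn] with x hx
      rw [hx]; ring
    rw [h1]
    unfold mI
    refine setIntegral_eq_integral_of_ae_compl_eq_zero ?_
    filter_upwards [hoff] with x hx hx'
    rw [(hx hx').1]; ring
  have e6 : (∫ x in Ω, U x ^ 6) = 1 := by
    have h1 : (∫ x in Ω, U x ^ 6) = ∫ x in Ω, fn u x ^ 6 := by
      refine integral_congr_ae ?_
      filter_upwards [hfn] with x hx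
      rw [hx]
    rw [h1, ← h6]
    unfold p6
    refine setIntegral_eq_integral_of_ae_compl_eq_zero ?_
    filter_upwards [hoff] with x hx hx'
    rw [(hx hx').1]; ring
  have eD : (∫ x in Ω, ‖fderiv ℝ U x‖ ^ 2) = dI u u := by
    have h1 : (∫ x in Ω, ‖fderiv ℝ U x‖ ^ 2) = ∫ x in Ω, ⟪gr u x, gr u x⟫_ℝ := by
      refine integral_congr_ae ?_
      filter_upwards [hgr] with x hx
      rw [hx, real_inner_self_eq_norm_sq, norm_gradient]
    rw [h1]
    unfold dI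
    refine setIntegral_eq_integral_of_ae_compl_eq_zero ?_
    filter_upwards [hoff] with x hx hx'
    rw [(hx hx').2]; simp
  refine ⟨fun x => c * U x, contDiff_const.mul hU, fun x hx => by simp [hbd x hx], ?_, ?_, ?_, ?_⟩
  · intro x hx
    rw [lap_const_mul hU]
    have h1 := heq x hx
    have h2 : |c * U x| ^ 4 = om * U x ^ 4 := by
      rw [← abs_pow, mul_pow, hc4, abs_of_nonneg (by positivity)]
    rw [h2]
    have h3 : -(c * lap U x) = c * (- lap U x) := by ring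
    rw [h3, h1]; ring
  · have h1 : (∫ x in Ω, (c * U x) ^ 2) = c ^ 2 * ∫ x in Ω, U x ^ 2 := by
      rw [← integral_const_mul]
      congr 1; ext x; ring
    rw [h1, e2, hc2]
  · have h1 : (∫ x in Ω, (c * U x) ^ 6) = c ^ 6 * ∫ x in Ω, U x ^ 6 := by
      rw [← integral_const_mul]
      congr 1; ext x; ring
    rw [h1, e6, ← hc2]; ring
  · have h1 : (∫ x in Ω, ‖fderiv ℝ (fun y => c * U y) x‖ ^ 2) =
        c ^ 2 * ∫ x in Ω, ‖fderiv ℝ U x‖ ^ 2 := by
      rw [← integral_const_mul]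
      congr 1; ext x
      rw [fderiv_const_mul (hU.differentiable (by simp) x), norm_smul, mul_pow,
        Real.norm_eq_abs, sq_abs]
    rw [h1, eD, hc2]

/-- **Final theorem** modulo the module statements -/
theorem final (hReg : RegBdStmt) (hEig : EigStmt) (hSeq : SeqStmt) (hSob : SobVStmt) :
  ∀ Ω : Set (EuclideanSpace ℝ (Fin 3)),
    IsOpen Ω → Bornology.IsBounded Ω → IsConnected Ω →
    (∃ ρ : EuclideanSpace ℝ (Fin 3) → ℝ, ContDiff ℝ ((⊤ : ℕ∞) : WithTop ℕ∞) ρ ∧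
        Ω = {x | ρ x < 0} ∧ ∀ x, ρ x = 0 → fderiv ℝ ρ x ≠ 0) →
    ∃ lbar : ℝ,
      lbar ≠ sSup {l : ℝ | 0 < l ∧
          ∀ φ : EuclideanSpace ℝ (Fin 3) → ℝ, ContDiff ℝ ((⊤ : ℕ∞) : WithTop ℕ∞) φ →
            HasCompactSupport φ → tsupport φ ⊆ Ω → φ ≠ 0 →
            sInf {q : ℝ | ∃ ψ : EuclideanSpace ℝ (Fin 3) → ℝ,
                ContDiff ℝ ((⊤ : ℕ∞) : WithTop ℕ∞) ψ ∧ HasCompactSupport ψ ∧
                tsupport ψ ⊆ Ω ∧ ψ ≠ 0 ∧
                q = (∫ x, ‖fderiv ℝ ψ x‖ ^ 2) / (∫ x, ψ x ^ 6) ^ ((1 : ℝ) / 3)}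
              ≤ ((∫ x, ‖fderiv ℝ φ x‖ ^ 2) - l * (∫ x, φ x ^ 2)) /
                  (∫ x, φ x ^ 6) ^ ((1 : ℝ) / 3)} ∧
      ∃ lam : ℕ → ℝ, ∃ u : ℕ → EuclideanSpace ℝ (Fin 3) → ℝ,
        (∀ n, 0 < lam n) ∧
        Filter.Tendsto lam Filter.atTop (nhds lbar) ∧
        (∀ n, ContDiff ℝ ((⊤ : ℕ∞) : WithTop ℕ∞) (u n)) ∧
        (∀ n, ∀ x ∈ frontier Ω, u n x = 0) ∧
        (∀ n, ∀ x ∈ Ω,
          -(∑ i : Fin 3, fderiv ℝ (fun y => fderiv ℝ (u n) y (EuclideanSpace.single i 1)) x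
              (EuclideanSpace.single i 1))
            = lam n * u n x + |u n x| ^ 4 * u n x) ∧
        (∀ M : ℝ, ∃ N : ℕ, ∀ n ≥ N, ∃ x ∈ Ω, M < |u n x|) ∧
        ∃ C : ℝ, ∀ n,
          |(1 / 2) * (∫ x in Ω, ‖fderiv ℝ (u n) x‖ ^ 2)
            - lam n / 2 * (∫ x in Ω, u n x ^ 2)
            - (1 / 6) * (∫ x in Ω, u n x ^ 6)| ≤ C := by
  intro Ω ho hb hconn hsm
  obtain ⟨l1, l2, e1, e2, f1, f2, hE⟩ := hEig Ω ho hb hconn
  obtain ⟨a, b, ha, hb2, hsol⟩ := hSeq Ω ho hb hsm l1 l2 e1 e2 f1 f2 hE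
  have hS0 : 0 < S0 := hSob.1
  have hεn : ∀ n : ℕ, 0 < min (1 / ((n : ℝ) + 1)) (S0 / 2) := fun n => by positivity
  choose w hwV lam0 om h6 hm hla hlb hom hs using fun n : ℕ => hsol _ (hεn n)
  have hompos : ∀ n, S0 / 2 < om n := fun n => by
    have h1 := (abs_lt.1 (hom n)).1
    have h2 := min_le_right (1 / ((n : ℝ) + 1)) (S0 / 2)
    linarith
  have homle : ∀ n, om n ≤ 2 * S0 := fun n => by
    have h1 := (abs_lt.1 (hom n)).2
    have h2 := min_le_right (1 / ((n : ℝ) + 1)) (S0 / 2)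
    linarith
  choose v hv1 hv2 hv3 hv4 hv5 hv6 using fun n => one_sol hReg ho hb hsm
    (lt_trans (by positivity) (hompos n)) (hs n) (h6 n)
  -- subsequence
  obtain ⟨lbar, hlbar, φ, hφ, hφt⟩ := isCompact_Icc.tendsto_subseq (x := lam0)
    (s := Icc a b) (fun n => ⟨hla n, hlb n⟩)
  have hll : l1 < lbar := ha.trans_le hlbar.1
  refine ⟨lbar, ?_, fun n => lam0 (φ n), fun n => v (φ n), ?_, hφt, fun n => hv1 (φ n),
    fun n => hv2 (φ n), fun n => hv3 (φ n), ?_, ?_⟩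
  · have := druet_le hE
    exact (this.trans_lt hll).ne'
  · intro n
    exact hE.pos.trans (ha.trans_le (hla _))
  · -- blow-up
    intro M
    obtain ⟨N, hN⟩ := exists_nat_gt ((max M 0) ^ 4 / (S0 / 2))
    refine ⟨N, fun n hn => ?_⟩
    by_contra hcon
    push Not at hcon
    set k := φ n with hk
    have hkn : n ≤ k := hφ.id_le n
    have hM : ∀ x ∈ Ω, |v k x| ≤ max M 0 := fun x hx => (hcon x hx).trans (le_max_left _ _)
    have ompos : 0 < om k := lt_trans (by positivity) (hompos k)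
    have hsq : 0 < Real.sqrt (om k) := Real.sqrt_pos.2 ompos
    have hfin : volume Ω < ⊤ := hb.measure_lt_top
    have hI2 : IntegrableOn (fun x => v k x ^ 2) Ω volume :=
      (((hv1 k).continuous.pow 2).locallyIntegrable.integrableOn_isCompact
        hb.isCompact_closure).mono_set subset_closure
    have hI6 : IntegrableOn (fun x => v k x ^ 6) Ω volume :=
      (((hv1 k).continuous.pow 6).locallyIntegrable.integrableOn_isCompact
        hb.isCompact_closure).mono_set subset_closure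
    have h1 : (∫ x in Ω, v k x ^ 6) ≤ ∫ x in Ω, (max M 0) ^ 4 * v k x ^ 2 := by
      refine setIntegral_mono_on hI6 (hI2.const_mul _) ho.measurableSet ?_
      intro x hx
      have h2 : v k x ^ 4 ≤ (max M 0) ^ 4 := by
        have := pow_le_pow_left₀ (abs_nonneg _) (hM x hx) 4
        rwa [← abs_pow, abs_of_nonneg (by positivity : (0 : ℝ) ≤ v k x ^ 4)] at this
      nlinarith [sq_nonneg (v k x)]
    rw [integral_const_mul, hv5 k, hv4 k] at h1
    have h3 : om k ≤ (max M 0) ^ 4 * mI (w k) (w k) := by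
      have h4 : Real.sqrt (om k) ^ 3 = Real.sqrt (om k) * om k := by
        rw [pow_succ, pow_two, Real.mul_self_sqrt ompos.le]; ring
      rw [h4] at h1
      have h5 : Real.sqrt (om k) * om k ≤ Real.sqrt (om k) * ((max M 0) ^ 4 * mI (w k) (w k)) := by
        linarith
      exact le_of_mul_le_mul_left h5 hsq
    have h6' : mI (w k) (w k) < 1 / ((k : ℝ) + 1) := (hm k).trans_le (min_le_left _ _)
    have h7 : (max M 0) ^ 4 * mI (w k) (w k) ≤ (max M 0) ^ 4 * (1 / ((k : ℝ) + 1)) := by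
      have : 0 ≤ (max M 0) ^ 4 := by positivity
      exact mul_le_mul_of_nonneg_left h6'.le this
    have h8 : S0 / 2 < (max M 0) ^ 4 * (1 / ((k : ℝ) + 1)) := (hompos k).trans_le (h3.trans h7)
    have hkN : (N : ℝ) ≤ k := by exact_mod_cast (hn.le.trans hkn : N ≤ k)
    have h9 : (max M 0) ^ 4 / (S0 / 2) < (k : ℝ) + 1 := by linarith
    rw [div_lt_iff₀ (by positivity)] at h9
    rw [mul_one_div, lt_div_iff₀ (by positivity)] at h8
    linarith
  · -- energy
    refine ⟨2 * (2 * S0 + 1) * (|a| + |b| + 2 * S0 + 1 + 1) * (S0 + 1) + (2 * S0 + 1) ^ 2, ?_⟩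
    intro n
    set k := φ n with hk
    have ompos : 0 < om k := lt_trans (by positivity) (hompos k)
    rw [hv4 k, hv5 k, hv6 k]
    have hd : dI (w k) (w k) = lam0 k * mI (w k) (w k) + om k := by
      have := (hs k).2 (w k) (hwV k)
      rw [this, p5_self, h6 k, mul_one]
    rw [hd]
    have hsq3 : Real.sqrt (om k) ^ 3 = Real.sqrt (om k) * om k := by
      rw [pow_succ, pow_two, Real.mul_self_sqrt ompos.le]; ring
    rw [hsq3]
    have e : (1 / 2) * (Real.sqrt (om k) * (lam0 k * mI (w k) (w k) + om k))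
            - lam0 k / 2 * (Real.sqrt (om k) * mI (w k) (w k))
            - (1 / 6) * (Real.sqrt (om k) * om k) = (1 / 3) * (Real.sqrt (om k) * om k) := by ring
    rw [e]
    have hs1 : Real.sqrt (om k) ≤ 2 * S0 + 1 := by
      rw [Real.sqrt_le_left (by positivity)]
      nlinarith [homle k]
    have hs0 : 0 ≤ Real.sqrt (om k) := Real.sqrt_nonneg _
    rw [abs_of_nonneg (by positivity)]
    have h2 : Real.sqrt (om k) * om k ≤ (2 * S0 + 1) * (2 * S0 + 1) := by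
      have := homle k
      gcongr
      linarith
    have h3 : 0 ≤ 2 * (2 * S0 + 1) * (|a| + |b| + 2 * S0 + 1 + 1) * (S0 + 1) := by positivity
    nlinarith

end Pool.Agent.H92.BN
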