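import Pool.Agent.H92.BN.MA
import Pool.Agent.H92.BN.MB
import Pool.Agent.H92.BN.MC2
import Pool.Agent.H92.BN.MC3
import Pool.Agent.H92.BN.MC4
import Pool.Agent.H92.BN.MC5
import Pool.Agent.H92.BN.MD1
import Pool.Agent.H92.BN.MD2
import Pool.Agent.H92.BN.ME1
import Pool.Agent.H92.BN.ME2a
import Pool.Agent.H92.BN.ME2b
import Pool.Agent.H92.BN.ME3a
import Pool.Agent.H92.BN.ME3b
import Pool.Agent.H92.BN.ME4
import Pool.Agent.H92.BN.ME5
import Pool.Agent.H92.BN.ME6
import Pool.Agent.H92.BN.ME7
import Pool.Agent.H92.BN.ME8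
import Pool.Agent.H92.BN.ME9
import Pool.Agent.H92.BN.ME11b
import Pool.Agent.H92.BN.ME11
import Pool.Agent.H92.BN.MFF
import Pool.Agent.H92.BN.MG
import Pool.Agent.H92.BN.MH
import Pool.Agent.H92.BN.MI
import Pool.Agent.H92.BN.MJ

/-!
# Assembly
-/

set_option autoImplicit false

namespace Pool.Agent.H92.BN

/-- Sobolev inequality on `V univ` -/
theorem asmSob : SobVStmt := C5.sobV sobSharp

/-- tangential regularity -/
theorem asmTang : TangStmt :=
  tang (pull E2a.fam compStmt transStmt) (E3.oper asmSob) E3.deriv_stmt boot extract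

/-- interior regularity -/
theorem asmRegInt : RegIntStmt := regInt asmSob asmTang inner'

/-- eigenfunctions -/
theorem asmEig : EigStmt := eigStmt rellich poincare posPart asmRegInt strongMax

/-- the barrier -/
theorem asmBarrier : BarrierStmt := barrier asmSob posPart cut (l1l2 asmSob chain)

/-- the min-max sequence -/
theorem asmSeq : SeqStmt :=
  seqStmt asmBarrier (path bubble asmSob) (ps asmSob rellich) asmSob posPart

/-- regularity up to the boundary -/
theorem asmReg : RegBdStmt :=
  regBd asmSob asmTang inner' compStmt transStmt E2a.flat normal (seeley glob)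

end Pool.Agent.H92.BN
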