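import Pool.Agent.H92.BN.MK

/-!
# The own statement beside `S04847`: more information on the concentration value
-/

set_option autoImplicit false

namespace Pool.Agent.H92.BN

open MeasureTheory Set Filter Topology
open scoped ContDiff InnerProductSpace

/-- `mI` and `dI` of test functions -/
theorem mI_tb {Ω : Set E} {φ : E → ℝ} (hφ : IsTest Ω φ) : mI (tb φ) (tb φ) = ∫ x, φ x ^ 2 := by
  have r := rep_tb hφ
  refine integral_congr_ae ?_
  filter_upwards [r.1] with x hx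
  rw [hx]; ring

theorem dI_tb {Ω : Set E} {φ : E → ℝ} (hφ : IsTest Ω φ) :
    dI (tb φ) (tb φ) = ∫ x, ‖fderiv ℝ φ x‖ ^ 2 := by
  have r := rep_tb hφ
  refine integral_congr_ae ?_
  filter_upwards [r.2] with x hx
  rw [hx, real_inner_self_eq_norm_sq, norm_gradient]

/-- nonzero test functions have positive integrals of even powers -/
theorem test_pow_pos {Ω : Set E} {φ : E → ℝ} (hφ : IsTest Ω φ) (h0 : φ ≠ 0) {k : ℕ}
    (hk : Even k) (hk0 : k ≠ 0) : 0 < ∫ x, φ x ^ k := by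
  have hc : Continuous (fun x => φ x ^ k) := hφ.smooth.continuous.pow k
  have hcs : HasCompactSupport (fun x => φ x ^ k) :=
    hφ.cpt.comp_left (g := fun s : ℝ => s ^ k) (by simp [hk0])
  have hne : ∃ x, φ x ≠ 0 := by
    by_contra hcon
    push Not at hcon
    exact h0 (funext hcon)
  obtain ⟨x, hx⟩ := hne
  exact hc.integral_pos_of_hasCompactSupport_nonneg_nonzero hcs
    (fun y => hk.pow_nonneg _) (x := x) (pow_ne_zero _ hx)

/-- the first eigenvalue as the infimum of Rayleigh quotients of test functions -/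
theorem ray_le {Ω : Set E} {l1 l2 : ℝ} {e1 e2 : BB} {f1 f2 : E → ℝ}
    (h : Eig Ω l1 l2 e1 e2 f1 f2) :
    sInf {q : ℝ | ∃ φ : E → ℝ, IsTest Ω φ ∧ φ ≠ 0 ∧
      q = (∫ x, ‖fderiv ℝ φ x‖ ^ 2) / (∫ x, φ x ^ 2)} ≤ l1 := by
  refine le_l1 h ?_
  intro φ hφ
  by_cases h0 : φ = 0
  · subst h0
    simp
  have hp : 0 < ∫ x, φ x ^ 2 := test_pow_pos hφ h0 (by decide) (by decide)
  rw [← le_div_iff₀ hp]
  refine csInf_le ⟨0, ?_⟩ ⟨φ, hφ, h0, rfl⟩
  rintro q ⟨ψ, hψ, hψ0, rfl⟩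
  have a1 : 0 ≤ ∫ x, ‖fderiv ℝ ψ x‖ ^ 2 := integral_nonneg fun x => by positivity
  have a2 : 0 ≤ ∫ x, ψ x ^ 2 := integral_nonneg fun x => by positivity
  positivity

/-- every plane of test functions has a member of Rayleigh quotient at least `l2` -/
theorem two_dim {Ω : Set E} {l1 l2 : ℝ} {e1 e2 : BB} {f1 f2 : E → ℝ}
    (h : Eig Ω l1 l2 e1 e2 f1 f2) {φ ψ : E → ℝ} (hφ : IsTest Ω φ) (hψ : IsTest Ω ψ) :
    ∃ a b : ℝ, (a ≠ 0 ∨ b ≠ 0) ∧
      l2 * (∫ x, (a • φ + b • ψ) x ^ 2) ≤ ∫ x, ‖fderiv ℝ (a • φ + b • ψ) x‖ ^ 2 := by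
  obtain ⟨a, b, hab, hm⟩ : ∃ a b : ℝ, (a ≠ 0 ∨ b ≠ 0) ∧
      mI e1 (a • tb φ + b • tb ψ) = 0 := by
    by_cases h0 : mI e1 (tb φ) = 0
    · refine ⟨1, 0, Or.inl one_ne_zero, ?_⟩
      rw [mI_add_right, mI_smul_right, mI_smul_right, h0]; ring
    · refine ⟨mI e1 (tb ψ), - mI e1 (tb φ), Or.inr (neg_ne_zero.2 h0), ?_⟩
      rw [mI_add_right, mI_smul_right, mI_smul_right]; ring
  refine ⟨a, b, hab, ?_⟩
  have ht : IsTest Ω (a • φ + b • ψ) := (hφ.const_smul a).add (hψ.const_smul b)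
  have hrep : Rep (a • tb φ + b • tb ψ) (a • φ + b • ψ) := by
    have r1 := rep_tb hφ
    have r2 := rep_tb hψ
    refine ⟨?_, ?_⟩
    · refine (fn_add _ _).trans (EventuallyEq.add ?_ ?_)
      · exact (fn_smul _ _).trans (r1.1.const_smul a)
      · exact (fn_smul _ _).trans (r2.1.const_smul b)
    · refine (gr_add _ _).trans ?_
      rw [gradient_add' ((hφ.const_smul a).smooth.differentiable (by simp))
        ((hψ.const_smul b).smooth.differentiable (by simp)),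
        gradient_const_smul' (hφ.smooth.differentiable (by simp)),
        gradient_const_smul' (hψ.smooth.differentiable (by simp))]
      refine EventuallyEq.add ?_ ?_
      · exact (gr_smul _ _).trans (r1.2.const_smul a)
      · exact (gr_smul _ _).trans (r2.2.const_smul b)
  have he : a • tb φ + b • tb ψ = tb (a • φ + b • ψ) := hrep.eq_tb ht
  rw [he] at hm
  have := h.ray2 _ (tb_mem ht) hm
  rw [mI_tb ht, dI_tb ht] at this
  exact this

/-- solutions at parameters above `l1` change sign -/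
theorem sign_change {Ω : Set E} (ho : IsOpen Ω) {l1 l2 : ℝ} {e1 e2 : BB} {f1 f2 : E → ℝ}
    (h : Eig Ω l1 l2 e1 e2 f1 f2) {lam om : ℝ} (hl : l1 < lam) (hom : 0 < om) {u : BB}
    (hu : Sol Ω lam om u) (h6 : p6 u = 1) (s : ℝ) (hs : s = 1 ∨ s = -1)
    (hsg : ∀ᵐ x ∂(volume.restrict Ω), 0 ≤ s * fn u x) : False := by
  have hoff := ae_zero_off ho.measurableSet hu.1
  have hsg' : ∀ᵐ x : E, 0 ≤ s * fn u x := by
    have h1 := (ae_restrict_iff' ho.measurableSet).1 hsg
    filter_upwards [h1, hoff] with x h1 h2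
    by_cases hx : x ∈ Ω
    · exact h1 hx
    · rw [(h2 hx).1]; simp
  have hf1 : ∀ x, 0 ≤ f1 x := fun x => by
    by_cases hx : x ∈ Ω
    · exact (h.pos1 x hx).le
    · rw [h.out1 x hx]
  have e1' := hu.2 e1 h.mem1
  have e2' := h.eq1 u hu.1
  rw [dI_comm] at e2'
  rw [e2', mI_comm e1 u] at e1'
  have hA : 0 ≤ s * mI u e1 := by
    unfold mI
    rw [← integral_const_mul]
    refine integral_nonneg_of_ae ?_
    filter_upwards [hsg', h.rep1] with x hx h1
    rw [h1, ← mul_assoc]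
    exact mul_nonneg hx (hf1 x)
  have hB : 0 ≤ s * p5 u e1 := by
    unfold p5
    rw [← integral_const_mul]
    refine integral_nonneg_of_ae ?_
    filter_upwards [hsg', h.rep1] with x hx h1
    rw [h1, ← mul_assoc]
    refine mul_nonneg ?_ (hf1 x)
    have h2 : s * fn u x ^ 5 = (s * fn u x) * (fn u x ^ 2) ^ 2 := by ring
    show 0 ≤ s * fn u x ^ 5
    rw [h2]; positivity
  have hC : (lam - l1) * (s * mI u e1) + om * (s * p5 u e1) = 0 := by
    have : s * (l1 * mI u e1) = s * (lam * mI u e1 + om * p5 u e1) := by rw [e1']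
    linarith
  have hD : s * mI u e1 = 0 := by
    have h1 : 0 ≤ om * (s * p5 u e1) := mul_nonneg hom.le hB
    have h2 : (lam - l1) * (s * mI u e1) ≤ 0 := by linarith
    have h3 : 0 < lam - l1 := by linarith
    nlinarith
  have hE : ∫ x, s * fn u x * f1 x = 0 := by
    rw [← hD]
    unfold mI
    rw [← integral_const_mul]
    refine integral_congr_ae ?_
    filter_upwards [h.rep1] with x h1
    rw [h1]; ring
  have hint : Integrable (fun x => s * fn u x * f1 x) volume := by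
    have h1 : Integrable (fun x => fn u x * fn e1 x) volume :=
      MemLp.integrable_mul (memLp_fn u) (memLp_fn e1)
    have h2 : Integrable (fun x => s * (fn u x * fn e1 x)) volume := h1.const_mul s
    refine h2.congr ?_
    filter_upwards [h.rep1] with x h1
    rw [h1]; ring
  have hF := (integral_eq_zero_iff_of_nonneg_ae (by
    filter_upwards [hsg'] with x hx
    exact mul_nonneg hx (hf1 x)) hint).1 hE
  have hG : ∀ᵐ x : E, fn u x = 0 := by
    filter_upwards [hF, hoff] with x h1 h2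
    by_cases hx : x ∈ Ω
    · have h3 : s * fn u x * f1 x = 0 := h1
      rcases mul_eq_zero.1 h3 with h4 | h4
      · rcases mul_eq_zero.1 h4 with h5 | h5
        · rcases hs with hs | hs <;> (rw [hs] at h5; norm_num at h5)
        · exact h5
      · exact absurd h4 (h.pos1 x hx).ne'
    · exact (h2 hx).1
  have hH : p6 u = 0 := by
    unfold p6
    rw [← integral_zero E ℝ (μ := volume)]
    refine integral_congr_ae ?_
    filter_upwards [hG] with x hx
    rw [hx]; simp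
  rw [hH] at h6
  exact zero_ne_one h6

/-- `one_sol` with the sign information -/
theorem one_sol' (hReg : RegBdStmt) {Ω : Set E} (ho : IsOpen Ω) (hb : Bornology.IsBounded Ω)
    (hs : SmoothDom Ω) {l1 l2 : ℝ} {e1 e2 : BB} {f1 f2 : E → ℝ}
    (h : Eig Ω l1 l2 e1 e2 f1 f2) {lam om : ℝ} (hl : l1 < lam) (hom : 0 < om) {u : BB}
    (hu : Sol Ω lam om u) (h6 : p6 u = 1) :
    ∃ v : E → ℝ, ContDiff ℝ ∞ v ∧ (∀ x ∈ frontier Ω, v x = 0) ∧
      (∀ x ∈ Ω, - lap v x = lam * v x + |v x| ^ 4 * v x) ∧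
      (∫ x in Ω, v x ^ 2) = Real.sqrt om * mI u u ∧
      (∫ x in Ω, v x ^ 6) = Real.sqrt om ^ 3 ∧
      (∫ x in Ω, ‖fderiv ℝ v x‖ ^ 2) = Real.sqrt om * dI u u ∧
      (∃ x ∈ Ω, 0 < v x) ∧ (∃ x ∈ Ω, v x < 0) := by
  obtain ⟨U, hU, hfn, hgr, hbd, heq⟩ := hReg Ω ho hb hs lam om u hu
  set c : ℝ := om ^ ((1 : ℝ) / 4) with hc
  have hc0 : 0 < c := Real.rpow_pos_of_pos hom _
  have hc4 : c ^ 4 = om := by
    rw [hc, ← Real.rpow_natCast, ← Real.rpow_mul hom.le]
    norm_num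
  have hc2 : c ^ 2 = Real.sqrt om := by
    rw [eq_comm, Real.sqrt_eq_iff_mul_self_eq hom.le (by positivity)]
    rw [← hc4]; ring
  have hoff := ae_zero_off ho.measurableSet hu.1
  have e2 : (∫ x in Ω, U x ^ 2) = mI u u := by
    have h1 : (∫ x in Ω, U x ^ 2) = ∫ x in Ω, fn u x * fn u x := by
      refine integral_congr_ae ?_
      filter_upwards [hfn] with x hx
      rw [hx]; ring
    rw [h1]
    unfold mI
    refine setIntegral_eq_integral_of_ae_compl_eq_zero ?_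
    filter_upwards [hoff] with x hx hx'
    rw [(hx hx').1]; ring
  have e6 : (∫ x in Ω, U x ^ 6) = 1 := by
    have h1 : (∫ x in Ω, U x ^ 6) = ∫ x in Ω, fn u x ^ 6 := by
      refine integral_congr_ae ?_
      filter_upwards [hfn] with x hx
      rw [hx]
    rw [h1, ← h6]
    unfold p6
    refine setIntegral_eq_integral_of_ae_compl_eq_zero ?_
    filter_upwards [hoff] with x hx hx'
    rw [(hx hx').1]; ring
  have eD : (∫ x in Ω, ‖fderiv ℝ U x‖ ^ 2) = dI u u := by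
    have h1 : (∫ x in Ω, ‖fderiv ℝ U x‖ ^ 2) = ∫ x in Ω, ⟪gr u x, gr u x⟫_ℝ := by
      refine integral_congr_ae ?_
      filter_upwards [hgr] with x hx
      rw [hx, real_inner_self_eq_norm_sq, norm_gradient]
    rw [h1]
    unfold dI
    refine setIntegral_eq_integral_of_ae_compl_eq_zero ?_
    filter_upwards [hoff] with x hx hx'
    rw [(hx hx').2]; simp
  refine ⟨fun x => c * U x, contDiff_const.mul hU, fun x hx => by simp [hbd x hx], ?_, ?_, ?_, ?_,
    ?_, ?_⟩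
  · intro x hx
    rw [lap_const_mul hU]
    have h1 := heq x hx
    have h2 : |c * U x| ^ 4 = om * U x ^ 4 := by
      rw [← abs_pow, mul_pow, hc4, abs_of_nonneg (by positivity)]
    rw [h2]
    have h3 : -(c * lap U x) = c * (- lap U x) := by ring
    rw [h3, h1]; ring
  · have h1 : (∫ x in Ω, (c * U x) ^ 2) = c ^ 2 * ∫ x in Ω, U x ^ 2 := by
      rw [← integral_const_mul]
      congr 1; ext x; ring
    rw [h1, e2, hc2]
  · have h1 : (∫ x in Ω, (c * U x) ^ 6) = c ^ 6 * ∫ x in Ω, U x ^ 6 := by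
      rw [← integral_const_mul]
      congr 1; ext x; ring
    rw [h1, e6, ← hc2]; ring
  · have h1 : (∫ x in Ω, ‖fderiv ℝ (fun y => c * U y) x‖ ^ 2) =
        c ^ 2 * ∫ x in Ω, ‖fderiv ℝ U x‖ ^ 2 := by
      rw [← integral_const_mul]
      congr 1; ext x
      rw [fderiv_const_mul (hU.differentiable (by simp) x), norm_smul, mul_pow,
        Real.norm_eq_abs, sq_abs]
    rw [h1, eD, hc2]
  · by_contra hcon
    push Not at hcon
    refine sign_change ho h hl hom hu h6 (-1) (Or.inr rfl) ?_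
    filter_upwards [hfn, ae_restrict_mem ho.measurableSet] with x hx hxΩ
    have h1 := hcon x hxΩ
    rw [hx]
    have h2 : U x ≤ 0 := by
      by_contra h3
      push Not at h3
      exact absurd h1 (not_le.2 (mul_pos hc0 h3))
    linarith
  · by_contra hcon
    push Not at hcon
    refine sign_change ho h hl hom hu h6 1 (Or.inl rfl) ?_
    filter_upwards [hfn, ae_restrict_mem ho.measurableSet] with x hx hxΩ
    have h1 := hcon x hxΩ
    rw [hx]
    have h2 : 0 ≤ U x := by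
      by_contra h3
      push Not at h3
      exact absurd h1 (not_le.2 (mul_neg_of_pos_of_neg hc0 h3))
    linarith

/-- the sharp Sobolev constant as an infimum over test functions -/
theorem sob_eq :
    sInf {q : ℝ | ∃ φ : E → ℝ, IsTest univ φ ∧ φ ≠ 0 ∧
      q = (∫ x, ‖fderiv ℝ φ x‖ ^ 2) / (∫ x, φ x ^ 6) ^ ((1 : ℝ) / 3)} = S0 := by
  have hlow : ∀ q ∈ {q : ℝ | ∃ φ : E → ℝ, IsTest univ φ ∧ φ ≠ 0 ∧
      q = (∫ x, ‖fderiv ℝ φ x‖ ^ 2) / (∫ x, φ x ^ 6) ^ ((1 : ℝ) / 3)}, S0 ≤ q := by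
    rintro q ⟨φ, hφ, h0, rfl⟩
    have hp : 0 < ∫ x, φ x ^ 6 := test_pow_pos hφ h0 (by decide) (by decide)
    have hp' : 0 < (∫ x, φ x ^ 6) ^ ((1 : ℝ) / 3) := Real.rpow_pos_of_pos hp _
    rw [le_div_iff₀ hp']
    have := sobSharp.2 φ hφ
    simp only [norm_gradient] at this
    exact this
  obtain ⟨C, hC, hv⟩ := bubble 0 1 one_pos
  have hmem : ∀ κ : ℝ, 0 < κ → κ ≤ 1 → ∃ q ∈ {q : ℝ | ∃ φ : E → ℝ, IsTest univ φ ∧ φ ≠ 0 ∧
      q = (∫ x, ‖fderiv ℝ φ x‖ ^ 2) / (∫ x, φ x ^ 6) ^ ((1 : ℝ) / 3)}, q ≤ S0 + C * κ ^ 2 := by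
    intro κ h1 h2
    obtain ⟨v, a1, _, a3, a4, _⟩ := hv κ h1 h2
    have hne : v ≠ 0 := by
      rintro rfl
      simp at a3
    refine ⟨_, ⟨v, a1.mono (subset_univ _), hne, rfl⟩, ?_⟩
    rw [a3, Real.one_rpow, div_one]
    simp only [norm_gradient] at a4
    exact a4
  refine le_antisymm ?_ ?_
  · by_contra hcon
    push Not at hcon
    set I := sInf {q : ℝ | ∃ φ : E → ℝ, IsTest univ φ ∧ φ ≠ 0 ∧
      q = (∫ x, ‖fderiv ℝ φ x‖ ^ 2) / (∫ x, φ x ^ 6) ^ ((1 : ℝ) / 3)} with hI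
    have hCp : 0 < C := by linarith
    have hd : 0 < (I - S0) / (2 * C) := div_pos (by linarith) (by linarith)
    set κ := min 1 ((I - S0) / (2 * C)) with hκ
    have hκ0 : 0 < κ := lt_min one_pos hd
    have hκ1 : κ ≤ 1 := min_le_left _ _
    obtain ⟨q, hq, hqle⟩ := hmem κ hκ0 hκ1
    have h1 : I ≤ q := csInf_le ⟨S0, hlow⟩ hq
    have h2 : κ ^ 2 ≤ κ := by nlinarith
    have h3 : C * κ ^ 2 ≤ (I - S0) / 2 := by
      calc C * κ ^ 2 ≤ C * κ := mul_le_mul_of_nonneg_left h2 hCp.le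
        _ ≤ C * ((I - S0) / (2 * C)) := mul_le_mul_of_nonneg_left (min_le_right _ _) hCp.le
        _ = (I - S0) / 2 := by field_simp
    linarith
  · obtain ⟨q, hq, _⟩ := hmem 1 one_pos le_rfl
    exact le_csInf ⟨q, hq⟩ hlow

/-- the final theorem with all information -/
theorem final2 (Ω : Set E) (ho : IsOpen Ω) (hb : Bornology.IsBounded Ω) (hconn : IsConnected Ω)
    (hsm : SmoothDom Ω) :
    ∃ l1 l2 : ℝ, ∃ e1 e2 : BB, ∃ f1 f2 : E → ℝ, Eig Ω l1 l2 e1 e2 f1 f2 ∧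
    ∃ lbar : ℝ, l1 < lbar ∧ lbar < l2 ∧
      ∃ lam : ℕ → ℝ, ∃ u : ℕ → E → ℝ,
        (∀ n, l1 < lam n) ∧
        Tendsto lam atTop (𝓝 lbar) ∧
        (∀ n, ContDiff ℝ ∞ (u n)) ∧
        (∀ n, ∀ x ∈ frontier Ω, u n x = 0) ∧
        (∀ n, ∀ x ∈ Ω, - lap (u n) x = lam n * u n x + |u n x| ^ 4 * u n x) ∧
        (∀ n, (∃ x ∈ Ω, 0 < u n x) ∧ ∃ x ∈ Ω, u n x < 0) ∧
        (∀ M : ℝ, ∃ N : ℕ, ∀ n ≥ N, ∃ x ∈ Ω, M < |u n x|) ∧
        Tendsto (fun n => ∫ x in Ω, u n x ^ 2) atTop (𝓝 0) ∧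
        Tendsto (fun n => (1 / 2) * (∫ x in Ω, ‖fderiv ℝ (u n) x‖ ^ 2)
            - lam n / 2 * (∫ x in Ω, u n x ^ 2)
            - (1 / 6) * (∫ x in Ω, u n x ^ 6)) atTop (𝓝 (S0 ^ ((3 : ℝ) / 2) / 3)) := by
  obtain ⟨l1, l2, e1, e2, f1, f2, hE⟩ := asmEig Ω ho hb hconn
  refine ⟨l1, l2, e1, e2, f1, f2, hE, ?_⟩
  obtain ⟨a, b, ha, hb2, hsol⟩ := asmSeq Ω ho hb hsm l1 l2 e1 e2 f1 f2 hE
  have hS0 : 0 < S0 := asmSob.1
  have hεn : ∀ n : ℕ, 0 < min (1 / ((n : ℝ) + 1)) (S0 / 2) := fun n => by positivity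
  choose w hwV lam0 om h6 hm hla hlb hom hs using fun n : ℕ => hsol _ (hεn n)
  have hompos : ∀ n, S0 / 2 < om n := fun n => by
    have h1 := (abs_lt.1 (hom n)).1
    have h2 := min_le_right (1 / ((n : ℝ) + 1)) (S0 / 2)
    linarith
  have homle : ∀ n, om n ≤ 2 * S0 := fun n => by
    have h1 := (abs_lt.1 (hom n)).2
    have h2 := min_le_right (1 / ((n : ℝ) + 1)) (S0 / 2)
    linarith
  choose v hv1 hv2 hv3 hv4 hv5 hv6 hv7 hv8 using fun n => one_sol' asmReg ho hb hsm hE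
    (ha.trans_le (hla n)) (lt_trans (by positivity) (hompos n)) (hs n) (h6 n)
  -- subsequence
  obtain ⟨lbar, hlbar, φ, hφ, hφt⟩ := isCompact_Icc.tendsto_subseq (x := lam0)
    (s := Icc a b) (fun n => ⟨hla n, hlb n⟩)
  have hll : l1 < lbar := ha.trans_le hlbar.1
  have hone : Tendsto (fun n : ℕ => 1 / ((n : ℝ) + 1)) atTop (𝓝 0) :=
    tendsto_one_div_add_atTop_nhds_zero_nat
  have hmt : Tendsto (fun n => mI (w n) (w n)) atTop (𝓝 0) :=
    squeeze_zero (fun n => mI_self_nonneg _)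
      (fun n => (hm n).le.trans (min_le_left _ _)) hone
  have homt : Tendsto om atTop (𝓝 S0) := by
    rw [tendsto_iff_dist_tendsto_zero]
    refine squeeze_zero (fun n => dist_nonneg) (fun n => ?_) hone
    rw [Real.dist_eq]
    exact (hom n).le.trans (min_le_left _ _)
  have hsqt : Tendsto (fun n => Real.sqrt (om n)) atTop (𝓝 (Real.sqrt S0)) :=
    (Real.continuous_sqrt.tendsto S0).comp homt
  refine ⟨lbar, hll, hlbar.2.trans_lt hb2, fun n => lam0 (φ n), fun n => v (φ n), ?_, hφt,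
    fun n => hv1 (φ n), fun n => hv2 (φ n), fun n => hv3 (φ n), fun n => ⟨hv7 (φ n), hv8 (φ n)⟩,
    ?_, ?_, ?_⟩
  · intro n
    exact ha.trans_le (hla _)
  · -- blow-up
    intro M
    obtain ⟨N, hN⟩ := exists_nat_gt ((max M 0) ^ 4 / (S0 / 2))
    refine ⟨N, fun n hn => ?_⟩
    by_contra hcon
    push Not at hcon
    set k := φ n with hk
    have hkn : n ≤ k := hφ.id_le n
    have hM : ∀ x ∈ Ω, |v k x| ≤ max M 0 := fun x hx => (hcon x hx).trans (le_max_left _ _)
    have ompos : 0 < om k := lt_trans (by positivity) (hompos k)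
    have hsq : 0 < Real.sqrt (om k) := Real.sqrt_pos.2 ompos
    have hfin : volume Ω < ⊤ := hb.measure_lt_top
    have hI2 : IntegrableOn (fun x => v k x ^ 2) Ω volume :=
      (((hv1 k).continuous.pow 2).locallyIntegrable.integrableOn_isCompact
        hb.isCompact_closure).mono_set subset_closure
    have hI6 : IntegrableOn (fun x => v k x ^ 6) Ω volume :=
      (((hv1 k).continuous.pow 6).locallyIntegrable.integrableOn_isCompact
        hb.isCompact_closure).mono_set subset_closure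
    have h1 : (∫ x in Ω, v k x ^ 6) ≤ ∫ x in Ω, (max M 0) ^ 4 * v k x ^ 2 := by
      refine setIntegral_mono_on hI6 (hI2.const_mul _) ho.measurableSet ?_
      intro x hx
      have h2 : v k x ^ 4 ≤ (max M 0) ^ 4 := by
        have := pow_le_pow_left₀ (abs_nonneg _) (hM x hx) 4
        rwa [← abs_pow, abs_of_nonneg (by positivity : (0 : ℝ) ≤ v k x ^ 4)] at this
      nlinarith [sq_nonneg (v k x)]
    rw [integral_const_mul, hv5 k, hv4 k] at h1
    have h3 : om k ≤ (max M 0) ^ 4 * mI (w k) (w k) := by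
      have h4 : Real.sqrt (om k) ^ 3 = Real.sqrt (om k) * om k := by
        rw [pow_succ, pow_two, Real.mul_self_sqrt ompos.le]; ring
      rw [h4] at h1
      have h5 : Real.sqrt (om k) * om k ≤ Real.sqrt (om k) * ((max M 0) ^ 4 * mI (w k) (w k)) := by
        linarith
      exact le_of_mul_le_mul_left h5 hsq
    have h6' : mI (w k) (w k) < 1 / ((k : ℝ) + 1) := (hm k).trans_le (min_le_left _ _)
    have h7 : (max M 0) ^ 4 * mI (w k) (w k) ≤ (max M 0) ^ 4 * (1 / ((k : ℝ) + 1)) := by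
      have : 0 ≤ (max M 0) ^ 4 := by positivity
      exact mul_le_mul_of_nonneg_left h6'.le this
    have h8 : S0 / 2 < (max M 0) ^ 4 * (1 / ((k : ℝ) + 1)) := (hompos k).trans_le (h3.trans h7)
    have hkN : (N : ℝ) ≤ k := by exact_mod_cast (hn.le.trans hkn : N ≤ k)
    have h9 : (max M 0) ^ 4 / (S0 / 2) < (k : ℝ) + 1 := by linarith
    rw [div_lt_iff₀ (by positivity)] at h9
    rw [mul_one_div, lt_div_iff₀ (by positivity)] at h8
    linarith
  · -- mass
    have h1 : Tendsto (fun n => Real.sqrt (om n) * mI (w n) (w n)) atTop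
        (𝓝 (Real.sqrt S0 * 0)) := hsqt.mul hmt
    rw [mul_zero] at h1
    have h2 := h1.comp hφ.tendsto_atTop
    refine h2.congr fun n => ?_
    exact (hv4 (φ n)).symm
  · -- energy
    have h1 : Tendsto (fun n => (1 / 3) * (Real.sqrt (om n) * om n)) atTop
        (𝓝 ((1 / 3) * (Real.sqrt S0 * S0))) := (hsqt.mul homt).const_mul _
    have hS : S0 ^ ((3 : ℝ) / 2) / 3 = (1 / 3) * (Real.sqrt S0 * S0) := by
      have : S0 ^ ((3 : ℝ) / 2) = Real.sqrt S0 * S0 := by
        rw [show ((3 : ℝ) / 2) = 1 / 2 + 1 by norm_num, Real.rpow_add hS0, Real.rpow_one,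
          Real.sqrt_eq_rpow]
      rw [this]; ring
    rw [hS]
    have h2 := h1.comp hφ.tendsto_atTop
    refine h2.congr fun n => ?_
    set k := φ n with hk
    have ompos : 0 < om k := lt_trans (by positivity) (hompos k)
    show (1 / 3) * (Real.sqrt (om k) * om k) = _
    simp only
    rw [← hk, hv4 k, hv5 k, hv6 k]
    have hd : dI (w k) (w k) = lam0 k * mI (w k) (w k) + om k := by
      have := (hs k).2 (w k) (hwV k)
      rw [this, p5_self, h6 k, mul_one]
    rw [hd]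
    have hsq3 : Real.sqrt (om k) ^ 3 = Real.sqrt (om k) * om k := by
      rw [pow_succ, pow_two, Real.mul_self_sqrt ompos.le]; ring
    rw [hsq3]
    ring

end Pool.Agent.H92.BN
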