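import Pool.Agent.H92.BN.Own

/-!
# Two bumps with disjoint supports: the set in the definition of the second eigenvalue is not empty
-/

set_option autoImplicit false

namespace Pool.Agent.H92.BN

open MeasureTheory Set Filter Topology
open scoped ContDiff InnerProductSpace

theorem fderiv_off {φ : E → ℝ} {x : E} (h : x ∉ tsupport φ) : φ x = 0 ∧ fderiv ℝ φ x = 0 := by
  refine ⟨image_eq_zero_of_notMem_tsupport h, ?_⟩
  have h1 : x ∉ tsupport (fderiv ℝ φ) := fun h' => h (tsupport_fderiv_subset ℝ h')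
  exact image_eq_zero_of_notMem_tsupport h1

theorem int_disj {Ω : Set E} {φ ψ : E → ℝ} (hφ : IsTest Ω φ) (hψ : IsTest Ω ψ)
    (hd : Disjoint (tsupport φ) (tsupport ψ)) (a b : ℝ) :
    (∫ x, (a • φ + b • ψ) x ^ 2) = a ^ 2 * (∫ x, φ x ^ 2) + b ^ 2 * ∫ x, ψ x ^ 2 := by
  have i1 : Integrable (fun x => φ x ^ 2) volume := by
    have c1 : Continuous (fun x => φ x ^ 2) := hφ.smooth.continuous.pow 2
    exact c1.integrable_of_hasCompactSupport
      (hφ.cpt.comp_left (g := fun s : ℝ => s ^ 2) (by simp))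
  have i2 : Integrable (fun x => ψ x ^ 2) volume := by
    have c1 : Continuous (fun x => ψ x ^ 2) := hψ.smooth.continuous.pow 2
    exact c1.integrable_of_hasCompactSupport
      (hψ.cpt.comp_left (g := fun s : ℝ => s ^ 2) (by simp))
  rw [← integral_const_mul, ← integral_const_mul,
    ← integral_add (i1.const_mul _) (i2.const_mul _)]
  congr 1
  ext x
  have h0 : φ x = 0 ∨ ψ x = 0 := by
    by_cases hx : x ∈ tsupport φ
    · exact Or.inr (fderiv_off (fun h' => Set.disjoint_left.1 hd hx h')).1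
    · exact Or.inl (fderiv_off hx).1
  simp only [Pi.add_apply, Pi.smul_apply, smul_eq_mul]
  rcases h0 with h | h <;> (rw [h]; ring)

theorem dint_disj {Ω : Set E} {φ ψ : E → ℝ} (hφ : IsTest Ω φ) (hψ : IsTest Ω ψ)
    (hd : Disjoint (tsupport φ) (tsupport ψ)) (a b : ℝ) :
    (∫ x, ‖fderiv ℝ (a • φ + b • ψ) x‖ ^ 2) =
      a ^ 2 * (∫ x, ‖fderiv ℝ φ x‖ ^ 2) + b ^ 2 * ∫ x, ‖fderiv ℝ ψ x‖ ^ 2 := by
  have key : ∀ {χ : E → ℝ}, IsTest Ω χ → Integrable (fun x => ‖fderiv ℝ χ x‖ ^ 2) volume := by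
    intro χ h
    have hc : Continuous (fderiv ℝ χ) := h.smooth.continuous_fderiv (by simp)
    have c1 : Continuous (fun x => ‖fderiv ℝ χ x‖ ^ 2) := hc.norm.pow 2
    have c2 : HasCompactSupport (fun x => ‖fderiv ℝ χ x‖ ^ 2) :=
      (h.cpt.fderiv (𝕜 := ℝ)).comp_left (g := fun l : E →L[ℝ] ℝ => ‖l‖ ^ 2) (by simp)
    exact c1.integrable_of_hasCompactSupport c2
  rw [← integral_const_mul, ← integral_const_mul,
    ← integral_add ((key hφ).const_mul _) ((key hψ).const_mul _)]
  congr 1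
  ext x
  have d1 := hφ.smooth.differentiable (by simp) x
  have d2 := hψ.smooth.differentiable (by simp) x
  have hf : fderiv ℝ (a • φ + b • ψ) x = a • fderiv ℝ φ x + b • fderiv ℝ ψ x := by
    rw [fderiv_add (d1.const_smul a) (d2.const_smul b), fderiv_const_smul d1,
      fderiv_const_smul d2]
  rw [hf]
  have h0 : fderiv ℝ φ x = 0 ∨ fderiv ℝ ψ x = 0 := by
    by_cases hx : x ∈ tsupport φ
    · exact Or.inr (fderiv_off (fun h' => Set.disjoint_left.1 hd hx h')).2
    · exact Or.inl (fderiv_off hx).2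
  rcases h0 with h | h
  · rw [h]
    simp [norm_smul, mul_pow]
  · rw [h]
    simp [norm_smul, mul_pow]

theorem exists_disj {Ω : Set E} (ho : IsOpen Ω) (hne : Ω.Nonempty) :
    ∃ φ ψ : E → ℝ, IsTest Ω φ ∧ IsTest Ω ψ ∧ φ ≠ 0 ∧ ψ ≠ 0 ∧
      Disjoint (tsupport φ) (tsupport ψ) := by
  obtain ⟨x0, hx0⟩ := hne
  obtain ⟨r, hr, hball⟩ := Metric.isOpen_iff.1 ho x0 hx0
  set x1 : E := x0 + EuclideanSpace.single 0 (r / 2) with hx1
  have hdist : dist x0 x1 = r / 2 := by
    rw [hx1, dist_eq_norm]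
    have : x0 - (x0 + EuclideanSpace.single 0 (r / 2)) = - EuclideanSpace.single 0 (r / 2) := by
      abel
    rw [this, norm_neg, PiLp.norm_single, Real.norm_eq_abs, abs_of_pos (by linarith)]
  let f : ContDiffBump x0 := ⟨r / 10, r / 5, by linarith, by linarith⟩
  let g : ContDiffBump x1 := ⟨r / 10, r / 5, by linarith, by linarith⟩
  have hf : tsupport (f : E → ℝ) = Metric.closedBall x0 (r / 5) := f.tsupport_eq
  have hg : tsupport (g : E → ℝ) = Metric.closedBall x1 (r / 5) := g.tsupport_eq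
  refine ⟨f, g, ⟨f.contDiff, f.hasCompactSupport, ?_⟩, ⟨g.contDiff, g.hasCompactSupport, ?_⟩,
    ?_, ?_, ?_⟩
  · rw [hf]
    refine (Metric.closedBall_subset_ball (by linarith)).trans hball
  · rw [hg]
    refine Subset.trans ?_ hball
    intro y hy
    rw [Metric.mem_closedBall] at hy
    rw [Metric.mem_ball]
    have := dist_triangle y x1 x0
    rw [dist_comm x1 x0, hdist] at this
    linarith
  · intro h0
    have h1 : f x0 = 1 := f.one_of_mem_closedBall (Metric.mem_closedBall_self (by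
      show 0 ≤ r / 10
      linarith))
    rw [h0] at h1
    simp at h1
  · intro h0
    have h1 : g x1 = 1 := g.one_of_mem_closedBall (Metric.mem_closedBall_self (by
      show 0 ≤ r / 10
      linarith))
    rw [h0] at h1
    simp at h1
  · rw [hf, hg]
    refine Metric.closedBall_disjoint_closedBall ?_
    rw [hdist]
    linarith

/-- the second eigenvalue, from below -/
theorem le_two {Ω : Set E} (ho : IsOpen Ω) (hne : Ω.Nonempty) {l1 l2 : ℝ} {e1 e2 : BB}
    {f1 f2 : E → ℝ} (h : Eig Ω l1 l2 e1 e2 f1 f2) :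
    l2 ≤ sInf {q : ℝ | ∃ φ ψ : E → ℝ, IsTest Ω φ ∧ IsTest Ω ψ ∧
      (∀ a b : ℝ, a • φ + b • ψ = 0 → a = 0 ∧ b = 0) ∧
      ∀ a b : ℝ, (∫ x, ‖fderiv ℝ (a • φ + b • ψ) x‖ ^ 2) ≤
        q * ∫ x, (a • φ + b • ψ) x ^ 2} := by
  refine le_csInf ?_ ?_
  · obtain ⟨φ, ψ, h1, h2, h3, h4, h5⟩ := exists_disj ho hne
    have p1 : 0 < ∫ x, φ x ^ 2 := test_pow_pos h1 h3 (by decide) (by decide)
    have p2 : 0 < ∫ x, ψ x ^ 2 := test_pow_pos h2 h4 (by decide) (by decide)
    set A := ∫ x, φ x ^ 2 with hA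
    set B := ∫ x, ψ x ^ 2 with hB
    set P := ∫ x, ‖fderiv ℝ φ x‖ ^ 2 with hP
    set Q := ∫ x, ‖fderiv ℝ ψ x‖ ^ 2 with hQ
    refine ⟨max (P / A) (Q / B), φ, ψ, h1, h2, ?_, ?_⟩
    · intro a b hab
      have e := int_disj h1 h2 h5 a b
      rw [hab] at e
      simp only [Pi.zero_apply, ne_eq, OfNat.ofNat_ne_zero, not_false_eq_true, zero_pow,
        integral_zero] at e
      have e1 : 0 ≤ a ^ 2 * A := by positivity
      have e2 : 0 ≤ b ^ 2 * B := by positivity
      have e3 : a ^ 2 * A = 0 := by linarith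
      have e4 : b ^ 2 * B = 0 := by linarith
      constructor
      · rcases mul_eq_zero.1 e3 with h | h
        · exact pow_eq_zero_iff (by norm_num) |>.1 h
        · exact absurd h p1.ne'
      · rcases mul_eq_zero.1 e4 with h | h
        · exact pow_eq_zero_iff (by norm_num) |>.1 h
        · exact absurd h p2.ne'
    · intro a b
      rw [int_disj h1 h2 h5, dint_disj h1 h2 h5]
      have e1 : P ≤ max (P / A) (Q / B) * A := by
        rw [← div_le_iff₀ p1]; exact le_max_left _ _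
      have e2 : Q ≤ max (P / A) (Q / B) * B := by
        rw [← div_le_iff₀ p2]; exact le_max_right _ _
      have e3 := mul_le_mul_of_nonneg_left e1 (sq_nonneg a)
      have e4 := mul_le_mul_of_nonneg_left e2 (sq_nonneg b)
      calc a ^ 2 * P + b ^ 2 * Q
          ≤ a ^ 2 * (max (P / A) (Q / B) * A) + b ^ 2 * (max (P / A) (Q / B) * B) := by linarith
        _ = _ := by ring
  · rintro q ⟨φ, ψ, h1, h2, h3, h4⟩
    obtain ⟨a, b, hab, hle⟩ := two_dim h h1 h2
    have ht : IsTest Ω (a • φ + b • ψ) := (h1.const_smul a).add (h2.const_smul b)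
    have hne0 : a • φ + b • ψ ≠ 0 := by
      intro h0
      obtain ⟨ha, hb⟩ := h3 a b h0
      rcases hab with h | h
      · exact h ha
      · exact h hb
    have hp : 0 < ∫ x, (a • φ + b • ψ) x ^ 2 := test_pow_pos ht hne0 (by decide) (by decide)
    have := hle.trans (h4 a b)
    exact le_of_mul_le_mul_right this hp

end Pool.Agent.H92.BN
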